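import Pool.Agent.H36.PP.APB

/-!
# MP_e8b852_al, arbitrary almost polycyclic factors: definitions (groups)

Paper: `/team-store/h84_q1_general.md`.

`DC X A B`   `A, B ≤ X` and `X` is a finite union of double cosets `A f B`
`MinD G A B` minimal counterexample: `G` is a finite union of double cosets `A f B`, `A`, `B`
             almost polycyclic, `G` not almost polycyclic, minimal for `ht A + ht B`
`side A B s` the subgroup `A` (`s = false`) or `B` (`s = true`)
`ltr g x`    left translation of the line `x : G × Bool`; the line `(h, s)` stands for the coset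
             `h (side A B s)`
`UM A B D`   `D` is an ultrametric depth function on the lines (large = close)
-/

set_option autoImplicit false

namespace H84.PG

open H36.PP Subgroup

/-- `X` is a finite union of double cosets `A f B` -/
def DC {G : Type*} [Group G] (X A B : Subgroup G) : Prop :=
  A ≤ X ∧ B ≤ X ∧ ∃ F : Set G, F.Finite ∧ F ⊆ (X : Set G) ∧
    ∀ x ∈ X, ∃ a ∈ A, ∃ f ∈ F, ∃ b ∈ B, x = a * f * b

/-- `H` embeds in `K` -/
def Emb (H K : Type*) [Group H] [Group K] : Prop := ∃ f : H →* K, Function.Injective f

theorem Emb.refl {H : Type*} [Group H] : Emb H H := ⟨MonoidHom.id H, Function.injective_id⟩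

theorem Emb.trans {H K L : Type*} [Group H] [Group K] [Group L] (h : Emb H K) (k : Emb K L) :
    Emb H L := by
  obtain ⟨f, hf⟩ := h
  obtain ⟨g, hg⟩ := k
  exact ⟨g.comp f, hg.comp hf⟩

theorem Emb.of_le {G : Type*} [Group G] {H K : Subgroup G} (h : H ≤ K) : Emb H K :=
  ⟨Subgroup.inclusion h, Subgroup.inclusion_injective h⟩

theorem Emb.map {G L : Type*} [Group G] [Group L] (f : G →* L) (hf : Function.Injective f)
    (K : Subgroup G) : Emb (K.map f) K :=
  ⟨(K.equivMapOfInjective f hf).symm.toMonoidHom, (K.equivMapOfInjective f hf).symm.injective⟩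

theorem Emb.subgroupOf {G : Type*} [Group G] (K L : Subgroup G) : Emb (K.subgroupOf L) K :=
  ⟨{ toFun := fun x => ⟨((x : L) : G), Subgroup.mem_subgroupOf.1 x.2⟩
     map_one' := rfl
     map_mul' := fun _ _ => rfl }, fun x y h => by
      apply Subtype.ext
      apply Subtype.ext
      exact congrArg (fun z : K => (z : G)) h⟩

theorem Emb.ap {H K : Type*} [Group H] [Group K] (h : Emb H K) (hK : AP K) : AP H := by
  obtain ⟨f, hf⟩ := h
  exact AP.of_injective f hf hK

/-- minimal counterexample in the class of finite unions of double cosets (with respect to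
covers by double cosets of groups which embed in `A` and in `B`) -/
structure MinD (G : Type*) [Group G] (A B : Subgroup G) : Prop where
  dc : DC ⊤ A B
  apA : AP A
  apB : AP B
  nap : ¬ AP G
  min : ∀ X A' B' : Subgroup G, DC X A' B' → Emb A' A → Emb B' B →
    ht A' + ht B' < ht A + ht B → AP X

/-- the subgroup `A` (`false`) or `B` (`true`) -/
def side {G : Type*} [Group G] (A B : Subgroup G) (s : Bool) : Subgroup G := cond s B A

/-- left translation of lines -/
def ltr {G : Type*} [Group G] (g : G) (x : G × Bool) : G × Bool := (g * x.1, x.2)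

/-- an ultrametric depth function on the lines of `G`, never `-∞` (large means close) -/
structure UM {G : Type*} [Group G] (A B : Subgroup G) (D : G × Bool → G × Bool → EReal) :
    Prop where
  bot : ∀ x y, D x y ≠ ⊥
  symm : ∀ x y, D x y = D y x
  refl : ∀ x, D x x = ⊤
  tri : ∀ x y z, min (D x y) (D y z) ≤ D x z
  comp : ∀ g s, ∀ a ∈ side A B s, ∀ y, D (g * a, s) y = D (g, s) y

end H84.PG
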