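import Pool.Agent.H84.PG.MalNil
import Pool.Agent.H36.PP.Ht
import Pool.Agent.H36.PP.RFin

/-!
# Module LemF2: a good subgroup of finite index in an almost polycyclic group (IX.3)

Let `T` be almost polycyclic.  Among all subgroups `T0` of finite index with `⁅T0, T0⁆` nilpotent
(`mal_nil`) choose one with `ht ⁅T0, T0⁆` minimal.  For `T1 ≤ T0` of finite index `⁅T1, T1⁆ ≤ ⁅T0, T0⁆` is
nilpotent and `ht ⁅T1, T1⁆ ≤ ht ⁅T0, T0⁆` (`ht_mono`), so equality, and then the relative index is
not zero (`ht_lt`).  If `⁅T0, T0⁆` is finite then `T0` (finitely generated) has a centre of finite index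
(`Subgroup.finiteIndex_center` or the centraliser of the finite commutator subgroup, and
`x ↦ ⁅x, g⁆`), so it has an abelian subgroup `T'` of finite index in `T`: the first alternative.
-/

set_option autoImplicit false

namespace H84.PG

universe u

open H36.PP Subgroup

theorem lem_f2 {T : Type u} [Group T] (hT : AP T) :
    (∃ T' : Subgroup T, T'.FiniteIndex ∧ ∀ x ∈ T', ∀ y ∈ T', x * y * x⁻¹ * y⁻¹ = 1) ∨
    ∃ T0 : Subgroup T, T0.FiniteIndex ∧ Group.IsNilpotent (⁅T0, T0⁆ : Subgroup T) ∧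
      Infinite (⁅T0, T0⁆ : Subgroup T) ∧
      ∀ T1 : Subgroup T, T1.FiniteIndex → T1 ≤ T0 → (⁅T1, T1⁆).relIndex ⁅T0, T0⁆ ≠ 0 := by
  classical
  have hex : ∃ n : ℕ, ∃ T0 : Subgroup T, T0.FiniteIndex ∧
      Group.IsNilpotent (⁅T0, T0⁆ : Subgroup T) ∧ ht (⁅T0, T0⁆ : Subgroup T) = n := by
    obtain ⟨T0, h1, h2⟩ := mal_nil (ht T) T hT le_rfl
    exact ⟨_, T0, h1, h2, rfl⟩
  obtain ⟨T0, h1, h2, h3⟩ := Nat.find_spec hex
  by_cases hfin : Finite (⁅T0, T0⁆ : Subgroup T)
  · left
    have hfg : Group.FG T0 := RFin_fg hT.1 T0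
    have hcs : Finite (commutatorSet T0) := by
      have hmem : ∀ g ∈ commutatorSet T0, (g : T) ∈ (⁅T0, T0⁆ : Subgroup T) := by
        rintro g ⟨a, b, rfl⟩
        exact commutator_mem_commutator a.2 b.2
      refine Finite.of_injective (β := (⁅T0, T0⁆ : Subgroup T))
        (fun g => ⟨((g : T0) : T), hmem g g.2⟩) ?_
      intro g g' hgg
      apply Subtype.ext
      apply Subtype.ext
      exact congrArg (fun z : (⁅T0, T0⁆ : Subgroup T) => (z : T)) hgg
    have hcen : (center T0).FiniteIndex := Subgroup.finiteIndex_center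
    refine ⟨(center T0).map T0.subtype, ?_, ?_⟩
    · rw [finiteIndex_iff, index_map_subtype]
      exact mul_ne_zero hcen.index_ne_zero h1.index_ne_zero
    · rintro _ ⟨x, hx, rfl⟩ _ ⟨y, hy, rfl⟩
      have h4 : x * y = y * x := (mem_center_iff.1 hy x)
      have h5 : (x : T) * y = y * x := by
        have := congrArg Subtype.val h4
        simpa using this
      simp only [Subgroup.subtype_apply]
      rw [h5]
      group
  · right
    rw [not_finite_iff_infinite] at hfin
    refine ⟨T0, h1, h2, hfin, ?_⟩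
    intro T1 hT1 hle h0
    have hcc : (⁅T1, T1⁆ : Subgroup T) ≤ ⁅T0, T0⁆ := commutator_mono hle hle
    have hap : AP (⁅T0, T0⁆ : Subgroup T) := AP.subgroup hT _
    have hlt := ht_lt hap hcc h0
    have := h2
    have hnil : Group.IsNilpotent (⁅T1, T1⁆ : Subgroup T) :=
      Subgroup.isNilpotent_of_ker_le_center (inclusion hcc) (by
        rw [(MonoidHom.ker_eq_bot_iff _).2 (inclusion_injective hcc)]
        exact bot_le)
    have hmin := Nat.find_min' hex ⟨T1, hT1, hnil, rfl⟩
    omega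

end H84.PG
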