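import Pool.Agent.H84.PG.DCB
import Pool.Agent.H36.PP.Ht

/-!
# Module MinDB: minimal counterexamples: restriction and dichotomy (I.4 - I.8)

`AP`, `ht` of a subgroup of a subgroup and of its image are the same (`AP.congr`, `ht_congr`,
`equivMapOfInjective`, `subgroupOfEquivOfLe`).
* `symm`, `conj_right`: `DC.symm`, `DC.conj_right`; a conjugate of `B` is isomorphic to `B`.
* `restrict` (I.5): `DC.fi` and `DC.subgroupOf`; `AP`: subgroups; `nap`: `AP.of_finiteIndex`;
  `ht (A ⊓ G0) = ht A` (`ht_eq_of_relIndex`), and `DC` for subgroups of `G0` is `DC` in `G`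
  (`DC.map` with `G0.subtype`).
* `groupFG` (I.6): `DC.fg`, `AP` groups are finitely generated.
* `dich` (I.4): let `Y = A ⊔ M`; `DC Y A (B ⊓ Y)` by `DC.inter`.  If `(B ⊓ Y).relIndex B = 0` then
  `ht (B ⊓ Y) < ht B` (`ht_lt`), so `AP Y` by minimality, `AP M`: contradiction.  The same holds
  for `B^f = f B f⁻¹`, `f ∈ F` (`conj_right`).  `A f B = A B^f f` is contained in finitely many right
  cosets of `Y`: `B^f` is a finite union of `(B^f ⊓ Y) b_j`.  So `Y` has finite index; the same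
  for `B ⊔ M` by `symm`.
* `quot_ap`, `ht_quot` (I.7): the image of `A` in `G ⧸ M` has finite index (`dich`), is a quotient
  of `A` (`AP.of_surjective`, `ht_le_of_surjective`), `AP.of_finiteIndex`, `ht_eq_of_finiteIndex`.
* `norm` (I.8): `G1` the normal core of `(A ⊔ M) ⊓ (B ⊔ M)`; `M ≤ G1`.  If `M ≤ G' ≤ G1`, `g ∈ G'`,
  `g = a m` (`Subgroup.mem_sup` with `M` normal), `a = g m⁻¹ ∈ A ⊓ G'`.
-/

set_option autoImplicit false

namespace H84.PG

open H36.PP Subgroup

variable {G : Type*} [Group G] {A B : Subgroup G}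

/-- a group isomorphism given by an injective map on a subgroup -/
private theorem MinDB_ht_map {H : Type*} [Group H] (f : G →* H) (hf : Function.Injective f)
    (K : Subgroup G) : ht (K.map f) = ht K :=
  ht_congr (K.equivMapOfInjective f hf).symm

private theorem MinDB_ap_map {H : Type*} [Group H] (f : G →* H) (hf : Function.Injective f)
    (K : Subgroup G) : AP (K.map f) ↔ AP K :=
  AP.congr (K.equivMapOfInjective f hf).symm

theorem MinD.symm (h : MinD G A B) : MinD G B A :=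
  ⟨h.dc.symm, h.apB, h.apA, h.nap, fun X A' B' hdc hA hB hlt =>
    h.min X B' A' hdc.symm hB hA (by omega)⟩

theorem MinD.conj_right (h : MinD G A B) (g : G) :
    MinD G A (B.map (MulAut.conj g).toMonoidHom) := by
  have inj : Function.Injective (MulAut.conj g).toMonoidHom := (MulAut.conj g).injective
  refine ⟨h.dc.conj_right (mem_top g), h.apA, (MinDB_ap_map _ inj B).mpr h.apB, h.nap, ?_⟩
  intro X A' B' hdc hA hB hlt
  rw [MinDB_ht_map _ inj B] at hlt
  exact h.min X A' B' hdc hA (hB.trans (Emb.map _ inj B)) hlt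

theorem MinD.restrict (h : MinD G A B) (G0 : Subgroup G) (hfi : G0.FiniteIndex) :
    MinD G0 (A.subgroupOf G0) (B.subgroupOf G0) := by
  have inj : Function.Injective G0.subtype := G0.subtype_injective
  have hri : ∀ K : Subgroup G, (K ⊓ G0).relIndex K ≠ 0 := by
    intro K
    rw [inf_relIndex_left]
    exact fun h2 => hfi.index_ne_zero (index_eq_zero_of_relIndex_eq_zero h2)
  have hap : ∀ K : Subgroup G, AP K → AP (K.subgroupOf G0) := by
    intro K hK
    have e := subgroupOfEquivOfLe (inf_le_right : K ⊓ G0 ≤ G0)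
    rw [← inf_subgroupOf_right K G0]
    exact (AP.congr e).mpr (AP.mono inf_le_left hK)
  have hht : ∀ K : Subgroup G, AP K → ht (K.subgroupOf G0) = ht K := by
    intro K hK
    have e := subgroupOfEquivOfLe (inf_le_right : K ⊓ G0 ≤ G0)
    rw [← inf_subgroupOf_right K G0, ht_congr e]
    exact ht_eq_of_relIndex hK inf_le_left (hri K)
  refine ⟨?_, hap A h.apA, hap B h.apB, fun hG => h.nap (AP.of_finiteIndex G0 hfi hG), ?_⟩
  · have h1 : DC G0 (A ⊓ G0) (B ⊓ G0) := by
      refine h.dc.fi le_top ?_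
      rw [relIndex_top_right]
      exact hfi.index_ne_zero
    have h2 := h1.subgroupOf
    rwa [inf_subgroupOf_right, inf_subgroupOf_right] at h2
  · intro X A' B' hdc hA hB hlt
    rw [hht A h.apA, hht B h.apB] at hlt
    have h3 := h.min (X.map G0.subtype) (A'.map G0.subtype) (B'.map G0.subtype)
      (hdc.map G0.subtype) (((Emb.map _ inj A').trans hA).trans (Emb.subgroupOf A G0))
      (((Emb.map _ inj B').trans hB).trans (Emb.subgroupOf B G0))
      (by rw [MinDB_ht_map _ inj, MinDB_ht_map _ inj]; exact hlt)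
    exact (MinDB_ap_map _ inj X).mp h3

theorem MinD.groupFG (h : MinD G A B) : Group.FG G := by
  have hA : A.FG := (Group.fg_iff_subgroup_fg A).mp ⟨h.apA.1 ⊤⟩
  have hB : B.FG := (Group.fg_iff_subgroup_fg B).mp ⟨h.apB.1 ⊤⟩
  exact ⟨h.dc.fg hA hB⟩

private theorem MinDB_relIndex (h : MinD G A B) (M : Subgroup G) (hM : ¬ AP M) :
    (A ⊔ M).relIndex B ≠ 0 := by
  intro h0
  have h1 : (B ⊓ (A ⊔ M)).relIndex B = 0 := by
    rw [inf_relIndex_left]; exact h0
  have hdc : DC (A ⊔ M) A (B ⊓ (A ⊔ M)) := h.dc.inter le_sup_left le_top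
  have hlt := ht_lt h.apB (inf_le_left : B ⊓ (A ⊔ M) ≤ B) h1
  have hY : AP (A ⊔ M : Subgroup G) :=
    h.min (A ⊔ M) A (B ⊓ (A ⊔ M)) hdc Emb.refl (Emb.of_le inf_le_left) (by omega)
  exact hM (AP.mono le_sup_right hY)

private theorem MinDB_fi (h : MinD G A B) (M : Subgroup G) (hM : ¬ AP M) :
    (A ⊔ M).FiniteIndex := by
  set Y : Subgroup G := A ⊔ M with hY
  obtain ⟨_, _, F, hF, _, hcov⟩ := h.dc
  have key : ∀ f : G, {q : G ⧸ Y | ∃ b ∈ B, q = QuotientGroup.mk (b * f⁻¹)}.Finite := by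
    intro f
    set C : Subgroup G := B.map (MulAut.conj f).toMonoidHom with hC
    have h1 : (Y.subgroupOf C).FiniteIndex := ⟨MinDB_relIndex (h.conj_right f) M hM⟩
    have h2 : Finite (C ⧸ Y.subgroupOf C) := finite_quotient_of_finiteIndex
    refine (Set.finite_range (fun q : C ⧸ Y.subgroupOf C =>
      (QuotientGroup.mk (f⁻¹ * ((Quotient.out q : C) : G)) : G ⧸ Y))).subset ?_
    rintro q ⟨b, hb, rfl⟩
    have hbC : f * b * f⁻¹ ∈ C := ⟨b, hb, rfl⟩
    refine ⟨QuotientGroup.mk ⟨f * b * f⁻¹, hbC⟩, ?_⟩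
    have h3 := QuotientGroup.eq.mp (QuotientGroup.out_eq'
      (QuotientGroup.mk ⟨f * b * f⁻¹, hbC⟩ : C ⧸ Y.subgroupOf C))
    rw [Subgroup.mem_subgroupOf] at h3
    show QuotientGroup.mk _ = QuotientGroup.mk _
    rw [QuotientGroup.eq]
    set o : G := ((Quotient.out (QuotientGroup.mk ⟨f * b * f⁻¹, hbC⟩ : C ⧸ Y.subgroupOf C) : C) : G)
      with ho
    have h4 : o⁻¹ * (f * b * f⁻¹) ∈ Y := h3
    have h5 : (f⁻¹ * o)⁻¹ * (b * f⁻¹) = o⁻¹ * (f * b * f⁻¹) := by group
    rw [h5]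
    exact h4
  have hfin : (Set.univ : Set (G ⧸ Y)).Finite := by
    refine (hF.biUnion (fun f _ => key f)).subset ?_
    intro q _
    induction q using Quotient.inductionOn' with
    | h x =>
      obtain ⟨a, ha, f, hf, b, hb, hx⟩ := hcov x⁻¹ (mem_top _)
      refine Set.mem_iUnion₂.mpr ⟨f, hf, b⁻¹, inv_mem hb, ?_⟩
      show QuotientGroup.mk _ = QuotientGroup.mk _
      rw [QuotientGroup.eq]
      have h5 : x⁻¹ * (b⁻¹ * f⁻¹) = a := by rw [hx]; group
      rw [h5]
      exact (le_sup_left : A ≤ A ⊔ M) ha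
  have : Finite (G ⧸ Y) := Set.finite_univ_iff.mp hfin
  exact finiteIndex_of_finite_quotient

theorem MinD.dich (h : MinD G A B) (M : Subgroup G) [M.Normal] (hM : ¬ AP M) :
    (A ⊔ M).FiniteIndex ∧ (B ⊔ M).FiniteIndex :=
  ⟨MinDB_fi h M hM, MinDB_fi h.symm M hM⟩

private theorem MinDB_map_fi (h : MinD G A B) (M : Subgroup G) [M.Normal] (hM : ¬ AP M) :
    (A.map (QuotientGroup.mk' M)).FiniteIndex := by
  have hmap : (A ⊔ M).map (QuotientGroup.mk' M) = A.map (QuotientGroup.mk' M) := by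
    rw [Subgroup.map_sup]
    simp [QuotientGroup.map_mk'_self]
  rw [← hmap]
  constructor
  have h3 := Subgroup.index_map_dvd (f := QuotientGroup.mk' M) (A ⊔ M)
    (QuotientGroup.mk'_surjective M)
  intro h0
  rw [h0, zero_dvd_iff] at h3
  exact (h.dich M hM).1.index_ne_zero h3

theorem MinD.quot_ap (h : MinD G A B) (M : Subgroup G) [M.Normal] (hM : ¬ AP M) :
    AP (G ⧸ M) :=
  AP.of_finiteIndex _ (MinDB_map_fi h M hM)
    (AP.of_surjective ((QuotientGroup.mk' M).subgroupMap A)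
      (MonoidHom.subgroupMap_surjective _ _) h.apA)

theorem MinD.ht_quot (h : MinD G A B) (M : Subgroup G) [M.Normal] (hM : ¬ AP M) :
    ht (G ⧸ M) ≤ ht A := by
  rw [← ht_eq_of_finiteIndex (h.quot_ap M hM) _ (MinDB_map_fi h M hM)]
  exact ht_le_of_surjective h.apA ((QuotientGroup.mk' M).subgroupMap A)
    (MonoidHom.subgroupMap_surjective _ _)

private theorem MinDB_split (A M G' : Subgroup G) [M.Normal] (h1 : M ≤ G') (h2 : G' ≤ A ⊔ M) :
    (A ⊓ G') ⊔ M = G' := by
  apply le_antisymm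
  · exact sup_le inf_le_right h1
  · intro g hg
    have h3 : g ∈ ((A ⊔ M : Subgroup G) : Set G) := h2 hg
    rw [Subgroup.mul_normal] at h3
    obtain ⟨a, ha, m, hm, rfl⟩ := h3
    have ha' : a ∈ G' := by
      have h4 := G'.mul_mem hg (G'.inv_mem (h1 hm))
      simpa using h4
    exact mul_mem ((le_sup_left : A ⊓ G' ≤ _) ⟨ha, ha'⟩) ((le_sup_right : M ≤ _) hm)

theorem MinD.norm (h : MinD G A B) (M : Subgroup G) [M.Normal] (hM : ¬ AP M) :
    ∃ G1 : Subgroup G, G1.Normal ∧ G1.FiniteIndex ∧ M ≤ G1 ∧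
      ∀ G' : Subgroup G, M ≤ G' → G' ≤ G1 → (A ⊓ G') ⊔ M = G' ∧ (B ⊓ G') ⊔ M = G' := by
  obtain ⟨hA, hB⟩ := h.dich M hM
  have hfi : ((A ⊔ M) ⊓ (B ⊔ M) : Subgroup G).FiniteIndex := inferInstance
  refine ⟨((A ⊔ M) ⊓ (B ⊔ M)).normalCore, inferInstance, inferInstance, ?_, ?_⟩
  · exact Subgroup.normal_le_normalCore.mpr (le_inf le_sup_right le_sup_right)
  · intro G' h1 h2
    have h3 : G' ≤ (A ⊔ M) ⊓ (B ⊔ M) := h2.trans (Subgroup.normalCore_le _)
    exact ⟨MinDB_split A M G' h1 (h3.trans inf_le_left),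
      MinDB_split B M G' h1 (h3.trans inf_le_right)⟩

end H84.PG
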