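import Pool.Agent.H84.PG.LemChar
import Pool.Agent.H84.PG.MinDB
import Pool.Agent.H36.PP.BNSFin

/-!
# Module VirtAb: the case of a virtually abelian quotient (IX.2)

Suppose `N` is not finitely generated; then it is not almost polycyclic.  Let `G1` be as in
`MinD.norm` for `M = N` and `G2 = G' ⊓ G1`, of finite index, `N ≤ G2`, `(A ⊓ G2) ⊔ N = G2`,
`(B ⊓ G2) ⊔ N = G2`; all commutators of elements of `G2` lie in `N`.  Work in the group `G2`
(`MinD.restrict`), `N2 = N.subgroupOf G2`: by `lem_char` all characters which kill `N2` are good, so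
`N2` is finitely generated by `fg_step`; hence `N`.
-/

set_option autoImplicit false

namespace H84.PG

open H36.PP Subgroup

private theorem VirtAb_sup {G : Type*} [Group G] {A N G2 : Subgroup G} (hle : N ≤ G2)
    (hA : (A ⊓ G2) ⊔ N = G2) : A.subgroupOf G2 ⊔ N.subgroupOf G2 = ⊤ := by
  have h1 : (A ⊓ G2 ⊔ N).subgroupOf G2 = (A ⊓ G2).subgroupOf G2 ⊔ N.subgroupOf G2 :=
    Subgroup.subgroupOf_sup inf_le_right hle
  rw [hA, inf_subgroupOf_right] at h1
  rw [← h1]
  exact Subgroup.subgroupOf_self G2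

theorem virt_ab {G : Type*} [Group G] {A B : Subgroup G} (h : MinD G A B) (N : Subgroup G)
    [N.Normal] (G' : Subgroup G) (hfi : G'.FiniteIndex) (hN : N ≤ G')
    (hab : ∀ x ∈ G', ∀ y ∈ G', x * y * x⁻¹ * y⁻¹ ∈ N) : N.FG := by
  by_contra hfg
  have hNap : ¬ AP N := fun hap => hfg ((Group.fg_iff_subgroup_fg N).mp ⟨hap.1 ⊤⟩)
  obtain ⟨G1, hG1n, hG1fi, hNG1, hsplit⟩ := h.norm N hNap
  have hfi2 : (G' ⊓ G1 : Subgroup G).FiniteIndex := inferInstance
  set G2 : Subgroup G := G' ⊓ G1 with hG2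
  have hle : N ≤ G2 := le_inf hN hNG1
  obtain ⟨hA, hB⟩ := hsplit G2 hle inf_le_right
  have h2 := h.restrict G2 hfi2
  have hA2 := VirtAb_sup hle hA
  have hB2 := VirtAb_sup hle hB
  have key : (N.subgroupOf G2).FG := by
    refine fg_step h2.groupFG (N.subgroupOf G2) ?_ ?_
    · intro x y
      rw [mem_subgroupOf]
      exact hab x.1 (Subgroup.mem_inf.mp x.2).1 y.1 (Subgroup.mem_inf.mp y.2).1
    · intro S hf hS χ hχ hk hne
      exact lem_char h2 (N.subgroupOf G2) hA2 hB2 S hf hS χ hχ hk hne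
  have h3 : Group.FG (N.subgroupOf G2) := (Group.fg_iff_subgroup_fg _).mpr key
  refine hfg ((Group.fg_iff_subgroup_fg N).mp ?_)
  exact Group.fg_of_surjective (f := (Subgroup.subgroupOfEquivOfLe hle).toMonoidHom)
    (Subgroup.subgroupOfEquivOfLe hle).surjective

end H84.PG
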