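import Pool.Agent.H84.PG.LemF1
import Pool.Agent.H84.PG.LemF2
import Pool.Agent.H84.PG.VirtAb

/-!
# Module LemF: LEMMA F: kernels of almost polycyclic quotients are finitely generated (IX)

`lem_f_aux`: strong induction on `m = ht (G ⧸ N)`, for all `G`, `A`, `B`, `N`.  Let `T = G ⧸ N` and apply
`lem_f2`.  First alternative: `virt_ab` with `G'` the preimage of `T'`.  Second: `G'` = preimage of `T0`,
`C' = ⁅G', G'⁆ ⊔ N`, the preimage of `⁅T0, T0⁆`.  `hnil`: the image of `C'` in `T` is `⁅T0, T0⁆`.  `hfi`: for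
`G'' ≤ G'` of finite index the image `T1` of `G''` has finite index in `T`, and the index of
`⁅G'', G''⁆ ⊔ N` in `C'` is that of `⁅T1, T1⁆` in `⁅T0, T0⁆` (both contain `N` resp. are images; the preimage of
`⁅T1, T1⁆` is `⁅G'', G''⁆ ⊔ N`).  `hC`: `C'` is finitely generated: work in the group `G'`
(`MinD.restrict`); `C'.subgroupOf G'` is normal in `G'` with quotient a quotient of `G' ⧸ N` with
infinite kernel `C' / N ≅ ⁅T0, T0⁆`, almost polycyclic, of smaller height (`ht_lt_of_surjective`; `ht (G' ⧸ N) = ht (G ⧸ N)` by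
`ht_eq_of_finiteIndex`); induction hypothesis.  Then `lem_f1`.
`min_hyp`: `MinD.quot_ap`, `MinD.ht_quot`, `lem_f_aux`.
-/

set_option autoImplicit false

namespace H84.PG

universe u

open H36.PP Subgroup

private theorem LF_comm {G : Type*} [Group G] (K : Subgroup G) :
    (commutator K).map K.subtype = ⁅K, K⁆ := by
  rw [commutator_def, map_commutator, ← MonoidHom.range_eq_map, range_subtype]

private theorem LF_comap {G : Type*} [Group G] (N : Subgroup G) [N.Normal] (K : Subgroup G) :
    (⁅K.map (QuotientGroup.mk' N), K.map (QuotientGroup.mk' N)⁆).comap (QuotientGroup.mk' N) =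
      ⁅K, K⁆ ⊔ N := by
  rw [← map_commutator, comap_map_eq, QuotientGroup.ker_mk']

private theorem LF_map {G : Type*} [Group G] (N : Subgroup G) [N.Normal] (K : Subgroup G) :
    (⁅K, K⁆ ⊔ N).map (QuotientGroup.mk' N) =
      ⁅K.map (QuotientGroup.mk' N), K.map (QuotientGroup.mk' N)⁆ := by
  rw [← LF_comap, map_comap_eq_self_of_surjective (QuotientGroup.mk'_surjective N)]

private theorem LF_map_fi {G H : Type*} [Group G] [Group H] (f : G →* H)
    (hf : Function.Surjective f) (K : Subgroup G) (hK : K.FiniteIndex) :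
    (K.map f).FiniteIndex := by
  have h1 := index_map_dvd K hf
  rw [finiteIndex_iff] at hK ⊢
  intro h2
  rw [h2] at h1
  exact hK (Nat.eq_zero_of_zero_dvd h1)

private theorem LF_hC {G : Type u} [Group G] {A B : Subgroup G} (h : MinD G A B) (m : ℕ)
    (ih : ∀ (G : Type u) [Group G] (A B : Subgroup G), MinD G A B →
      ∀ (N : Subgroup G) [N.Normal], AP (G ⧸ N) → ht (G ⧸ N) < m → N.FG)
    (N : Subgroup G) [N.Normal] (hq : AP (G ⧸ N)) (hm : ht (G ⧸ N) ≤ m)
    (T0 : Subgroup (G ⧸ N)) (hfi : T0.FiniteIndex)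
    (hinf : Infinite (⁅T0, T0⁆ : Subgroup (G ⧸ N))) :
    ((⁅T0, T0⁆).comap (QuotientGroup.mk' N)).FG := by
  set p := QuotientGroup.mk' N with hp
  have hps : Function.Surjective p := QuotientGroup.mk'_surjective N
  have hG' : (T0.comap p).FiniteIndex := APB_finiteIndex_comap p T0 hfi
  have hM := h.restrict (T0.comap p) hG'
  let r : T0.comap p →* T0 := p.subgroupComap T0
  have hr : Function.Surjective r := by
    rintro ⟨y, hy⟩
    obtain ⟨x, hx⟩ := hps y
    refine ⟨⟨x, ?_⟩, Subtype.ext hx⟩
    rw [mem_comap, hx]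
    exact hy
  have hof : Function.Surjective (Abelianization.of : T0 →* Abelianization T0) :=
    QuotientGroup.mk_surjective
  let F : T0.comap p →* Abelianization T0 := Abelianization.of.comp r
  have hF : Function.Surjective F := hof.comp hr
  have hT0 : AP T0 := hq.subgroup T0
  have hk : Infinite (Abelianization.of : T0 →* Abelianization T0).ker := by
    rw [Abelianization.ker_of]
    have e := (commutator T0).equivMapOfInjective T0.subtype T0.subtype_injective
    rw [LF_comm] at e
    exact Infinite.of_injective _ e.symm.injective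
  have hlt : ht (Abelianization T0) < ht T0 := ht_lt_of_surjective hT0 _ hof hk
  have hle : ht T0 ≤ ht (G ⧸ N) := ht_le_of_injective hq T0.subtype T0.subtype_injective
  have e1 : (T0.comap p) ⧸ F.ker ≃* Abelianization T0 :=
    QuotientGroup.quotientKerEquivOfSurjective F hF
  have hab : AP (Abelianization T0) := AP.of_surjective _ hof hT0
  have hfg : F.ker.FG := by
    refine ih (T0.comap p) _ _ hM F.ker ((AP.congr e1).mpr hab) ?_
    rw [ht_congr e1]
    omega
  have heq : (⁅T0, T0⁆).comap p = F.ker.map (T0.comap p).subtype := by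
    have hmem : ∀ x : T0.comap p, x ∈ F.ker ↔ p (x : G) ∈ ⁅T0, T0⁆ := by
      intro x
      have h1 : x ∈ F.ker ↔ r x ∈ (Abelianization.of : T0 →* Abelianization T0).ker := Iff.rfl
      rw [h1, Abelianization.ker_of, ← LF_comm, mem_map]
      constructor
      · intro h2
        exact ⟨r x, h2, rfl⟩
      · rintro ⟨y, hy, hy2⟩
        have h3 : y = r x := Subtype.ext hy2
        rw [← h3]
        exact hy
    ext x
    constructor
    · intro hx
      rw [mem_comap] at hx
      have hx0 : p x ∈ T0 := commutator_le_self T0 hx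
      exact ⟨⟨x, hx0⟩, (hmem ⟨x, hx0⟩).mpr hx, rfl⟩
    · rintro ⟨y, hy, rfl⟩
      exact (hmem y).mp hy
  rw [heq]
  exact APB_fg_map _ _ hfg

theorem lem_f_aux (m : ℕ) : ∀ (G : Type u) [Group G] (A B : Subgroup G), MinD G A B →
    ∀ (N : Subgroup G) [N.Normal], AP (G ⧸ N) → ht (G ⧸ N) ≤ m → N.FG := by
  induction m using Nat.strong_induction_on with
  | _ m ih =>
  intro G _ A B h N _ hq hm
  rcases lem_f2 hq with ⟨T', hfi, hab⟩ | ⟨T0, hfi, hnil, hinf, hrel⟩
  · refine virt_ab h N (T'.comap (QuotientGroup.mk' N)) (APB_finiteIndex_comap _ T' hfi) ?_ ?_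
    · intro n hn
      rw [mem_comap, QuotientGroup.mk'_apply, (QuotientGroup.eq_one_iff n).mpr hn]
      exact T'.one_mem
    · intro x hx y hy
      have h1 := hab _ hx _ hy
      rw [← map_inv, ← map_inv, ← map_mul, ← map_mul, ← map_mul] at h1
      exact (QuotientGroup.eq_one_iff _).mp h1
  · have hps : Function.Surjective (QuotientGroup.mk' N) := QuotientGroup.mk'_surjective N
    have hG'm : (T0.comap (QuotientGroup.mk' N)).map (QuotientGroup.mk' N) = T0 :=
      map_comap_eq_self_of_surjective hps T0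
    have hC' := LF_hC h m (fun G _ A B hM N _ hq hlt =>
      ih (ht (G ⧸ N)) hlt G A B hM N hq le_rfl) N hq hm T0 hfi hinf
    refine lem_f1 h N (T0.comap (QuotientGroup.mk' N)) (APB_finiteIndex_comap _ T0 hfi) ?_ ?_ ?_ ?_
    · intro n hn
      rw [mem_comap, QuotientGroup.mk'_apply, (QuotientGroup.eq_one_iff n).mpr hn]
      exact T0.one_mem
    · rw [← LF_comap, hG'm]
      exact hC'
    · rw [LF_map, hG'm]
      exact hnil
    · intro G'' hfi'' hle
      have h1 : G''.map (QuotientGroup.mk' N) ≤ T0 := by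
        have h2 := map_mono (f := QuotientGroup.mk' N) hle
        rwa [hG'm] at h2
      have h3 := hrel _ (LF_map_fi _ hps G'' hfi'') h1
      rw [← LF_comap N G'', relIndex_comap, LF_map, hG'm]
      exact h3

theorem lem_f {G : Type u} [Group G] {A B : Subgroup G} (h : MinD G A B) (N : Subgroup G)
    [N.Normal] (hq : AP (G ⧸ N)) : N.FG :=
  lem_f_aux (ht (G ⧸ N)) G A B h N hq le_rfl

end H84.PG
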