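import Pool.Agent.H84.PG.Defs
import Pool.Agent.H36.PP.APB

/-!
# Module DCB: finite unions of double cosets (I.1 - I.3)

* `inter` (I.1): `X = ⋃ A f B`, `A ≤ Y ≤ X`.  For every `f ∈ F` for which some `f b₀ ∈ Y`, `b₀ ∈ B`,
  choose such an element `f' = f b₀`; `F'` is the set of these.  `y = a f b ∈ Y`: `f b = a⁻¹ y ∈ Y`,
  and `f b = f' (b₀⁻¹ b)` with `b₀⁻¹ b = f'⁻¹ (f b) ∈ B ⊓ Y`.
* `fi` (I.2): `A = ⋃ (A ⊓ Y) a_i`, `B = ⋃ b_j (B ⊓ Y)` (finite index, `relIndex`), so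
  `X = ⋃ (A ⊓ Y) (a_i f b_j) (B ⊓ Y)`; if an element of `Y` lies in such a set then
  `a_i f b_j ∈ Y`.
* `conj_right` (I.3): `x g = a f b` gives `x = a (f g⁻¹) (g b g⁻¹)`; `symm`: inverses; `map`.
* `fg`: `X` is generated by `A`, `F`, `B`.
-/

set_option autoImplicit false

namespace H84.PG

open H36.PP Subgroup

variable {G : Type*} [Group G] {A B : Subgroup G}

theorem DCB_tr {X Y A : Subgroup G} (hAX : A ≤ X) (hfi : Y.relIndex X ≠ 0) :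
    ∃ T : Set G, T.Finite ∧ T ⊆ (A : Set G) ∧ ∀ a ∈ A, ∃ t ∈ T, t⁻¹ * a ∈ Y := by
  classical
  have hfin : Finite (X ⧸ Y.subgroupOf X) := Nat.finite_of_card_ne_zero hfi
  let c : A → X ⧸ Y.subgroupOf X := fun a => ((inclusion hAX a : X) : X ⧸ Y.subgroupOf X)
  let s : Set.range c → A := fun q => q.2.choose
  refine ⟨Set.range (fun q => (s q : G)), Set.finite_range _, ?_, ?_⟩
  · rintro _ ⟨q, rfl⟩
    exact (s q).2
  · intro a ha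
    have hq : c ⟨a, ha⟩ ∈ Set.range c := ⟨_, rfl⟩
    refine ⟨s ⟨_, hq⟩, ⟨⟨_, hq⟩, rfl⟩, ?_⟩
    have h1 : ((inclusion hAX (s ⟨_, hq⟩) : X) : X ⧸ Y.subgroupOf X) =
        ((inclusion hAX ⟨a, ha⟩ : X) : X ⧸ Y.subgroupOf X) := hq.choose_spec
    have h2 : (inclusion hAX (s ⟨_, hq⟩))⁻¹ * (inclusion hAX ⟨a, ha⟩) ∈ Y.subgroupOf X :=
      QuotientGroup.eq.1 h1
    exact h2

theorem DC.inter {X Y : Subgroup G} (h : DC X A B) (hAY : A ≤ Y) (hYX : Y ≤ X) :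
    DC Y A (B ⊓ Y) := by
  classical
  obtain ⟨hAX, hBX, F, hF, hFX, hc⟩ := h
  have hch : ∀ f : G, ∃ b' : G, (∃ b ∈ B, f * b ∈ Y) → b' ∈ B ∧ f * b' ∈ Y := by
    intro f
    by_cases hf : ∃ b ∈ B, f * b ∈ Y
    · obtain ⟨b, hb, hfb⟩ := hf
      exact ⟨b, fun _ => ⟨hb, hfb⟩⟩
    · exact ⟨1, fun h => absurd h hf⟩
  choose β hβ using hch
  refine ⟨hAY, inf_le_right, (fun f => f * β f) '' {f ∈ F | ∃ b ∈ B, f * b ∈ Y},
    (hF.subset (Set.sep_subset _ _)).image _, ?_, ?_⟩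
  · rintro _ ⟨f, ⟨hf, hb⟩, rfl⟩
    exact (hβ f hb).2
  · intro y hy
    obtain ⟨a, ha, f, hf, b, hb, e⟩ := hc y (hYX hy)
    have hfb : f * b ∈ Y := by
      have h1 : f * b = a⁻¹ * y := by rw [e]; group
      rw [h1]
      exact Y.mul_mem (Y.inv_mem (hAY ha)) hy
    have hex : ∃ b ∈ B, f * b ∈ Y := ⟨b, hb, hfb⟩
    obtain ⟨h1, h2⟩ := hβ f hex
    refine ⟨a, ha, f * β f, ⟨f, ⟨hf, hex⟩, rfl⟩, (β f)⁻¹ * b,
      ⟨B.mul_mem (B.inv_mem h1) hb, ?_⟩, ?_⟩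
    · have h3 : (β f)⁻¹ * b = (f * β f)⁻¹ * (f * b) := by group
      rw [h3]
      exact Y.mul_mem (Y.inv_mem h2) hfb
    · rw [e]; group

theorem DC.fi {X Y : Subgroup G} (h : DC X A B) (hYX : Y ≤ X) (hfi : Y.relIndex X ≠ 0) :
    DC Y (A ⊓ Y) (B ⊓ Y) := by
  obtain ⟨hAX, hBX, F, hF, hFX, hc⟩ := h
  obtain ⟨S, hS, hSA, hSc⟩ := DCB_tr hAX hfi
  obtain ⟨T, hT, hTB, hTc⟩ := DCB_tr hBX hfi
  refine ⟨inf_le_right, inf_le_right,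
    {y | y ∈ Y ∧ ∃ s ∈ S, ∃ f ∈ F, ∃ t ∈ T, y = s⁻¹ * f * t}, ?_, fun y hy => hy.1, ?_⟩
  · refine ((hS.prod (hF.prod hT)).image (fun p => p.1⁻¹ * p.2.1 * p.2.2)).subset ?_
    rintro y ⟨-, s, hs, f, hf, t, ht, rfl⟩
    exact ⟨(s, f, t), ⟨hs, hf, ht⟩, rfl⟩
  · intro y hy
    obtain ⟨a, ha, f, hf, b, hb, e⟩ := hc y (hYX hy)
    obtain ⟨s, hs, hs'⟩ := hSc a⁻¹ (A.inv_mem ha)
    obtain ⟨t, ht, ht'⟩ := hTc b hb
    have h1 : a * s ∈ Y := by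
      have h2 := Y.inv_mem hs'
      have h3 : (s⁻¹ * a⁻¹)⁻¹ = a * s := by group
      rwa [h3] at h2
    refine ⟨a * s, ⟨A.mul_mem ha (hSA hs), h1⟩, s⁻¹ * f * t, ⟨?_, s, hs, f, hf, t, ht, rfl⟩,
      t⁻¹ * b, ⟨B.mul_mem (B.inv_mem (hTB ht)) hb, ht'⟩, ?_⟩
    · have h2 : s⁻¹ * f * t = (a * s)⁻¹ * y * (t⁻¹ * b)⁻¹ := by rw [e]; group
      rw [h2]
      exact Y.mul_mem (Y.mul_mem (Y.inv_mem h1) hy) (Y.inv_mem ht')
    · rw [e]; group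

theorem DC.conj_right {X : Subgroup G} (h : DC X A B) {g : G} (hg : g ∈ X) :
    DC X A (B.map (MulAut.conj g).toMonoidHom) := by
  obtain ⟨hAX, hBX, F, hF, hFX, hc⟩ := h
  refine ⟨hAX, ?_, (fun f => f * g⁻¹) '' F, hF.image _, ?_, ?_⟩
  · rintro _ ⟨b, hb, rfl⟩
    exact X.mul_mem (X.mul_mem hg (hBX hb)) (X.inv_mem hg)
  · rintro _ ⟨f, hf, rfl⟩
    exact X.mul_mem (hFX hf) (X.inv_mem hg)
  · intro x hx
    obtain ⟨a, ha, f, hf, b, hb, e⟩ := hc (x * g) (X.mul_mem hx hg)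
    refine ⟨a, ha, f * g⁻¹, ⟨f, hf, rfl⟩, g * b * g⁻¹, ⟨b, hb, rfl⟩, ?_⟩
    have h1 : x = a * f * b * g⁻¹ := by rw [← e]; group
    rw [h1]; group

theorem DC.symm {X : Subgroup G} (h : DC X A B) : DC X B A := by
  obtain ⟨hAX, hBX, F, hF, hFX, hc⟩ := h
  refine ⟨hBX, hAX, (fun f => f⁻¹) '' F, hF.image _, ?_, ?_⟩
  · rintro _ ⟨f, hf, rfl⟩
    exact X.inv_mem (hFX hf)
  · intro x hx
    obtain ⟨a, ha, f, hf, b, hb, e⟩ := hc x⁻¹ (X.inv_mem hx)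
    refine ⟨b⁻¹, B.inv_mem hb, f⁻¹, ⟨f, hf, rfl⟩, a⁻¹, A.inv_mem ha, ?_⟩
    rw [← inv_inv x, e]; group

theorem DC.map {H : Type*} [Group H] {X : Subgroup G} (h : DC X A B) (f : G →* H) :
    DC (X.map f) (A.map f) (B.map f) := by
  obtain ⟨hAX, hBX, F, hF, hFX, hc⟩ := h
  refine ⟨map_mono hAX, map_mono hBX, f '' F, hF.image _, ?_, ?_⟩
  · rintro _ ⟨y, hy, rfl⟩
    exact ⟨y, hFX hy, rfl⟩
  · rintro _ ⟨x, hx, rfl⟩
    obtain ⟨a, ha, y, hy, b, hb, e⟩ := hc x hx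
    refine ⟨f a, ⟨a, ha, rfl⟩, f y, ⟨y, hy, rfl⟩, f b, ⟨b, hb, rfl⟩, ?_⟩
    rw [e, map_mul, map_mul]

theorem DC.subgroupOf {X : Subgroup G} (h : DC X A B) :
    DC (⊤ : Subgroup X) (A.subgroupOf X) (B.subgroupOf X) := by
  obtain ⟨hAX, hBX, F, hF, hFX, hc⟩ := h
  refine ⟨le_top, le_top, Subtype.val ⁻¹' F, hF.preimage Subtype.val_injective.injOn,
    fun _ _ => trivial, ?_⟩
  rintro ⟨x, hx⟩ -
  obtain ⟨a, ha, f, hf, b, hb, e⟩ := hc x hx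
  exact ⟨⟨a, hAX ha⟩, ha, ⟨f, hFX hf⟩, hf, ⟨b, hBX hb⟩, hb, Subtype.ext e⟩

theorem DC.fg {X : Subgroup G} (h : DC X A B) (hA : A.FG) (hB : B.FG) : X.FG := by
  classical
  obtain ⟨hAX, hBX, F, hF, hFX, hc⟩ := h
  obtain ⟨S, hS⟩ := hA
  obtain ⟨T, hT⟩ := hB
  refine ⟨S ∪ hF.toFinset ∪ T, ?_⟩
  have hco : ((S ∪ hF.toFinset ∪ T : Finset G) : Set G) = (S : Set G) ∪ F ∪ (T : Set G) := by
    rw [Finset.coe_union, Finset.coe_union, hF.coe_toFinset]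
  rw [hco]
  apply le_antisymm
  · rw [closure_le]
    rintro x ((hx | hx) | hx)
    · exact hAX (hS ▸ subset_closure hx)
    · exact hFX hx
    · exact hBX (hT ▸ subset_closure hx)
  · intro x hx
    obtain ⟨a, ha, f, hf, b, hb, rfl⟩ := hc x hx
    have h1 : A ≤ closure ((S : Set G) ∪ F ∪ (T : Set G)) := by
      rw [← hS]
      exact closure_mono fun y hy => Or.inl (Or.inl hy)
    have h2 : B ≤ closure ((S : Set G) ∪ F ∪ (T : Set G)) := by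
      rw [← hT]
      exact closure_mono fun y hy => Or.inr hy
    exact mul_mem (mul_mem (h1 ha) (subset_closure (Or.inl (Or.inr hf)))) (h2 hb)

end H84.PG
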