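import Pool.Agent.H84.PG.AffFG
import Pool.Agent.H84.PG.DCB
import Pool.Agent.H36.PP.SolRank

/-!
# Module AbRankD: abelian normal subgroups of finite rank (II.1)

Compare the proof of `ab_rank` in `H36/PP/SolRank.lean`.  `H = A ⊓ (B ⊔ M)`; `M ⊓ B` is normalised by
`H` (`SolRank_conj`); `Q = M ⧸ (M ⊓ B)` written additively, `ARk Q r` (`FRk.of_surjective`,
`SolRank_ark`).  `H` acts on `Q` by conjugation, `δ a = ` class of `m` if `a = m b`, `m ∈ M`,
`b ∈ B` (well defined; derivation: conjugation by `a = m b` and by `b` agree on `M`).  Finitely many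
orbits: for `f ∈ F` (from `hdc`) such that `M` meets `A f B` choose `w_f = a_f f b_f ∈ M`.  Let
`w = a f b ∈ M`; `h = a a_f⁻¹ ∈ A`, and `h = w b⁻¹ b_f w_f⁻¹ ∈ M B M = B ⊔ M`.  So
`h w_f = a f b_f = w b⁻¹ b_f`, and with `h = m b'`: `w ≡ m (b' w_f b'⁻¹)` modulo `M ⊓ B`, i.e. the class of
`w` is `δ h + h · w_f`.  `aff_fg` gives that `Q` is finitely generated; `M ⊓ B` is finitely generated
by `hB`; so `M` is.
-/

set_option autoImplicit false

namespace H84.PG

open H36.PP Subgroup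

theorem ab_rankD {G : Type*} [Group G] {A B : Subgroup G} (hdc : DC ⊤ A B) (hA : AP A)
    (hB : H36.PP.Max B) (M : Subgroup G) [M.Normal] (hc : ∀ x ∈ M, ∀ y ∈ M, x * y = y * x)
    (r : ℕ) (hr : FRk M r) : M.FG := by
  classical
  let : CommGroup M := { (inferInstance : Group M) with
    mul_comm := fun x y => Subtype.ext (hc x x.2 y y.2) }
  let A' : Subgroup G := A ⊓ (B ⊔ M)
  let N0 : Subgroup M := (M ⊓ B).subgroupOf M
  have hN0 : ∀ x : M, x ∈ N0 ↔ (x : G) ∈ B := by
    intro x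
    rw [Subgroup.mem_subgroupOf, Subgroup.mem_inf]
    exact ⟨fun h => h.2, fun h => ⟨x.2, h⟩⟩
  -- conjugation
  have hconj : ∀ a : A', N0 ≤ N0.comap (MulAut.conjNormal (a : G) : M ≃* M).toMonoidHom := by
    intro a x hx
    rw [Subgroup.mem_comap, hN0]
    show ((MulAut.conjNormal (a : G) x : M) : G) ∈ B
    rw [MulAut.conjNormal_apply]
    exact (SolRank_conj hc a.2 ⟨x.2, (hN0 x).mp hx⟩).2
  let φ : A' → (M ⧸ N0 →* M ⧸ N0) := fun a =>
    QuotientGroup.map N0 N0 (MulAut.conjNormal (a : G) : M ≃* M).toMonoidHom (hconj a)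
  have hφ : ∀ (a : A') (x : M), φ a (QuotientGroup.mk x) =
      QuotientGroup.mk (MulAut.conjNormal (a : G) x) := fun a x => rfl
  let act : DistribMulAction A' (Additive (M ⧸ N0)) :=
    { smul := fun a x => Additive.ofMul (φ a (Additive.toMul x))
      one_smul := by
        intro x
        induction x using Additive.rec with | _ x
        induction x using QuotientGroup.induction_on with | _ x
        show Additive.ofMul (φ 1 (QuotientGroup.mk x)) = _
        rw [hφ]
        congr 2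
        apply Subtype.ext
        rw [MulAut.conjNormal_apply]
        simp
      mul_smul := by
        intro a b x
        induction x using Additive.rec with | _ x
        induction x using QuotientGroup.induction_on with | _ x
        show Additive.ofMul (φ (a * b) (QuotientGroup.mk x)) =
          Additive.ofMul (φ a (φ b (QuotientGroup.mk x)))
        rw [hφ, hφ, hφ]
        congr 2
        apply Subtype.ext
        rw [MulAut.conjNormal_apply, MulAut.conjNormal_apply, MulAut.conjNormal_apply]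
        simp only [Subgroup.coe_mul]
        group
      smul_zero := by
        intro a
        show Additive.ofMul (φ a 1) = _
        rw [map_one]
        rfl
      smul_add := by
        intro a x y
        show Additive.ofMul (φ a (Additive.toMul x * Additive.toMul y)) = _
        rw [map_mul]
        rfl }
  have hsmul : ∀ (a : A') (x : M), a • (Additive.ofMul (QuotientGroup.mk x : M ⧸ N0)) =
      Additive.ofMul (QuotientGroup.mk (MulAut.conjNormal (a : G) x) : M ⧸ N0) := fun a x => rfl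
  -- the derivation
  have hdec : ∀ a : A', ∃ m : M, ∃ b ∈ B, (a : G) = m * b := by
    intro a
    have h2 : (a : G) ∈ M ⊔ B := by
      rw [sup_comm]
      exact a.2.2
    obtain ⟨m, hm, b, hb, h⟩ := mem_sup_of_normal_left.mp h2
    exact ⟨⟨m, hm⟩, b, hb, h.symm⟩
  choose mm bb hbb hmb using hdec
  let δ : A' → Additive (M ⧸ N0) := fun a => Additive.ofMul (QuotientGroup.mk (mm a))
  have hδu : ∀ (a : A') (m : M) (b : G), b ∈ B → (a : G) = m * b →
      δ a = Additive.ofMul (QuotientGroup.mk m : M ⧸ N0) := by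
    intro a m b hb h
    show Additive.ofMul (QuotientGroup.mk (mm a) : M ⧸ N0) = Additive.ofMul (QuotientGroup.mk m)
    congr 1
    rw [QuotientGroup.eq, hN0]
    have h1 := hmb a
    rw [h] at h1
    have h3 : (mm a : G)⁻¹ * (m : G) = bb a * b⁻¹ := by
      rw [inv_mul_eq_iff_eq_mul, ← mul_assoc, ← h1]
      group
    simp only [Subgroup.coe_mul, Subgroup.coe_inv]
    rw [h3]
    exact B.mul_mem (hbb a) (B.inv_mem hb)
  have hδ : ∀ g h : A', δ (g * h) = δ g + g • δ h := by
    intro g h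
    have e1 : ((g * h : A') : G) =
        ((mm g * MulAut.conjNormal (g : G) (mm h) : M) : G) * (bb g * bb h) := by
      rw [Subgroup.coe_mul, Subgroup.coe_mul, MulAut.conjNormal_apply]
      have e2 : (g : G) * (mm h : G) * (g : G)⁻¹ = bb g * (mm h : G) * (bb g)⁻¹ := by
        have e3 : (bb g * (mm h : G) * (bb g)⁻¹) ∈ M := ‹M.Normal›.conj_mem _ (mm h).2 _
        have e4 := hc (mm g : G) (mm g).2 _ e3
        calc (g : G) * (mm h : G) * (g : G)⁻¹
            = (mm g : G) * (bb g * (mm h : G) * (bb g)⁻¹) * (mm g : G)⁻¹ := by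
              rw [hmb g]
              group
          _ = (bb g * (mm h : G) * (bb g)⁻¹) * (mm g : G) * (mm g : G)⁻¹ := by rw [e4]
          _ = bb g * (mm h : G) * (bb g)⁻¹ := by group
      rw [e2]
      calc (g : G) * (h : G) = (mm g : G) * bb g * ((mm h : G) * bb h) := by rw [← hmb, ← hmb]
        _ = (mm g : G) * (bb g * (mm h : G) * (bb g)⁻¹) * (bb g * bb h) := by group
    rw [hδu (g * h) (mm g * MulAut.conjNormal (g : G) (mm h)) (bb g * bb h)
      (B.mul_mem (hbb g) (hbb h)) e1]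
    rfl
  obtain ⟨-, -, F, hF, -, hFX⟩ := hdc
  have hch : ∀ f : G, ∃ w : M, (∃ w' : M, ∃ a ∈ A, ∃ b ∈ B, (w' : G) = a * f * b) →
      ∃ a ∈ A, ∃ b ∈ B, (w : G) = a * f * b := by
    intro f
    by_cases h : ∃ w' : M, ∃ a ∈ A, ∃ b ∈ B, (w' : G) = a * f * b
    · obtain ⟨w', hw'⟩ := h
      exact ⟨w', fun _ => hw'⟩
    · exact ⟨1, fun h' => absurd h' h⟩
  choose wf hwf using hch
  let W : G → Additive (M ⧸ N0) := fun f => Additive.ofMul (QuotientGroup.mk (wf f) : M ⧸ N0)
  have hcov : ∀ m : Additive (M ⧸ N0), ∃ w ∈ W '' F, ∃ h : A',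
      m = δ h + DistribMulAction.toAddMonoidEnd A' (Additive (M ⧸ N0)) h w := by
    intro x
    induction x using Additive.rec with | _ x
    induction x using QuotientGroup.induction_on with | _ m
    obtain ⟨a, ha, f, hf, b, hb, hm⟩ := hFX (m : G) (Subgroup.mem_top _)
    obtain ⟨a', ha', b', hb', hw⟩ := hwf f ⟨m, a, ha, b, hb, hm⟩
    have hβ : b⁻¹ * b' ∈ B := B.mul_mem (B.inv_mem hb) hb'
    have h1 : a * a'⁻¹ = (m : G) * (b⁻¹ * b') * (wf f : G)⁻¹ := by
      rw [hm, hw]
      group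
    have h2 : a * a'⁻¹ ∈ B ⊔ M := by
      rw [h1]
      exact mul_mem (mul_mem (mem_sup_right m.2) (mem_sup_left hβ))
        (mem_sup_right (M.inv_mem (wf f).2))
    let h : A' := ⟨a * a'⁻¹, A.mul_mem ha (A.inv_mem ha'), h2⟩
    have hcj : (b⁻¹ * b') * (wf f : G)⁻¹ * (b⁻¹ * b')⁻¹ ∈ M :=
      ‹M.Normal›.conj_mem _ (M.inv_mem (wf f).2) _
    let m' : M := m * ⟨(b⁻¹ * b') * (wf f : G)⁻¹ * (b⁻¹ * b')⁻¹, hcj⟩
    have hh : (h : G) = (m' : G) * (b⁻¹ * b') := by
      show a * a'⁻¹ = (m : G) * ((b⁻¹ * b') * (wf f : G)⁻¹ * (b⁻¹ * b')⁻¹) * (b⁻¹ * b')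
      rw [h1]
      group
    refine ⟨W f, ⟨f, hf, rfl⟩, h, ?_⟩
    rw [hδu h m' (b⁻¹ * b') hβ hh]
    show Additive.ofMul (QuotientGroup.mk m : M ⧸ N0) =
      Additive.ofMul (QuotientGroup.mk m' : M ⧸ N0) +
        h • Additive.ofMul (QuotientGroup.mk (wf f) : M ⧸ N0)
    rw [hsmul, ← ofMul_mul, ← QuotientGroup.mk_mul]
    congr 2
    apply Subtype.ext
    rw [Subgroup.coe_mul, MulAut.conjNormal_apply]
    have e3 : (b⁻¹ * b') * (wf f : G) * (b⁻¹ * b')⁻¹ ∈ M :=
      ‹M.Normal›.conj_mem _ (wf f).2 _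
    have e4 := hc (m' : G) m'.2 _ e3
    have e5 : (h : G) * (wf f : G) * (h : G)⁻¹ = (b⁻¹ * b') * (wf f : G) * (b⁻¹ * b')⁻¹ := by
      calc (h : G) * (wf f : G) * (h : G)⁻¹
          = (m' : G) * ((b⁻¹ * b') * (wf f : G) * (b⁻¹ * b')⁻¹) * (m' : G)⁻¹ := by
            rw [hh]
            group
        _ = ((b⁻¹ * b') * (wf f : G) * (b⁻¹ * b')⁻¹) * (m' : G) * (m' : G)⁻¹ := by rw [e4]
        _ = (b⁻¹ * b') * (wf f : G) * (b⁻¹ * b')⁻¹ := by group
    rw [e5]
    show (m : G) = (m : G) * ((b⁻¹ * b') * (wf f : G)⁻¹ * (b⁻¹ * b')⁻¹) *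
      ((b⁻¹ * b') * (wf f : G) * (b⁻¹ * b')⁻¹)
    group
  have hA'le : A' ≤ A := inf_le_left
  have hA' : AP A' := hA.mono hA'le
  have hrk : ARk (Additive (M ⧸ N0)) r :=
    SolRank_ark (hr.of_surjective (QuotientGroup.mk' N0) (QuotientGroup.mk'_surjective N0))
  have hfg : AddGroup.FG (Additive (M ⧸ N0)) := 
    aff_fg hA' (DistribMulAction.toAddMonoidEnd A' (Additive (M ⧸ N0))) r hrk δ hδ
      (W '' F) (hF.image W) hcov
  have hfg' : Group.FG (M ⧸ N0) := GroupFG.iff_add_fg.mpr hfg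
  have hmax1 : H36.PP.Max N0 := by
    let f : N0 →* B :=
      { toFun := fun x => ⟨((x : M) : G), (hN0 x.1).mp x.2⟩
        map_one' := rfl
        map_mul' := fun _ _ => rfl }
    refine H36.PP.Max.of_injective f ?_ hB
    intro x y hxy
    apply Subtype.ext
    apply Subtype.ext
    exact congrArg (fun z : B => (z : G)) hxy
  have hmax2 : H36.PP.Max (M ⧸ N0) := (AP.of_comm_fg (fun x y => mul_comm x y) hfg').1
  have hM : H36.PP.Max M := H36.PP.Max.ext N0 hmax1 hmax2
  have := hM ⊤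
  exact (Group.fg_iff_subgroup_fg M).mp ⟨this⟩

end H84.PG
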