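import Pool.Agent.H36.PP.BNSD

/-!
# Module ActEx: the action on characters (IX.4)

`chr π u` is linear in `u`, and injective in `u` because `π` is surjective (take `c` with
`π c = e_i`).  So for `g : G` there is a unique `M g u` with
`chr π (M g u) c = chr π u (g c g⁻¹)` (`hchar`), linear in `u`; `M (g h) = M h ∘ M g`, and
`M c = 1` for `c ∈ C` (`chr π u (c c' c⁻¹) = chr π u c'`).  So `M g` depends only on `p g` (if
`p g = p g'` then `g' = g c`), `M g` is invertible with inverse `M g⁻¹`, and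
`ρ (p g) = M g` is a homomorphism (`M h ∘ M g = M (g h) = M (h g)` since `X` is commutative).
-/

set_option autoImplicit false

namespace H84.PG

open H36.PP Subgroup

section ActExAux

variable {G : Type*} [Group G] (C : Subgroup G) [hCn : C.Normal] {k : ℕ}
  (π : C →* Multiplicative (Fin k → ℤ))

/-- conjugation of an element of `C` -/
def ActEx_cj (g : G) (c : C) : C := ⟨g * c * g⁻¹, hCn.conj_mem c c.2 g⟩

theorem ActEx_cj_mul (g h : G) (c : C) :
    ActEx_cj C (g * h) c = ActEx_cj C g (ActEx_cj C h c) := by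
  apply Subtype.ext
  simp only [ActEx_cj]
  group

theorem ActEx_cj_one (c : C) : ActEx_cj C 1 c = c := by
  apply Subtype.ext
  simp [ActEx_cj]

/-- the linear map `M g`, computed from elements `e i` with `π (e i)` the `i`-th unit vector -/
def ActEx_N (e : Fin k → C) (g : G) : (Fin k → ℝ) →ₗ[ℝ] (Fin k → ℝ) where
  toFun u i := chr π u (ActEx_cj C g (e i))
  map_add' u v := by
    funext i
    simp only [chr, Pi.add_apply, add_mul, Finset.sum_add_distrib]
  map_smul' a u := by
    funext i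
    simp only [chr, Pi.smul_apply, smul_eq_mul, RingHom.id_apply, Finset.mul_sum, mul_assoc]

omit hCn in
theorem ActEx_coord {e : Fin k → C}
    (he : ∀ i, π (e i) = Multiplicative.ofAdd (Pi.single i 1)) (u : Fin k → ℝ) (i : Fin k) :
    chr π u (e i) = u i := by
  unfold chr
  rw [he, toAdd_ofAdd, Finset.sum_eq_single i]
  · simp
  · intro j _ hj
    simp [hj]
  · intro hj
    exact absurd (Finset.mem_univ i) hj

omit hCn in
theorem ActEx_inj {e : Fin k → C}
    (he : ∀ i, π (e i) = Multiplicative.ofAdd (Pi.single i 1)) {u v : Fin k → ℝ}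
    (h : ∀ c, chr π u c = chr π v c) : u = v := by
  funext i
  rw [← ActEx_coord C π he u i, ← ActEx_coord C π he v i, h]

theorem ActEx_spec {e : Fin k → C}
    (he : ∀ i, π (e i) = Multiplicative.ofAdd (Pi.single i 1))
    (hchar : ∀ (u : Fin k → ℝ) (g : G), ∃ u' : Fin k → ℝ, ∀ c : C,
      chr π u' c = chr π u ⟨g * c * g⁻¹, hCn.conj_mem c c.2 g⟩)
    (g : G) (u : Fin k → ℝ) (c : C) :
    chr π (ActEx_N C π e g u) c = chr π u (ActEx_cj C g c) := by
  obtain ⟨u', hu'⟩ := hchar u g
  have h : ActEx_N C π e g u = u' := by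
    funext i
    have h1 := hu' (e i)
    rw [ActEx_coord C π he] at h1
    exact h1.symm
  rw [h]
  exact hu' c

end ActExAux

theorem act_exists {G : Type*} [Group G] (C : Subgroup G) [hCn : C.Normal] {X : Type*}
    [AddCommGroup X] (p : G → X) (hp : ∀ g h, p (g * h) = p g + p h)
    (hs : Function.Surjective p) (hk : ∀ g, p g = 0 ↔ g ∈ C) {k : ℕ}
    (π : C →* Multiplicative (Fin k → ℤ)) (hπ : Function.Surjective π)
    (hchar : ∀ (u : Fin k → ℝ) (g : G), ∃ u' : Fin k → ℝ, ∀ c : C,
      chr π u' c = chr π u ⟨g * c * g⁻¹, hCn.conj_mem c c.2 g⟩) :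
    ∃ ρ : Multiplicative X →* ((Fin k → ℝ) ≃ₗ[ℝ] (Fin k → ℝ)), ∀ (g : G) (u : Fin k → ℝ)
      (c : C), chr π (ρ (Multiplicative.ofAdd (p g)) u) c =
        chr π u ⟨g * c * g⁻¹, hCn.conj_mem c c.2 g⟩ := by
  classical
  choose e he using fun i : Fin k => hπ (Multiplicative.ofAdd (Pi.single i 1))
  have hspec := ActEx_spec C π he hchar
  set N := ActEx_N C π e with hN
  have hmul : ∀ g h u, N (g * h) u = N h (N g u) := by
    intro g h u
    refine ActEx_inj C π he fun c => ?_
    rw [hspec, hspec, hspec, ActEx_cj_mul]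
  have hone : ∀ u, N 1 u = u := by
    intro u
    refine ActEx_inj C π he fun c => ?_
    rw [hspec, ActEx_cj_one]
  have hC : ∀ (d : G), d ∈ C → ∀ u, N d u = u := by
    intro d hd u
    refine ActEx_inj C π he fun c => ?_
    rw [hspec]
    have h1 : ActEx_cj C d c = ⟨d, hd⟩ * c * (⟨d, hd⟩ : C)⁻¹ := by
      apply Subtype.ext
      simp [ActEx_cj]
    have h2 : π (⟨d, hd⟩ * c * (⟨d, hd⟩ : C)⁻¹) = π c := by
      rw [π.map_mul, π.map_mul, π.map_inv, mul_comm (π ⟨d, hd⟩), mul_assoc, mul_inv_cancel,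
        mul_one]
    rw [h1]
    unfold chr
    rw [h2]
  have hp1 : p 1 = 0 := (hk 1).2 C.one_mem
  have hpinv : ∀ g, p g⁻¹ = - p g := by
    intro g
    have h1 := hp g⁻¹ g
    rw [inv_mul_cancel, hp1] at h1
    exact eq_neg_of_add_eq_zero_left h1.symm
  have hcong : ∀ g g', p g = p g' → ∀ u, N g u = N g' u := by
    intro g g' h u
    have hd : g⁻¹ * g' ∈ C := by
      rw [← hk, hp, hpinv, h, neg_add_cancel]
    have h2 : g' = g * (g⁻¹ * g') := by group
    rw [h2, hmul, hC _ hd]
  obtain ⟨σ, hσ⟩ := hs.hasRightInverse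
  have hl : ∀ g u, N g⁻¹ (N g u) = u := by
    intro g u
    rw [← hmul, mul_inv_cancel, hone]
  have hr : ∀ g u, N g (N g⁻¹ u) = u := by
    intro g u
    rw [← hmul, inv_mul_cancel, hone]
  let R : X → ((Fin k → ℝ) ≃ₗ[ℝ] (Fin k → ℝ)) := fun x =>
    { N (σ x) with
      invFun := fun u => N (σ x)⁻¹ u
      left_inv := fun u => hl (σ x) u
      right_inv := fun u => hr (σ x) u }
  have hR : ∀ x u, R x u = N (σ x) u := fun x u => rfl
  refine ⟨MonoidHom.mk' (fun x => R (Multiplicative.toAdd x)) ?_, ?_⟩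
  · intro x y
    refine LinearEquiv.ext fun u => ?_
    rw [LinearEquiv.mul_apply, hR, hR, hR, ← hmul]
    refine hcong _ _ ?_ u
    rw [hp, hσ, hσ, hσ, toAdd_mul, add_comm]
  · intro g u c
    change chr π (R (p g) u) c = _
    rw [hR, hcong _ _ (hσ (p g)) u]
    exact hspec g u c

end H84.PG
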