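import Pool.Agent.H84.PG.Defs

/-!
# Module AffArith: infinitely many primes (II.0 (f))

The elements `(1 + j N) • e`, `j ≥ 0`, lie in finitely many sets `ρ(H) w`, `w ∈ W`.  Suppose
`(1 + j N) • e = ρ h₁ w`, `(1 + j₀ N) • e = ρ h₀ w`; then `ρ (h₁ h₀⁻¹) e = q • e` with
`q = (1 + j N) / (1 + j₀ N)`.  `H_e = {h | ∃ q ≠ 0, ρ h e = q • e}` is a subgroup, finitely generated
(`hH`), and `h ↦ q` is a homomorphism to `ℚˣ` (`e ≠ 0`); so only finitely many primes occur in the
numerators and denominators of its values (`padicValRat`).  Choose for every `w ∈ W` one `j₀ = j₀(w)`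
if there is any; finitely many primes divide the `1 + j₀(w) N`.  So only finitely many primes
divide the numbers `1 + j N`, `j ≥ 0`.  But every prime `p` which does not divide `N` divides
`1 + j N` for some `j`: contradiction.
-/

set_option autoImplicit false

namespace H84.PG

open H36.PP Subgroup

/-- all but finitely many primes do not occur in the eigenvalues of `v` -/
theorem AffArith_val {H V : Type*} [Group H] [AddCommGroup V] [Module ℚ V]
    (hH : H36.PP.Max H) (ρ : H →* (V →ₗ[ℚ] V)) (v : V) (hv : v ≠ 0) (M : ℕ) :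
    ∃ p : ℕ, p.Prime ∧ M < p ∧
      ∀ (g : H) (x : ℚ), x ≠ 0 → ρ g v = x • v → padicValRat p x = 0 := by
  classical
  have hmul : ∀ g h x, ρ (g * h) x = ρ g (ρ h x) := by
    intro g h x
    rw [map_mul]
    rfl
  let S : Subgroup H :=
    { carrier := {g | ∃ q : ℚ, q ≠ 0 ∧ ρ g v = q • v}
      mul_mem' := by
        rintro a b ⟨q, hq, ha⟩ ⟨q', hq', hb⟩
        refine ⟨q' * q, mul_ne_zero hq' hq, ?_⟩
        rw [hmul, hb, map_smul, ha, smul_smul]
      one_mem' := ⟨1, one_ne_zero, by rw [map_one, one_smul]; rfl⟩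
      inv_mem' := by
        rintro a ⟨q, hq, ha⟩
        refine ⟨q⁻¹, inv_ne_zero hq, ?_⟩
        have h1 : ρ a⁻¹ (ρ a v) = v := by
          rw [← hmul, inv_mul_cancel, map_one]
          rfl
        rw [ha, map_smul] at h1
        rw [← h1, smul_smul, inv_mul_cancel₀ hq, one_smul, h1] }
  obtain ⟨T, hT⟩ := hH S
  have hTS : ∀ t : H, t ∈ T → ∃ q : ℚ, q ≠ 0 ∧ ρ t v = q • v := by
    intro t ht
    have : t ∈ S := by
      rw [← hT]
      exact Subgroup.subset_closure ht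
    exact this
  choose! q hq0 hq using hTS
  obtain ⟨p, hp, hpp⟩ := Nat.exists_infinite_primes
    (M + ∑ t ∈ T, ((q t).num.natAbs + (q t).den) + 1)
  have : _root_.Fact p.Prime := ⟨hpp⟩
  refine ⟨p, hpp, by omega, ?_⟩
  have hval : ∀ t ∈ T, padicValRat p (q t) = 0 := by
    intro t ht
    have h1 : (q t).num.natAbs + (q t).den ≤ ∑ t ∈ T, ((q t).num.natAbs + (q t).den) :=
      Finset.single_le_sum (f := fun t => (q t).num.natAbs + (q t).den)
        (fun _ _ => Nat.zero_le _) ht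
    have h2 : (q t).num.natAbs ≠ 0 := by
      rw [Int.natAbs_ne_zero]
      exact Rat.num_ne_zero.mpr (hq0 t ht)
    have h3 : (q t).den ≠ 0 := (q t).den_ne_zero
    have h4 : padicValInt p (q t).num = 0 := by
      unfold padicValInt
      exact padicValNat.eq_zero_of_not_dvd (fun hd => by
        have := Nat.le_of_dvd (Nat.pos_of_ne_zero h2) hd
        omega)
    have h5 : padicValNat p (q t).den = 0 :=
      padicValNat.eq_zero_of_not_dvd (fun hd => by
        have := Nat.le_of_dvd (Nat.pos_of_ne_zero h3) hd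
        omega)
    unfold padicValRat
    rw [h4, h5]
    simp
  have hall : ∀ g ∈ S, ∃ x : ℚ, x ≠ 0 ∧ ρ g v = x • v ∧ padicValRat p x = 0 := by
    intro g hg
    rw [← hT] at hg
    induction hg using Subgroup.closure_induction with
    | mem x hx => exact ⟨q x, hq0 x hx, hq x hx, hval x hx⟩
    | one => exact ⟨1, one_ne_zero, by rw [map_one, one_smul]; rfl, by simp⟩
    | mul a b _ _ ha hb =>
      obtain ⟨x, hx, ha, hx'⟩ := ha
      obtain ⟨y, hy, hb, hy'⟩ := hb
      refine ⟨y * x, mul_ne_zero hy hx, ?_, ?_⟩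
      · rw [hmul, hb, map_smul, ha, smul_smul]
      · rw [padicValRat.mul hy hx, hx', hy', add_zero]
    | inv a _ ha =>
      obtain ⟨x, hx, ha, hx'⟩ := ha
      refine ⟨x⁻¹, inv_ne_zero hx, ?_, ?_⟩
      · have h1 : ρ a⁻¹ (ρ a v) = v := by
          rw [← hmul, inv_mul_cancel, map_one]
          rfl
        rw [ha, map_smul] at h1
        rw [← h1, smul_smul, inv_mul_cancel₀ hx, one_smul, h1]
      · rw [padicValRat.inv, hx', neg_zero]
  intro g x hx0 hgx
  obtain ⟨y, hy, hy1, hy2⟩ := hall g ⟨x, hx0, hgx⟩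
  have h5 : x = y := smul_left_injective ℚ hv (by
    change x • v = y • v
    rw [← hgx, hy1])
  rw [h5, hy2]

theorem aff_arith {H V : Type*} [Group H] [AddCommGroup V] [Module ℚ V] (hH : H36.PP.Max H)
    (ρ : H →* (V →ₗ[ℚ] V)) (W : Set V) (hW : W.Finite) (e : V) (he : e ≠ 0) (N : ℕ)
    (hN : 0 < N) (h : ∀ j : ℕ, ∃ w ∈ W, ∃ g : H, ρ g w = ((1 + j * N : ℕ) : ℚ) • e) :
    False := by
  classical
  have hmul : ∀ g h x, ρ (g * h) x = ρ g (ρ h x) := by
    intro g h x
    rw [map_mul]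
    rfl
  have hch : ∀ w : V, ∃ j₀ : ℕ, (∃ j : ℕ, ∃ g : H, ρ g w = ((1 + j * N : ℕ) : ℚ) • e) →
      ∃ g : H, ρ g w = ((1 + j₀ * N : ℕ) : ℚ) • e := by
    intro w
    by_cases hw : ∃ j : ℕ, ∃ g : H, ρ g w = ((1 + j * N : ℕ) : ℚ) • e
    · obtain ⟨j, hj⟩ := hw
      exact ⟨j, fun _ => hj⟩
    · exact ⟨0, fun h => absurd h hw⟩
  choose c hc using hch
  obtain ⟨p, hp, hMp, hval⟩ := AffArith_val hH ρ e he
    (N + ∑ w ∈ hW.toFinset, (1 + c w * N))
  have : _root_.Fact p.Prime := ⟨hp⟩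
  have hco : Nat.Coprime N p := by
    rw [Nat.coprime_comm, Nat.Prime.coprime_iff_not_dvd hp]
    intro hd
    have := Nat.le_of_dvd hN hd
    omega
  obtain ⟨m, hm1, hm2⟩ := Nat.chineseRemainder hco 1 0
  have hm1' : m + N * p ≡ 1 [MOD N] := by
    have : m + N * p ≡ m [MOD N] := by
      simp [Nat.ModEq]
    exact this.trans hm1
  have hNp : 0 < N * p := Nat.mul_pos hN hp.pos
  have h1 : 1 ≤ m + N * p := by omega
  have h2 : N ∣ (m + N * p) - 1 := (Nat.modEq_iff_dvd' h1).mp hm1'.symm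
  obtain ⟨k, hk⟩ := h2
  have hk' : 1 + k * N = m + N * p := by rw [mul_comm k N]; omega
  have hpd : p ∣ 1 + k * N := by
    rw [hk']
    have h3 : p ∣ m := (Nat.modEq_zero_iff_dvd).mp hm2
    exact dvd_add h3 (Dvd.intro_left N rfl)
  obtain ⟨w, hw, g, hg⟩ := h k
  obtain ⟨g₀, hg₀⟩ := hc w ⟨k, g, hg⟩
  have hne : ((1 + k * N : ℕ) : ℚ) ≠ 0 := by
    have : 1 + k * N ≠ 0 := by omega
    exact_mod_cast this
  have hne0 : ((1 + c w * N : ℕ) : ℚ) ≠ 0 := by
    have : 1 + c w * N ≠ 0 := by omega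
    exact_mod_cast this
  have hkey : ρ (g * g₀⁻¹) e =
      (((1 + k * N : ℕ) : ℚ) / ((1 + c w * N : ℕ) : ℚ)) • e := by
    have h3 : ρ g₀⁻¹ (ρ g₀ w) = w := by
      rw [← hmul, inv_mul_cancel, map_one]
      rfl
    have h4 : ((1 + c w * N : ℕ) : ℚ) • ρ (g * g₀⁻¹) e = ((1 + k * N : ℕ) : ℚ) • e := by
      rw [← map_smul, ← hg₀, hmul, h3, hg]
    rw [div_eq_inv_mul, mul_smul, ← h4, smul_smul, inv_mul_cancel₀ hne0, one_smul]
  have h3 := hval _ _ (div_ne_zero hne hne0) hkey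
  rw [padicValRat.div hne hne0, padicValRat.of_nat, padicValRat.of_nat] at h3
  have h4 : 1 + c w * N ≤ ∑ w ∈ hW.toFinset, (1 + c w * N) :=
    Finset.single_le_sum (f := fun w => 1 + c w * N) (fun _ _ => Nat.zero_le _)
      (hW.mem_toFinset.2 hw)
  have h5 : padicValNat p (1 + c w * N) = 0 :=
    padicValNat.eq_zero_of_not_dvd (fun hd => by
      have := Nat.le_of_dvd (by omega) hd
      omega)
  have h6 : 1 ≤ padicValNat p (1 + k * N) :=
    one_le_padicValNat_of_dvd (by omega) hpd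
  rw [h5] at h3
  omega

end H84.PG
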