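import Pool.Agent.H84.PG.Defs
import Pool.Agent.H36.PP.DerivT

/-!
# Module AffTor: finitely many affine orbits on a torsion module (II.0 (a))

`H` is generated by a finite set `s` (closed under inverses); all `δ x`, `x ∈ s`, and all `w ∈ W` have
finite order; let `e > 0` be a common multiple.  `e • δ h = 0` for all `h` (induction,
`δ (g h) = δ g + g δ h`), `e • act h w = 0`.  So `e • m = 0` for all `m ∈ M`.  By `ARk M r` every
finitely generated subgroup has at most `e ^ r` elements (`DerivT_card_closure_le`), so `M` is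
finite (as in `DerivT_torsion_finite`).
-/

set_option autoImplicit false

namespace H84.PG

open H36.PP Subgroup

theorem aff_tors {H M : Type*} [Group H] [AddCommGroup M] (act : H →* AddMonoid.End M)
    (hH : Group.FG H) (r : ℕ) (hr : ARk M r) (ht : ∀ m : M, ∃ n : ℕ, 0 < n ∧ n • m = 0)
    (δ : H → M) (hδ : ∀ g h, δ (g * h) = δ g + act g (δ h)) (W : Set M) (hW : W.Finite)
    (hc : ∀ m, ∃ w ∈ W, ∃ h, m = δ h + act h w) : Finite M := by
  classical
  obtain ⟨T, hT⟩ := hH.out
  choose n hn hn' using ht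
  let e : ℕ := (∏ t ∈ insert 1 T, n (δ t)) * ∏ w ∈ hW.toFinset, n w
  have he : 0 < e := Nat.mul_pos (Finset.prod_pos (fun t _ => hn _))
    (Finset.prod_pos (fun t _ => hn _))
  have hkill : ∀ m : M, n m ∣ e → e • m = 0 := by
    intro m hm
    obtain ⟨k, hk⟩ := hm
    rw [hk, mul_comm, mul_smul, hn', smul_zero]
  have hgen : ∀ t ∈ insert 1 T, e • δ t = 0 := by
    intro t ht
    exact hkill _ ((Finset.dvd_prod_of_mem (fun t => n (δ t)) ht).trans (Dvd.intro _ rfl))
  have hgenW : ∀ w ∈ W, e • w = 0 := by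
    intro w hw
    exact hkill _ ((Finset.dvd_prod_of_mem (fun w => n w) (hW.mem_toFinset.2 hw)).trans
      (Dvd.intro_left _ rfl))
  have h1 : e • δ 1 = 0 := hgen 1 (Finset.mem_insert_self _ _)
  have hall : ∀ g : H, e • δ g = 0 := by
    intro g
    have hg : g ∈ Subgroup.closure (T : Set H) := by
      rw [hT]; trivial
    induction hg using Subgroup.closure_induction with
    | mem x hx => exact hgen x (Finset.mem_insert_of_mem hx)
    | one => exact h1
    | mul x y _ _ hx hy => rw [hδ, smul_add, hx, ← map_nsmul, hy, map_zero, add_zero]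
    | inv x _ hx =>
      have h2 := hδ x⁻¹ x
      rw [inv_mul_cancel] at h2
      have h3 : e • δ 1 = e • δ x⁻¹ + act x⁻¹ (e • δ x) := by
        rw [h2, smul_add, map_nsmul]
      rw [h1, hx, map_zero, add_zero] at h3
      exact h3.symm
  have hexp : ∀ m : M, e • m = 0 := by
    intro m
    obtain ⟨w, hw, h, rfl⟩ := hc m
    rw [smul_add, hall, ← map_nsmul, hgenW w hw, map_zero, add_zero]
  by_contra hfin
  rw [not_finite_iff_infinite] at hfin
  obtain ⟨V, hV⟩ := Infinite.exists_subset_card_eq M (e ^ r + 1)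
  obtain ⟨S, hS, hS'⟩ := hr (AddSubgroup.closure (V : Set M)) ⟨V, rfl⟩
  obtain ⟨h2, h3⟩ := DerivT_card_closure_le e he hexp S
  rw [hS'] at h2 h3
  have h4 : (V : Set M) ⊆ (AddSubgroup.closure (V : Set M) : Set M) := AddSubgroup.subset_closure
  have h5 := Set.ncard_le_ncard h4 h2
  rw [Set.ncard_coe_finset, hV] at h5
  have h6 : e ^ S.card ≤ e ^ r := Nat.pow_le_pow_right he hS
  omega

end H84.PG
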