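import Pool.Agent.H84.PG.AffVec
import Pool.Agent.H84.PG.AffTor

/-!
# Module AffFG: affine orbits on a module of finite rank (II.0)

Let `T` be the torsion subgroup of `M`, invariant.  (1) `T` is finite: as in module `AffVec`, (2),
`T` is covered by finitely many affine orbits of the subgroup `{h | δ h ∈ T}`; `aff_tors`.
(2) `M ⧸ T` is torsion-free, with finitely many affine orbits: `DerivT_embed_vec` embeds it in
`Fin d → ℚ` equivariantly; `aff_vec` for the image.  So `M` is finitely generated.
(`AddGroup.FG` of an extension; see the proof of `deriv_fg` in `H36/PP/DerivV.lean`.)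
-/

set_option autoImplicit false

namespace H84.PG

open H36.PP Subgroup

theorem aff_fg {H M : Type*} [Group H] [AddCommGroup M] (hH : AP H)
    (act : H →* AddMonoid.End M) (r : ℕ) (hr : ARk M r) (δ : H → M)
    (hδ : ∀ g h, δ (g * h) = δ g + act g (δ h)) (W : Set M) (hW : W.Finite)
    (hc : ∀ m, ∃ w ∈ W, ∃ h, m = δ h + act h w) : AddGroup.FG M := by
  classical
  have hact1 : ∀ m, act 1 m = m := by
    intro m
    rw [map_one]
    rfl
  have hactm : ∀ g h m, act (g * h) m = act g (act h m) := by
    intro g h m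
    rw [map_mul]
    rfl
  have hone : δ 1 = 0 := by
    have h := hδ 1 1
    rw [mul_one, hact1] at h
    exact left_eq_add.mp h
  have hinvδ : ∀ g, δ g⁻¹ = - (act g⁻¹ (δ g)) := by
    intro g
    have h := hδ g⁻¹ g
    rw [inv_mul_cancel, hone] at h
    exact eq_neg_of_add_eq_zero_left h.symm
  let T : AddSubgroup M :=
    { carrier := {m | ∃ n : ℕ, 0 < n ∧ n • m = 0}
      zero_mem' := ⟨1, one_pos, by simp⟩
      add_mem' := by
        rintro a b ⟨n, hn, ha⟩ ⟨m, hm, hb⟩
        refine ⟨n * m, Nat.mul_pos hn hm, ?_⟩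
        rw [smul_add, mul_smul n m b, hb, smul_zero, add_zero, mul_comm, mul_smul, ha, smul_zero]
      neg_mem' := by
        rintro a ⟨n, hn, ha⟩
        exact ⟨n, hn, by rw [smul_neg, ha, neg_zero]⟩ }
  have hTinv : ∀ (g : H), ∀ m ∈ T, act g m ∈ T := by
    rintro g m ⟨n, hn, hm⟩
    refine ⟨n, hn, ?_⟩
    rw [← map_nsmul, hm, map_zero]
  let K : Subgroup H :=
    { carrier := {h | δ h ∈ T}
      mul_mem' := by
        intro a b ha hb
        simp only [Set.mem_ofPred_eq] at *
        rw [hδ]
        exact T.add_mem ha (hTinv _ _ hb)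
      one_mem' := by
        simp only [Set.mem_ofPred_eq]
        rw [hone]
        exact T.zero_mem
      inv_mem' := by
        intro a ha
        simp only [Set.mem_ofPred_eq] at *
        rw [hinvδ]
        exact T.neg_mem (hTinv _ _ ha) }
  have hTfin : Finite T := by
    have hch : ∀ w : M, ∃ h₀ : H, (∃ h : H, δ h + act h w ∈ T) → δ h₀ + act h₀ w ∈ T := by
      intro w
      by_cases hw : ∃ h : H, δ h + act h w ∈ T
      · obtain ⟨h, hh⟩ := hw
        exact ⟨h, fun _ => hh⟩
      · exact ⟨1, fun h => absurd h hw⟩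
    choose c hcc using hch
    let act' : K →* AddMonoid.End T :=
      { toFun := fun g => ((act (g : H)).comp T.subtype).codRestrict T
          (fun m => hTinv g m m.2)
        map_one' := by
          apply AddMonoidHom.ext
          intro x
          exact Subtype.ext (hact1 x)
        map_mul' := by
          intro a b
          apply AddMonoidHom.ext
          intro x
          exact Subtype.ext (hactm a b x) }
    refine aff_tors act' (DerivV_groupfg (DerivV_max hH.1 K)) r
      (hr.of_injective T.subtype (AddSubgroup.subtype_injective _)) ?_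
      (fun h => (⟨δ h, h.2⟩ : T)) ?_
      (Subtype.val ⁻¹' ((fun w => δ (c w) + act (c w) w) '' W))
      ((hW.image _).preimage Subtype.val_injective.injOn) ?_
    · rintro ⟨m, n, hn, hm⟩
      exact ⟨n, hn, Subtype.ext hm⟩
    · intro g h
      exact Subtype.ext (hδ g h)
    · intro m
      obtain ⟨w, hw, h, hh⟩ := hc m
      have h1 : δ (c w) + act (c w) w ∈ T := hcc w ⟨h, by rw [← hh]; exact m.2⟩
      have h2 : (m : M) = δ (h * (c w)⁻¹) + act (h * (c w)⁻¹) (δ (c w) + act (c w) w) := by
        have h3 := hδ (h * (c w)⁻¹) (c w)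
        rw [inv_mul_cancel_right] at h3
        rw [map_add, ← add_assoc, ← h3, ← hactm, inv_mul_cancel_right, hh]
      have h4 : h * (c w)⁻¹ ∈ K := by
        change δ (h * (c w)⁻¹) ∈ T
        have h5 : δ (h * (c w)⁻¹) =
            (m : M) - act (h * (c w)⁻¹) (δ (c w) + act (c w) w) := by
          rw [h2, add_sub_cancel_right]
        rw [h5]
        exact T.sub_mem m.2 (hTinv _ _ h1)
      exact ⟨⟨_, h1⟩, ⟨w, hw, rfl⟩, ⟨_, h4⟩, Subtype.ext h2⟩
  let act2 : H →* AddMonoid.End (M ⧸ T) :=
    { toFun := fun g => QuotientAddGroup.map T T (act g : M →+ M)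
        (fun m hm => hTinv g m hm)
      map_one' := by
        apply AddMonoidHom.ext
        intro x
        obtain ⟨y, rfl⟩ := QuotientAddGroup.mk_surjective x
        change (act 1 y : M ⧸ T) = (y : M ⧸ T)
        rw [hact1]
      map_mul' := by
        intro a b
        apply AddMonoidHom.ext
        intro x
        obtain ⟨y, rfl⟩ := QuotientAddGroup.mk_surjective x
        change (act (a * b) y : M ⧸ T) = (act a (act b y) : M ⧸ T)
        rw [hactm] }
  obtain ⟨d, ρ, i, hi, hiρ⟩ := DerivT_embed_vec act2 r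
    (hr.of_surjective (QuotientAddGroup.mk' T) (QuotientAddGroup.mk'_surjective T)) (by
      intro x n hn hx
      obtain ⟨y, rfl⟩ := QuotientAddGroup.mk_surjective x
      have h1 : n • y ∈ T := (QuotientAddGroup.eq_zero_iff _).mp hx
      obtain ⟨k, hk, hy⟩ := h1
      apply (QuotientAddGroup.eq_zero_iff _).mpr
      refine ⟨k * n, Nat.mul_pos hk hn, ?_⟩
      rw [mul_smul, hy])
  let f : M →+ (Fin d → ℚ) := i.comp (QuotientAddGroup.mk' T)
  have hfact : ∀ h m, f (act h m) = ρ h (f m) := fun h m => hiρ h (QuotientAddGroup.mk' T m)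
  have hfker : f.ker = T := by
    ext x
    rw [AddMonoidHom.mem_ker]
    constructor
    · intro hx
      have h1 : i (QuotientAddGroup.mk' T x) = i 0 := by
        rw [map_zero]; exact hx
      exact (QuotientAddGroup.eq_zero_iff _).mp (hi h1)
    · intro hx
      have h1 : QuotientAddGroup.mk' T x = 0 := (QuotientAddGroup.eq_zero_iff _).mpr hx
      change i (QuotientAddGroup.mk' T x) = 0
      rw [h1, map_zero]
  have h1 : ((⊤ : AddSubgroup M).map f).FG := by
    refine aff_vec (Module.finrank ℚ (Fin d → ℚ)) H (Fin d → ℚ) hH ρ (fun h => f (δ h)) ?_ _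
      ?_ ?_ (f '' W) (hW.image _) ?_ ?_ le_rfl
    · intro g h
      rw [hδ, map_add, hfact]
    · rintro h _ ⟨m, -, rfl⟩
      exact ⟨act h m, trivial, hfact h m⟩
    · intro h
      exact ⟨δ h, trivial, rfl⟩
    · rintro _ ⟨w, -, rfl⟩
      exact ⟨w, trivial, rfl⟩
    · rintro _ ⟨m, -, rfl⟩
      obtain ⟨w, hw, h, hh⟩ := hc m
      refine ⟨f w, ⟨w, hw, rfl⟩, h, ?_⟩
      rw [hh, map_add, hfact]
  have h2 : (⊤ : AddSubgroup M).FG := by
    refine DerivV_fg_ext f ⊤ h1 ?_
    rw [hfker, top_inf_eq]
    exact DerivV_fg_finite T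
  exact ⟨h2⟩

end H84.PG
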