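import Pool.Agent.H84.PG.Defs
import Pool.Agent.H36.PP.RFin

/-!
# Module AffInner: derivations that kill the kernel of the action are inner (II.0 (e))

Let `C = ρ.ker`; `δ` kills `C`, so `δ (h c) = δ h` and `δ (c h) = δ h`.
If `H ⧸ C` is finite: `v = - (1 / n) ∑ δ(h)` over representatives of `H ⧸ C`:
`ρ g v - v = δ g` (`δ (g h) = δ g + ρ g (δ h)`).
If `H ⧸ C` is infinite: it is almost polycyclic, so it has an infinite abelian characteristic
subgroup (`exists_char_free_abelian`); let `AA` be its preimage in `H`, normal, `C < AA`, and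
`ρ a ρ b = ρ b ρ a` for `a, b ∈ AA`.  The space of vectors fixed by `AA` is invariant under `H` and not
everything, so it is `0` by `hirr`.  `R = Algebra.adjoin ℚ {ρ a | a ∈ AA}` is a commutative
algebra of endomorphisms, `J` its ideal generated by the `ρ a - 1`.  `J V` is invariant under `H`
(`ρ h (ρ a - 1) = (ρ (h a h⁻¹) - 1) ρ h`) and nonzero, so `J V = V`.  Nakayama
(`Submodule.exists_sub_one_mem_and_smul_eq_zero_of_fg_of_le_smul`; `V` is a finite `R`-module):
`1 ∈ J` up to an element killing `V`: there are finitely many `c_i ∈ R`, `a_i ∈ AA` with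
`v = ∑ c_i ((ρ a_i - 1) v)` for all `v ∈ V`.  Put `v₀ = ∑ c_i (δ a_i)`.  For `a, b ∈ AA`
`δ (a b) = δ (b a)` (`a b` and `b a` differ by an element of `C`), so `(ρ b - 1) δ a = (ρ a - 1) δ b`
and `(ρ b - 1) v₀ = ∑ c_i (ρ a_i - 1) (δ b) = δ b`.  Let `δ' h = δ h - (ρ h v₀ - v₀)`, a derivation
which is zero on `AA`.  For `h ∈ H`, `a ∈ AA`, `a' = h a h⁻¹`: `δ' (h a) = δ' h`,
`δ' (a' h) = ρ a' (δ' h)`; so `δ' h` is fixed by `AA`, `δ' h = 0`.
-/

set_option autoImplicit false

namespace H84.PG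

open H36.PP Subgroup

private theorem AffInner_nak {V : Type*} [AddCommGroup V] [Module ℚ V] [FiniteDimensional ℚ V]
    (T : Set (Module.End ℚ V)) (hT : ∀ a ∈ T, ∀ b ∈ T, a * b = b * a)
    (hV : Submodule.span ℚ {w : V | ∃ t ∈ T, ∃ u, w = t u - u} = ⊤)
    (P : Module.End ℚ V → Prop) (hadd : ∀ r s, P r → P s → P (r + s)) (h0 : P 0)
    (hmul : ∀ s ∈ Algebra.adjoin ℚ T, ∀ r, P r → P (s * r)) (hgen : ∀ t ∈ T, P (t - 1)) :
    P 1 := by
  let _ : CommRing (Algebra.adjoin ℚ T) := Algebra.adjoinCommRingOfComm ℚ hT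
  let J : Ideal (Algebra.adjoin ℚ T) :=
    Ideal.span {r | ∃ t ∈ T, (r : Module.End ℚ V) = t - 1}
  have hfin : Module.Finite (Algebra.adjoin ℚ T) V :=
    Module.Finite.of_restrictScalars_finite ℚ (Algebra.adjoin ℚ T) V
  have hle : (⊤ : Submodule (Algebra.adjoin ℚ T) V) ≤ J • ⊤ := by
    intro v _
    have hv : v ∈ Submodule.span ℚ {w : V | ∃ t ∈ T, ∃ u, w = t u - u} := by
      rw [hV]
      exact Submodule.mem_top
    have hsub : Submodule.span ℚ {w : V | ∃ t ∈ T, ∃ u, w = t u - u}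
        ≤ (J • (⊤ : Submodule (Algebra.adjoin ℚ T) V)).restrictScalars ℚ := by
      rw [Submodule.span_le]
      rintro w ⟨t, ht, u, rfl⟩
      have hmem : t - 1 ∈ Algebra.adjoin ℚ T :=
        sub_mem (Algebra.subset_adjoin ht) (one_mem _)
      have h1 : (⟨t - 1, hmem⟩ : Algebra.adjoin ℚ T) ∈ J :=
        Ideal.subset_span ⟨t, ht, rfl⟩
      have h2 := Submodule.smul_mem_smul h1 (Submodule.mem_top (x := u)
        (R := Algebra.adjoin ℚ T))
      have e : (⟨t - 1, hmem⟩ : Algebra.adjoin ℚ T) • u = t u - u := rfl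
      rw [e] at h2
      exact h2
    exact hsub hv
  obtain ⟨r, hr1, hr0⟩ := Submodule.exists_sub_one_mem_and_smul_eq_zero_of_fg_of_le_smul J ⊤
    hfin.1 hle
  have hrz : r = 0 := by
    apply Subtype.ext
    apply LinearMap.ext
    intro v
    exact hr0 v Submodule.mem_top
  have h1J : (1 : Algebra.adjoin ℚ T) ∈ J := by
    rw [hrz, zero_sub] at hr1
    have := J.neg_mem hr1
    rwa [neg_neg] at this
  have key : ∀ x ∈ J, P (x : Module.End ℚ V) := by
    intro x hx
    induction hx using Submodule.span_induction with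
    | mem x h =>
      obtain ⟨t, ht, e⟩ := h
      rw [e]
      exact hgen t ht
    | zero => exact h0
    | add x y _ _ hx hy => exact hadd _ _ hx hy
    | smul a x _ hx => exact hmul a a.2 _ hx
  exact key 1 h1J

private theorem AffInner_fin {H V : Type*} [Group H] [AddCommGroup V] [Module ℚ V]
    (ρ : H →* (V →ₗ[ℚ] V)) (δ : H → V) (hδ : ∀ g h, δ (g * h) = δ g + ρ g (δ h))
    (heq : ∀ g h, ρ g = ρ h → δ g = δ h) [Finite (H ⧸ ρ.ker)] :
    ∃ v : V, ∀ h, δ h = ρ h v - v := by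
  classical
  have : Fintype (H ⧸ ρ.ker) := Fintype.ofFinite _
  have hker : ∀ g h : H, (g : H ⧸ ρ.ker) = (h : H ⧸ ρ.ker) → δ g = δ h := by
    intro g h e
    apply heq
    rw [QuotientGroup.eq, MonoidHom.mem_ker] at e
    calc ρ g = ρ g * ρ (g⁻¹ * h) := by rw [e, mul_one]
      _ = ρ h := by rw [← map_mul]; congr 1; group
  let D : H ⧸ ρ.ker → V := fun q => δ q.out
  have hD : ∀ g : H, D (g : H ⧸ ρ.ker) = δ g := fun g =>
    hker _ _ (QuotientGroup.out_eq' _)
  set n : ℚ := (Fintype.card (H ⧸ ρ.ker) : ℚ) with hn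
  have hn0 : n ≠ 0 := by
    rw [hn]
    exact_mod_cast Fintype.card_ne_zero
  refine ⟨-(n⁻¹ • ∑ q, D q), fun g => ?_⟩
  have h1 : ∀ q : H ⧸ ρ.ker, ρ g (D q) = D ((g : H ⧸ ρ.ker) * q) - δ g := by
    intro q
    obtain ⟨h, rfl⟩ := QuotientGroup.mk_surjective q
    rw [hD, ← QuotientGroup.mk_mul, hD, hδ, add_sub_cancel_left]
  have h2 : ∑ q : H ⧸ ρ.ker, D ((g : H ⧸ ρ.ker) * q) = ∑ q, D q :=
    Fintype.sum_equiv (Equiv.mulLeft (g : H ⧸ ρ.ker)) _ _ (fun q => rfl)
  have h3 : ρ g (∑ q, D q) = ∑ q, D q - n • δ g := by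
    rw [map_sum, Finset.sum_congr rfl (fun q _ => h1 q), Finset.sum_sub_distrib, h2,
      Finset.sum_const, Finset.card_univ, hn, Nat.cast_smul_eq_nsmul]
  rw [map_neg, map_smul, h3, smul_sub, smul_smul, inv_mul_cancel₀ hn0, one_smul]
  abel

theorem aff_inner {H V : Type*} [Group H] [AddCommGroup V] [Module ℚ V]
    [FiniteDimensional ℚ V] (hH : AP H) (ρ : H →* (V →ₗ[ℚ] V))
    (hirr : ∀ U : Submodule ℚ V, (∀ h, ∀ u ∈ U, ρ h u ∈ U) → U = ⊥ ∨ U = ⊤)
    (δ : H → V) (hδ : ∀ g h, δ (g * h) = δ g + ρ g (δ h)) (hC : ∀ h, ρ h = 1 → δ h = 0)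
    (hnt : ∃ h, ρ h ≠ 1) : ∃ v : V, ∀ h, δ h = ρ h v - v := by
  have hmul : ∀ g h u, ρ (g * h) u = ρ g (ρ h u) := by
    intro g h u
    rw [map_mul]
    rfl
  have heq : ∀ g h, ρ g = ρ h → δ g = δ h := by
    intro g h e
    have h1 : ρ (g⁻¹ * h) = 1 := by
      rw [map_mul, ← e, ← map_mul, inv_mul_cancel, map_one]
    have h2 := hδ g (g⁻¹ * h)
    rw [hC _ h1, map_zero, add_zero, mul_inv_cancel_left] at h2
    exact h2.symm
  rcases finite_or_infinite (H ⧸ ρ.ker) with hfin | hinf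
  · exact AffInner_fin ρ δ hδ heq
  obtain ⟨A, hA1, hA2, -, hA4⟩ := exists_char_free_abelian (hH.quotient ρ.ker) hinf
  have hAn : A.Normal := Subgroup.normal_of_characteristic A
  have hmk : ∀ g h : H, (g : H ⧸ ρ.ker) = (h : H ⧸ ρ.ker) → ρ g = ρ h := by
    intro g h e
    rw [QuotientGroup.eq, MonoidHom.mem_ker] at e
    calc ρ g = ρ g * ρ (g⁻¹ * h) := by rw [e, mul_one]
      _ = ρ h := by rw [← map_mul]; congr 1; group
  set AA : Set H := {a : H | (a : H ⧸ ρ.ker) ∈ A} with hAA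
  have hconj : ∀ h : H, ∀ a ∈ AA, h * a * h⁻¹ ∈ AA := by
    intro h a ha
    have := hAn.conj_mem _ ha (h : H ⧸ ρ.ker)
    exact this
  have hconj' : ∀ h : H, ∀ a ∈ AA, h⁻¹ * a * h ∈ AA := by
    intro h a ha
    have := hconj h⁻¹ a ha
    rwa [inv_inv] at this
  have hcomm : ∀ a ∈ AA, ∀ b ∈ AA, ρ (a * b) = ρ (b * a) := by
    intro a ha b hb
    exact hmk _ _ (hA2 _ ha _ hb)
  obtain ⟨a0, ha0, hne0⟩ : ∃ a0 ∈ AA, ρ a0 ≠ 1 := by
    obtain ⟨x, hx⟩ := exists_ne (1 : A)
    obtain ⟨a, ha⟩ := QuotientGroup.mk_surjective (x : H ⧸ ρ.ker)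
    refine ⟨a, ?_, ?_⟩
    · show (a : H ⧸ ρ.ker) ∈ A
      rw [ha]
      exact x.2
    · intro h1
      apply hx
      apply Subtype.ext
      rw [← ha, OneMemClass.coe_one, QuotientGroup.eq_one_iff]
      exact h1
  obtain ⟨u0, hu0⟩ : ∃ u0, ρ a0 u0 ≠ u0 := by
    by_contra hc
    push Not at hc
    exact hne0 (LinearMap.ext hc)
  -- the fixed space of `AA` is zero
  have hfix : ∀ w : V, (∀ a ∈ AA, ρ a w = w) → w = 0 := by
    let U : Submodule ℚ V :=
      { carrier := {w | ∀ a ∈ AA, ρ a w = w}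
        add_mem' := by
          intro x y hx hy a ha
          rw [map_add, hx a ha, hy a ha]
        zero_mem' := by
          intro a ha
          exact map_zero _
        smul_mem' := by
          intro c x hx a ha
          rw [map_smul, hx a ha] }
    have hU : ∀ h, ∀ u ∈ U, ρ h u ∈ U := by
      intro h u hu a ha
      have h1 := hu _ (hconj' h a ha)
      have h2 : ρ a (ρ h u) = ρ h (ρ (h⁻¹ * a * h) u) := by
        rw [← hmul, ← hmul]
        congr 2
        group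
      rw [h2, h1]
    intro w hw
    rcases hirr U hU with h | h
    · have : w ∈ U := hw
      rw [h] at this
      exact (Submodule.mem_bot ℚ).1 this
    · exfalso
      have : u0 ∈ U := by
        rw [h]
        exact Submodule.mem_top
      exact hu0 (this a0 ha0)
  have hspan : Submodule.span ℚ {w : V | ∃ t ∈ ρ '' AA, ∃ u, w = t u - u} = ⊤ := by
    have hinv : ∀ h, ∀ u ∈ Submodule.span ℚ {w : V | ∃ t ∈ ρ '' AA, ∃ u, w = t u - u},
        ρ h u ∈ Submodule.span ℚ {w : V | ∃ t ∈ ρ '' AA, ∃ u, w = t u - u} := by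
      intro h u hu
      induction hu using Submodule.span_induction with
      | mem x hx =>
        obtain ⟨_, ⟨a, ha, rfl⟩, u, rfl⟩ := hx
        apply Submodule.subset_span
        refine ⟨_, ⟨h * a * h⁻¹, hconj h a ha, rfl⟩, ρ h u, ?_⟩
        rw [map_sub, ← hmul, ← hmul]
        congr 3
        group
      | zero =>
        rw [map_zero]
        exact Submodule.zero_mem _
      | add x y _ _ hx hy =>
        rw [map_add]
        exact Submodule.add_mem _ hx hy
      | smul c x _ hx =>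
        rw [map_smul]
        exact Submodule.smul_mem _ _ hx
    rcases hirr _ hinv with h | h
    · exfalso
      have : ρ a0 u0 - u0 ∈ Submodule.span ℚ {w : V | ∃ t ∈ ρ '' AA, ∃ u, w = t u - u} :=
        Submodule.subset_span ⟨_, ⟨a0, ha0, rfl⟩, u0, rfl⟩
      rw [h] at this
      exact hu0 (sub_eq_zero.1 ((Submodule.mem_bot ℚ).1 this))
    · exact h
  have hTcomm : ∀ a ∈ ρ '' AA, ∀ b ∈ ρ '' AA, a * b = b * a := by
    rintro _ ⟨a, ha, rfl⟩ _ ⟨b, hb, rfl⟩
    rw [← map_mul, ← map_mul]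
    exact hcomm a ha b hb
  obtain ⟨v, hv⟩ := AffInner_nak (ρ '' AA) hTcomm hspan
    (fun r => ∃ v : V, ∀ b ∈ AA, ρ b v - v = r (δ b)) (by
      rintro r s ⟨v, hv⟩ ⟨w, hw⟩
      refine ⟨v + w, fun b hb => ?_⟩
      rw [map_add, LinearMap.add_apply, ← hv b hb, ← hw b hb]
      abel) (by
      refine ⟨0, fun b _ => ?_⟩
      rw [map_zero, sub_zero]
      rfl) (by
      rintro s hs r ⟨v, hv⟩
      refine ⟨s v, fun b hb => ?_⟩
      have hsb : s * ρ b = ρ b * s := by
        induction hs using Algebra.adjoin_induction with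
        | mem x hx => exact hTcomm x hx _ ⟨b, hb, rfl⟩
        | algebraMap q => exact Algebra.commutes q _
        | add x y _ _ hx hy => rw [add_mul, mul_add, hx, hy]
        | mul x y _ _ hx hy => rw [mul_assoc, hy, ← mul_assoc, hx, mul_assoc]
      have h1 : ρ b (s v) = s (ρ b v) := by
        have := congrArg (fun f : Module.End ℚ V => f v) hsb
        exact this.symm
      rw [h1, ← map_sub, hv b hb]
      rfl) (by
      rintro _ ⟨a, ha, rfl⟩
      refine ⟨δ a, fun b hb => ?_⟩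
      have h1 := hδ a b
      rw [heq _ _ (hcomm a ha b hb), hδ b a] at h1
      rw [LinearMap.sub_apply, Module.End.one_apply]
      have h2 : ρ b (δ a) = δ a + ρ a (δ b) - δ b := by
        rw [← h1]
        abel
      rw [h2]
      abel)
  refine ⟨v, fun h => ?_⟩
  have hw := hfix (δ h - (ρ h v - v)) (by
    intro a ha
    have h1 := hδ a h
    have h2 := hδ h (h⁻¹ * a * h)
    have e : h * (h⁻¹ * a * h) = a * h := by group
    rw [e, h1] at h2
    have h3 := hv a ha
    have h4 := hv _ (hconj' h a ha)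
    rw [Module.End.one_apply] at h3 h4
    rw [← h3, ← h4, map_sub, ← hmul h, e] at h2
    have h5 : ρ a (δ h) = δ h + (ρ (a * h) v - ρ h v) - (ρ a v - v) := by
      rw [← h2]
      abel
    rw [map_sub, map_sub, h5, ← hmul a h]
    abel)
  exact sub_eq_zero.1 hw

end H84.PG
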