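import Pool.Agent.H84.PG.AffInner
import Pool.Agent.H84.PG.AffArith
import Pool.Agent.H84.PG.AffTor
import Pool.Agent.H36.PP.DerivV

/-!
# Module AffIrr: affine orbits, irreducible case (II.0 (c)-(f))

Let `C = ρ.ker`, `L = δ(C)` (`δ` is additive on `C`), a finitely generated subgroup (`C` is finitely
generated, `DerivV_hom`), invariant under `ρ`: `δ (h c h⁻¹) = ρ h (δ c)` for `c ∈ C`; `L ≤ M`.
(c) `L ≠ 0`: `span L` is invariant, so `L` spans `V` (`hirr`), and `M ⧸ L` is torsion
(`DerivV_span_mul`), of finite rank (`ARk.of_vec`, `ARk.of_injective`, `ARk.of_surjective`) and has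
finitely many affine orbits under `H`; finite by `aff_tors`; so `M` is finitely generated.
(d) `L = 0` and `ρ = 1`: `δ = 0`, so `M = W` is finite, hence finitely generated.
(e), (f) `L = 0`, `ρ ≠ 1`: `δ h = ρ h v - v` by `aff_inner`.  If `M = 0` done.  Otherwise `span M`
is invariant (`hinv`), so `span M = V`.  `v + M = ⋃ ρ(H) (v + w)`.  If `v ≠ 0` take `e = v` and `N > 0` with
`N • v ∈ M` (`DerivV_span_mul`); then `(1 + j N) • v = v + j • (N • v) ∈ v + M`.  If `v = 0` take
`e ∈ M`, `e ≠ 0`, `N = 1`.  `aff_arith` with the set `{v + w}` gives a contradiction.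
-/

set_option autoImplicit false

namespace H84.PG

open H36.PP Subgroup

theorem aff_irr {H V : Type*} [Group H] [AddCommGroup V] [Module ℚ V]
    [FiniteDimensional ℚ V] (hH : AP H) (ρ : H →* (V →ₗ[ℚ] V))
    (hirr : ∀ U : Submodule ℚ V, (∀ h, ∀ u ∈ U, ρ h u ∈ U) → U = ⊥ ∨ U = ⊤)
    (δ : H → V) (hδ : ∀ g h, δ (g * h) = δ g + ρ g (δ h)) (M : AddSubgroup V)
    (hinv : ∀ h, ∀ m ∈ M, ρ h m ∈ M) (hδM : ∀ h, δ h ∈ M) (W : Set V) (hW : W.Finite)
    (hWM : W ⊆ M) (hc : ∀ m ∈ M, ∃ w ∈ W, ∃ h, m = δ h + ρ h w) : M.FG := by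
  classical
  have hHM : H36.PP.Max H := hH.1
  have hmul : ∀ g h x, ρ (g * h) x = ρ g (ρ h x) := by
    intro g h x
    rw [map_mul]
    rfl
  have hspan : ∀ L : AddSubgroup V, (∀ g, ∀ x ∈ L, ρ g x ∈ L) → L ≠ ⊥ →
      Submodule.span ℚ (L : Set V) = ⊤ := by
    intro L hL hne
    rcases hirr (Submodule.span ℚ (L : Set V)) (by
      intro h w hw
      have h1 : Submodule.span ℚ (L : Set V) ≤ (Submodule.span ℚ (L : Set V)).comap (ρ h) := by
        rw [Submodule.span_le]
        intro x hx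
        exact Submodule.subset_span (hL h x hx)
      exact h1 hw) with h1 | h1
    · exfalso
      apply hne
      rw [eq_bot_iff]
      intro x hx
      have h2 : x ∈ Submodule.span ℚ (L : Set V) := Submodule.subset_span hx
      rw [h1] at h2
      exact h2
    · exact h1
  by_cases hM0 : M = ⊥
  · rw [hM0]
    exact DerivV_fg_finite _
  have hMspan := hspan M hinv hM0
  have hkerρ : ∀ c ∈ ρ.ker, ∀ v, ρ c v = v := by
    intro c hc v
    rw [MonoidHom.mem_ker] at hc
    rw [hc]
    rfl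
  have hone : δ 1 = 0 := by
    have h := hδ 1 1
    rw [mul_one, map_one] at h
    exact left_eq_add.mp h
  have haddC : ∀ g ∈ ρ.ker, ∀ h ∈ ρ.ker, δ (g * h) = δ g + δ h := by
    intro g hg h _
    rw [hδ, hkerρ g hg]
  let L : AddSubgroup V :=
    { carrier := {v | ∃ k ∈ ρ.ker, δ k = v}
      zero_mem' := ⟨1, ρ.ker.one_mem, hone⟩
      add_mem' := by
        rintro a b ⟨k, hk, rfl⟩ ⟨l, hl, rfl⟩
        exact ⟨k * l, ρ.ker.mul_mem hk hl, haddC k hk l hl⟩
      neg_mem' := by
        rintro a ⟨k, hk, rfl⟩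
        refine ⟨k⁻¹, ρ.ker.inv_mem hk, ?_⟩
        have h2 := haddC k⁻¹ (ρ.ker.inv_mem hk) k hk
        rw [inv_mul_cancel, hone] at h2
        exact eq_neg_of_add_eq_zero_left h2.symm }
  have hLmem : ∀ v, v ∈ L ↔ ∃ k ∈ ρ.ker, δ k = v := fun v => Iff.rfl
  have hLfg : L.FG := DerivV_hom δ ρ.ker (hHM _) haddC L hLmem
  have hLM : L ≤ M := by
    rintro v ⟨k, _, rfl⟩
    exact hδM k
  have hLinv : ∀ g, ∀ x ∈ L, ρ g x ∈ L := by
    rintro h x ⟨c, hc, rfl⟩
    refine ⟨h * c * h⁻¹, ρ.normal_ker.conj_mem c hc h, ?_⟩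
    have h1 : δ (h * c * h⁻¹) = δ h + ρ h (δ c) + ρ h (δ h⁻¹) := by
      rw [hδ, hδ, hmul, hkerρ c hc]
    have h2 : δ h + ρ h (δ h⁻¹) = 0 := by
      rw [← hδ, mul_inv_cancel, hone]
    rw [h1, add_right_comm, h2, zero_add]
  by_cases hL0 : L = ⊥
  · have hC : ∀ h, ρ h = 1 → δ h = 0 := by
      intro h hh
      have h1 : δ h ∈ L := ⟨h, (MonoidHom.mem_ker).mpr hh, rfl⟩
      rw [hL0] at h1
      exact h1
    by_cases hnt : ∃ h, ρ h ≠ 1
    · -- the derivation is inner
      obtain ⟨v, hv⟩ := aff_inner hH ρ hirr δ hδ hC hnt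
      have key : ∀ m ∈ M, ∃ w ∈ W, ∃ g : H, ρ g (v + w) = v + m := by
        intro m hm
        obtain ⟨w, hw, h, hh⟩ := hc m hm
        refine ⟨w, hw, h, ?_⟩
        rw [hh, hv, map_add]
        abel
      have hWf : ((fun w => v + w) '' W).Finite := hW.image _
      exfalso
      by_cases hv0 : v = 0
      · obtain ⟨⟨e, heM⟩, he0⟩ := AddSubgroup.ne_bot_iff_exists_ne_zero.mp hM0
        have he : e ≠ 0 := fun h => he0 (Subtype.ext h)
        refine aff_arith hHM ρ _ hWf e he 1 one_pos (fun j => ?_)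
        have h1 : (1 + j * 1) • e ∈ M := M.nsmul_mem heM _
        obtain ⟨w, hw, g, hg⟩ := key _ h1
        refine ⟨v + w, ⟨w, hw, rfl⟩, g, ?_⟩
        rw [hg, hv0, zero_add, Nat.cast_smul_eq_nsmul]
      · obtain ⟨N, hN, hNv⟩ := DerivV_span_mul M v (by rw [hMspan]; trivial)
        refine aff_arith hHM ρ _ hWf v hv0 N hN (fun j => ?_)
        have h1 : (j * N) • v ∈ M := by
          rw [mul_smul]
          exact M.nsmul_mem hNv j
        obtain ⟨w, hw, g, hg⟩ := key _ h1
        refine ⟨v + w, ⟨w, hw, rfl⟩, g, ?_⟩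
        rw [hg, Nat.cast_smul_eq_nsmul, add_smul, one_smul]
    · -- trivial action
      push Not at hnt
      have h1 : (M : Set V) ⊆ W := by
        intro m hm
        obtain ⟨w, hw, h, hh⟩ := hc m hm
        rw [hC h (hnt h), hnt h, zero_add] at hh
        rw [hh]
        exact hw
      have h2 : Finite M := (hW.subset h1).to_subtype
      exact DerivV_fg_finite M
  · -- the lattice case
    have hLspan := hspan L hLinv hL0
    let f : V →+ V ⧸ L := QuotientAddGroup.mk' L
    let ac : H → ((V ⧸ L) →+ (V ⧸ L)) := fun g =>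
      QuotientAddGroup.map L L (ρ g : V →ₗ[ℚ] V).toAddMonoidHom (fun x hx => hLinv g x hx)
    have hac : ∀ g v, ac g (f v) = f (ρ g v) := fun g v => rfl
    have hacM : ∀ g, ∀ x ∈ M.map f, ac g x ∈ M.map f := by
      rintro g _ ⟨m, hm, rfl⟩
      exact ⟨ρ g m, hinv g m hm, rfl⟩
    let act : H →* AddMonoid.End (M.map f) :=
      { toFun := fun g => ((ac g).comp (M.map f).subtype).codRestrict (M.map f)
          (fun m => hacM g m m.2)
        map_one' := by
          apply AddMonoidHom.ext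
          rintro ⟨_, m, hm, rfl⟩
          apply Subtype.ext
          change ac 1 (f m) = f m
          rw [hac, map_one]
          rfl
        map_mul' := by
          intro a b
          apply AddMonoidHom.ext
          rintro ⟨_, m, hm, rfl⟩
          apply Subtype.ext
          change ac (a * b) (f m) = ac a (ac b (f m))
          rw [hac, hac, hac, hmul] }
    have hfin : Finite (M.map f) := by
      refine aff_tors act (DerivV_groupfg hHM) (Module.finrank ℚ V) ?_ ?_
        (fun h => (⟨f (δ h), δ h, hδM h, rfl⟩ : M.map f)) ?_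
        (Set.range fun w : W => (⟨f w, w, hWM w.2, rfl⟩ : M.map f)) ?_ ?_
      · exact ((ARk.of_vec V).of_surjective f (QuotientAddGroup.mk'_surjective L)).of_injective
          (M.map f).subtype (AddSubgroup.subtype_injective _)
      · rintro ⟨_, m, hm, rfl⟩
        obtain ⟨n, hn, h⟩ := DerivV_span_mul L m (by rw [hLspan]; trivial)
        refine ⟨n, hn, Subtype.ext ?_⟩
        change n • f m = 0
        rw [← map_nsmul]
        exact (QuotientAddGroup.eq_zero_iff _).mpr h
      · intro g h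
        apply Subtype.ext
        change f (δ (g * h)) = f (δ g) + ac g (f (δ h))
        rw [hδ, map_add, hac]
      · haveI : Finite W := hW.to_subtype
        exact Set.finite_range _
      · rintro ⟨_, m, hm, rfl⟩
        obtain ⟨w, hw, h, hh⟩ := hc m hm
        refine ⟨_, ⟨⟨w, hw⟩, rfl⟩, h, ?_⟩
        apply Subtype.ext
        change f m = f (δ h) + ac h (f w)
        rw [hac, ← map_add, ← hh]
    refine DerivV_fg_ext f M (DerivV_fg_finite _) ?_
    have h1 : f.ker = L := QuotientAddGroup.ker_mk' L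
    rw [h1, inf_eq_right.mpr hLM]
    exact hLfg

end H84.PG
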