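import Pool.Agent.H84.PG.AffIrr

/-!
# Module AffVec: affine orbits in a vector space (II.0 (b))

Induction on `n ≥ dim V`, for all `H` (compare `DerivV_vec`).  If `V` is irreducible (or zero)
use `aff_irr`.  Otherwise let `U ≠ ⊥, ⊤` be invariant.  (1) The image of `M` in `V ⧸ U` satisfies
the hypotheses (with the image of `W`), so it is finitely generated.  (2) `M ⊓ U`: let
`H_U = {h | δ h ∈ U}`, a subgroup of `H` (almost polycyclic).  For `w ∈ W` such that some
`h₀` has `w' = δ h₀ + ρ h₀ w ∈ U`: the set `{h | δ h + ρ h w ∈ U}` is `H_U h₀`, and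
`δ (k h₀) + ρ (k h₀) w = δ k + ρ k w'`.  So `M ⊓ U` is covered by the orbits of the finitely many
`w'` under `H_U`; restrict to `U`.  Then `DerivV_fg_ext` with the map `V → V ⧸ U`.
-/

set_option autoImplicit false

namespace H84.PG

universe u v

open H36.PP Subgroup

theorem aff_vec (n : ℕ) : ∀ (H : Type u) (V : Type v) [Group H] [AddCommGroup V] [Module ℚ V]
    [FiniteDimensional ℚ V] (_ : AP H) (ρ : H →* (V →ₗ[ℚ] V))
    (δ : H → V) (_ : ∀ g h, δ (g * h) = δ g + ρ g (δ h)) (M : AddSubgroup V)
    (_ : ∀ h, ∀ m ∈ M, ρ h m ∈ M) (_ : ∀ h, δ h ∈ M) (W : Set V) (_ : W.Finite)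
    (_ : W ⊆ M) (_ : ∀ m ∈ M, ∃ w ∈ W, ∃ h, m = δ h + ρ h w),
    Module.finrank ℚ V ≤ n → M.FG := by
  induction n with
  | zero =>
    intro H V _ _ _ _ hH ρ δ hδ M hinv hδM W hW hWM hc hd
    have h1 : Module.finrank ℚ V = 0 := Nat.le_zero.mp hd
    have : Subsingleton V := Module.finrank_zero_iff.mp h1
    exact DerivV_fg_finite _
  | succ n ih =>
    intro H V _ _ _ _ hH ρ δ hδ M hinv hδM W hW hWM hc hd
    by_cases hirr : ∀ U : Submodule ℚ V, (∀ h, ∀ u ∈ U, ρ h u ∈ U) → U = ⊥ ∨ U = ⊤
    · exact aff_irr hH ρ hirr δ hδ M hinv hδM W hW hWM hc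
    push Not at hirr
    obtain ⟨U, hU, hUb, hUt⟩ := hirr
    have hmul : ∀ g h x, ρ (g * h) x = ρ g (ρ h x) := by
      intro g h x
      rw [map_mul]
      rfl
    have hone : δ 1 = 0 := by
      have h := hδ 1 1
      rw [mul_one, map_one] at h
      exact left_eq_add.mp h
    have hinvδ : ∀ g, δ g⁻¹ = - ρ g⁻¹ (δ g) := by
      intro g
      have h := hδ g⁻¹ g
      rw [inv_mul_cancel, hone] at h
      exact eq_neg_of_add_eq_zero_left h.symm
    let K : Subgroup H :=
      { carrier := {h | δ h ∈ U}
        mul_mem' := by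
          intro a b ha hb
          simp only [Set.mem_ofPred_eq] at *
          rw [hδ]
          exact U.add_mem ha (hU _ _ hb)
        one_mem' := by
          simp only [Set.mem_ofPred_eq]
          rw [hone]
          exact U.zero_mem
        inv_mem' := by
          intro a ha
          simp only [Set.mem_ofPred_eq] at *
          rw [hinvδ]
          exact U.neg_mem (hU _ _ ha) }
    have hUlt : Module.finrank ℚ U < Module.finrank ℚ V := Submodule.finrank_lt hUt
    have hUpos : 0 < Module.finrank ℚ U := by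
      rw [Nat.pos_iff_ne_zero]
      intro h
      exact hUb (Submodule.finrank_eq_zero.mp h)
    have hquot : Module.finrank ℚ (V ⧸ U) + Module.finrank ℚ U = Module.finrank ℚ V :=
      Submodule.finrank_quotient_add_finrank U
    -- the submodule
    let ρU : K →* (U →ₗ[ℚ] U) :=
      { toFun := fun h => (ρ (h : H)).restrict (fun w hw => hU (h : H) w hw)
        map_one' := by
          ext w
          simp
        map_mul' := by
          intro a b
          ext w
          simp }
    classical
    let f : V → U := fun w => if hw : ∃ h, δ h + ρ h w ∈ U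
      then ⟨δ hw.choose + ρ hw.choose w, hw.choose_spec⟩ else 0
    have h1 : (M.addSubgroupOf U.toAddSubgroup : AddSubgroup U).FG := by
      refine ih K U (hH.subgroup K) ρU (fun h => ⟨δ h, h.2⟩) ?_ _ ?_ ?_ (f '' W)
        (hW.image f) ?_ ?_ (by omega)
      · intro g h
        exact Subtype.ext (hδ g h)
      · intro h m hm
        exact hinv h m hm
      · intro h
        exact hδM h
      · rintro x ⟨w, hw, rfl⟩
        by_cases hex : ∃ h, δ h + ρ h w ∈ U
        · have hf : f w = ⟨δ hex.choose + ρ hex.choose w, hex.choose_spec⟩ := dif_pos hex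
          rw [hf]
          exact M.add_mem (hδM _) (hinv _ _ (hWM hw))
        · have hf : f w = 0 := dif_neg hex
          rw [hf]
          exact AddSubgroup.zero_mem _
      · intro m hm
        obtain ⟨w, hw, h, hh⟩ := hc (m : V) hm
        have hex : ∃ h, δ h + ρ h w ∈ U := ⟨h, by rw [← hh]; exact m.2⟩
        have hf : f w = ⟨δ hex.choose + ρ hex.choose w, hex.choose_spec⟩ := dif_pos hex
        have hk : (m : V) = δ (h * hex.choose⁻¹) +
            ρ (h * hex.choose⁻¹) (δ hex.choose + ρ hex.choose w) := by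
          rw [map_add, ← add_assoc, ← hδ, ← hmul, inv_mul_cancel_right]
          exact hh
        have hkK : δ (h * hex.choose⁻¹) ∈ U := by
          have h2 : δ (h * hex.choose⁻¹) =
              (m : V) - ρ (h * hex.choose⁻¹) (δ hex.choose + ρ hex.choose w) := by
            rw [eq_sub_iff_add_eq]
            exact hk.symm
          rw [h2]
          exact U.sub_mem m.2 (hU _ _ hex.choose_spec)
        refine ⟨f w, ⟨w, hw, rfl⟩, ⟨h * hex.choose⁻¹, hkK⟩, ?_⟩
        rw [hf]
        exact Subtype.ext hk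
    let ρQ : H →* ((V ⧸ U) →ₗ[ℚ] (V ⧸ U)) :=
      { toFun := fun h => U.mapQ U (ρ h) (fun w hw => hU h w hw)
        map_one' := by
          ext w
          simp
        map_mul' := by
          intro a b
          ext w
          simp }
    have h2 : (M.map U.mkQ.toAddMonoidHom).FG := by
      refine ih H (V ⧸ U) hH ρQ (fun h => U.mkQ (δ h)) ?_ _ ?_ ?_ (U.mkQ '' W)
        (hW.image _) ?_ ?_ (by omega)
      · intro g h
        rw [hδ, map_add]
        rfl
      · rintro h x ⟨m, hm, rfl⟩
        exact ⟨ρ h m, hinv h m hm, rfl⟩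
      · intro h
        exact ⟨δ h, hδM h, rfl⟩
      · rintro x ⟨w, hw, rfl⟩
        exact ⟨w, hWM hw, rfl⟩
      · rintro x ⟨m, hm, rfl⟩
        obtain ⟨w, hw, h, rfl⟩ := hc m hm
        refine ⟨U.mkQ w, ⟨w, hw, rfl⟩, h, ?_⟩
        change U.mkQ (δ h + ρ h w) = _
        rw [map_add]
        rfl
    refine DerivV_fg_ext U.mkQ.toAddMonoidHom M h2 ?_
    have h3 : M ⊓ (U.mkQ.toAddMonoidHom).ker
        = (M.addSubgroupOf U.toAddSubgroup).map U.toAddSubgroup.subtype := by
      ext x
      constructor
      · rintro ⟨hx1, hx2⟩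
        have hx3 : x ∈ U := by
          have : U.mkQ x = 0 := hx2
          simpa using this
        exact ⟨⟨x, hx3⟩, hx1, rfl⟩
      · rintro ⟨y, hy, rfl⟩
        refine ⟨hy, ?_⟩
        change U.mkQ (y : V) = 0
        simp
    rw [h3]
    obtain ⟨T, hT⟩ := h1
    refine ⟨T.image U.toAddSubgroup.subtype, ?_⟩
    rw [Finset.coe_image]
    rw [← AddMonoidHom.map_closure]
    exact congrArg _ hT

end H84.PG
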