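import Pool.Agent.H84.PG.MDefs

/-!
# Basic facts on bounded functions, the supremum norm and means
-/

set_option autoImplicit false

namespace H84.PG

open Filter Topology

variable {X : Type*}

theorem Bdd.const (c : ℝ) : Bdd (fun _ : X => c) := ⟨|c|, fun _ => le_rfl⟩

theorem Bdd.add {f g : X → ℝ} (hf : Bdd f) (hg : Bdd g) : Bdd (fun x => f x + g x) := by
  obtain ⟨C, hC⟩ := hf
  obtain ⟨D, hD⟩ := hg
  exact ⟨C + D, fun x => (abs_add_le _ _).trans (add_le_add (hC x) (hD x))⟩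

theorem Bdd.smul {f : X → ℝ} (c : ℝ) (hf : Bdd f) : Bdd (fun x => c * f x) := by
  obtain ⟨C, hC⟩ := hf
  exact ⟨|c| * C, fun x => by
    rw [abs_mul]
    exact mul_le_mul_of_nonneg_left (hC x) (abs_nonneg c)⟩

theorem Bdd.neg {f : X → ℝ} (hf : Bdd f) : Bdd (fun x => - f x) := by
  obtain ⟨C, hC⟩ := hf
  exact ⟨C, fun x => by rw [abs_neg]; exact hC x⟩

theorem Bdd.sub {f g : X → ℝ} (hf : Bdd f) (hg : Bdd g) : Bdd (fun x => f x - g x) := by
  have h := hf.add hg.neg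
  simpa [sub_eq_add_neg] using h

theorem Bdd.mul {f g : X → ℝ} (hf : Bdd f) (hg : Bdd g) : Bdd (fun x => f x * g x) := by
  obtain ⟨C, hC⟩ := hf
  obtain ⟨D, hD⟩ := hg
  refine ⟨|C| * |D|, fun x => ?_⟩
  rw [abs_mul]
  exact mul_le_mul ((hC x).trans (le_abs_self C)) ((hD x).trans (le_abs_self D)) (abs_nonneg _)
    (abs_nonneg _)

theorem Bdd.comp {Z : Type*} {f : X → ℝ} (hf : Bdd f) (φ : Z → X) : Bdd (fun z => f (φ z)) := by
  obtain ⟨C, hC⟩ := hf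
  exact ⟨C, fun z => hC (φ z)⟩

theorem Bdd.of_le {f g : X → ℝ} (hg : Bdd g) (h : ∀ x, |f x| ≤ |g x|) : Bdd f := by
  obtain ⟨C, hC⟩ := hg
  exact ⟨C, fun x => (h x).trans (hC x)⟩

theorem Bdd.indicator {f : X → ℝ} (hf : Bdd f) (Y : Set X) : Bdd (Y.indicator f) := by
  obtain ⟨C, hC⟩ := hf
  refine ⟨|C|, fun x => ?_⟩
  by_cases h : x ∈ Y
  · rw [Set.indicator_of_mem h]
    exact (hC x).trans (le_abs_self C)
  · rw [Set.indicator_of_notMem h, abs_zero]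
    exact abs_nonneg C

theorem sn_nonneg (w : X → ℝ) : 0 ≤ sn w := Real.iSup_nonneg fun _ => abs_nonneg _

theorem le_sn {w : X → ℝ} (h : Bdd w) (x : X) : |w x| ≤ sn w := by
  obtain ⟨C, hC⟩ := h
  exact le_ciSup (f := fun x => |w x|) ⟨C, by rintro _ ⟨x, rfl⟩; exact hC x⟩ x

theorem sn_le {w : X → ℝ} {C : ℝ} (hC : 0 ≤ C) (h : ∀ x, |w x| ≤ C) : sn w ≤ C :=
  Real.iSup_le h hC

theorem eq_zero_of_sn {w : X → ℝ} (h : Bdd w) (h0 : sn w = 0) : w = 0 := by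
  funext x
  have := le_sn h x
  rw [h0] at this
  exact abs_nonpos_iff.mp this

theorem sn_pos {w : X → ℝ} (h : Bdd w) (h0 : w ≠ 0) : 0 < sn w :=
  lt_of_le_of_ne (sn_nonneg w) fun e => h0 (eq_zero_of_sn h e.symm)

theorem sn_smul (c : ℝ) (w : X → ℝ) : sn (fun x => c * w x) = |c| * sn w := by
  unfold sn
  rw [Real.mul_iSup_of_nonneg (abs_nonneg c)]
  exact iSup_congr fun x => abs_mul c (w x)

theorem sn_add_le {f g : X → ℝ} (hf : Bdd f) (hg : Bdd g) :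
    sn (fun x => f x + g x) ≤ sn f + sn g :=
  sn_le (add_nonneg (sn_nonneg f) (sn_nonneg g)) fun x =>
    (abs_add_le _ _).trans (add_le_add (le_sn hf x) (le_sn hg x))

theorem sn_sub_le {f g : X → ℝ} (hf : Bdd f) (hg : Bdd g) :
    sn (fun x => f x - g x) ≤ sn f + sn g :=
  sn_le (add_nonneg (sn_nonneg f) (sn_nonneg g)) fun x =>
    (abs_sub _ _).trans (add_le_add (le_sn hf x) (le_sn hg x))

variable [AddCommGroup X]

theorem sn_trans (w : X → ℝ) (y : X) : sn (fun x => w (x + y)) = sn w :=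
  (Equiv.addRight y).surjective.iSup_comp (fun x => |w x|)

theorem Bdd.trans {f : X → ℝ} (hf : Bdd f) (y : X) : Bdd (fun x => f (x + y)) :=
  hf.comp fun x => x + y

theorem Bdd.one_ind (Y : Set X) : Bdd (Y.indicator fun _ => (1 : ℝ)) :=
  (Bdd.const 1).indicator Y

variable (μ : Mean X)

theorem Mean.L_const (c : ℝ) : μ.L (fun _ => c) = c := by
  have h := μ.smul c (fun _ => 1) (Bdd.const 1)
  simp only [mul_one] at h
  rw [h, μ.one, mul_one]

theorem Mean.L_neg {f : X → ℝ} (hf : Bdd f) : μ.L (fun x => - f x) = - μ.L f := by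
  have h := μ.smul (-1) f hf
  simpa using h

theorem Mean.L_sub {f g : X → ℝ} (hf : Bdd f) (hg : Bdd g) :
    μ.L (fun x => f x - g x) = μ.L f - μ.L g := by
  have h := μ.add f (fun x => - g x) hf hg.neg
  rw [μ.L_neg hg] at h
  simpa [sub_eq_add_neg] using h

theorem Mean.m_nonneg (Y : Set X) : 0 ≤ μ.m Y := by
  have h := μ.mono (fun _ => 0) (Y.indicator fun _ => 1) (Bdd.const 0) (Bdd.one_ind Y)
    (fun x => Set.indicator_nonneg (fun _ _ => zero_le_one) x)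
  rwa [μ.L_const] at h

theorem Mean.m_mono {Y Z : Set X} (h : Y ⊆ Z) : μ.m Y ≤ μ.m Z :=
  μ.mono _ _ (Bdd.one_ind Y) (Bdd.one_ind Z) fun x =>
    Set.indicator_le_indicator_of_subset h (fun _ => zero_le_one) x

theorem Mean.m_univ : μ.m Set.univ = 1 := by
  unfold Mean.m
  rw [Set.indicator_univ, μ.one]

theorem Mean.m_empty : μ.m ∅ = 0 := by
  unfold Mean.m
  rw [Set.indicator_empty, μ.L_const]

theorem Mean.m_le_one (Y : Set X) : μ.m Y ≤ 1 := by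
  rw [← μ.m_univ]
  exact μ.m_mono (Set.subset_univ Y)

theorem Mean.m_add {Y Z : Set X} (h : Disjoint Y Z) : μ.m (Y ∪ Z) = μ.m Y + μ.m Z := by
  unfold Mean.m
  rw [← μ.add _ _ (Bdd.one_ind Y) (Bdd.one_ind Z)]
  congr 1
  funext x
  rw [Set.indicator_union_of_disjoint h]

theorem Mean.m_union_le (Y Z : Set X) : μ.m (Y ∪ Z) ≤ μ.m Y + μ.m Z := by
  unfold Mean.m
  rw [← μ.add _ _ (Bdd.one_ind Y) (Bdd.one_ind Z)]
  refine μ.mono _ _ (Bdd.one_ind _) ((Bdd.one_ind Y).add (Bdd.one_ind Z)) fun x => ?_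
  by_cases h1 : x ∈ Y <;> by_cases h2 : x ∈ Z <;> simp [h1, h2]

theorem Mean.m_compl (Y : Set X) : μ.m Yᶜ = 1 - μ.m Y := by
  have h := μ.m_add (disjoint_compl_right (a := Y))
  rw [Set.union_compl_self, μ.m_univ] at h
  linarith

theorem Mean.m_diff (Y Z : Set X) : μ.m Y - μ.m Z ≤ μ.m (Y \ Z) := by
  have h := μ.m_mono (show Y ⊆ (Y \ Z) ∪ Z from fun x hx => by
    by_cases h : x ∈ Z
    · exact Or.inr h
    · exact Or.inl ⟨hx, h⟩)
  have h2 := μ.m_union_le (Y \ Z) Z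
  linarith

theorem Mean.m_inter (Y Z : Set X) : μ.m Y + μ.m Z - 1 ≤ μ.m (Y ∩ Z) := by
  have h := μ.m_diff Y Zᶜ
  rw [μ.m_compl] at h
  have e : Y \ Zᶜ = Y ∩ Z := by
    ext x
    simp
  rw [e] at h
  linarith

theorem Mean.m_zero_union {Y Z : Set X} (h1 : μ.m Y = 0) (h2 : μ.m Z = 0) :
    μ.m (Y ∪ Z) = 0 :=
  le_antisymm (by have := μ.m_union_le Y Z; linarith) (μ.m_nonneg _)

theorem Mean.m_zero_mono {Y Z : Set X} (h : Y ⊆ Z) (h1 : μ.m Z = 0) : μ.m Y = 0 :=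
  le_antisymm (by have := μ.m_mono h; linarith) (μ.m_nonneg _)

theorem Mean.m_trans (Y : Set X) (y : X) : μ.m {x | x + y ∈ Y} = μ.m Y :=
  μ.trans (Y.indicator fun _ => 1) y (Bdd.one_ind Y)

theorem Mean.m_biUnion_zero {ι : Type*} (t : Finset ι) (Y : ι → Set X)
    (h : ∀ i ∈ t, μ.m (Y i) = 0) : μ.m (⋃ i ∈ t, Y i) = 0 := by
  classical
  induction t using Finset.induction_on with
  | empty => simpa using μ.m_empty
  | insert a s ha ih =>
    rw [Finset.set_biUnion_insert]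
    exact μ.m_zero_union (h a (Finset.mem_insert_self a s))
      (ih fun i hi => h i (Finset.mem_insert_of_mem hi))

theorem Mean.L_abs_le {f : X → ℝ} {C : ℝ} (hC : ∀ x, |f x| ≤ C) : |μ.L f| ≤ C := by
  have hf : Bdd f := ⟨C, hC⟩
  rw [abs_le]
  constructor
  · have h := μ.mono (fun _ => -C) f (Bdd.const _) hf fun x => (abs_le.mp (hC x)).1
    rwa [μ.L_const] at h
  · have h := μ.mono f (fun _ => C) hf (Bdd.const _) fun x => (abs_le.mp (hC x)).2
    rwa [μ.L_const] at h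

theorem Mean.L_abs_le_of {f : X → ℝ} {C ε : ℝ} {Y : Set X} (hC : ∀ x, |f x| ≤ C) (hε : 0 ≤ ε)
    (hC0 : 0 ≤ C) (hY : ∀ x ∉ Y, |f x| ≤ ε) : |μ.L f| ≤ ε + C * μ.m Y := by
  have hf : Bdd f := ⟨C, hC⟩
  have hb : Bdd (fun x => ε + C * (Y.indicator (fun _ => (1 : ℝ)) x)) :=
    (Bdd.const ε).add ((Bdd.one_ind Y).smul C)
  have hL : μ.L (fun x => ε + C * (Y.indicator (fun _ => (1 : ℝ)) x)) = ε + C * μ.m Y := by
    rw [μ.add _ _ (Bdd.const ε) ((Bdd.one_ind Y).smul C), μ.L_const, μ.smul _ _ (Bdd.one_ind Y)]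
    rfl
  have hx : ∀ x, |f x| ≤ ε + C * (Y.indicator (fun _ => (1 : ℝ)) x) := by
    intro x
    by_cases h : x ∈ Y
    · rw [Set.indicator_of_mem h]
      linarith [hC x]
    · rw [Set.indicator_of_notMem h]
      linarith [hY x h]
  rw [← hL, abs_le]
  constructor
  · rw [← μ.L_neg hb]
    exact μ.mono _ _ hb.neg hf fun x => (abs_le.mp (hx x)).1
  · exact μ.mono _ _ hf hb fun x => (abs_le.mp (hx x)).2

theorem Mean.L_lower {f : X → ℝ} (hf : Bdd f) (h0 : ∀ x, 0 ≤ f x) {c : ℝ}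
    {Y : Set X} (hY : ∀ x ∈ Y, c ≤ f x) : c * μ.m Y ≤ μ.L f := by
  have h := μ.mono (fun x => c * (Y.indicator (fun _ => (1 : ℝ)) x)) f
    ((Bdd.one_ind Y).smul c) hf (fun x => by
      by_cases h : x ∈ Y
      · rw [Set.indicator_of_mem h, mul_one]
        exact hY x h
      · rw [Set.indicator_of_notMem h, mul_zero]
        exact h0 x)
  rwa [μ.smul _ _ (Bdd.one_ind Y)] at h

theorem Mean.L_nonneg {f : X → ℝ} (hf : Bdd f) (h0 : ∀ x, 0 ≤ f x) : 0 ≤ μ.L f := by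
  have h := μ.mono (fun _ => 0) f (Bdd.const 0) hf h0
  rwa [μ.L_const] at h

end H84.PG
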