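import Pool.Agent.H84.PG.CDDefs
import Pool.Agent.H84.PG.MeanB

/-!
# Module CDB: basic facts on character data (VII.1)

`p 1 = 0`, `p g⁻¹ = - p g`, `p (d.sec x) = x`, `nu 0 = 1`, `nu (-x) = (nu x)⁻¹`; `chi 1 = 0`,
`chi c⁻¹ = - chi c` on the kernel.
* `chat_spec`: if `p g = p g'` then `g = g' * e` with `p e = 0` and
  `g * c * g⁻¹ = g' * (e * c * e⁻¹) * g'⁻¹ = (g' e g'⁻¹) (g' c g'⁻¹) (g' e g'⁻¹)⁻¹`, all three factors
  in the kernel, so `chi (g c g⁻¹) = chi (g' c g'⁻¹)` by `chimul`; take `g' = sec (p g)`.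
* `chat_mul`, `chat_inv`: `g (c c') g⁻¹ = (g c g⁻¹) (g c' g⁻¹)`.
* `chat_bdd`: `bdd` with `g = sec x`.
* `chat_trans`: both sides times `nu (x + p g) = nu x * nu (p g)` are
  `chi (sec x * g * c * g⁻¹ * (sec x)⁻¹)` (`chat_spec` for `sec x * g`).
* `chat_zero`: `chat c 0 = chi c` (`chat_spec` with `g = 1`).
* `CD.W_mem_iff`, `WZ`: the functions `chat c` form an additive subgroup.
* `W_fd`: if the kernel is generated by a finite set `S`, then every `chat c` is in the span of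
  `chat s`, `s ∈ S` (`closure_induction` with `chat_mul`, `chat_inv`; membership `p = 0` for all
  elements of `closure S`), so `W` is the span of a finite set.
* `W_inv`, `W_bdd`: span induction from `chat_trans`, `chat_bdd`.
-/

set_option autoImplicit false

namespace H84.PG

open H36.PP Subgroup

variable {G X : Type*} [Group G] [AddCommGroup X]

theorem CD.p_one (d : CD G X) : d.p 1 = 0 := by
  have h := d.pmul 1 1
  rw [mul_one] at h
  exact left_eq_add.mp h

theorem CD.p_inv (d : CD G X) (g : G) : d.p g⁻¹ = - d.p g := by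
  have h := d.pmul g⁻¹ g
  rw [inv_mul_cancel, d.p_one] at h
  exact eq_neg_of_add_eq_zero_left h.symm

theorem CD.p_conj (d : CD G X) (g : G) {c : G} (hc : d.p c = 0) : d.p (g * c * g⁻¹) = 0 := by
  rw [d.pmul, d.pmul, hc, add_zero, d.p_inv, add_neg_cancel]

theorem CD.p_sec (d : CD G X) (x : X) : d.p (d.sec x) = x := (d.psurj x).choose_spec

theorem CD.nu_zero (d : CD G X) : d.nu 0 = 1 := by
  have h := d.numul 0 0
  rw [add_zero] at h
  have h1 := (d.nupos 0).ne'
  exact (mul_right_eq_self₀.mp h.symm).resolve_right h1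

theorem CD.nu_neg (d : CD G X) (x : X) : d.nu (-x) = (d.nu x)⁻¹ := by
  have h := d.numul (-x) x
  rw [neg_add_cancel, d.nu_zero] at h
  exact eq_inv_of_mul_eq_one_left h.symm

theorem CD.chi_one (d : CD G X) : d.chi 1 = 0 := by
  have h := d.chimul 1 1 d.p_one d.p_one
  rw [mul_one] at h
  linarith

theorem CD.chi_inv (d : CD G X) {c : G} (hc : d.p c = 0) : d.chi c⁻¹ = - d.chi c := by
  have h := d.chimul c⁻¹ c (by rw [d.p_inv, hc, neg_zero]) hc
  rw [inv_mul_cancel, d.chi_one] at h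
  linarith

private theorem CDB_p_inv0 (d : CD G X) {c : G} (hc : d.p c = 0) : d.p c⁻¹ = 0 := by
  rw [d.p_inv, hc, neg_zero]

private theorem CDB_p_mul0 (d : CD G X) {c c' : G} (hc : d.p c = 0) (hc' : d.p c' = 0) :
    d.p (c * c') = 0 := by
  rw [d.pmul, hc, hc', add_zero]

private theorem CDB_conj (d : CD G X) {g g' : G} (h : d.p g = d.p g') {c : G} (hc : d.p c = 0) :
    d.chi (g * c * g⁻¹) = d.chi (g' * c * g'⁻¹) := by
  have he : d.p (g * g'⁻¹) = 0 := by
    rw [d.pmul, d.p_inv, h, add_neg_cancel]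
  have h1 : g * c * g⁻¹ = (g * g'⁻¹) * (g' * c * g'⁻¹) * (g * g'⁻¹)⁻¹ := by group
  have h2 := d.p_conj g' hc
  rw [h1, d.chimul _ _ (CDB_p_mul0 d he h2) (CDB_p_inv0 d he), d.chimul _ _ he h2,
    d.chi_inv he]
  ring

theorem CD.chat_spec (d : CD G X) (g : G) {c : G} (hc : d.p c = 0) :
    d.chi (g * c * g⁻¹) = d.nu (d.p g) * d.chat c (d.p g) := by
  unfold CD.chat
  rw [mul_inv_cancel_left₀ (d.nupos _).ne']
  exact CDB_conj d (d.p_sec _).symm hc

theorem CD.chat_mul (d : CD G X) {c c' : G} (hc : d.p c = 0) (hc' : d.p c' = 0) (x : X) :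
    d.chat (c * c') x = d.chat c x + d.chat c' x := by
  unfold CD.chat
  have h1 : d.sec x * (c * c') * (d.sec x)⁻¹ =
      (d.sec x * c * (d.sec x)⁻¹) * (d.sec x * c' * (d.sec x)⁻¹) := by group
  rw [h1, d.chimul _ _ (d.p_conj _ hc) (d.p_conj _ hc')]
  ring

theorem CD.chat_inv (d : CD G X) {c : G} (hc : d.p c = 0) (x : X) :
    d.chat c⁻¹ x = - d.chat c x := by
  unfold CD.chat
  have h1 : d.sec x * c⁻¹ * (d.sec x)⁻¹ = (d.sec x * c * (d.sec x)⁻¹)⁻¹ := by group
  rw [h1, d.chi_inv (d.p_conj _ hc)]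
  ring

theorem CD.chat_bdd (d : CD G X) {c : G} (hc : d.p c = 0) : Bdd (d.chat c) := by
  obtain ⟨M, hM⟩ := d.bdd c hc
  refine ⟨M, fun x => ?_⟩
  have h1 := hM (d.sec x)
  rw [d.p_sec] at h1
  unfold CD.chat
  rw [abs_mul, abs_of_pos (inv_pos.mpr (d.nupos x)), inv_mul_le_iff₀ (d.nupos x)]
  linarith

theorem CD.chat_trans (d : CD G X) (g : G) {c : G} (hc : d.p c = 0) (x : X) :
    d.chat c (x + d.p g) = (d.nu (d.p g))⁻¹ * d.chat (g * c * g⁻¹) x := by
  have h1 := d.chat_spec (d.sec x * g) hc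
  have h2 := d.chat_spec (d.sec x) (d.p_conj g hc)
  rw [d.pmul, d.p_sec, d.numul] at h1
  rw [d.p_sec] at h2
  have h3 : d.sec x * g * c * (d.sec x * g)⁻¹ = d.sec x * (g * c * g⁻¹) * (d.sec x)⁻¹ := by
    group
  rw [h3, h2] at h1
  have hx := (d.nupos x).ne'
  have hg := (d.nupos (d.p g)).ne'
  have h4 : d.nu x * d.chat (g * c * g⁻¹) x =
      d.nu x * (d.nu (d.p g) * d.chat c (x + d.p g)) := by
    rw [h1]
    ring
  have h5 := mul_left_cancel₀ hx h4
  rw [h5, inv_mul_cancel_left₀ hg]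

theorem CD.chat_zero (d : CD G X) {c : G} (hc : d.p c = 0) : d.chat c 0 = d.chi c := by
  have h := d.chat_spec 1 hc
  rw [d.p_one, d.nu_zero, one_mul, one_mul, inv_one, mul_one] at h
  exact h.symm

private theorem CDB_chat_one (d : CD G X) : d.chat 1 = 0 := by
  funext x
  have h := d.chat_mul d.p_one d.p_one x
  rw [mul_one] at h
  rw [Pi.zero_apply]
  linarith

/-- the group of the functions `chat c` -/
def CD.WZ (d : CD G X) : AddSubgroup (X → ℝ) where
  carrier := {w | ∃ c, d.p c = 0 ∧ w = d.chat c}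
  zero_mem' := ⟨1, d.p_one, (CDB_chat_one d).symm⟩
  add_mem' := by
    rintro _ _ ⟨c, hc, rfl⟩ ⟨c', hc', rfl⟩
    exact ⟨c * c', CDB_p_mul0 d hc hc', funext fun x => (d.chat_mul hc hc' x).symm⟩
  neg_mem' := by
    rintro _ ⟨c, hc, rfl⟩
    exact ⟨c⁻¹, CDB_p_inv0 d hc, funext fun x => (d.chat_inv hc x).symm⟩

theorem CD.mem_WZ (d : CD G X) (w : X → ℝ) : w ∈ d.WZ ↔ ∃ c, d.p c = 0 ∧ w = d.chat c :=
  Iff.rfl

theorem CD.span_WZ (d : CD G X) : Submodule.span ℝ (d.WZ : Set (X → ℝ)) = d.W := rfl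

theorem CD.W_fd (d : CD G X) {S : Set G} (hf : S.Finite) (hS : ∀ s ∈ S, d.p s = 0)
    (hg : ∀ c, d.p c = 0 → c ∈ closure S) : FiniteDimensional ℝ d.W := by
  have h1 : ∀ c ∈ closure S, d.p c = 0 ∧ d.chat c ∈ Submodule.span ℝ (d.chat '' S) := by
    intro c hc
    induction hc using Subgroup.closure_induction with
    | mem s hs => exact ⟨hS s hs, Submodule.subset_span ⟨s, hs, rfl⟩⟩
    | one => exact ⟨d.p_one, by rw [CDB_chat_one]; exact Submodule.zero_mem _⟩
    | mul x y _ _ hx hy =>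
      refine ⟨CDB_p_mul0 d hx.1 hy.1, ?_⟩
      have h2 : d.chat (x * y) = d.chat x + d.chat y := funext fun z => d.chat_mul hx.1 hy.1 z
      rw [h2]
      exact Submodule.add_mem _ hx.2 hy.2
    | inv x _ hx =>
      refine ⟨CDB_p_inv0 d hx.1, ?_⟩
      have h2 : d.chat x⁻¹ = - d.chat x := funext fun z => d.chat_inv hx.1 z
      rw [h2]
      exact Submodule.neg_mem _ hx.2
  have h2 : d.W = Submodule.span ℝ (d.chat '' S) := by
    refine le_antisymm (Submodule.span_le.mpr ?_) (Submodule.span_mono ?_)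
    · rintro _ ⟨c, hc, rfl⟩
      exact (h1 c (hg c hc)).2
    · rintro _ ⟨s, hs, rfl⟩
      exact ⟨s, hS s hs, rfl⟩
  rw [h2]
  exact FiniteDimensional.span_of_finite ℝ (hf.image _)

theorem CD.W_inv (d : CD G X) : ∀ w ∈ d.W, ∀ y, (fun x => w (x + y)) ∈ d.W := by
  intro w hw y
  induction hw using Submodule.span_induction with
  | mem w hw =>
    obtain ⟨c, hc, rfl⟩ := hw
    have h1 : (fun x => d.chat c (x + y)) =
        (d.nu y)⁻¹ • d.chat (d.sec y * c * (d.sec y)⁻¹) := by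
      funext x
      have h2 := d.chat_trans (d.sec y) hc x
      rw [d.p_sec] at h2
      exact h2
    rw [h1]
    exact Submodule.smul_mem _ _ (Submodule.subset_span ⟨_, d.p_conj _ hc, rfl⟩)
  | zero => exact Submodule.zero_mem _
  | add u v _ _ hu hv => exact Submodule.add_mem _ hu hv
  | smul a u _ hu => exact Submodule.smul_mem _ a hu

theorem CD.W_bdd (d : CD G X) : ∀ w ∈ d.W, Bdd w := by
  intro w hw
  induction hw using Submodule.span_induction with
  | mem w hw =>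
    obtain ⟨c, hc, rfl⟩ := hw
    exact d.chat_bdd hc
  | zero => exact Bdd.const 0
  | add u v _ _ hu hv => exact hu.add hv
  | smul a u _ hu => exact hu.smul a

end H84.PG
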