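import Mathlib

/-!
# MP_e8b852_al, Part VIII: definitions (finitely additive mean, stable function spaces)

`Bdd f`     bounded function
`Mean X`    translation invariant finitely additive mean on bounded functions of `X`
`μ.m Y`     mean of the indicator function of `Y`
`sn w`      supremum norm
`Stab W`    finite dimensional translation invariant space of bounded functions, stable under
            passing to subgroups of finite index
`UU`        a nonprincipal ultrafilter on `ℕ`
`MZ μ g`    the sequence of functions `g n` tends to zero in mean along `UU`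
`MB`, `MD`, `ED`  the data of the mean argument (base, real version, extended real version)
`Run`       one sequence of solutions of the identity for `w = n u`
-/

set_option autoImplicit false

namespace H84.PG

open Filter Topology

/-- bounded function -/
def Bdd {X : Type*} (f : X → ℝ) : Prop := ∃ C : ℝ, ∀ x, |f x| ≤ C

/-- a translation invariant finitely additive mean (only the values on bounded functions
matter) -/
structure Mean (X : Type*) [AddCommGroup X] where
  L : (X → ℝ) → ℝ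
  add : ∀ f g, Bdd f → Bdd g → L (fun x => f x + g x) = L f + L g
  smul : ∀ (c : ℝ) (f : X → ℝ), Bdd f → L (fun x => c * f x) = c * L f
  mono : ∀ f g, Bdd f → Bdd g → (∀ x, f x ≤ g x) → L f ≤ L g
  one : L (fun _ => 1) = 1
  trans : ∀ (f : X → ℝ) (y : X), Bdd f → L (fun x => f (x + y)) = L f

/-- the mean of a set -/
noncomputable def Mean.m {X : Type*} [AddCommGroup X] (μ : Mean X) (Y : Set X) : ℝ :=
  μ.L (Y.indicator fun _ => 1)

/-- supremum norm -/
noncomputable def sn {X : Type*} (w : X → ℝ) : ℝ := ⨆ x, |w x|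

/-- stable function space -/
structure Stab {X : Type*} [AddCommGroup X] (W : Submodule ℝ (X → ℝ)) : Prop where
  fd : FiniteDimensional ℝ W
  bdd : ∀ w ∈ W, Bdd w
  inv : ∀ w ∈ W, ∀ y, (fun x => w (x + y)) ∈ W
  zero : ∀ Λ : AddSubgroup X, Λ.FiniteIndex → ∀ w ∈ W, (∀ x ∈ Λ, w x = 0) → w = 0
  const : ∀ Λ : AddSubgroup X, Λ.FiniteIndex → ∀ w ∈ W, (∀ y ∈ Λ, ∀ x, w (x + y) = w x) →
    ∃ c : ℝ, ∀ x, w x = c

/-- a nonprincipal ultrafilter on `ℕ` -/
noncomputable def UU : Filter ℕ := (Filter.hyperfilter ℕ : Filter ℕ)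

/-- convergence to zero in mean along the ultrafilter -/
def MZ {X : Type*} [AddCommGroup X] (μ : Mean X) (g : ℕ → X → ℝ) : Prop :=
  ∀ ε > 0, Tendsto (fun n => μ.m {x | ε ≤ |g n x|}) UU (𝓝 0)

/-- common data of the mean argument: the space `W`, the lattice `WZ` in it, a group `A` that
acts by translations through `p`, the scaling `nu`, the cocycle `k` -/
structure MB (X A : Type*) [AddCommGroup X] [Group A] where
  μ : Mean X
  W : Submodule ℝ (X → ℝ)
  WZ : AddSubgroup (X → ℝ)
  p : A → X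
  nu : X → ℝ
  k : A → X → ℝ
  st : Stab W
  span : Submodule.span ℝ (WZ : Set (X → ℝ)) = W
  pmul : ∀ a b, p (a * b) = p a + p b
  psurj : Function.Surjective p
  nupos : ∀ x, 0 < nu x
  numul : ∀ x y, nu (x + y) = nu x * nu y
  kbd : ∀ a, Bdd (k a)
  kmul : ∀ a b x, k (a * b) x = k a x + nu (p a) * k b (x + p a)
  comm : ∀ h a, (fun x => nu (p h) * k a (x + p h) - k a x -
    (nu (p a) * k h (x + p a) - k h x)) ∈ W

/-- the data of the mean argument, real version -/
structure MD (X A ι : Type*) [AddCommGroup X] [Group A] extends MB X A where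
  r : ι → X → ℝ
  Sg : Set X
  c : ℝ
  tight : ∀ i, ∀ δ > 0, ∃ R : ℝ, μ.m {x | R < |r i x|} ≤ δ
  low : ∀ i x, -c ≤ r i x
  Sgpos : 0 < μ.m Sg
  eq : ∀ u ∈ WZ, u ≠ 0 → ∀ i, ∃ (a : ℕ → A) (j : ℕ → ι) (E : ℕ → Set X),
    Tendsto (fun n => μ.m (E n)) UU (𝓝 0) ∧ ∀ᶠ n in UU, ∀ x ∉ E n,
      k (a n) x + nu (p (a n)) * r (j n) (x + p (a n)) ≤ r i x ∧
      (x ∈ Sg → k (a n) x + nu (p (a n)) * r (j n) (x + p (a n)) ≤ c + n * u x) ∧
      (k (a n) x + nu (p (a n)) * r (j n) (x + p (a n)) = r i x ∨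
        -c + n * u x ≤ k (a n) x + nu (p (a n)) * r (j n) (x + p (a n)))

/-- the data of the mean argument, extended real version: `rho f = D (A, f B)`,
`s i = D (A, n_i A)`; `eq` is VII.5, `hs` is VII.4 -/
structure ED (X A F S : Type*) [AddCommGroup X] [Group A] extends MB X A where
  rho : F → X → EReal
  s : S → X → EReal
  c : ℝ
  lowr : ∀ f x, ((-c : ℝ) : EReal) ≤ rho f x
  lows : ∀ i x, ((-c : ℝ) : EReal) ≤ s i x
  w1 : X → ℝ
  hw1 : w1 ∈ W
  w1ne : w1 ≠ 0
  hs : ∀ x, w1 x ≠ 0 → ∃ i, s i x ≤ (c : EReal)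
  eq : ∀ w ∈ WZ, ∀ i f, ∃ (a : A) (f' : F), ∀ x,
    (rho f x = s i x + (w x : EReal) ∧ rho f x ≠ ⊤) ∨
      (k a x : EReal) + (nu (p a) : EReal) * rho f' (x + p a) =
        min (rho f x) (s i x + (w x : EReal))

/-- one sequence of solutions for the multiples `n u` of `u` -/
structure Run {X A ι : Type*} [AddCommGroup X] [Group A] (d : MD X A ι) (i : ι)
    (u : X → ℝ) where
  a : ℕ → A
  j : ι
  E : ℕ → Set X
  hE : Tendsto (fun n => d.μ.m (E n)) UU (𝓝 0)
  h : ∀ᶠ n in UU, ∀ x ∉ E n,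
    d.k (a n) x + d.nu (d.p (a n)) * d.r j (x + d.p (a n)) ≤ d.r i x ∧
    (x ∈ d.Sg → d.k (a n) x + d.nu (d.p (a n)) * d.r j (x + d.p (a n)) ≤ d.c + n * u x) ∧
    (d.k (a n) x + d.nu (d.p (a n)) * d.r j (x + d.p (a n)) = d.r i x ∨
      -d.c + n * u x ≤ d.k (a n) x + d.nu (d.p (a n)) * d.r j (x + d.p (a n)))

variable {X A ι : Type*} [AddCommGroup X] [Group A] {d : MD X A ι} {i : ι} {u : X → ℝ}

/-- the function `G n` of the run -/
def Run.G (R : Run d i u) (n : ℕ) (x : X) : ℝ :=
  d.k (R.a n) x + d.nu (d.p (R.a n)) * d.r R.j (x + d.p (R.a n))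

/-- the scale `ν (a n)` of the run -/
def Run.v (R : Run d i u) (n : ℕ) : ℝ := d.nu (d.p (R.a n))

/-- the truncated normalised function `q n = clamp (G n / n, -K, 0)`, `K = sn u + 1` -/
noncomputable def Run.q (R : Run d i u) (n : ℕ) (x : X) : ℝ :=
  max (-(sn u + 1)) (min (R.G n x / n) 0)

end H84.PG
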