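import Pool.Agent.H84.PG.Defs
import Pool.Agent.H84.PG.MDefs

/-!
# Part VII: character data and the normalised family, definitions

`CD G X`     `p : G → X` a homomorphism onto the abelian group `X`, `chi` a real function whose
             restriction to the kernel of `p` is a character, `nu : X → ℝ` positive and
             multiplicative, such that `g ↦ nu (p g)⁻¹ * chi (g c g⁻¹)` is bounded for all `c` in
             the kernel
`CD.sec`     a section of `p`
`CD.chat c`  the bounded function `x ↦ nu x⁻¹ * chi (g c g⁻¹)`, `p g = x`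
`CD.WZ`      the group of the functions `chat c`
`CD.W`       its real span
`N7 G X`     in addition: subgroups `A`, `B`, `N`, a finite generating set `S` of the kernel, `G` a
             finite union of double cosets, an ultrametric `D` on the lines of `G` with
             `D (c x, c y) = chi c + D (x, y)` for `c` in the kernel, not constantly infinite
`N7.hE`, `N7.h`   the minimum of `D` over the edges `(gA, gB)`, `(gA, g s A)`, `s ∈ S`
`N7.Dx x`    the normalised ultrametric `nu x⁻¹ (D (g y, g z) - h g)`, `p g = x`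
`N7.kk a`    the cocycle `nu x⁻¹ (h (g a) - h g)`, `p g = x`
-/

set_option autoImplicit false

namespace H84.PG

open H36.PP Subgroup

/-- character data -/
structure CD (G X : Type*) [Group G] [AddCommGroup X] where
  p : G → X
  nu : X → ℝ
  chi : G → ℝ
  pmul : ∀ g h, p (g * h) = p g + p h
  psurj : Function.Surjective p
  nupos : ∀ x, 0 < nu x
  numul : ∀ x y, nu (x + y) = nu x * nu y
  chimul : ∀ c d, p c = 0 → p d = 0 → chi (c * d) = chi c + chi d
  bdd : ∀ c, p c = 0 → ∃ M : ℝ, ∀ g, |chi (g * c * g⁻¹)| ≤ M * nu (p g)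

variable {G X : Type*} [Group G] [AddCommGroup X]

/-- a section of `p` -/
noncomputable def CD.sec (d : CD G X) (x : X) : G := (d.psurj x).choose

/-- the function `x ↦ nu x⁻¹ * chi (g c g⁻¹)`, `p g = x` -/
noncomputable def CD.chat (d : CD G X) (c : G) (x : X) : ℝ :=
  (d.nu x)⁻¹ * d.chi (d.sec x * c * (d.sec x)⁻¹)

/-- the real span of the functions `chat c`, `c` in the kernel of `p` -/
def CD.W (d : CD G X) : Submodule ℝ (X → ℝ) :=
  Submodule.span ℝ {w | ∃ c, d.p c = 0 ∧ w = d.chat c}

/-- the data of Part VII -/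
structure N7 (G X : Type*) [Group G] [AddCommGroup X] extends CD G X where
  A : Subgroup G
  B : Subgroup G
  N : Subgroup G
  S : Set G
  F : Set G
  D : G × Bool → G × Bool → EReal
  Nn : N.Normal
  pA : ∀ x, ∃ a ∈ A, p a = x
  pB : ∀ x, ∃ b ∈ B, p b = x
  pN : ∀ n ∈ N, p n = 0
  chiN : ∀ n ∈ N, chi n = 0
  facA : ∀ c, p c = 0 → ∃ a ∈ A, ∃ n ∈ N, c = n * a
  facB : ∀ c, p c = 0 → ∃ b ∈ B, ∃ n ∈ N, c = n * b
  chine : ∃ c, p c = 0 ∧ chi c ≠ 0
  Sfin : S.Finite
  pS : ∀ s ∈ S, p s = 0
  genS : ∀ c, p c = 0 → c ∈ closure S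
  Ffin : F.Finite
  cov : ∀ g, ∃ a ∈ A, ∃ f ∈ F, ∃ b ∈ B, g = a * f * b
  um : UM A B D
  eqv : ∀ c, p c = 0 → ∀ x y, D (ltr c x) (ltr c y) = (chi c : EReal) + D x y
  ne : ∃ x y, D x y ≠ ⊤

/-- the minimum of `D` over the edges at `g` -/
noncomputable def N7.hE (d : N7 G X) (g : G) : EReal :=
  min (d.D (g, false) (g, true)) (⨅ s ∈ d.S, d.D (g, false) (g * s, false))

/-- the same as a real number -/
noncomputable def N7.h (d : N7 G X) (g : G) : ℝ := (d.hE g).toReal

/-- the normalised ultrametrics -/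
noncomputable def N7.Dx (d : N7 G X) (x : X) (y z : G × Bool) : EReal :=
  (((d.nu x)⁻¹ : ℝ) : EReal) *
    (d.D (ltr (d.sec x) y) (ltr (d.sec x) z) + ((-(d.h (d.sec x)) : ℝ) : EReal))

/-- the normalised cocycle -/
noncomputable def N7.kk (d : N7 G X) (a : G) (x : X) : ℝ :=
  (d.nu x)⁻¹ * (d.h (d.sec x * a) - d.h (d.sec x))

end H84.PG
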