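import Pool.Agent.H84.PG.EvList

/-!
# Module EvComm: a finitely generated abelian group of operators (VI.2)

Let `x_1, ..., x_n` generate `X`, `g i = ρ (x_i)`; `μ`, `v` from `ev_list`.  Let
`V' = {w | ∀ i, ∃ M, ∀ k, ‖(g i ^ k) w‖ ≤ M μ_i ^ k}`, a subspace, invariant under all `ρ x`, `v ∈ V'`.
Uniform boundedness (finite dimension: on a basis of `V'`, coordinates are bounded by the
norm): there are `M_i` with `‖(g i ^ k) w‖ ≤ M_i μ_i ^ k ‖w‖` for all `w ∈ V'`.  So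
`‖ρ (∑ k_i x_i) w‖ ≤ (∏ M_i) ∏ μ_i ^ k_i ‖w‖` for `w ∈ V'`.  If `∑ k_i x_i = 0` then for all `m : ℤ`
`‖v‖ = ‖ρ (m • 0) v‖ ≤ (∏ M_i) (∏ μ_i ^ k_i) ^ m ‖v‖`, so `∏ μ_i ^ k_i = 1`.  Hence
`nu (∑ k_i x_i) = ∏ μ_i ^ k_i` is well defined (choose for each `x` one representation), positive
and multiplicative.
-/

set_option autoImplicit false

namespace H84.PG

open Filter Topology

/-- uniform boundedness in finite dimension -/
theorem EvComm_unif {d : ℕ} (V : Submodule ℝ (Fin d → ℝ))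
    (f : ℤ → (Fin d → ℝ) →ₗ[ℝ] (Fin d → ℝ)) (c : ℤ → ℝ)
    (h : ∀ w ∈ V, ∃ M : ℝ, ∀ k, ‖f k w‖ ≤ M * c k) (hc : ∀ k, 0 < c k) :
    ∃ M : ℝ, 0 ≤ M ∧ ∀ w ∈ V, ∀ k, ‖f k w‖ ≤ M * c k * ‖w‖ := by
  let b := Module.finBasis ℝ V
  choose M hM using fun j => h (b j : Fin d → ℝ) (b j).2
  let L : V →L[ℝ] (Fin (Module.finrank ℝ V) → ℝ) :=
    LinearMap.toContinuousLinearMap (b.equivFun : V →ₗ[ℝ] (Fin (Module.finrank ℝ V) → ℝ))
  have hL : ∀ (w : V) j, |b.repr w j| ≤ ‖L‖ * ‖w‖ := by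
    intro w j
    have h1 : ‖L w j‖ ≤ ‖L w‖ := norm_le_pi_norm (L w) j
    have h2 := L.le_opNorm w
    have h3 : L w j = b.repr w j := rfl
    rw [h3, Real.norm_eq_abs] at h1
    exact h1.trans h2
  have hM0 : ∀ j, 0 ≤ M j := by
    intro j
    have h1 := hM j 0
    have h2 := norm_nonneg (f 0 (b j : Fin d → ℝ))
    exact nonneg_of_mul_nonneg_left (h2.trans h1) (hc 0)
  refine ⟨∑ j, ‖L‖ * M j, Finset.sum_nonneg fun j _ => mul_nonneg L.opNorm_nonneg (hM0 j), ?_⟩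
  intro w hw k
  have h1 : w = ∑ j, b.repr ⟨w, hw⟩ j • (b j : Fin d → ℝ) := by
    have := congrArg Subtype.val (b.sum_repr ⟨w, hw⟩)
    rw [Submodule.coe_sum] at this
    exact this.symm
  have h2 : f k w = ∑ j, b.repr ⟨w, hw⟩ j • f k (b j : Fin d → ℝ) := by
    conv_lhs => rw [h1]
    rw [map_sum]
    exact Finset.sum_congr rfl fun j _ => map_smul _ _ _
  rw [h2, Finset.sum_mul, Finset.sum_mul]
  refine (norm_sum_le _ _).trans (Finset.sum_le_sum fun j _ => ?_)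
  rw [norm_smul, Real.norm_eq_abs]
  have h3 := hL ⟨w, hw⟩ j
  have h4 := hM j k
  have h5 : ‖(⟨w, hw⟩ : V)‖ = ‖w‖ := rfl
  rw [h5] at h3
  calc |b.repr ⟨w, hw⟩ j| * ‖f k (b j : Fin d → ℝ)‖ ≤ (‖L‖ * ‖w‖) * (M j * c k) :=
        mul_le_mul h3 h4 (norm_nonneg _) (mul_nonneg L.opNorm_nonneg (norm_nonneg _))
    _ = ‖L‖ * M j * c k * ‖w‖ := by ring

/-- `1 ≤ C a ^ m` for all integers `m` implies `a = 1` -/
theorem EvComm_one {a C : ℝ} (ha : 0 < a) (h : ∀ m : ℤ, 1 ≤ C * a ^ m) : a = 1 := by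
  have hC : 0 < C := by
    have := h 0
    rw [zpow_zero, mul_one] at this
    linarith
  have key : ∀ b : ℝ, 0 < b → b < 1 → ¬ ∀ m : ℕ, 1 ≤ C * b ^ m := by
    intro b hb hb1 hm
    obtain ⟨m, hm1⟩ := exists_pow_lt_of_lt_one (show (0 : ℝ) < C⁻¹ by positivity) hb1
    have h1 := hm m
    have h2 : C * b ^ m < C * C⁻¹ := mul_lt_mul_of_pos_left hm1 hC
    rw [mul_inv_cancel₀ hC.ne'] at h2
    linarith
  rcases lt_trichotomy a 1 with h1 | h1 | h1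
  · exfalso
    exact key a ha h1 fun m => by simpa using h m
  · exact h1
  · exfalso
    refine key a⁻¹ (by positivity) (inv_lt_one_of_one_lt₀ h1) fun m => ?_
    have := h (-(m : ℤ))
    rwa [zpow_neg, zpow_natCast, ← inv_pow] at this

theorem ev_comm {d : ℕ} {X : Type*} [AddCommGroup X] (hX : AddGroup.FG X)
    (ρ : Multiplicative X →* ((Fin d → ℝ) ≃ₗ[ℝ] (Fin d → ℝ))) (Z : Set (Fin d → ℝ))
    (hZ : IsClosed Z) (hc : ∀ c : ℝ, 0 < c → ∀ v ∈ Z, c • v ∈ Z)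
    (hi : ∀ y, ∀ v ∈ Z, ρ y v ∈ Z) (x : Fin d → ℝ) (hxZ : x ∈ Z) (hx : x ≠ 0) :
    ∃ nu : X → ℝ, (∀ y, 0 < nu y) ∧ (∀ y z, nu (y + z) = nu y * nu z) ∧
      ∃ v ∈ Z, v ≠ 0 ∧ ∃ M : ℝ, ∀ y, ‖ρ (Multiplicative.ofAdd y) v‖ ≤ M * nu y := by
  classical
  have hfin : Module.Finite ℤ X := Module.Finite.iff_addGroup_fg.mpr hX
  obtain ⟨n, s, hs⟩ := Module.Finite.exists_fin (R := ℤ) (M := X)
  have hrep : ∀ y : X, ∃ k : Fin n → ℤ, ∑ i, k i • s i = y := by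
    intro y
    have : y ∈ Submodule.span ℤ (Set.range s) := by rw [hs]; trivial
    rwa [Submodule.mem_span_range_iff_exists_fun] at this
  let g : Fin n → ((Fin d → ℝ) ≃ₗ[ℝ] (Fin d → ℝ)) := fun i => ρ (Multiplicative.ofAdd (s i))
  have hgc : ∀ i j, g i * g j = g j * g i := by
    intro i j
    change ρ _ * ρ _ = ρ _ * ρ _
    rw [← map_mul ρ, ← map_mul ρ, mul_comm]
  obtain ⟨μ, hμ, v, hvZ, hv0, hvb⟩ := ev_list g hgc Z hZ hc (fun i v hv => hi _ v hv) x hxZ hx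
  -- the subspace
  let V : Submodule ℝ (Fin d → ℝ) :=
    { carrier := {w | ∀ i, ∃ M : ℝ, ∀ k : ℤ, ‖((g i) ^ k) w‖ ≤ M * (μ i) ^ k}
      add_mem' := by
        intro a b ha hb i
        obtain ⟨M, hM⟩ := ha i
        obtain ⟨M', hM'⟩ := hb i
        refine ⟨M + M', fun k => ?_⟩
        rw [map_add, add_mul]
        exact (norm_add_le _ _).trans (add_le_add (hM k) (hM' k))
      zero_mem' := by
        intro i
        refine ⟨0, fun k => ?_⟩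
        rw [map_zero, norm_zero, zero_mul]
      smul_mem' := by
        intro c a ha i
        obtain ⟨M, hM⟩ := ha i
        refine ⟨|c| * M, fun k => ?_⟩
        rw [map_smul, norm_smul, Real.norm_eq_abs, mul_assoc]
        exact mul_le_mul_of_nonneg_left (hM k) (abs_nonneg c) }
  have hvV : v ∈ V := hvb
  -- invariance
  have hVinv : ∀ (y : Multiplicative X), ∀ w ∈ V, ρ y w ∈ V := by
    intro y w hw i
    obtain ⟨M, hM⟩ := hw i
    let T : (Fin d → ℝ) →L[ℝ] (Fin d → ℝ) :=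
      LinearMap.toContinuousLinearMap (ρ y : (Fin d → ℝ) →ₗ[ℝ] (Fin d → ℝ))
    refine ⟨‖T‖ * M, fun k => ?_⟩
    have h1 : ((g i) ^ k) (ρ y w) = T (((g i) ^ k) w) := by
      have h2 : (g i) ^ k * ρ y = ρ y * (g i) ^ k := by
        change (ρ _) ^ k * ρ y = ρ y * (ρ _) ^ k
        rw [← map_zpow ρ, ← map_mul ρ, ← map_mul ρ, mul_comm]
      exact congrArg (fun e : ((Fin d → ℝ) ≃ₗ[ℝ] (Fin d → ℝ)) => e w) h2
    rw [h1, mul_assoc]
    exact (T.le_opNorm _).trans (mul_le_mul_of_nonneg_left (hM k) T.opNorm_nonneg)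
  -- uniform bounds
  have hun : ∀ i, ∃ M : ℝ, 0 ≤ M ∧ ∀ w ∈ V, ∀ k : ℤ,
      ‖((g i) ^ k) w‖ ≤ M * (μ i) ^ k * ‖w‖ := by
    intro i
    exact EvComm_unif V (fun k => (((g i) ^ k : (Fin d → ℝ) ≃ₗ[ℝ] (Fin d → ℝ)) :
      (Fin d → ℝ) →ₗ[ℝ] (Fin d → ℝ))) (fun k => (μ i) ^ k) (fun w hw => hw i)
      (fun k => zpow_pos (hμ i) k)
  choose B hB0 hB using hun
  have hprod : ∀ (t : Finset (Fin n)) (k : Fin n → ℤ), ∀ w ∈ V,
      ‖ρ (Multiplicative.ofAdd (∑ i ∈ t, k i • s i)) w‖ ≤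
        (∏ i ∈ t, B i) * (∏ i ∈ t, (μ i) ^ (k i)) * ‖w‖ := by
    intro t k
    induction t using Finset.induction_on with
    | empty =>
      intro w _
      simp
    | insert a t ha ih =>
      intro w hw
      have h1 : ρ (Multiplicative.ofAdd (∑ i ∈ insert a t, k i • s i)) =
          (g a) ^ (k a) * ρ (Multiplicative.ofAdd (∑ i ∈ t, k i • s i)) := by
        rw [Finset.sum_insert ha, ofAdd_add, map_mul, ofAdd_zsmul, map_zpow]
      rw [h1, Finset.prod_insert ha, Finset.prod_insert ha]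
      have h2 := hB a _ (hVinv (Multiplicative.ofAdd (∑ i ∈ t, k i • s i)) w hw) (k a)
      have h3 := ih w hw
      have h4 : 0 ≤ B a * (μ a) ^ (k a) := mul_nonneg (hB0 a) (zpow_pos (hμ a) _).le
      calc ‖((g a) ^ (k a) * ρ (Multiplicative.ofAdd (∑ i ∈ t, k i • s i))) w‖
          ≤ B a * (μ a) ^ (k a) * ‖ρ (Multiplicative.ofAdd (∑ i ∈ t, k i • s i)) w‖ := h2
        _ ≤ B a * (μ a) ^ (k a) * ((∏ i ∈ t, B i) * (∏ i ∈ t, (μ i) ^ (k i)) * ‖w‖) :=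
            mul_le_mul_of_nonneg_left h3 h4
        _ = B a * (∏ i ∈ t, B i) * ((μ a) ^ (k a) * ∏ i ∈ t, (μ i) ^ (k i)) * ‖w‖ := by ring
  -- relations
  have hvn : 0 < ‖v‖ := norm_pos_iff.mpr hv0
  have hrel : ∀ k : Fin n → ℤ, ∑ i, k i • s i = 0 → ∏ i, (μ i) ^ (k i) = 1 := by
    intro k hk
    apply EvComm_one (C := ∏ i, B i) (Finset.prod_pos fun i _ => zpow_pos (hμ i) _)
    intro m
    have h1 := hprod Finset.univ (fun i => m * k i) v hvV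
    have h2 : ∑ i, (m * k i) • s i = 0 := by
      simp only [mul_smul, ← Finset.smul_sum, hk, smul_zero]
    rw [h2, ofAdd_zero, map_one] at h1
    have h3 : ∏ i, (μ i) ^ (m * k i) = (∏ i, (μ i) ^ (k i)) ^ m := by
      rw [← Finset.prod_zpow]
      refine Finset.prod_congr rfl fun i _ => ?_
      rw [mul_comm m, zpow_mul]
    rw [h3] at h1
    have h4 : ‖(1 : (Fin d → ℝ) ≃ₗ[ℝ] (Fin d → ℝ)) v‖ = ‖v‖ := rfl
    rw [h4] at h1
    by_contra hcon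
    push Not at hcon
    have h5 := mul_lt_mul_of_pos_right hcon hvn
    rw [one_mul] at h5
    linarith
  choose κ hκ using hrep
  refine ⟨fun y => ∏ i, (μ i) ^ (κ y i), fun y => Finset.prod_pos fun i _ => zpow_pos (hμ i) _,
    ?_, v, hvZ, hv0, (∏ i, B i) * ‖v‖, ?_⟩
  · intro y z
    have h1 := hrel (fun i => κ (y + z) i - (κ y i + κ z i)) (by
      simp only [sub_smul, add_smul, Finset.sum_sub_distrib, Finset.sum_add_distrib, hκ]
      exact sub_self _)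
    have h2 : ∏ i, (μ i) ^ (κ (y + z) i - (κ y i + κ z i)) =
        (∏ i, (μ i) ^ (κ (y + z) i)) / ((∏ i, (μ i) ^ (κ y i)) * ∏ i, (μ i) ^ (κ z i)) := by
      rw [← Finset.prod_mul_distrib, ← Finset.prod_div_distrib]
      refine Finset.prod_congr rfl fun i _ => ?_
      rw [zpow_sub₀ (hμ i).ne', zpow_add₀ (hμ i).ne']
    rw [h2] at h1
    have h3 : (∏ i, (μ i) ^ (κ y i)) * ∏ i, (μ i) ^ (κ z i) ≠ 0 :=
      (mul_pos (Finset.prod_pos fun i _ => zpow_pos (hμ i) _)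
        (Finset.prod_pos fun i _ => zpow_pos (hμ i) _)).ne'
    exact (div_eq_one_iff_eq h3).mp h1
  · intro y
    have h1 := hprod Finset.univ (κ y) v hvV
    rw [hκ] at h1
    calc _ ≤ _ := h1
      _ = _ := by ring

end H84.PG
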