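import Pool.Agent.H36.PP.CayB

/-!
# Module GoodConj: goodness is invariant under automorphisms (VI.3)

Let `c` be the constant of `Good χ S`, `T = {φ⁻¹ s | s ∈ S}` (finite), `c'` the constant of
`CConn.change` for the character `χ ∘ φ`, the generating set `S` and the finite set `T`.  If
`0 ≤ χ (φ g)` then `CConn χ S (-c) 1 (φ g)`; apply `φ⁻¹` to the path: `CConn (χ ∘ φ) T (-c) 1 g`, so
`CConn (χ ∘ φ) S (-c - c') 1 g`.
-/

set_option autoImplicit false

namespace H84.PG

open H36.PP Subgroup

theorem good_conj {C : Type*} [Group C] {χ : C → ℝ} (hχ : IsChar χ) {S : Set C}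
    (hf : S.Finite) (hS : closure S = ⊤) (φ : MulAut C) (h : Good χ S) :
    Good (fun g => χ (φ g)) S := by
  obtain ⟨c, hc, hg⟩ := h
  have hχ' : IsChar (fun g => χ (φ g)) := by
    intro a b
    simp only [map_mul]
    exact hχ _ _
  obtain ⟨c', hc', h1⟩ := CConn.change hχ' hS (φ.symm '' S) (hf.image _)
  refine ⟨c + c', add_nonneg hc hc', fun g hg0 => ?_⟩
  have h2 : CConn (fun g => χ (φ g)) (φ.symm '' S) (-c) 1 g := by
    have h3 := hg (φ g) hg0
    unfold CConn at h3 ⊢
    have h4 := Relation.ReflTransGen.lift (p := CStep (fun g => χ (φ g)) (φ.symm '' S) (-c))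
      φ.symm ?_ _ _ h3
    · change Relation.ReflTransGen (CStep (fun g => χ (φ g)) (φ.symm '' S) (-c))
        (φ.symm 1) (φ.symm (φ g)) at h4
      rwa [map_one, MulEquiv.symm_apply_apply] at h4
    · rintro a b ⟨ha, hb, hab⟩
      refine ⟨?_, ?_, ?_⟩
      · simpa only [MulEquiv.apply_symm_apply] using ha
      · simpa only [MulEquiv.apply_symm_apply] using hb
      · rcases hab with hab | hab
        · left
          exact ⟨_, hab, by rw [map_mul, map_inv]⟩
        · right
          exact ⟨_, hab, by rw [map_mul, map_inv]⟩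
  have h3 := h1 _ _ _ h2
  rwa [neg_add']

end H84.PG
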