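import Pool.Agent.H84.PG.GoodLoc
import Pool.Agent.H36.PP.BNSLocal

/-!
# Module GoodOpen: goodness is an open condition (VI.3)

`BNSLocal_one` (file `H36/PP/BNSLocal.lean`) gives `t`; `BNSLocal_finset` with the finite set of all
`s` with `s ∈ S` or `s⁻¹ ∈ S` gives `δ > 0`, `L` and a neighbourhood of `u` on which the hypothesis
of `good_of_local` holds (`BNSLocalRel` implies the relation there).  `chr_isChar`.
-/

set_option autoImplicit false

namespace H84.PG

open H36.PP Subgroup Filter Topology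

theorem good_open {C : Type*} [Group C] {k : ℕ} {S : Set C} (hf : S.Finite)
    (hS : closure S = ⊤) (π : C →* Multiplicative (Fin k → ℤ)) (hπ : Function.Surjective π)
    {u : Fin k → ℝ} (hu : u ≠ 0) (hg : Good (chr π u) S) :
    ∀ᶠ u' in 𝓝 u, Good (chr π u') S := by
  obtain ⟨t, ht⟩ := BNSLocal_one hS π hπ hu hg
  have hT : {s : C | s ∈ S ∨ s⁻¹ ∈ S}.Finite := by
    have h1 : {s : C | s ∈ S ∨ s⁻¹ ∈ S} = S ∪ (fun s : C => s⁻¹) ⁻¹' S := rfl
    rw [h1]
    exact hf.union (hf.preimage inv_injective.injOn)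
  obtain ⟨δ, L, hδ, h⟩ := BNSLocal_finset (S := S) π (u := u) (t := t) hT.toFinset
    (fun s hs h0 => ht s (hT.mem_toFinset.1 hs) h0)
  filter_upwards [h] with u' hu'
  refine good_of_local (chr_isChar π u') hS (t := t) hδ fun s hs h0 => ?_
  refine Relation.ReflTransGen.mono ?_ _ _ (hu' s (hT.mem_toFinset.2 hs) h0)
  rintro a b ⟨h1, h2, -⟩
  exact ⟨h1, h2⟩

end H84.PG
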