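import Pool.Agent.H36.PP.BNSFin

/-!
# Module PiEx: the largest torsion-free abelian quotient (IX.4)

Exactly as in the proof of `fg_step` (file `H36/PP/BNSFin.lean`) for `D = commutator C ⊔ N`: `C ⧸ D` is a finitely
generated abelian group, `T` its torsion subgroup, `(C ⧸ D) / T ≅ ℤ ^ k`; `π` the composite.  A
character `χ` which kills `N` kills `D`, and it kills the preimage of `T` (`n χ g = 0`), so it
factors through `π`: `χ g = f (π g)` with `f : (Fin k → ℤ) →+ ℝ`, and `u i = f (e_i)`.
-/

set_option autoImplicit false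

namespace H84.PG

open H36.PP Subgroup

private theorem px_step {C : Type*} [Group C] (hC : Group.FG C) (D : Subgroup C) [D.Normal]
    (hab : ∀ x y : C, x * y * x⁻¹ * y⁻¹ ∈ D) :
    ∃ (k : ℕ) (π : C →* Multiplicative (Fin k → ℤ)), Function.Surjective π ∧
      (∀ n ∈ D, π n = 1) ∧ ∀ g, π g = 1 → ∃ n : ℕ, 0 < n ∧ g ^ n ∈ D := by
  classical
  let _ : CommGroup (C ⧸ D) :=
    { (inferInstance : Group (C ⧸ D)) with
      mul_comm := by
        intro a b
        induction a using QuotientGroup.induction_on with | H x => ?_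
        induction b using QuotientGroup.induction_on with | H y => ?_
        rw [← QuotientGroup.mk_mul, ← QuotientGroup.mk_mul, QuotientGroup.eq]
        have := hab y⁻¹ x⁻¹
        simpa [mul_assoc] using this }
  have : Group.FG (C ⧸ D) := QuotientGroup.fg D
  have hfin : Module.Finite ℤ (Additive (C ⧸ D)) := inferInstance
  let T : Submodule ℤ (Additive (C ⧸ D)) := Submodule.torsion ℤ (Additive (C ⧸ D))
  have : Module.Free ℤ (Additive (C ⧸ D) ⧸ T) := Module.free_of_finite_type_torsion_free'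
  let k := Module.finrank ℤ (Additive (C ⧸ D) ⧸ T)
  let b : Module.Basis (Fin k) ℤ (Additive (C ⧸ D) ⧸ T) := Module.finBasis ℤ _
  let f : Additive (C ⧸ D) →ₗ[ℤ] (Fin k → ℤ) := b.equivFun.toLinearMap ∘ₗ T.mkQ
  have hfs : Function.Surjective f := b.equivFun.surjective.comp T.mkQ_surjective
  have hfk : ∀ x, f x = 0 ↔ x ∈ T := by
    intro x
    change b.equivFun (T.mkQ x) = 0 ↔ _
    rw [LinearEquiv.map_eq_zero_iff, Submodule.mkQ_apply, Submodule.Quotient.mk_eq_zero]
  let π : C →* Multiplicative (Fin k → ℤ) :=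
    { toFun := fun g => Multiplicative.ofAdd (f (Additive.ofMul (g : C ⧸ D)))
      map_one' := by
        rw [QuotientGroup.mk_one, ofMul_one, map_zero, ofAdd_zero]
      map_mul' := by
        intro x y
        rw [QuotientGroup.mk_mul, ofMul_mul, map_add, ofAdd_add] }
  have hπapp : ∀ g : C, π g = Multiplicative.ofAdd (f (Additive.ofMul (g : C ⧸ D))) :=
    fun g => rfl
  have hπ : Function.Surjective π := by
    intro x
    obtain ⟨q, hq⟩ := hfs (Multiplicative.toAdd x)
    obtain ⟨g, hgq⟩ := QuotientGroup.mk_surjective (Additive.toMul q)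
    refine ⟨g, ?_⟩
    rw [hπapp, hgq, ofMul_toMul, hq, ofAdd_toAdd]
  refine ⟨k, π, hπ, ?_, ?_⟩
  · intro d hd
    rw [hπapp, (QuotientGroup.eq_one_iff d).mpr hd, ofMul_one, map_zero, ofAdd_zero]
  · intro g hg
    have h1 : f (Additive.ofMul (g : C ⧸ D)) = 0 := by
      rw [hπapp] at hg
      exact Multiplicative.ofAdd.injective hg
    have h2 : Additive.ofMul (g : C ⧸ D) ∈ T := (hfk _).mp h1
    obtain ⟨a, ha⟩ := (Submodule.mem_torsion_iff _).mp h2
    have ha0 : (a : ℤ) ≠ 0 := nonZeroDivisors.ne_zero a.2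
    have ha1 : (a : ℤ) • Additive.ofMul (g : C ⧸ D) = 0 := ha
    have h3 : ((g : C ⧸ D)) ^ (a : ℤ) = 1 := by
      rw [← ofMul_zpow] at ha1
      exact Additive.ofMul.injective ha1
    refine ⟨(a : ℤ).natAbs, Int.natAbs_pos.mpr ha0, ?_⟩
    rw [← QuotientGroup.eq_one_iff, QuotientGroup.mk_pow]
    rcases Int.natAbs_eq (a : ℤ) with h4 | h4
    · rw [h4, zpow_natCast] at h3
      exact h3
    · rw [h4, zpow_neg, zpow_natCast, inv_eq_one] at h3
      exact h3

theorem pi_exists {C : Type*} [Group C] (hC : Group.FG C) (N : Subgroup C) [N.Normal] :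
    ∃ (k : ℕ) (π : C →* Multiplicative (Fin k → ℤ)), Function.Surjective π ∧
      (∀ n ∈ N, π n = 1) ∧ ∀ χ : C → ℝ, IsChar χ → (∀ n ∈ N, χ n = 0) →
        ∃ u : Fin k → ℝ, ∀ g, χ g = chr π u g := by
  classical
  have hN : (commutator C ⊔ N).Normal := inferInstance
  obtain ⟨k, π, hπ, hD, hk⟩ := px_step hC (commutator C ⊔ N) (fun x y => by
    refine (le_sup_left : commutator C ≤ commutator C ⊔ N) ?_
    rw [commutator_def]
    have h := Subgroup.commutator_mem_commutator (Subgroup.mem_top x) (Subgroup.mem_top y)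
    rwa [commutatorElement_def] at h)
  refine ⟨k, π, hπ, fun n hn => hD n (le_sup_right (a := commutator C) hn), ?_⟩
  intro χ hχ hχN
  -- `χ` as a homomorphism
  let X : C →* Multiplicative ℝ :=
    { toFun := fun g => Multiplicative.ofAdd (χ g)
      map_one' := by rw [hχ.one, ofAdd_zero]
      map_mul' := fun g h => by rw [hχ, ofAdd_add] }
  have hX : ∀ g, X g = Multiplicative.ofAdd (χ g) := fun g => rfl
  have hXk : commutator C ⊔ N ≤ X.ker := by
    refine sup_le (Abelianization.commutator_subset_ker X) ?_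
    intro n hn
    rw [MonoidHom.mem_ker, hX, hχN n hn, ofAdd_zero]
  have hχD : ∀ d ∈ commutator C ⊔ N, χ d = 0 := by
    intro d hd
    have h1 : X d = 1 := hXk hd
    rw [hX] at h1
    exact Multiplicative.ofAdd.injective h1
  have hχk : ∀ g, π g = 1 → χ g = 0 := by
    intro g hg
    obtain ⟨n, hn, hgn⟩ := hk g hg
    have h1 := hχD _ hgn
    rw [hχ.pow] at h1
    exact (mul_eq_zero.mp h1).resolve_left (by exact_mod_cast hn.ne')
  have hχe : ∀ g h, π g = π h → χ g = χ h := by
    intro g h hgh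
    have h1 : π (g * h⁻¹) = 1 := by rw [map_mul, map_inv, hgh, mul_inv_cancel]
    have h2 := hχk _ h1
    rw [hχ, hχ.inv] at h2
    linarith
  choose σ hσ using hπ
  let F : (Fin k → ℤ) →+ ℝ :=
    { toFun := fun x => χ (σ (Multiplicative.ofAdd x))
      map_zero' := by
        refine hχk _ ?_
        rw [hσ, ofAdd_zero]
      map_add' := by
        intro x y
        rw [← hχ]
        refine hχe _ _ ?_
        rw [hσ, map_mul, hσ, hσ, ofAdd_add] }
  refine ⟨fun i => F (fun j => if i = j then 1 else 0), fun g => ?_⟩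
  have h1 : χ g = F (Multiplicative.toAdd (π g)) := by
    show χ g = χ (σ (Multiplicative.ofAdd (Multiplicative.toAdd (π g))))
    refine hχe _ _ ?_
    rw [hσ, ofAdd_toAdd]
  have h2 := LinearMap.pi_apply_eq_sum_univ F.toIntLinearMap (Multiplicative.toAdd (π g))
  rw [h1]
  have h3 : F.toIntLinearMap (Multiplicative.toAdd (π g)) = F (Multiplicative.toAdd (π g)) := rfl
  rw [← h3, h2]
  unfold chr
  refine Finset.sum_congr rfl fun i _ => ?_
  rw [zsmul_eq_mul, mul_comm]
  rfl

end H84.PG
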