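import Pool.Agent.H84.PG.CDB
import Pool.Agent.H84.PG.EvComm
import Pool.Agent.H84.PG.GoodOpen
import Pool.Agent.H84.PG.GoodConj
import Pool.Agent.H84.PG.PiEx
import Pool.Agent.H84.PG.ActEx

/-!
# Module CdEx: character data from a bad character (IX.4)

`X = Additive (G ⧸ C)` with the commutative group structure from `hcomm`, `p g = ofMul (mk g)`; it
is finitely generated (`hG`).  `π` from `pi_exists` for the group `C` and `N.subgroupOf C`;
`χ = chr π x` for some `x ≠ 0`.  `hchar` of `act_exists`: for `u`, `g` the function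
`c ↦ chr π u (g c g⁻¹)` is a character which kills `N` (`N` normal in `G`), so it is `chr π u'`.
`Z = {u | ¬ (u ≠ 0 ∧ Good (chr π u) S)}`: closed by `good_open`; a cone (`Good` for `c χ`, `c > 0`:
multiply the levels by `c`); invariant under `ρ y`: if `ρ y u ≠ 0` is good then so is `u`, by
`good_conj` with the automorphism `c ↦ g⁻¹ c g` of `C` (`y = p g`); `x ∈ Z`.
`ev_comm`: `nu`, `v ∈ Z`, `v ≠ 0`, `M`.  Let `chi g = chr π v ⟨g, _⟩` for `g ∈ C` and `0` otherwise
(classical `dite`).  `bdd`: for `c ∈ C` `|chi (g c g⁻¹)| = |chr π (ρ (p g) v) c| ≤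
‖ρ (p g) v‖ * ∑_i |(π c)_i| ≤ M * nu (p g) * ...`.  `v ≠ 0` gives `c` with `chi c ≠ 0`
(`BNSFin_chr_ne`), `v ∈ Z` gives `¬ Good`.
-/

set_option autoImplicit false

namespace H84.PG

universe u

open H36.PP Subgroup Filter Topology

theorem CdEx_scale {C : Type*} [Group C] {c : ℝ} (hc : 0 < c) {χ : C → ℝ} {S : Set C}
    (h : Good (fun g => c * χ g) S) : Good χ S := by
  obtain ⟨K, hK, hg⟩ := h
  refine ⟨K / c, div_nonneg hK hc.le, fun g hg0 => ?_⟩
  have h1 := hg g (mul_nonneg hc.le hg0)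
  unfold CConn at h1 ⊢
  have h2 : ∀ x : C, -K ≤ c * χ x → -(K / c) ≤ χ x := by
    intro x hx
    have h3 : K / c * c = K := div_mul_cancel₀ K hc.ne'
    nlinarith
  refine Relation.ReflTransGen.mono ?_ _ _ h1
  rintro a b ⟨h3, h4, h5⟩
  exact ⟨h2 a h3, h2 b h4, h5⟩

theorem CdEx_chr_abs {C : Type*} [Group C] {k : ℕ} (π : C →* Multiplicative (Fin k → ℤ))
    (u : Fin k → ℝ) (g : C) :
    |chr π u g| ≤ ‖u‖ * ∑ i, |((Multiplicative.toAdd (π g) i : ℤ) : ℝ)| := by
  unfold chr
  refine (Finset.abs_sum_le_sum_abs _ _).trans ?_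
  rw [Finset.mul_sum]
  refine Finset.sum_le_sum fun i _ => ?_
  rw [abs_mul]
  exact mul_le_mul_of_nonneg_right (norm_le_pi_norm u i) (abs_nonneg _)

theorem CdEx_chr_smul {C : Type*} [Group C] {k : ℕ} (π : C →* Multiplicative (Fin k → ℤ))
    (c : ℝ) (u : Fin k → ℝ) : chr π (c • u) = fun g => c * chr π u g := by
  funext g
  unfold chr
  rw [Finset.mul_sum]
  refine Finset.sum_congr rfl fun i _ => ?_
  rw [Pi.smul_apply, smul_eq_mul, mul_assoc]

theorem CdEx_chr_zero {C : Type*} [Group C] {k : ℕ} (π : C →* Multiplicative (Fin k → ℤ))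
    (g : C) : chr π 0 g = 0 := by
  unfold chr
  simp

theorem cd_exists {G : Type u} [Group G] (hG : Group.FG G) (C N : Subgroup G) [C.Normal]
    [N.Normal] (hC : C.FG) (hcomm : ∀ x y : G, x * y * x⁻¹ * y⁻¹ ∈ C) (hNC : N ≤ C)
    (S : Set C) (hf : S.Finite) (hS : closure S = ⊤) (χ : C → ℝ) (hχ : IsChar χ)
    (hk : ∀ n : C, (n : G) ∈ N → χ n = 0) (hne : ∃ c, χ c ≠ 0) (hbad : ¬ Good χ S) :
    ∃ (X : Type u) (_ : AddCommGroup X) (d : CD G X), AddGroup.FG X ∧
      (∀ g, d.p g = 0 ↔ g ∈ C) ∧ (∀ n ∈ N, d.chi n = 0) ∧ (∃ c ∈ C, d.chi c ≠ 0) ∧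
      ¬ Good (fun c : C => d.chi c) S := by
  classical
  let instC : CommGroup (G ⧸ C) :=
    { (inferInstance : Group (G ⧸ C)) with
      mul_comm := by
        intro a b
        induction a using QuotientGroup.induction_on with | H x => ?_
        induction b using QuotientGroup.induction_on with | H y => ?_
        rw [← QuotientGroup.mk_mul, ← QuotientGroup.mk_mul, QuotientGroup.eq]
        have := hcomm y⁻¹ x⁻¹
        simpa [mul_assoc] using this }
  have hfg : Group.FG (G ⧸ C) := QuotientGroup.fg C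
  have hX : AddGroup.FG (Additive (G ⧸ C)) := inferInstance
  let p : G → Additive (G ⧸ C) := fun g => Additive.ofMul (g : G ⧸ C)
  have hp : ∀ g h, p (g * h) = p g + p h := fun g h => rfl
  have hps : Function.Surjective p := by
    intro x
    obtain ⟨g, hg⟩ := QuotientGroup.mk_surjective (Additive.toMul x)
    exact ⟨g, congrArg Additive.ofMul hg⟩
  have hpk : ∀ g, p g = 0 ↔ g ∈ C := by
    intro g
    rw [← QuotientGroup.eq_one_iff (N := C) g]
    constructor
    · intro h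
      exact Additive.ofMul.injective h
    · intro h
      exact congrArg Additive.ofMul h
  have hCfg : Group.FG C := (Group.fg_iff_subgroup_fg C).mpr hC
  obtain ⟨k, π, hπ, hπN, hπc⟩ := pi_exists hCfg (N.subgroupOf C)
  have hcm : ∀ (g : G) (c : C), g * (c : G) * g⁻¹ ∈ C := fun g c =>
    ‹C.Normal›.conj_mem c c.2 g
  obtain ⟨x, hx⟩ := hπc χ hχ (fun n hn => hk n hn)
  have hx0 : x ≠ 0 := by
    rintro rfl
    obtain ⟨c, hc⟩ := hne
    apply hc
    rw [hx, CdEx_chr_zero]
  have hchar : ∀ (u : Fin k → ℝ) (g : G), ∃ u' : Fin k → ℝ, ∀ c : C,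
      chr π u' c = chr π u ⟨g * c * g⁻¹, hcm g c⟩ := by
    intro u g
    obtain ⟨u', hu'⟩ := hπc (fun c => chr π u ⟨g * c * g⁻¹, hcm g c⟩) (by
      intro a b
      have e : (⟨g * ((a * b : C) : G) * g⁻¹, hcm g (a * b)⟩ : C) =
          ⟨g * a * g⁻¹, hcm g a⟩ * ⟨g * b * g⁻¹, hcm g b⟩ := by
        apply Subtype.ext
        change g * ((a : G) * b) * g⁻¹ = (g * a * g⁻¹) * (g * b * g⁻¹)
        group
      change chr π u ⟨g * ((a * b : C) : G) * g⁻¹, hcm g (a * b)⟩ = _
      rw [e, chr_isChar π u]) (by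
      intro n hn
      have h1 : g * (n : G) * g⁻¹ ∈ N := ‹N.Normal›.conj_mem _ hn g
      have h2 : π ⟨g * n * g⁻¹, hcm g n⟩ = 1 := hπN _ h1
      change chr π u _ = 0
      unfold chr
      rw [h2]
      simp)
    exact ⟨u', fun c => (hu' c).symm⟩
  obtain ⟨ρ, hρ⟩ := act_exists C p hp hps hpk π hπ hchar
  let Z : Set (Fin k → ℝ) := {u | ¬ (u ≠ 0 ∧ Good (chr π u) S)}
  have hZ : IsClosed Z := by
    rw [← isOpen_compl_iff, isOpen_iff_mem_nhds]
    intro u hu
    have hu' : u ≠ 0 ∧ Good (chr π u) S := by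
      by_contra hcon
      exact hu hcon
    filter_upwards [good_open hf hS π hπ hu'.1 hu'.2, isOpen_ne.mem_nhds hu'.1] with v hv hv0
    intro hvZ
    exact hvZ ⟨hv0, hv⟩
  have hcone : ∀ c : ℝ, 0 < c → ∀ v ∈ Z, c • v ∈ Z := by
    rintro c hc v hv ⟨h1, h2⟩
    apply hv
    refine ⟨?_, ?_⟩
    · rintro rfl
      exact h1 (smul_zero c)
    · rw [CdEx_chr_smul] at h2
      exact CdEx_scale hc h2
  have hinv : ∀ y, ∀ v ∈ Z, ρ y v ∈ Z := by
    rintro y v hv ⟨h1, h2⟩
    apply hv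
    refine ⟨?_, ?_⟩
    · rintro rfl
      exact h1 (map_zero _)
    · obtain ⟨g, hg⟩ := hps (Multiplicative.toAdd y)
      have hy : y = Multiplicative.ofAdd (p g) := by rw [hg]; rfl
      have h3 := good_conj (chr_isChar π (ρ y v)) hf hS (MulAut.conjNormal g)⁻¹ h2
      have h4 : (fun c => chr π (ρ y v) ((MulAut.conjNormal g)⁻¹ c)) = chr π v := by
        funext c
        rw [hy, hρ]
        congr 1
        apply Subtype.ext
        change g * (((MulAut.conjNormal g)⁻¹ c : C) : G) * g⁻¹ = c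
        rw [← MulAut.conjNormal_apply, ← MulAut.mul_apply, mul_inv_cancel, MulAut.one_apply]
      rw [h4] at h3
      exact h3
  have hxZ : x ∈ Z := by
    rintro ⟨-, h2⟩
    apply hbad
    have h3 : χ = chr π x := funext hx
    rw [h3]
    exact h2
  obtain ⟨nu, hnu, hnum, v, hvZ, hv0, M, hM⟩ := ev_comm hX ρ Z hZ hcone hinv x hxZ hx0
  let chi : G → ℝ := fun g => if h : g ∈ C then chr π v ⟨g, h⟩ else 0
  have hchi : ∀ c : C, chi c = chr π v c := by
    intro c
    simp only [chi]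
    rw [dif_pos c.2]
  let d : CD G (Additive (G ⧸ C)) :=
    { p := p
      nu := nu
      chi := chi
      pmul := hp
      psurj := hps
      nupos := hnu
      numul := hnum
      chimul := by
        intro c c' hc hc'
        rw [hpk] at hc hc'
        have h1 := hchi ⟨c, hc⟩
        have h2 := hchi ⟨c', hc'⟩
        have h3 := hchi (⟨c, hc⟩ * ⟨c', hc'⟩)
        rw [chr_isChar π v, ← h1, ← h2] at h3
        exact h3
      bdd := by
        intro c hc
        rw [hpk] at hc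
        refine ⟨M * ∑ i, |((Multiplicative.toAdd (π ⟨c, hc⟩) i : ℤ) : ℝ)|, fun g => ?_⟩
        have h1 := hchi ⟨g * c * g⁻¹, hcm g ⟨c, hc⟩⟩
        have h2 := hρ g v ⟨c, hc⟩
        have h3 : chi (g * c * g⁻¹) = chr π (ρ (Multiplicative.ofAdd (p g)) v) ⟨c, hc⟩ := by
          rw [h2]
          exact h1
        rw [h3]
        refine (CdEx_chr_abs _ _ _).trans ?_
        have h4 := mul_le_mul_of_nonneg_right (hM (p g))
          (Finset.sum_nonneg fun i (_ : i ∈ Finset.univ) =>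
            abs_nonneg ((Multiplicative.toAdd (π ⟨c, hc⟩) i : ℤ) : ℝ))
        calc _ ≤ _ := h4
          _ = _ := by ring }
  refine ⟨Additive (G ⧸ C), inferInstance, d, hX, hpk, ?_, ?_, ?_⟩
  · intro n hn
    have h1 := hchi ⟨n, hNC hn⟩
    have h2 : π ⟨n, hNC hn⟩ = 1 := hπN _ hn
    change chi n = 0
    refine Eq.trans h1 ?_
    unfold chr
    rw [h2]
    simp
  · obtain ⟨c, hc⟩ := BNSFin_chr_ne π hπ hv0
    refine ⟨c, c.2, ?_⟩
    change chi c ≠ 0
    rw [hchi]
    exact hc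
  · intro hgood
    apply hvZ
    refine ⟨hv0, ?_⟩
    have h1 : (fun c : C => d.chi c) = chr π v := funext hchi
    rw [← h1]
    exact hgood

end H84.PG
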