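import Pool.Agent.H84.PG.CDB

/-!
# Module CdRes: restriction of character data to a subgroup of finite index (IX.4)

`pre_fi`: `G ⧸ pre → X ⧸ Λ` is injective.  `res_W`: for `x ∈ Λ` and `c` in the kernel
`(d.res Λ).chat c x = d.chat c x`: both times `nu x` are `chi (g c g⁻¹)` for `g = (d.res Λ).sec x`
resp. any `g` with `p g = x` (`chat_spec` for `d` and for `d.res Λ`).  The span of the images is
the image of the span (`Submodule.map_span`).
-/

set_option autoImplicit false

namespace H84.PG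

open H36.PP Subgroup

variable {G X : Type*} [Group G] [AddCommGroup X]

/-- the preimage of `Λ` -/
def CD.pre (d : CD G X) (Λ : AddSubgroup X) : Subgroup G where
  carrier := {g | d.p g ∈ Λ}
  mul_mem' := by
    intro a b ha hb
    simp only [Set.mem_ofPred_eq] at *
    rw [d.pmul]
    exact Λ.add_mem ha hb
  one_mem' := by
    simp only [Set.mem_ofPred_eq]
    rw [d.p_one]
    exact Λ.zero_mem
  inv_mem' := by
    intro a ha
    simp only [Set.mem_ofPred_eq] at *
    rw [d.p_inv]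
    exact Λ.neg_mem ha

theorem CD.pre_fi (d : CD G X) (Λ : AddSubgroup X) (hΛ : Λ.FiniteIndex) :
    (d.pre Λ).FiniteIndex := by
  have : Finite (X ⧸ Λ) := AddSubgroup.finite_quotient_of_finiteIndex
  have : Finite (G ⧸ d.pre Λ) := by
    refine Finite.of_injective
      (fun q : G ⧸ d.pre Λ => (QuotientAddGroup.mk (d.p q.out) : X ⧸ Λ)) ?_
    intro q q' h
    have h1 : -(d.p q.out) + d.p q'.out ∈ Λ := QuotientAddGroup.eq.mp h
    have h2 : q.out⁻¹ * q'.out ∈ d.pre Λ := by
      change d.p (q.out⁻¹ * q'.out) ∈ Λ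
      rw [d.pmul, d.p_inv]
      exact h1
    have h3 : (QuotientGroup.mk q.out : G ⧸ d.pre Λ) = QuotientGroup.mk q'.out :=
      QuotientGroup.eq.mpr h2
    rw [QuotientGroup.out_eq', QuotientGroup.out_eq'] at h3
    exact h3
  exact Subgroup.finiteIndex_of_finite_quotient

/-- restriction of character data -/
def CD.res (d : CD G X) (Λ : AddSubgroup X) : CD (d.pre Λ) Λ where
  p := fun g => ⟨d.p g, g.2⟩
  nu := fun x => d.nu x
  chi := fun g => d.chi g
  pmul := fun g h => Subtype.ext (d.pmul g h)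
  psurj := by
    rintro ⟨x, hx⟩
    obtain ⟨g, rfl⟩ := d.psurj x
    exact ⟨⟨g, hx⟩, rfl⟩
  nupos := fun x => d.nupos x
  numul := fun x y => d.numul x y
  chimul := by
    intro c c' hc hc'
    exact d.chimul c c' (congrArg Subtype.val hc) (congrArg Subtype.val hc')
  bdd := by
    intro c hc
    obtain ⟨M, hM⟩ := d.bdd c (congrArg Subtype.val hc)
    exact ⟨M, fun g => hM g⟩

private theorem CdRes_chat (d : CD G X) (Λ : AddSubgroup X) (c : d.pre Λ)
    (hc : d.p (c : G) = 0) :
    (d.res Λ).chat c = LinearMap.funLeft ℝ ℝ (Subtype.val : Λ → X) (d.chat (c : G)) := by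
  funext x
  have h1 : d.p (((d.res Λ).sec x : d.pre Λ) : G) = (x : X) :=
    congrArg Subtype.val ((d.res Λ).p_sec x)
  have h2 := d.chat_spec (((d.res Λ).sec x : d.pre Λ) : G) hc
  rw [h1] at h2
  have h3 : (d.res Λ).chat c x = (d.nu (x : X))⁻¹ *
      d.chi ((((d.res Λ).sec x : d.pre Λ) : G) * (c : G) *
        (((d.res Λ).sec x : d.pre Λ) : G)⁻¹) := rfl
  rw [h3, h2, inv_mul_cancel_left₀ (d.nupos _).ne']
  rfl

theorem CD.res_W (d : CD G X) (Λ : AddSubgroup X) :
    (d.res Λ).W = d.W.map (LinearMap.funLeft ℝ ℝ (Subtype.val : Λ → X)) := by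
  unfold CD.W
  rw [Submodule.map_span]
  congr 1
  ext w
  constructor
  · rintro ⟨c, hc, rfl⟩
    have hc' : d.p (c : G) = 0 := congrArg Subtype.val hc
    exact ⟨d.chat (c : G), ⟨c, hc', rfl⟩, (CdRes_chat d Λ c hc').symm⟩
  · rintro ⟨_, ⟨c, hc, rfl⟩, rfl⟩
    have hm : c ∈ d.pre Λ := by
      change d.p c ∈ Λ
      rw [hc]
      exact Λ.zero_mem
    refine ⟨⟨c, hm⟩, Subtype.ext hc, ?_⟩
    exact (CdRes_chat d Λ ⟨c, hm⟩ hc).symm

end H84.PG
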