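import Pool.Agent.H36.PP.Dist

/-!
# Module DistCase: the invariant case (IX.5, `nu = 1`)

`χ` is invariant under conjugation by `G2`, all commutators of `G` lie in `C`.  For `g₁, g₂ ∈ G2`
put `β (g₁, g₂) = χ [g₁, g₂]` (`[g₁, g₂] = g₁ g₂ g₁⁻¹ g₂⁻¹ ∈ C`).  From
`[a b, c] = a [b, c] a⁻¹ [a, c]` and `[a, b c] = [a, b] b [a, c] b⁻¹` `β` is bilinear, so
`χ [x ^ n, y ^ n] = n ^ 2 χ [x, y]`.  Apply `dist` (file `H36/PP/Dist.lean`) to the automorphisms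
of `C` given by conjugation with `x` and `y` (`MulAut.conjNormal`), `κ = χ [x, y]`,
`z = [x ^ n, y ^ n]`.
-/

set_option autoImplicit false

namespace H84.PG

open H36.PP Subgroup

private theorem DistCase_left {G : Type*} [Group G] (C : Subgroup G) [hCn : C.Normal]
    (hcomm : ∀ x y : G, x * y * x⁻¹ * y⁻¹ ∈ C) (χ : C → ℝ) (hχ : IsChar χ) (a b c : G)
    (hinv : ∀ c : C, χ ⟨a * c * a⁻¹, hCn.conj_mem c c.2 a⟩ = χ c) :
    χ ⟨a * b * c * (a * b)⁻¹ * c⁻¹, hcomm (a * b) c⟩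
      = χ ⟨a * c * a⁻¹ * c⁻¹, hcomm a c⟩ + χ ⟨b * c * b⁻¹ * c⁻¹, hcomm b c⟩ := by
  rw [← hinv ⟨b * c * b⁻¹ * c⁻¹, hcomm b c⟩, add_comm, ← hχ]
  congr 1
  apply Subtype.ext
  simp only [Subgroup.coe_mul]
  group

private theorem DistCase_right {G : Type*} [Group G] (C : Subgroup G) [hCn : C.Normal]
    (hcomm : ∀ x y : G, x * y * x⁻¹ * y⁻¹ ∈ C) (χ : C → ℝ) (hχ : IsChar χ) (a b c : G)
    (hinv : ∀ c : C, χ ⟨b * c * b⁻¹, hCn.conj_mem c c.2 b⟩ = χ c) :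
    χ ⟨a * (b * c) * a⁻¹ * (b * c)⁻¹, hcomm a (b * c)⟩
      = χ ⟨a * b * a⁻¹ * b⁻¹, hcomm a b⟩ + χ ⟨a * c * a⁻¹ * c⁻¹, hcomm a c⟩ := by
  rw [← hinv ⟨a * c * a⁻¹ * c⁻¹, hcomm a c⟩, ← hχ]
  congr 1
  apply Subtype.ext
  simp only [Subgroup.coe_mul]
  group

theorem dist_case {G : Type*} [Group G] (C : Subgroup G) [hCn : C.Normal]
    (hcomm : ∀ x y : G, x * y * x⁻¹ * y⁻¹ ∈ C) (G2 : Subgroup G) (S : Set C) (hf : S.Finite)
    (hS : closure S = ⊤) (χ : C → ℝ) (hχ : IsChar χ)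
    (hinv : ∀ g ∈ G2, ∀ c : C, χ ⟨g * c * g⁻¹, hCn.conj_mem c c.2 g⟩ = χ c) (x y : G)
    (hx : x ∈ G2) (hy : y ∈ G2) (hne : χ ⟨x * y * x⁻¹ * y⁻¹, hcomm x y⟩ ≠ 0) : Good χ S := by
  have hL : ∀ (n : ℕ) (c : G), χ ⟨x ^ n * c * (x ^ n)⁻¹ * c⁻¹, hcomm (x ^ n) c⟩
      = n * χ ⟨x * c * x⁻¹ * c⁻¹, hcomm x c⟩ := by
    intro n c
    induction n with
    | zero =>
      have e : (⟨x ^ 0 * c * (x ^ 0)⁻¹ * c⁻¹, hcomm (x ^ 0) c⟩ : C) = 1 := by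
        apply Subtype.ext
        simp
      rw [e, hχ.one]
      simp
    | succ n ih =>
      have h := DistCase_left C hcomm χ hχ x (x ^ n) c (hinv x hx)
      have e : (⟨x ^ (n + 1) * c * (x ^ (n + 1))⁻¹ * c⁻¹, hcomm (x ^ (n + 1)) c⟩ : C)
          = ⟨x * x ^ n * c * (x * x ^ n)⁻¹ * c⁻¹, hcomm (x * x ^ n) c⟩ := by
        apply Subtype.ext
        simp only [pow_succ']
      rw [e, h, ih]
      push_cast
      ring
  have hR : ∀ (n : ℕ) (a : G), χ ⟨a * y ^ n * a⁻¹ * (y ^ n)⁻¹, hcomm a (y ^ n)⟩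
      = n * χ ⟨a * y * a⁻¹ * y⁻¹, hcomm a y⟩ := by
    intro n a
    induction n with
    | zero =>
      have e : (⟨a * y ^ 0 * a⁻¹ * (y ^ 0)⁻¹, hcomm a (y ^ 0)⟩ : C) = 1 := by
        apply Subtype.ext
        simp
      rw [e, hχ.one]
      simp
    | succ n ih =>
      have h := DistCase_right C hcomm χ hχ a y (y ^ n) (hinv y hy)
      have e : (⟨a * y ^ (n + 1) * a⁻¹ * (y ^ (n + 1))⁻¹, hcomm a (y ^ (n + 1))⟩ : C)
          = ⟨a * (y * y ^ n) * a⁻¹ * (y * y ^ n)⁻¹, hcomm a (y * y ^ n)⟩ := by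
        apply Subtype.ext
        simp only [pow_succ']
      rw [e, h, ih]
      push_cast
      ring
  have hpres : ∀ g ∈ G2, ∀ c : C, χ ((MulAut.conjNormal g : MulAut C) c) = χ c := by
    intro g hg c
    have e : (MulAut.conjNormal g : MulAut C) c = ⟨g * c * g⁻¹, hCn.conj_mem c c.2 g⟩ := by
      apply Subtype.ext
      simp [MulAut.conjNormal_apply]
    rw [e]
    exact hinv g hg c
  refine dist hf hS hχ (MulAut.conjNormal x) (MulAut.conjNormal y) (hpres x hx) (hpres y hy)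
    (χ ⟨x * y * x⁻¹ * y⁻¹, hcomm x y⟩) hne ?_
  intro n
  refine ⟨⟨x ^ n * y ^ n * (x ^ n)⁻¹ * (y ^ n)⁻¹, hcomm (x ^ n) (y ^ n)⟩, ?_, ?_⟩
  · rw [← MulAut.conjNormal_val]
    simp only [map_mul, map_inv, map_pow]
  · rw [hL n (y ^ n), hR n x]
    ring

end H84.PG
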