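import Pool.Agent.H84.PG.MeanEx

/-!
# Module MeanFG: an invariant mean on every finitely generated abelian group

There is a surjective homomorphism `φ : (Fin n → ℤ) →+ X` (finite generating set).  With
`μ` from `mean_exists n` put `L f = μ.L (fun z => f (φ z))` (`Bdd.comp`); invariance: `y = φ z`.
-/

set_option autoImplicit false

namespace H84.PG

open Filter Topology

theorem mean_exists_fg {X : Type*} [AddCommGroup X] (hX : AddGroup.FG X) :
    Nonempty (Mean X) := by
  have hfin : Module.Finite ℤ X := Module.Finite.iff_addGroup_fg.2 hX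
  obtain ⟨n, φ, hφ⟩ := Module.Finite.exists_fin' ℤ X
  obtain ⟨μ⟩ := mean_exists n
  have hb : ∀ {f : X → ℝ}, Bdd f → Bdd (fun z => f (φ z)) := by
    rintro f ⟨C, hC⟩
    exact ⟨C, fun z => hC _⟩
  refine ⟨⟨fun f => μ.L (fun z => f (φ z)), ?_, ?_, ?_, ?_, ?_⟩⟩
  · intro f g hf hg
    exact μ.add _ _ (hb hf) (hb hg)
  · intro c f hf
    exact μ.smul c _ (hb hf)
  · intro f g hf hg hfg
    exact μ.mono _ _ (hb hf) (hb hg) fun z => hfg _
  · exact μ.one
  · intro f y hf
    obtain ⟨w, rfl⟩ := hφ y
    have h := μ.trans (fun z => f (φ z)) w (hb hf)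
    simp only [map_add] at h
    exact h

end H84.PG
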