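import Pool.Agent.H84.PG.MDefs

/-!
# Module FiMult: subgroups of finitely generated abelian groups that meet every cyclic subgroup

The quotient is finitely generated and torsion, hence finite
(`AddCommGroup.finite_of_fg_torsion`).
-/

set_option autoImplicit false

namespace H84.PG

open Filter Topology

theorem fi_of_mult {X : Type*} [AddCommGroup X] (hX : AddGroup.FG X) (Λ : AddSubgroup X)
    (h : ∀ y : X, ∃ j : ℕ, 0 < j ∧ j • y ∈ Λ) : Λ.FiniteIndex := by
  have := hX
  have : AddGroup.FG (X ⧸ Λ) :=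
    AddGroup.fg_of_surjective (QuotientAddGroup.mk'_surjective Λ)
  have ht : IsAddTorsion (X ⧸ Λ) := by
    intro q
    obtain ⟨y, rfl⟩ := QuotientAddGroup.mk'_surjective Λ q
    obtain ⟨j, hj, hy⟩ := h y
    rw [isOfFinAddOrder_iff_nsmul_eq_zero]
    refine ⟨j, hj, ?_⟩
    rw [← map_nsmul]
    exact (QuotientAddGroup.eq_zero_iff _).2 hy
  have : Finite (X ⧸ Λ) := AddCommGroup.finite_of_fg_isAddTorsion _ ht
  exact AddSubgroup.finiteIndex_of_finite_quotient

end H84.PG
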