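import Pool.Agent.H84.PG.SmallCor

/-!
# Module InvFun: invariant functionals on `W` are multiples of the mean

`⟨f, g⟩ = L (f g)` is a symmetric bilinear form on `W`, positive definite: if `L (w ^ 2) = 0`,
`w ∈ W`, `w ≠ 0`, then by `small_pt` `m {|w| < η} ≤ 1 / 2` for some `η > 0`, and
`L (w ^ 2) ≥ η ^ 2 / 2 > 0` (`Mean.L_lower`).  It is invariant under translations
(`Mean.trans`).  `W` is finite dimensional, so `l w = L (q w)` for a unique `q ∈ W` (injective
linear map `q ↦ L (q ·)` from `W` to its dual, dimensions).  For `y ∈ Λ`, `u ∈ W`: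
`L (T_y q T_y u) = L (q u) = l u = l (T_y u) = L (q T_y u)`, and `T_y u` runs over `W`, so
`T_y q = q`.  By `Stab.const`, `q` is a constant `c`: `l u = c L u`; and `q ∈ W` is the constant
function: if `c ≠ 0` then `1 ∈ W`.
-/

set_option autoImplicit false

namespace H84.PG

open Filter Topology

private theorem InvFun_pos {X : Type*} [AddCommGroup X] (hX : AddGroup.FG X) (μ : Mean X)
    {W : Submodule ℝ (X → ℝ)} (hW : Stab W) {q : X → ℝ} (hq : q ∈ W)
    (h : μ.L (fun x => q x * q x) = 0) : q = 0 := by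
  by_contra h0
  obtain ⟨η, hη, hm⟩ := small_pt hX μ hW hq h0 (show (0 : ℝ) < 1 / 2 by norm_num)
  have hb : Bdd (fun x => q x * q x) := (hW.bdd q hq).mul (hW.bdd q hq)
  have h1 := μ.L_lower hb (fun x => mul_self_nonneg (q x)) (c := η ^ 2)
    (Y := {x | |q x| < η}ᶜ) (fun x hx => by
      have hx' : η ≤ |q x| := not_lt.mp hx
      have h2 : η ^ 2 ≤ |q x| ^ 2 := pow_le_pow_left₀ hη.le hx' 2
      rw [sq_abs] at h2
      nlinarith)
  rw [h, μ.m_compl] at h1
  have h2 : 0 < η ^ 2 := by positivity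
  nlinarith

/-- the pairing with the mean as a linear map -/
private noncomputable def InvFun_pair {X : Type*} [AddCommGroup X] (μ : Mean X)
    {W : Submodule ℝ (X → ℝ)} (hW : Stab W) : W →ₗ[ℝ] Module.Dual ℝ W where
  toFun q :=
    { toFun := fun u => μ.L (fun x => (q : X → ℝ) x * (u : X → ℝ) x)
      map_add' := by
        intro u v
        have h := μ.add (fun x => (q : X → ℝ) x * (u : X → ℝ) x)
          (fun x => (q : X → ℝ) x * (v : X → ℝ) x)
          ((hW.bdd q q.2).mul (hW.bdd u u.2)) ((hW.bdd q q.2).mul (hW.bdd v v.2))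
        rw [← h]
        congr 1
        funext x
        rw [Submodule.coe_add, Pi.add_apply, mul_add]
      map_smul' := by
        intro c u
        have h := μ.smul c (fun x => (q : X → ℝ) x * (u : X → ℝ) x)
          ((hW.bdd q q.2).mul (hW.bdd u u.2))
        rw [RingHom.id_apply, smul_eq_mul, ← h]
        congr 1
        funext x
        rw [Submodule.coe_smul, Pi.smul_apply, smul_eq_mul]
        ring }
  map_add' := by
    intro q r
    apply LinearMap.ext
    intro u
    have h := μ.add (fun x => (q : X → ℝ) x * (u : X → ℝ) x)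
      (fun x => (r : X → ℝ) x * (u : X → ℝ) x)
      ((hW.bdd q q.2).mul (hW.bdd u u.2)) ((hW.bdd r r.2).mul (hW.bdd u u.2))
    rw [LinearMap.add_apply]
    change μ.L (fun x => ((q + r : W) : X → ℝ) x * (u : X → ℝ) x)
      = μ.L (fun x => (q : X → ℝ) x * (u : X → ℝ) x)
        + μ.L (fun x => (r : X → ℝ) x * (u : X → ℝ) x)
    rw [← h]
    congr 1
    funext x
    rw [Submodule.coe_add, Pi.add_apply, add_mul]
  map_smul' := by
    intro c q
    apply LinearMap.ext
    intro u
    have h := μ.smul c (fun x => (q : X → ℝ) x * (u : X → ℝ) x)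
      ((hW.bdd q q.2).mul (hW.bdd u u.2))
    rw [LinearMap.smul_apply, RingHom.id_apply, smul_eq_mul]
    change μ.L (fun x => ((c • q : W) : X → ℝ) x * (u : X → ℝ) x)
      = c * μ.L (fun x => (q : X → ℝ) x * (u : X → ℝ) x)
    rw [← h]
    congr 1
    funext x
    rw [Submodule.coe_smul, Pi.smul_apply, smul_eq_mul]
    ring

private theorem InvFun_pair_apply {X : Type*} [AddCommGroup X] (μ : Mean X)
    {W : Submodule ℝ (X → ℝ)} (hW : Stab W) (q u : W) :
    InvFun_pair μ hW q u = μ.L (fun x => (q : X → ℝ) x * (u : X → ℝ) x) := rfl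

private theorem InvFun_inj {X : Type*} [AddCommGroup X] (hX : AddGroup.FG X) (μ : Mean X)
    {W : Submodule ℝ (X → ℝ)} (hW : Stab W) : Function.Injective (InvFun_pair μ hW) := by
  rw [injective_iff_map_eq_zero]
  intro q hq
  have h1 : InvFun_pair μ hW q q = 0 := by rw [hq]; rfl
  rw [InvFun_pair_apply] at h1
  exact Subtype.ext (InvFun_pos hX μ hW q.2 h1)

theorem inv_fun {X : Type*} [AddCommGroup X] (hX : AddGroup.FG X) (μ : Mean X)
    {W : Submodule ℝ (X → ℝ)} (hW : Stab W) (Λ : AddSubgroup X) (hΛ : Λ.FiniteIndex)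
    (l : (X → ℝ) → ℝ) (hadd : ∀ u ∈ W, ∀ v ∈ W, l (fun x => u x + v x) = l u + l v)
    (hsmul : ∀ (c : ℝ), ∀ u ∈ W, l (fun x => c * u x) = c * l u)
    (hinv : ∀ y ∈ Λ, ∀ u ∈ W, l (fun x => u (x + y)) = l u) :
    ∃ c : ℝ, (∀ u ∈ W, l u = c * μ.L u) ∧ (c = 0 ∨ (fun _ => (1 : ℝ)) ∈ W) := by
  haveI := hW.fd
  have hsurj : Function.Surjective (InvFun_pair μ hW) :=
    (LinearMap.injective_iff_surjective_of_finrank_eq_finrank
      (Subspace.dual_finrank_eq (K := ℝ) (V := W)).symm).1 (InvFun_inj hX μ hW)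
  let l' : Module.Dual ℝ W :=
    { toFun := fun u => l (u : X → ℝ)
      map_add' := fun u v => hadd u u.2 v v.2
      map_smul' := fun c u => hsmul c u u.2 }
  obtain ⟨q, hq⟩ := hsurj l'
  have hql : ∀ u ∈ W, l u = μ.L (fun x => (q : X → ℝ) x * u x) := by
    intro u hu
    have h := LinearMap.congr_fun hq ⟨u, hu⟩
    rw [InvFun_pair_apply] at h
    exact h.symm
  have hT : ∀ y ∈ Λ, ∀ x, (q : X → ℝ) (x + y) = (q : X → ℝ) x := by
    intro y hy
    have hqy : (fun x => (q : X → ℝ) (x + y)) ∈ W := hW.inv q q.2 y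
    have h0 : InvFun_pair μ hW (⟨fun x => (q : X → ℝ) (x + y), hqy⟩ - q) = 0 := by
      apply LinearMap.ext
      intro u
      rw [map_sub, LinearMap.sub_apply, LinearMap.zero_apply, sub_eq_zero, InvFun_pair_apply,
        InvFun_pair_apply]
      -- the vector `u` is the translate of `v`
      have hv : (fun x => (u : X → ℝ) (x + -y)) ∈ W := hW.inv u u.2 (-y)
      have e1 := hinv y hy _ hv
      rw [hql _ hv, hql _ (hW.inv _ hv y)] at e1
      have e2 := μ.trans (fun x => (q : X → ℝ) x * (u : X → ℝ) (x + -y)) y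
        ((hW.bdd q q.2).mul (hW.bdd _ hv))
      simp only [add_neg_cancel_right] at e1 e2
      change μ.L (fun x => (q : X → ℝ) (x + y) * (u : X → ℝ) x) = _
      rw [e2, ← e1]
    have h1 := (injective_iff_map_eq_zero _).1 (InvFun_inj hX μ hW) _ h0
    rw [sub_eq_zero] at h1
    intro x
    have h2 := congrArg (fun w : W => (w : X → ℝ) x) h1
    exact h2
  obtain ⟨c, hc⟩ := hW.const Λ hΛ q q.2 hT
  refine ⟨c, fun u hu => ?_, ?_⟩
  · rw [hql u hu, ← μ.smul c u (hW.bdd u hu)]
    congr 1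
    funext x
    rw [hc x]
  · by_cases h : c = 0
    · exact Or.inl h
    · right
      have h1 := W.smul_mem c⁻¹ q.2
      have e : c⁻¹ • (q : X → ℝ) = fun _ => (1 : ℝ) := by
        funext x
        rw [Pi.smul_apply, smul_eq_mul, hc x, inv_mul_cancel₀ h]
      rwa [e] at h1

end H84.PG
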