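import Pool.Agent.H84.PG.Recur
import Pool.Agent.H84.PG.InvFun
import Pool.Agent.H84.PG.FiMult

/-!
# Module GlueC: there is no gap around zero (VIII.11)

Let `Y = {0 < u}`, `Λ = {y | m {x | ¬ (x ∈ Y ↔ x + y ∈ Y)} = 0}`, a subgroup (`Mean.m_trans`,
`Mean.m_zero_union`).  By `recur` every `y` has a multiple `j • y` with
`|u (x + j • y) - u x| < ρ` for all `x`; up to mean zero `|u| ≥ ρ`, so `u x > 0` iff
`u (x + j • y) > 0`: `j • y ∈ Λ`; `Λ` has finite index (`fi_of_mult`).  `l w = L (1_Y w)`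
(`Set.indicator`) satisfies `l (T_y w) = l w` for `y ∈ Λ`, bounded `w`
(`L (1_Y T_y w) = L (T_y (1_{Y + y} w))`, and `1_{Y + y} = 1_Y` up to mean zero,
`Mean.L_abs_le_of`).  `inv_fun`: `l = c L` on `W`.  `l u ≥ ρ m Y > 0` (`Mean.L_lower`), so `c ≠ 0`,
`1 ∈ W`, `c = l 1 = m Y > 0`, so `L u > 0`.  The same argument for `Y' = {u < 0}` and
`l' w = L (1_{Y'} w)`, `l' u < 0`, gives `L u < 0`.
-/

set_option autoImplicit false

namespace H84.PG

open Filter Topology

private theorem gc_sub {X : Type*} [AddCommGroup X] (hX : AddGroup.FG X) (μ : Mean X) (Y : Set X)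
    (hY : ∀ y, ∃ j : ℕ, 0 < j ∧ μ.m {x | ¬ (x ∈ Y ↔ x + j • y ∈ Y)} = 0) :
    ∃ Λ : AddSubgroup X, Λ.FiniteIndex ∧ ∀ y ∈ Λ, μ.m {x | ¬ (x ∈ Y ↔ x + y ∈ Y)} = 0 := by
  let Λ : AddSubgroup X :=
    { carrier := {y | μ.m {x | ¬ (x ∈ Y ↔ x + y ∈ Y)} = 0}
      zero_mem' := by
        have : {x : X | ¬ (x ∈ Y ↔ x + 0 ∈ Y)} = ∅ := by
          ext x
          simp
        show μ.m {x : X | ¬ (x ∈ Y ↔ x + 0 ∈ Y)} = 0
        rw [this]
        exact μ.m_empty
      add_mem' := by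
        intro a b ha hb
        have ha' : μ.m {x | ¬ (x ∈ Y ↔ x + a ∈ Y)} = 0 := ha
        have hb' : μ.m {x | ¬ (x ∈ Y ↔ x + b ∈ Y)} = 0 := hb
        have hb2 : μ.m {x | x + a ∈ {z | ¬ (z ∈ Y ↔ z + b ∈ Y)}} = 0 := by
          rw [μ.m_trans]
          exact hb'
        refine μ.m_zero_mono ?_ (μ.m_zero_union ha' hb2)
        intro x hx
        by_contra hc
        rw [Set.mem_union, not_or] at hc
        obtain ⟨h1, h2⟩ := hc
        have h1' : x ∈ Y ↔ x + a ∈ Y := by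
          by_contra h
          exact h1 h
        have h2' : x + a ∈ Y ↔ x + a + b ∈ Y := by
          by_contra h
          exact h2 h
        apply (show ¬ (x ∈ Y ↔ x + (a + b) ∈ Y) from hx)
        rw [← add_assoc]
        exact h1'.trans h2'
      neg_mem' := by
        intro a ha
        have ha' : μ.m {x | ¬ (x ∈ Y ↔ x + a ∈ Y)} = 0 := ha
        have h2 : μ.m {x | x + (-a) ∈ {z | ¬ (z ∈ Y ↔ z + a ∈ Y)}} = 0 := by
          rw [μ.m_trans]
          exact ha'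
        refine μ.m_zero_mono ?_ h2
        intro x hx
        show ¬ (x + -a ∈ Y ↔ x + -a + a ∈ Y)
        have hx' : ¬ (x ∈ Y ↔ x + -a ∈ Y) := hx
        rw [neg_add_cancel_right]
        intro h
        exact hx' h.symm }
  refine ⟨Λ, fi_of_mult hX Λ fun y => ?_, fun y hy => hy⟩
  obtain ⟨j, hj, h⟩ := hY y
  exact ⟨j, hj, h⟩

private theorem gc_half {X : Type*} [AddCommGroup X] (hX : AddGroup.FG X) (μ : Mean X)
    {W : Submodule ℝ (X → ℝ)} (hW : Stab W) (Y : Set X)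
    (hY : ∀ y, ∃ j : ℕ, 0 < j ∧ μ.m {x | ¬ (x ∈ Y ↔ x + j • y ∈ Y)} = 0) :
    ∃ c : ℝ, (∀ w ∈ W, μ.L (Y.indicator w) = c * μ.L w) ∧
      (c = 0 ∨ (fun _ => (1 : ℝ)) ∈ W) := by
  obtain ⟨Λ, hΛ, hΛ2⟩ := gc_sub hX μ Y hY
  refine inv_fun hX μ hW Λ hΛ (fun w => μ.L (Y.indicator w)) ?_ ?_ ?_
  · intro u hu v hv
    show μ.L (Y.indicator fun x => u x + v x) = μ.L (Y.indicator u) + μ.L (Y.indicator v)
    rw [← μ.add _ _ ((hW.bdd u hu).indicator Y) ((hW.bdd v hv).indicator Y)]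
    congr 1
    funext x
    by_cases h : x ∈ Y
    · simp [h]
    · simp [h]
  · intro c u hu
    show μ.L (Y.indicator fun x => c * u x) = c * μ.L (Y.indicator u)
    rw [← μ.smul _ _ ((hW.bdd u hu).indicator Y)]
    congr 1
    funext x
    by_cases h : x ∈ Y
    · simp [h]
    · simp [h]
  · intro y hy u hu
    show μ.L (Y.indicator fun x => u (x + y)) = μ.L (Y.indicator u)
    have h0 := hΛ2 y hy
    have hb : Bdd u := hW.bdd u hu
    obtain ⟨C, hC⟩ := hb
    have hC0 : 0 ≤ C := (abs_nonneg _).trans (hC 0)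
    have hb1 : Bdd (Y.indicator fun x => u (x + y)) := ((hW.bdd u hu).trans y).indicator Y
    have hb2 : Bdd (fun x => (Y.indicator u) (x + y)) := ((hW.bdd u hu).indicator Y).trans y
    have e1 : μ.L (Y.indicator u) = μ.L (fun x => (Y.indicator u) (x + y)) :=
      (μ.trans _ y ((hW.bdd u hu).indicator Y)).symm
    rw [e1, ← sub_eq_zero, ← μ.L_sub hb1 hb2]
    have hle : |μ.L (fun x => (Y.indicator fun x => u (x + y)) x - (Y.indicator u) (x + y))| ≤
        0 + C * μ.m {x | ¬ (x ∈ Y ↔ x + y ∈ Y)} := by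
      refine μ.L_abs_le_of ?_ le_rfl hC0 ?_
      · intro x
        by_cases h1 : x ∈ Y <;> by_cases h2 : x + y ∈ Y
        · simp [h1, h2, hC0]
        · simp [h1, h2, hC]
        · simp [h1, h2, hC]
        · simp [h1, h2, hC0]
      · intro x hx
        have hx' : x ∈ Y ↔ x + y ∈ Y := by
          by_contra h
          exact hx h
        by_cases h1 : x ∈ Y
        · have h2 := hx'.mp h1
          simp [h1, h2]
        · have h2 : x + y ∉ Y := fun h => h1 (hx'.mpr h)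
          simp [h1, h2]
    rw [h0, mul_zero, add_zero] at hle
    exact abs_nonpos_iff.mp hle

private theorem gc_pos {X : Type*} [AddCommGroup X] (hX : AddGroup.FG X) (μ : Mean X)
    {W : Submodule ℝ (X → ℝ)} (hW : Stab W) {u : X → ℝ} (hu : u ∈ W) {ρ : ℝ} (hρ : 0 < ρ)
    (h : μ.m {x | |u x| < ρ} = 0) (hp : 0 < μ.m {x | 0 < u x}) : 0 < μ.L u := by
  set Y : Set X := {x | 0 < u x} with hYdef
  have hY : ∀ y, ∃ j : ℕ, 0 < j ∧ μ.m {x | ¬ (x ∈ Y ↔ x + j • y ∈ Y)} = 0 := by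
    intro y
    obtain ⟨j, hj, hj2⟩ := recur hW hu hρ y
    refine ⟨j, hj, ?_⟩
    have h2 : μ.m {x | x + j • y ∈ {x | |u x| < ρ}} = 0 := by
      rw [μ.m_trans]
      exact h
    refine μ.m_zero_mono ?_ (μ.m_zero_union h h2)
    intro x hx
    by_contra hc
    rw [Set.mem_union, not_or] at hc
    obtain ⟨h3, h4⟩ := hc
    have h3' : ρ ≤ |u x| := not_lt.mp h3
    have h4' : ρ ≤ |u (x + j • y)| := not_lt.mp h4
    have h5 := abs_lt.mp (hj2 x)
    apply (show ¬ (x ∈ Y ↔ x + j • y ∈ Y) from hx)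
    show 0 < u x ↔ 0 < u (x + j • y)
    constructor
    · intro h6
      rw [abs_of_pos h6] at h3'
      linarith [h5.1]
    · intro h6
      rw [abs_of_pos h6] at h4'
      linarith [h5.2]
  obtain ⟨c, hc, hc2⟩ := gc_half hX μ hW Y hY
  have h1 : ρ * μ.m Y ≤ μ.L (Y.indicator u) := by
    have h2 := μ.L_lower (f := Y.indicator u) ((hW.bdd u hu).indicator Y) (fun x =>
      Set.indicator_nonneg (fun x hx => (show 0 < u x from hx).le) x) (c := ρ)
      (Y := Y \ {x | |u x| < ρ}) (fun x hx => by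
        rw [Set.indicator_of_mem hx.1]
        have h3 : ρ ≤ |u x| := not_lt.mp hx.2
        rwa [abs_of_pos (show 0 < u x from hx.1)] at h3)
    have h3 := μ.m_diff Y {x | |u x| < ρ}
    rw [h, sub_zero] at h3
    exact (mul_le_mul_of_nonneg_left h3 hρ.le).trans h2
  have h2 : 0 < μ.L (Y.indicator u) := lt_of_lt_of_le (mul_pos hρ hp) h1
  have h3 : c ≠ 0 := by
    rintro rfl
    rw [hc u hu, zero_mul] at h2
    exact lt_irrefl _ h2
  have h4 : (fun _ => (1 : ℝ)) ∈ W := hc2.resolve_left h3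
  have h5 := hc _ h4
  rw [μ.one, mul_one] at h5
  have h6 : 0 < c := by
    rw [← h5]
    exact hp
  rw [hc u hu] at h2
  exact (mul_pos_iff_of_pos_left h6).mp h2

theorem glue_c {X : Type*} [AddCommGroup X] (hX : AddGroup.FG X) (μ : Mean X)
    {W : Submodule ℝ (X → ℝ)} (hW : Stab W) {u : X → ℝ} (hu : u ∈ W) {ρ : ℝ} (hρ : 0 < ρ)
    (h : μ.m {x | |u x| < ρ} = 0) (hp : 0 < μ.m {x | 0 < u x})
    (hn : 0 < μ.m {x | u x < 0}) : False := by
  have h1 := gc_pos hX μ hW hu hρ h hp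
  have h2 : 0 < μ.L (-u) := by
    refine gc_pos hX μ hW (W.neg_mem hu) hρ ?_ ?_
    · have : {x | |(-u) x| < ρ} = {x | |u x| < ρ} := by
        ext x
        simp
      rw [this]
      exact h
    · have : {x | 0 < (-u) x} = {x | u x < 0} := by
        ext x
        simp
      rw [this]
      exact hn
  have h3 : μ.L (-u) = - μ.L u := μ.L_neg (hW.bdd u hu)
  linarith

end H84.PG
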