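import Pool.Agent.H84.PG.MeanB

/-!
# Module WDens: rational multiples of lattice vectors are dense in `W`

`w ∈ span ℝ WZ`: `w = ∑_i c_i u_i`, `u_i ∈ WZ`, bounded by `C`.  Take `M` large and
`u = ∑_i m_i u_i`, `m_i = round (M c_i)`; `|u x - M w x| ≤ ∑_i |u_i x| ≤ N C ≤ M ε` for `M` large.
(Or `Submodule.span_induction`: the property `∀ ε > 0, ∃ M > 0, ∃ u ∈ WZ, ...` holds for `WZ`, is
additive -- common multiple of the two `M` -- and stable under real scalars: approximate the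
scalar by a rational number.)
-/

set_option autoImplicit false

namespace H84.PG

open Filter Topology

theorem w_dens {X : Type*} {W : Submodule ℝ (X → ℝ)} {WZ : AddSubgroup (X → ℝ)}
    (hspan : Submodule.span ℝ (WZ : Set (X → ℝ)) = W) (hb : ∀ w ∈ W, Bdd w) {w : X → ℝ}
    (hw : w ∈ W) {ε : ℝ} (hε : 0 < ε) :
    ∃ M : ℕ, 0 < M ∧ ∃ u ∈ WZ, ∀ x, |u x - M * w x| ≤ M * ε := by
  rw [← hspan, Submodule.mem_span_set'] at hw
  obtain ⟨n, c, g, hw⟩ := hw
  have hC : ∀ i, Bdd (g i : X → ℝ) := fun i =>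
    hb _ (hspan ▸ Submodule.subset_span (g i).2)
  choose C hC using hC
  obtain ⟨M, hM⟩ := exists_nat_ge ((∑ i, |C i|) / ε)
  refine ⟨M + 1, Nat.succ_pos M, ∑ i, round (((M + 1 : ℕ) : ℝ) * c i) • (g i : X → ℝ),
    sum_mem fun i _ => zsmul_mem (g i).2 _, fun x => ?_⟩
  have h1 : (∑ i, round (((M + 1 : ℕ) : ℝ) * c i) • (g i : X → ℝ)) x - ((M + 1 : ℕ) : ℝ) * w x =
      ∑ i, ((round (((M + 1 : ℕ) : ℝ) * c i) : ℝ) - ((M + 1 : ℕ) : ℝ) * c i) * (g i : X → ℝ) x := by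
    rw [← hw]
    simp only [Finset.sum_apply, Pi.smul_apply, zsmul_eq_mul, smul_eq_mul, Finset.mul_sum,
      ← Finset.sum_sub_distrib]
    apply Finset.sum_congr rfl
    intro i _
    simp only [Pi.mul_apply, Pi.intCast_apply]
    ring
  rw [h1]
  calc |∑ i, ((round (((M + 1 : ℕ) : ℝ) * c i) : ℝ) - ((M + 1 : ℕ) : ℝ) * c i) * (g i : X → ℝ) x|
      ≤ ∑ i, |((round (((M + 1 : ℕ) : ℝ) * c i) : ℝ) - ((M + 1 : ℕ) : ℝ) * c i) * (g i : X → ℝ) x| :=
        Finset.abs_sum_le_sum_abs _ _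
    _ ≤ ∑ i, |C i| := by
        apply Finset.sum_le_sum
        intro i _
        rw [abs_mul]
        have h2 : |(round (((M + 1 : ℕ) : ℝ) * c i) : ℝ) - ((M + 1 : ℕ) : ℝ) * c i| ≤ 1 := by
          rw [abs_sub_comm]
          exact (abs_sub_round _).trans (by norm_num)
        calc _ ≤ 1 * |C i| :=
              mul_le_mul h2 ((hC i x).trans (le_abs_self _)) (abs_nonneg _) zero_le_one
          _ = |C i| := one_mul _
    _ ≤ ((M + 1 : ℕ) : ℝ) * ε := by
        have h3 := (div_le_iff₀ hε).1 hM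
        push_cast
        nlinarith

end H84.PG
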