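import Pool.Agent.H84.PG.GlueB
import Pool.Agent.H84.PG.GlueC
import Pool.Agent.H84.PG.WDens

/-!
# Module Glue: global identification (VIII.11)

Let `w0` be given with `hp`, `hn`; take `η > 0` with `m {x ∈ Y, η < w0 x} > 0`,
`m {x ∈ Y, w0 x < -η} > 0` (`exists_gt_of`, `exists_lt_of`) and by `w_dens` `M > 0`, `u ∈ WZ` with
`|u x - M w0 x| ≤ M η / 2`; so `m {x ∈ Y, 0 < u x} > 0`, `m {x ∈ Y, u x < 0} > 0`.  `hP` for `u`
and `-u` gives `z1`, `z2 ∈ W`.  If `z1 = z2` this is the required `z`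
(`m {u = 0} = 0`, `m_zero_set`).  Otherwise `glue_b` and `glue_c` give a contradiction.
-/

set_option autoImplicit false

namespace H84.PG

open Filter Topology

theorem glue {X : Type*} [AddCommGroup X] (hX : AddGroup.FG X) (μ : Mean X)
    {W : Submodule ℝ (X → ℝ)} (hW : Stab W) {WZ : AddSubgroup (X → ℝ)}
    (hspan : Submodule.span ℝ (WZ : Set (X → ℝ)) = W) {Y : Set X} {f w0 : X → ℝ}
    (hP : ∀ u ∈ WZ, 0 < μ.m {x | x ∈ Y ∧ 0 < u x} → 0 < μ.m {x | x ∈ Y ∧ u x < 0} →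
      ∃ z ∈ W, ∀ ε > 0, μ.m {x | 0 < u x ∧ ε ≤ |f x - z x|} = 0)
    (hw0 : w0 ∈ W) (hp : 0 < μ.m {x | x ∈ Y ∧ 0 < w0 x})
    (hn : 0 < μ.m {x | x ∈ Y ∧ w0 x < 0}) :
    ∃ z ∈ W, ∀ ε > 0, μ.m {x | ε ≤ |f x - z x|} = 0 := by
  classical
  obtain ⟨η1, hη1, h1⟩ := exists_gt_of hX μ hW hw0 hp
  obtain ⟨η2, hη2, h2⟩ := exists_lt_of hX μ hW hw0 hn
  set η : ℝ := min η1 η2 with hη
  have hη0 : 0 < η := lt_min hη1 hη2
  obtain ⟨M, hM, u, hu, huM⟩ := w_dens hspan hW.bdd hw0 (half_pos hη0)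
  have hM0 : (0 : ℝ) < M := by exact_mod_cast hM
  have hl1 : η ≤ η1 := min_le_left _ _
  have hl2 : η ≤ η2 := min_le_right _ _
  have hup : 0 < μ.m {x | x ∈ Y ∧ 0 < u x} := by
    refine h1.trans_le (μ.m_mono fun x hx => ⟨hx.1, ?_⟩)
    have h3 := (abs_le.1 (huM x)).1
    have h4 : η1 < w0 x := hx.2
    have h5 : (M : ℝ) * η < M * w0 x := mul_lt_mul_of_pos_left (hl1.trans_lt h4) hM0
    have h6 : 0 < (M : ℝ) * η := mul_pos hM0 hη0
    linarith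
  have hun : 0 < μ.m {x | x ∈ Y ∧ u x < 0} := by
    refine h2.trans_le (μ.m_mono fun x hx => ⟨hx.1, ?_⟩)
    have h3 := (abs_le.1 (huM x)).2
    have h4 : w0 x < -η2 := hx.2
    have h5 : (M : ℝ) * w0 x < M * (-η) := mul_lt_mul_of_pos_left (by linarith) hM0
    have h6 : 0 < (M : ℝ) * η := mul_pos hM0 hη0
    show u x < 0
    linarith
  obtain ⟨z1, hz1, h1'⟩ := hP u hu hup hun
  have e1 : {x | x ∈ Y ∧ 0 < (-u) x} = {x | x ∈ Y ∧ u x < 0} := by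
    ext x
    simp
  have e2 : {x | x ∈ Y ∧ (-u) x < 0} = {x | x ∈ Y ∧ 0 < u x} := by
    ext x
    simp
  obtain ⟨z2, hz2, h2'⟩ := hP (-u) (WZ.neg_mem hu) (by rw [e1]; exact hun)
    (by rw [e2]; exact hup)
  have h2'' : ∀ ε > 0, μ.m {x | u x < 0 ∧ ε ≤ |f x - z2 x|} = 0 := by
    intro ε hε
    refine μ.m_zero_mono (Z := {x | 0 < (-u) x ∧ ε ≤ |f x - z2 x|}) (fun x hx => ?_) (h2' ε hε)
    have h3 : u x < 0 := hx.1
    refine ⟨?_, hx.2⟩
    show 0 < -(u x)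
    linarith
  have huW : u ∈ W := by
    rw [← hspan]
    exact Submodule.subset_span hu
  have hu0 : u ≠ 0 := by
    rintro rfl
    have : {x : X | x ∈ Y ∧ 0 < (0 : X → ℝ) x} = ∅ := by
      ext x
      simp
    rw [this, μ.m_empty] at hup
    exact lt_irrefl _ hup
  by_cases hz : z1 = z2
  · refine ⟨z1, hz1, fun ε hε => ?_⟩
    have h3 := μ.m_zero_union (μ.m_zero_union (h1' ε hε) (h2'' ε hε)) (m_zero_set hX μ hW huW hu0)
    refine μ.m_zero_mono (fun x hx => ?_) h3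
    have hx' : ε ≤ |f x - z1 x| := hx
    rcases lt_trichotomy (u x) 0 with h | h | h
    · exact Or.inl (Or.inr ⟨h, by rw [← hz]; exact hx'⟩)
    · exact Or.inr h
    · exact Or.inl (Or.inl ⟨h, hx'⟩)
  · exfalso
    obtain ⟨ρ, hρ, h3⟩ := glue_b hX μ hW hspan hP hu hup hun hz1 hz2 hz h1' h2''
    refine glue_c hX μ hW huW hρ h3 (hup.trans_le (μ.m_mono fun x hx => hx.2))
      (hun.trans_le (μ.m_mono fun x hx => hx.2))

end H84.PG
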