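import Pool.Agent.H84.PG.MZB

/-!
# Module RunEx: existence of runs

Take `a`, `j`, `E` from `d.eq`; by `UU_fin` there is `j₀` with `j n = j₀` for almost all `n`.
`Run.qle`, `Run.qge`: definition of `Run.q` (`sn_nonneg`).
`Run.q_neg`: off `E n` and for `n ≥ 1`, `2 c ≤ n η`: `G n x ≤ c + n u x ≤ c - n η`, so
`G n x / n ≤ c / n - η ≤ -(η / 2)`; and `η < |u x| ≤ sn u`, so `-(sn u + 1) ≤ -(η / 2)`.
-/

set_option autoImplicit false

namespace H84.PG

open Filter Topology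

variable {X A ι : Type*} [AddCommGroup X] [Group A] {d : MD X A ι} {i : ι} {u : X → ℝ}

theorem exists_run [Finite ι] (d : MD X A ι) {u : X → ℝ} (hu : u ∈ d.WZ) (h0 : u ≠ 0) (i : ι) :
    Nonempty (Run d i u) := by
  obtain ⟨a, j, E, hE, h⟩ := d.eq u hu h0 i
  obtain ⟨j₀, hj⟩ := UU_fin j
  refine ⟨⟨a, j₀, E, hE, ?_⟩⟩
  filter_upwards [h, hj] with n hn hjn x hx
  have h1 := hn x hx
  rw [hjn] at h1
  exact h1

theorem Run.q_le (R : Run d i u) (n : ℕ) (x : X) : R.q n x ≤ 0 := by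
  have h := sn_nonneg u
  exact max_le (by linarith) (min_le_right _ _)

theorem Run.q_ge (R : Run d i u) (n : ℕ) (x : X) : -(sn u + 1) ≤ R.q n x :=
  le_max_left _ _

theorem Run.q_abs (R : Run d i u) (n : ℕ) (x : X) : |R.q n x| ≤ sn u + 1 := by
  have h := sn_nonneg u
  exact abs_le.mpr ⟨R.q_ge n x, (R.q_le n x).trans (by linarith)⟩

theorem Run.q_neg (R : Run d i u) (hb : Bdd u) {η : ℝ} (hη : 0 < η) :
    ∀ᶠ n in UU, ∀ x ∉ R.E n, x ∈ d.Sg → u x < -η → R.q n x ≤ -(η / 2) := by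
  have h1 : ∀ᶠ n : ℕ in UU, 2 * d.c / η ≤ (n : ℝ) :=
    UU_le (tendsto_natCast_atTop_atTop.eventually_ge_atTop _)
  have h2 : ∀ᶠ n : ℕ in UU, 1 ≤ n := UU_le (eventually_ge_atTop 1)
  filter_upwards [R.h, h1, h2] with n hn hn1 hn2 x hx hxS hux
  have h3 : R.G n x ≤ d.c + n * u x := (hn x hx).2.1 hxS
  have hn0 : (0 : ℝ) < n := by exact_mod_cast hn2
  rw [div_le_iff₀ hη] at hn1
  have h4 : R.G n x / n ≤ -(η / 2) := by
    rw [div_le_iff₀ hn0]
    nlinarith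
  refine max_le ?_ ((min_le_left _ _).trans h4)
  have h5 := le_sn hb x
  have h6 := neg_abs_le (u x)
  linarith

theorem MD.mem_W (d : MD X A ι) {u : X → ℝ} (hu : u ∈ d.WZ) : u ∈ d.W := by
  rw [← d.span]
  exact Submodule.subset_span hu

end H84.PG
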