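import Pool.Agent.H84.PG.RunPos
import Pool.Agent.H84.PG.RunEx

/-!
# Module RunEnd: the final contradiction (VIII.12)

Take a run `R` (`exists_run`; `u ≠ 0`), `j = R.j`, `a = R.a n`, `w n ∈ W` from `hτ2`.  Let
`y n x = w n x + R.v n * z j (x + p a)`, in `W`.  `G n x = τ x + w n x + v n * (r j - τ) (x + p a)`,
so for every `ε > 0`: `|G n x - τ x - y n x| < ε` up to mean zero (`hz j` with `ε / v n`,
`Mean.m_trans`).  Let `b = m {0 < u}`; for `n` with `m {0 < u ∧ G n ≠ r i} < b / 2` (`Run.pos`):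
`|y n - z i| < 2 ε` on a set of mean `≥ b / 2`, for every `ε`: `y n = z i` (`zero_of_small`).
Let `η > 0`, `b' = m {x ∈ Sg, u x < -η} > 0` (`exists_lt_of`).  For `n` large `m (E n) < b'`, so
there is `x ∈ Sg`, `u x < -η`, `x ∉ E n`, `|G n x - τ x - z i x| < 1`: `G n x ≤ c + n u x ≤
c - n η`, but `G n x ≥ - sn τ - sn (z i) - 1`.  Contradiction for large `n`.
-/

set_option autoImplicit false

namespace H84.PG

open Filter Topology

variable {X A ι : Type*} [AddCommGroup X] [Group A]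

theorem run_end [Finite ι] (hX : AddGroup.FG X) (d : MD X A ι) {τ : X → ℝ} (hτ : Bdd τ)
    (hτ2 : ∀ a, ∃ w ∈ d.W, ∀ x, d.k a x = w x + τ x - d.nu (d.p a) * τ (x + d.p a))
    (z : ι → X → ℝ) (hzW : ∀ i, z i ∈ d.W)
    (hz : ∀ i, ∀ ε > 0, d.μ.m {x | ε ≤ |d.r i x - τ x - z i x|} = 0) (i : ι) {u : X → ℝ}
    (hu : u ∈ d.WZ) (hpos : 0 < d.μ.m {x | 0 < u x})
    (hneg : 0 < d.μ.m {x | x ∈ d.Sg ∧ u x < 0}) : False := by
  have h0 : u ≠ 0 := by
    rintro rfl
    have h1 : {x : X | (0 : ℝ) < (0 : X → ℝ) x} = ∅ := by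
      ext x
      simp
    rw [h1, d.μ.m_empty] at hpos
    exact lt_irrefl _ hpos
  obtain ⟨R⟩ := exists_run d hu h0 i
  choose w hwW hw using fun n => hτ2 (R.a n)
  let y : ℕ → X → ℝ := fun n x => w n x + R.v n * z R.j (x + d.p (R.a n))
  have hyW : ∀ n, y n ∈ d.W := by
    intro n
    have h1 : (R.v n) • (fun x => z R.j (x + d.p (R.a n))) ∈ d.W :=
      d.W.smul_mem _ (d.st.inv _ (hzW R.j) _)
    exact d.W.add_mem (hwW n) h1
  have hv : ∀ n, 0 < R.v n := fun n => d.nupos _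
  have hdiff : ∀ n x, R.G n x - τ x - y n x
      = R.v n * (d.r R.j (x + d.p (R.a n)) - τ (x + d.p (R.a n)) - z R.j (x + d.p (R.a n))) := by
    intro n x
    change d.k (R.a n) x + d.nu (d.p (R.a n)) * d.r R.j (x + d.p (R.a n)) - τ x
        - (w n x + R.v n * z R.j (x + d.p (R.a n))) = _
    rw [hw n x]
    change w n x + τ x - R.v n * τ (x + d.p (R.a n)) + R.v n * d.r R.j (x + d.p (R.a n)) - τ x
        - (w n x + R.v n * z R.j (x + d.p (R.a n))) = _
    ring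
  have hsmall : ∀ n, ∀ ε > 0, d.μ.m {x | ε ≤ |R.G n x - τ x - y n x|} = 0 := by
    intro n ε hε
    have h1 := hz R.j (ε / R.v n) (div_pos hε (hv n))
    have h2 := d.μ.m_trans {x | ε / R.v n ≤ |d.r R.j x - τ x - z R.j x|} (d.p (R.a n))
    rw [h1] at h2
    refine d.μ.m_zero_mono (fun x hx => ?_) h2
    have h3 : ε ≤ |R.G n x - τ x - y n x| := hx
    rw [hdiff n x, abs_mul, abs_of_pos (hv n)] at h3
    change ε / R.v n ≤ |d.r R.j (x + d.p (R.a n)) - τ (x + d.p (R.a n))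
      - z R.j (x + d.p (R.a n))|
    rw [div_le_iff₀ (hv n)]
    linarith
  -- `y n = z i` for almost all `n`
  have hb : 0 < d.μ.m {x | 0 < u x} / 2 := by linarith
  have hev1 : ∀ᶠ n in UU, d.μ.m {x | 0 < u x ∧ R.G n x ≠ d.r i x} < d.μ.m {x | 0 < u x} / 2 :=
    (R.pos hX hu h0).eventually (gt_mem_nhds hb)
  have hyz : ∀ n, d.μ.m {x | 0 < u x ∧ R.G n x ≠ d.r i x} < d.μ.m {x | 0 < u x} / 2 →
      y n = z i := by
    intro n hn
    have hmem : y n - z i ∈ d.W := d.W.sub_mem (hyW n) (hzW i)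
    have h1 : y n - z i = 0 := by
      refine zero_of_small hX d.μ d.st hmem hb ?_
      intro ε hε
      have h2 := hsmall n (ε / 2) (by linarith)
      have h3 := hz i (ε / 2) (by linarith)
      have h4 := d.μ.m_zero_union h2 h3
      have h5 : d.μ.m {x | 0 < u x} ≤ d.μ.m {x | 0 < u x ∧ R.G n x ≠ d.r i x}
          + (d.μ.m ({x | ε / 2 ≤ |R.G n x - τ x - y n x|} ∪
              {x | ε / 2 ≤ |d.r i x - τ x - z i x|})
            + d.μ.m {x | |(y n - z i) x| < ε}) := by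
        refine (d.μ.m_mono (fun x hx => ?_)).trans ((d.μ.m_union_le _ _).trans
          (add_le_add le_rfl (d.μ.m_union_le _ _)))
        have hx1 : 0 < u x := hx
        by_cases e1 : R.G n x = d.r i x
        · by_cases e2 : ε / 2 ≤ |R.G n x - τ x - y n x|
          · exact Or.inr (Or.inl (Or.inl e2))
          · by_cases e3 : ε / 2 ≤ |d.r i x - τ x - z i x|
            · exact Or.inr (Or.inl (Or.inr e3))
            · refine Or.inr (Or.inr ?_)
              push Not at e2 e3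
              rw [e1] at e2
              change |y n x - z i x| < ε
              rw [abs_lt] at e2 e3 ⊢
              constructor <;> linarith [e2.1, e2.2, e3.1, e3.2]
        · exact Or.inl ⟨hx1, e1⟩
      rw [h4] at h5
      linarith
    exact sub_eq_zero.mp h1
  obtain ⟨η, hη, hb'⟩ := exists_lt_of hX d.μ d.st (d.mem_W hu) hneg
  have hev2 : ∀ᶠ n in UU, d.μ.m (R.E n) < d.μ.m {x | x ∈ d.Sg ∧ u x < -η} :=
    R.hE.eventually (gt_mem_nhds hb')
  have hev3 : ∀ᶠ n : ℕ in UU, (d.c + sn τ + sn (z i) + 1) / η ≤ (n : ℝ) :=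
    UU_le (Filter.eventually_atTop.mpr ⟨⌈(d.c + sn τ + sn (z i) + 1) / η⌉₊, fun n hn =>
      (Nat.le_ceil _).trans (by exact_mod_cast hn)⟩)
  obtain ⟨n, hn1, hn2, hn3, hn4⟩ := (hev1.and (hev2.and (hev3.and R.h))).exists
  have hyn := hyz n hn1
  have hne : ∃ x, (x ∈ d.Sg ∧ u x < -η) ∧ x ∉ R.E n ∧ ¬ (1 : ℝ) ≤ |R.G n x - τ x - y n x| := by
    by_contra hcon
    push Not at hcon
    have h1 : d.μ.m {x | x ∈ d.Sg ∧ u x < -η} ≤
        d.μ.m (R.E n) + d.μ.m {x | (1 : ℝ) ≤ |R.G n x - τ x - y n x|} := by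
      refine (d.μ.m_mono (fun x hx => ?_)).trans (d.μ.m_union_le _ _)
      by_cases hE : x ∈ R.E n
      · exact Or.inl hE
      · exact Or.inr (hcon x hx hE)
    rw [hsmall n 1 one_pos] at h1
    linarith
  obtain ⟨x, ⟨hxS, hxu⟩, hxE, hx1⟩ := hne
  have h1 := (hn4 x hxE).2.1 hxS
  have h2 : R.G n x ≤ d.c + n * u x := h1
  push Not at hx1
  rw [hyn] at hx1
  have h3 := (abs_lt.mp hx1).1
  have h4 := (abs_le.mp (le_sn hτ x)).1
  have h5 := (abs_le.mp (le_sn (d.st.bdd _ (hzW i)) x)).1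
  rw [div_le_iff₀ hη] at hn3
  have h6 : (n : ℝ) * u x ≤ n * (-η) := mul_le_mul_of_nonneg_left hxu.le (Nat.cast_nonneg n)
  nlinarith

end H84.PG
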