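import Pool.Agent.H84.PG.RunLam

/-!
# Module RunNu: the scales `ν n / n` do not tend to zero if `nu` is nontrivial (VIII.7)

`nu_ne`: suppose `ν_n / n → 0`.  Take `Λ` from `Run.lam`; `nu y ≠ 1` for some `y`, a positive
multiple `j • y` lies in `Λ`, `nu (j • y) = nu y ^ j ≠ 1` (`nu > 0`); call it `y`.  By `MZ.L`
(bounded by `(nu y + 1) (sn u + 1)`) `nu y * L (q n) - L (q n) → 0` (`Mean.trans`), so
`L (q n) → 0`.  By `exists_lt_of` there is `η > 0` with `b = m {x ∈ Sg, u x < -η} > 0`;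
`Run.q_neg` and `Mean.L_lower` for `- q n ≥ 0`, with the set `{x ∈ Sg, u x < -η} \ E n` of mean
`≥ b / 2` for large `n`: `L (- q n) ≥ (η / 2) (b / 2)`.  Contradiction.
`v_top`: not tending to zero along an ultrafilter: some `ε > 0` has `ε ≤ ν_n / n` for almost all
`n` (`UU_not`, `ν_n > 0`), so `ν_n ≥ ε n → ∞` (`UU_le`).
-/

set_option autoImplicit false

namespace H84.PG

open Filter Topology

variable {X A ι : Type*} [AddCommGroup X] [Group A] {d : MD X A ι} {i : ι} {u : X → ℝ}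

theorem RunNu_zero (d : MD X A ι) : d.nu 0 = 1 := by
  have h1 := d.numul 0 0
  rw [add_zero] at h1
  have h2 := d.nupos 0
  have h3 : d.nu 0 * (d.nu 0 - 1) = 0 := by linarith
  rcases mul_eq_zero.mp h3 with h | h
  · linarith
  · linarith

theorem RunNu_nsmul (d : MD X A ι) (j : ℕ) (y : X) : d.nu (j • y) = d.nu y ^ j := by
  induction j with
  | zero => rw [zero_nsmul, pow_zero, RunNu_zero]
  | succ j ih => rw [succ_nsmul, d.numul, ih, pow_succ]

theorem Run.nu_ne (hX : AddGroup.FG X) (R : Run d i u) (hu : u ∈ d.WZ) (h0 : u ≠ 0)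
    (hnu : ∃ y, d.nu y ≠ 1) (hpos : 0 < d.μ.m {x | 0 < u x})
    (hneg : 0 < d.μ.m {x | x ∈ d.Sg ∧ u x < 0}) :
    ¬ Tendsto (fun n => R.v n / n) UU (𝓝 0) := by
  intro hv
  obtain ⟨Λ, hfi, hΛ⟩ := R.lam hX hu h0 hv hpos
  obtain ⟨y, hy⟩ := hnu
  have hb : Bdd u := d.st.bdd u (d.mem_W hu)
  obtain ⟨j, hj0, -, hjΛ⟩ := AddSubgroup.exists_nsmul_mem_of_index_ne_zero
    (H := Λ) hfi.index_ne_zero y
  set c := d.nu (j • y) with hc
  have hc0 : 0 < c := d.nupos _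
  have hc1 : c ≠ 1 := by
    rw [hc, RunNu_nsmul]
    intro h
    exact hy ((pow_eq_one_iff_of_nonneg (d.nupos y).le hj0.ne').mp h)
  have hqb : ∀ n, Bdd (R.q n) := fun n => ⟨_, R.q_abs n⟩
  have hMZ := hΛ _ hjΛ
  rw [← hc] at hMZ
  have hL := MZ.L (K := (c + 1) * (sn u + 1)) (Eventually.of_forall fun n x => by
    have h1 := R.q_abs n (x + j • y)
    have h2 := R.q_abs n x
    have h3 := abs_sub (c * R.q n (x + j • y)) (R.q n x)
    rw [abs_mul, abs_of_pos hc0] at h3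
    have h4 : c * |R.q n (x + j • y)| ≤ c * (sn u + 1) := mul_le_mul_of_nonneg_left h1 hc0.le
    linarith) hMZ
  have hLeq : ∀ n, d.μ.L (fun x => c * R.q n (x + j • y) - R.q n x) =
      (c - 1) * d.μ.L (R.q n) := by
    intro n
    have hbt : Bdd (fun x => R.q n (x + j • y)) := (hqb n).trans _
    rw [d.μ.L_sub (f := fun x => c * R.q n (x + j • y)) (g := fun x => R.q n x)
      (hbt.smul c) (hqb n), d.μ.smul c _ hbt, d.μ.trans (R.q n) _ (hqb n)]
    ring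
  have hL2 : Tendsto (fun n => d.μ.L (R.q n)) UU (𝓝 0) := by
    have h1 : Tendsto (fun n => (c - 1)⁻¹ * d.μ.L (fun x => c * R.q n (x + j • y) - R.q n x)) UU
        (𝓝 ((c - 1)⁻¹ * 0)) := hL.const_mul _
    rw [mul_zero] at h1
    refine h1.congr fun n => ?_
    rw [hLeq, ← mul_assoc, inv_mul_cancel₀ (sub_ne_zero.mpr hc1), one_mul]
  obtain ⟨η, hη, hbp⟩ := exists_lt_of hX d.μ d.st (d.mem_W hu) hneg
  set b := d.μ.m {x | x ∈ d.Sg ∧ u x < -η} with hbdef
  have hE : ∀ᶠ n in UU, d.μ.m (R.E n) < b / 2 :=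
    R.hE.eventually (gt_mem_nhds (by linarith))
  have hsmall : ∀ᶠ n in UU, -(η / 2 * (b / 2)) < d.μ.L (R.q n) :=
    hL2.eventually (lt_mem_nhds (by
      have : 0 < η / 2 * (b / 2) := by positivity
      linarith))
  obtain ⟨n, hn1, hn2, hn3⟩ := (hE.and (hsmall.and (R.q_neg hb hη))).exists
  have h1 := d.μ.m_diff {x | x ∈ d.Sg ∧ u x < -η} (R.E n)
  have h2 : η / 2 * d.μ.m ({x | x ∈ d.Sg ∧ u x < -η} \ R.E n) ≤ d.μ.L (fun x => - R.q n x) := by
    refine d.μ.L_lower (hqb n).neg (fun x => ?_) ?_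
    · have := R.q_le n x
      linarith
    · intro x hx
      have := hn3 x hx.2 hx.1.1 hx.1.2
      linarith
  rw [d.μ.L_neg (hqb n)] at h2
  have h3 : η / 2 * (b / 2) ≤ η / 2 * d.μ.m ({x | x ∈ d.Sg ∧ u x < -η} \ R.E n) := by
    apply mul_le_mul_of_nonneg_left _ (by positivity)
    linarith
  linarith

theorem Run.v_top (hX : AddGroup.FG X) (R : Run d i u) (hu : u ∈ d.WZ) (h0 : u ≠ 0)
    (hnu : ∃ y, d.nu y ≠ 1) (hpos : 0 < d.μ.m {x | 0 < u x})
    (hneg : 0 < d.μ.m {x | x ∈ d.Sg ∧ u x < 0}) : Tendsto R.v UU atTop := by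
  have hne := R.nu_ne hX hu h0 hnu hpos hneg
  have hvpos : ∀ n, 0 < R.v n := fun n => d.nupos _
  have hex : ∃ ε > 0, ∀ᶠ n in UU, ε ≤ R.v n / n := by
    by_contra hcon
    apply hne
    rw [Metric.tendsto_nhds]
    intro ε hε
    filter_upwards [UU_not (fun h => hcon ⟨ε, hε, h⟩)] with n hn
    rw [Real.dist_eq, sub_zero, abs_of_nonneg (div_nonneg (hvpos n).le (Nat.cast_nonneg n))]
    exact not_le.mp hn
  obtain ⟨ε, hε, hev⟩ := hex
  have h2 : ∀ᶠ n : ℕ in UU, 1 ≤ n := UU_le (eventually_ge_atTop 1)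
  have h3 : Tendsto (fun n : ℕ => ε * (n : ℝ)) UU atTop :=
    (tendsto_natCast_atTop_atTop.const_mul_atTop hε).mono_left UU_le
  refine tendsto_atTop_mono' UU ?_ h3
  filter_upwards [hev, h2] with n hn1 hn2
  have hn0 : (0 : ℝ) < n := by exact_mod_cast hn2
  rwa [le_div_iff₀ hn0] at hn1

end H84.PG
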