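import Pool.Agent.H84.PG.LimB
import Pool.Agent.H84.PG.RunNu
import Pool.Agent.H84.PG.RunEx

/-!
# Module RunZ: `r i - τ` is an element of `W` on `{u > 0}` (VIII.9)

Take a run `R` (`exists_run`), `R.v_top`, `R.pos`.  Apply `lim_b` with `f = r i - τ`,
`g = r j - τ` (`j = R.j`), `w n ∈ W` the function of `hτ2` for `a = R.a n`, `v = R.v`,
`y n = p (a n)`: `G n x = k a x + ν r_j (x + p a) = τ x + (w n x + v n * g (x + y n))`, so
`G n x = r i x` iff `w n x + v n * g (x + y n) = f x`.  Tightness of `f`, `g`: `d.tight` and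
`τ` bounded.
-/

set_option autoImplicit false

namespace H84.PG

open Filter Topology

variable {X A ι : Type*} [AddCommGroup X] [Group A]

private theorem RunZ_tight (d : MD X A ι) {τ : X → ℝ} (hτ : Bdd τ) (i : ι) :
    ∀ δ > 0, ∃ R : ℝ, d.μ.m {x | R < |d.r i x - τ x|} ≤ δ := by
  intro δ hδ
  obtain ⟨C, hC⟩ := hτ
  obtain ⟨R, hR⟩ := d.tight i δ hδ
  refine ⟨R + C, (d.μ.m_mono ?_).trans hR⟩
  intro x hx
  have h1 : R + C < |d.r i x - τ x| := hx
  have h2 := abs_sub (d.r i x) (τ x)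
  have h3 := hC x
  change R < |d.r i x|
  linarith

theorem run_z [Finite ι] (hX : AddGroup.FG X) (d : MD X A ι) (hnu : ∃ y, d.nu y ≠ 1)
    {τ : X → ℝ} (hτ : Bdd τ) (hτ2 : ∀ a, ∃ w ∈ d.W, ∀ x,
      d.k a x = w x + τ x - d.nu (d.p a) * τ (x + d.p a)) (i : ι) {u : X → ℝ}
    (hu : u ∈ d.WZ) (hpos : 0 < d.μ.m {x | 0 < u x})
    (hneg : 0 < d.μ.m {x | x ∈ d.Sg ∧ u x < 0}) :
    ∃ z ∈ d.W, ∀ ε > 0, d.μ.m {x | 0 < u x ∧ ε ≤ |d.r i x - τ x - z x|} = 0 := by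
  have h0 : u ≠ 0 := by
    rintro rfl
    have h1 : {x : X | (0 : ℝ) < (0 : X → ℝ) x} = ∅ := by
      ext x
      simp
    rw [h1, d.μ.m_empty] at hpos
    exact lt_irrefl _ hpos
  obtain ⟨R⟩ := exists_run d hu h0 i
  choose w hw hw2 using fun n => hτ2 (R.a n)
  refine lim_b hX d.μ d.st (f := fun x => d.r i x - τ x) (g := fun x => d.r R.j x - τ x)
    (RunZ_tight d hτ i) (RunZ_tight d hτ R.j) (d.mem_W hu) hpos hw
    (R.v_top hX hu h0 hnu hpos hneg) (fun n => d.p (R.a n)) ?_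
  have hset : ∀ n, {x | 0 < u x ∧ w n x + R.v n * (d.r R.j (x + d.p (R.a n)) -
      τ (x + d.p (R.a n))) ≠ d.r i x - τ x} = {x | 0 < u x ∧ R.G n x ≠ d.r i x} := by
    intro n
    ext x
    have h1 : R.G n x = w n x + R.v n * (d.r R.j (x + d.p (R.a n)) -
        τ (x + d.p (R.a n))) + τ x := by
      rw [Run.G, hw2 n x, Run.v]
      ring
    constructor
    · rintro ⟨ha, hb⟩
      refine ⟨ha, fun h => hb ?_⟩
      rw [h1] at h
      linarith
    · rintro ⟨ha, hb⟩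
      refine ⟨ha, fun h => hb ?_⟩
      rw [h1]
      linarith
  have h2 := R.pos hX hu h0
  simp only [hset]
  exact h2

end H84.PG
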