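import Pool.Agent.H84.PG.MZB

/-!
# Module SnCpt: bounded sequences in `W` converge along the ultrafilter

Let `b_1, ..., b_d` be a basis of `W` (`Module.finBasis`).  There are finitely many points
`x_1, ..., x_N` of `X` such that `w ↦ (w x_i)_i` is injective on `W` (choose them one by one, the
dimension of the kernel drops), or use that the norm `sn` on `W` (a norm because the functions
are bounded, `eq_zero_of_sn`) is equivalent to the norm of the coordinates (finite dimensional,
e.g. `LinearMap.continuous_of_finiteDimensional` after turning `W` into a normed space).  So the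
coordinates of `w n` are bounded, converge along `UU` (`UU_lim`), and `sn (w n - v) → 0` for the
element `v` of `W` with the limit coordinates.
-/

set_option autoImplicit false

namespace H84.PG

open Filter Topology

/-- `W` with the supremum norm (type synonym) -/
private def SnCptW {X : Type*} (W : Submodule ℝ (X → ℝ)) (_ : ∀ w ∈ W, Bdd w) : Type _ := W

section

variable {X : Type*} {W : Submodule ℝ (X → ℝ)} {hb : ∀ w ∈ W, Bdd w}

private noncomputable instance snCptAdd : AddCommGroup (SnCptW W hb) :=
  inferInstanceAs (AddCommGroup W)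

private noncomputable instance snCptMod : Module ℝ (SnCptW W hb) :=
  inferInstanceAs (Module ℝ W)

private noncomputable instance snCptNorm : Norm (SnCptW W hb) := ⟨fun w => sn (w : W).1⟩

private theorem snCpt_core : NormedSpace.Core ℝ (SnCptW W hb) where
  norm_nonneg w := sn_nonneg _
  norm_smul c w := sn_smul c _
  norm_triangle v w := sn_add_le (hb _ v.2) (hb _ w.2)
  norm_eq_zero_iff w := by
    constructor
    · intro h
      exact Subtype.ext (eq_zero_of_sn (hb _ w.2) h)
    · rintro rfl
      have h : sn (fun _ : X => (0 : ℝ)) ≤ 0 := sn_le le_rfl fun x => by simp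
      exact le_antisymm h (sn_nonneg _)

private noncomputable instance snCptNACG : NormedAddCommGroup (SnCptW W hb) :=
  NormedAddCommGroup.ofCore snCpt_core

private noncomputable instance snCptNS : NormedSpace ℝ (SnCptW W hb) :=
  NormedSpace.ofCore snCpt_core

end

theorem sn_cpt {X : Type*} {W : Submodule ℝ (X → ℝ)}
    (hfd : FiniteDimensional ℝ W) (hb : ∀ w ∈ W, Bdd w) (w : ℕ → X → ℝ) (C : ℝ)
    (hw : ∀ᶠ n in UU, w n ∈ W ∧ sn (w n) ≤ C) :
    ∃ v ∈ W, Tendsto (fun n => sn (fun x => w n x - v x)) UU (𝓝 0) := by
  classical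
  have hfd' : FiniteDimensional ℝ (SnCptW W hb) := hfd
  have hprop : ProperSpace (SnCptW W hb) := FiniteDimensional.proper_real _
  let f : ℕ → SnCptW W hb := fun n => if h : w n ∈ W then (⟨w n, h⟩ : W) else (0 : W)
  have hc : IsCompact (Metric.closedBall (0 : SnCptW W hb) C) := isCompact_closedBall _ _
  have hm : Metric.closedBall (0 : SnCptW W hb) C ∈ Ultrafilter.map f (Filter.hyperfilter ℕ) := by
    change f ⁻¹' (Metric.closedBall (0 : SnCptW W hb) C) ∈ UU
    filter_upwards [hw] with n hn
    rw [Set.mem_preimage, mem_closedBall_zero_iff]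
    have h1 : f n = (⟨w n, hn.1⟩ : W) := dif_pos hn.1
    rw [h1]
    exact hn.2
  obtain ⟨v, _, hv⟩ := hc.ultrafilter_le_nhds' _ hm
  have hv' : Tendsto f UU (𝓝 v) := hv
  refine ⟨(v : W).1, (v : W).2, ?_⟩
  have h2 := tendsto_iff_norm_sub_tendsto_zero.mp hv'
  refine h2.congr' ?_
  filter_upwards [hw] with n hn
  have h1 : f n = (⟨w n, hn.1⟩ : W) := dif_pos hn.1
  rw [h1]
  rfl

end H84.PG
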