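import Pool.Agent.H84.PG.MeanB
import Pool.Agent.H84.PG.SnCpt

/-!
# Module Tau: the coboundary part of the cocycle (VIII.8)

There is `t : A` with `nu (p t) < 1` (`nu y ≠ 1` for some `y`, take `y` or `-y`; `d.psurj`).  Let
`τ x = ∑_{j ≥ 0} nu (p t) ^ j * k t (x + j • p t)` (summable, bounded): `τ x = k t x + nu (p t) *
τ (x + p t)`.  For `a : A` let `φ x = k a x - τ x + nu (p a) * τ (x + p a)`, bounded.  By `comm`
(with `h = t`) `nu (p t) * φ (x + p t) - φ x = g x` with `g ∈ W`.  The map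
`w ↦ nu (p t) * T w - w`, `T = T_{p t}`, is injective on bounded functions
(`sn (nu (p t) T w) = nu (p t) sn w < sn w` unless `w = 0`, `sn_trans`) and maps the finite
dimensional space `W` into itself, so it is onto `W` (`LinearMap.injective_iff_surjective`):
`g = nu (p t) T w - w` with `w ∈ W`, and `φ = w` by injectivity.
-/

set_option autoImplicit false

namespace H84.PG

open Filter Topology

variable {X A : Type*} [AddCommGroup X] [Group A]

theorem Tau_nu_zero (d : MB X A) : d.nu 0 = 1 := by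
  have h := d.numul 0 0
  rw [add_zero] at h
  have h2 := d.nupos 0
  have h3 : d.nu 0 * (d.nu 0 - 1) = 0 := by linarith
  rcases mul_eq_zero.mp h3 with h4 | h4
  · exact absurd h4 h2.ne'
  · linarith

theorem Tau_lt (d : MB X A) (hnu : ∃ y, d.nu y ≠ 1) : ∃ y, d.nu y < 1 := by
  obtain ⟨y, hy⟩ := hnu
  rcases lt_or_gt_of_ne hy with h | h
  · exact ⟨y, h⟩
  · refine ⟨-y, ?_⟩
    have h1 := d.numul y (-y)
    rw [add_neg_cancel, Tau_nu_zero] at h1
    have h2 := d.nupos (-y)
    nlinarith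

theorem Tau_inj {q : ℝ} (hq0 : 0 < q) (hq1 : q < 1) {y : X} {w : X → ℝ} (hw : Bdd w)
    (h : ∀ x, q * w (x + y) - w x = 0) : w = 0 := by
  by_contra hne
  have hpos := sn_pos hw hne
  have h1 : sn (fun x => q * w (x + y)) = q * sn w := by
    rw [sn_smul q (fun x => w (x + y)), sn_trans w y, abs_of_pos hq0]
  have h2 : (fun x => q * w (x + y)) = w := by
    funext x
    linarith [h x]
  rw [h2] at h1
  nlinarith

theorem Tau_surj (d : MB X A) {y : X} (hq1 : d.nu y < 1) {g : X → ℝ} (hg : g ∈ d.W) :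
    ∃ w ∈ d.W, ∀ x, d.nu y * w (x + y) - w x = g x := by
  have hS : ∀ w ∈ d.W, (fun x => d.nu y * w (x + y) - w x) ∈ d.W := by
    intro w hw
    have h1 := d.W.smul_mem (d.nu y) (d.st.inv w hw y)
    exact d.W.sub_mem h1 hw
  let S : d.W →ₗ[ℝ] d.W :=
    { toFun := fun w => ⟨fun x => d.nu y * (w : X → ℝ) (x + y) - (w : X → ℝ) x, hS w w.2⟩
      map_add' := by
        intro v w
        apply Subtype.ext
        funext x
        simp only [Submodule.coe_add, Pi.add_apply]
        ring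
      map_smul' := by
        intro c w
        apply Subtype.ext
        funext x
        simp only [Submodule.coe_smul, Pi.smul_apply, smul_eq_mul, RingHom.id_apply]
        ring }
  have := d.st.fd
  have hinj : Function.Injective S := by
    rw [injective_iff_map_eq_zero]
    intro w hw
    apply Subtype.ext
    refine Tau_inj (d.nupos y) hq1 (y := y) (d.st.bdd w w.2) fun x => ?_
    have h1 := congrFun (congrArg Subtype.val hw) x
    exact h1
  have hsurj := LinearMap.injective_iff_surjective.mp hinj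
  obtain ⟨w, hw⟩ := hsurj ⟨g, hg⟩
  exact ⟨w, w.2, fun x => congrFun (congrArg Subtype.val hw) x⟩

theorem tau_exists (d : MB X A) (hnu : ∃ y, d.nu y ≠ 1) :
    ∃ τ : X → ℝ, Bdd τ ∧ ∀ a, ∃ w ∈ d.W, ∀ x,
      d.k a x = w x + τ x - d.nu (d.p a) * τ (x + d.p a) := by
  obtain ⟨y, hy⟩ := Tau_lt d hnu
  obtain ⟨t, rfl⟩ := d.psurj y
  set q := d.nu (d.p t) with hq
  have hq0 : 0 < q := d.nupos _
  obtain ⟨C, hC⟩ := d.kbd t
  have hbd : ∀ x (j : ℕ), ‖q ^ j * d.k t (x + j • d.p t)‖ ≤ C * q ^ j := by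
    intro x j
    rw [Real.norm_eq_abs, abs_mul, abs_of_pos (pow_pos hq0 j), mul_comm]
    exact mul_le_mul_of_nonneg_right (hC _) (pow_pos hq0 j).le
  have hgeo : HasSum (fun j : ℕ => C * q ^ j) (C * (1 - q)⁻¹) :=
    (hasSum_geometric_of_lt_one hq0.le hy).mul_left C
  have hsum : ∀ x, Summable fun j : ℕ => q ^ j * d.k t (x + j • d.p t) := fun x =>
    Summable.of_norm_bounded hgeo.summable (hbd x)
  let τ : X → ℝ := fun x => ∑' j : ℕ, q ^ j * d.k t (x + j • d.p t)
  have hτb : Bdd τ := by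
    refine ⟨C * (1 - q)⁻¹, fun x => ?_⟩
    have h1 := tsum_of_norm_bounded hgeo (hbd x)
    rwa [Real.norm_eq_abs] at h1
  have hτ : ∀ x, τ x = d.k t x + q * τ (x + d.p t) := by
    intro x
    show (∑' j : ℕ, q ^ j * d.k t (x + j • d.p t)) = d.k t x + q *
      ∑' j : ℕ, q ^ j * d.k t (x + d.p t + j • d.p t)
    rw [(hsum x).tsum_eq_zero_add, ← tsum_mul_left]
    congr 1
    · simp
    · refine tsum_congr fun j => ?_
      rw [pow_succ, succ_nsmul', ← add_assoc]
      ring
  refine ⟨τ, hτb, fun a => ?_⟩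
  obtain ⟨w, hw, hwe⟩ := Tau_surj d hy (d.comm t a)
  refine ⟨w, hw, ?_⟩
  have hφb : Bdd (fun x => d.k a x - τ x + d.nu (d.p a) * τ (x + d.p a) - w x) :=
    (((d.kbd a).sub hτb).add ((hτb.trans (d.p a)).smul (d.nu (d.p a)))).sub (d.st.bdd w hw)
  have h0 := Tau_inj hq0 hy (y := d.p t) hφb fun x => by
    have h1 := hwe x
    have h2 := hτ x
    have h3 := hτ (x + d.p a)
    have h4 : x + d.p a + d.p t = x + d.p t + d.p a := by abel
    rw [h4] at h3
    rw [← hq] at h1
    linear_combination (-1 : ℝ) * h1 + h2 - d.nu (d.p a) * h3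
  intro x
  have h5 := congrFun h0 x
  simp only [Pi.zero_apply] at h5
  linarith

end H84.PG
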