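import Pool.Agent.H84.PG.SmallCor

/-!
# Module WSign: an element of `W` that takes both signs on a set of positive mean (VIII.10)

Let `w1, w2 ∈ W` be linearly independent.  Suppose that for every `w ∈ W` one of
`m {x ∈ Y, 0 < w x}`, `m {x ∈ Y, w x < 0}` is zero.  By `m_zero_set`, for `w ≠ 0` exactly one of
them is zero and the other one is `m Y`.  Change signs so that `w1`, `w2` are positive on `Y` up
to mean zero.  Let `T = {s : ℝ | m {x ∈ Y, (w1 - s w2) x < 0} = 0}`; `0 ∈ T`; `T` is downward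
closed (up to mean zero `w2 > 0` on `Y`); it is bounded above: if `η > 0` with
`m {x ∈ Y, η < w2 x} > 0` (`exists_gt_of`) and `s η > sn w1` then `w1 - s w2 < 0` there.  Let
`s0 = sSup T`, `w = w1 - s0 w2 ≠ 0`.  If `m {x ∈ Y, 0 < w x} > 0`: `exists_gt_of` gives `η`, and
for `s > s0` close to `s0` `w1 - s w2 > 0` on `{x ∈ Y, η < w x}`, so (constant sign) `s ∈ T`,
contradiction.  If `m {x ∈ Y, w x < 0} > 0`: `exists_lt_of`, and for `s < s0` close to `s0`
`w1 - s w2 < 0` on a set of positive mean, so `s ∉ T`, contradiction.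
-/

set_option autoImplicit false

namespace H84.PG

open Filter Topology

/-- for `w ≠ 0` one of the two sets has positive mean -/
private theorem wsign_or {X : Type*} [AddCommGroup X] (hX : AddGroup.FG X) (μ : Mean X)
    {W : Submodule ℝ (X → ℝ)} (hW : Stab W) {Y : Set X} (hY : 0 < μ.m Y) {w : X → ℝ}
    (hw : w ∈ W) (h0 : w ≠ 0) :
    0 < μ.m {x | x ∈ Y ∧ 0 < w x} ∨ 0 < μ.m {x | x ∈ Y ∧ w x < 0} := by
  by_contra hcon
  push Not at hcon
  have h1 : μ.m {x | x ∈ Y ∧ 0 < w x} = 0 := le_antisymm hcon.1 (μ.m_nonneg _)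
  have h2 : μ.m {x | x ∈ Y ∧ w x < 0} = 0 := le_antisymm hcon.2 (μ.m_nonneg _)
  have h3 := m_zero_set hX μ hW hw h0
  have h4 := μ.m_zero_union (μ.m_zero_union h1 h2) h3
  have h5 : μ.m Y = 0 := by
    refine μ.m_zero_mono (fun x hx => ?_) h4
    rcases lt_trichotomy (w x) 0 with h | h | h
    · exact Or.inl (Or.inr ⟨hx, h⟩)
    · exact Or.inr h
    · exact Or.inl (Or.inl ⟨hx, h⟩)
  linarith

private theorem wsign_sign {X : Type*} [AddCommGroup X] (μ : Mean X) {Y : Set X} {w : X → ℝ}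
    (h : μ.m {x | x ∈ Y ∧ 0 < w x} = 0 ∨ μ.m {x | x ∈ Y ∧ w x < 0} = 0) :
    ∃ e : ℝ, e ≠ 0 ∧ μ.m {x | x ∈ Y ∧ (e • w) x < 0} = 0 := by
  rcases h with h | h
  · refine ⟨-1, by norm_num, ?_⟩
    refine μ.m_zero_mono (fun x hx => ?_) h
    have h1 : x ∈ Y ∧ ((-1 : ℝ) • w) x < 0 := hx
    refine ⟨h1.1, ?_⟩
    have h2 := h1.2
    simp only [Pi.smul_apply, smul_eq_mul] at h2
    linarith
  · refine ⟨1, by norm_num, ?_⟩
    refine μ.m_zero_mono (fun x hx => ?_) h
    have h1 : x ∈ Y ∧ ((1 : ℝ) • w) x < 0 := hx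
    refine ⟨h1.1, ?_⟩
    have h2 := h1.2
    simp only [Pi.smul_apply, smul_eq_mul] at h2
    linarith

theorem exists_w0 {X : Type*} [AddCommGroup X] (hX : AddGroup.FG X) (μ : Mean X)
    {W : Submodule ℝ (X → ℝ)} (hW : Stab W) (h2 : 2 ≤ Module.finrank ℝ W) {Y : Set X}
    (hY : 0 < μ.m Y) :
    ∃ w ∈ W, 0 < μ.m {x | x ∈ Y ∧ 0 < w x} ∧ 0 < μ.m {x | x ∈ Y ∧ w x < 0} := by
  by_contra hcon
  have hone : ∀ w ∈ W, μ.m {x | x ∈ Y ∧ 0 < w x} = 0 ∨ μ.m {x | x ∈ Y ∧ w x < 0} = 0 := by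
    intro w hw
    by_contra hn
    push Not at hn
    exact hcon ⟨w, hw, lt_of_le_of_ne (μ.m_nonneg _) (Ne.symm hn.1),
      lt_of_le_of_ne (μ.m_nonneg _) (Ne.symm hn.2)⟩
  have hfd := hW.fd
  -- two independent elements
  obtain ⟨v1, hv1, v2, hv2, hind⟩ : ∃ v1 ∈ W, ∃ v2 ∈ W, ∀ s t : ℝ,
      s • v1 + t • v2 = 0 → s = 0 ∧ t = 0 := by
    let b := Module.finBasis ℝ W
    let i0 : Fin (Module.finrank ℝ W) := ⟨0, by omega⟩
    let i1 : Fin (Module.finrank ℝ W) := ⟨1, by omega⟩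
    have hne : i0 ≠ i1 := by
      intro h
      have := congrArg Fin.val h
      simp [i0, i1] at this
    refine ⟨b i0, (b i0).2, b i1, (b i1).2, ?_⟩
    intro s t hst
    have hli : LinearIndependent ℝ ![b i0, b i1] := by
      have h1 : LinearIndependent ℝ (b ∘ ![i0, i1]) := by
        refine b.linearIndependent.comp _ ?_
        intro x y hxy
        fin_cases x <;> fin_cases y
        · rfl
        · exact absurd hxy hne
        · exact absurd hxy.symm hne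
        · rfl
      convert h1 using 1
      funext x
      fin_cases x <;> rfl
    rw [LinearIndependent.pair_iff] at hli
    refine hli s t ?_
    apply Subtype.ext
    simpa using hst
  -- signs
  obtain ⟨e1, he1, hp1⟩ := wsign_sign μ (hone v1 hv1)
  obtain ⟨e2, he2, hp2⟩ := wsign_sign μ (hone v2 hv2)
  set w1 : X → ℝ := e1 • v1 with hw1def
  set w2 : X → ℝ := e2 • v2 with hw2def
  have hw1 : w1 ∈ W := W.smul_mem _ hv1
  have hw2 : w2 ∈ W := W.smul_mem _ hv2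
  have hne2 : w2 ≠ 0 := by
    intro h
    have h3 := hind 0 e2 (by rw [zero_smul, zero_add]; exact h)
    exact he2 h3.2
  have hneS : ∀ s : ℝ, w1 - s • w2 ≠ 0 := by
    intro s h
    have h3 := hind e1 (-(s * e2)) (by
      rw [neg_smul, mul_smul, ← sub_eq_add_neg]
      exact h)
    exact he1 h3.1
  have hmem : ∀ s : ℝ, w1 - s • w2 ∈ W := fun s => W.sub_mem hw1 (W.smul_mem _ hw2)
  have hval : ∀ (s : ℝ) (x : X), (w1 - s • w2) x = w1 x - s * w2 x := fun s x => rfl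
  have hb1 : Bdd w1 := hW.bdd w1 hw1
  have hb2 : Bdd w2 := hW.bdd w2 hw2
  -- a positive bound for `w2`
  have hpos2 : 0 < μ.m {x | x ∈ Y ∧ 0 < w2 x} := by
    rcases wsign_or hX μ hW hY hw2 hne2 with h | h
    · exact h
    · rw [hp2] at h
      exact absurd h (lt_irrefl _)
  obtain ⟨η0, hη0, hm0⟩ := exists_gt_of hX μ hW hw2 hpos2
  let T : Set ℝ := {s | μ.m {x | x ∈ Y ∧ (w1 - s • w2) x < 0} = 0}
  have h0T : (0 : ℝ) ∈ T := by
    change μ.m {x | x ∈ Y ∧ (w1 - (0 : ℝ) • w2) x < 0} = 0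
    rw [zero_smul, sub_zero]
    exact hp1
  have hdown : ∀ s ∈ T, ∀ s' ≤ s, s' ∈ T := by
    intro s hs s' hs'
    change μ.m {x | x ∈ Y ∧ (w1 - s' • w2) x < 0} = 0
    refine μ.m_zero_mono (fun x hx => ?_) (μ.m_zero_union hs hp2)
    have hx1 : x ∈ Y ∧ (w1 - s' • w2) x < 0 := hx
    by_cases h : w2 x < 0
    · exact Or.inr ⟨hx1.1, h⟩
    · refine Or.inl ⟨hx1.1, ?_⟩
      have h3 := hx1.2
      rw [hval] at h3
      change (w1 - s • w2) x < 0
      rw [hval]
      push Not at h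
      nlinarith [mul_le_mul_of_nonneg_right hs' h]
  have hbdd : BddAbove T := by
    refine ⟨sn w1 / η0, ?_⟩
    intro s hs
    by_contra hlt
    push Not at hlt
    have hsn : sn w1 < s * η0 := by rwa [div_lt_iff₀ hη0] at hlt
    have hspos : 0 < s := lt_of_le_of_lt (div_nonneg (sn_nonneg w1) hη0.le) hlt
    have hs0 : μ.m {x | x ∈ Y ∧ (w1 - s • w2) x < 0} = 0 := hs
    have h3 : μ.m {x | x ∈ Y ∧ η0 < w2 x} ≤ μ.m {x | x ∈ Y ∧ (w1 - s • w2) x < 0} := by
      refine μ.m_mono fun x hx => ?_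
      have hx1 : x ∈ Y ∧ η0 < w2 x := hx
      refine ⟨hx1.1, ?_⟩
      rw [hval]
      have h4 : w1 x ≤ sn w1 := (le_abs_self _).trans (le_sn hb1 x)
      have h5 : s * η0 < s * w2 x := mul_lt_mul_of_pos_left hx1.2 hspos
      linarith
    rw [hs0] at h3
    linarith
  set s0 := sSup T with hs0def
  have hK : 0 < sn w2 + 1 := by have := sn_nonneg w2; linarith
  rcases wsign_or hX μ hW hY (hmem s0) (hneS s0) with hc | hc
  · obtain ⟨η, hη, hm⟩ := exists_gt_of hX μ hW (hmem s0) hc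
    set δ := η / (sn w2 + 1) with hδ
    have hδpos : 0 < δ := div_pos hη hK
    have hδm : δ * (sn w2 + 1) = η := div_mul_cancel₀ _ hK.ne'
    have hpos : 0 < μ.m {x | x ∈ Y ∧ 0 < (w1 - (s0 + δ) • w2) x} := by
      refine lt_of_lt_of_le hm (μ.m_mono fun x hx => ?_)
      have hx1 : x ∈ Y ∧ η < (w1 - s0 • w2) x := hx
      refine ⟨hx1.1, ?_⟩
      have h3 := hx1.2
      rw [hval] at h3 ⊢
      have h4 : w2 x ≤ sn w2 := (le_abs_self _).trans (le_sn hb2 x)
      nlinarith [mul_le_mul_of_nonneg_left h4 hδpos.le]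
    have hT : s0 + δ ∈ T := by
      rcases hone _ (hmem (s0 + δ)) with h | h
      · rw [h] at hpos
        exact absurd hpos (lt_irrefl _)
      · exact h
    have := le_csSup hbdd hT
    linarith
  · obtain ⟨η, hη, hm⟩ := exists_lt_of hX μ hW (hmem s0) hc
    set δ := η / (sn w2 + 1) with hδ
    have hδpos : 0 < δ := div_pos hη hK
    have hδm : δ * (sn w2 + 1) = η := div_mul_cancel₀ _ hK.ne'
    have hpos : 0 < μ.m {x | x ∈ Y ∧ (w1 - (s0 - δ) • w2) x < 0} := by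
      refine lt_of_lt_of_le hm (μ.m_mono fun x hx => ?_)
      have hx1 : x ∈ Y ∧ (w1 - s0 • w2) x < -η := hx
      refine ⟨hx1.1, ?_⟩
      have h3 := hx1.2
      rw [hval] at h3 ⊢
      have h4 : w2 x ≤ sn w2 := (le_abs_self _).trans (le_sn hb2 x)
      nlinarith [mul_le_mul_of_nonneg_left h4 hδpos.le]
    obtain ⟨t, htT, hlt⟩ := exists_lt_of_lt_csSup ⟨0, h0T⟩ (show s0 - δ < sSup T by linarith)
    have hT : s0 - δ ∈ T := hdown t htT _ hlt.le
    have hz : μ.m {x | x ∈ Y ∧ (w1 - (s0 - δ) • w2) x < 0} = 0 := hT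
    rw [hz] at hpos
    exact absurd hpos (lt_irrefl _)

end H84.PG
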