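import Pool.Agent.H84.PG.NuOne
import Pool.Agent.H84.PG.Tau
import Pool.Agent.H84.PG.RunZ
import Pool.Agent.H84.PG.WSign
import Pool.Agent.H84.PG.Glue
import Pool.Agent.H84.PG.RunEnd

/-!
# Module Meas: end of the mean argument, real version

If `nu = 1`: `nu_one_false`.  Otherwise `τ` from `tau_exists` (`d.toMB`), `w0` from `exists_w0`
with `Y = Sg`; for every `i` `glue` (with `f = r i - τ`, `hP` from `run_z`; `{x | x ∈ Sg ∧ 0 < u x} ⊆
{0 < u}`) gives `z i`.  An element `u ∈ WZ` with both signs on `Sg` is obtained from `w0` as in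
module Glue (`exists_gt_of`, `exists_lt_of`, `w_dens`).  `run_end`.
-/

set_option autoImplicit false

namespace H84.PG

open Filter Topology

variable {X A ι : Type*} [AddCommGroup X] [Group A]

theorem meas_core [Finite ι] [Nonempty ι] (hX : AddGroup.FG X) (d : MD X A ι)
    (h2 : 2 ≤ Module.finrank ℝ d.W) : False := by
  by_cases hnu : ∀ y, d.nu y = 1
  · exact nu_one_false hX d h2 hnu
  · push Not at hnu
    obtain ⟨τ, hτ, hτ2⟩ := tau_exists d.toMB hnu
    obtain ⟨w0, hw0, hp, hn⟩ := exists_w0 hX d.μ d.st h2 d.Sgpos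
    have hz : ∀ i, ∃ z ∈ d.W, ∀ ε > 0, d.μ.m {x | ε ≤ |d.r i x - τ x - z x|} = 0 := by
      intro i
      refine glue hX d.μ d.st d.span (Y := d.Sg) (f := fun x => d.r i x - τ x) ?_ hw0 hp hn
      intro u hu hpos hneg
      refine run_z hX d hnu hτ hτ2 i hu ?_ hneg
      exact lt_of_lt_of_le hpos (d.μ.m_mono fun x hx => hx.2)
    choose z hzW hzz using hz
    obtain ⟨η1, hη1, hp'⟩ := exists_gt_of hX d.μ d.st hw0 hp
    obtain ⟨η2, hη2, hn'⟩ := exists_lt_of hX d.μ d.st hw0 hn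
    obtain ⟨M, hM, u, hu, hux⟩ := w_dens d.span d.st.bdd hw0 (lt_min hη1 hη2)
    have hM' : (0 : ℝ) < M := by exact_mod_cast hM
    refine run_end hX d hτ hτ2 z hzW hzz (Classical.arbitrary ι) hu ?_ ?_
    · refine lt_of_lt_of_le hp' (d.μ.m_mono fun x hx => ?_)
      have h3 : η1 < w0 x := hx.2
      have h4 := (abs_le.1 (hux x)).1
      have h5 : (M : ℝ) * min η1 η2 ≤ M * η1 :=
        mul_le_mul_of_nonneg_left (min_le_left _ _) hM'.le
      have h6 : (M : ℝ) * η1 < M * w0 x := mul_lt_mul_of_pos_left h3 hM'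
      show 0 < u x
      linarith
    · refine lt_of_lt_of_le hn' (d.μ.m_mono fun x hx => ⟨hx.1, ?_⟩)
      have h3 : w0 x < -η2 := hx.2
      have h4 := (abs_le.1 (hux x)).2
      have h5 : (M : ℝ) * min η1 η2 ≤ M * η2 :=
        mul_le_mul_of_nonneg_left (min_le_right _ _) hM'.le
      have h6 : (M : ℝ) * w0 x < M * (-η2) := mul_lt_mul_of_pos_left h3 hM'
      show u x < 0
      linarith

end H84.PG
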