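import Pool.Agent.H84.PG.EdTight
import Pool.Agent.H84.PG.Meas

/-!
# Module EdMd: from the extended real data to the real data

`ι = {f : F // EdT d f}`, finite and nonempty (`ed_tight`).  `r f x = (rho f x).toReal`.
The set `{rho f = ⊤}` has mean zero for `f` tight.  `Sg = {x | s i x ≤ c}` for some `i` for which it has
positive mean: the union over `i` contains `{w1 ≠ 0}`, of mean one (`m_zero_set`, `d.hs`).
`eq`: for `u`, `f` take `a n`, `f' n` from `d.eq` for `w = n • u` and this `i`; for almost all `n`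
`f' n` is tight (`ed_tight_next`; for the other `n` take any element of `ι`).  Let `E n` be the
union of the tie set (`ed_tie`), `{rho f = ⊤}` and `{x | rho (f' n) (x + p (a n)) = ⊤}` (mean
zero).  Off `E n` all of `rho f x`, `rho (f' n) (x + p a)` are real and
`k + nu * r' = min (rho f x) (s i x + n u x)` in `EReal`: so it is `≤ r f x`; it is
`≤ c + n u x` if `x ∈ Sg`; and it equals `r f x` or `s i x + n u x ≥ -c + n u x`.
Take the constant of the real data `|c|`, say, such that all the inequalities hold.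
`low`: `rho f x ≥ -c`; if `rho f x = ⊤` then `toReal = 0 ≥ -|c|`.
Then `meas_core`.
-/

set_option autoImplicit false

namespace H84.PG

open Filter Topology

variable {X A F S : Type*} [AddCommGroup X] [Group A]

/-- a tight `rho f` is finite up to a set of mean zero -/
theorem EdMd_top (d : ED X A F S) {f : F} (hf : EdT d f) :
    d.μ.m {x | d.rho f x = ⊤} = 0 := by
  refine le_antisymm ?_ (d.μ.m_nonneg _)
  refine le_of_forall_pos_le_add fun δ hδ => ?_
  obtain ⟨R, hR⟩ := hf δ hδ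
  rw [zero_add]
  refine (d.μ.m_mono fun x hx => ?_).trans hR
  have h : d.rho f x = ⊤ := hx
  show (R : EReal) < d.rho f x
  rw [h]
  exact EReal.coe_lt_top R

/-- one of the functions `s i` is bounded above on a set of positive mean -/
theorem EdMd_Sg [Finite S] (hX : AddGroup.FG X) (d : ED X A F S) :
    ∃ i, 0 < d.μ.m {x | d.s i x ≤ (d.c : EReal)} := by
  classical
  by_contra hcon
  push Not at hcon
  haveI := Fintype.ofFinite S
  have h0 : ∀ i ∈ (Finset.univ : Finset S), d.μ.m {x | d.s i x ≤ (d.c : EReal)} = 0 :=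
    fun i _ => le_antisymm (hcon i) (d.μ.m_nonneg _)
  have h1 := d.μ.m_biUnion_zero Finset.univ (fun i => {x | d.s i x ≤ (d.c : EReal)}) h0
  have h2 : d.μ.m {x | d.w1 x = 0} = 0 := m_zero_set hX d.μ d.st d.hw1 d.w1ne
  have h3 := d.μ.m_zero_union h1 h2
  have h4 : d.μ.m (Set.univ : Set X) = 0 := by
    refine d.μ.m_zero_mono (fun x _ => ?_) h3
    by_cases h : d.w1 x = 0
    · exact Or.inr h
    · obtain ⟨i, hi⟩ := d.hs x h
      exact Or.inl (Set.mem_biUnion (Finset.mem_coe.mpr (Finset.mem_univ i)) hi)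
  rw [d.μ.m_univ] at h4
  exact one_ne_zero h4

theorem EdMd_low (d : ED X A F S) (f : F) (x : X) : -|d.c| ≤ (d.rho f x).toReal := by
  by_cases h : d.rho f x = ⊤
  · rw [h, EReal.toReal_top]
    linarith [abs_nonneg d.c]
  · have h1 := d.lowr f x
    have hb : d.rho f x ≠ ⊥ := fun e => by
      rw [e] at h1
      exact absurd h1 (not_le.mpr (EReal.bot_lt_coe _))
    rw [← EReal.coe_toReal h hb] at h1
    have h2 : -d.c ≤ (d.rho f x).toReal := EReal.coe_le_coe_iff.mp h1
    linarith [le_abs_self d.c]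

theorem EdMd_tight (d : ED X A F S) {f : F} (hf : EdT d f) {δ : ℝ} (hδ : 0 < δ) :
    ∃ R : ℝ, d.μ.m {x | R < |(d.rho f x).toReal|} ≤ δ := by
  obtain ⟨R0, hR0⟩ := hf δ hδ
  refine ⟨max R0 |d.c|, (d.μ.m_mono fun x hx => ?_).trans hR0⟩
  have hx1 : max R0 |d.c| < |(d.rho f x).toReal| := hx
  show (R0 : EReal) < d.rho f x
  by_cases h : d.rho f x = ⊤
  · rw [h]
    exact EReal.coe_lt_top R0
  · have h1 := d.lowr f x
    have hb : d.rho f x ≠ ⊥ := fun e => by
      rw [e] at h1
      exact absurd h1 (not_le.mpr (EReal.bot_lt_coe _))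
    have h2 := EdMd_low d f x
    rw [← EReal.coe_toReal h hb]
    refine EReal.coe_lt_coe_iff.mpr ?_
    have h3 := le_max_left R0 |d.c|
    have h4 := le_max_right R0 |d.c|
    rcases abs_cases (d.rho f x).toReal with ⟨h5, h6⟩ | ⟨h5, h6⟩
    · linarith
    · linarith

theorem EdMd_eq [Finite F] [Finite S] (hX : AddGroup.FG X) (d : ED X A F S) (i0 : S)
    {u : X → ℝ} (hu : u ∈ d.WZ) (h0 : u ≠ 0) (f : {f : F // EdT d f}) :
    ∃ (a : ℕ → A) (j : ℕ → {f : F // EdT d f}) (E : ℕ → Set X),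
    Tendsto (fun n => d.μ.m (E n)) UU (𝓝 0) ∧ ∀ᶠ n in UU, ∀ x ∉ E n,
      d.k (a n) x + d.nu (d.p (a n)) * (d.rho (j n).1 (x + d.p (a n))).toReal ≤
        (d.rho f.1 x).toReal ∧
      (x ∈ {x | d.s i0 x ≤ (d.c : EReal)} →
        d.k (a n) x + d.nu (d.p (a n)) * (d.rho (j n).1 (x + d.p (a n))).toReal ≤
        |d.c| + n * u x) ∧
      (d.k (a n) x + d.nu (d.p (a n)) * (d.rho (j n).1 (x + d.p (a n))).toReal =
        (d.rho f.1 x).toReal ∨
        -|d.c| + n * u x ≤
          d.k (a n) x + d.nu (d.p (a n)) * (d.rho (j n).1 (x + d.p (a n))).toReal) := by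
  classical
  have hex : ∀ n : ℕ, ∃ (a : A) (f' : F), ∀ x,
      (d.rho f.1 x = d.s i0 x + ((n * u x : ℝ) : EReal) ∧ d.rho f.1 x ≠ ⊤) ∨
      (d.k a x : EReal) + (d.nu (d.p a) : EReal) * d.rho f' (x + d.p a) =
        min (d.rho f.1 x) (d.s i0 x + ((n * u x : ℝ) : EReal)) := by
    intro n
    obtain ⟨a, f', h⟩ := d.eq (n • u) (AddSubgroup.nsmul_mem _ hu n) i0 f.1
    refine ⟨a, f', fun x => ?_⟩
    have h1 := h x
    have e : (n • u) x = (n : ℝ) * u x := by
      rw [Pi.smul_apply, nsmul_eq_mul]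
    rw [e] at h1
    exact h1
  choose a f' heq using hex
  have hnext := ed_tight_next hX d f.2 i0 hu h0 a f' heq
  have huW : u ∈ d.W := by
    rw [← d.span]
    exact Submodule.subset_span hu
  have htie := ed_tie hX d.μ d.st huW h0 (d.lowr f.1) (d.lows i0)
  refine ⟨a, fun n => if h : EdT d (f' n) then ⟨f' n, h⟩ else f, fun n =>
    {x | d.rho f.1 x = d.s i0 x + ((n * u x : ℝ) : EReal) ∧ d.rho f.1 x ≠ ⊤} ∪
      ({x | d.rho f.1 x = ⊤} ∪ {x | d.rho (f' n) (x + d.p (a n)) = ⊤}), ?_, ?_⟩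
  · refine squeeze_zero' (Eventually.of_forall fun n => d.μ.m_nonneg _) ?_ htie
    filter_upwards [hnext] with n hn
    have h1 : d.μ.m {x | d.rho (f' n) (x + d.p (a n)) = ⊤} = 0 := by
      have h2 := d.μ.m_trans {x | d.rho (f' n) x = ⊤} (d.p (a n))
      rw [EdMd_top d hn] at h2
      exact h2
    have h3 := d.μ.m_zero_union (EdMd_top d f.2) h1
    have h4 := d.μ.m_union_le
      {x | d.rho f.1 x = d.s i0 x + ((n * u x : ℝ) : EReal) ∧ d.rho f.1 x ≠ ⊤}
      ({x | d.rho f.1 x = ⊤} ∪ {x | d.rho (f' n) (x + d.p (a n)) = ⊤})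
    rw [h3, add_zero] at h4
    exact h4
  · filter_upwards [hnext] with n hn x hx
    have hj : (if h : EdT d (f' n) then (⟨f' n, h⟩ : {f : F // EdT d f}) else f) =
        ⟨f' n, hn⟩ := dif_pos hn
    simp only [hj]
    simp only [Set.mem_union, Set.mem_setOf_eq, not_or] at hx
    obtain ⟨hx1, hx2, hx3⟩ := hx
    have hE := (heq n x).resolve_left hx1
    have hb1 : d.rho f.1 x ≠ ⊥ := fun e => by
      have h1 := d.lowr f.1 x
      rw [e] at h1
      exact absurd h1 (not_le.mpr (EReal.bot_lt_coe _))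
    have hb2 : d.rho (f' n) (x + d.p (a n)) ≠ ⊥ := fun e => by
      have h1 := d.lowr (f' n) (x + d.p (a n))
      rw [e] at h1
      exact absurd h1 (not_le.mpr (EReal.bot_lt_coe _))
    have e1 : ((d.rho f.1 x).toReal : EReal) = d.rho f.1 x := EReal.coe_toReal hx2 hb1
    have e2 : ((d.rho (f' n) (x + d.p (a n))).toReal : EReal) =
        d.rho (f' n) (x + d.p (a n)) := EReal.coe_toReal hx3 hb2
    have hE2 : ((d.k (a n) x + d.nu (d.p (a n)) *
        (d.rho (f' n) (x + d.p (a n))).toReal : ℝ) : EReal) =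
        min (d.rho f.1 x) (d.s i0 x + ((n * u x : ℝ) : EReal)) := by
      rw [← hE, EReal.coe_add, EReal.coe_mul, e2]
    have hc1 := le_abs_self d.c
    refine ⟨?_, fun hS => ?_, ?_⟩
    · refine EReal.coe_le_coe_iff.mp ?_
      rw [hE2, e1]
      exact min_le_left _ _
    · have h5 : ((d.k (a n) x + d.nu (d.p (a n)) *
          (d.rho (f' n) (x + d.p (a n))).toReal : ℝ) : EReal) ≤
          ((d.c + n * u x : ℝ) : EReal) := by
        rw [hE2, EReal.coe_add]
        exact (min_le_right _ _).trans (add_le_add_left hS _)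
      have h6 := EReal.coe_le_coe_iff.mp h5
      linarith
    · rcases min_choice (d.rho f.1 x) (d.s i0 x + ((n * u x : ℝ) : EReal)) with h5 | h5
      · left
        refine EReal.coe_eq_coe_iff.mp ?_
        rw [hE2, h5, e1]
      · right
        have h6 : ((-d.c + n * u x : ℝ) : EReal) ≤ ((d.k (a n) x + d.nu (d.p (a n)) *
          (d.rho (f' n) (x + d.p (a n))).toReal : ℝ) : EReal) := by
          rw [hE2, h5, EReal.coe_add]
          exact add_le_add_left (d.lows i0 x) _
        have h7 := EReal.coe_le_coe_iff.mp h6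
        linarith

theorem ed_md [Finite F] [Nonempty F] [Finite S] (hX : AddGroup.FG X) (d : ED X A F S) :
    ∃ (d' : MD X A {f : F // EdT d f}), d'.W = d.W := by
  obtain ⟨i0, hi0⟩ := EdMd_Sg hX d
  exact ⟨{ d.toMB with
    r := fun f x => (d.rho f.1 x).toReal
    Sg := {x | d.s i0 x ≤ (d.c : EReal)}
    c := |d.c|
    tight := fun f δ hδ => EdMd_tight d f.2 hδ
    low := fun f x => EdMd_low d f.1 x
    Sgpos := hi0
    eq := fun u hu h0 f => EdMd_eq hX d i0 hu h0 f }, rfl⟩

theorem ed_false [Finite F] [Nonempty F] [Finite S] (hX : AddGroup.FG X) (d : ED X A F S)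
    (h2 : 2 ≤ Module.finrank ℝ d.W) : False := by
  obtain ⟨d', hd'⟩ := ed_md hX d
  obtain ⟨f, hf⟩ := ed_tight hX d
  haveI : Nonempty {f : F // EdT d f} := ⟨⟨f, hf⟩⟩
  exact meas_core hX d' (by rw [hd']; exact h2)

end H84.PG
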