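import Pool.Agent.H84.PG.N7b

/-!
# Module N7e: the main identity (VII.5)

Let `y = c * n * c⁻¹ ∈ N`.  Write `y * f = a * f' * b` (`d.cov`).
`Dx x (1, false) (y, false) = Dx x (c, false) (c n, false)` (`comp`: `c ∈ A`, so `(c, false) ~ (1, false)`
and `(y, false) = (c n c⁻¹, false) ~ (c n, false)`) `= chat c x + Dx x (1, false) (n, false)`
(`Dx_act`, `kk_ker`, `p c = 0`, `nu 0 = 1`).
`Dx x (y, false) (y f, true) = chat y x + Dx x (1, false) (f, true) = Dx x (1, false) (f, true)`:
`chat y = 0` because `g y g⁻¹ ∈ N` and `chiN` (module `CDB`: definition of `chat`).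
`Dx x (1, false) (y f, true) = Dx x (a, false) (a f', true)` (`comp` for `b ∈ B` and `a ∈ A`)
`= kk a x + nu (p a) * Dx (x + p a) (1, false) (f', true)`.
Ultrametric: for `u = Dx x (1, false) (y, false)`, `v = Dx x (y, false) (y f, true)`,
`t = Dx x (1, false) (y f, true)` any two of them have minimum at most the third, so `u ≠ v` or
`u = v = ⊤` implies `t = min u v`.
-/

set_option autoImplicit false

namespace H84.PG

open H36.PP Subgroup

variable {G X : Type*} [Group G] [AddCommGroup X]

/-- elementary consequence of the ultrametric inequality for three values -/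
theorem N7e_three {u v t : EReal} (h1 : min u v ≤ t) (h2 : min u t ≤ v) (h3 : min t v ≤ u)
    (h : u = v → u = ⊤) : t = min v u := by
  rcases lt_trichotomy u v with huv | huv | huv
  · rw [min_eq_left huv.le] at h1
    rw [min_eq_right huv.le]
    rcases h1.lt_or_eq with h4 | h4
    · exact absurd h3 (not_le.mpr (lt_min h4 huv))
    · exact h4.symm
  · have hu := h huv
    subst huv
    rw [hu] at h1 ⊢
    rw [min_self] at h1 ⊢
    exact top_le_iff.mp h1
  · rw [min_eq_right huv.le] at h1
    rw [min_eq_left huv.le]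
    rcases h1.lt_or_eq with h4 | h4
    · exact absurd h2 (not_le.mpr (lt_min huv h4))
    · exact h4.symm

theorem N7.main_id (d : N7 G X) {c n f : G} (hc : d.p c = 0) (hcA : c ∈ d.A) (hn : n ∈ d.N) :
    ∃ a ∈ d.A, ∃ f' ∈ d.F, ∀ x,
      (d.Dx x (1, false) (f, true) = d.Dx x (1, false) (n, false) + (d.chat c x : EReal) ∧
        d.Dx x (1, false) (f, true) ≠ ⊤) ∨
      (d.kk a x : EReal) + (d.nu (d.p a) : EReal) * d.Dx (x + d.p a) (1, false) (f', true) =
        min (d.Dx x (1, false) (f, true))
          (d.Dx x (1, false) (n, false) + (d.chat c x : EReal)) := by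
  have hyN : c * n * c⁻¹ ∈ d.N := d.Nn.conj_mem n hn c
  obtain ⟨a, ha, f', hf', b, hb, hcov⟩ := d.cov (c * n * c⁻¹ * f)
  refine ⟨a, ha, f', hf', fun x => ?_⟩
  have U := d.Dx_um x
  have hpy : d.p (c * n * c⁻¹) = 0 := d.pN _ hyN
  have hnu0 : ((d.nu 0 : ℝ) : EReal) = 1 := by rw [d.nu_zero]; rfl
  have compA : ∀ (g : G) (a : G), a ∈ d.A → ∀ y, d.Dx x (g * a, false) y = d.Dx x (g, false) y :=
    fun g a ha y => U.comp g false a ha y
  have compB : ∀ (g : G) (b : G), b ∈ d.B → ∀ y, d.Dx x (g * b, true) y = d.Dx x (g, true) y :=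
    fun g b hb y => U.comp g true b hb y
  -- the value `u`
  have hu : d.Dx x (1, false) (c * n * c⁻¹, false) =
      d.Dx x (1, false) (n, false) + (d.chat c x : EReal) := by
    have e1 : d.Dx x (1, false) (c * n * c⁻¹, false) = d.Dx x (c, false) (c * n, false) := by
      rw [U.symm, compA _ _ (inv_mem hcA), U.symm]
      have := compA 1 c hcA (c * n, false)
      rw [one_mul] at this
      exact this.symm
    have e2 := d.Dx_act c x (1, false) (n, false)
    simp only [ltr, mul_one] at e2
    rw [e1, e2, hc, add_zero, hnu0, one_mul, d.kk_ker hc, add_comm]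
  -- the value `v`
  have hv : d.Dx x (c * n * c⁻¹, false) (c * n * c⁻¹ * f, true) = d.Dx x (1, false) (f, true) := by
    have e2 := d.Dx_act (c * n * c⁻¹) x (1, false) (f, true)
    simp only [ltr, mul_one] at e2
    have e3 : d.chat (c * n * c⁻¹) x = 0 := by
      have hmem : d.sec x * (c * n * c⁻¹) * (d.sec x)⁻¹ ∈ d.N := d.Nn.conj_mem _ hyN _
      rw [CD.chat, d.chiN _ hmem, mul_zero]
    rw [e2, hpy, add_zero, hnu0, one_mul, d.kk_ker hpy, e3]
    simp
  -- the value `t`
  have ht : d.Dx x (1, false) (c * n * c⁻¹ * f, true) =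
      (d.kk a x : EReal) + (d.nu (d.p a) : EReal) * d.Dx (x + d.p a) (1, false) (f', true) := by
    have e2 := d.Dx_act a x (1, false) (f', true)
    simp only [ltr, mul_one] at e2
    rw [hcov, U.symm, compB _ _ hb, U.symm, ← e2]
    have := compA 1 a ha (a * f', true)
    rw [one_mul] at this
    exact this.symm
  rw [← ht, ← hu, ← hv]
  set y := c * n * c⁻¹ with hy
  have t1 := U.tri (1, false) (y, false) (y * f, true)
  have t2 := U.tri (y, false) (1, false) (y * f, true)
  have t3 := U.tri (1, false) (y * f, true) (y, false)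
  rw [U.symm (y, false) (1, false)] at t2
  rw [U.symm (y * f, true) (y, false)] at t3
  by_cases h : d.Dx x (y, false) (y * f, true) = d.Dx x (1, false) (y, false) ∧
      d.Dx x (y, false) (y * f, true) ≠ ⊤
  · exact Or.inl h
  · refine Or.inr (N7e_three t1 t2 t3 fun h1 => ?_)
    by_contra h2
    exact h ⟨h1.symm, h1 ▸ h2⟩

end H84.PG
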