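import Pool.Agent.H84.PG.N7d
import Pool.Agent.H84.PG.N7e
import Pool.Agent.H84.PG.EdMd

/-!
# Module N7f: the case `dim W ≥ 2` (IX.6)

Build `e : ED X d.A d.F d.S` (types: the subgroup `A`, the sets `F`, `S` as subtypes) with
`μ`, `W = d.W`, `WZ = d.WZ`, `p a = d.p a`, `nu`, `k a = d.kk a`, `rho f x = Dx x (1, false) (f, true)`,
`s i x = Dx x (1, false) (i, false)`.  For `i ∈ S`: `p i = 0`, so `i = n * a'` with `n ∈ N`, `a' ∈ A`
(`facA`) and `Dx x (1, false) (i, false) = Dx x (1, false) (n, false)` (`comp`).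
Fields: `st = hst`; `span` is `CD.span_WZ`; `psurj` from `pA`; `kbd = kk_bdd`; `kmul = kk_mul`;
`comm` from `kk_comm` (`chat` of the commutator is in `W`); `lowr`, `lows` from `Dx_low` (finitely
many pairs, take the maximum of the constants, and of `R₀` of `N7.short`); `w1 = chat c` with
`c ∈ B`, `p c = 0`, `chi c ≠ 0` (exists: `chine`, `facB`, `chiN`, `chimul`), `w1 ≠ 0` since
`chat c 0 = chi c` (`chat_zero`); `hs` from `N7.short`; `eq`: `w = chat c₀`, `c₀ = n₀ * c` with
`c ∈ A`, `n₀ ∈ N` (`facA`), `chat c₀ = chat c` (`chat n₀ = 0`), then `N7.main_id`.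
`F` is nonempty (`cov`).  `ed_false`.
-/

set_option autoImplicit false

namespace H84.PG

open H36.PP Subgroup

variable {G X : Type*} [Group G] [AddCommGroup X]

theorem N7f_chatN (d : N7 G X) {n : G} (hn : n ∈ d.N) (x : X) : d.chat n x = 0 := by
  unfold CD.chat
  rw [d.chiN _ (d.Nn.conj_mem n hn _), mul_zero]

theorem N7f_chat_mem (d : N7 G X) {c : G} (hc : d.p c = 0) : (fun x => d.chat c x) ∈ d.W :=
  Submodule.subset_span ⟨c, hc, rfl⟩

theorem N7f_S (d : N7 G X) {i : G} (hi : i ∈ d.S) :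
    ∃ n ∈ d.N, ∀ x, d.Dx x (1, false) (i, false) = d.Dx x (1, false) (n, false) := by
  obtain ⟨a', ha', n, hn, e⟩ := d.facA i (d.pS i hi)
  refine ⟨n, hn, fun x => ?_⟩
  have hu := d.Dx_um x
  rw [hu.symm (1, false) (i, false), hu.symm (1, false) (n, false), e]
  exact hu.comp n false a' ha' (1, false)

theorem N7f_comm (d : N7 G X) (h a : G) : d.p (h * a * h⁻¹ * a⁻¹) = 0 := by
  rw [d.pmul, d.pmul, d.pmul, d.p_inv, d.p_inv]
  abel

theorem N7f_ed (d : N7 G X) (μ : Mean X) (hst : Stab d.W) :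
    ∃ e : ED X d.A d.F d.S, e.W = d.W := by
  classical
  have : Finite d.F := d.Ffin.to_subtype
  have : Finite d.S := d.Sfin.to_subtype
  choose Mf hMf using fun f : d.F => d.Dx_low (1, false) ((f : G), true)
  choose Ms hMs using fun i : d.S => d.Dx_low (1, false) ((i : G), false)
  obtain ⟨C1, hC1⟩ := (Set.finite_range Mf).bddAbove
  obtain ⟨C2, hC2⟩ := (Set.finite_range Ms).bddAbove
  obtain ⟨c0, hc0, hc0'⟩ := d.chine
  obtain ⟨c, hcB, n, hn, hc⟩ := d.facB c0 hc0
  have hpc : d.p c = 0 := by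
    have h := hc0
    rw [hc, d.pmul, d.pN n hn, zero_add] at h
    exact h
  have hchi : d.chi c ≠ 0 := by
    have h := hc0'
    rw [hc, d.chimul n c (d.pN n hn) hpc, d.chiN n hn, zero_add] at h
    exact h
  obtain ⟨R₀, hR₀⟩ := d.short hpc hcB
  exact ⟨{
    μ := μ
    W := d.W
    WZ := d.WZ
    p := fun a => d.p a
    nu := d.nu
    k := fun a => d.kk a
    st := hst
    span := d.span_WZ
    pmul := fun a b => d.pmul a b
    psurj := fun x => by
      obtain ⟨a, ha, e⟩ := d.pA x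
      exact ⟨⟨a, ha⟩, e⟩
    nupos := d.nupos
    numul := d.numul
    kbd := fun a => d.kk_bdd a
    kmul := fun a b x => d.kk_mul a b x
    comm := fun h a => by
      have h1 := N7f_chat_mem d (N7f_comm d h a)
      have h2 : (fun x => d.nu (d.p h) * d.kk a (x + d.p h) - d.kk a x -
          (d.nu (d.p a) * d.kk h (x + d.p a) - d.kk h x)) =
          fun x => d.chat ((h : G) * a * (h : G)⁻¹ * (a : G)⁻¹) x := by
        funext x
        exact d.kk_comm h a x
      rw [h2]
      exact h1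
    rho := fun f x => d.Dx x (1, false) ((f : G), true)
    s := fun i x => d.Dx x (1, false) ((i : G), false)
    c := max (max C1 C2) R₀
    lowr := fun f x => by
      refine le_trans (EReal.coe_le_coe_iff.mpr ?_) (hMf f x)
      have h1 : Mf f ≤ C1 := hC1 ⟨f, rfl⟩
      have h2 := le_max_left C1 C2
      have h3 := le_max_left (max C1 C2) R₀
      linarith
    lows := fun i x => by
      refine le_trans (EReal.coe_le_coe_iff.mpr ?_) (hMs i x)
      have h1 : Ms i ≤ C2 := hC2 ⟨i, rfl⟩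
      have h2 := le_max_right C1 C2
      have h3 := le_max_left (max C1 C2) R₀
      linarith
    w1 := fun x => d.chat c x
    hw1 := N7f_chat_mem d hpc
    w1ne := fun e => by
      have h1 := congrFun e 0
      have h2 : d.chat c 0 = 0 := h1
      rw [d.chat_zero hpc] at h2
      exact hchi h2
    hs := fun x hx => by
      obtain ⟨s, hs, h⟩ := hR₀ x hx
      exact ⟨⟨s, hs⟩, h.trans (EReal.coe_le_coe_iff.mpr (le_max_right _ _))⟩
    eq := fun w hw i f => by
      obtain ⟨c₀, hc₀, hw⟩ := (d.mem_WZ w).mp hw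
      obtain ⟨c', hc'A, n₀, hn₀, e⟩ := d.facA c₀ hc₀
      have hpc' : d.p c' = 0 := by
        have h := hc₀
        rw [e, d.pmul, d.pN n₀ hn₀, zero_add] at h
        exact h
      obtain ⟨n', hn', hS⟩ := N7f_S d i.2
      obtain ⟨a, ha, f', hf', h⟩ := d.main_id (f := (f : G)) hpc' hc'A hn'
      refine ⟨⟨a, ha⟩, ⟨f', hf'⟩, fun x => ?_⟩
      have hwx : w x = d.chat c' x := by
        rw [hw, e, d.chat_mul (d.pN n₀ hn₀) hpc', N7f_chatN d hn₀, zero_add]
      show (d.Dx x (1, false) ((f : G), true) = d.Dx x (1, false) ((i : G), false) +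
          (w x : EReal) ∧ d.Dx x (1, false) ((f : G), true) ≠ ⊤) ∨
        (d.kk a x : EReal) + (d.nu (d.p a) : EReal) * d.Dx (x + d.p a) (1, false) (f', true) =
          min (d.Dx x (1, false) ((f : G), true)) (d.Dx x (1, false) ((i : G), false) +
          (w x : EReal))
      rw [hS x, hwx]
      exact h x }, rfl⟩

theorem N7.two_false (d : N7 G X) (hX : AddGroup.FG X) (μ : Mean X) (hst : Stab d.W)
    (h2 : 2 ≤ Module.finrank ℝ d.W) : False := by
  have : Finite d.F := d.Ffin.to_subtype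
  have : Finite d.S := d.Sfin.to_subtype
  have : Nonempty d.F := by
    obtain ⟨a, _, f, hf, _⟩ := d.cov 1
    exact ⟨⟨f, hf⟩⟩
  obtain ⟨e, he⟩ := N7f_ed d μ hst
  exact ed_false hX e (by rw [he]; exact h2)

end H84.PG
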