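import Pool.Agent.H84.PG.MDefs
import Pool.Agent.H84.PG.FiMult
import Pool.Agent.H84.PG.MeanB

/-!
# Module OneDim: the case `dim W ≤ 1` (IX.5)

Let `w ∈ W`, `w ≠ 0`; `W` is spanned by `w`, so `T_y w = λ(y) w`, `λ` multiplicative (`w ≠ 0`) and
bounded (`w` is bounded: `|λ(y)|^n |w x| ≤ C`, also for `-y`), so `λ(y) = ±1` and `λ(2 y) = 1`.  The
subgroup `{y | λ(y) = 1}` contains `2 • y` for all `y`, so it has finite index (`fi_of_mult`), and `w`
is invariant under it: constant by `Stab.const`.
-/

set_option autoImplicit false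

namespace H84.PG

open Filter Topology

theorem one_dim {X : Type*} [AddCommGroup X] (hX : AddGroup.FG X) {W : Submodule ℝ (X → ℝ)}
    (hW : Stab W) (h1 : Module.finrank ℝ W < 2) : ∀ w ∈ W, ∃ c : ℝ, ∀ x, w x = c := by
  intro w hw
  by_cases hw0 : w = 0
  · exact ⟨0, fun x => by rw [hw0]; rfl⟩
  have := hW.fd
  obtain ⟨v, hv⟩ := (finrank_le_one_iff (K := ℝ) (V := W)).1 (by omega)
  obtain ⟨a, ha⟩ := hv ⟨w, hw⟩
  have ha' : a • (v : X → ℝ) = w := congrArg Subtype.val ha
  have ha0 : a ≠ 0 := by
    rintro rfl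
    rw [zero_smul] at ha'
    exact hw0 ha'.symm
  have key : ∀ y : X, ∃ l : ℝ, ∀ x, w (x + y) = l * w x := by
    intro y
    obtain ⟨b, hb⟩ := hv ⟨_, hW.inv w hw y⟩
    have hb' : b • (v : X → ℝ) = fun x => w (x + y) := congrArg Subtype.val hb
    refine ⟨b / a, fun x => ?_⟩
    have e1 := congrFun hb' x
    have e2 := congrFun ha' x
    simp only [Pi.smul_apply, smul_eq_mul] at e1 e2
    rw [← e1, ← e2]
    field_simp
  have hpos := sn_pos (hW.bdd w hw) hw0
  have key2 : ∀ y x : X, w (x + 2 • y) = w x := by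
    intro y x
    obtain ⟨l, hl⟩ := key y
    have e1 : sn (fun x => w (x + y)) = sn (fun x => l * w x) := by
      congr 1
      funext x
      exact hl x
    rw [sn_trans, sn_smul] at e1
    have e2 : |l| = 1 := by
      have : (|l| - 1) * sn w = 0 := by linarith
      rcases mul_eq_zero.1 this with h | h
      · linarith
      · exact absurd h hpos.ne'
    have e3 : l * l = 1 := by
      have := abs_mul_abs_self l
      rw [e2] at this
      linarith
    rw [two_smul, ← add_assoc, hl, hl, ← mul_assoc, e3, one_mul]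
  let Λ : AddSubgroup X :=
    { carrier := {y | ∀ x, w (x + y) = w x}
      add_mem' := by
        intro y z hy hz x
        rw [← add_assoc, hz, hy]
      zero_mem' := by intro x; rw [add_zero]
      neg_mem' := by
        intro y hy x
        have := hy (x + -y)
        rw [neg_add_cancel_right] at this
        exact this.symm }
  have hfi : Λ.FiniteIndex := fi_of_mult hX Λ fun y => ⟨2, by norm_num, fun x => key2 y x⟩
  exact hW.const Λ hfi w hw fun y hy x => hy x

end H84.PG
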