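import Pool.Agent.H84.PG.FiMult
import Pool.Agent.H84.PG.MeanB

/-!
# Module StabEx: passing to a subgroup of finite index makes `W` stable (IX.4)

For a subgroup `Λ` of finite index let `W|Λ` be the image of `W` under restriction.  Choose `Λ₀` of
finite index with `dim W|Λ₀` minimal and let `Λ = {2 • y | y ∈ Λ₀}` (finite index, `fi_of_mult`:
every `y` has a multiple in `Λ₀`, twice it is in `Λ`).
(*) if `M ≤ Λ₀` has finite index in `X`, `w ∈ W` and `w = 0` on `M`, then `w = 0` on `Λ₀`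
(`W|Λ₀ → W|M` is onto and the dimensions are equal, so it is injective).
`fd`, `bdd`, `inv` are clear.  `zero`: (*) for the image of the subgroup in `X`.
`const`: let `M ≤ Λ` have finite index, `w ∈ W`, `w (x + y) = w x` for `x ∈ Λ`, `y ∈ M`.  For
`y ∈ M`: `T_y w - w ∈ W` vanishes on `Λ`, so on `Λ₀` by (*).  If `w = 0` on `Λ₀` done.  Otherwise
`w z ≠ 0` for some `z ∈ Λ₀`; `v = T_z w ∈ W`, `v 0 ≠ 0`, `v (x + y) = v x` for `x ∈ Λ₀`, `y ∈ M`.  For
`y ∈ Λ₀` `v 0 • T_y v - v y • v ∈ W` vanishes on `M`, so on `Λ₀`: `v (x + y) = λ(y) v x` for all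
`x, y ∈ Λ₀`, `λ(y) = v y / v 0`.  `λ` is multiplicative on `Λ₀` and bounded, so `|λ(y)| = 1`, and
`λ(2 y) = λ(y) ^ 2 = 1`.  So `v (x + y) = v x` for `x ∈ Λ₀`, `y ∈ Λ`; `w x = v (x - z)`, constant
on `Λ`: `w x = v (-z)` for `x ∈ Λ`.
-/

set_option autoImplicit false

namespace H84.PG

open Filter Topology

private theorem StabEx_fin {X : Type*} [AddCommGroup X] (M : AddSubgroup X) (hM : M.FiniteIndex)
    (y : X) : ∃ n : ℕ, 0 < n ∧ n • y ∈ M := by
  obtain ⟨n, hn, -, h⟩ := AddSubgroup.exists_nsmul_mem_of_index_ne_zero hM.index_ne_zero y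
  exact ⟨n, hn, h⟩

private theorem StabEx_rank {X : Type*} [AddCommGroup X] (W : Submodule ℝ (X → ℝ))
    (hfd : FiniteDimensional ℝ W) (M : AddSubgroup X) :
    Module.finrank ℝ (W.map (LinearMap.funLeft ℝ ℝ (Subtype.val : M → X))) +
      Module.finrank ℝ (LinearMap.ker
        ((LinearMap.funLeft ℝ ℝ (Subtype.val : M → X)).domRestrict W)) = Module.finrank ℝ W := by
  have h := LinearMap.finrank_range_add_finrank_ker
    ((LinearMap.funLeft ℝ ℝ (Subtype.val : M → X)).domRestrict W)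
  rw [LinearMap.range_domRestrict] at h
  exact h

private theorem StabEx_min {X : Type*} [AddCommGroup X] (W : Submodule ℝ (X → ℝ))
    (hfd : FiniteDimensional ℝ W) :
    ∃ Λ₀ : AddSubgroup X, Λ₀.FiniteIndex ∧ ∀ M : AddSubgroup X, M.FiniteIndex → M ≤ Λ₀ →
      ∀ w ∈ W, (∀ x ∈ M, w x = 0) → ∀ x ∈ Λ₀, w x = 0 := by
  classical
  have hex : ∃ n : ℕ, ∃ M : AddSubgroup X, M.FiniteIndex ∧
      Module.finrank ℝ (W.map (LinearMap.funLeft ℝ ℝ (Subtype.val : M → X))) = n :=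
    ⟨_, ⊤, inferInstance, rfl⟩
  obtain ⟨Λ₀, hΛ₀, hmin⟩ := Nat.find_spec hex
  refine ⟨Λ₀, hΛ₀, ?_⟩
  intro M hM hle w hw h0
  have h1 : Nat.find hex ≤
      Module.finrank ℝ (W.map (LinearMap.funLeft ℝ ℝ (Subtype.val : M → X))) :=
    Nat.find_min' hex ⟨M, hM, rfl⟩
  have e1 := StabEx_rank W hfd Λ₀
  have e2 := StabEx_rank W hfd M
  have hker : LinearMap.ker ((LinearMap.funLeft ℝ ℝ (Subtype.val : Λ₀ → X)).domRestrict W) ≤
      LinearMap.ker ((LinearMap.funLeft ℝ ℝ (Subtype.val : M → X)).domRestrict W) := by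
    intro f hf
    rw [LinearMap.mem_ker] at hf ⊢
    funext x
    exact congrFun hf ⟨x.1, hle x.2⟩
  have heq := Submodule.eq_of_le_of_finrank_le hker (by omega)
  have hmem : (⟨w, hw⟩ : W) ∈
      LinearMap.ker ((LinearMap.funLeft ℝ ℝ (Subtype.val : M → X)).domRestrict W) := by
    rw [LinearMap.mem_ker]
    funext x
    exact h0 x.1 x.2
  rw [← heq, LinearMap.mem_ker] at hmem
  intro x hx
  exact congrFun hmem ⟨x, hx⟩

/-- bounded multiplicative functions have absolute value one -/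
private theorem StabEx_mult {X : Type*} [AddCommGroup X] (Λ₀ : AddSubgroup X) (v : X → ℝ)
    (hb : Bdd v) (h0 : v 0 ≠ 0)
    (hm : ∀ x ∈ Λ₀, ∀ y ∈ Λ₀, v 0 * v (x + y) = v y * v x) (y : X) (hy : y ∈ Λ₀) :
    v (2 • y) = v 0 := by
  obtain ⟨C, hC⟩ := hb
  set l : X → ℝ := fun x => v x / v 0 with hl
  have hl0 : l 0 = 1 := div_self h0
  have hlm : ∀ x ∈ Λ₀, ∀ y ∈ Λ₀, l (x + y) = l x * l y := by
    intro x hx y hy
    have h := hm x hx y hy
    simp only [hl]
    field_simp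
    linarith
  have hpow : ∀ x ∈ Λ₀, ∀ n : ℕ, l (n • x) = l x ^ n := by
    intro x hx n
    induction n with
    | zero => rw [zero_smul, hl0, pow_zero]
    | succ n ih =>
      rw [succ_nsmul, hlm _ (AddSubgroup.nsmul_mem _ hx n) _ hx, ih, pow_succ]
  have hle : ∀ x ∈ Λ₀, |l x| ≤ 1 := by
    intro x hx
    by_contra hlt
    rw [not_le] at hlt
    obtain ⟨n, hn⟩ := pow_unbounded_of_one_lt (C / |v 0|) hlt
    rw [← abs_pow, ← hpow x hx n] at hn
    simp only [hl] at hn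
    rw [abs_div] at hn
    have h1 : |v (n • x)| / |v 0| ≤ C / |v 0| :=
      div_le_div_of_nonneg_right (hC _) (abs_nonneg _)
    linarith
  have h1 := hle y hy
  have h2 := hle (-y) (Λ₀.neg_mem hy)
  have h3 : l y * l (-y) = 1 := by
    rw [← hlm y hy (-y) (Λ₀.neg_mem hy), add_neg_cancel, hl0]
  have h4 : |l y| * |l (-y)| = 1 := by rw [← abs_mul, h3, abs_one]
  have h5 : 1 ≤ |l y| := by
    have h6 : |l y| * |l (-y)| ≤ |l y| * 1 := mul_le_mul_of_nonneg_left h2 (abs_nonneg _)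
    linarith
  have h6 : |l y| = 1 := le_antisymm h1 h5
  have h7 : l (2 • y) = 1 := by
    rw [hpow y hy 2, ← sq_abs, h6, one_pow]
  simp only [hl] at h7
  rwa [div_eq_one_iff_eq h0] at h7

theorem stab_exists {X : Type*} [AddCommGroup X] (hX : AddGroup.FG X)
    (W : Submodule ℝ (X → ℝ)) (hfd : FiniteDimensional ℝ W) (hb : ∀ w ∈ W, Bdd w)
    (hinv : ∀ w ∈ W, ∀ y, (fun x => w (x + y)) ∈ W) :
    ∃ Λ : AddSubgroup X, Λ.FiniteIndex ∧
      Stab (W.map (LinearMap.funLeft ℝ ℝ (Subtype.val : Λ → X))) := by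
  obtain ⟨Λ₀, hΛ₀, hstar⟩ := StabEx_min W hfd
  set Λ : AddSubgroup X := Λ₀.map (nsmulAddMonoidHom 2) with hΛdef
  have hle : Λ ≤ Λ₀ := by
    rintro _ ⟨y, hy, rfl⟩
    exact AddSubgroup.nsmul_mem _ hy 2
  have hΛ : Λ.FiniteIndex := by
    refine fi_of_mult hX Λ fun y => ?_
    obtain ⟨n, hn, h⟩ := StabEx_fin Λ₀ hΛ₀ y
    refine ⟨2 * n, by omega, ⟨n • y, h, ?_⟩⟩
    change 2 • n • y = (2 * n) • y
    rw [mul_smul]
  have hsub : ∀ Λ' : AddSubgroup Λ, Λ'.FiniteIndex → (Λ'.map Λ.subtype).FiniteIndex := by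
    intro Λ' hΛ'
    refine fi_of_mult hX _ fun y => ?_
    obtain ⟨n, hn, h⟩ := StabEx_fin Λ hΛ y
    obtain ⟨m, hm, h'⟩ := StabEx_fin Λ' hΛ' ⟨n • y, h⟩
    refine ⟨m * n, Nat.mul_pos hm hn, ⟨m • ⟨n • y, h⟩, h', ?_⟩⟩
    simp [mul_smul]
  have hsub' : ∀ Λ' : AddSubgroup Λ, Λ'.map Λ.subtype ≤ Λ := by
    rintro Λ' _ ⟨y, -, rfl⟩
    exact y.2
  refine ⟨Λ, hΛ, ?_, ?_, ?_, ?_, ?_⟩
  · infer_instance
  · rintro _ ⟨w, hw, rfl⟩
    exact (hb w hw).comp _
  · rintro _ ⟨w, hw, rfl⟩ y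
    exact ⟨fun x => w (x + y), hinv w hw y, rfl⟩
  · rintro Λ' hΛ' _ ⟨w, hw, rfl⟩ h0
    have h1 := hstar _ (hsub Λ' hΛ') ((hsub' Λ').trans hle) w hw (by
      rintro _ ⟨x, hx, rfl⟩
      exact h0 x hx)
    funext x
    exact h1 x.1 (hle x.2)
  · rintro Λ' hΛ' _ ⟨w, hw, rfl⟩ h0
    set M := Λ'.map Λ.subtype with hM
    -- periodicity on `Λ₀`
    have hper : ∀ y ∈ M, ∀ x ∈ Λ₀, w (x + y) = w x := by
      rintro _ ⟨y, hy, rfl⟩ x hx
      have hmem : (fun x => w (x + (y : X)) - w x) ∈ W :=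
        W.sub_mem (hinv w hw y) hw
      have h1 := hstar Λ hΛ hle _ hmem (by
        intro x hx
        have h2 := h0 y hy ⟨x, hx⟩
        have h3 : w (x + (y : X)) = w x := h2
        change w (x + (y : X)) - w x = 0
        linarith) x hx
      have h2 : w (x + (y : X)) - w x = 0 := h1
      change w (x + (y : X)) = w x
      linarith
    by_cases hz : ∀ x ∈ Λ₀, w x = 0
    · exact ⟨0, fun x => hz x.1 (hle x.2)⟩
    · push Not at hz
      obtain ⟨z, hz, hwz⟩ := hz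
      set v : X → ℝ := fun x => w (x + z) with hv
      have hvW : v ∈ W := hinv w hw z
      have hv0 : v 0 ≠ 0 := by
        simp only [hv, zero_add]
        exact hwz
      have hvper : ∀ y ∈ M, ∀ x ∈ Λ₀, v (x + y) = v x := by
        intro y hy x hx
        simp only [hv]
        rw [add_right_comm]
        exact hper y hy _ (Λ₀.add_mem hx hz)
      have hmul : ∀ x ∈ Λ₀, ∀ y ∈ Λ₀, v 0 * v (x + y) = v y * v x := by
        intro x hx y hy
        have hmem : (fun x => v 0 * v (x + y) - v y * v x) ∈ W :=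
          W.sub_mem (W.smul_mem (v 0) (hinv v hvW y)) (W.smul_mem (v y) hvW)
        have h1 := hstar M (hsub Λ' hΛ') ((hsub' Λ').trans hle) _ hmem (by
          intro m hm
          have h2 : v (m + y) = v y := by
            rw [add_comm]
            exact hvper m hm y hy
          have h3 : v m = v 0 := by
            have := hvper m hm 0 Λ₀.zero_mem
            rwa [zero_add] at this
          change v 0 * v (m + y) - v y * v m = 0
          rw [h2, h3]
          ring) x hx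
        have h2 : v 0 * v (x + y) - v y * v x = 0 := h1
        linarith
      have hone := StabEx_mult Λ₀ v (hb v hvW) hv0 hmul
      refine ⟨v (-z), fun x => ?_⟩
      obtain ⟨y, hy, hyx⟩ := x.2
      have hyx' : 2 • y = (x : X) := hyx
      have h1 : v (x : X) = v 0 := by
        rw [← hyx']
        exact hone y hy
      have h2 := hmul (-z) (Λ₀.neg_mem hz) x (hle x.2)
      rw [h1] at h2
      have h3 : v (-z + (x : X)) = v (-z) := mul_left_cancel₀ hv0 h2
      have h4 : v (-z + (x : X)) = w x := by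
        simp only [hv]
        congr 1
        abel
      change w x = v (-z)
      rw [← h4, h3]

end H84.PG
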