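import Pool.Agent.H84.PG.N7Ex
import Pool.Agent.H84.PG.CdEx
import Pool.Agent.H84.PG.StabEx
import Pool.Agent.H84.PG.OneDim
import Pool.Agent.H84.PG.DistCase
import Pool.Agent.H84.PG.MeanFG
import Pool.Agent.H84.PG.N7f

/-!
# Module CharGood: characters of `C` that kill `N` are good (IX.4 - IX.6)

Suppose `χ` is not good.  `cd_exists` (`h.groupFG`): `X`, `d`.  `stab_exists` for `d.W` (`CD.W_fd` with the
finite generating set `S` of `C = ker p`, `CD.W_bdd`, `CD.W_inv`): `Λ`.  `n7_exists`: `n`, with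
`n.toCD = d.res Λ`, so `n.W = (d.res Λ).W` is stable (`CD.res_W`).  `Λ` is finitely generated (finite
index in a finitely generated abelian group).  If `2 ≤ finrank n.W`: `N7.two_false` (`mean_exists_fg`).
Otherwise every `chat c` is constant (`one_dim`), equal to its value `chi c` at `0` (`CD.chat_zero`).
If `nu x ≠ 1` for some `x ∈ Λ`: `N7.one_false`.  Otherwise `chi (g c g⁻¹) = nu (p g) * chat c (p g) =
chi c` for `g ∈ G2 = d.pre Λ` (`CD.chat_spec`).  `⁅G2, G2⁆ ⊔ N` has finite index in `C` (`hfi`), `chi` is not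
zero on `C`, so it is not zero on this subgroup; it is zero on `N`, so `chi [x, y] ≠ 0` for some
`x, y ∈ G2` (the commutators generate `⁅G2, G2⁆`).  `dist_case` (for `chi` on `C`, with `G2`): `Good`,
contradiction.
-/

set_option autoImplicit false

namespace H84.PG

universe u

open H36.PP Subgroup

theorem char_good {G : Type u} [Group G] {A B C N : Subgroup G} [C.Normal] [N.Normal]
    (h : MinD G A B) (hA : A ⊔ N = ⊤) (hB : B ⊔ N = ⊤) (hNC : N ≤ C) (hC : C.FG)
    (hcomm : ∀ x y : G, x * y * x⁻¹ * y⁻¹ ∈ C)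
    (hfi : ∀ G' : Subgroup G, G'.FiniteIndex → (⁅G', G'⁆ ⊔ N).relIndex C ≠ 0)
    (S : Set C) (hf : S.Finite) (hS : closure S = ⊤) (χ : C → ℝ) (hχ : IsChar χ)
    (hk : ∀ n : C, (n : G) ∈ N → χ n = 0) (hne : ∃ c, χ c ≠ 0) : Good χ S := by
  by_contra hbad
  obtain ⟨X, instX, d, hX, hd, hdN, hdne, hdbad⟩ :=
    cd_exists h.groupFG C N hC hcomm hNC S hf hS χ hχ hk hne hbad
  have hfd : FiniteDimensional ℝ d.W := by
    refine d.W_fd (S := C.subtype '' S) (hf.image _) ?_ ?_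
    · rintro _ ⟨s, hs, rfl⟩
      exact (hd _).2 s.2
    · intro c hc
      rw [← MonoidHom.map_closure, hS]
      exact ⟨⟨c, (hd c).1 hc⟩, Subgroup.mem_top _, rfl⟩
  obtain ⟨Λ, hΛ, hst⟩ := stab_exists hX d.W hfd d.W_bdd d.W_inv
  obtain ⟨n, hn, hmin⟩ := n7_exists h hA hB hNC d hd hdN hdne S hf hS hdbad Λ hΛ
  have hst' : Stab n.W := by
    rw [hn, d.res_W]
    exact hst
  have hΛfg : AddGroup.FG Λ := by
    have h1 : Module.Finite ℤ X := Module.Finite.iff_addGroup_fg.2 hX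
    have h2 : Module.Finite ℤ (AddSubgroup.toIntSubmodule Λ) := inferInstance
    exact Module.Finite.iff_addGroup_fg.1 h2
  by_cases h2 : 2 ≤ Module.finrank ℝ n.W
  · obtain ⟨μ⟩ := mean_exists_fg hΛfg
    exact n.two_false hΛfg μ hst' h2
  have hone := one_dim hΛfg hst' (by omega)
  have hch : ∀ c, n.p c = 0 → ∀ x, n.chat c x = n.chi c := by
    intro c hc x
    obtain ⟨k, hk⟩ := hone _ (Submodule.subset_span ⟨c, hc, rfl⟩)
    rw [← n.chat_zero hc, hk x, hk 0]
  by_cases hnu : ∃ x, n.nu x ≠ 1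
  · exact n.one_false hΛfg hmin hst' hch hnu
  push Not at hnu
  have hnu' : ∀ x, (d.res Λ).nu x = 1 := by
    rw [← hn]
    exact hnu
  have hch' : ∀ c, (d.res Λ).p c = 0 → ∀ x, (d.res Λ).chat c x = (d.res Λ).chi c := by
    rw [← hn]
    exact hch
  have hinv : ∀ g ∈ d.pre Λ, ∀ c, d.p c = 0 → d.chi (g * c * g⁻¹) = d.chi c := by
    intro g hg c hc
    have hcm : c ∈ d.pre Λ := by
      change d.p c ∈ Λ
      rw [hc]
      exact Λ.zero_mem
    have hc' : (d.res Λ).p ⟨c, hcm⟩ = 0 := Subtype.ext hc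
    have h3 := (d.res Λ).chat_spec ⟨g, hg⟩ hc'
    rw [hnu', one_mul, hch' _ hc'] at h3
    exact h3
  have hchar : IsChar (fun c : C => d.chi c) := by
    intro a b
    exact d.chimul a b ((hd _).2 a.2) ((hd _).2 b.2)
  obtain ⟨x, hx, y, hy, hxy⟩ : ∃ x ∈ d.pre Λ, ∃ y ∈ d.pre Λ,
      d.chi (x * y * x⁻¹ * y⁻¹) ≠ 0 := by
    by_contra hcon
    push Not at hcon
    let K : Subgroup G :=
      { carrier := {g | d.p g = 0 ∧ d.chi g = 0}
        mul_mem' := by
          rintro a b ⟨ha, ha'⟩ ⟨hb, hb'⟩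
          exact ⟨by rw [d.pmul, ha, hb, add_zero], by rw [d.chimul _ _ ha hb, ha', hb', add_zero]⟩
        one_mem' := ⟨d.p_one, d.chi_one⟩
        inv_mem' := by
          rintro a ⟨ha, ha'⟩
          exact ⟨by rw [d.p_inv, ha, neg_zero], by rw [d.chi_inv ha, ha', neg_zero]⟩ }
    have h1 : ⁅d.pre Λ, d.pre Λ⁆ ≤ K := by
      rw [Subgroup.commutator_le]
      intro a ha b hb
      refine ⟨?_, ?_⟩
      · rw [commutatorElement_def, d.pmul, d.pmul, d.pmul, d.p_inv, d.p_inv]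
        abel
      · rw [commutatorElement_def]
        exact hcon a ha b hb
    have h2 : N ≤ K := fun a ha => ⟨(hd a).2 (hNC ha), hdN a ha⟩
    have h3 : K.relIndex C ≠ 0 := fun h0 => hfi _ (d.pre_fi Λ hΛ)
      (Nat.eq_zero_of_zero_dvd (h0 ▸ Subgroup.relIndex_dvd_of_le_left C (sup_le h1 h2)))
    obtain ⟨c, hc, hc'⟩ := hdne
    obtain ⟨k, hk0, -, hk1⟩ := Subgroup.exists_pow_mem_of_relIndex_ne_zero h3 hc
    have h4 : d.chi (c ^ k) = 0 := hk1.1.2
    have h5 : ∀ m : ℕ, d.chi (c ^ m) = m * d.chi c := by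
      intro m
      induction m with
      | zero => simp [d.chi_one]
      | succ m ih =>
        have hcm : d.p (c ^ m) = 0 := (hd _).2 (C.pow_mem hc m)
        rw [pow_succ, d.chimul _ _ hcm ((hd c).2 hc), ih]
        push_cast
        ring
    rw [h5] at h4
    rcases mul_eq_zero.1 h4 with h6 | h6
    · exact hk0.ne' (by exact_mod_cast h6)
    · exact hc' h6
  exact hdbad (dist_case C hcomm (d.pre Λ) S hf hS (fun c : C => d.chi c) hchar
    (fun g hg c => hinv g hg c ((hd _).2 c.2)) x y hx hy hxy)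

end H84.PG
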