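import Pool.Agent.H84.PG.DepDefs

/-!
# Module DepConn: connection of lines at a level

Let `P = A.comap j`, `Q = B.comap j`; `side A B false = A`, `side A B true = B` (`rfl`).
* `VConn` is symmetric (`VStep` is: the inverse of an element of `P`), transitive; a path from `x`
  to `y` at level `r` with `r ≤ χ x` has `r ≤ χ y`.
* every line has points of arbitrarily large character (`trace_high`): for `(g, false)`
  `g = j c * a`, so `g⁻¹ * j c = a⁻¹ ∈ A`, and `c * c₁ ^ n` (`j c₁ ∈ A`, `χ c₁ ≠ 0`, `n : ℤ`) is in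
  the trace and `χ (c * c₁ ^ n) = χ c + n χ c₁`.
* two points `x`, `y` of the trace of the same line satisfy `x⁻¹ * y ∈ P` or `∈ Q`
  (`trace_adj`), so they are adjacent at every level `≤ χ x, χ y`.
* `refl`: `trace_high`.  `trans`: join the end point of the first path and the starting point of
  the second one by `trace_adj`.  `mono`: levels decrease.
* `some`: `S` generates `C`: any two elements of `C` are joined by a finite path of `S`-steps
  (`closure_induction` on `x⁻¹ * y`), at the level of the minimum of `χ` on it.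
* `translate`: multiply the path by `c` from the left: `χ (c * x) = χ c + χ x`.
* `comp`: `(g * a)⁻¹ * j x = a⁻¹ * (g⁻¹ * j x)`.
-/

set_option autoImplicit false

namespace H84.PG

open H36.PP Subgroup

variable {C G : Type*} [Group C] [Group G] {j : C →* G} {A B : Subgroup G} {χ : C → ℝ} {S : Set C}

theorem DepConn_step_symm {P Q : Subgroup C} {r : ℝ} {x y : C} (h : VStep χ P Q S r x y) :
    VStep χ P Q S r y x := by
  obtain ⟨h1, h2, h3⟩ := h
  have e : y⁻¹ * x = (x⁻¹ * y)⁻¹ := by group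
  refine ⟨h2, h1, ?_⟩
  rcases h3 with h3 | h3 | h3 | h3
  · left
    rw [e]
    exact P.inv_mem h3
  · right; left
    rw [e]
    exact Q.inv_mem h3
  · right; right; right
    exact h3
  · right; right; left
    exact h3

theorem DepConn_symm {P Q : Subgroup C} {r : ℝ} {x y : C} (h : VConn χ P Q S r x y) :
    VConn χ P Q S r y x := by
  unfold VConn at h ⊢
  induction h with
  | refl => exact Relation.ReflTransGen.refl
  | tail _ h2 ih => exact Relation.ReflTransGen.head (DepConn_step_symm h2) ih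

theorem DepConn_end {P Q : Subgroup C} {r : ℝ} {x y : C} (h : VConn χ P Q S r x y)
    (hx : r ≤ χ x) : r ≤ χ y := by
  unfold VConn at h
  induction h with
  | refl => exact hx
  | tail _ h2 _ => exact h2.2.1

theorem DepConn_mono {P Q : Subgroup C} {r r' : ℝ} (hr : r' ≤ r) {x y : C}
    (h : VConn χ P Q S r x y) : VConn χ P Q S r' x y := by
  unfold VConn at h ⊢
  induction h with
  | refl => exact Relation.ReflTransGen.refl
  | tail _ h2 ih => exact ih.tail ⟨hr.trans h2.1, hr.trans h2.2.1, h2.2.2⟩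

theorem DepConn_cover (h : DepH j A B χ S) (s : Bool) (g : G) :
    ∃ c : C, ∃ a ∈ side A B s, g = j c * a := by
  cases s
  · exact h.cA g
  · exact h.cB g

theorem DepConn_pos (h : DepH j A B χ S) (s : Bool) :
    ∃ c : C, j c ∈ side A B s ∧ 0 < χ c := by
  have h1 : ∃ c : C, j c ∈ side A B s ∧ χ c ≠ 0 := by
    cases s
    · exact h.nA
    · exact h.nB
  obtain ⟨c, hc, hc0⟩ := h1
  rcases lt_or_gt_of_ne hc0 with h2 | h2
  · refine ⟨c⁻¹, ?_, ?_⟩
    · rw [map_inv]
      exact (side A B s).inv_mem hc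
    · rw [h.hχ.inv]
      linarith
  · exact ⟨c, hc, h2⟩

/-- every line has points of arbitrarily large character -/
theorem DepConn_high (h : DepH j A B χ S) (l : G × Bool) (r : ℝ) :
    ∃ x : C, l.1⁻¹ * j x ∈ side A B l.2 ∧ r ≤ χ x := by
  obtain ⟨c, a, ha, hg⟩ := DepConn_cover h l.2 l.1
  obtain ⟨c₁, hc₁, hpos⟩ := DepConn_pos h l.2
  obtain ⟨n, hn⟩ := exists_nat_ge ((r - χ c) / χ c₁)
  refine ⟨c * c₁ ^ n, ?_, ?_⟩
  · have e : l.1⁻¹ * j (c * c₁ ^ n) = a⁻¹ * (j c₁) ^ n := by
      rw [hg, map_mul, map_pow]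
      group
    rw [e]
    exact (side A B l.2).mul_mem ((side A B l.2).inv_mem ha) ((side A B l.2).pow_mem hc₁ n)
  · rw [h.hχ, h.hχ.pow]
    rw [div_le_iff₀ hpos] at hn
    linarith

theorem DepConn_adj {l : G × Bool} {x y : C} (hx : l.1⁻¹ * j x ∈ side A B l.2)
    (hy : l.1⁻¹ * j y ∈ side A B l.2) {r : ℝ} (h1 : r ≤ χ x) (h2 : r ≤ χ y) :
    VConn χ (A.comap j) (B.comap j) S r x y := by
  apply Relation.ReflTransGen.single
  refine ⟨h1, h2, ?_⟩
  obtain ⟨g, s⟩ := l
  have e : (g⁻¹ * j x)⁻¹ * (g⁻¹ * j y) = j (x⁻¹ * y) := by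
    rw [map_mul, map_inv]
    group
  cases s
  · left
    rw [mem_comap, ← e]
    exact A.mul_mem (A.inv_mem hx) hy
  · right; left
    rw [mem_comap, ← e]
    exact B.mul_mem (B.inv_mem hx) hy

theorem LConn.refl (h : DepH j A B χ S) (r : ℝ) (l : G × Bool) : LConn j A B χ S r l l := by
  obtain ⟨x, hx, hr⟩ := DepConn_high h l r
  exact ⟨x, x, hx, hx, hr, Relation.ReflTransGen.refl⟩

theorem LConn.symm {r : ℝ} {l m : G × Bool}
    (h1 : LConn j A B χ S r l m) : LConn j A B χ S r m l := by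
  obtain ⟨x, y, hx, hy, hr, hc⟩ := h1
  exact ⟨y, x, hy, hx, DepConn_end hc hr, DepConn_symm hc⟩

theorem LConn.trans {r : ℝ} {l m n : G × Bool}
    (h1 : LConn j A B χ S r l m) (h2 : LConn j A B χ S r m n) : LConn j A B χ S r l n := by
  obtain ⟨x, y, hx, hy, hr, hc⟩ := h1
  obtain ⟨y', z, hy', hz, hr', hc'⟩ := h2
  refine ⟨x, z, hx, hz, hr, ?_⟩
  exact Relation.ReflTransGen.trans (Relation.ReflTransGen.trans hc
    (DepConn_adj hy hy' (DepConn_end hc hr) hr')) hc'

theorem LConn.mono {r r' : ℝ} (hr : r' ≤ r) {l m : G × Bool}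
    (h1 : LConn j A B χ S r l m) : LConn j A B χ S r' l m := by
  obtain ⟨x, y, hx, hy, hrx, hc⟩ := h1
  exact ⟨x, y, hx, hy, hr.trans hrx, DepConn_mono hr hc⟩

theorem LConn.some (h : DepH j A B χ S) (l m : G × Bool) :
    ∃ r, LConn j A B χ S r l m := by
  obtain ⟨x, hx, -⟩ := DepConn_high h l 0
  obtain ⟨y, hy, -⟩ := DepConn_high h m 0
  obtain ⟨c, hc, hb⟩ := CConn.bound h.hχ h.gen (x⁻¹ * y)
  refine ⟨χ x - c, x, y, hx, hy, by linarith, ?_⟩
  have h1 := hb x
  rw [mul_inv_cancel_left] at h1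
  unfold CConn at h1
  refine Relation.ReflTransGen.mono ?_ _ _ h1
  rintro a b ⟨h2, h3, h4⟩
  refine ⟨h2, h3, ?_⟩
  rcases h4 with h4 | h4
  · right; right; left
    exact h4
  · right; right; right
    exact h4

theorem LConn.translate (h : DepH j A B χ S) {r : ℝ} {l m : G × Bool}
    (h1 : LConn j A B χ S r l m) (c : C) :
    LConn j A B χ S (χ c + r) (ltr (j c) l) (ltr (j c) m) := by
  obtain ⟨x, y, hx, hy, hr, hc⟩ := h1
  have e : ∀ (g : G) (z : C), (j c * g)⁻¹ * j (c * z) = g⁻¹ * j z := by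
    intro g z
    rw [map_mul]
    group
  refine ⟨c * x, c * y, ?_, ?_, ?_, ?_⟩
  · change (j c * l.1)⁻¹ * j (c * x) ∈ side A B l.2
    rw [e]
    exact hx
  · change (j c * m.1)⁻¹ * j (c * y) ∈ side A B m.2
    rw [e]
    exact hy
  · rw [h.hχ]
    linarith
  · unfold VConn at hc ⊢
    clear hx hy hr
    induction hc with
    | refl => exact Relation.ReflTransGen.refl
    | @tail b d _ h2 ih =>
      refine ih.tail ⟨?_, ?_, ?_⟩
      · rw [h.hχ]
        linarith [h2.1]
      · rw [h.hχ]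
        linarith [h2.2.1]
      · have e1 : (c * b)⁻¹ * (c * d) = b⁻¹ * d := by group
        have e2 : (c * d)⁻¹ * (c * b) = d⁻¹ * b := by group
        rw [e1, e2]
        exact h2.2.2

theorem LConn.comp {r : ℝ} {g : G} {s : Bool} {a : G} (ha : a ∈ side A B s) {m : G × Bool} :
    LConn j A B χ S r (g * a, s) m ↔ LConn j A B χ S r (g, s) m := by
  have e : ∀ x : C, (g * a)⁻¹ * j x ∈ side A B s ↔ g⁻¹ * j x ∈ side A B s := by
    intro x
    have e1 : (g * a)⁻¹ * j x = a⁻¹ * (g⁻¹ * j x) := by group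
    rw [e1]
    exact Subgroup.mul_mem_cancel_left _ ((side A B s).inv_mem ha)
  constructor
  · rintro ⟨x, y, hx, hy, hr, hc⟩
    exact ⟨x, y, (e x).mp hx, hy, hr, hc⟩
  · rintro ⟨x, y, hx, hy, hr, hc⟩
    exact ⟨x, y, (e x).mpr hx, hy, hr, hc⟩

end H84.PG
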