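import Pool.Agent.H84.PG.Defs
import Pool.Agent.H36.PP.CayB

/-!
# Part V: the depth function of a character, definitions

`j : C →* G`, `χ` a character of `C`, `S` a generating set of `C`, `A`, `B` subgroups of `G` with
`G = j(C) A = j(C) B`.  Points are elements of `C`; the trace of the line `(g, s)` is the set of
points `x` with `g⁻¹ * j x ∈ side A B s`.

`VStep`   one jump inside the level set `χ ≥ r`: along `A`, along `B`, or along `S`
`VConn`   connected by such jumps
`LConn`   two lines are connected at level `r`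
`dep`     depth: supremum of the levels at which two lines are connected
-/

set_option autoImplicit false

namespace H84.PG

open H36.PP Subgroup

/-- one jump inside the level set `χ ≥ r` -/
def VStep {C : Type*} [Group C] (χ : C → ℝ) (P Q : Subgroup C) (S : Set C) (r : ℝ)
    (x y : C) : Prop :=
  r ≤ χ x ∧ r ≤ χ y ∧ (x⁻¹ * y ∈ P ∨ x⁻¹ * y ∈ Q ∨ x⁻¹ * y ∈ S ∨ y⁻¹ * x ∈ S)

/-- connected by jumps inside the level set `χ ≥ r` -/
def VConn {C : Type*} [Group C] (χ : C → ℝ) (P Q : Subgroup C) (S : Set C) (r : ℝ) :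
    C → C → Prop :=
  Relation.ReflTransGen (VStep χ P Q S r)

/-- two lines are connected at level `r` -/
def LConn {C G : Type*} [Group C] [Group G] (j : C →* G) (A B : Subgroup G) (χ : C → ℝ)
    (S : Set C) (r : ℝ) (l m : G × Bool) : Prop :=
  ∃ x y : C, l.1⁻¹ * j x ∈ side A B l.2 ∧ m.1⁻¹ * j y ∈ side A B m.2 ∧ r ≤ χ x ∧
    VConn χ (A.comap j) (B.comap j) S r x y

/-- depth function -/
noncomputable def dep {C G : Type*} [Group C] [Group G] (j : C →* G) (A B : Subgroup G)
    (χ : C → ℝ) (S : Set C) (l m : G × Bool) : EReal :=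
  ⨆ (r : ℝ) (_ : LConn j A B χ S r l m), (r : EReal)

/-- the hypotheses of Part V -/
structure DepH {C G : Type*} [Group C] [Group G] (j : C →* G) (A B : Subgroup G)
    (χ : C → ℝ) (S : Set C) : Prop where
  hχ : IsChar χ
  cA : ∀ g : G, ∃ c : C, ∃ a ∈ A, g = j c * a
  cB : ∀ g : G, ∃ c : C, ∃ b ∈ B, g = j c * b
  nA : ∃ c : C, j c ∈ A ∧ χ c ≠ 0
  nB : ∃ c : C, j c ∈ B ∧ χ c ≠ 0
  gen : closure S = ⊤

end H84.PG
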