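import Pool.Agent.H84.PG.DepConn
import Pool.Agent.H36.PP.Cay

/-!
# Module DepGood: infinite depth everywhere implies that the character is good

Let `P = A.comap j`, `Q = B.comap j`, and let `c` be the maximum of the constants of `jump_path`
(file `H36/PP/Cay.lean`) for `P` and `Q`.  Let `0 ≤ χ g`.  `dep (1, false) (j g, false) = ⊤`, so
the two lines are connected at level `0`: there are `x, y` with `j x ∈ A`, `(j g)⁻¹ * j y ∈ A`,
`0 ≤ χ x` and `VConn 0 x y`; so (`x ∈ P`, `χ 1 = 0`, `y⁻¹ * g ∈ P`, `0 ≤ χ g`) `VConn 0 1 g`.  Every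
jump at level `0` along `P` or `Q` is replaced by a path of the Cayley graph at level `-c`
(`jump_path`), a jump along `S` is a step of the Cayley graph (`CConn.mono`).
-/

set_option autoImplicit false

namespace H84.PG

open H36.PP Subgroup

variable {C G : Type*} [Group C] [Group G] {j : C →* G} {A B : Subgroup G} {χ : C → ℝ} {S : Set C}

theorem dep_good (h : DepH j A B χ S) (hP : H36.PP.Max (A.comap j)) (hQ : H36.PP.Max (B.comap j))
    (hd : ∀ l m, dep j A B χ S l m = ⊤) : Good χ S := by
  obtain ⟨cA, hcA, hpA⟩ := jump_path h.hχ h.gen (A.comap j) hP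
  obtain ⟨cB, hcB, hpB⟩ := jump_path h.hχ h.gen (B.comap j) hQ
  refine ⟨cA + cB, by linarith, fun g hg => ?_⟩
  have hL : LConn j A B χ S 0 (1, false) (j g, false) := by
    have h1 := hd (1, false) (j g, false)
    have h2 : ((0 : ℝ) : EReal) < dep j A B χ S (1, false) (j g, false) := by
      rw [h1]
      exact EReal.coe_lt_top 0
    unfold dep at h2
    rw [lt_iSup_iff] at h2
    obtain ⟨r, h3⟩ := h2
    rw [lt_iSup_iff] at h3
    obtain ⟨h4, h5⟩ := h3
    exact h4.mono (EReal.coe_lt_coe_iff.mp h5).le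
  obtain ⟨x, y, hx, hy, hr, hc⟩ := hL
  have hxA : j x ∈ A := by simpa using (show (1 : G)⁻¹ * j x ∈ A from hx)
  have hyA : (j g)⁻¹ * j y ∈ A := hy
  have hV : VConn χ (A.comap j) (B.comap j) S 0 1 g := by
    have s1 : VStep χ (A.comap j) (B.comap j) S 0 1 x := by
      refine ⟨h.hχ.one.ge, hr, Or.inl ?_⟩
      rw [inv_one, one_mul]
      exact hxA
    have s2 : VStep χ (A.comap j) (B.comap j) S 0 y g := by
      refine ⟨DepConn_end hc hr, hg, Or.inl ?_⟩
      rw [mem_comap, map_mul, map_inv]
      have e : (j y)⁻¹ * j g = ((j g)⁻¹ * j y)⁻¹ := by group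
      rw [e]
      exact A.inv_mem hyA
    exact (Relation.ReflTransGen.head s1 hc).tail s2
  have step : ∀ x y, VStep χ (A.comap j) (B.comap j) S 0 x y →
      CConn χ S (-(cA + cB)) x y := by
    rintro x y ⟨hx, hy, hxy⟩
    have e : x * (x⁻¹ * y) = y := mul_inv_cancel_left x y
    rcases hxy with h1 | h1 | h1 | h1
    · have := hpA x (x⁻¹ * y) h1 hx (by rw [e]; exact hy)
      rw [e] at this
      exact this.mono (by linarith)
    · have := hpB x (x⁻¹ * y) h1 hx (by rw [e]; exact hy)
      rw [e] at this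
      exact this.mono (by linarith)
    · exact Relation.ReflTransGen.single ⟨by linarith, by linarith, Or.inl h1⟩
    · exact Relation.ReflTransGen.single ⟨by linarith, by linarith, Or.inr h1⟩
  unfold VConn at hV
  clear hg hy hyA
  induction hV with
  | refl => exact Relation.ReflTransGen.refl
  | tail _ hb ih => exact ih.trans (step _ _ hb)

end H84.PG
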