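import Pool.Agent.H84.PG.DepConn

/-!
# Module DepUM: the depth function is an equivariant ultrametric

`r < dep l m` (real `r`) implies `LConn r l m` (`lt_iSup_iff`, `LConn.mono`), and `LConn r l m`
implies `r ≤ dep l m` (`le_iSup₂`).  So: `bot` by `LConn.some`; `symm`; `refl` by `LConn.refl` for
all `r`; `tri`: if `r` is a real number below `min (dep x y) (dep y z)` then `LConn r x z`
(`EReal.le_of_forall_lt_iff_le` or `le_of_forall_lt` with a real number in between); `comp` by
`LConn.comp`.  `dep_eqv`: `≥` by `LConn.translate` (for real `r < dep l m`, `χ c + r ≤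
dep (ltr (j c) l) (ltr (j c) m)`; `χ c` is real), `≤` by the same for `c⁻¹` and the translated lines.

-/

set_option autoImplicit false

namespace H84.PG

open H36.PP Subgroup

variable {C G : Type*} [Group C] [Group G] {j : C →* G} {A B : Subgroup G} {χ : C → ℝ} {S : Set C}

private theorem depUM_lconn {r : ℝ} {l m : G × Bool} (h : (r : EReal) < dep j A B χ S l m) :
    LConn j A B χ S r l m := by
  unfold dep at h
  rw [lt_iSup_iff] at h
  obtain ⟨r', h⟩ := h
  rw [lt_iSup_iff] at h
  obtain ⟨h', h⟩ := h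
  exact LConn.mono (EReal.coe_lt_coe_iff.1 h).le h'

private theorem depUM_le {r : ℝ} {l m : G × Bool} (h : LConn j A B χ S r l m) :
    (r : EReal) ≤ dep j A B χ S l m :=
  le_iSup₂ (f := fun (r : ℝ) (_ : LConn j A B χ S r l m) => (r : EReal)) r h

theorem dep_um (h : DepH j A B χ S) : UM A B (dep j A B χ S) where
  bot x y := by
    obtain ⟨r, hr⟩ := LConn.some h x y
    exact ne_bot_of_le_ne_bot (EReal.coe_ne_bot r) (depUM_le hr)
  symm x y := by
    apply le_antisymm
    · exact iSup₂_le fun r hr => depUM_le (LConn.symm hr)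
    · exact iSup₂_le fun r hr => depUM_le (LConn.symm hr)
  refl x := by
    rw [EReal.eq_top_iff_forall_lt]
    intro r
    exact lt_of_lt_of_le (EReal.coe_lt_coe_iff.2 (lt_add_one r)) (depUM_le (LConn.refl h (r + 1) x))
  tri x y z := by
    by_contra hn
    rw [not_le, EReal.lt_iff_exists_real_btwn] at hn
    obtain ⟨r, h1, h2⟩ := hn
    have h3 := depUM_lconn (lt_of_lt_of_le h2 (min_le_left _ _))
    have h4 := depUM_lconn (lt_of_lt_of_le h2 (min_le_right _ _))
    exact absurd (depUM_le (LConn.trans h3 h4)) (not_le.2 h1)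
  comp g s a ha y := by
    apply le_antisymm
    · exact iSup₂_le fun r hr => depUM_le ((LConn.comp ha).1 hr)
    · exact iSup₂_le fun r hr => depUM_le ((LConn.comp ha).2 hr)

private theorem depUM_key (h : DepH j A B χ S) (c : C) (l m : G × Bool) :
    (χ c : EReal) + dep j A B χ S l m ≤ dep j A B χ S (ltr (j c) l) (ltr (j c) m) := by
  by_contra hn
  rw [not_le, EReal.lt_iff_exists_real_btwn] at hn
  obtain ⟨r, h1, h2⟩ := hn
  have h3 : ((r - χ c : ℝ) : EReal) < dep j A B χ S l m := by
    by_contra h4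
    rw [not_lt] at h4
    have h5 : (χ c : EReal) + dep j A B χ S l m ≤ (χ c : EReal) + ((r - χ c : ℝ) : EReal) := by
      gcongr
    rw [← EReal.coe_add, add_sub_cancel] at h5
    exact absurd h5 (not_le.2 h2)
  have h6 := depUM_le (LConn.translate h (depUM_lconn h3) c)
  rw [add_sub_cancel] at h6
  exact absurd h6 (not_le.2 h1)

theorem dep_eqv (h : DepH j A B χ S) (c : C) (l m : G × Bool) :
    dep j A B χ S (ltr (j c) l) (ltr (j c) m) = (χ c : EReal) + dep j A B χ S l m := by
  apply le_antisymm _ (depUM_key h c l m)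
  have h1 := depUM_key h c⁻¹ (ltr (j c) l) (ltr (j c) m)
  have h2 : ∀ l : G × Bool, ltr (j c⁻¹) (ltr (j c) l) = l := by
    intro l
    simp [ltr]
  rw [h2, h2] at h1
  have h3 : χ c⁻¹ = -χ c := by
    have e1 := h.hχ 1 1
    have e2 := h.hχ c c⁻¹
    rw [mul_one] at e1
    rw [mul_inv_cancel] at e2
    linarith
  rw [h3] at h1
  calc dep j A B χ S (ltr (j c) l) (ltr (j c) m)
      = ((χ c : EReal) + ((-χ c : ℝ) : EReal)) + dep j A B χ S (ltr (j c) l) (ltr (j c) m) := by
        rw [← EReal.coe_add, add_neg_cancel, EReal.coe_zero, zero_add]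
    _ = (χ c : EReal) + (((-χ c : ℝ) : EReal) + dep j A B χ S (ltr (j c) l) (ltr (j c) m)) :=
        add_assoc _ _ _
    _ ≤ (χ c : EReal) + dep j A B χ S l m := by gcongr

end H84.PG
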