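import Pool.Agent.H84.PG.SmallCor

/-!
# Module EdTie: ties are rare (VIII.4)

`T n = {x | rho x = s x + n u x, rho x ≠ ⊤}`.  If `x ∈ T n ∩ T n'` then `s x ≠ ⊤` and (both sides
are real numbers; `s x ≥ -c` is not `⊥`) `n u x = n' u x`, so `n = n'` or `u x = 0`.  So the sets
`T n` are pairwise disjoint up to `{u = 0}`, which has mean zero (`m_zero_set`); hence the sum of
the `m (T n)` over any finite set of `n` is `≤ 1` and `m (T n) → 0` (along `atTop`, hence along
`UU`, `UU_le`).
-/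

set_option autoImplicit false

namespace H84.PG

open Filter Topology

private theorem EdTie_sum {X : Type*} [AddCommGroup X] (μ : Mean X) (S : ℕ → Set X)
    (hd : ∀ m n, m ≠ n → Disjoint (S m) (S n)) (t : Finset ℕ) :
    ∑ n ∈ t, μ.m (S n) = μ.m (⋃ n ∈ t, S n) := by
  classical
  induction t using Finset.induction_on with
  | empty => simp [μ.m_empty]
  | insert a s ha ih =>
    rw [Finset.sum_insert ha, Finset.set_biUnion_insert, μ.m_add, ih]
    rw [Set.disjoint_iUnion₂_right]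
    intro i hi
    exact hd a i (fun e => ha (e ▸ hi))

private theorem EdTie_eq {r s : EReal} {c : ℝ} (hs : ((-c : ℝ) : EReal) ≤ s) {a b : ℝ}
    (h1 : r = s + (a : EReal)) (h2 : r = s + (b : EReal)) (hr : r ≠ ⊤) : a = b := by
  induction s with
  | bot =>
    exact absurd hs (by simp)
  | top =>
    exact absurd (h1.trans (EReal.top_add_coe a)) hr
  | coe s =>
    rw [h1] at h2
    have h3 : s + a = s + b := by exact_mod_cast h2
    linarith

theorem ed_tie {X : Type*} [AddCommGroup X] (hX : AddGroup.FG X) (μ : Mean X)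
    {W : Submodule ℝ (X → ℝ)} (hW : Stab W) {u : X → ℝ} (hu : u ∈ W) (h0 : u ≠ 0)
    {rho s : X → EReal} {c : ℝ} (hr : ∀ x, ((-c : ℝ) : EReal) ≤ rho x)
    (hs : ∀ x, ((-c : ℝ) : EReal) ≤ s x) :
    Tendsto (fun n : ℕ => μ.m {x | rho x = s x + ((n * u x : ℝ) : EReal) ∧ rho x ≠ ⊤}) UU
      (𝓝 0) := by
  set T : ℕ → Set X := fun n => {x | rho x = s x + ((n * u x : ℝ) : EReal) ∧ rho x ≠ ⊤} with hT
  have hz : μ.m {x | u x = 0} = 0 := m_zero_set hX μ hW hu h0
  let S : ℕ → Set X := fun n => T n \ {x | u x = 0}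
  have hd : ∀ m n, m ≠ n → Disjoint (S m) (S n) := by
    intro m n hmn
    rw [Set.disjoint_left]
    rintro x ⟨⟨h1, h2⟩, h3⟩ ⟨⟨h4, _⟩, _⟩
    have h5 := EdTie_eq (hs x) h1 h4 h2
    have h6 : (m : ℝ) = n := mul_right_cancel₀ (show u x ≠ 0 from h3) h5
    exact hmn (by exact_mod_cast h6)
  have hle : ∀ n, μ.m (T n) ≤ μ.m (S n) := by
    intro n
    have h1 := μ.m_diff (T n) {x | u x = 0}
    rw [hz, sub_zero] at h1
    exact h1
  have hsum : Summable fun n => μ.m (S n) :=
    summable_of_sum_le (c := 1) (fun n => μ.m_nonneg _) fun t => by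
      rw [EdTie_sum μ S hd t]
      exact μ.m_le_one _
  have hlim : Tendsto (fun n => μ.m (T n)) atTop (𝓝 0) :=
    squeeze_zero (fun n => μ.m_nonneg _) hle hsum.tendsto_atTop_zero
  exact hlim.mono_left UU_le

end H84.PG
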