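import Pool.Agent.H84.PG.EdTie

/-!
# Module EdTight: tightness (VIII.5)

For `f : F` let `t f R = m {x | (R : EReal) < rho f x}`, decreasing in `R`, and
`Mf = inf_R t f R` (over real `R`).  `Tight f` means `Mf = 0`.
(1) Let `i`, `f`, `u ∈ WZ`, `u ≠ 0`; for `n` take `a n`, `f' n` from `d.eq` for `w = n • u ∈ WZ`.
Off the tie set `T n` (`ed_tie`): `k a x + nu (p a) * rho f' (x + p a) = min (rho f x)
(s i x + n u x)`, so `R' < rho f' (x + p a)` implies `R'' < rho f x` and `R'' - n sn u < s i x`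
with `R'' = nu (p a) R' - sn (k a)`.  Hence for every `R` (choose `R'` large)
`Mf' ≤ t f' R' ≤ m (T n) + m {x | R < rho f x ∧ R < s i x}`.
(2) Choose `f` with `Mf` minimal (`F` finite).  Then
`Mf ≤ m (T n) + m {R < rho f ∧ R < s i}` for all `n`, so `Mf ≤ m {R < rho f ∧ R < s i}` and
`m {R < rho f ∧ s i ≤ R} ≤ t f R - Mf → 0` as `R → ∞`, for every `i`.  For `R ≥ c` the set
`{∀ i, R < s i}` is contained in `{w1 = 0}`, of mean zero (`d.hs`, `m_zero_set`), so
`t f R ≤ ∑_i m {R < rho f ∧ s i ≤ R} → 0`: `Mf = 0`.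
(3) If `f` is tight, (1) gives `Mf' ≤ m (T n)`; the positive values among the finitely many `Mf'`
are `≥ β > 0`, so `f' n` is tight as soon as `m (T n) < β`.
There is a nonzero `u ∈ WZ` because `w1 ≠ 0` and `span WZ = W`.
-/

set_option autoImplicit false

namespace H84.PG

open Filter Topology

variable {X A F S : Type*} [AddCommGroup X] [Group A]

/-- tightness of `rho f` -/
def EdT (d : ED X A F S) (f : F) : Prop :=
  ∀ δ > 0, ∃ R : ℝ, d.μ.m {x | (R : EReal) < d.rho f x} ≤ δ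

/-- the limit of the means of the sets `rho f > R` -/
noncomputable def EdTight_M (d : ED X A F S) (f : F) : ℝ :=
  ⨅ R : ℝ, d.μ.m {x | (R : EReal) < d.rho f x}

theorem EdTight_le (d : ED X A F S) (f : F) (R : ℝ) :
    EdTight_M d f ≤ d.μ.m {x | (R : EReal) < d.rho f x} :=
  ciInf_le ⟨0, by rintro _ ⟨R, rfl⟩; exact d.μ.m_nonneg _⟩ R

theorem EdTight_nonneg (d : ED X A F S) (f : F) : 0 ≤ EdTight_M d f :=
  le_ciInf fun _ => d.μ.m_nonneg _

theorem EdTight_near (d : ED X A F S) (f : F) {ε : ℝ} (hε : 0 < ε) (c : ℝ) :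
    ∃ R : ℝ, c ≤ R ∧ d.μ.m {x | (R : EReal) < d.rho f x} < EdTight_M d f + ε := by
  obtain ⟨R, hR⟩ := exists_lt_of_ciInf_lt (show (⨅ R : ℝ, d.μ.m {x | (R : EReal) < d.rho f x}) <
    EdTight_M d f + ε from lt_add_of_pos_right _ hε)
  refine ⟨max R c, le_max_right _ _, lt_of_le_of_lt (d.μ.m_mono fun x hx => ?_) hR⟩
  have h1 : ((max R c : ℝ) : EReal) < d.rho f x := hx
  exact lt_of_le_of_lt (EReal.coe_le_coe_iff.2 (le_max_left _ _)) h1

theorem EdTight_iff (d : ED X A F S) (f : F) : EdT d f ↔ EdTight_M d f = 0 := by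
  constructor
  · intro h
    refine le_antisymm (le_of_forall_pos_le_add fun δ hδ => ?_) (EdTight_nonneg d f)
    obtain ⟨R, hR⟩ := h δ hδ
    rw [zero_add]
    exact (EdTight_le d f R).trans hR
  · intro h δ hδ
    obtain ⟨R, _, hR⟩ := EdTight_near d f hδ 0
    rw [h, zero_add] at hR
    exact ⟨R, hR.le⟩

theorem EdTight_ereal {k v r R' R : ℝ} {y : EReal} (hv : 0 < v) (hk : -R ≤ k)
    (h : (R' : EReal) < y) (he : v * R' = r + R) :
    (r : EReal) < (k : EReal) + (v : EReal) * y := by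
  induction y using EReal.rec with
  | bot => exact absurd h not_lt_bot
  | top =>
    rw [EReal.coe_mul_top_of_pos hv, EReal.coe_add_top]
    exact EReal.coe_lt_top r
  | coe y =>
    have h1 : R' < y := EReal.coe_lt_coe_iff.1 h
    have h2 : v * R' < v * y := mul_lt_mul_of_pos_left h1 hv
    rw [← EReal.coe_mul, ← EReal.coe_add, EReal.coe_lt_coe_iff]
    linarith

/-- step (1) of the proof -/
theorem EdTight_step (d : ED X A F S) {f : F} {i : S} {u : X → ℝ} (hu : u ∈ d.W) (n : ℕ)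
    {a : A} {f' : F}
    (heq : ∀ x, (d.rho f x = d.s i x + ((n * u x : ℝ) : EReal) ∧ d.rho f x ≠ ⊤) ∨
      (d.k a x : EReal) + (d.nu (d.p a) : EReal) * d.rho f' (x + d.p a) =
        min (d.rho f x) (d.s i x + ((n * u x : ℝ) : EReal))) (R : ℝ) :
    EdTight_M d f' ≤
      d.μ.m {x | d.rho f x = d.s i x + ((n * u x : ℝ) : EReal) ∧ d.rho f x ≠ ⊤} +
        d.μ.m {x | (R : EReal) < d.rho f x ∧ (R : EReal) < d.s i x} := by
  set ν := d.nu (d.p a) with hν
  have hνp : 0 < ν := d.nupos _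
  set R' : ℝ := (R + n * sn u + sn (d.k a)) / ν with hR'
  have he : ν * R' = (R + n * sn u) + sn (d.k a) := by
    rw [hR', mul_div_cancel₀ _ hνp.ne']
  have h1 := EdTight_le d f' R'
  rw [← d.μ.m_trans {x | (R' : EReal) < d.rho f' x} (d.p a)] at h1
  refine h1.trans ((d.μ.m_mono fun x hx => ?_).trans (d.μ.m_union_le _ _))
  have hx' : (R' : EReal) < d.rho f' (x + d.p a) := hx
  rcases heq x with hT | hE
  · exact Or.inl hT
  · right
    have hk : -(sn (d.k a)) ≤ d.k a x := (abs_le.1 (le_sn (d.kbd a) x)).1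
    have h2 := EdTight_ereal hνp hk hx' he
    rw [hE, lt_min_iff] at h2
    have hsn : 0 ≤ (n : ℝ) * sn u := mul_nonneg (Nat.cast_nonneg n) (sn_nonneg u)
    refine ⟨lt_of_le_of_lt (EReal.coe_le_coe_iff.2 (by linarith)) h2.1, ?_⟩
    have hux : (n : ℝ) * u x ≤ n * sn u :=
      mul_le_mul_of_nonneg_left ((le_abs_self _).trans (le_sn (d.st.bdd u hu) x))
        (Nat.cast_nonneg n)
    have h3 : ((R : ℝ) : EReal) + ((n * u x : ℝ) : EReal) < d.s i x + ((n * u x : ℝ) : EReal) := by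
      refine lt_of_le_of_lt ?_ h2.2
      rw [← EReal.coe_add, EReal.coe_le_coe_iff]
      linarith
    show (R : EReal) < d.s i x
    by_contra hle
    rw [not_lt] at hle
    exact absurd h3 (not_lt.2 (add_le_add_left hle _))

theorem EdTight_u (d : ED X A F S) : ∃ u ∈ d.WZ, u ≠ 0 := by
  by_contra h
  push Not at h
  have h1 : (d.WZ : Set (X → ℝ)) ⊆ {0} := fun u hu => h u hu
  have h2 : d.W ≤ ⊥ := by
    rw [← d.span]
    exact (Submodule.span_mono h1).trans (by simp)
  exact d.w1ne ((Submodule.mem_bot ℝ).1 (h2 d.hw1))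

theorem ed_tight [Finite F] [Nonempty F] [Finite S] (hX : AddGroup.FG X) (d : ED X A F S) :
    ∃ f, EdT d f := by
  classical
  cases nonempty_fintype S
  obtain ⟨u, hu, hu0⟩ := EdTight_u d
  have huW : u ∈ d.W := by
    rw [← d.span]
    exact Submodule.subset_span hu
  obtain ⟨f, hf⟩ := Finite.exists_min (EdTight_M d)
  refine ⟨f, ?_⟩
  -- `M f ≤ m {R < rho f ∧ R < s i}`
  have key : ∀ (i : S) (R : ℝ), EdTight_M d f ≤
      d.μ.m {x | (R : EReal) < d.rho f x ∧ (R : EReal) < d.s i x} := by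
    intro i R
    have h1 : ∀ n : ℕ, EdTight_M d f ≤
        d.μ.m {x | d.rho f x = d.s i x + ((n * u x : ℝ) : EReal) ∧ d.rho f x ≠ ⊤} +
        d.μ.m {x | (R : EReal) < d.rho f x ∧ (R : EReal) < d.s i x} := by
      intro n
      obtain ⟨a, f', haf⟩ := d.eq (n • u) (AddSubgroup.nsmul_mem _ hu n) i f
      refine (hf f').trans (EdTight_step d huW n (a := a) (fun x => ?_) R)
      have h2 := haf x
      have h3 : (n • u) x = n * u x := by
        rw [Pi.smul_apply, nsmul_eq_mul]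
      rwa [h3] at h2
    have h2 := ed_tie hX d.μ d.st huW hu0 (rho := d.rho f) (s := d.s i) (d.lowr f) (d.lows i)
    have h3 := h2.add_const (d.μ.m {x | (R : EReal) < d.rho f x ∧ (R : EReal) < d.s i x})
    rw [zero_add] at h3
    exact ge_of_tendsto h3 (Eventually.of_forall h1)
  intro δ hδ
  have hN : 0 < (Fintype.card S : ℝ) + 1 := by positivity
  obtain ⟨R, hcR, hR⟩ := EdTight_near d f (ε := δ / (Fintype.card S + 1)) (by positivity) d.c
  refine ⟨R, ?_⟩
  have hi : ∀ i : S, d.μ.m {x | (R : EReal) < d.rho f x ∧ d.s i x ≤ (R : EReal)} ≤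
      δ / (Fintype.card S + 1) := by
    intro i
    have h1 : d.μ.m ({x | (R : EReal) < d.rho f x ∧ d.s i x ≤ (R : EReal)} ∪
        {x | (R : EReal) < d.rho f x ∧ (R : EReal) < d.s i x}) =
        d.μ.m {x | (R : EReal) < d.rho f x ∧ d.s i x ≤ (R : EReal)} +
        d.μ.m {x | (R : EReal) < d.rho f x ∧ (R : EReal) < d.s i x} := by
      apply d.μ.m_add
      rw [Set.disjoint_left]
      intro x hx hy
      exact absurd hy.2 (not_lt.2 hx.2)
    have h2 : d.μ.m ({x | (R : EReal) < d.rho f x ∧ d.s i x ≤ (R : EReal)} ∪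
        {x | (R : EReal) < d.rho f x ∧ (R : EReal) < d.s i x}) ≤
        d.μ.m {x | (R : EReal) < d.rho f x} :=
      d.μ.m_mono (Set.union_subset (fun x hx => hx.1) fun x hx => hx.1)
    have h3 := key i R
    linarith
  have hz : d.μ.m {x | ∀ i, (R : EReal) < d.s i x} = 0 := by
    refine d.μ.m_zero_mono (fun x hx => ?_) (m_zero_set hX d.μ d.st d.hw1 d.w1ne)
    show d.w1 x = 0
    by_contra hne
    obtain ⟨i, hi⟩ := d.hs x hne
    have h1 : (R : EReal) < d.s i x := hx i
    exact absurd (lt_of_lt_of_le h1 hi) (not_lt.2 (EReal.coe_le_coe_iff.2 hcR))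
  have hsum : ∀ t : Finset S, d.μ.m {x | (R : EReal) < d.rho f x} ≤
      t.card * (δ / (Fintype.card S + 1)) +
        d.μ.m {x | (R : EReal) < d.rho f x ∧ ∀ i ∈ t, (R : EReal) < d.s i x} := by
    intro t
    induction t using Finset.induction_on with
    | empty => simp
    | insert j t hj ih =>
      have h1 : {x | (R : EReal) < d.rho f x ∧ ∀ i ∈ t, (R : EReal) < d.s i x} ⊆
          {x | (R : EReal) < d.rho f x ∧ d.s j x ≤ (R : EReal)} ∪
          {x | (R : EReal) < d.rho f x ∧ ∀ i ∈ insert j t, (R : EReal) < d.s i x} := by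
        intro x hx
        rcases lt_or_ge (R : EReal) (d.s j x) with h | h
        · right
          refine ⟨hx.1, fun i hi => ?_⟩
          rcases Finset.mem_insert.1 hi with rfl | hi
          · exact h
          · exact hx.2 i hi
        · exact Or.inl ⟨hx.1, h⟩
      have h2 := (d.μ.m_mono h1).trans (d.μ.m_union_le _ _)
      have h3 := hi j
      rw [Finset.card_insert_of_notMem hj]
      push_cast
      nlinarith
  have h1 := hsum Finset.univ
  have h2 : d.μ.m {x | (R : EReal) < d.rho f x ∧ ∀ i ∈ (Finset.univ : Finset S),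
      (R : EReal) < d.s i x} = 0 := by
    refine d.μ.m_zero_mono (fun x hx => ?_) hz
    exact fun i => hx.2 i (Finset.mem_univ i)
  rw [h2, add_zero, Finset.card_univ] at h1
  refine h1.trans ?_
  rw [mul_div_assoc', div_le_iff₀ hN]
  nlinarith

theorem ed_tight_next [Finite F] [Finite S] (hX : AddGroup.FG X) (d : ED X A F S) {f : F}
    (hf : EdT d f) (i : S) {u : X → ℝ} (hu : u ∈ d.WZ) (h0 : u ≠ 0) (a : ℕ → A) (f' : ℕ → F)
    (heq : ∀ n : ℕ, ∀ x, (d.rho f x = d.s i x + ((n * u x : ℝ) : EReal) ∧ d.rho f x ≠ ⊤) ∨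
      (d.k (a n) x : EReal) + (d.nu (d.p (a n)) : EReal) * d.rho (f' n) (x + d.p (a n)) =
        min (d.rho f x) (d.s i x + ((n * u x : ℝ) : EReal))) :
    ∀ᶠ n in UU, EdT d (f' n) := by
  have huW : u ∈ d.W := by
    rw [← d.span]
    exact Submodule.subset_span hu
  have h1 : ∀ n : ℕ, EdTight_M d (f' n) ≤
      d.μ.m {x | d.rho f x = d.s i x + ((n * u x : ℝ) : EReal) ∧ d.rho f x ≠ ⊤} := by
    intro n
    refine le_of_forall_pos_le_add fun δ hδ => ?_
    obtain ⟨R, hR⟩ := hf δ hδ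
    refine (EdTight_step d huW n (heq n) R).trans (add_le_add le_rfl ((d.μ.m_mono ?_).trans hR))
    intro x hx
    exact hx.1
  have h2 := ed_tie hX d.μ d.st huW h0 (rho := d.rho f) (s := d.s i) (d.lowr f) (d.lows i)
  obtain ⟨β, hβ, hβF⟩ : ∃ β > 0, ∀ g : F, EdTight_M d g < β → EdTight_M d g = 0 := by
    classical
    cases nonempty_fintype F
    by_cases hne : (Finset.univ.filter fun g : F => 0 < EdTight_M d g).Nonempty
    · obtain ⟨g0, hg0, hmin⟩ := Finset.exists_min_image _ (EdTight_M d) hne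
      refine ⟨EdTight_M d g0, (Finset.mem_filter.1 hg0).2, fun g hg => ?_⟩
      by_contra hz
      have hpos : 0 < EdTight_M d g := lt_of_le_of_ne (EdTight_nonneg d g) (Ne.symm hz)
      exact absurd hg (not_lt.2 (hmin g (Finset.mem_filter.2 ⟨Finset.mem_univ _, hpos⟩)))
    · refine ⟨1, one_pos, fun g _ => ?_⟩
      by_contra hz
      have hpos : 0 < EdTight_M d g := lt_of_le_of_ne (EdTight_nonneg d g) (Ne.symm hz)
      exact hne ⟨g, Finset.mem_filter.2 ⟨Finset.mem_univ _, hpos⟩⟩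
  filter_upwards [h2.eventually (gt_mem_nhds hβ)] with n hn
  exact (EdTight_iff d _).2 (hβF _ (lt_of_le_of_lt (h1 n) hn))

end H84.PG
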