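import Pool.Agent.H84.PG.MDefs

/-!
# Module EvA: powers on a generalised eigenvector (VI.1)

`g = l + N`, `N = g - l • 1`, commuting (`Commute.add_pow`): `g ^ n = ∑_k C(n, k) l ^ (n - k) N ^ k`,
`N ^ k x = 0` for `k ≥ m`, and `l ^ (n - k) = l ^ n * (l ^ k)⁻¹` for `k ≤ n`; terms with `k > n` vanish
because `C(n, k) = 0`.
-/

set_option autoImplicit false

namespace H84.PG

open Filter Topology

theorem ev_expand {V : Type*} [AddCommGroup V] [Module ℂ V] (g : V →ₗ[ℂ] V) (l : ℂ)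
    (hl : l ≠ 0) (m : ℕ) (x : V) (hx : ((g - l • (1 : V →ₗ[ℂ] V)) ^ m) x = 0) (n : ℕ) :
    (g ^ n) x = ∑ k ∈ Finset.range m, ((n.choose k : ℂ) * l ^ n * (l ^ k)⁻¹) •
      ((g - l • (1 : V →ₗ[ℂ] V)) ^ k) x := by
  set N : V →ₗ[ℂ] V := g - l • (1 : V →ₗ[ℂ] V) with hN
  have hg : g = N + l • (1 : V →ₗ[ℂ] V) := by rw [hN, sub_add_cancel]
  have hcomm : Commute N (l • (1 : V →ₗ[ℂ] V)) := (Commute.one_right N).smul_right l
  have hbig : ∀ k, m ≤ k → (N ^ k) x = 0 := by
    intro k hk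
    obtain ⟨j, rfl⟩ := Nat.exists_eq_add_of_le hk
    rw [add_comm, pow_add, Module.End.mul_apply, hx, map_zero]
  have h1 : (g ^ n) x = ∑ k ∈ Finset.range (n + 1),
      ((n.choose k : ℂ) * l ^ n * (l ^ k)⁻¹) • (N ^ k) x := by
    conv_lhs => rw [hg, hcomm.add_pow, LinearMap.sum_apply]
    refine Finset.sum_congr rfl fun k hk => ?_
    have hkn : k ≤ n := Nat.lt_succ_iff.1 (Finset.mem_range.1 hk)
    have h2 : l ^ n * (l ^ k)⁻¹ = l ^ (n - k) := by
      rw [pow_sub₀ l hl hkn]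
    have h3 : ((n.choose k : ℕ) : Module.End ℂ V) = (n.choose k : ℂ) • (1 : V →ₗ[ℂ] V) := by
      ext y
      simp [Nat.cast_smul_eq_nsmul]
    rw [h3, smul_pow, one_pow, mul_assoc ((n.choose k : ℂ)), h2]
    simp only [Module.End.mul_apply, LinearMap.smul_apply, Module.End.one_apply, map_smul,
      smul_smul]
  rw [h1]
  have hsub1 : Finset.range (n + 1) ⊆ Finset.range (max (n + 1) m) :=
    Finset.range_subset_range.2 (le_max_left _ _)
  have hsub2 : Finset.range m ⊆ Finset.range (max (n + 1) m) :=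
    Finset.range_subset_range.2 (le_max_right _ _)
  rw [Finset.sum_subset hsub1, Finset.sum_subset hsub2]
  · intro k _ hk
    have : m ≤ k := not_lt.1 fun h => hk (Finset.mem_range.2 h)
    rw [hbig k this, smul_zero]
  · intro k _ hk
    have : n < k := by
      by_contra h
      exact hk (Finset.mem_range.2 (by omega))
    rw [Nat.choose_eq_zero_of_lt this]
    simp

end H84.PG
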