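import Pool.Agent.H84.PG.EvA

/-!
# Module EvB: the dominant part of `g ^ n x` (VI.1)

`x = ∑_{l ∈ s₀} x_l`, `x_l` in the generalised eigenspace of `g` for `l`
(`Module.End.iSup_maxGenEigenspace_eq_top`, `Submodule.mem_iSup_iff_exists_finsupp` or so;
`Module.End.independent_maxGenEigenspace`), `l ≠ 0` as `g` is injective, only `x_l ≠ 0`.
`μ = max ‖l‖`; `k` is maximal such that `N_l ^ k x_l ≠ 0` for some `l` with `‖l‖ = μ`,
`N_l = g - l`; `s = {l ∈ s₀ | ‖l‖ = μ}`, `v l = (l ^ k)⁻¹ • N_l ^ k x_l`: `g (v l) = l • v l` since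
`N_l ^ (k+1) x_l = 0`.  The nonzero `v l` are eigenvectors for different eigenvalues and at
least one is nonzero: the sum is not zero (`Module.End.eigenvectors_linearIndependent` or the
independence of eigenspaces).  By `ev_expand`, `(μ ^ n C(n, k))⁻¹ g ^ n x` is the sum of
`(C(n, k') / C(n, k)) (l / μ) ^ n (l ^ k')⁻¹ N_l ^ k' x_l`; for `‖l‖ = μ`, `k' < k` the quotient of
binomial coefficients tends to `0` (`C(n, k') / C(n, k) → 0`), for `k' > k` the vector vanishes; for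
`‖l‖ < μ` `C(n, k') (‖l‖ / μ) ^ n → 0` (polynomial times geometric).
(`n.choose k = 0` for `n < k`; only large `n` matter.)
-/

set_option autoImplicit false

namespace H84.PG

open Filter Topology

private theorem evB_small {μ : ℝ} (hμ : 0 < μ) {l : ℂ} (hl : ‖l‖ < μ) (j k : ℕ) :
    Tendsto (fun n : ℕ => (((μ ^ n * (n.choose k : ℝ))⁻¹ : ℝ) : ℂ) *
      ((n.choose j : ℂ) * l ^ n * (l ^ j)⁻¹)) atTop (𝓝 0) := by
  have hr : ‖l‖ / μ < 1 := (div_lt_one hμ).mpr hl
  have h1 : Tendsto (fun n : ℕ => ((n : ℝ) ^ j * (‖l‖ / μ) ^ n) * ‖(l ^ j)⁻¹‖) atTop (𝓝 0) := by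
    have h2 := (tendsto_pow_const_mul_const_pow_of_lt_one j (r := ‖l‖ / μ) (by positivity)
      hr).mul_const ‖(l ^ j)⁻¹‖
    simpa using h2
  rw [tendsto_zero_iff_norm_tendsto_zero]
  refine squeeze_zero' (Eventually.of_forall fun n => norm_nonneg _) ?_ h1
  filter_upwards [eventually_ge_atTop k] with n hn
  rw [norm_mul, norm_mul, norm_mul, Complex.norm_real, Real.norm_of_nonneg (by positivity),
    Complex.norm_natCast, norm_pow, ← mul_assoc, ← mul_assoc]
  refine mul_le_mul_of_nonneg_right ?_ (norm_nonneg _)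
  have hc1 : (1 : ℝ) ≤ (n.choose k : ℝ) := by
    exact_mod_cast Nat.choose_pos hn
  have hc2 : (n.choose j : ℝ) ≤ (n : ℝ) ^ j := by
    exact_mod_cast Nat.choose_le_pow n j
  have hp : 0 < μ ^ n := pow_pos hμ n
  have hq : (μ ^ n * (n.choose k : ℝ))⁻¹ ≤ (μ ^ n)⁻¹ := by
    refine inv_anti₀ hp ?_
    nlinarith
  rw [div_pow]
  calc (μ ^ n * (n.choose k : ℝ))⁻¹ * (n.choose j : ℝ) * ‖l‖ ^ n
      ≤ (μ ^ n)⁻¹ * (n : ℝ) ^ j * ‖l‖ ^ n := by gcongr
    _ = (n : ℝ) ^ j * (‖l‖ ^ n / μ ^ n) := by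
        rw [div_eq_mul_inv]
        ring

private theorem evB_eq {μ : ℝ} (hμ : 0 < μ) {l : ℂ} (hl : ‖l‖ = μ) {j k : ℕ} (hjk : j < k) :
    Tendsto (fun n : ℕ => (((μ ^ n * (n.choose k : ℝ))⁻¹ : ℝ) : ℂ) *
      ((n.choose j : ℂ) * l ^ n * (l ^ j)⁻¹)) atTop (𝓝 0) := by
  have h0 : (fun n : ℕ => (n.choose j : ℝ)) =o[atTop] fun n : ℕ => (n.choose k : ℝ) := by
    have h1 : (fun n : ℕ => ((n : ℝ) ^ j)) =o[atTop] fun n : ℕ => ((n : ℝ) ^ k) :=
      (Asymptotics.isLittleO_pow_pow_atTop_of_lt hjk).comp_tendsto tendsto_natCast_atTop_atTop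
    exact ((isTheta_choose j).isBigO.trans_isLittleO h1).trans_isBigO (isTheta_choose k).isBigO_symm
  have h1 : Tendsto (fun n : ℕ => ((n.choose j : ℝ) / (n.choose k : ℝ)) * ‖(l ^ j)⁻¹‖) atTop
      (𝓝 0) := by
    have h2 := h0.tendsto_div_nhds_zero.mul_const ‖(l ^ j)⁻¹‖
    simpa using h2
  rw [tendsto_zero_iff_norm_tendsto_zero]
  refine h1.congr fun n => ?_
  rw [norm_mul, norm_mul, norm_mul, Complex.norm_real, Real.norm_of_nonneg (by positivity),
    Complex.norm_natCast, norm_pow, ← mul_assoc, ← mul_assoc]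
  congr 1
  rw [hl, mul_inv]
  have hp : μ ^ n ≠ 0 := (pow_pos hμ n).ne'
  field_simp

theorem ev_limit {d : ℕ} (g : (Fin d → ℂ) →ₗ[ℂ] (Fin d → ℂ)) (hg : Function.Injective g)
    (x : Fin d → ℂ) (hx : x ≠ 0) :
    ∃ (μ : ℝ) (k : ℕ) (s : Finset ℂ) (v : ℂ → Fin d → ℂ), 0 < μ ∧
      (∀ l ∈ s, ‖l‖ = μ ∧ g (v l) = l • v l) ∧ (∑ l ∈ s, v l) ≠ 0 ∧
      Tendsto (fun n : ℕ => (((μ ^ n * (n.choose k : ℝ))⁻¹ : ℝ) : ℂ) • (g ^ n) x -
        ∑ l ∈ s, (l / (μ : ℂ)) ^ n • v l) atTop (𝓝 0) := by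
  classical
  have htop : x ∈ ⨆ l : ℂ, Module.End.maxGenEigenspace g l := by
    rw [Module.End.iSup_maxGenEigenspace_eq_top]
    exact Submodule.mem_top
  obtain ⟨f, hf, hfx⟩ := (Submodule.mem_iSup_iff_exists_finsupp _ _).mp htop
  have hfx' : x = ∑ l ∈ f.support, f l := hfx.symm
  have hex : ∀ l, ∃ m : ℕ, ((g - l • (1 : Module.End ℂ (Fin d → ℂ))) ^ m) (f l) = 0 := fun l =>
    (Module.End.mem_maxGenEigenspace g l (f l)).mp (hf l)
  let m : ℂ → ℕ := fun l => Nat.find (hex l)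
  have hm : ∀ l, ((g - l • (1 : Module.End ℂ (Fin d → ℂ))) ^ m l) (f l) = 0 := fun l =>
    Nat.find_spec (hex l)
  have hmin : ∀ l j, j < m l → ((g - l • (1 : Module.End ℂ (Fin d → ℂ))) ^ j) (f l) ≠ 0 :=
    fun l j hj => Nat.find_min (hex l) hj
  have hmpos : ∀ l ∈ f.support, 0 < m l := by
    intro l hl
    rcases Nat.eq_zero_or_pos (m l) with h | h
    · exfalso
      have h1 := hm l
      rw [h, pow_zero] at h1
      exact Finsupp.mem_support_iff.mp hl h1
    · exact h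
  have hne : ∀ l ∈ f.support, l ≠ 0 := by
    rintro l hl rfl
    have h1 := hm 0
    rw [zero_smul, sub_zero] at h1
    have h2 : Function.Injective (g ^ m 0) := by
      rw [Module.End.coe_pow]
      exact hg.iterate _
    have h3 : f 0 = 0 := h2 (by rw [h1, map_zero])
    exact Finsupp.mem_support_iff.mp hl h3
  have hsne : f.support.Nonempty := by
    rw [Finset.nonempty_iff_ne_empty]
    intro h
    rw [h, Finset.sum_empty] at hfx'
    exact hx hfx'
  obtain ⟨l1, hl1, hmax1⟩ := f.support.exists_max_image (fun l => ‖l‖) hsne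
  let s : Finset ℂ := f.support.filter (fun l => ‖l‖ = ‖l1‖)
  have hs1 : l1 ∈ s := Finset.mem_filter.mpr ⟨hl1, rfl⟩
  obtain ⟨l2, hl2, hmax2⟩ := s.exists_max_image (fun l => m l) ⟨l1, hs1⟩
  have hl2' := Finset.mem_filter.mp hl2
  let k : ℕ := m l2 - 1
  have hk : k + 1 = m l2 := Nat.sub_add_cancel (hmpos l2 hl2'.1)
  have hμ : 0 < ‖l1‖ := norm_pos_iff.mpr (hne l1 hl1)
  let v : ℂ → Fin d → ℂ := fun l =>
    (l ^ k)⁻¹ • ((g - l • (1 : Module.End ℂ (Fin d → ℂ))) ^ k) (f l)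
  have hlek : ∀ l ∈ s, m l ≤ k + 1 := fun l hl => by
    rw [hk]
    exact hmax2 l hl
  have hv0 : ∀ l ∈ s, ((g - l • (1 : Module.End ℂ (Fin d → ℂ))) ^ (k + 1)) (f l) = 0 := by
    intro l hl
    obtain ⟨e, he⟩ := Nat.exists_eq_add_of_le (hlek l hl)
    rw [he, add_comm, pow_add, Module.End.mul_apply, hm l, map_zero]
  have hgv : ∀ l ∈ s, g (v l) = l • v l := by
    intro l hl
    have h1 := hv0 l hl
    rw [pow_succ', Module.End.mul_apply, LinearMap.sub_apply, sub_eq_zero, LinearMap.smul_apply,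
      Module.End.one_apply] at h1
    show g ((l ^ k)⁻¹ • _) = l • ((l ^ k)⁻¹ • _)
    rw [map_smul, h1, smul_comm]
  refine ⟨‖l1‖, k, s, v, hμ, fun l hl => ⟨(Finset.mem_filter.mp hl).2, hgv l hl⟩, ?_, ?_⟩
  · intro h0
    have h1 := (iSupIndep_iff_finsetSum_eq_zero_imp_eq_zero _).mp
      (Module.End.eigenspaces_iSupIndep g) s v
      (fun l hl => Module.End.mem_eigenspace_iff.mpr (hgv l hl)) h0 l2 hl2
    have h2 : (l2 ^ k)⁻¹ ≠ 0 := inv_ne_zero (pow_ne_zero _ (hne l2 hl2'.1))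
    have h3 := (smul_eq_zero.mp h1).resolve_left h2
    exact hmin l2 k (by omega) h3
  · have hterm : ∀ l ∈ f.support, Tendsto (fun n : ℕ =>
        (((‖l1‖ ^ n * (n.choose k : ℝ))⁻¹ : ℝ) : ℂ) • (g ^ n) (f l) -
          (if l ∈ s then (l / (‖l1‖ : ℂ)) ^ n • v l else 0)) atTop (𝓝 0) := by
      intro l hl
      by_cases hls : l ∈ s
      · have hnorm := (Finset.mem_filter.mp hls).2
        have h1 : Tendsto (fun n : ℕ => ∑ j ∈ Finset.range k,
            ((((‖l1‖ ^ n * (n.choose k : ℝ))⁻¹ : ℝ) : ℂ) *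
              ((n.choose j : ℂ) * l ^ n * (l ^ j)⁻¹)) •
              ((g - l • (1 : Module.End ℂ (Fin d → ℂ))) ^ j) (f l)) atTop (𝓝 0) := by
          have h2 : Tendsto (fun n : ℕ => ∑ j ∈ Finset.range k,
            ((((‖l1‖ ^ n * (n.choose k : ℝ))⁻¹ : ℝ) : ℂ) *
              ((n.choose j : ℂ) * l ^ n * (l ^ j)⁻¹)) •
              ((g - l • (1 : Module.End ℂ (Fin d → ℂ))) ^ j) (f l)) atTop
              (𝓝 (∑ j ∈ Finset.range k, (0 : ℂ) •
                ((g - l • (1 : Module.End ℂ (Fin d → ℂ))) ^ j) (f l))) :=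
            tendsto_finsetSum _ fun j hj =>
              (evB_eq hμ hnorm (Finset.mem_range.mp hj)).smul_const _
          simpa using h2
        refine h1.congr' ?_
        filter_upwards [eventually_ge_atTop k] with n hn
        rw [if_pos hls, ev_expand g l (hne l hl) (k + 1) (f l) (hv0 l hls) n,
          Finset.sum_range_succ, smul_add, Finset.smul_sum]
        have h3 : (((‖l1‖ ^ n * (n.choose k : ℝ))⁻¹ : ℝ) : ℂ) •
            (((n.choose k : ℂ) * l ^ n * (l ^ k)⁻¹) •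
              ((g - l • (1 : (Fin d → ℂ) →ₗ[ℂ] (Fin d → ℂ))) ^ k) (f l)) =
            (l / (‖l1‖ : ℂ)) ^ n • v l := by
          show _ = (l / (‖l1‖ : ℂ)) ^ n • ((l ^ k)⁻¹ • _)
          rw [smul_smul, smul_smul]
          congr 1
          have hc : (n.choose k : ℂ) ≠ 0 := by
            exact_mod_cast (Nat.choose_pos hn).ne'
          have hp : (‖l1‖ : ℂ) ^ n ≠ 0 := pow_ne_zero _ (by exact_mod_cast hμ.ne')
          push_cast
          rw [div_pow]
          field_simp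
        rw [h3, add_sub_cancel_right]
        refine Finset.sum_congr rfl fun j _ => ?_
        rw [smul_smul]
      · have hlt : ‖l‖ < ‖l1‖ := lt_of_le_of_ne (hmax1 l hl) fun e =>
          hls (Finset.mem_filter.mpr ⟨hl, e⟩)
        have h2 : Tendsto (fun n : ℕ => ∑ j ∈ Finset.range (m l),
            ((((‖l1‖ ^ n * (n.choose k : ℝ))⁻¹ : ℝ) : ℂ) *
              ((n.choose j : ℂ) * l ^ n * (l ^ j)⁻¹)) •
              ((g - l • (1 : Module.End ℂ (Fin d → ℂ))) ^ j) (f l)) atTop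
              (𝓝 (∑ j ∈ Finset.range (m l), (0 : ℂ) •
                ((g - l • (1 : Module.End ℂ (Fin d → ℂ))) ^ j) (f l))) :=
            tendsto_finsetSum _ fun j _ => (evB_small hμ hlt j k).smul_const _
        have h2' : Tendsto (fun n : ℕ => ∑ j ∈ Finset.range (m l),
            ((((‖l1‖ ^ n * (n.choose k : ℝ))⁻¹ : ℝ) : ℂ) *
              ((n.choose j : ℂ) * l ^ n * (l ^ j)⁻¹)) •
              ((g - l • (1 : Module.End ℂ (Fin d → ℂ))) ^ j) (f l)) atTop (𝓝 0) := by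
          simpa using h2
        refine h2'.congr fun n => ?_
        rw [if_neg hls, sub_zero, ev_expand g l (hne l hl) (m l) (f l) (hm l) n,
          Finset.smul_sum]
        refine Finset.sum_congr rfl fun j _ => ?_
        rw [smul_smul]
    have hsum := tendsto_finsetSum f.support hterm
    rw [Finset.sum_const_zero] at hsum
    refine hsum.congr fun n => ?_
    rw [Finset.sum_sub_distrib, ← Finset.smul_sum, ← map_sum, ← hfx', Finset.sum_ite_mem,
      Finset.inter_eq_right.mpr (Finset.filter_subset _ _)]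

end H84.PG
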