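import Pool.Agent.H84.PG.MDefs

/-!
# Module EvC: simultaneous recurrence of rotations (VI.1)

The sequence `n ↦ (l ^ n)_{l ∈ s}` lives in a compact metric space (a product of unit circles);
take a convergent subsequence `ψ`.  For every `m` choose `n_m > m` in the subsequence so that
`ψ n_m - ψ m > ` the previous value of `φ`; `l ^ (ψ n_m - ψ m) = l ^ (ψ n_m) / l ^ (ψ m) → 1` as
`m → ∞` since both converge to the same limit of norm one.
-/

set_option autoImplicit false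

namespace H84.PG

open Filter Topology

theorem ev_rec (s : Finset ℂ) (hs : ∀ l ∈ s, ‖l‖ = 1) :
    ∃ φ : ℕ → ℕ, StrictMono φ ∧ ∀ l ∈ s, Tendsto (fun n => l ^ φ n) atTop (𝓝 1) := by
  let a : s → Circle := fun l => ⟨l.1, mem_sphere_zero_iff_norm.mpr (hs l.1 l.2)⟩
  have h1 : MapClusterPt (1 : s → Circle) atTop (fun n : ℕ => a ^ n) :=
    mapClusterPt_one_atTop_pow a
  obtain ⟨φ, hφ, hlim⟩ := h1.tendsto_subseq
  refine ⟨φ, hφ, fun l hl => ?_⟩
  have h2 : Tendsto (fun n => (a ^ φ n) ⟨l, hl⟩) atTop (𝓝 ((1 : s → Circle) ⟨l, hl⟩)) :=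
    (tendsto_pi_nhds.mp hlim) ⟨l, hl⟩
  have hc : Continuous (fun z : Circle => (z : ℂ)) := continuous_subtype_val
  have h3 := (hc.tendsto _).comp h2
  have h4 : ∀ n, ((fun z : Circle => (z : ℂ)) ∘ fun n => (a ^ φ n) ⟨l, hl⟩) n = l ^ φ n := by
    intro n
    show (((a ^ φ n) ⟨l, hl⟩ : Circle) : ℂ) = l ^ φ n
    rw [Pi.pow_apply, Circle.coe_pow]
  have h5 : ((1 : s → Circle) ⟨l, hl⟩ : ℂ) = 1 := rfl
  rw [h5] at h3
  exact h3.congr h4

end H84.PG
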