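import Pool.Agent.H84.PG.EvOne

/-!
# Module EvList: finitely many commuting operators (VI.2)

Induction on `n`.  For `n + 1` operators: let `Z' = {v ∈ Z | ∀ i < n, ∃ M, ∀ k : ℤ, ‖(g i ^ k) v‖ ≤
M μ_i ^ k}`.  The vectors with this boundedness property form a subspace of a finite
dimensional space, which is closed (`Submodule.closed_of_finiteDimensional`), invariant under
the last operator (it commutes with the `g i` and is bounded).  So `Z'` is closed, a cone,
invariant under the last operator and contains a nonzero vector by induction; apply `ev_one`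
to `Z'`.
-/

set_option autoImplicit false

namespace H84.PG

open Filter Topology

/-- the subspace of the vectors with bounded normalised orbits under `g i` -/
private def EvList_B {d n : ℕ} (g : Fin n → ((Fin d → ℝ) ≃ₗ[ℝ] (Fin d → ℝ))) (μ : Fin n → ℝ) :
    Submodule ℝ (Fin d → ℝ) where
  carrier := {v | ∀ i, ∃ M : ℝ, ∀ k : ℤ, ‖((g i) ^ k) v‖ ≤ M * (μ i) ^ k}
  zero_mem' := by
    intro i
    refine ⟨0, fun k => ?_⟩
    rw [map_zero, norm_zero, zero_mul]
  add_mem' := by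
    intro v w hv hw i
    obtain ⟨M, hM⟩ := hv i
    obtain ⟨N, hN⟩ := hw i
    refine ⟨M + N, fun k => ?_⟩
    rw [map_add, add_mul]
    exact (norm_add_le _ _).trans (add_le_add (hM k) (hN k))
  smul_mem' := by
    intro c v hv i
    obtain ⟨M, hM⟩ := hv i
    refine ⟨‖c‖ * M, fun k => ?_⟩
    rw [map_smul, norm_smul, mul_assoc]
    exact mul_le_mul_of_nonneg_left (hM k) (norm_nonneg c)

theorem ev_list {d n : ℕ} (g : Fin n → ((Fin d → ℝ) ≃ₗ[ℝ] (Fin d → ℝ)))
    (hg : ∀ i j, g i * g j = g j * g i) (Z : Set (Fin d → ℝ)) (hZ : IsClosed Z)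
    (hc : ∀ c : ℝ, 0 < c → ∀ v ∈ Z, c • v ∈ Z) (hi : ∀ i, ∀ v ∈ Z, g i v ∈ Z)
    (x : Fin d → ℝ) (hxZ : x ∈ Z) (hx : x ≠ 0) :
    ∃ μ : Fin n → ℝ, (∀ i, 0 < μ i) ∧ ∃ v ∈ Z, v ≠ 0 ∧
      ∀ i, ∃ M : ℝ, ∀ k : ℤ, ‖((g i) ^ k) v‖ ≤ M * (μ i) ^ k := by
  induction n with
  | zero => exact ⟨fun i => i.elim0, fun i => i.elim0, x, hxZ, hx, fun i => i.elim0⟩
  | succ n ih =>
    obtain ⟨μ, hμ, v0, hv0, hv0', hb⟩ := ih (fun i => g i.castSucc)
      (fun i j => hg i.castSucc j.castSucc) (fun i => hi i.castSucc)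
    let B := EvList_B (fun i : Fin n => g i.castSucc) μ
    have hBc : IsClosed (B : Set (Fin d → ℝ)) := B.closed_of_finiteDimensional
    obtain ⟨C, hC⟩ : ∃ C : ℝ, 0 ≤ C ∧ ∀ w, ‖g (Fin.last n) w‖ ≤ C * ‖w‖ :=
      ⟨‖LinearMap.toContinuousLinearMap (g (Fin.last n) : (Fin d → ℝ) →ₗ[ℝ] (Fin d → ℝ))‖,
        norm_nonneg _, fun w => (LinearMap.toContinuousLinearMap
          (g (Fin.last n) : (Fin d → ℝ) →ₗ[ℝ] (Fin d → ℝ))).le_opNorm w⟩
    have hBi : ∀ v ∈ B, g (Fin.last n) v ∈ B := by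
      intro v hv i
      obtain ⟨M, hM⟩ := hv i
      refine ⟨C * M, fun k => ?_⟩
      have hcomm : ((g i.castSucc) ^ k) (g (Fin.last n) v) =
          g (Fin.last n) (((g i.castSucc) ^ k) v) := by
        have h : Commute (g i.castSucc) (g (Fin.last n)) := hg _ _
        have h2 := (h.zpow_left k).eq
        have h3 := congrArg (fun f : (Fin d → ℝ) ≃ₗ[ℝ] (Fin d → ℝ) => f v) h2
        exact h3
      show ‖((g i.castSucc) ^ k) (g (Fin.last n) v)‖ ≤ C * M * μ i ^ k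
      rw [hcomm, mul_assoc]
      exact (hC.2 _).trans (mul_le_mul_of_nonneg_left (hM k) hC.1)
    obtain ⟨m, hm, v, hv, hv', M, hM⟩ := ev_one (g (Fin.last n)) (Z ∩ B) (hZ.inter hBc)
      (fun c hc' w hw => ⟨hc c hc' w hw.1, B.smul_mem c hw.2⟩)
      (fun w hw => ⟨hi _ w hw.1, hBi w hw.2⟩) v0 ⟨hv0, hb⟩ hv0'
    refine ⟨Fin.snoc (α := fun _ => ℝ) μ m, ?_, v, hv.1, hv', ?_⟩
    · intro i
      refine Fin.lastCases ?_ (fun j => ?_) i
      · rw [Fin.snoc_last]
        exact hm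
      · rw [Fin.snoc_castSucc]
        exact hμ j
    · intro i
      refine Fin.lastCases ?_ (fun j => ?_) i
      · refine ⟨M, fun k => ?_⟩
        rw [Fin.snoc_last]
        exact hM k
      · obtain ⟨N, hN⟩ := hv.2 j
        refine ⟨N, fun k => ?_⟩
        rw [Fin.snoc_castSucc]
        exact hN k

end H84.PG
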