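import Pool.Agent.H84.PG.EvB
import Pool.Agent.H84.PG.EvC

/-!
# Module EvOne: a vector of the cone with bounded normalised orbit, one operator (VI.1)

Let `gc` be the complexification: the linear map of `Fin d → ℂ` with the same matrix (`g` is the
linear map of a real matrix, map the entries to `ℂ`), injective (its determinant is the same),
and `ι : (Fin d → ℝ) → (Fin d → ℂ)` coordinatewise inclusion, `gc (ι v) = ι (g v)`.  Apply
`ev_limit` to `gc` and `ι x`, and `ev_rec` to the numbers `l / μ`.  Along `φ` the vectors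
`(μ ^ n C(n, k))⁻¹ • g ^ n x ∈ Z` (for large `n` the factor is positive; `hc`, `hi`) converge after
`ι` to `w = ∑_{l ∈ s} v l ≠ 0`; so `w = ι v` for some real `v` (closed subspace), and `v ∈ Z`
(`hZ`; coordinatewise convergence), `v ≠ 0`.  For `n : ℤ`: `ι (g ^ n v) = ∑ l ^ n • v l`
(`gc (v l) = l • v l`), so `‖g ^ n v‖ ≤ (∑ ‖v l‖) μ ^ n`.
-/

set_option autoImplicit false

namespace H84.PG

open Filter Topology

/-- coordinatewise inclusion of the reals -/
private def EvOne_inc {d : ℕ} (v : Fin d → ℝ) : Fin d → ℂ := fun i => (v i : ℂ)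

/-- coordinatewise real part -/
private def EvOne_re {d : ℕ} (w : Fin d → ℂ) : Fin d → ℝ := fun i => (w i).re

/-- coordinatewise imaginary part -/
private def EvOne_im {d : ℕ} (w : Fin d → ℂ) : Fin d → ℝ := fun i => (w i).im

/-- the complexification -/
private noncomputable def EvOne_gc {d : ℕ} (g : (Fin d → ℝ) →ₗ[ℝ] (Fin d → ℝ)) :
    (Fin d → ℂ) →ₗ[ℂ] (Fin d → ℂ) where
  toFun w := fun i => (g (EvOne_re w) i : ℂ) + (g (EvOne_im w) i : ℂ) * Complex.I
  map_add' := by
    intro a b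
    have h1 : EvOne_re (a + b) = EvOne_re a + EvOne_re b := by funext i; simp [EvOne_re]
    have h2 : EvOne_im (a + b) = EvOne_im a + EvOne_im b := by funext i; simp [EvOne_im]
    funext i
    rw [h1, h2, map_add, map_add]
    simp only [Pi.add_apply, Complex.ofReal_add]
    ring
  map_smul' := by
    intro c w
    have h1 : EvOne_re (c • w) = c.re • EvOne_re w - c.im • EvOne_im w := by
      funext i; simp [EvOne_re, EvOne_im]
    have h2 : EvOne_im (c • w) = c.re • EvOne_im w + c.im • EvOne_re w := by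
      funext i; simp [EvOne_re, EvOne_im]
    funext i
    rw [h1, h2, map_sub, map_add, map_smul, map_smul, map_smul, map_smul]
    simp only [Pi.add_apply, Pi.sub_apply, Pi.smul_apply, smul_eq_mul, Complex.ofReal_add,
      Complex.ofReal_sub, Complex.ofReal_mul, RingHom.id_apply]
    conv_rhs => rw [← Complex.re_add_im c]
    linear_combination (-(c.im : ℂ) * (g (EvOne_im w) i : ℂ)) * Complex.I_mul_I

private theorem EvOne_gc_inc {d : ℕ} (g : (Fin d → ℝ) →ₗ[ℝ] (Fin d → ℝ)) (v : Fin d → ℝ) :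
    EvOne_gc g (EvOne_inc v) = EvOne_inc (g v) := by
  have h1 : EvOne_re (EvOne_inc v) = v := by funext i; simp [EvOne_re, EvOne_inc]
  have h2 : EvOne_im (EvOne_inc v) = 0 := by funext i; simp [EvOne_im, EvOne_inc]
  funext i
  show (g (EvOne_re (EvOne_inc v)) i : ℂ) + (g (EvOne_im (EvOne_inc v)) i : ℂ) * Complex.I = _
  rw [h1, h2, map_zero]
  simp [EvOne_inc]

private theorem EvOne_gc_inj {d : ℕ} (g : (Fin d → ℝ) →ₗ[ℝ] (Fin d → ℝ))
    (hg : Function.Injective g) : Function.Injective (EvOne_gc g) := by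
  rw [injective_iff_map_eq_zero]
  intro w hw
  have h : ∀ i, g (EvOne_re w) i = 0 ∧ g (EvOne_im w) i = 0 := by
    intro i
    have h0 : (g (EvOne_re w) i : ℂ) + (g (EvOne_im w) i : ℂ) * Complex.I = 0 := congrFun hw i
    have hr := congrArg Complex.re h0
    have hi := congrArg Complex.im h0
    simp at hr hi
    exact ⟨hr, hi⟩
  have h1 : EvOne_re w = 0 := hg (by rw [map_zero]; funext i; exact (h i).1)
  have h2 : EvOne_im w = 0 := hg (by rw [map_zero]; funext i; exact (h i).2)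
  funext i
  exact Complex.ext (congrFun h1 i) (congrFun h2 i)

private theorem EvOne_norm_inc {d : ℕ} (v : Fin d → ℝ) : ‖EvOne_inc v‖ = ‖v‖ := by
  apply le_antisymm
  · refine (pi_norm_le_iff_of_nonneg (norm_nonneg _)).2 fun i => ?_
    simpa [EvOne_inc] using norm_le_pi_norm v i
  · refine (pi_norm_le_iff_of_nonneg (norm_nonneg _)).2 fun i => ?_
    simpa [EvOne_inc] using norm_le_pi_norm (EvOne_inc v) i

private theorem EvOne_pow_inc {d : ℕ} (g : (Fin d → ℝ) ≃ₗ[ℝ] (Fin d → ℝ)) (n : ℕ)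
    (v : Fin d → ℝ) :
    (EvOne_gc (g : (Fin d → ℝ) →ₗ[ℝ] (Fin d → ℝ)) ^ n) (EvOne_inc v) =
      EvOne_inc ((g ^ n) v) := by
  induction n generalizing v with
  | zero => simp
  | succ n ih =>
    rw [pow_succ, Module.End.mul_apply, EvOne_gc_inc, ih, pow_succ]
    rfl

private theorem EvOne_pow_sum {d : ℕ} (gc : (Fin d → ℂ) →ₗ[ℂ] (Fin d → ℂ)) (s : Finset ℂ)
    (v : ℂ → Fin d → ℂ) (hv : ∀ l ∈ s, gc (v l) = l • v l) (c : ℂ → ℂ) (n : ℕ) :
    (gc ^ n) (∑ l ∈ s, c l • v l) = ∑ l ∈ s, (l ^ n * c l) • v l := by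
  induction n with
  | zero => simp
  | succ n ih =>
    rw [pow_succ', Module.End.mul_apply, ih, map_sum]
    refine Finset.sum_congr rfl fun l hl => ?_
    rw [map_smul, hv l hl, smul_smul]
    congr 1
    ring

theorem ev_one {d : ℕ} (g : (Fin d → ℝ) ≃ₗ[ℝ] (Fin d → ℝ)) (Z : Set (Fin d → ℝ))
    (hZ : IsClosed Z) (hc : ∀ c : ℝ, 0 < c → ∀ v ∈ Z, c • v ∈ Z) (hi : ∀ v ∈ Z, g v ∈ Z)
    (x : Fin d → ℝ) (hxZ : x ∈ Z) (hx : x ≠ 0) :
    ∃ μ : ℝ, 0 < μ ∧ ∃ v ∈ Z, v ≠ 0 ∧ ∃ M : ℝ, ∀ n : ℤ, ‖(g ^ n) v‖ ≤ M * μ ^ n := by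
  classical
  set gc := EvOne_gc (g : (Fin d → ℝ) →ₗ[ℝ] (Fin d → ℝ)) with hgc
  have hinj : Function.Injective gc := EvOne_gc_inj _ g.injective
  have hix : EvOne_inc x ≠ 0 := by
    intro h
    apply hx
    funext i
    have := congrFun h i
    simpa [EvOne_inc] using this
  obtain ⟨μ, k, s, v, hμ, hs, hsum, hlim⟩ := ev_limit gc hinj (EvOne_inc x) hix
  have hs1 : ∀ l ∈ s.image (fun l => l / (μ : ℂ)), ‖l‖ = 1 := by
    intro l hl
    obtain ⟨m, hm, rfl⟩ := Finset.mem_image.1 hl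
    rw [norm_div, (hs m hm).1, Complex.norm_real, Real.norm_of_nonneg hμ.le,
      div_self hμ.ne']
  obtain ⟨φ, hφ, hrec⟩ := ev_rec _ hs1
  have hlim2 : Tendsto (fun n : ℕ => ∑ l ∈ s, (l / (μ : ℂ)) ^ φ n • v l) atTop
      (𝓝 (∑ l ∈ s, v l)) := by
    refine tendsto_finsetSum _ fun l hl => ?_
    have := (hrec (l / (μ : ℂ)) (Finset.mem_image_of_mem _ hl)).smul_const (v l)
    simpa using this
  have hlim3 := (hlim.comp hφ.tendsto_atTop).add hlim2
  rw [zero_add] at hlim3
  set a : ℕ → ℝ := fun n => (μ ^ n * (n.choose k : ℝ))⁻¹ with ha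
  have hlim4 : Tendsto (fun n : ℕ => EvOne_inc (a (φ n) • (g ^ φ n) x)) atTop
      (𝓝 (∑ l ∈ s, v l)) := by
    refine hlim3.congr fun n => ?_
    simp only [Function.comp]
    rw [sub_add_cancel, EvOne_pow_inc]
    funext i
    simp [EvOne_inc, ha]
  set w : Fin d → ℂ := ∑ l ∈ s, v l with hw
  have hre : Tendsto (fun n : ℕ => a (φ n) • (g ^ φ n) x) atTop (𝓝 (EvOne_re w)) := by
    rw [tendsto_pi_nhds] at hlim4 ⊢
    intro i
    have := (Complex.continuous_re.tendsto (w i)).comp (hlim4 i)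
    refine this.congr fun n => ?_
    simp [EvOne_inc]
  have him : EvOne_im w = 0 := by
    funext i
    rw [tendsto_pi_nhds] at hlim4
    have h1 := (Complex.continuous_im.tendsto (w i)).comp (hlim4 i)
    have h2 : Tendsto (fun _ : ℕ => (0 : ℝ)) atTop (𝓝 (w i).im) := by
      refine h1.congr fun n => ?_
      simp [EvOne_inc]
    exact tendsto_nhds_unique h2 tendsto_const_nhds
  have hwi : EvOne_inc (EvOne_re w) = w := by
    funext i
    have := congrFun him i
    exact Complex.ext (by simp [EvOne_inc, EvOne_re]) (by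
      simp only [EvOne_inc, Complex.ofReal_im]
      exact this.symm)
  have hpowZ : ∀ n : ℕ, (g ^ n) x ∈ Z := by
    intro n
    induction n with
    | zero => simpa using hxZ
    | succ n ih =>
      rw [pow_succ']
      exact hi _ ih
  refine ⟨μ, hμ, EvOne_re w, ?_, ?_, ∑ l ∈ s, ‖v l‖, ?_⟩
  · refine hZ.mem_of_tendsto hre ?_
    filter_upwards [eventually_ge_atTop k] with n hn
    refine hc _ ?_ _ (hpowZ _)
    have h1 : k ≤ φ n := hn.trans (hφ.id_le n)
    have h2 : (0 : ℝ) < ((φ n).choose k : ℝ) := by exact_mod_cast Nat.choose_pos h1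
    simp only [ha]
    positivity
  · intro h
    apply hsum
    rw [← hwi, h]
    funext i
    simp [EvOne_inc]
  · intro n
    have key : EvOne_inc ((g ^ n) (EvOne_re w)) = ∑ l ∈ s, l ^ n • v l := by
      have hl0 : ∀ l ∈ s, l ≠ 0 := by
        intro l hl h
        have := (hs l hl).1
        rw [h, norm_zero] at this
        exact hμ.ne this
      have hw1 : w = ∑ l ∈ s, (1 : ℂ) • v l := by simp [hw]
      obtain ⟨m, rfl | rfl⟩ := n.eq_nat_or_neg
      · rw [zpow_natCast, ← EvOne_pow_inc, hwi, hw1,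
          EvOne_pow_sum gc s v (fun l hl => (hs l hl).2)]
        simp
      · have hinjm : Function.Injective (gc ^ m) := by
          rw [Module.End.coe_pow]
          exact hinj.iterate m
        apply hinjm
        have h1 : ∑ l ∈ s, l ^ (-(m : ℤ)) • v l = ∑ l ∈ s, (fun l : ℂ => l ^ (-(m : ℤ))) l • v l :=
          rfl
        rw [h1, EvOne_pow_sum gc s v (fun l hl => (hs l hl).2), EvOne_pow_inc, ← LinearEquiv.mul_apply,
          ← zpow_natCast g m, ← zpow_add, add_neg_cancel, zpow_zero, LinearEquiv.coe_one, id, hwi,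
          hw]
        refine Finset.sum_congr rfl fun l hl => ?_
        rw [← zpow_natCast l m, ← zpow_add₀ (hl0 l hl), add_neg_cancel, zpow_zero, one_smul]
    rw [← EvOne_norm_inc, key, Finset.sum_mul]
    refine (norm_sum_le _ _).trans (Finset.sum_le_sum fun l hl => ?_)
    rw [norm_smul, norm_zpow, (hs l hl).1, mul_comm]

end H84.PG
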