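import Pool.Agent.H84.PG.Defs
import Pool.Agent.H36.PP.Chain

/-!
# Module FgChainN: finite generation from characters that kill `N` (IX.3)

As `fg_chain` (file `H36/PP/Chain.lean`; its auxiliary lemmas `Chain_G`, `Chain_comm`, `Chain_good`, ...
can be used): `G_j = γ_j(X) N`.  The only place where characters of `X` itself are used is the
first step `G_0 = X`, `G_1 = ⁅X, X⁆ N`, with characters which kill `G_1`, hence `N`.
-/

set_option autoImplicit false

namespace H84.PG

open H36.PP Subgroup

theorem fg_chain_n {X : Type*} [Group X] (hX : Group.FG X) (N : Subgroup X) [N.Normal]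
    (hnil : Group.IsNilpotent (X ⧸ N))
    (h0 : ∀ S : Set X, S.Finite → closure S = ⊤ → ∀ χ : X → ℝ, IsChar χ →
      (∀ n ∈ N, χ n = 0) → (∃ g, χ g ≠ 0) → Good χ S) : N.FG := by
  have hall : ∀ j, (Chain_G N (j + 1)).FG := by
    intro j
    induction j with
    | zero =>
      refine fg_step hX (Chain_G N 1) ?_ ?_
      · intro x y
        exact Chain_comm N 0 (by
          show y ∈ (⊤ : Subgroup X).lowerCentralSeries 0 ⊔ N
          rw [Subgroup.lowerCentralSeries_zero, top_sup_eq]
          exact Subgroup.mem_top y) x
      · intro S hSf hS χ hχ hk hne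
        exact h0 S hSf hS χ hχ (fun n hn => hk n (Subgroup.mem_sup_right hn)) hne
    | succ j ih =>
      have hC : Group.FG (Chain_G N (j + 1)) := (Group.fg_iff_subgroup_fg _).2 ih
      have hD := fg_step hC ((Chain_G N (j + 2)).subgroupOf (Chain_G N (j + 1))) (by
        intro x y
        rw [Subgroup.mem_subgroupOf]
        exact Chain_comm N (j + 1) y.2 (x : X)) (by
        intro S hSf hS χ hχ hk hne
        exact Chain_good N j S hSf hS χ hχ hk hne)
      have hmap : ((Chain_G N (j + 2)).subgroupOf (Chain_G N (j + 1))).map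
          (Chain_G N (j + 1)).subtype = Chain_G N (j + 2) := by
        rw [Subgroup.subgroupOf_map_subtype]
        exact inf_eq_left.2 (Chain_anti N (j + 1))
      rw [← hmap]
      exact Chain_fg_map hD _
  obtain ⟨c, hc⟩ := Subgroup.nilpotent_iff_lowerCentralSeries.1 hnil
  have hle : (⊤ : Subgroup X).lowerCentralSeries c ≤ N := by
    have h1 := Subgroup.map_lowerCentralSeries (⊤ : Subgroup X) (QuotientGroup.mk' N) c
    rw [Subgroup.map_top_of_surjective _ (QuotientGroup.mk'_surjective N), hc] at h1
    rw [Subgroup.map_eq_bot_iff, QuotientGroup.ker_mk'] at h1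
    exact h1
  have h2 : Chain_G N (c + 1) = N := by
    unfold Chain_G
    exact sup_eq_right.2 ((Subgroup.lowerCentralSeries_antitone _ (Nat.le_succ c)).trans hle)
  rw [← h2]
  exact hall c

end H84.PG
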