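import Pool.Agent.H84.PG.SmallCor

/-!
# Module GlueA: comparison of two half spaces (VIII.11)

On `{0 < u} ∩ {0 < u'}` (positive mean) `|z1 - z1'| < 2 ε` up to mean zero, for every `ε > 0`, so
`z1 = z1'` (`zero_of_small`); in the same way `z2 = z2'`.  On `{0 < u} ∩ {u' < 0}`
`|z1 - z2'| = |z1 - z2| < 2 ε` up to mean zero for every `ε`; if this set had positive mean then
`z1 = z2` (`zero_of_small`).  The same for `{u < 0} ∩ {0 < u'}`.
-/

set_option autoImplicit false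

namespace H84.PG

open Filter Topology

/-- two elements of `W` close to the same function on a set of positive mean are equal -/
theorem glueA_eq {X : Type*} [AddCommGroup X] (hX : AddGroup.FG X) (μ : Mean X)
    {W : Submodule ℝ (X → ℝ)} (hW : Stab W) {f z z' : X → ℝ} (hz : z ∈ W) (hz' : z' ∈ W)
    {Y : Set X} (hY : 0 < μ.m Y) (h : ∀ ε > 0, μ.m {x | x ∈ Y ∧ ε ≤ |f x - z x|} = 0)
    (h' : ∀ ε > 0, μ.m {x | x ∈ Y ∧ ε ≤ |f x - z' x|} = 0) : z = z' := by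
  have h0 : z - z' = 0 := by
    refine zero_of_small hX μ hW (W.sub_mem hz hz') hY fun ε hε => ?_
    have h1 := μ.m_zero_union (h (ε / 2) (by positivity)) (h' (ε / 2) (by positivity))
    have h2 := μ.m_diff Y ({x | x ∈ Y ∧ ε / 2 ≤ |f x - z x|} ∪
      {x | x ∈ Y ∧ ε / 2 ≤ |f x - z' x|})
    rw [h1, sub_zero] at h2
    refine h2.trans (μ.m_mono fun x hx => ?_)
    obtain ⟨hxY, hx2⟩ := hx
    simp only [Set.mem_union, Set.mem_ofPred_eq, not_or, not_and, not_le] at hx2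
    have h3 := hx2.1 hxY
    have h4 := hx2.2 hxY
    show |z x - z' x| < ε
    have h5 : z x - z' x = (f x - z' x) - (f x - z x) := by ring
    rw [h5]
    have h6 := abs_sub (f x - z' x) (f x - z x)
    linarith
  exact sub_eq_zero.1 h0

theorem glue_a {X : Type*} [AddCommGroup X] (hX : AddGroup.FG X) (μ : Mean X)
    {W : Submodule ℝ (X → ℝ)} (hW : Stab W) {f u u' z1 z2 z1' z2' : X → ℝ}
    (hz1 : z1 ∈ W) (hz2 : z2 ∈ W) (hz1' : z1' ∈ W) (hz2' : z2' ∈ W) (hne : z1 ≠ z2)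
    (h1 : ∀ ε > 0, μ.m {x | 0 < u x ∧ ε ≤ |f x - z1 x|} = 0)
    (h2 : ∀ ε > 0, μ.m {x | u x < 0 ∧ ε ≤ |f x - z2 x|} = 0)
    (h1' : ∀ ε > 0, μ.m {x | 0 < u' x ∧ ε ≤ |f x - z1' x|} = 0)
    (h2' : ∀ ε > 0, μ.m {x | u' x < 0 ∧ ε ≤ |f x - z2' x|} = 0)
    (hp : 0 < μ.m {x | 0 < u x ∧ 0 < u' x}) (hn : 0 < μ.m {x | u x < 0 ∧ u' x < 0}) :
    μ.m {x | 0 < u x ∧ u' x < 0} = 0 ∧ μ.m {x | u x < 0 ∧ 0 < u' x} = 0 := by
  have e1 : z1 = z1' := glueA_eq hX μ hW hz1 hz1' hp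
    (fun ε hε => by
      refine μ.m_zero_mono ?_ (h1 ε hε)
      intro x hx
      exact ⟨hx.1.1, hx.2⟩)
    (fun ε hε => by
      refine μ.m_zero_mono ?_ (h1' ε hε)
      intro x hx
      exact ⟨hx.1.2, hx.2⟩)
  have e2 : z2 = z2' := glueA_eq hX μ hW hz2 hz2' hn
    (fun ε hε => by
      refine μ.m_zero_mono ?_ (h2 ε hε)
      intro x hx
      exact ⟨hx.1.1, hx.2⟩)
    (fun ε hε => by
      refine μ.m_zero_mono ?_ (h2' ε hε)
      intro x hx
      exact ⟨hx.1.2, hx.2⟩)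
  constructor
  · by_contra hcon
    have hpos : 0 < μ.m {x | 0 < u x ∧ u' x < 0} :=
      lt_of_le_of_ne (μ.m_nonneg _) (Ne.symm hcon)
    have e3 : z1 = z2' := glueA_eq hX μ hW hz1 hz2' hpos
      (fun ε hε => by
      refine μ.m_zero_mono ?_ (h1 ε hε)
      intro x hx
      exact ⟨hx.1.1, hx.2⟩)
      (fun ε hε => by
      refine μ.m_zero_mono ?_ (h2' ε hε)
      intro x hx
      exact ⟨hx.1.2, hx.2⟩)
    exact hne (e3.trans e2.symm)
  · by_contra hcon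
    have hpos : 0 < μ.m {x | u x < 0 ∧ 0 < u' x} :=
      lt_of_le_of_ne (μ.m_nonneg _) (Ne.symm hcon)
    have e3 : z2 = z1' := glueA_eq hX μ hW hz2 hz1' hpos
      (fun ε hε => by
      refine μ.m_zero_mono ?_ (h2 ε hε)
      intro x hx
      exact ⟨hx.1.1, hx.2⟩)
      (fun ε hε => by
      refine μ.m_zero_mono ?_ (h1' ε hε)
      intro x hx
      exact ⟨hx.1.2, hx.2⟩)
    exact hne (e1.trans e3.symm)

end H84.PG
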