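import Pool.Agent.H84.PG.SnCpt
import Pool.Agent.H84.PG.WDens

/-!
# Module GlueNet: a finite net of rational vectors (VIII.11)

Let `w0 ∈ W`, `w0 ≠ 0`, scaled such that `sn w0 = 1`, and `x0` with `|w0 x0| ≥ 9 / 10`.  For every
`x` the translate `w (·) = w0 (· + (x0 - x))` is in `W`, `sn w = 1`, `|w x| ≥ 9 / 10`.  The set
`{w ∈ W | sn w ≤ 1}` is totally bounded for `sn`: a finite set `t0 ⊆ W` of elements with
`sn ≤ 1` such that every `w ∈ W` with `sn w ≤ 1` has `sn (w - w') ≤ 1 / 10` for some `w' ∈ t0`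
(from `sn_cpt` by contradiction: otherwise there is a sequence in the ball with all distances
`> 1 / 10`; or from finite dimensionality).  Replace every `w' ∈ t0` by `x ↦ u x / M` with
`u ∈ WZ`, `|u x / M - w' x| ≤ 1 / 10` (`w_dens`).  Then `sn ≤ 2` and for every `x` some element
has `|w x| ≥ 9 / 10 - 2 / 10`.
-/

set_option autoImplicit false

namespace H84.PG

open Filter Topology

private theorem gn_net {X : Type*} [AddCommGroup X] {W : Submodule ℝ (X → ℝ)} (hW : Stab W) :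
    ∃ t : Finset (X → ℝ), (∀ w ∈ t, w ∈ W ∧ sn w ≤ 1) ∧
      ∀ w ∈ W, sn w ≤ 1 → ∃ w' ∈ t, sn (fun x => w x - w' x) ≤ 1 / 10 := by
  by_contra hcon
  push Not at hcon
  obtain ⟨f, hf1, hf2⟩ := exists_seq_of_forall_finset_exists
    (fun w : X → ℝ => w ∈ W ∧ sn w ≤ 1) (fun w' w => 1 / 10 < sn (fun x => w x - w' x))
    (fun s hs => by
      obtain ⟨w, hw1, hw2, hw3⟩ := hcon s hs
      exact ⟨w, ⟨hw1, hw2⟩, hw3⟩)
  obtain ⟨v, hv, hlim⟩ := sn_cpt hW.fd hW.bdd f 1 (Eventually.of_forall hf1)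
  have h1 : ∀ᶠ n in UU, sn (fun x => f n x - v x) < 1 / 20 :=
    hlim.eventually (gt_mem_nhds (by norm_num))
  obtain ⟨n, hn⟩ := h1.exists
  obtain ⟨m, hm, hnm⟩ := (h1.and (UU_le (eventually_gt_atTop n))).exists
  have h2 := hf2 n m hnm
  have h3 : sn (fun x => f m x - f n x) ≤
      sn (fun x => f m x - v x) + sn (fun x => f n x - v x) := by
    have hb1 : Bdd (fun x => f m x - v x) := (hW.bdd _ (hf1 m).1).sub (hW.bdd _ hv)
    have hb2 : Bdd (fun x => f n x - v x) := (hW.bdd _ (hf1 n).1).sub (hW.bdd _ hv)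
    have h4 := sn_sub_le hb1 hb2
    have h5 : (fun x => (f m x - v x) - (f n x - v x)) = fun x => f m x - f n x := by
      funext x
      ring
    rwa [h5] at h4
  linarith

theorem glue_net {X : Type*} [AddCommGroup X] {W : Submodule ℝ (X → ℝ)} (hW : Stab W)
    {WZ : AddSubgroup (X → ℝ)} (hspan : Submodule.span ℝ (WZ : Set (X → ℝ)) = W)
    (hne : ∃ w ∈ W, w ≠ 0) :
    ∃ t : Finset (X → ℝ), (∀ w ∈ t, w ∈ W ∧ sn w ≤ 2 ∧
      ∃ M : ℕ, 0 < M ∧ (fun x => M * w x) ∈ WZ) ∧ ∀ x, ∃ w ∈ t, 1 / 2 ≤ |w x| := by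
  classical
  obtain ⟨t0, ht1, ht2⟩ := gn_net hW
  obtain ⟨w0, hw0, hw0ne⟩ := hne
  have hWZ : ∀ u ∈ WZ, u ∈ W := fun u hu => by
    rw [← hspan]
    exact Submodule.subset_span hu
  have hs : 0 < sn w0 := sn_pos (hW.bdd _ hw0) hw0ne
  set w1 : X → ℝ := fun x => (sn w0)⁻¹ * w0 x with hw1def
  have hw1 : w1 ∈ W := W.smul_mem (sn w0)⁻¹ hw0
  have hsn1 : sn w1 = 1 := by
    rw [hw1def, sn_smul, abs_of_pos (inv_pos.mpr hs), inv_mul_cancel₀ hs.ne']
  have hx0 : ∃ x0, 9 / 10 ≤ |w1 x0| := by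
    by_contra hc
    push Not at hc
    have := sn_le (w := w1) (C := 9 / 10) (by norm_num) fun x => (hc x).le
    rw [hsn1] at this
    norm_num at this
  obtain ⟨x0, hx0⟩ := hx0
  have hd : ∀ w ∈ t0, ∃ M : ℕ, 0 < M ∧ ∃ u ∈ WZ, ∀ x, |u x - M * w x| ≤ M * (1 / 10) :=
    fun w hw => w_dens hspan hW.bdd (ht1 w hw).1 (by norm_num)
  have hd' : ∀ w : X → ℝ, ∃ φ : X → ℝ, w ∈ t0 → (φ ∈ W ∧ sn φ ≤ 2 ∧
      (∃ M : ℕ, 0 < M ∧ (fun x => M * φ x) ∈ WZ) ∧ ∀ x, |φ x - w x| ≤ 1 / 10) := by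
    intro w
    by_cases hw : w ∈ t0
    · obtain ⟨M, hM, u, hu, hux⟩ := hd w hw
      have hM' : (0 : ℝ) < M := by exact_mod_cast hM
      have hdist : ∀ x, |(M : ℝ)⁻¹ * u x - w x| ≤ 1 / 10 := by
        intro x
        have h1 : (M : ℝ)⁻¹ * u x - w x = (M : ℝ)⁻¹ * (u x - M * w x) := by
          field_simp
        rw [h1, abs_mul, abs_of_pos (inv_pos.mpr hM')]
        calc (M : ℝ)⁻¹ * |u x - M * w x| ≤ (M : ℝ)⁻¹ * (M * (1 / 10)) :=
              mul_le_mul_of_nonneg_left (hux x) (inv_pos.mpr hM').le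
          _ = 1 / 10 := by field_simp
      refine ⟨fun x => (M : ℝ)⁻¹ * u x, fun _ => ⟨W.smul_mem _ (hWZ u hu), ?_,
        ⟨M, hM, ?_⟩, hdist⟩⟩
      · refine sn_le (by norm_num) fun x => ?_
        have h1 := hdist x
        have h2 := (le_sn (hW.bdd _ (ht1 w hw).1) x).trans (ht1 w hw).2
        have h3 := abs_sub_abs_le_abs_sub ((M : ℝ)⁻¹ * u x) (w x)
        linarith
      · have : (fun x => (M : ℝ) * ((M : ℝ)⁻¹ * u x)) = u := by
          funext x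
          field_simp
        rw [this]
        exact hu
    · exact ⟨w, fun h => absurd h hw⟩
  choose φ hφ using hd'
  refine ⟨t0.image φ, ?_, ?_⟩
  · intro w hw
    obtain ⟨w', hw', rfl⟩ := Finset.mem_image.mp hw
    exact ⟨(hφ w' hw').1, (hφ w' hw').2.1, (hφ w' hw').2.2.1⟩
  · intro x
    have hw2 : (fun z => w1 (z + (x0 - x))) ∈ W := hW.inv w1 hw1 _
    have hsn2 : sn (fun z => w1 (z + (x0 - x))) ≤ 1 := by
      rw [sn_trans, hsn1]
    obtain ⟨w', hw', hdist⟩ := ht2 _ hw2 hsn2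
    refine ⟨φ w', Finset.mem_image_of_mem φ hw', ?_⟩
    have hb : Bdd (fun z => w1 (z + (x0 - x)) - w' z) :=
      (hW.bdd _ hw2).sub (hW.bdd _ (ht1 w' hw').1)
    have h1 := (le_sn hb x).trans hdist
    have h2 : x + (x0 - x) = x0 := by abel
    simp only [h2] at h1
    have h3 := (hφ w' hw').2.2.2 x
    have h4 := abs_sub_abs_le_abs_sub (w1 x0) (w' x)
    have h5 := abs_sub_abs_le_abs_sub (w' x) (φ w' x)
    rw [abs_sub_comm] at h3
    linarith

end H84.PG
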