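import Pool.Agent.H84.PG.GlueA
import Pool.Agent.H84.PG.GlueNet

/-!
# Module GlueB: a gap around zero (VIII.11)

Take `η > 0` with `m {x ∈ Y, η < u x} > 0` and `m {x ∈ Y, u x < -η} > 0` (`exists_gt_of`,
`exists_lt_of`, minimum), a natural number `N` with `4 / N ≤ η`, `θ = 1 / N`, the net `t`
(`glue_net`; `u ≠ 0`).  For `w ∈ t` let `u' = u ± θ w`: `|θ w| ≤ 2 θ ≤ η / 2` and a positive
multiple of `u'` is in `WZ` (multiply by `N M`; `WZ` is a group).  `{η < u} ⊆ {0 < u'}`, `{u < -η} ⊆ {u' < 0}`, so `hP` applies to the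
multiple of `u'` and to its negative (`{0 < c u'} = {0 < u'}` for `c > 0`), and `glue_a`
applies: `m {0 < u ∧ u' < 0} = 0 = m {u < 0 ∧ 0 < u'}`.  Let `ρ = θ / 2`.  If `|u x| < ρ`, `u x ≠ 0`,
choose `w ∈ t` with `|w x| ≥ 1 / 2`; `|θ w x| ≥ θ / 2 > |u x|`, so one of `u ± θ w` has at `x` the
sign opposite to `u x`.  So `{|u| < ρ}` is contained in a finite union of sets of mean zero and
`{u = 0}` (`m_zero_set`, `Mean.m_biUnion_zero`).
-/

set_option autoImplicit false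

namespace H84.PG

open Filter Topology

theorem glueB_pert {X : Type*} [AddCommGroup X] (hX : AddGroup.FG X) (μ : Mean X)
    {W : Submodule ℝ (X → ℝ)} (hW : Stab W) {WZ : AddSubgroup (X → ℝ)}
    {Y : Set X} {f u z1 z2 : X → ℝ}
    (hP : ∀ u ∈ WZ, 0 < μ.m {x | x ∈ Y ∧ 0 < u x} → 0 < μ.m {x | x ∈ Y ∧ u x < 0} →
      ∃ z ∈ W, ∀ ε > 0, μ.m {x | 0 < u x ∧ ε ≤ |f x - z x|} = 0)
    (hz1 : z1 ∈ W) (hz2 : z2 ∈ W) (hne : z1 ≠ z2)
    (h1 : ∀ ε > 0, μ.m {x | 0 < u x ∧ ε ≤ |f x - z1 x|} = 0)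
    (h2 : ∀ ε > 0, μ.m {x | u x < 0 ∧ ε ≤ |f x - z2 x|} = 0)
    {η : ℝ} (hη : 0 < η) (hp : 0 < μ.m {x | x ∈ Y ∧ η < u x})
    (hn : 0 < μ.m {x | x ∈ Y ∧ u x < -η}) {u' : X → ℝ} (hc : ∀ x, |u' x - u x| < η)
    {c : ℝ} (hc0 : 0 < c) (hcu : (fun x => c * u' x) ∈ WZ) :
    μ.m {x | 0 < u x ∧ u' x < 0} = 0 ∧ μ.m {x | u x < 0 ∧ 0 < u' x} = 0 := by
  have hpos : ∀ x, η < u x → 0 < u' x := fun x hx => by
    have := (abs_lt.mp (hc x)).1
    linarith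
  have hneg : ∀ x, u x < -η → u' x < 0 := fun x hx => by
    have := (abs_lt.mp (hc x)).2
    linarith
  obtain ⟨z1', hz1', h1'⟩ := hP _ hcu
    (lt_of_lt_of_le hp (μ.m_mono fun x hx => ⟨hx.1, mul_pos hc0 (hpos x hx.2)⟩))
    (lt_of_lt_of_le hn (μ.m_mono fun x hx => ⟨hx.1, mul_neg_of_pos_of_neg hc0 (hneg x hx.2)⟩))
  obtain ⟨z2', hz2', h2'⟩ := hP _ (WZ.neg_mem hcu)
    (lt_of_lt_of_le hn (μ.m_mono fun x hx => ⟨hx.1, by
      show 0 < -(c * u' x)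
      have := mul_neg_of_pos_of_neg hc0 (hneg x hx.2)
      linarith⟩))
    (lt_of_lt_of_le hp (μ.m_mono fun x hx => ⟨hx.1, by
      show -(c * u' x) < 0
      have := mul_pos hc0 (hpos x hx.2)
      linarith⟩))
  refine glue_a hX μ hW hz1 hz2 hz1' hz2' hne h1 h2 ?_ ?_ ?_ ?_
  · intro ε hε
    refine μ.m_zero_mono ?_ (h1' ε hε)
    intro x hx
    exact ⟨mul_pos hc0 hx.1, hx.2⟩
  · intro ε hε
    refine μ.m_zero_mono ?_ (h2' ε hε)
    intro x hx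
    refine ⟨?_, hx.2⟩
    show 0 < -(c * u' x)
    have := mul_neg_of_pos_of_neg hc0 hx.1
    linarith
  · exact lt_of_lt_of_le hp (μ.m_mono fun x hx => ⟨hη.trans hx.2, hpos x hx.2⟩)
  · exact lt_of_lt_of_le hn (μ.m_mono fun x hx => ⟨by
      have := hx.2
      show u x < 0
      linarith, hneg x hx.2⟩)

theorem glue_b {X : Type*} [AddCommGroup X] (hX : AddGroup.FG X) (μ : Mean X)
    {W : Submodule ℝ (X → ℝ)} (hW : Stab W) {WZ : AddSubgroup (X → ℝ)}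
    (hspan : Submodule.span ℝ (WZ : Set (X → ℝ)) = W) {Y : Set X} {f u z1 z2 : X → ℝ}
    (hP : ∀ u ∈ WZ, 0 < μ.m {x | x ∈ Y ∧ 0 < u x} → 0 < μ.m {x | x ∈ Y ∧ u x < 0} →
      ∃ z ∈ W, ∀ ε > 0, μ.m {x | 0 < u x ∧ ε ≤ |f x - z x|} = 0)
    (hu : u ∈ WZ) (hp : 0 < μ.m {x | x ∈ Y ∧ 0 < u x}) (hn : 0 < μ.m {x | x ∈ Y ∧ u x < 0})
    (hz1 : z1 ∈ W) (hz2 : z2 ∈ W) (hne : z1 ≠ z2)
    (h1 : ∀ ε > 0, μ.m {x | 0 < u x ∧ ε ≤ |f x - z1 x|} = 0)
    (h2 : ∀ ε > 0, μ.m {x | u x < 0 ∧ ε ≤ |f x - z2 x|} = 0) :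
    ∃ ρ > 0, μ.m {x | |u x| < ρ} = 0 := by
  have huW : u ∈ W := hspan ▸ Submodule.subset_span hu
  have hu0 : u ≠ 0 := by
    rintro rfl
    have h : {x : X | x ∈ Y ∧ (0 : ℝ) < (0 : X → ℝ) x} = ∅ := by
      ext x
      simp
    rw [h, μ.m_empty] at hp
    exact lt_irrefl _ hp
  obtain ⟨η1, hη1, hp1⟩ := exists_gt_of hX μ hW huW hp
  obtain ⟨η2, hη2, hn2⟩ := exists_lt_of hX μ hW huW hn
  set η := min η1 η2 with hηd
  have hη : 0 < η := lt_min hη1 hη2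
  have hp' : 0 < μ.m {x | x ∈ Y ∧ η < u x} :=
    lt_of_lt_of_le hp1 (μ.m_mono fun x hx => ⟨hx.1, lt_of_le_of_lt (min_le_left _ _) hx.2⟩)
  have hn' : 0 < μ.m {x | x ∈ Y ∧ u x < -η} :=
    lt_of_lt_of_le hn2 (μ.m_mono fun x hx => ⟨hx.1, lt_of_lt_of_le hx.2
      (neg_le_neg (min_le_right _ _))⟩)
  obtain ⟨N, hN⟩ := exists_nat_gt (4 / η)
  have hN0 : (0 : ℝ) < N := lt_trans (by positivity) hN
  have h4 : 4 / (N : ℝ) < η := by
    rw [div_lt_iff₀ hη] at hN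
    rw [div_lt_iff₀ hN0]
    linarith
  obtain ⟨t, ht1, ht2⟩ := glue_net hW hspan ⟨u, huW, hu0⟩
  have key : ∀ w ∈ t, ∀ s : ℝ, (s = 1 ∨ s = -1) →
      μ.m {x | 0 < u x ∧ u x + s * (w x / N) < 0} = 0 ∧
        μ.m {x | u x < 0 ∧ 0 < u x + s * (w x / N)} = 0 := by
    intro w hw s hs
    obtain ⟨hwW, hsn, M, hM, hMw⟩ := ht1 w hw
    have hM0 : (0 : ℝ) < M := by exact_mod_cast hM
    have hs1 : |s| = 1 := by
      rcases hs with rfl | rfl <;> simp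
    refine glueB_pert hX μ hW hP hz1 hz2 hne h1 h2 hη hp' hn'
      (u' := fun x => u x + s * (w x / N)) ?_ (mul_pos hN0 hM0) ?_
    · intro x
      have h5 : u x + s * (w x / N) - u x = s * (w x / N) := by ring
      show |u x + s * (w x / N) - u x| < η
      rw [h5, abs_mul, hs1, one_mul, abs_div, abs_of_pos hN0]
      refine lt_of_le_of_lt ?_ h4
      have h6 := (le_sn (hW.bdd w hwW) x).trans hsn
      exact div_le_div_of_nonneg_right (by linarith) hN0.le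
    · have h7 : (fun x => (N : ℝ) * M * (u x + s * (w x / N))) =
          (N * M : ℕ) • u + (fun x => s * (M * w x)) := by
        funext x
        change _ = (N * M : ℕ) • u x + s * (M * w x)
        rw [nsmul_eq_mul]
        push_cast
        field_simp
      rw [h7]
      refine WZ.add_mem (WZ.nsmul_mem hu _) ?_
      rcases hs with rfl | rfl
      · simpa using hMw
      · have h8 := WZ.neg_mem hMw
        have h9 : (fun x => (-1 : ℝ) * (M * w x)) = -(fun x => (M : ℝ) * w x) := by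
          funext x
          simp
        rw [h9]
        exact h8
  refine ⟨1 / (2 * N), by positivity, ?_⟩
  have hz := m_zero_set hX μ hW huW hu0
  have hU : μ.m (⋃ w ∈ t, (({x | 0 < u x ∧ u x + 1 * (w x / N) < 0} ∪
      {x | u x < 0 ∧ 0 < u x + 1 * (w x / N)}) ∪
      ({x | 0 < u x ∧ u x + (-1) * (w x / N) < 0} ∪
      {x | u x < 0 ∧ 0 < u x + (-1) * (w x / N)}))) = 0 := by
    refine μ.m_biUnion_zero t _ fun w hw => ?_
    exact μ.m_zero_union (μ.m_zero_union (key w hw 1 (Or.inl rfl)).1 (key w hw 1 (Or.inl rfl)).2)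
      (μ.m_zero_union (key w hw (-1) (Or.inr rfl)).1 (key w hw (-1) (Or.inr rfl)).2)
  refine μ.m_zero_mono ?_ (μ.m_zero_union hz hU)
  intro x hx
  have hx1 : |u x| < 1 / (2 * N) := hx
  by_cases h0 : u x = 0
  · exact Or.inl h0
  · right
    obtain ⟨w, hw, hwx⟩ := ht2 x
    have h10 : 1 / (2 * (N : ℝ)) ≤ |w x / N| := by
      rw [abs_div, abs_of_pos hN0, div_le_div_iff₀ (by positivity) hN0]
      nlinarith
    have h11 : |u x| < |w x / N| := lt_of_lt_of_le hx1 h10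
    simp only [Set.mem_iUnion, Set.mem_union, Set.mem_ofPred_eq]
    refine ⟨w, hw, ?_⟩
    rcases lt_or_gt_of_ne h0 with h | h
    · rw [abs_of_neg h] at h11
      rcases le_or_gt 0 (w x / N) with h12 | h12
      · rw [abs_of_nonneg h12] at h11
        exact Or.inl (Or.inr ⟨h, by linarith⟩)
      · rw [abs_of_neg h12] at h11
        exact Or.inr (Or.inr ⟨h, by linarith⟩)
    · rw [abs_of_pos h] at h11
      rcases le_or_gt 0 (w x / N) with h12 | h12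
      · rw [abs_of_nonneg h12] at h11
        exact Or.inr (Or.inl ⟨h, by linarith⟩)
      · rw [abs_of_neg h12] at h11
        exact Or.inl (Or.inl ⟨h, by linarith⟩)

end H84.PG
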