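import Pool.Agent.H36.PP.CayB

/-!
# Module GoodLoc: a local criterion for connectivity (VI.3)

`Good` with constant `0`.  Claim: if `CConn χ S r g h` with `r + δ ≤ χ g`, `r + δ ≤ χ h`, then
`CConn χ S (r + δ) g h`.  Take a finite path (a list of vertices) from `g` to `h` at level `r`; induction
on the number of its vertices with `χ < r + δ`.  If there are any, let `v` be one with minimal
`χ`; it is not an end point; let `v s`, `v s'` be its neighbours in the path: `s` or `s⁻¹` is in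
`S`, `χ s ≥ 0`, the same for `s'`.  By hypothesis there is a path from `t` to `s` all of whose
vertices except possibly the last one have `χ ≥ δ`; translated by `v`: a path from `v t` to
`v s`, all vertices except the last have `χ ≥ χ v + δ ≥ r + δ`.  The same for `s'`.  Replace the
part `v s, v, v s'` of the path by the path `v s ... v t ... v s'`: fewer low vertices.
Then: let `0 ≤ χ g`.  There is some path from `1` to `g` (`hS`), at level `- m δ` for some natural
number `m`; apply the claim `m` times (`χ 1 = 0 ≤ χ g`).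
(It may be convenient to work with `List.IsChain` or with functions `ℕ → C`.)
-/

set_option autoImplicit false

namespace H84.PG

open H36.PP Subgroup

/-- vertices that are high, or belong to the set `F` of exceptions -/
private def GoodLocA {C : Type*} [Group C] (χ : C → ℝ) (r : ℝ) (F : Finset C) (x : C) : Prop :=
  r ≤ χ x ∨ x ∈ F

private def GoodLocE {C : Type*} [Group C] (χ : C → ℝ) (S : Set C) (r : ℝ) (F : Finset C)
    (x y : C) : Prop :=
  GoodLocA χ r F x ∧ GoodLocA χ r F y ∧ (x⁻¹ * y ∈ S ∨ y⁻¹ * x ∈ S)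

private theorem GoodLoc_symm {C : Type*} [Group C] {χ : C → ℝ} {S : Set C} {r : ℝ} {F : Finset C}
    {x y : C} (h : Relation.ReflTransGen (GoodLocE χ S r F) x y) :
    Relation.ReflTransGen (GoodLocE χ S r F) y x := by
  induction h with
  | refl => exact Relation.ReflTransGen.refl
  | tail _ h2 ih => exact Relation.ReflTransGen.head ⟨h2.2.1, h2.1, h2.2.2.symm⟩ ih

private theorem GoodLoc_mono {C : Type*} [Group C] {χ : C → ℝ} {S : Set C} {r : ℝ}
    {F F' : Finset C} (hF : F ⊆ F') {x y : C}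
    (h : Relation.ReflTransGen (GoodLocE χ S r F) x y) :
    Relation.ReflTransGen (GoodLocE χ S r F') x y := by
  refine Relation.ReflTransGen.mono ?_ _ _ h
  rintro a b ⟨h1, h2, h3⟩
  exact ⟨h1.imp id (fun h => hF h), h2.imp id (fun h => hF h), h3⟩

private theorem GoodLoc_start {C : Type*} [Group C] {χ : C → ℝ} {S : Set C} {r r' : ℝ}
    {g h : C} (hgh : CConn χ S r g h) :
    ∃ F : Finset C, (∀ v ∈ F, r ≤ χ v) ∧ Relation.ReflTransGen (GoodLocE χ S r' F) g h := by
  classical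
  unfold CConn at hgh
  induction hgh with
  | refl => exact ⟨∅, by simp, Relation.ReflTransGen.refl⟩
  | @tail b c _ h2 ih =>
    obtain ⟨F, hF, h3⟩ := ih
    refine ⟨insert b (insert c F), ?_, ?_⟩
    · intro v hv
      rw [Finset.mem_insert, Finset.mem_insert] at hv
      rcases hv with hv | hv | hv
      · rw [hv]; exact h2.1
      · rw [hv]; exact h2.2.1
      · exact hF v hv
    · refine (GoodLoc_mono ?_ h3).tail ⟨Or.inr ?_, Or.inr ?_, h2.2.2⟩
      · exact (Finset.subset_insert _ _).trans (Finset.subset_insert _ _)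
      · exact Finset.mem_insert_self _ _
      · exact Finset.mem_insert_of_mem (Finset.mem_insert_self _ _)

private theorem GoodLoc_path {C : Type*} [Group C] {χ : C → ℝ} (hχ : IsChar χ) {S : Set C}
    {t : C} {δ r : ℝ} {F : Finset C} {v : C} (hv : r - δ ≤ χ v) {s : C}
    (hs : GoodLocA χ r F (v * s))
    (h : Relation.ReflTransGen (fun g h : C => (g⁻¹ * h ∈ S ∨ h⁻¹ * g ∈ S) ∧ δ ≤ χ g) t s) :
    GoodLocA χ r F (v * t) ∧ Relation.ReflTransGen (GoodLocE χ S r F) (v * t) (v * s) := by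
  induction h using Relation.ReflTransGen.head_induction_on with
  | refl => exact ⟨hs, Relation.ReflTransGen.refl⟩
  | @head a b hab _ ih =>
    have h1 : GoodLocA χ r F (v * a) := by
      left
      rw [hχ]
      linarith [hab.2]
    refine ⟨h1, Relation.ReflTransGen.head ⟨h1, ih.1, ?_⟩ ih.2⟩
    have e1 : (v * a)⁻¹ * (v * b) = a⁻¹ * b := by group
    have e2 : (v * b)⁻¹ * (v * a) = b⁻¹ * a := by group
    rw [e1, e2]
    exact hab.1

/-- one lowest exceptional vertex can be removed -/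
private theorem GoodLoc_remove {C : Type*} [Group C] [DecidableEq C] {χ : C → ℝ}
    (hχ : IsChar χ) {S : Set C} {t : C} {δ : ℝ}
    (h : ∀ s : C, s ∈ S ∨ s⁻¹ ∈ S → 0 ≤ χ s →
      Relation.ReflTransGen (fun g h : C => (g⁻¹ * h ∈ S ∨ h⁻¹ * g ∈ S) ∧ δ ≤ χ g) t s)
    {r : ℝ} {F : Finset C} {v : C} (hv : r - δ ≤ χ v) (hvr : χ v < r)
    (hmin : ∀ x ∈ F, χ v ≤ χ x) {g y : C} (hgv : g ≠ v)
    (hgy : Relation.ReflTransGen (GoodLocE χ S r F) g y) :
    (y ≠ v → Relation.ReflTransGen (GoodLocE χ S r (F.erase v)) g y) ∧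
      (y = v → ∃ w, (w⁻¹ * v ∈ S ∨ v⁻¹ * w ∈ S) ∧ GoodLocA χ r (F.erase v) w ∧
        Relation.ReflTransGen (GoodLocE χ S r (F.erase v)) g w) := by
  have hA : ∀ x, GoodLocA χ r F x → x ≠ v → GoodLocA χ r (F.erase v) x := fun x hx hxv =>
    hx.imp id (fun h => Finset.mem_erase.2 ⟨hxv, h⟩)
  have hge : ∀ x, GoodLocA χ r F x → 0 ≤ χ (v⁻¹ * x) := by
    intro x hx
    rw [hχ, hχ.inv]
    rcases hx with hx | hx
    · linarith
    · linarith [hmin x hx]
  have hcon : ∀ w, GoodLocA χ r (F.erase v) w → (w⁻¹ * v ∈ S ∨ v⁻¹ * w ∈ S) →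
      Relation.ReflTransGen (GoodLocE χ S r (F.erase v)) (v * t) w := by
    intro w hw hwv
    have h1 : 0 ≤ χ (v⁻¹ * w) := hge w (hw.imp id (fun h => Finset.mem_of_mem_erase h))
    have h2 : v⁻¹ * w ∈ S ∨ (v⁻¹ * w)⁻¹ ∈ S := by
      rcases hwv with h3 | h3
      · right
        rw [mul_inv_rev, inv_inv]
        exact h3
      · exact Or.inl h3
    have h3 := GoodLoc_path hχ (r := r) (F := F.erase v) hv (s := v⁻¹ * w)
      (by rw [mul_inv_cancel_left]; exact hw) (h _ h2 h1)
    have h4 := h3.2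
    rw [mul_inv_cancel_left] at h4
    exact h4
  induction hgy with
  | refl => exact ⟨fun _ => Relation.ReflTransGen.refl, fun h => absurd h hgv⟩
  | @tail y z _ hyz ih =>
    obtain ⟨hy, hz, hyz⟩ := hyz
    by_cases hyv : y = v
    · obtain ⟨w, hw1, hw2, hw3⟩ := ih.2 hyv
      refine ⟨fun hzv => ?_, fun _ => ⟨w, hw1, hw2, hw3⟩⟩
      subst hyv
      exact hw3.trans ((GoodLoc_symm (hcon w hw2 hw1)).trans (hcon z (hA z hz hzv) hyz.symm))
    · have h1 := ih.1 hyv
      refine ⟨fun hzv => h1.tail ⟨hA y hy hyv, hA z hz hzv, hyz⟩, fun hzv => ?_⟩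
      subst hzv
      exact ⟨y, hyz, hA y hy hyv, h1⟩

/-- all exceptional vertices can be removed -/
private theorem GoodLoc_all {C : Type*} [Group C] [DecidableEq C] {χ : C → ℝ}
    (hχ : IsChar χ) {S : Set C} {t : C} {δ : ℝ} (_hδ : 0 < δ)
    (h : ∀ s : C, s ∈ S ∨ s⁻¹ ∈ S → 0 ≤ χ s →
      Relation.ReflTransGen (fun g h : C => (g⁻¹ * h ∈ S ∨ h⁻¹ * g ∈ S) ∧ δ ≤ χ g) t s)
    {r : ℝ} {g y : C} (hg : r ≤ χ g) (hy : r ≤ χ y) (n : ℕ) :
    ∀ F : Finset C, F.card ≤ n → (∀ v ∈ F, r - δ ≤ χ v) →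
      Relation.ReflTransGen (GoodLocE χ S r F) g y →
      Relation.ReflTransGen (GoodLocE χ S r ∅) g y := by
  induction n with
  | zero =>
    intro F hF _ hgy
    rw [Finset.card_eq_zero.1 (Nat.le_zero.1 hF)] at hgy
    exact hgy
  | succ n ih =>
    intro F hF hFr hgy
    rcases F.eq_empty_or_nonempty with hF0 | hF0
    · rw [hF0] at hgy
      exact hgy
    obtain ⟨v, hvF, hmin⟩ := Finset.exists_min_image F χ hF0
    have hcard : (F.erase v).card ≤ n := by
      rw [Finset.card_erase_of_mem hvF]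
      omega
    have hFr' : ∀ x ∈ F.erase v, r - δ ≤ χ x := fun x hx => hFr x (Finset.mem_of_mem_erase hx)
    by_cases hvr : r ≤ χ v
    · refine ih _ hcard hFr' ?_
      refine Relation.ReflTransGen.mono ?_ _ _ hgy
      have hA : ∀ x, GoodLocA χ r F x → GoodLocA χ r (F.erase v) x := by
        intro x hx
        rcases hx with hx | hx
        · exact Or.inl hx
        · exact Or.inl (hvr.trans (hmin x hx))
      rintro a b ⟨h1, h2, h3⟩
      exact ⟨hA a h1, hA b h2, h3⟩
    · push Not at hvr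
      refine ih _ hcard hFr' ?_
      refine (GoodLoc_remove hχ h (hFr v hvF) hvr hmin ?_ hgy).1 ?_
      · rintro rfl
        linarith
      · rintro rfl
        linarith

private theorem GoodLoc_claim {C : Type*} [Group C] {χ : C → ℝ}
    (hχ : IsChar χ) {S : Set C} {t : C} {δ : ℝ} (hδ : 0 < δ)
    (h : ∀ s : C, s ∈ S ∨ s⁻¹ ∈ S → 0 ≤ χ s →
      Relation.ReflTransGen (fun g h : C => (g⁻¹ * h ∈ S ∨ h⁻¹ * g ∈ S) ∧ δ ≤ χ g) t s)
    {r : ℝ} {g y : C} (hg : r ≤ χ g) (hy : r ≤ χ y) (hgy : CConn χ S (r - δ) g y) :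
    CConn χ S r g y := by
  classical
  obtain ⟨F, hF, h1⟩ := GoodLoc_start (r' := r) hgy
  have h2 := GoodLoc_all hχ hδ h hg hy F.card F le_rfl hF h1
  refine Relation.ReflTransGen.mono ?_ _ _ h2
  rintro a b ⟨h3, h4, h5⟩
  refine ⟨?_, ?_, h5⟩
  · exact h3.resolve_right (Finset.notMem_empty a)
  · exact h4.resolve_right (Finset.notMem_empty b)

theorem good_of_local {C : Type*} [Group C] {χ : C → ℝ} (hχ : IsChar χ) {S : Set C}
    (hS : closure S = ⊤) {t : C} {δ : ℝ} (hδ : 0 < δ)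
    (h : ∀ s : C, s ∈ S ∨ s⁻¹ ∈ S → 0 ≤ χ s →
      Relation.ReflTransGen (fun g h : C => (g⁻¹ * h ∈ S ∨ h⁻¹ * g ∈ S) ∧ δ ≤ χ g) t s) :
    Good χ S := by
  refine ⟨0, le_rfl, fun g hg => ?_⟩
  obtain ⟨c, _, hb⟩ := CConn.bound hχ hS g
  have h1 := hb 1
  rw [one_mul, hχ.one] at h1
  obtain ⟨m, hm⟩ := exists_nat_ge (c / δ)
  have hm' : c ≤ m * δ := by
    rw [div_le_iff₀ hδ] at hm
    exact hm
  have h2 : CConn χ S (-(m * δ)) 1 g := h1.mono (by linarith)
  have key : ∀ m : ℕ, CConn χ S (-(m * δ)) 1 g → CConn χ S (-0) 1 g := by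
    intro m
    induction m with
    | zero =>
      intro h3
      refine h3.mono ?_
      simp
    | succ m ih =>
      intro h3
      have h0 : (0 : ℝ) ≤ m * δ := by positivity
      refine ih (GoodLoc_claim hχ hδ h (by rw [hχ.one]; linarith) (by linarith) (h3.mono ?_))
      push_cast
      linarith
  exact key m h2

end H84.PG
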