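import Pool.Agent.H84.PG.LemE
import Pool.Agent.H84.PG.DepUM
import Pool.Agent.H84.PG.DepGood

/-!
# Module LemChar: characters of the group that kill `N` are good (IX.1)

Depth function with `C = G`, `j = MonoidHom.id G`: `DepH`: `cA`: `g = g * 1`; `nA`: `χ g ≠ 0` for some
`g = a * n` (`A ⊔ N = ⊤`, `N` normal), `χ a ≠ 0`; `nB` the same.  If `dep = ⊤` everywhere:
`dep_good` (`Max` of `A.comap id`: `Max.of_injective` or `AP`).  Otherwise `lemE` with `nu = 1`, `b = χ`,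
`K = charKer χ hχ`; `G ⧸ K` is abelian and finitely generated (`AP.of_comm_fg`), or a quotient of ... ;
`dep_um`, `dep_eqv`; `t ∈ A` with `χ t > 0` (invert if necessary).
-/

set_option autoImplicit false

namespace H84.PG

open H36.PP Subgroup

private theorem LemChar_mem {G : Type*} [Group G] {A : Subgroup G} (N : Subgroup G)
    [N.Normal] (hA : A ⊔ N = ⊤) (χ : G → ℝ) (hχ : IsChar χ) (hk : ∀ n ∈ N, χ n = 0)
    (hne : ∃ g, χ g ≠ 0) : ∃ a ∈ A, χ a ≠ 0 := by
  obtain ⟨g, hg⟩ := hne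
  have h1 : g ∈ ((A ⊔ N : Subgroup G) : Set G) := by
    rw [hA]
    exact mem_top g
  rw [Subgroup.mul_normal] at h1
  obtain ⟨a, ha, n, hn, rfl⟩ := Set.mem_mul.mp h1
  refine ⟨a, ha, ?_⟩
  rw [hχ, hk n hn, add_zero] at hg
  exact hg

theorem lem_char {G : Type*} [Group G] {A B : Subgroup G} (h : MinD G A B) (N : Subgroup G)
    [N.Normal] (hA : A ⊔ N = ⊤) (hB : B ⊔ N = ⊤) (S : Set G) (hf : S.Finite)
    (hS : closure S = ⊤) (χ : G → ℝ) (hχ : IsChar χ) (hk : ∀ n ∈ N, χ n = 0)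
    (hne : ∃ g, χ g ≠ 0) : Good χ S := by
  obtain ⟨a, ha, ha0⟩ := LemChar_mem N hA χ hχ hk hne
  obtain ⟨b, hb, hb0⟩ := LemChar_mem N hB χ hχ hk hne
  have hD : DepH (MonoidHom.id G) A B χ S :=
    { hχ := hχ
      cA := fun g => ⟨g, 1, A.one_mem, by simp⟩
      cB := fun g => ⟨g, 1, B.one_mem, by simp⟩
      nA := ⟨a, ha, ha0⟩
      nB := ⟨b, hb, hb0⟩
      gen := hS }
  by_cases hd : ∀ l m, dep (MonoidHom.id G) A B χ S l m = ⊤
  · exact dep_good hD (by rw [comap_id]; exact h.apA.1) (by rw [comap_id]; exact h.apB.1) hd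
  · exfalso
    push Not at hd
    have hconj : ∀ n g, χ (g * n * g⁻¹) = χ n := by
      intro n g
      rw [hχ, hχ, hχ.inv]
      ring
    have hmem : ∀ g, g ∈ charKer χ hχ ↔ χ g = 0 := fun g => Iff.rfl
    have hnorm : (charKer χ hχ).Normal :=
      ⟨fun n hn g => (hmem _).mpr ((hconj n g).trans ((hmem n).mp hn))⟩
    have hfg : Group.FG G := h.groupFG
    have hq : AP (G ⧸ charKer χ hχ) := by
      refine AP.of_comm_fg ?_ inferInstance
      intro x y
      obtain ⟨x, rfl⟩ := QuotientGroup.mk_surjective x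
      obtain ⟨y, rfl⟩ := QuotientGroup.mk_surjective y
      rw [← QuotientGroup.mk_mul, ← QuotientGroup.mk_mul, QuotientGroup.eq, hmem, hχ, hχ.inv,
        hχ, hχ]
      ring
    obtain ⟨t, ht, htpos⟩ : ∃ t ∈ A, 0 < χ t := by
      rcases lt_or_gt_of_ne ha0 with h1 | h1
      · exact ⟨a⁻¹, A.inv_mem ha, by rw [hχ.inv]; linarith⟩
      · exact ⟨a, ha, h1⟩
    refine lemE h (fun _ => 1) χ (fun _ => one_pos) (fun _ _ => (one_mul _).symm) ?_
      (charKer χ hχ) ?_ hq (dep (MonoidHom.id G) A B χ S) (dep_um hD) ?_ hd t ht rfl htpos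
    · intro g k
      rw [one_mul]
      exact hχ g k
    · intro g
      rw [hmem]
      exact ⟨fun h1 => ⟨rfl, h1⟩, fun h1 => h1.2⟩
    · intro g x y
      rw [EReal.coe_one, one_mul]
      exact dep_eqv hD g x y

end H84.PG
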