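import Pool.Agent.H84.PG.AbRankD
import Pool.Agent.H36.PP.Union

/-!
# Module SolRankD: soluble normal subgroups of finite rank; unions (II.2, II.3)

`sol_rankD`: exactly as `SolRank_step` and `sol_rank` in `H36/PP/SolRank.lean`, with `ab_rankD`
instead of `ab_rank`, `DC.map` instead of `Fact`.
`union_d`: `union_radical` (with `t⁻¹` in place of `t`) gives a soluble normal subgroup `R ≤ K` of finite
index in `K` and of finite rank.  `G ⧸ R` is almost polycyclic (`K / R` is finite, `AP (G ⧸ K)`: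
`AP.quotient_of_le`, `AP.of_finite`).  `sol_rankD`.
-/

set_option autoImplicit false

namespace H84.PG

open H36.PP Subgroup
open scoped commutatorElement

/-- one step of the derived series -/
private theorem srd_step {G : Type*} [Group G] {A B : Subgroup G} (hdc : DC ⊤ A B)
    (hA : AP A) (hB : AP B) (N : Subgroup G) [N.Normal] (r : ℕ) (hr : FRk N r) (hq : AP (G ⧸ N)) :
    AP (G ⧸ ⁅N, N⁆) := by
  have hle : ⁅N, N⁆ ≤ N := Subgroup.commutator_le_left N N
  set K : Subgroup G := ⁅N, N⁆ with hK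
  let π : G →* G ⧸ K := QuotientGroup.mk' K
  have hπ : Function.Surjective π := QuotientGroup.mk'_surjective K
  have hNn : (N.map π).Normal := Subgroup.Normal.map ‹_› π hπ
  have hAmap : AP (A.map π : Subgroup (G ⧸ K)) :=
    AP.of_surjective (π.subgroupMap A) (π.subgroupMap_surjective A) hA
  have hBmap : AP (B.map π : Subgroup (G ⧸ K)) :=
    AP.of_surjective (π.subgroupMap B) (π.subgroupMap_surjective B) hB
  have hdc' : DC (⊤ : Subgroup (G ⧸ K)) (A.map π) (B.map π) := by
    have h := hdc.map π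
    rwa [Subgroup.map_top_of_surjective π hπ] at h
  have hcomm : ∀ x ∈ N.map π, ∀ y ∈ N.map π, x * y = y * x := by
    rintro _ ⟨x, hx, rfl⟩ _ ⟨y, hy, rfl⟩
    rw [← map_mul, ← map_mul]
    show (QuotientGroup.mk (x * y) : G ⧸ K) = QuotientGroup.mk (y * x)
    rw [QuotientGroup.eq]
    have h1 : ⁅y⁻¹, x⁻¹⁆ ∈ K := Subgroup.commutator_mem_commutator (N.inv_mem hy) (N.inv_mem hx)
    have h2 : (x * y)⁻¹ * (y * x) = ⁅y⁻¹, x⁻¹⁆ := by
      rw [commutatorElement_def]
      group
    rw [h2]
    exact h1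
  have hrM : FRk (N.map π : Subgroup (G ⧸ K)) r :=
    hr.of_surjective (π.subgroupMap N) (π.subgroupMap_surjective N)
  have hfg : (N.map π).FG := ab_rankD hdc' hAmap hBmap.1 (N.map π) hcomm r hrM
  have hapM : AP (N.map π : Subgroup (G ⧸ K)) :=
    AP.of_comm_fg (fun x y => Subtype.ext (hcomm x x.2 y y.2))
      ((Group.fg_iff_subgroup_fg _).mpr hfg)
  exact AP.quotient_of_le K N hle hapM hq

theorem sol_rankD {G : Type*} [Group G] {A B : Subgroup G} (hdc : DC ⊤ A B) (hA : AP A)
    (hB : AP B) (R : Subgroup G) [R.Normal] (hs : Group.IsSolvable R) (r : ℕ) (hr : FRk R r)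
    (hq : AP (G ⧸ R)) : AP G := by
  have key : ∀ n : ℕ, ∃ N : Subgroup G, ∃ _ : N.Normal,
      N = (derivedSeries R n).map R.subtype ∧ AP (G ⧸ N) := by
    intro n
    induction n with
    | zero =>
      refine ⟨R, inferInstance, ?_, hq⟩
      rw [derivedSeries_zero, ← MonoidHom.range_eq_map, Subgroup.range_subtype]
    | succ n ih =>
      obtain ⟨N, hN, hNe, hap⟩ := ih
      refine ⟨⁅N, N⁆, inferInstance, ?_, ?_⟩
      · rw [derivedSeries_succ, Subgroup.map_commutator, ← hNe]
      · have hNR : N ≤ R := by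
          rw [hNe]
          exact Subgroup.map_subtype_le _
        have hrN : FRk N r := hr.of_injective (Subgroup.inclusion hNR)
          (Subgroup.inclusion_injective hNR)
        exact srd_step hdc hA hB N r hrN hap
  obtain ⟨n, hn'⟩ := hs.solvable
  obtain ⟨N, hN, hNe, hap⟩ := key n
  rw [hn', Subgroup.map_bot] at hNe
  have hapN : AP N := by
    have : Subsingleton N := by
      rw [hNe]
      infer_instance
    have : Finite N := Finite.of_subsingleton
    exact AP.of_finite
  exact AP.ext N hapN hap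

theorem union_d {G : Type*} [Group G] {A B : Subgroup G} (hdc : DC ⊤ A B) (hA : AP A)
    (hB : AP B) (K Q : Subgroup G) [K.Normal] (hq : AP (G ⧸ K)) (hQK : Q ≤ K) (hQ : AP Q)
    (t : G) (h1 : ∀ q ∈ Q, t * q * t⁻¹ ∈ Q)
    (h2 : ∀ k ∈ K, ∃ n : ℕ, t ^ n * k * (t ^ n)⁻¹ ∈ Q) : AP G := by
  classical
  obtain ⟨R, hRn, hRK, hRi, hRs, r, hr⟩ := union_radical K Q hQK hQ t⁻¹
    (fun q hq => by
      rw [inv_inv]
      exact h1 q hq)
    (fun k hk => by
      obtain ⟨n, hn⟩ := h2 k hk
      refine ⟨n, ?_⟩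
      rw [inv_pow, inv_inv]
      exact hn)
  refine sol_rankD hdc hA hB R hRs r hr ?_
  refine AP.quotient_of_le R K hRK ?_ hq
  have hcard : Nat.card (K.map (QuotientGroup.mk' R)) ≠ 0 := by
    rw [← Subgroup.relIndex_ker, QuotientGroup.ker_mk']
    exact hRi
  have : Finite (K.map (QuotientGroup.mk' R)) := Nat.finite_of_card_ne_zero hcard
  exact AP.of_finite

end H84.PG
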