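import Pool.Agent.H84.PG.MinDB
import Pool.Agent.H84.PG.SolRankD

/-!
# Module LemE: no exact equivariant ultrametric (Part III)

Affine action: `g` acts on the values by `t ↦ b g + nu g * t`; `nu 1 = 1`, `b 1 = 0`,
`nu g⁻¹ = (nu g)⁻¹`, `b g⁻¹ = - b g / nu g`.
(i) Write `G = ⋃ A f B` (`h.dc`).  Some `f ∈ F` has `D (1, false) (f, true) ≠ ⊤`: otherwise for every
`g = a f b` `D (1, false) (g, true) = D (a, false) (a f, true) = b a + nu a * ⊤ = ⊤` (`comp`, `heq`), so
`D x y = ⊤` whenever `x`, `y` have different sides (`heq` again, `ltr`), and by `tri` always,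
contradiction to `hne`.  Replace `B` by `f B f⁻¹` (`MinD.conj_right`) and `D` by
`D' x y = D (τ x) (τ y)`, `τ (g, false) = (g, false)`, `τ (g, true) = (g f, true)` (`UM`, `heq` for
`D'` are immediate, `hne`).  So assume `D (1, false) (1, true) = ρ₀` real.
(ii) `S = {g | nu g * ρ₀ + b g = ρ₀ ∧ (ρ₀ : EReal) < D (1, false) (g, false)}` is a subgroup
(`tri`, `heq`, `symm`).  `A₀ = A ⊓ S = {a ∈ A | nu a * ρ₀ + b a = ρ₀}` (`D (1, false) (a, false) = ⊤`).
For `g = a f b ∈ S`: `D (g, false) (g, true) = ρ₀ < D (1, false) (g, false)`, so `D (1, false) (g, true) = ρ₀`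
and this is `D (a, false) (a f, true) = b a + nu a * D (1, false) (f, true)`.  So for fixed `f` all
these `a` lie in one coset `A₀ a_f`; choose `s_f ∈ S ⊓ A₀ a_f f B` if this is nonempty: it is
`A₀ s_f (B ⊓ S)`.  So `DC S A₀ (B ⊓ S)`.  `A₀` has infinite index in `A` (the powers of `t` are in
different cosets: `b (t ^ n) = n * b t`, `nu (t ^ n) = 1`), so `ht A₀ < ht A` (`ht_lt`) and `AP S`
by minimality.
(iii) `Q = K ⊓ S`, almost polycyclic.  For `q ∈ Q`: `t q t⁻¹ ∈ K` and
`D (1, false) (t q t⁻¹, false) = D (t, false) (t q, false) = b t + D (1, false) (q, false) > ρ₀`.  For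
`k ∈ K`: `D (1, false) (t ^ n k (t ^ n)⁻¹, false) = n * b t + D (1, false) (k, false)`, which is
`> ρ₀` for large `n` since `D ≠ ⊥`.  `union_d` gives `AP G`, contradiction to `h.nap`.
-/

set_option autoImplicit false

namespace H84.PG

open H36.PP Subgroup

/-- values above a real number, affine image -/
theorem LemE_lt {β ν r : ℝ} {y : EReal} (hν : 0 < ν) (h : (r : EReal) < y) :
    ((β + ν * r : ℝ) : EReal) < (β : EReal) + (ν : EReal) * y := by
  induction y using EReal.rec with
  | bot => exact absurd h not_lt_bot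
  | top =>
    rw [EReal.coe_mul_top_of_pos hν, EReal.coe_add_top]
    exact EReal.coe_lt_top _
  | coe y =>
    have h1 : r < y := EReal.coe_lt_coe_iff.1 h
    have h2 : ν * r < ν * y := mul_lt_mul_of_pos_left h1 hν
    rw [← EReal.coe_mul, ← EReal.coe_add, EReal.coe_lt_coe_iff]
    linarith

theorem LemE_top {β ν : ℝ} (hν : 0 < ν) : (β : EReal) + (ν : EReal) * ⊤ = ⊤ := by
  rw [EReal.coe_mul_top_of_pos hν, EReal.coe_add_top]

section

variable {G : Type*} [Group G] {A B : Subgroup G} {D : G × Bool → G × Bool → EReal}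

theorem LemE_compA (hD : UM A B D) {a : G} (ha : a ∈ A) (g : G) (y : G × Bool) :
    D (g * a, false) y = D (g, false) y := hD.comp g false a ha y

theorem LemE_compA' (hD : UM A B D) {a : G} (ha : a ∈ A) (g : G) (y : G × Bool) :
    D y (g * a, false) = D y (g, false) := by
  rw [hD.symm y, hD.symm y, LemE_compA hD ha]

theorem LemE_compB' (hD : UM A B D) {a : G} (ha : a ∈ B) (g : G) (y : G × Bool) :
    D y (g * a, true) = D y (g, true) := by
  rw [hD.symm y, hD.symm y]
  exact hD.comp g true a ha y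

theorem LemE_one (hD : UM A B D) {a : G} (ha : a ∈ A) (y : G × Bool) :
    D (1, false) y = D (a, false) y := by
  have := LemE_compA hD ha 1 y
  rw [one_mul] at this
  exact this.symm

variable {nu b : G → ℝ}

theorem LemE_nu_one (hpos : ∀ g, 0 < nu g) (hnu : ∀ g h, nu (g * h) = nu g * nu h) :
    nu 1 = 1 := by
  have h := hnu 1 1
  rw [mul_one] at h
  have h1 := hpos 1
  exact mul_left_cancel₀ h1.ne' (by rw [mul_one]; exact h.symm)

theorem LemE_b_one (hpos : ∀ g, 0 < nu g) (hnu : ∀ g h, nu (g * h) = nu g * nu h)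
    (hb : ∀ g h, b (g * h) = b g + nu g * b h) : b 1 = 0 := by
  have h := hb 1 1
  rw [mul_one, LemE_nu_one hpos hnu, one_mul] at h
  linarith

theorem LemE_nu_inv (hpos : ∀ g, 0 < nu g) (hnu : ∀ g h, nu (g * h) = nu g * nu h) (g : G) :
    nu g⁻¹ * nu g = 1 := by
  rw [← hnu, inv_mul_cancel, LemE_nu_one hpos hnu]

theorem LemE_b_inv (hpos : ∀ g, 0 < nu g) (hnu : ∀ g h, nu (g * h) = nu g * nu h)
    (hb : ∀ g h, b (g * h) = b g + nu g * b h) (g : G) : b g⁻¹ + nu g⁻¹ * b g = 0 := by
  rw [← hb, inv_mul_cancel, LemE_b_one hpos hnu hb]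

theorem LemE_heq (heq : ∀ g x y, D (ltr g x) (ltr g y) = (b g : EReal) + (nu g : EReal) * D x y)
    (g h k : G) (s s' : Bool) :
    D (g * h, s) (g * k, s') = (b g : EReal) + (nu g : EReal) * D (h, s) (k, s') :=
  heq g (h, s) (k, s')

/-- the case `D (1, false) (1, true) ≠ ⊤` -/
theorem LemE_core (h : MinD G A B)
    (hpos : ∀ g, 0 < nu g) (hnu : ∀ g h, nu (g * h) = nu g * nu h)
    (hb : ∀ g h, b (g * h) = b g + nu g * b h)
    (K : Subgroup G) [K.Normal] (hK : ∀ g, g ∈ K ↔ nu g = 1 ∧ b g = 0) (hq : AP (G ⧸ K))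
    (hD : UM A B D)
    (heq : ∀ g x y, D (ltr g x) (ltr g y) = (b g : EReal) + (nu g : EReal) * D x y)
    (h0 : D (1, false) (1, true) ≠ ⊤) (t : G) (ht : t ∈ A) (ht1 : nu t = 1) (ht2 : 0 < b t) :
    False := by
  classical
  have hn1 := LemE_nu_one hpos hnu
  have hb1 := LemE_b_one hpos hnu hb
  have hh := LemE_heq heq
  -- the real value
  obtain ⟨ρ, hρ⟩ : ∃ ρ : ℝ, D (1, false) (1, true) = (ρ : EReal) :=
    ⟨_, (EReal.coe_toReal h0 (hD.bot _ _)).symm⟩
  -- the stabiliser
  let S : Subgroup G :=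
    { carrier := {g | nu g * ρ + b g = ρ ∧ (ρ : EReal) < D (1, false) (g, false)}
      one_mem' := by
        refine ⟨by rw [hn1, hb1]; ring, ?_⟩
        rw [hD.refl]
        exact EReal.coe_lt_top _
      mul_mem' := by
        rintro g k ⟨hg1, hg2⟩ ⟨hk1, hk2⟩
        refine ⟨?_, ?_⟩
        · rw [hnu, hb]
          linear_combination hg1 + nu g * hk1
        · have h1 := hh g 1 k false false
          rw [mul_one] at h1
          have h2 : (ρ : EReal) < D (g, false) (g * k, false) := by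
            rw [h1]
            have h3 := LemE_lt (β := b g) (hpos g) hk2
            have h4 : b g + nu g * ρ = ρ := by linarith
            rwa [h4] at h3
          exact lt_of_lt_of_le (lt_min hg2 h2) (hD.tri _ _ _)
      inv_mem' := by
        rintro g ⟨hg1, hg2⟩
        have e1 := LemE_nu_inv hpos hnu g
        have e2 := LemE_b_inv hpos hnu hb g
        have e3 : nu g⁻¹ * ρ + b g⁻¹ = ρ := by
          linear_combination (-nu g⁻¹) * hg1 + ρ * e1 + e2
        refine ⟨e3, ?_⟩
        have h1 := hh g⁻¹ g 1 false false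
        rw [inv_mul_cancel, mul_one] at h1
        rw [h1, hD.symm (g, false)]
        have h3 := LemE_lt (β := b g⁻¹) (hpos g⁻¹) hg2
        have h4 : b g⁻¹ + nu g⁻¹ * ρ = ρ := by linarith
        rwa [h4] at h3 }
  have memS : ∀ g, g ∈ S ↔ nu g * ρ + b g = ρ ∧ (ρ : EReal) < D (1, false) (g, false) :=
    fun g => Iff.rfl
  have memSA : ∀ a ∈ A, (a ∈ S ↔ nu a * ρ + b a = ρ) := by
    intro a ha
    rw [memS]
    refine ⟨fun h => h.1, fun h => ⟨h, ?_⟩⟩
    have h1 := LemE_compA' hD ha 1 (1, false)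
    rw [one_mul] at h1
    rw [h1, hD.refl]
    exact EReal.coe_lt_top _
  -- the value at the elements of `S`
  have hval : ∀ x ∈ S, D (1, false) (x, true) = (ρ : EReal) := by
    intro x hx
    obtain ⟨hx1, hx2⟩ := (memS x).1 hx
    have h1 := hh x 1 1 false true
    rw [mul_one, hρ] at h1
    have h2 : D (x, false) (x, true) = (ρ : EReal) := by
      rw [h1, ← EReal.coe_mul, ← EReal.coe_add]
      congr 1
      linarith
    have h3 : (ρ : EReal) ≤ D (1, false) (x, true) := by
      refine le_trans ?_ (hD.tri (1, false) (x, false) (x, true))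
      rw [h2]
      exact le_min hx2.le le_rfl
    refine le_antisymm ?_ h3
    by_contra hlt
    rw [not_le] at hlt
    have h4 := hD.tri (x, false) (1, false) (x, true)
    rw [h2, hD.symm (x, false)] at h4
    exact absurd (lt_min hx2 hlt) (not_lt.2 h4)
  obtain ⟨-, -, F, hFf, -, hF⟩ := h.dc
  -- the coset condition
  have hco : ∀ x ∈ S, ∀ a ∈ A, ∀ f : G, ∀ c ∈ B, x = a * f * c →
      ∃ σ : ℝ, D (1, false) (f, true) = (σ : EReal) ∧ nu a * σ + b a = ρ := by
    intro x hx a ha f c hc hxe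
    have h1 := hval x hx
    rw [hxe, LemE_compB' hD hc, LemE_one hD ha] at h1
    have h2 := hh a 1 f false true
    rw [mul_one] at h2
    rw [h2] at h1
    have h3 : D (1, false) (f, true) ≠ ⊤ := by
      intro h4
      rw [h4, LemE_top (hpos a)] at h1
      exact EReal.coe_ne_top _ h1.symm
    refine ⟨(D (1, false) (f, true)).toReal, (EReal.coe_toReal h3 (hD.bot _ _)).symm, ?_⟩
    rw [← EReal.coe_toReal h3 (hD.bot _ _), ← EReal.coe_mul, ← EReal.coe_add,
      EReal.coe_eq_coe_iff] at h1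
    linarith
  -- the double cosets
  let P : G → G → Prop := fun f s => s ∈ S ∧ ∃ a ∈ A, ∃ c ∈ B, s = a * f * c
  let sf : G → G := fun f => if hf : ∃ s, P f s then hf.choose else 1
  have hsf : ∀ f, (∃ s, P f s) → P f (sf f) := by
    intro f hf
    simp only [sf, dif_pos hf]
    exact hf.choose_spec
  have hDC : DC S (A ⊓ S) (B ⊓ S) := by
    refine ⟨inf_le_right, inf_le_right, sf '' F, hFf.image _, ?_, ?_⟩
    · rintro _ ⟨f, -, rfl⟩
      by_cases hf : ∃ s, P f s
      · exact (hsf f hf).1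
      · simp only [sf, dif_neg hf]
        exact S.one_mem
    · intro x hx
      obtain ⟨a, ha, f, hf, c, hc, hxe⟩ := hF x (mem_top x)
      have hex : ∃ s, P f s := ⟨x, hx, a, ha, c, hc, hxe⟩
      obtain ⟨hsS, a', ha', c', hc', hse⟩ := hsf f hex
      obtain ⟨σ, hσ, h1⟩ := hco x hx a ha f c hc hxe
      obtain ⟨σ', hσ', h2⟩ := hco _ hsS a' ha' f c' hc' hse
      rw [hσ, EReal.coe_eq_coe_iff] at hσ'
      rw [← hσ'] at h2
      -- `a a'⁻¹` fixes `ρ`
      have e1 := LemE_nu_inv hpos hnu a'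
      have e2 := LemE_b_inv hpos hnu hb a'
      have h3 : a * a'⁻¹ ∈ S := by
        rw [memSA _ (A.mul_mem ha (A.inv_mem ha')), hnu, hb]
        linear_combination (-(nu a * nu a'⁻¹)) * h2 + (nu a * σ) * e1 + nu a * e2 + h1
      refine ⟨a * a'⁻¹, ⟨A.mul_mem ha (A.inv_mem ha'), h3⟩, sf f, ⟨f, hf, rfl⟩, c'⁻¹ * c,
        ⟨B.mul_mem (B.inv_mem hc') hc, ?_⟩, ?_⟩
      · have h4 : c'⁻¹ * c = (sf f)⁻¹ * (a * a'⁻¹)⁻¹ * x := by
          rw [hse, hxe]; group
        rw [h4]
        exact S.mul_mem (S.mul_mem (S.inv_mem hsS) (S.inv_mem h3)) hx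
      · rw [hse, hxe]; group
  -- powers of `t`
  have htp : ∀ n : ℕ, nu (t ^ n) = 1 ∧ b (t ^ n) = n * b t := by
    intro n
    induction n with
    | zero => simp [hn1, hb1]
    | succ n ih =>
      refine ⟨?_, ?_⟩
      · rw [pow_succ, hnu, ih.1, ht1, one_mul]
      · rw [pow_succ, hb, ih.1, ih.2]
        push_cast
        ring
  have hrel : (A ⊓ S).relIndex A = 0 := by
    by_contra hne
    obtain ⟨n, hn, -, hmem⟩ := Subgroup.exists_pow_mem_of_relIndex_ne_zero hne ht
    have h1 := ((memS _).1 hmem.1.2).1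
    rw [(htp n).1, (htp n).2] at h1
    have h2 : (0 : ℝ) < n * b t := mul_pos (by exact_mod_cast hn) ht2
    linarith
  have hAPS : AP S := by
    refine h.min S (A ⊓ S) (B ⊓ S) hDC (Emb.of_le inf_le_left) (Emb.of_le inf_le_left) ?_
    have h1 := ht_lt h.apA inf_le_left hrel
    have h2 := ht_mono h.apB (inf_le_left : B ⊓ S ≤ B)
    omega
  refine h.nap (union_d h.dc h.apA h.apB K (K ⊓ S) hq inf_le_left (AP.mono inf_le_right hAPS) t
    ?_ ?_)
  · rintro q ⟨hqK, hqS⟩
    have h1 : t * q * t⁻¹ ∈ K := Normal.conj_mem inferInstance q hqK t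
    refine ⟨h1, (memS _).2 ⟨?_, ?_⟩⟩
    · obtain ⟨h2, h3⟩ := (hK _).1 h1
      rw [h2, h3]; ring
    · rw [LemE_compA' hD (A.inv_mem ht), LemE_one hD ht]
      have h2 := hh t 1 q false false
      rw [mul_one] at h2
      rw [h2, ht1]
      have h3 := LemE_lt (β := b t) one_pos ((memS q).1 hqS).2
      refine lt_trans ?_ h3
      rw [EReal.coe_lt_coe_iff]
      linarith
  · intro k hk
    have key : ∀ n : ℕ, D (1, false) (t ^ n * k * (t ^ n)⁻¹, false) =
        ((n * b t : ℝ) : EReal) + ((1 : ℝ) : EReal) * D (1, false) (k, false) := by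
      intro n
      have htn : t ^ n ∈ A := A.pow_mem ht n
      rw [LemE_compA' hD (A.inv_mem htn), LemE_one hD htn]
      have h2 := hh (t ^ n) 1 k false false
      rw [mul_one] at h2
      rw [h2, (htp n).1, (htp n).2]
    obtain ⟨n, hn⟩ : ∃ n : ℕ, (ρ : EReal) < D (1, false) (t ^ n * k * (t ^ n)⁻¹, false) := by
      by_cases htop : D (1, false) (k, false) = ⊤
      · refine ⟨0, ?_⟩
        rw [key, htop, LemE_top one_pos]
        exact EReal.coe_lt_top _
      · obtain ⟨n, hn⟩ := exists_nat_gt ((ρ - (D (1, false) (k, false)).toReal) / b t)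
        refine ⟨n, ?_⟩
        rw [key, ← EReal.coe_toReal htop (hD.bot _ _), ← EReal.coe_mul, ← EReal.coe_add,
          EReal.coe_lt_coe_iff]
        rw [div_lt_iff₀ ht2] at hn
        linarith
    refine ⟨n, ?_, (memS _).2 ⟨?_, hn⟩⟩
    · exact Normal.conj_mem inferInstance k hk (t ^ n)
    · obtain ⟨h2, h3⟩ := (hK _).1 (Normal.conj_mem inferInstance k hk (t ^ n))
      rw [h2, h3]; ring

end

/-- LEMMA E of the paper -/
theorem lemE {G : Type*} [Group G] {A B : Subgroup G} (h : MinD G A B)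
    (nu b : G → ℝ) (hpos : ∀ g, 0 < nu g) (hnu : ∀ g h, nu (g * h) = nu g * nu h)
    (hb : ∀ g h, b (g * h) = b g + nu g * b h)
    (K : Subgroup G) [K.Normal] (hK : ∀ g, g ∈ K ↔ nu g = 1 ∧ b g = 0) (hq : AP (G ⧸ K))
    (D : G × Bool → G × Bool → EReal) (hD : UM A B D)
    (heq : ∀ g x y, D (ltr g x) (ltr g y) = (b g : EReal) + (nu g : EReal) * D x y)
    (hne : ∃ x y, D x y ≠ ⊤) (t : G) (ht : t ∈ A) (ht1 : nu t = 1) (ht2 : 0 < b t) : False := by
  classical
  have hh := LemE_heq heq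
  -- some finite value between the two sides
  obtain ⟨f, hf⟩ : ∃ f, D (1, false) (f, true) ≠ ⊤ := by
    by_contra hcon
    push Not at hcon
    have h1 : ∀ g g', D (g, false) (g', true) = ⊤ := by
      intro g g'
      have h2 := hh g 1 (g⁻¹ * g') false true
      rw [mul_one, mul_inv_cancel_left, hcon, LemE_top (hpos g)] at h2
      exact h2
    obtain ⟨x, y, hxy⟩ := hne
    apply hxy
    obtain ⟨g, s⟩ := x
    obtain ⟨g', s'⟩ := y
    cases s <;> cases s'
    · refine le_antisymm le_top (le_trans ?_ (hD.tri (g, false) (1, true) (g', false)))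
      rw [h1, hD.symm (1, true), h1, min_self]
    · exact h1 g g'
    · rw [hD.symm]; exact h1 g' g
    · refine le_antisymm le_top (le_trans ?_ (hD.tri (g, true) (1, false) (g', true)))
      rw [h1, hD.symm (g, true), h1, min_self]
  let τ : G × Bool → G × Bool := fun x => (bif x.2 then x.1 * f else x.1, x.2)
  have hτ : ∀ g x, τ (ltr g x) = ltr g (τ x) := by
    rintro g ⟨x, s⟩
    cases s
    · rfl
    · simp only [τ, ltr, cond_true, mul_assoc]
  have hD' : UM A (B.map (MulAut.conj f).toMonoidHom) (fun x y => D (τ x) (τ y)) := by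
    refine ⟨fun x y => hD.bot _ _, fun x y => hD.symm _ _, fun x => hD.refl _,
      fun x y z => hD.tri _ _ _, ?_⟩
    intro g s a ha y
    cases s
    · exact hD.comp g false a ha (τ y)
    · obtain ⟨c, hc, rfl⟩ := ha
      have h1 : g * (MulAut.conj f).toMonoidHom c * f = g * f * c := by
        simp only [MulEquiv.toMonoidHom_eq_coe, MonoidHom.coe_coe, MulAut.conj_apply]
        group
      show D (g * (MulAut.conj f).toMonoidHom c * f, true) (τ y) = D (g * f, true) (τ y)
      rw [h1]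
      exact hD.comp (g * f) true c hc (τ y)
  refine LemE_core (h.conj_right f) hpos hnu hb K hK hq hD' ?_ ?_ t ht ht1 ht2
  · intro g x y
    show D (τ (ltr g x)) (τ (ltr g y)) = _
    rw [hτ, hτ, heq]
  · show D (τ (1, false)) (τ (1, true)) ≠ ⊤
    simp only [τ, cond_false, cond_true, one_mul]
    exact hf

end H84.PG
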