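import Pool.Agent.H84.PG.CharGood
import Pool.Agent.H84.PG.FgChainN
import Pool.Agent.H84.PG.MinDB

/-!
# Module LemF1: kernels are finitely generated, main step (IX.3)

Suppose `N` is not finitely generated, so it is not almost polycyclic.  Let `G1` be as in `MinD.norm`
for `M = N`, and `G2 = G' ⊓ G1`, of finite index, `N ≤ G2`, `(A ⊓ G2) ⊔ N = G2`, `(B ⊓ G2) ⊔ N = G2`.
Let `C2 = ⁅G2, G2⁆ ⊔ N ≤ C' = ⁅G', G'⁆ ⊔ N`.  `C2` is finitely generated: it has finite index in `C'` (`hfi`),
which is (`hC`).  Work in the group `G2` (`MinD.restrict`) with the subgroups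
`C = C2.subgroupOf G2` (normal), `N.subgroupOf G2`; `hfi` for `char_good`: a subgroup `G3` of finite index of
`G2` has finite index in `G`, so `⁅G3, G3⁆ ⊔ N` has finite index in `C'`, hence in `C2`.  By `char_good` all characters of `C`
which kill `N` are good; `C / N` is nilpotent (subgroup of `C' / N`: `hnil`); `fg_chain_n` gives that `N` is finitely
generated.
-/

set_option autoImplicit false

namespace H84.PG

universe u

open H36.PP Subgroup

private theorem LemF1_fg_congr {G H : Type*} [Group G] [Group H] {K : Subgroup G} {L : Subgroup H}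
    (e : K ≃* L) (hK : K.FG) : L.FG := by
  rw [← Group.fg_iff_subgroup_fg] at hK ⊢
  exact Group.fg_of_surjective (hG := hK) (f := e.toMonoidHom) e.surjective

private theorem LemF1_fg_sub {G : Type*} [Group G] {K L : Subgroup G} (hKL : K ≤ L) (hL : L.FG)
    (hi : K.relIndex L ≠ 0) : K.FG := by
  have h1 : Group.FG L := (Group.fg_iff_subgroup_fg L).2 hL
  have h2 : (K.subgroupOf L).FiniteIndex := ⟨hi⟩
  have h3 : Group.FG (K.subgroupOf L) := inferInstance
  exact LemF1_fg_congr (subgroupOfEquivOfLe hKL) ((Group.fg_iff_subgroup_fg _).1 h3)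

theorem lem_f1 {G : Type u} [Group G] {A B : Subgroup G} (h : MinD G A B) (N : Subgroup G)
    [N.Normal] (G' : Subgroup G) (hG' : G'.FiniteIndex) (hN : N ≤ G')
    (hC : (⁅G', G'⁆ ⊔ N).FG)
    (hnil : Group.IsNilpotent ((⁅G', G'⁆ ⊔ N).map (QuotientGroup.mk' N)))
    (hfi : ∀ G'' : Subgroup G, G''.FiniteIndex → G'' ≤ G' →
      (⁅G'', G''⁆ ⊔ N).relIndex (⁅G', G'⁆ ⊔ N) ≠ 0) : N.FG := by
  by_contra hNF
  have hNA : ¬ AP N := fun hap => hNF ((Group.fg_iff_subgroup_fg N).1 ⟨hap.1 ⊤⟩)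
  obtain ⟨G1, hG1n, hG1f, hNG1, hG1⟩ := h.norm N hNA
  set G2 : Subgroup G := G' ⊓ G1 with hG2
  have hG2f : G2.FiniteIndex := inferInstance
  have hNG2 : N ≤ G2 := le_inf hN hNG1
  obtain ⟨hA2, hB2⟩ := hG1 G2 hNG2 inf_le_right
  have hG2G' : G2 ≤ G' := inf_le_left
  set C' : Subgroup G := ⁅G', G'⁆ ⊔ N with hC'
  set C2 : Subgroup G := ⁅G2, G2⁆ ⊔ N with hC2
  have hC2C' : C2 ≤ C' := sup_le_sup_right (commutator_mono hG2G' hG2G') N
  have hC2G2 : C2 ≤ G2 := sup_le (commutator_le_self G2) hNG2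
  have hC2fg : C2.FG := LemF1_fg_sub hC2C' hC (hfi G2 hG2f hG2G')
  -- inside the group `G2`
  set C : Subgroup G2 := C2.subgroupOf G2 with hCdef
  set N' : Subgroup G2 := N.subgroupOf G2 with hN'def
  have hNC : N' ≤ C := fun x hx => (le_sup_right : N ≤ C2) hx
  have hcomm : ∀ x y : G2, x * y * x⁻¹ * y⁻¹ ∈ C := by
    intro x y
    exact (le_sup_left : ⁅G2, G2⁆ ≤ C2) (commutator_mem_commutator x.2 y.2)
  have hCn : C.Normal := by
    refine ⟨fun n hn g => ?_⟩
    have h1 : g * n * g⁻¹ = (g * n * g⁻¹ * n⁻¹) * n := by group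
    rw [h1]
    exact C.mul_mem (hcomm g n) hn
  have hNn : N'.Normal := inferInstance
  have hCfg : C.FG := LemF1_fg_congr (subgroupOfEquivOfLe hC2G2).symm hC2fg
  have hA3 : A.subgroupOf G2 ⊔ N' = ⊤ := by
    rw [← inf_subgroupOf_right A G2, hN'def, ← subgroupOf_sup inf_le_right hNG2, hA2]
    exact subgroupOf_self G2
  have hB3 : B.subgroupOf G2 ⊔ N' = ⊤ := by
    rw [← inf_subgroupOf_right B G2, hN'def, ← subgroupOf_sup inf_le_right hNG2, hB2]
    exact subgroupOf_self G2
  have hfi3 : ∀ G3 : Subgroup G2, G3.FiniteIndex → (⁅G3, G3⁆ ⊔ N').relIndex C ≠ 0 := by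
    intro G3 hG3
    set G4 : Subgroup G := G3.map G2.subtype with hG4
    have hG4le : G4 ≤ G2 := map_subtype_le G3
    have hG4f : G4.FiniteIndex := by
      constructor
      rw [hG4, index_map_subtype]
      exact mul_ne_zero hG3.index_ne_zero hG2f.index_ne_zero
    have h1 : ⁅G3, G3⁆ ⊔ N' = (⁅G4, G4⁆ ⊔ N).subgroupOf G2 := by
      rw [subgroupOf_sup (commutator_le_self G4 |>.trans hG4le) hNG2, hG4, ← map_commutator]
      congr 1
      exact (comap_map_eq_self_of_injective G2.subtype_injective _).symm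
    rw [h1, hCdef, relIndex_subgroupOf hC2G2]
    intro h2
    exact hfi G4 hG4f (hG4le.trans hG2G') (relIndex_eq_zero_of_le_right hC2C' h2)
  have hX : Group.FG C := (Group.fg_iff_subgroup_fg C).2 hCfg
  -- the quotient is nilpotent
  have hnil2 : Group.IsNilpotent (C ⧸ N'.subgroupOf C) := by
    let f : C →* (C'.map (QuotientGroup.mk' N)) :=
      ((QuotientGroup.mk' N).comp (G2.subtype.comp C.subtype)).codRestrict _ (by
        rintro ⟨⟨x, hx⟩, hxC⟩
        exact mem_map_of_mem _ (hC2C' hxC))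
    have hker : f.ker = N'.subgroupOf C := by
      ext x
      rw [MonoidHom.mem_ker, mem_subgroupOf, hN'def, mem_subgroupOf]
      constructor
      · intro h1
        have h2 : (QuotientGroup.mk' N) ((x : G2) : G) = 1 := congrArg Subtype.val h1
        exact (QuotientGroup.eq_one_iff _).1 h2
      · intro h1
        apply Subtype.ext
        exact (QuotientGroup.eq_one_iff _).2 h1
    have hr : Group.IsNilpotent f.range := inferInstance
    have e1 : C ⧸ f.ker ≃* f.range := QuotientGroup.quotientKerEquivRange f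
    have e2 : C ⧸ f.ker ≃* C ⧸ N'.subgroupOf C := QuotientGroup.quotientMulEquivOfEq hker
    exact Group.nilpotent_of_mulEquiv (e1.symm.trans e2)
  have hfin := fg_chain_n hX (N'.subgroupOf C) hnil2 (fun S hf hS χ hχ hk hne =>
    char_good (h.restrict G2 hG2f) hA3 hB3 hNC hCfg hcomm hfi3 S hf hS χ hχ
      (fun n hn => hk n hn) hne)
  exact hNF (LemF1_fg_congr (subgroupOfEquivOfLe hNG2)
    (LemF1_fg_congr (subgroupOfEquivOfLe hNC) hfin))

end H84.PG
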