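import Pool.Agent.H84.PG.SmallCor

/-!
# Module LimA: the limit function of a run (VIII.9, first half)

`Y = {0 < u}`, `b = m Y > 0`, `B n = {x | 0 < u x ∧ w n x + v n * g (x + y n) ≠ f x}`, `m (B n) → 0`.
(1) `V n x = - (v n)⁻¹ * w n (x - y n)` is in `W`.  For `R` with `m {R < |f|} ≤ b / 4` and
`m {R < |g|} ≤ b / 4` (`hf`, `hg`), and `x ∈ Y` outside `B n` and `{R < |f|}`:
`g (x + y n) - V n (x + y n) = f x / v n`, of absolute value `≤ R / v n ≤ 1` for large `n`
(`hv`).  So `m {|V n| ≤ R + 1} ≥ b / 4` for large `n` (`Mean.m_trans`, `Mean.m_diff`), and by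
`sn_bdd_of`, `sn_cpt`: `sn (V n - V') → 0` for some `V' ∈ W`.
(2) `u (· - y n) ∈ W` has `sn = sn u`; by `sn_cpt` it converges to `U ∈ W`, `sn U = sn u`, so
`U ≠ 0`.
(3) Let `ε > 0`, `δ > 0`; take `R` with `m {R < |f|} ≤ δ`.  If `0 < U z`, `ε ≤ |g z - V' z|`, let
`x = z - y n`.  For large `n` (`R / v n + sn (V n - V') < ε`) one of the following holds:
`u x ≤ 0` (small mean, `pos_conv`), `x ∈ B n`, `R < |f x|`.  So `m ≤ 2 δ` (`Mean.m_trans`), for
every `δ`.
-/

set_option autoImplicit false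

namespace H84.PG

open Filter Topology

theorem lim_a {X : Type*} [AddCommGroup X] (hX : AddGroup.FG X) (μ : Mean X)
    {W : Submodule ℝ (X → ℝ)} (hW : Stab W) {f g u : X → ℝ}
    (hf : ∀ δ > 0, ∃ R : ℝ, μ.m {x | R < |f x|} ≤ δ)
    (hg : ∀ δ > 0, ∃ R : ℝ, μ.m {x | R < |g x|} ≤ δ) (hu : u ∈ W)
    (hpos : 0 < μ.m {x | 0 < u x}) {w : ℕ → X → ℝ} (hw : ∀ n, w n ∈ W) {v : ℕ → ℝ}
    (hv : Tendsto v UU atTop) (y : ℕ → X)
    (hE : Tendsto (fun n => μ.m {x | 0 < u x ∧ w n x + v n * g (x + y n) ≠ f x}) UU (𝓝 0)) :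
    ∃ V ∈ W, ∃ U ∈ W, U ≠ 0 ∧ Tendsto (fun n => sn (fun x => u (x - y n) - U x)) UU (𝓝 0) ∧
      ∀ ε > 0, μ.m {x | 0 < U x ∧ ε ≤ |g x - V x|} = 0 := by
  set b := μ.m {x | 0 < u x} with hb
  set B : ℕ → Set X := fun n => {x | 0 < u x ∧ w n x + v n * g (x + y n) ≠ f x} with hB
  set Vn : ℕ → X → ℝ := fun n x => -(v n)⁻¹ * w n (x + -(y n)) with hVn
  have hVW : ∀ n, Vn n ∈ W := fun n => W.smul_mem (-(v n)⁻¹) (hW.inv _ (hw n) (-(y n)))
  -- value of `Vn` at `x + y n`
  have hval : ∀ n x, v n ≠ 0 → 0 < u x → x ∉ B n → Vn n (x + y n) = g (x + y n) - f x / v n := by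
    intro n x hvn hux hxB
    have h1 : w n x + v n * g (x + y n) = f x := by
      by_contra h2
      exact hxB ⟨hux, h2⟩
    have h2 : x + y n + -(y n) = x := by abel
    simp only [hVn, h2]
    rw [← h1]
    field_simp
    ring
  -- step 1
  obtain ⟨V, hV, hVlim⟩ : ∃ V ∈ W, Tendsto (fun n => sn (fun x => Vn n x - V x)) UU (𝓝 0) := by
    obtain ⟨R1, hR1⟩ := hf (b / 4) (by positivity)
    obtain ⟨R2, hR2⟩ := hg (b / 4) (by positivity)
    set R := max (max R1 R2) 0 with hR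
    have hR0 : 0 ≤ R := le_max_right _ _
    have hf' : μ.m {x | R < |f x|} ≤ b / 4 := (μ.m_mono fun x hx =>
      lt_of_le_of_lt ((le_max_left R1 R2).trans (le_max_left _ _)) hx).trans hR1
    have hg' : μ.m {x | R < |g x|} ≤ b / 4 := (μ.m_mono fun x hx =>
      lt_of_le_of_lt ((le_max_right R1 R2).trans (le_max_left _ _)) hx).trans hR2
    have hlow : ∀ᶠ n in UU, Vn n ∈ W ∧ b / 4 ≤ μ.m {x | |Vn n x| ≤ R + 1} := by
      have e1 : ∀ᶠ n in UU, μ.m (B n) < b / 4 := hE.eventually (gt_mem_nhds (by positivity))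
      have e2 : ∀ᶠ n in UU, R + 1 ≤ v n := hv.eventually (eventually_ge_atTop (R + 1))
      filter_upwards [e1, e2] with n hn1 hn2
      refine ⟨hVW n, ?_⟩
      have hvpos : 0 < v n := by linarith
      have hsub : ({x | 0 < u x} \ B n) \ {x | R < |f x|} ⊆
          {x | x + y n ∈ {x | |Vn n x| ≤ R + 1}} ∪ {x | x + y n ∈ {x | R < |g x|}} := by
        rintro x ⟨⟨hx1, hx2⟩, hx3⟩
        by_cases hx4 : R < |g (x + y n)|
        · exact Or.inr hx4
        · refine Or.inl ?_
          have h1 := hval n x hvpos.ne' hx1 hx2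
          have h2 : |f x| ≤ R := not_lt.1 hx3
          have h3 : |g (x + y n)| ≤ R := not_lt.1 hx4
          show |Vn n (x + y n)| ≤ R + 1
          rw [h1]
          have h4 : |f x / v n| ≤ 1 := by
            rw [abs_div, abs_of_pos hvpos, div_le_one hvpos]
            linarith
          have h5 := abs_sub (g (x + y n)) (f x / v n)
          linarith
      have h1 := μ.m_mono hsub
      have h2 := μ.m_union_le {x | x + y n ∈ {x | |Vn n x| ≤ R + 1}}
        {x | x + y n ∈ {x | R < |g x|}}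
      rw [μ.m_trans, μ.m_trans] at h2
      have h3 := μ.m_diff ({x | 0 < u x} \ B n) {x | R < |f x|}
      have h4 := μ.m_diff {x | 0 < u x} (B n)
      linarith
    obtain ⟨C, hC⟩ := sn_bdd_of hX μ hW (by positivity : 0 < b / 4) hlow
    exact sn_cpt hW.fd hW.bdd Vn C (hC.mono fun n hn => ⟨hVW n, hn⟩)
  -- step 2
  have hbu := hW.bdd u hu
  have hunW : ∀ n, (fun x => u (x + -(y n))) ∈ W := fun n => hW.inv _ hu (-(y n))
  obtain ⟨U, hU, hUlim⟩ := sn_cpt hW.fd hW.bdd (fun n x => u (x + -(y n))) (sn u)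
    (Eventually.of_forall fun n => ⟨hunW n, (sn_trans u (-(y n))).le⟩)
  have hU0 : U ≠ 0 := by
    intro h0
    have h1 : ∀ n, sn (fun x => u (x + -(y n)) - U x) = sn u := by
      intro n
      rw [h0]
      simp only [Pi.zero_apply, sub_zero]
      exact sn_trans u (-(y n))
    simp only [h1] at hUlim
    have h2 : sn u = 0 := tendsto_nhds_unique tendsto_const_nhds hUlim
    have h3 := eq_zero_of_sn hbu h2
    have h4 : {x | 0 < u x} = (∅ : Set X) := by
      ext x
      simp [h3]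
    rw [hb, h4, μ.m_empty] at hpos
    exact lt_irrefl _ hpos
  refine ⟨V, hV, U, hU, hU0, ?_, ?_⟩
  · simpa only [sub_eq_add_neg] using hUlim
  · intro ε hε
    refine le_antisymm ?_ (μ.m_nonneg _)
    refine le_of_forall_pos_le_add fun δ hδ => ?_
    rw [zero_add]
    obtain ⟨R, hR⟩ := hf δ hδ
    set R' := max R 0 with hR'
    have hR0 : 0 ≤ R' := le_max_right _ _
    have hf' : μ.m {x | R' < |f x|} ≤ δ := (μ.m_mono fun x hx =>
      lt_of_le_of_lt (le_max_left R 0) hx).trans hR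
    have hc := (pos_conv hX μ hW (Eventually.of_forall hunW) hU hU0 hUlim).1
    have hlim : Tendsto (fun n => μ.m {x | 0 < U x ∧ u (x + -(y n)) ≤ 0} + μ.m (B n) + δ) UU
        (𝓝 (0 + 0 + δ)) := (hc.add hE).add_const δ
    rw [zero_add, zero_add] at hlim
    refine ge_of_tendsto hlim ?_
    have hinv : Tendsto (fun n => R' / v n + sn (fun x => Vn n x - V x)) UU (𝓝 0) := by
      have h1 : Tendsto (fun n => R' / v n) UU (𝓝 0) := hv.const_div_atTop R'
      simpa using h1.add hVlim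
    have e1 : ∀ᶠ n in UU, R' / v n + sn (fun x => Vn n x - V x) < ε :=
      hinv.eventually (gt_mem_nhds hε)
    have e2 : ∀ᶠ n in UU, 1 ≤ v n := hv.eventually (eventually_ge_atTop 1)
    filter_upwards [e1, e2] with n hn1 hn2
    have hvpos : 0 < v n := by linarith
    have hsub : {x | 0 < U x ∧ ε ≤ |g x - V x|} ⊆
        ({x | 0 < U x ∧ u (x + -(y n)) ≤ 0} ∪ {x | x + -(y n) ∈ B n}) ∪
          {x | x + -(y n) ∈ {x | R' < |f x|}} := by
      rintro z ⟨hz1, hz2⟩
      by_cases h1 : u (z + -(y n)) ≤ 0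
      · exact Or.inl (Or.inl ⟨hz1, h1⟩)
      · by_cases h2 : z + -(y n) ∈ B n
        · exact Or.inl (Or.inr h2)
        · refine Or.inr ?_
          show R' < |f (z + -(y n))|
          by_contra h3
          push Not at h1 h3
          have h4 := hval n (z + -(y n)) hvpos.ne' h1 h2
          have h5 : z + -(y n) + y n = z := by abel
          rw [h5] at h4
          have h6 : |Vn n z - V z| ≤ sn (fun x => Vn n x - V x) :=
            le_sn (w := fun x => Vn n x - V x) ((hW.bdd _ (hVW n)).sub (hW.bdd _ hV)) z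
          have h7 : |f (z + -(y n)) / v n| ≤ R' / v n := by
            rw [abs_div, abs_of_pos hvpos]
            exact div_le_div_of_nonneg_right h3 hvpos.le
          have h8 : g z - V z = f (z + -(y n)) / v n + (Vn n z - V z) := by
            rw [h4]
            ring
          have h9 := abs_add_le (f (z + -(y n)) / v n) (Vn n z - V z)
          rw [← h8] at h9
          linarith
    have h1 := μ.m_mono hsub
    have h2 := μ.m_union_le ({x | 0 < U x ∧ u (x + -(y n)) ≤ 0} ∪ {x | x + -(y n) ∈ B n})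
      {x | x + -(y n) ∈ {x | R' < |f x|}}
    have h3 := μ.m_union_le {x | 0 < U x ∧ u (x + -(y n)) ≤ 0} {x | x + -(y n) ∈ B n}
    rw [μ.m_trans] at h2 h3
    linarith

end H84.PG
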