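import Pool.Agent.H84.PG.LimA

/-!
# Module LimB: on `{u > 0}` the function `f` is an element of `W` (VIII.9, second half)

Take `V`, `U` from `lim_a`.  For `n` put `z n x = w n x + v n * V (x + y n)`, in `W`.  For every
`ε > 0` and every `n` with `v n > 0`: if `0 < u x` and `ε ≤ |f x - z n x|` then `x` is in
`B n = {0 < u x ∧ w n x + v n * g (x + y n) ≠ f x}`, or `U (x + y n) ≤ 0` (i.e. in
`{x | U x ≤ 0 ∧ 0 < u (x - y n)}` translated), or `ε / v n ≤ |g (x + y n) - V (x + y n)|` with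
`0 < U (x + y n)` (mean zero).  So `m {0 < u ∧ ε ≤ |f - z n|} ≤ e n` with `e n → 0` independent of
`ε` (`pos_conv`, `Mean.m_trans`).  Let `b = m {0 < u}`.  For `n`, `n'` with `e n, e n' < b / 4`:
`|z n - z n'| < 2 ε` on a set of mean `≥ b / 2`, for every `ε > 0`: `z n = z n'`
(`zero_of_small`).  So for almost all `n` `z n = z` is independent of `n`, and
`m {0 < u ∧ ε ≤ |f - z|} ≤ e n → 0`.
-/

set_option autoImplicit false

namespace H84.PG

open Filter Topology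

private theorem LimB_bound {X : Type*} [AddCommGroup X] (μ : Mean X)
    {f g u U V wn : X → ℝ} (y : X) (v : ℝ) (hv : 0 < v)
    (hg0 : ∀ ε > 0, μ.m {x | 0 < U x ∧ ε ≤ |g x - V x|} = 0) (ε : ℝ) (hε : 0 < ε) :
    μ.m {x | 0 < u x ∧ ε ≤ |f x - (wn x + v * V (x + y))|} ≤
      μ.m {x | 0 < u x ∧ wn x + v * g (x + y) ≠ f x} +
        μ.m {x | U x ≤ 0 ∧ 0 < u (x - y)} := by
  have h3 : μ.m {x | x + y ∈ {z | 0 < U z ∧ ε / v ≤ |g z - V z|}} = 0 := by
    rw [μ.m_trans]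
    exact hg0 (ε / v) (div_pos hε hv)
  have h2 : μ.m {x | x + y ∈ {z | U z ≤ 0 ∧ 0 < u (z - y)}} =
      μ.m {x | U x ≤ 0 ∧ 0 < u (x - y)} := μ.m_trans _ y
  have hsub : {x | 0 < u x ∧ ε ≤ |f x - (wn x + v * V (x + y))|} ⊆
      ({x | 0 < u x ∧ wn x + v * g (x + y) ≠ f x} ∪
        {x | x + y ∈ {z | U z ≤ 0 ∧ 0 < u (z - y)}}) ∪
        {x | x + y ∈ {z | 0 < U z ∧ ε / v ≤ |g z - V z|}} := by
    rintro x ⟨hx1, hx2⟩
    by_cases hB : wn x + v * g (x + y) = f x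
    · by_cases hU : 0 < U (x + y)
      · right
        refine ⟨hU, ?_⟩
        rw [← hB] at hx2
        have e : wn x + v * g (x + y) - (wn x + v * V (x + y)) =
            v * (g (x + y) - V (x + y)) := by ring
        rw [e, abs_mul, abs_of_pos hv] at hx2
        rw [div_le_iff₀ hv]
        linarith
      · left; right
        refine ⟨not_lt.mp hU, ?_⟩
        simpa using hx1
    · left; left
      exact ⟨hx1, hB⟩
  have h4 := μ.m_mono hsub
  have h5 := μ.m_union_le ({x | 0 < u x ∧ wn x + v * g (x + y) ≠ f x} ∪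
        {x | x + y ∈ {z | U z ≤ 0 ∧ 0 < u (z - y)}})
        {x | x + y ∈ {z | 0 < U z ∧ ε / v ≤ |g z - V z|}}
  have h6 := μ.m_union_le {x | 0 < u x ∧ wn x + v * g (x + y) ≠ f x}
        {x | x + y ∈ {z | U z ≤ 0 ∧ 0 < u (z - y)}}
  rw [h2] at h6
  rw [h3] at h5
  linarith

theorem lim_b {X : Type*} [AddCommGroup X] (hX : AddGroup.FG X) (μ : Mean X)
    {W : Submodule ℝ (X → ℝ)} (hW : Stab W) {f g u : X → ℝ}
    (hf : ∀ δ > 0, ∃ R : ℝ, μ.m {x | R < |f x|} ≤ δ)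
    (hg : ∀ δ > 0, ∃ R : ℝ, μ.m {x | R < |g x|} ≤ δ) (hu : u ∈ W)
    (hpos : 0 < μ.m {x | 0 < u x}) {w : ℕ → X → ℝ} (hw : ∀ n, w n ∈ W) {v : ℕ → ℝ}
    (hv : Tendsto v UU atTop) (y : ℕ → X)
    (hE : Tendsto (fun n => μ.m {x | 0 < u x ∧ w n x + v n * g (x + y n) ≠ f x}) UU (𝓝 0)) :
    ∃ z ∈ W, ∀ ε > 0, μ.m {x | 0 < u x ∧ ε ≤ |f x - z x|} = 0 := by
  obtain ⟨V, hV, U, hU, hU0, hUt, hg0⟩ := lim_a hX μ hW hf hg hu hpos hw hv y hE
  set z : ℕ → X → ℝ := fun n x => w n x + v n * V (x + y n) with hz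
  have hzW : ∀ n, z n ∈ W := fun n =>
    W.add_mem (hw n) (W.smul_mem (v n) (hW.inv V hV (y n)))
  have hu' : ∀ n, (fun x => u (x - y n)) ∈ W := by
    intro n
    have h := hW.inv u hu (-(y n))
    simpa [sub_eq_add_neg] using h
  have hpc := (pos_conv hX μ hW (u := fun n x => u (x - y n)) (v := U)
    (Eventually.of_forall hu') hU hU0 hUt).2
  set e : ℕ → ℝ := fun n => μ.m {x | 0 < u x ∧ w n x + v n * g (x + y n) ≠ f x} +
    μ.m {x | U x ≤ 0 ∧ 0 < u (x - y n)} with he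
  have het : Tendsto e UU (𝓝 0) := by
    have h := hE.add hpc
    rw [add_zero] at h
    exact h
  have hbd : ∀ n, 0 < v n → ∀ ε > 0, μ.m {x | 0 < u x ∧ ε ≤ |f x - z n x|} ≤ e n :=
    fun n hn ε hε => LimB_bound μ (y n) (v n) hn hg0 ε hε
  have hP : ∀ᶠ n in UU, 0 < v n ∧ e n < μ.m {x | 0 < u x} / 4 :=
    (hv.eventually (eventually_gt_atTop 0)).and
      (het.eventually (gt_mem_nhds (by linarith)))
  obtain ⟨n0, hn0, hn0'⟩ := hP.exists
  have hzeq : ∀ᶠ n in UU, z n = z n0 := by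
    filter_upwards [hP] with n hn
    have hmem : (fun x => z n x - z n0 x) ∈ W := W.sub_mem (hzW n) (hzW n0)
    have h0 := zero_of_small hX μ hW hmem (c0 := μ.m {x | 0 < u x} / 2) (by linarith) (by
      intro ε hε
      have hsub : {x | 0 < u x} ⊆ ({x | |z n x - z n0 x| < ε} ∪
          {x | 0 < u x ∧ ε / 2 ≤ |f x - z n x|}) ∪
          {x | 0 < u x ∧ ε / 2 ≤ |f x - z n0 x|} := by
        intro x hx
        by_cases h1 : ε / 2 ≤ |f x - z n0 x|
        · right; exact ⟨hx, h1⟩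
        · by_cases h2 : ε / 2 ≤ |f x - z n x|
          · left; right; exact ⟨hx, h2⟩
          · left; left
            rw [not_le, abs_lt] at h1 h2
            change |z n x - z n0 x| < ε
            rw [abs_lt]
            constructor <;> linarith [h1.1, h1.2, h2.1, h2.2]
      have h1 := μ.m_mono hsub
      have h2 := μ.m_union_le ({x | |z n x - z n0 x| < ε} ∪
          {x | 0 < u x ∧ ε / 2 ≤ |f x - z n x|})
          {x | 0 < u x ∧ ε / 2 ≤ |f x - z n0 x|}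
      have h3 := μ.m_union_le {x | |z n x - z n0 x| < ε}
          {x | 0 < u x ∧ ε / 2 ≤ |f x - z n x|}
      have h4 := hbd n hn.1 (ε / 2) (by linarith)
      have h5 := hbd n0 hn0 (ε / 2) (by linarith)
      have h6 := hn.2
      linarith)
    funext x
    have hx := congrFun h0 x
    simp only [Pi.zero_apply] at hx
    linarith
  refine ⟨z n0, hzW n0, fun ε hε => ?_⟩
  refine le_antisymm ?_ (μ.m_nonneg _)
  refine ge_of_tendsto het ?_
  filter_upwards [hP, hzeq] with n hn hn2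
  rw [← hn2]
  exact hbd n hn.1 ε hε

end H84.PG
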