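import Pool.Agent.H84.PG.MeanB

/-!
# Basic facts on the ultrafilter `UU` and on convergence to zero in mean
-/

set_option autoImplicit false

namespace H84.PG

open Filter Topology

instance UU_neBot : UU.NeBot := by
  unfold UU
  infer_instance

theorem UU_le : UU ≤ atTop := Nat.hyperfilter_le_atTop

theorem UU_or (P : ℕ → Prop) : (∀ᶠ n in UU, P n) ∨ ∀ᶠ n in UU, ¬ P n :=
  Ultrafilter.eventually_or.mp (Eventually.of_forall fun n => em (P n))

theorem UU_not {P : ℕ → Prop} (h : ¬ ∀ᶠ n in UU, P n) : ∀ᶠ n in UU, ¬ P n :=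
  (UU_or P).resolve_left h

theorem UU_fin {ι : Type*} [Finite ι] (j : ℕ → ι) : ∃ i, ∀ᶠ n in UU, j n = i := by
  by_contra h
  push Not at h
  have h1 : ∀ i, ∀ᶠ n in UU, j n ≠ i := fun i => UU_not (by
    intro h2
    exact (h i) (by simpa using h2))
  have h2 : ∀ᶠ n in UU, ∀ i, j n ≠ i := eventually_all.mpr h1
  obtain ⟨n, hn⟩ := h2.exists
  exact hn (j n) rfl

theorem UU_lim {f : ℕ → ℝ} {C : ℝ} (h : ∀ᶠ n in UU, |f n| ≤ C) : ∃ l, Tendsto f UU (𝓝 l) := by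
  have hc : IsCompact (Set.Icc (-C) C) := isCompact_Icc
  have hm : Set.Icc (-C) C ∈ Ultrafilter.map f (Filter.hyperfilter ℕ) := by
    change f ⁻¹' (Set.Icc (-C) C) ∈ UU
    filter_upwards [h] with n hn
    exact abs_le.mp hn
  obtain ⟨l, _, hl⟩ := hc.ultrafilter_le_nhds' _ hm
  exact ⟨l, hl⟩

variable {X : Type*} [AddCommGroup X] {μ : Mean X}

theorem MZ.of_bound {g : ℕ → X → ℝ} {E : ℕ → Set X} {e : ℕ → ℝ}
    (hE : Tendsto (fun n => μ.m (E n)) UU (𝓝 0)) (he : Tendsto e UU (𝓝 0))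
    (h : ∀ᶠ n in UU, ∀ x ∉ E n, |g n x| ≤ e n) : MZ μ g := by
  intro ε hε
  refine squeeze_zero' (Eventually.of_forall fun n => μ.m_nonneg _) ?_ hE
  have h1 : ∀ᶠ n in UU, e n < ε := he.eventually (gt_mem_nhds hε)
  filter_upwards [h, h1] with n hn hn1
  refine μ.m_mono fun x hx => ?_
  by_contra hxE
  have h2 := hn x hxE
  have h3 : ε ≤ |g n x| := hx
  linarith

theorem MZ.of_off {g h : ℕ → X → ℝ} {E : ℕ → Set X}
    (hE : Tendsto (fun n => μ.m (E n)) UU (𝓝 0)) (hh : MZ μ h)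
    (hle : ∀ᶠ n in UU, ∀ x ∉ E n, |g n x| ≤ |h n x|) : MZ μ g := by
  intro ε hε
  have h0 : Tendsto (fun n => μ.m (E n) + μ.m {x | ε ≤ |h n x|}) UU (𝓝 0) := by
    simpa using hE.add (hh ε hε)
  refine squeeze_zero' (Eventually.of_forall fun n => μ.m_nonneg _) ?_ h0
  filter_upwards [hle] with n hn
  refine (μ.m_mono fun x hx => ?_).trans (μ.m_union_le _ _)
  by_cases hxE : x ∈ E n
  · exact Or.inl hxE
  · exact Or.inr (le_trans (show ε ≤ |g n x| from hx) (hn x hxE))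

theorem MZ.mono {g h : ℕ → X → ℝ} (hh : MZ μ h)
    (hle : ∀ᶠ n in UU, ∀ x, |g n x| ≤ |h n x|) : MZ μ g :=
  MZ.of_off (E := fun _ => ∅) (by simpa [μ.m_empty] using tendsto_const_nhds) hh
    (hle.mono fun n hn x _ => hn x)

theorem MZ.congr {g h : ℕ → X → ℝ} (hh : MZ μ h) (he : ∀ᶠ n in UU, ∀ x, g n x = h n x) :
    MZ μ g :=
  hh.mono (he.mono fun n hn x => by rw [hn x])

theorem MZ.of_unif {g : ℕ → X → ℝ} {e : ℕ → ℝ} (he : Tendsto e UU (𝓝 0))
    (h : ∀ᶠ n in UU, ∀ x, |g n x| ≤ e n) : MZ μ g :=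
  MZ.of_bound (E := fun _ => ∅) (by simpa [μ.m_empty] using tendsto_const_nhds) he
    (h.mono fun n hn x _ => hn x)

theorem MZ.zero : MZ μ (fun _ _ => 0) :=
  MZ.of_unif (e := fun _ => 0) tendsto_const_nhds (Eventually.of_forall fun n x => by simp)

theorem MZ.add {g h : ℕ → X → ℝ} (hg : MZ μ g) (hh : MZ μ h) :
    MZ μ (fun n x => g n x + h n x) := by
  intro ε hε
  have h0 : Tendsto (fun n => μ.m {x | ε / 2 ≤ |g n x|} + μ.m {x | ε / 2 ≤ |h n x|}) UU
      (𝓝 0) := by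
    simpa using (hg (ε / 2) (by positivity)).add (hh (ε / 2) (by positivity))
  refine squeeze_zero' (Eventually.of_forall fun n => μ.m_nonneg _)
    (Eventually.of_forall fun n => ?_) h0
  refine (μ.m_mono fun x hx => ?_).trans (μ.m_union_le _ _)
  have h1 : ε ≤ |g n x + h n x| := hx
  have h2 := abs_add_le (g n x) (h n x)
  by_cases h3 : ε / 2 ≤ |g n x|
  · exact Or.inl h3
  · refine Or.inr (show ε / 2 ≤ |h n x| from ?_)
    push Not at h3
    linarith

theorem MZ.neg {g : ℕ → X → ℝ} (hg : MZ μ g) : MZ μ (fun n x => - g n x) :=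
  hg.mono (Eventually.of_forall fun n x => by rw [abs_neg])

theorem MZ.sub {g h : ℕ → X → ℝ} (hg : MZ μ g) (hh : MZ μ h) :
    MZ μ (fun n x => g n x - h n x) :=
  (hg.add hh.neg).congr (Eventually.of_forall fun n x => by ring)

theorem MZ.mul_bdd {g b : ℕ → X → ℝ} {K : ℝ} (hb : ∀ᶠ n in UU, ∀ x, |b n x| ≤ K)
    (hg : MZ μ g) : MZ μ (fun n x => b n x * g n x) := by
  intro ε hε
  have hK : 0 < |K| + 1 := by positivity
  refine squeeze_zero' (Eventually.of_forall fun n => μ.m_nonneg _) ?_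
    (hg (ε / (|K| + 1)) (by positivity))
  filter_upwards [hb] with n hn
  refine μ.m_mono fun x hx => ?_
  have h1 : ε ≤ |b n x * g n x| := hx
  rw [abs_mul] at h1
  have h2 : |b n x| ≤ |K| + 1 := (hn x).trans ((le_abs_self K).trans (by linarith))
  have h3 : |b n x| * |g n x| ≤ (|K| + 1) * |g n x| :=
    mul_le_mul_of_nonneg_right h2 (abs_nonneg _)
  show ε / (|K| + 1) ≤ |g n x|
  rw [div_le_iff₀ hK]
  linarith

theorem MZ.smul {g : ℕ → X → ℝ} (c : ℝ) (hg : MZ μ g) : MZ μ (fun n x => c * g n x) :=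
  MZ.mul_bdd (b := fun _ _ => c) (K := |c|) (Eventually.of_forall fun _ _ => le_rfl) hg

theorem MZ.trans {g : ℕ → X → ℝ} (hg : MZ μ g) (y : ℕ → X) :
    MZ μ (fun n x => g n (x + y n)) := by
  intro ε hε
  refine (hg ε hε).congr fun n => ?_
  exact (μ.m_trans {x | ε ≤ |g n x|} (y n)).symm

theorem MZ.ind {g : ℕ → X → ℝ} (hg : MZ μ g) (Y : ℕ → Set X) :
    MZ μ (fun n => (Y n).indicator (g n)) :=
  hg.mono (Eventually.of_forall fun n x => by
    by_cases h : x ∈ Y n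
    · rw [Set.indicator_of_mem h]
    · rw [Set.indicator_of_notMem h, abs_zero]
      exact abs_nonneg _)

theorem MZ.L {g : ℕ → X → ℝ} {K : ℝ} (hK : ∀ᶠ n in UU, ∀ x, |g n x| ≤ K) (hg : MZ μ g) :
    Tendsto (fun n => μ.L (g n)) UU (𝓝 0) := by
  rw [Metric.tendsto_nhds]
  intro ε hε
  have hK1 : 0 < |K| + 1 := by positivity
  have h1 : ∀ᶠ n in UU, μ.m {x | ε / 2 ≤ |g n x|} < ε / (2 * (|K| + 1)) :=
    (hg (ε / 2) (by positivity)).eventually (gt_mem_nhds (by positivity))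
  filter_upwards [hK, h1] with n hn hn1
  have h2 := μ.L_abs_le_of (f := g n) (C := |K| + 1) (ε := ε / 2) (Y := {x | ε / 2 ≤ |g n x|})
    (fun x => (hn x).trans ((le_abs_self K).trans (by linarith))) (by positivity) hK1.le
    (fun x hx => by
      have h3 : ¬ ε / 2 ≤ |g n x| := hx
      push Not at h3
      exact h3.le)
  rw [Real.dist_eq, sub_zero]
  have h3 : (|K| + 1) * μ.m {x | ε / 2 ≤ |g n x|} < (|K| + 1) * (ε / (2 * (|K| + 1))) :=
    mul_lt_mul_of_pos_left hn1 hK1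
  have h4 : (|K| + 1) * (ε / (2 * (|K| + 1))) = ε / 2 := by field_simp
  linarith

/-- a set of positive mean on which `g n → 0` in mean: there are points where `g n` is small -/
theorem MZ.small_on {g : ℕ → X → ℝ} {Y : Set X} (hg : MZ μ (fun n => Y.indicator (g n)))
    {ε δ : ℝ} (hε : 0 < ε) (hδ : δ < μ.m Y) :
    ∀ᶠ n in UU, δ < μ.m (Y ∩ {x | |g n x| < ε}) := by
  have h1 : ∀ᶠ n in UU, μ.m {x | ε ≤ |Y.indicator (g n) x|} < μ.m Y - δ :=
    (hg ε hε).eventually (gt_mem_nhds (by linarith))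
  filter_upwards [h1] with n hn
  have h2 := μ.m_diff Y {x | ε ≤ |Y.indicator (g n) x|}
  have h3 : μ.m (Y \ {x | ε ≤ |Y.indicator (g n) x|}) ≤ μ.m (Y ∩ {x | |g n x| < ε}) := by
    refine μ.m_mono fun x hx => ⟨hx.1, ?_⟩
    have h4 : ¬ ε ≤ |Y.indicator (g n) x| := hx.2
    rw [Set.indicator_of_mem hx.1] at h4
    exact not_le.mp h4
  linarith

end H84.PG
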