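import Pool.Agent.H84.PG.MalSc

/-!
# Module MalC: a normal subgroup that commutes modulo scalars (IV.1)

If `V = 0` take `T4 = ⊤`.  `n = finrank V > 0`.  If `ρ ⁅x, y⁆ = c • 1` then `c ^ n = 1`
(`LinearMap.det` of a commutator is `1`).
(1) `Z = {y ∈ BB | ∀ b ∈ BB, ρ y * ρ b = ρ b * ρ y}` is a normal subgroup of `T`, of finite index in
`BB`: for each generator `b` of `BB` (finitely many, `hT`) the map `y ↦` scalar of `ρ ⁅y, b⁆` is a
homomorphism from `BB` to the `n`-th roots of unity (`⁅y y', b⁆ = y ⁅y', b⁆ y⁻¹ ⁅y, b⁆`; scalars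
are central); its kernel has finite index; an element of `BB` which commutes (under `ρ`) with the
generators commutes with `BB`.
(2) `ρ z` is a scalar for `z ∈ Z` (`mal_sc`).
(3) `T3 = {t | ∀ b ∈ BB, t b t⁻¹ b⁻¹ ∈ Z}` has finite index in `T` (kernel of the action of `T` by
conjugation on the finite group `BB / Z`, e.g. via `Subgroup` of permutations of the finite set of cosets; `BB`, `Z` normal).
(4) for `t ∈ T3`, `b ∈ BB`: `ρ ⁅t, b⁆` is a scalar `e(t, b)` with `e ^ n = 1`, multiplicative in `t`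
(`⁅t t', b⁆ = t ⁅t', b⁆ t⁻¹ ⁅t, b⁆`).  `T4` = the elements of `T3` with `e(t, b) = 1` for the
finitely many generators `b` of `BB`: finite index; its elements commute with all of `ρ BB`.
-/

set_option autoImplicit false

namespace H84.PG

open H36.PP Subgroup

variable {T V : Type*} [Group T] [AddCommGroup V] [Module ℂ V]

theorem MalC_sc_comm {f g : V →ₗ[ℂ] V} (hf : IsSc f) : f * g = g * f := by
  obtain ⟨c, rfl⟩ := hf
  rw [smul_mul_assoc, mul_smul_comm, one_mul, mul_one]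

theorem MalC_inv (ρ : T →* (V →ₗ[ℂ] V)) (t : T) : ρ t * ρ t⁻¹ = 1 := by
  rw [← map_mul, mul_inv_cancel, map_one]

theorem MalC_comm_of (ρ : T →* (V →ₗ[ℂ] V)) {t b : T} (h : ρ (t * b * t⁻¹ * b⁻¹) = 1) :
    ρ t * ρ b = ρ b * ρ t := by
  have h1 : t * b = t * b * t⁻¹ * b⁻¹ * (b * t) := by group
  rw [← map_mul, ← map_mul, h1, map_mul, h, one_mul]

theorem MalC_root [FiniteDimensional ℂ V] (ρ : T →* (V →ₗ[ℂ] V)) {t b : T} {c : ℂ}
    (h : ρ (t * b * t⁻¹ * b⁻¹) = c • (1 : V →ₗ[ℂ] V)) : c ^ Module.finrank ℂ V = 1 := by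
  have h1 : LinearMap.det (ρ (t * b * t⁻¹ * b⁻¹)) = 1 := by
    have h2 : LinearMap.det (ρ t) * LinearMap.det (ρ t⁻¹) = 1 := by
      rw [← map_mul, MalC_inv, map_one]
    have h3 : LinearMap.det (ρ b) * LinearMap.det (ρ b⁻¹) = 1 := by
      rw [← map_mul, MalC_inv, map_one]
    simp only [map_mul]
    calc _ = (LinearMap.det (ρ t) * LinearMap.det (ρ t⁻¹)) *
          (LinearMap.det (ρ b) * LinearMap.det (ρ b⁻¹)) := by ring
      _ = 1 := by rw [h2, h3, one_mul]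
  rw [h, LinearMap.det_smul, map_one, mul_one] at h1
  exact h1

theorem MalC_finite {n : ℕ} (hn : 0 < n) :
    {f : V →ₗ[ℂ] V | ∃ c : ℂ, c ^ n = 1 ∧ f = c • (1 : V →ₗ[ℂ] V)}.Finite := by
  have h1 : {c : ℂ | c ^ n = 1}.Finite := by
    refine ((Polynomial.nthRoots n (1 : ℂ)).toFinset.finite_toSet).subset fun c hc => ?_
    rw [Finset.mem_coe, Multiset.mem_toFinset, Polynomial.mem_nthRoots hn]
    exact hc
  refine (h1.image fun c : ℂ => c • (1 : V →ₗ[ℂ] V)).subset ?_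
  rintro f ⟨c, hc, rfl⟩
  exact ⟨c, hc, rfl⟩

theorem MalC_A [FiniteDimensional ℂ V] (hn : 0 < Module.finrank ℂ V) (ρ : T →* (V →ₗ[ℂ] V))
    (S : Subgroup T) (b : T) (hsc : ∀ t ∈ S, IsSc (ρ (t * b * t⁻¹ * b⁻¹))) :
    ∃ K : Subgroup S, K.FiniteIndex ∧ ∀ t ∈ K, ρ (t * b * (t : T)⁻¹ * b⁻¹) = 1 := by
  let φ : S →* (V →ₗ[ℂ] V) :=
    { toFun := fun t => ρ (t * b * (t : T)⁻¹ * b⁻¹)
      map_one' := by
        simp
      map_mul' := by
        intro t t'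
        have e : (((t * t' : S) : T) * b * ((t * t' : S) : T)⁻¹ * b⁻¹) =
            (t : T) * ((t' : T) * b * (t' : T)⁻¹ * b⁻¹) * (t : T)⁻¹ *
              ((t : T) * b * (t : T)⁻¹ * b⁻¹) := by
          rw [Subgroup.coe_mul]
          group
        rw [e, map_mul, map_mul, map_mul ρ (t : T), ← MalC_sc_comm (hsc t' t'.2), mul_assoc (ρ _) (ρ (t : T)) (ρ (t : T)⁻¹),
          MalC_inv, mul_one, MalC_sc_comm (hsc t' t'.2)] }
  have hfin : Finite φ.toHomUnits.range := by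
    have h1 := MalC_finite (V := V) hn
    have : Finite {f : V →ₗ[ℂ] V | ∃ c : ℂ, c ^ Module.finrank ℂ V = 1 ∧
      f = c • (1 : V →ₗ[ℂ] V)} := h1.to_subtype
    refine Finite.of_injective (β := {f : V →ₗ[ℂ] V | ∃ c : ℂ, c ^ Module.finrank ℂ V = 1 ∧
      f = c • (1 : V →ₗ[ℂ] V)}) (fun x => ⟨((x : (V →ₗ[ℂ] V)ˣ) : V →ₗ[ℂ] V), ?_⟩) ?_
    · obtain ⟨_, t, rfl⟩ := x
      obtain ⟨c, hc⟩ := hsc t t.2
      exact ⟨c, MalC_root ρ hc, hc⟩
    · intro x y h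
      apply Subtype.ext
      apply Units.ext
      exact congrArg Subtype.val h
  refine ⟨φ.toHomUnits.ker, Subgroup.finiteIndex_ker _, fun t ht => ?_⟩
  exact congrArg Units.val (MonoidHom.mem_ker.mp ht)

theorem MalC_B [FiniteDimensional ℂ V] (hn : 0 < Module.finrank ℂ V) (ρ : T →* (V →ₗ[ℂ] V))
    (S BB : Subgroup T) (hfg : BB.FG) (hsc : ∀ t ∈ S, ∀ b ∈ BB, IsSc (ρ (t * b * t⁻¹ * b⁻¹))) :
    ∃ S' ≤ S, S'.relIndex S ≠ 0 ∧ ∀ t ∈ S', ∀ b ∈ BB, ρ t * ρ b = ρ b * ρ t := by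
  obtain ⟨F, hF⟩ := hfg
  have hFB : ∀ b ∈ F, b ∈ BB := fun b hb => hF ▸ subset_closure hb
  choose K hK1 hK2 using fun b : F => MalC_A hn ρ S (b : T) fun t ht => hsc t ht b (hFB b b.2)
  refine ⟨(⨅ b, K b).map S.subtype, map_subtype_le _, ?_, ?_⟩
  · have : (⨅ b, K b).FiniteIndex := Subgroup.finiteIndex_iInf hK1
    rw [relIndex, subgroupOf, comap_map_eq_self_of_injective S.subtype_injective]
    exact this.index_ne_zero
  · rintro _ ⟨t, ht, rfl⟩ b hb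
    rw [← hF] at hb
    have ht' : ∀ b : F, t ∈ K b := fun b => (mem_iInf.mp ht) b
    induction hb using closure_induction with
    | mem x hx => exact MalC_comm_of ρ (hK2 ⟨x, hx⟩ t (ht' ⟨x, hx⟩))
    | one => rw [map_one, mul_one, one_mul]
    | mul x y _ _ h1 h2 =>
      rw [map_mul, ← mul_assoc, h1, mul_assoc, h2, mul_assoc]
    | inv x _ h1 =>
      have h2 : ρ x⁻¹ * (ρ (S.subtype t) * ρ x) * ρ x⁻¹ = ρ x⁻¹ * (ρ x * ρ (S.subtype t)) * ρ x⁻¹ := by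
        rw [h1]
      have h3 : ρ x⁻¹ * ρ x = 1 := by rw [← map_mul, inv_mul_cancel, map_one]
      have h4 := MalC_inv ρ x
      calc ρ (S.subtype t) * ρ x⁻¹ = (ρ x⁻¹ * ρ x) * ρ (S.subtype t) * ρ x⁻¹ := by
            rw [h3, one_mul]
        _ = ρ x⁻¹ * (ρ x * ρ (S.subtype t)) * ρ x⁻¹ := by simp only [mul_assoc]
        _ = ρ x⁻¹ * (ρ (S.subtype t) * ρ x) * ρ x⁻¹ := h2.symm
        _ = ρ x⁻¹ * ρ (S.subtype t) * (ρ x * ρ x⁻¹) := by simp only [mul_assoc]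
        _ = ρ x⁻¹ * ρ (S.subtype t) := by rw [h4, mul_one]

/-- the elements of `BB` that commute with `BB` -/
def MalC_Z (ρ : T →* (V →ₗ[ℂ] V)) (BB : Subgroup T) : Subgroup T where
  carrier := {y | y ∈ BB ∧ ∀ b ∈ BB, ρ y * ρ b = ρ b * ρ y}
  one_mem' := ⟨BB.one_mem, fun b _ => by rw [map_one, one_mul, mul_one]⟩
  mul_mem' := by
    rintro x y ⟨hx, hx'⟩ ⟨hy, hy'⟩
    refine ⟨BB.mul_mem hx hy, fun b hb => ?_⟩
    rw [map_mul, mul_assoc, hy' b hb, ← mul_assoc, hx' b hb, mul_assoc]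
  inv_mem' := by
    rintro x ⟨hx, hx'⟩
    refine ⟨BB.inv_mem hx, fun b hb => ?_⟩
    have h3 : ρ x⁻¹ * ρ x = 1 := by rw [← map_mul, inv_mul_cancel, map_one]
    have h4 := MalC_inv ρ x
    calc ρ x⁻¹ * ρ b = ρ x⁻¹ * ρ b * (ρ x * ρ x⁻¹) := by rw [h4, mul_one]
      _ = ρ x⁻¹ * (ρ b * ρ x) * ρ x⁻¹ := by simp only [mul_assoc]
      _ = ρ x⁻¹ * (ρ x * ρ b) * ρ x⁻¹ := by rw [hx' b hb]
      _ = (ρ x⁻¹ * ρ x) * ρ b * ρ x⁻¹ := by simp only [mul_assoc]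
      _ = ρ b * ρ x⁻¹ := by rw [h3, one_mul]

theorem MalC_Z_normal (ρ : T →* (V →ₗ[ℂ] V)) (BB : Subgroup T) [hN : BB.Normal] :
    (MalC_Z ρ BB).Normal := by
  refine ⟨?_⟩
  rintro y ⟨hy, hy'⟩ t
  refine ⟨hN.conj_mem y hy t, fun b hb => ?_⟩
  have h1 : t⁻¹ * b * t ∈ BB := by simpa using hN.conj_mem b hb t⁻¹
  have h2 := hy' _ h1
  have e1 : t * y * t⁻¹ * b = t * (y * (t⁻¹ * b * t)) * t⁻¹ := by group
  have e2 : b * (t * y * t⁻¹) = t * ((t⁻¹ * b * t) * y) * t⁻¹ := by group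
  rw [← map_mul, ← map_mul, e1, e2]
  generalize t⁻¹ * b * t = a at h2 ⊢
  rw [map_mul, map_mul, map_mul ρ y, h2, map_mul ρ (t * (a * y)), map_mul ρ t (a * y),
    map_mul ρ a]

theorem mal_c {T V : Type*} [Group T] [AddCommGroup V] [Module ℂ V]
    [FiniteDimensional ℂ V] (hT : H36.PP.Max T) (ρ : T →* (V →ₗ[ℂ] V)) (hirr : IrrF ρ)
    (BB : Subgroup T) [BB.Normal] (hB : ∀ x ∈ BB, ∀ y ∈ BB, IsSc (ρ (x * y * x⁻¹ * y⁻¹))) :
    ∃ T4 : Subgroup T, T4.FiniteIndex ∧ ∀ t ∈ T4, ∀ b ∈ BB, ρ t * ρ b = ρ b * ρ t := by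
  rcases Nat.eq_zero_or_pos (Module.finrank ℂ V) with h0 | hn
  · have hs : Subsingleton V := Module.finrank_zero_iff.mp h0
    refine ⟨⊤, inferInstance, fun t _ b _ => ?_⟩
    ext v
    exact Subsingleton.elim _ _
  have hZN := MalC_Z_normal ρ BB
  set Z := MalC_Z ρ BB with hZ
  have hZB : Z ≤ BB := fun y hy => hy.1
  -- finite index of `Z` in `BB`
  obtain ⟨S', hS'1, hS'2, hS'3⟩ := MalC_B hn ρ BB BB (hT BB) hB
  have hS'Z : S' ≤ Z := fun y hy => ⟨hS'1 hy, hS'3 y hy⟩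
  have hZrel : Z.relIndex BB ≠ 0 := fun h => hS'2 (relIndex_eq_zero_of_le_left hS'Z h)
  have hZsc : ∀ z ∈ Z, IsSc (ρ z) := mal_sc ρ hirr Z fun x hx y hy => hx.2 y (hZB hy)
  -- the image of `BB` modulo `Z` is finite
  let π : T →* T ⧸ Z := QuotientGroup.mk' Z
  have hBfin : Finite (BB.map π) := by
    have h1 : (π.comp BB.subtype).range = BB.map π := by
      rw [MonoidHom.range_comp, Subgroup.range_subtype]
    have h2 : (π.comp BB.subtype).ker = Z.subgroupOf BB := by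
      rw [← MonoidHom.comap_ker, QuotientGroup.ker_mk']
      rfl
    have h3 := Subgroup.index_ker (π.comp BB.subtype)
    rw [h2, h1] at h3
    exact Nat.finite_of_card_ne_zero (h3 ▸ hZrel)
  have hBN : (BB.map π).Normal := Normal.map inferInstance π (QuotientGroup.mk'_surjective Z)
  have hAfin : Finite (MulAut (BB.map π)) :=
    DFunLike.finite (MulAut (BB.map π))
  let κ : T →* MulAut (BB.map π) := (MulAut.conjNormal (H := BB.map π)).comp π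
  have hκ : κ.ker.FiniteIndex := Subgroup.finiteIndex_ker κ
  have hκZ : ∀ t ∈ κ.ker, ∀ b ∈ BB, t * b * t⁻¹ * b⁻¹ ∈ Z := by
    intro t ht b hb
    have h1 : κ t = 1 := MonoidHom.mem_ker.mp ht
    have h2 : κ t ⟨π b, mem_map_of_mem π hb⟩ = ⟨π b, mem_map_of_mem π hb⟩ := by
      rw [h1]
      rfl
    have h3 : π t * π b * (π t)⁻¹ = π b := by
      have h4 := congrArg Subtype.val h2
      exact h4
    have h5 : π (t * b * t⁻¹ * b⁻¹) = 1 := by
      rw [map_mul, map_mul, map_mul, map_inv, map_inv, h3, mul_inv_cancel]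
    exact (QuotientGroup.eq_one_iff _).mp h5
  obtain ⟨T4, h41, h42, h43⟩ := MalC_B hn ρ κ.ker BB (hT BB) fun t ht b hb =>
    hZsc _ (hκZ t ht b hb)
  refine ⟨T4, ⟨?_⟩, h43⟩
  rw [← relIndex_mul_index h41]
  exact mul_ne_zero h42 hκ.index_ne_zero

end H84.PG
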