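import Pool.Agent.H84.PG.Defs

/-!
# Module MalDefs: definitions for Part IV (Mal'cev)

`IsSc f`      `f` is a scalar operator
`IrrF ρ`      every subgroup of finite index acts irreducibly
`mal_schur`   an operator which commutes with an irreducible group is a scalar (complex numbers)
`mal_comm`    commuting operators have a common eigenvector
Proofs: `Module.End.exists_eigenvalue`: the eigenspace of `f` is invariant and nonzero, so it is
everything.  `mal_comm`: induction on the dimension: if all `ρ z`, `z ∈ Z`, are scalars take any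
vector, otherwise pass to an eigenspace of a nonscalar one, which is invariant under all the
others (compare `H36/PQ/Z3.lean`).
-/

set_option autoImplicit false

namespace H84.PG

open H36.PP Subgroup

/-- scalar operator -/
def IsSc {V : Type*} [AddCommGroup V] [Module ℂ V] (f : V →ₗ[ℂ] V) : Prop :=
  ∃ c : ℂ, f = c • (1 : V →ₗ[ℂ] V)

/-- every subgroup of finite index acts irreducibly -/
def IrrF {T V : Type*} [Group T] [AddCommGroup V] [Module ℂ V] (ρ : T →* (V →ₗ[ℂ] V)) :
    Prop :=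
  ∀ T' : Subgroup T, T'.FiniteIndex → ∀ U : Submodule ℂ V, (∀ t ∈ T', ∀ u ∈ U, ρ t u ∈ U) →
    U = ⊥ ∨ U = ⊤

theorem mal_schur {T V : Type*} [Group T] [AddCommGroup V] [Module ℂ V]
    [FiniteDimensional ℂ V] (ρ : T →* (V →ₗ[ℂ] V)) (hirr : IrrF ρ) (T' : Subgroup T)
    (hT' : T'.FiniteIndex) (f : V →ₗ[ℂ] V) (hf : ∀ t ∈ T', f * ρ t = ρ t * f) : IsSc f := by
  rcases subsingleton_or_nontrivial V with hV | hV
  · exact ⟨0, LinearMap.ext fun v => Subsingleton.elim _ _⟩
  · obtain ⟨c, hc⟩ := Module.End.exists_eigenvalue f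
    have hinv : ∀ t ∈ T', ∀ u ∈ Module.End.eigenspace f c, ρ t u ∈ Module.End.eigenspace f c := by
      intro t ht u hu
      rw [Module.End.mem_eigenspace_iff] at hu ⊢
      have h1 : (f * ρ t) u = (ρ t * f) u := by rw [hf t ht]
      rw [Module.End.mul_apply, Module.End.mul_apply, hu, map_smul] at h1
      exact h1
    rcases hirr T' hT' _ hinv with h | h
    · exact absurd h hc
    · refine ⟨c, LinearMap.ext fun v => ?_⟩
      have hv : v ∈ Module.End.eigenspace f c := by
        rw [h]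
        exact Submodule.mem_top
      exact Module.End.mem_eigenspace_iff.mp hv

theorem mal_comm {T V : Type*} [Group T] [AddCommGroup V] [Module ℂ V]
    [FiniteDimensional ℂ V] [Nontrivial V] (ρ : T →* (V →ₗ[ℂ] V)) (Z : Subgroup T)
    (hZ : ∀ x ∈ Z, ∀ y ∈ Z, ρ x * ρ y = ρ y * ρ x) :
    ∃ v : V, v ≠ 0 ∧ ∀ z ∈ Z, ∃ c : ℂ, ρ z v = c • v := by
  have hne : ({U : Submodule ℂ V | U ≠ ⊥ ∧ ∀ z ∈ Z, ∀ u ∈ U, ρ z u ∈ U}).Nonempty :=
    ⟨⊤, top_ne_bot, fun _ _ _ _ => Submodule.mem_top⟩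
  obtain ⟨U, ⟨hU0, hUinv⟩, hmin⟩ := wellFounded_lt.has_min _ hne
  obtain ⟨v, hvU, hv0⟩ := Submodule.exists_mem_ne_zero_of_ne_bot hU0
  refine ⟨v, hv0, fun z hz => ?_⟩
  have hnt : Nontrivial U := Submodule.nontrivial_iff_ne_bot.mpr hU0
  obtain ⟨c, hc⟩ := Module.End.exists_eigenvalue ((ρ z).restrict (hUinv z hz))
  obtain ⟨u, hu⟩ := hc.exists_hasEigenvector
  have hu1 : ρ z (u : V) = c • (u : V) := by
    have h1 := hu.apply_eq_smul
    have h2 := congrArg (fun w : U => (w : V)) h1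
    simpa using h2
  have hu0 : (u : V) ≠ 0 := fun h => hu.2 (Subtype.ext h)
  have hmem : (U ⊓ Module.End.eigenspace (ρ z) c) ∈
      {U : Submodule ℂ V | U ≠ ⊥ ∧ ∀ z ∈ Z, ∀ u ∈ U, ρ z u ∈ U} := by
    constructor
    · intro hb
      have h1 : (u : V) ∈ U ⊓ Module.End.eigenspace (ρ z) c :=
        ⟨u.2, Module.End.mem_eigenspace_iff.mpr hu1⟩
      rw [hb, Submodule.mem_bot] at h1
      exact hu0 h1
    · rintro y hy w ⟨hw1, hw2⟩
      refine ⟨hUinv y hy w hw1, ?_⟩
      rw [SetLike.mem_coe, Module.End.mem_eigenspace_iff] at hw2 ⊢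
      have h1 : (ρ z * ρ y) w = (ρ y * ρ z) w := by rw [hZ z hz y hy]
      rw [Module.End.mul_apply, Module.End.mul_apply, hw2, map_smul] at h1
      exact h1
  have heq : U ⊓ Module.End.eigenspace (ρ z) c = U := by
    by_contra hne'
    exact hmin _ hmem (lt_of_le_of_ne inf_le_left hne')
  have hv2 : v ∈ U ⊓ Module.End.eigenspace (ρ z) c := by
    rw [heq]
    exact hvU
  exact ⟨c, Module.End.mem_eigenspace_iff.mp hv2.2⟩

end H84.PG
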