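import Pool.Agent.H84.PG.MalMain

/-!
# Module MalEig: a common eigenvector of a subgroup of finite index (IV.1)

Strong induction on `dim V`, for all `T`.  If `IrrF ρ` use `mal_main` and any nonzero vector.
Otherwise there are `T'` of finite index and an invariant `U ≠ ⊥, ⊤`; apply the induction hypothesis
to the group `T'` (`AP.subgroup`) acting on `U`; the subgroup of finite index of `T'` has finite
index in `T`.
-/

set_option autoImplicit false

namespace H84.PG

universe u v

open H36.PP Subgroup

theorem mal_eig (n : ℕ) : ∀ (T : Type u) (V : Type v) [Group T] [AddCommGroup V] [Module ℂ V]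
    [FiniteDimensional ℂ V] [Nontrivial V] (_ : AP T) (ρ : T →* (V →ₗ[ℂ] V)),
    Module.finrank ℂ V ≤ n → ∃ T0 : Subgroup T, T0.FiniteIndex ∧
      ∃ v : V, v ≠ 0 ∧ ∀ t ∈ T0, ∃ c : ℂ, ρ t v = c • v := by
  induction n with
  | zero =>
    intro T V _ _ _ _ _ hT ρ h
    have h1 := Module.finrank_pos (R := ℂ) (M := V)
    omega
  | succ n ih =>
    intro T V _ _ _ _ _ hT ρ h
    by_cases hirr : IrrF ρ
    · obtain ⟨T0, h1, h2⟩ := mal_main hT ρ hirr
      obtain ⟨v, hv⟩ := exists_ne (0 : V)
      refine ⟨T0, h1, v, hv, fun t ht => ?_⟩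
      obtain ⟨c, hc⟩ := h2 t ht
      refine ⟨c, ?_⟩
      rw [hc, LinearMap.smul_apply, Module.End.one_apply]
    · unfold IrrF at hirr
      push Not at hirr
      obtain ⟨T', hT', U, hU, hU0, hU1⟩ := hirr
      let ρ' : T' →* (U →ₗ[ℂ] U) :=
        { toFun := fun t => (ρ t).restrict (hU t t.2)
          map_one' := by
            ext u
            simp
          map_mul' := by
            intro s t
            ext u
            simp }
      have hnt : Nontrivial U := Submodule.nontrivial_iff_ne_bot.mpr hU0
      have hlt : Module.finrank ℂ U < Module.finrank ℂ V :=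
        Submodule.finrank_lt hU1
      obtain ⟨T0, h1, v, h2, h3⟩ := ih T' U (AP.subgroup hT T') ρ' (by omega)
      refine ⟨T0.map T'.subtype, MalMain_map_fi T' hT' T0 h1, v,
        fun h0 => h2 (Subtype.ext h0), ?_⟩
      rintro _ ⟨s, hs, rfl⟩
      obtain ⟨c, hc⟩ := h3 s hs
      exact ⟨c, congrArg Subtype.val hc⟩

end H84.PG
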