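import Pool.Agent.H84.PG.MalEig

/-!
# Module MalFlag: commutators act unipotently (IV.2)

Induction on `n ≥ dim V`.  `V = 0`: trivial (for `n = 0` the product is the empty product `1 = 0` on a
zero space).  Otherwise take `T0`, `v` from `mal_eig`; `T0` acts on `V ⧸ ℂ v`; by induction there is
`T1 ≤ T0` of finite index such that products of `n` operators `ρ x - 1`, `x ∈ ⁅T1, T1⁆`, map `V` into
`ℂ v`; and `ρ x v = v` for `x ∈ ⁅T1, T1⁆` (the weight is a homomorphism to the commutative monoid
`ℂ`), so one more factor on the left kills it.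
(`T1` as a subgroup of `T`; transport from the subgroup `T0` as a type.)
-/

set_option autoImplicit false

namespace H84.PG

universe u v

open H36.PP Subgroup

theorem MalFlag_weight {T : Type u} {V : Type v} [Group T] [AddCommGroup V] [Module ℂ V]
    (ρ : T →* (V →ₗ[ℂ] V)) (T0 : Subgroup T) (v : V) (hv : v ≠ 0)
    (h : ∀ t ∈ T0, ∃ c : ℂ, ρ t v = c • v) : ∀ t ∈ ⁅T0, T0⁆, ρ t v = v := by
  let H : Subgroup T :=
    { carrier := {t | ρ t v = v}
      one_mem' := by
        show ρ 1 v = v
        rw [map_one, Module.End.one_apply]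
      mul_mem' := by
        intro a b ha hb
        show ρ (a * b) v = v
        have ha' : ρ a v = v := ha
        have hb' : ρ b v = v := hb
        rw [map_mul, Module.End.mul_apply, hb', ha']
      inv_mem' := by
        intro a ha
        show ρ a⁻¹ v = v
        have ha' : ρ a v = v := ha
        have h1 : ρ a⁻¹ (ρ a v) = v := by
          rw [← Module.End.mul_apply, ← map_mul, inv_mul_cancel, map_one, Module.End.one_apply]
        rwa [ha'] at h1 }
  have hle : ⁅T0, T0⁆ ≤ H := by
    rw [Subgroup.commutator_le]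
    intro a ha b hb
    show ρ (a * b * a⁻¹ * b⁻¹) v = v
    obtain ⟨α, hα⟩ := h a ha
    obtain ⟨β, hβ⟩ := h b hb
    have h1 : ρ (a * b) v = (α * β) • v := by
      rw [map_mul, Module.End.mul_apply, hβ, map_smul, hα, smul_smul, mul_comm]
    have h2 : ρ (b * a) v = (α * β) • v := by
      rw [map_mul, Module.End.mul_apply, hα, map_smul, hβ, smul_smul]
    have h3 : ρ (a * b * a⁻¹ * b⁻¹) (ρ (b * a) v) = ρ (a * b) v := by
      rw [← Module.End.mul_apply, ← map_mul]
      congr 2
      group
    rw [h1, h2, map_smul] at h3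
    have h4 : α * β ≠ 0 := by
      intro h0
      rw [h0, zero_smul] at h2
      have h5 : ρ (b * a)⁻¹ (ρ (b * a) v) = v := by
        rw [← Module.End.mul_apply, ← map_mul, inv_mul_cancel, map_one, Module.End.one_apply]
      rw [h2, map_zero] at h5
      exact hv h5.symm
    exact smul_right_injective V h4 h3
  exact fun t ht => hle ht

theorem mal_flag (n : ℕ) : ∀ (T : Type u) (V : Type v) [Group T] [AddCommGroup V] [Module ℂ V]
    [FiniteDimensional ℂ V] (_ : AP T) (ρ : T →* (V →ₗ[ℂ] V)), Module.finrank ℂ V ≤ n →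
    ∃ T0 : Subgroup T, T0.FiniteIndex ∧ ∀ x : Fin n → T, (∀ i, x i ∈ ⁅T0, T0⁆) →
      (List.ofFn fun i => ρ (x i) - 1).prod = 0 := by
  induction n with
  | zero =>
    intro T V _ _ _ _ hT ρ h
    have h1 : Subsingleton V := Module.finrank_zero_iff.1 (Nat.le_zero.1 h)
    refine ⟨⊤, inferInstance, fun x _ => ?_⟩
    refine LinearMap.ext fun u => ?_
    exact Subsingleton.elim _ _
  | succ n ih =>
    intro T V _ _ _ _ hT ρ h
    rcases subsingleton_or_nontrivial V with hV | hV
    · refine ⟨⊤, inferInstance, fun x _ => ?_⟩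
      refine LinearMap.ext fun u => ?_
      exact Subsingleton.elim _ _
    obtain ⟨T0, hT0, v, hv0, hv⟩ := mal_eig (n + 1) T V hT ρ h
    have hW : ∀ t : T0, Submodule.span ℂ {v} ≤
        (Submodule.span ℂ {v}).comap (ρ (t : T)) := by
      intro t
      rw [Submodule.span_le]
      intro u hu
      rw [Set.mem_singleton_iff] at hu
      rw [hu]
      obtain ⟨c, hc⟩ := hv t t.2
      show ρ (t : T) v ∈ Submodule.span ℂ {v}
      rw [hc]
      exact Submodule.smul_mem _ _ (Submodule.mem_span_singleton_self v)
    let ρ' : T0 →* ((V ⧸ Submodule.span ℂ {v}) →ₗ[ℂ] (V ⧸ Submodule.span ℂ {v})) :=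
      { toFun := fun t => Submodule.mapQ _ _ (ρ (t : T)) (hW t)
        map_one' := by
          refine LinearMap.ext fun w => ?_
          obtain ⟨u, rfl⟩ := Submodule.mkQ_surjective _ w
          simp
        map_mul' := by
          intro s t
          refine LinearMap.ext fun w => ?_
          obtain ⟨u, rfl⟩ := Submodule.mkQ_surjective _ w
          simp }
    have hρ' : ∀ (t : T0) (u : V), ρ' t ((Submodule.span ℂ {v}).mkQ u) =
        (Submodule.span ℂ {v}).mkQ (ρ (t : T) u) := fun t u => rfl
    have hdim : Module.finrank ℂ (V ⧸ Submodule.span ℂ {v}) ≤ n := by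
      have h1 := Submodule.finrank_quotient_add_finrank (Submodule.span ℂ {v})
      rw [finrank_span_singleton hv0] at h1
      omega
    obtain ⟨T1, hT1, hT1'⟩ := ih T0 (V ⧸ Submodule.span ℂ {v}) (AP.subgroup hT T0) ρ' hdim
    refine ⟨T1.map T0.subtype, MalMain_map_fi T0 hT0 T1 hT1, ?_⟩
    intro x hx
    have hx' : ∀ i, ∃ y : T0, y ∈ ⁅T1, T1⁆ ∧ (y : T) = x i := by
      intro i
      have h1 := hx i
      rw [← Subgroup.map_commutator] at h1
      obtain ⟨y, hy, hyx⟩ := h1
      exact ⟨y, hy, hyx⟩
    choose y hy hyx using hx'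
    have hprod : ∀ (m : ℕ) (z : Fin m → T0) (u : V),
        (Submodule.span ℂ {v}).mkQ ((List.ofFn fun i => ρ (z i : T) - 1).prod u) =
          (List.ofFn fun i => ρ' (z i) - 1).prod ((Submodule.span ℂ {v}).mkQ u) := by
      intro m
      induction m with
      | zero =>
        intro z u
        simp
      | succ m ihm =>
        intro z u
        rw [List.ofFn_succ, List.prod_cons, List.ofFn_succ, List.prod_cons,
          Module.End.mul_apply, Module.End.mul_apply, ← ihm (fun i => z i.succ) u,
          LinearMap.sub_apply, LinearMap.sub_apply, Module.End.one_apply, Module.End.one_apply,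
          hρ', map_sub]
    refine LinearMap.ext fun u => ?_
    rw [List.ofFn_succ, List.prod_cons, Module.End.mul_apply, LinearMap.zero_apply]
    have h1 : (Submodule.span ℂ {v}).mkQ
        ((List.ofFn fun i : Fin n => ρ (x i.succ) - 1).prod u) = 0 := by
      have h2 := hprod n (fun i => y i.succ) u
      simp only [hyx] at h2
      rw [h2, hT1' (fun i => y i.succ) (fun i => hy i.succ), LinearMap.zero_apply]
    rw [Submodule.mkQ_apply, Submodule.Quotient.mk_eq_zero, Submodule.mem_span_singleton] at h1
    obtain ⟨c, hc⟩ := h1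
    have h3 : ρ (x 0) v = v := by
      refine MalFlag_weight ρ T0 v hv0 hv _ ?_
      have h4 := hx 0
      exact Subgroup.commutator_mono (Subgroup.map_subtype_le T1) (Subgroup.map_subtype_le T1) h4
    rw [← hc, map_smul, LinearMap.sub_apply, Module.End.one_apply, h3, sub_self, smul_zero]

end H84.PG
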