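import Pool.Agent.H84.PG.MalFlag
import Pool.Agent.H36.PP.DerivT
import Pool.Agent.H36.PP.SolRank
import Pool.Agent.H36.PP.Union

/-!
# Module MalInt: action on a free abelian normal subgroup (IV.2)

`M` (written additively, `T` acting by conjugation: `act : T →* AddMonoid.End (Additive M)`) has finite
rank (`AP.frk` or: finitely generated abelian; `SolRank_ark`), so `DerivT_embed_vec` embeds it
equivariantly in `Fin d → ℚ`; extend scalars to `Fin d → ℂ` (matrices); `mal_flag`.  For
`x_1, ..., x_n ∈ ⁅T0, T0⁆` and `m ∈ M` the iterated commutator corresponds to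
`(ρ x_1 - 1) ... (ρ x_n - 1) m`.  The statement: let `K 0 = M`, `K (i + 1) = ⁅K i, ⁅T0, T0⁆⁆`;
all `K i ≤ M`, generated by elements `x m x⁻¹ m⁻¹` (`M` is abelian), and by induction on `i` every
product of `n - i` operators `ρ x - 1` kills `K i`.  So `K n = ⊥`.
-/

set_option autoImplicit false

namespace H84.PG

open H36.PP Subgroup
open scoped commutatorElement

/-- iterated commutators with `⁅T0, T0⁆` -/
def MalK {T : Type*} [Group T] (M D : Subgroup T) : ℕ → Subgroup T
  | 0 => M
  | i + 1 => ⁅MalK M D i, D⁆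

/-- extension of scalars from the rational numbers to the complex numbers -/
theorem MalInt_ext {T : Type*} [Group T] (d : ℕ)
    (ρ : T →* ((Fin d → ℚ) →ₗ[ℚ] (Fin d → ℚ))) :
    ∃ (ρ' : T →* ((Fin d → ℂ) →ₗ[ℂ] (Fin d → ℂ))) (j : (Fin d → ℚ) →+ (Fin d → ℂ)),
      Function.Injective j ∧ ∀ t v, j (ρ t v) = ρ' t (j v) := by
  classical
  let a : ((Fin d → ℚ) →ₗ[ℚ] (Fin d → ℚ)) →* Matrix (Fin d) (Fin d) ℚ :=
    { toFun := fun f => LinearMap.toMatrix' f
      map_one' := by
        change LinearMap.toMatrix' LinearMap.id = 1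
        exact LinearMap.toMatrix'_id
      map_mul' := by
        intro f g
        exact LinearMap.toMatrix'_comp f g }
  let b : Matrix (Fin d) (Fin d) ℚ →* Matrix (Fin d) (Fin d) ℂ :=
    ((algebraMap ℚ ℂ).mapMatrix : Matrix (Fin d) (Fin d) ℚ →+* Matrix (Fin d) (Fin d) ℂ)
  let c : Matrix (Fin d) (Fin d) ℂ →* ((Fin d → ℂ) →ₗ[ℂ] (Fin d → ℂ)) :=
    { toFun := fun A => Matrix.toLin' A
      map_one' := by
        rw [Matrix.toLin'_one]
        rfl
      map_mul' := by
        intro A B
        exact Matrix.toLin'_mul A B }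
  let j : (Fin d → ℚ) →+ (Fin d → ℂ) :=
    { toFun := fun v k => algebraMap ℚ ℂ (v k)
      map_zero' := by
        funext k
        simp
      map_add' := by
        intro v w
        funext k
        simp }
  refine ⟨c.comp (b.comp (a.comp ρ)), j, ?_, ?_⟩
  · intro v w h
    funext k
    have := congrFun h k
    exact (algebraMap ℚ ℂ).injective this
  · intro t v
    change j (ρ t v) = Matrix.toLin' ((LinearMap.toMatrix' (ρ t)).map (algebraMap ℚ ℂ)) (j v)
    rw [Matrix.toLin'_apply]
    funext k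
    have h1 : ρ t v = (LinearMap.toMatrix' (ρ t)).mulVec v := by
      rw [LinearMap.toMatrix'_mulVec]
    rw [h1]
    change algebraMap ℚ ℂ ((LinearMap.toMatrix' (ρ t)).mulVec v k) = _
    rw [RingHom.map_mulVec]
    rfl

/-- products of operators `ρ x - 1` along a list -/
theorem MalInt_list {T V : Type*} [Group T] [AddCommGroup V] [Module ℂ V]
    (ρ : T →* (V →ₗ[ℂ] V)) (D : Subgroup T) (n : ℕ)
    (h : ∀ x : Fin n → T, (∀ i, x i ∈ D) → (List.ofFn fun i => ρ (x i) - 1).prod = 0)
    (L : List T) (hL : L.length = n) (hD : ∀ x ∈ L, x ∈ D) :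
    (L.map fun x => ρ x - 1).prod = 0 := by
  subst hL
  have h1 := h (fun i => L.get i) (fun i => hD _ (L.get_mem i))
  rw [← h1]
  congr 1
  rw [← List.ofFn_get L, List.map_ofFn]
  simp [Function.comp_def]

theorem mal_int {T : Type*} [Group T] (hT : AP T) (M : Subgroup T) [M.Normal]
    (hc : ∀ x ∈ M, ∀ y ∈ M, x * y = y * x)
    (htf : ∀ x ∈ M, ∀ n : ℕ, 0 < n → x ^ n = 1 → x = 1) :
    ∃ T0 : Subgroup T, T0.FiniteIndex ∧ ∃ n, MalK M ⁅T0, T0⁆ n = ⊥ := by
  classical
  letI : CommGroup M := { (inferInstance : Group M) with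
    mul_comm := fun x y => Subtype.ext (hc x x.2 y y.2) }
  obtain ⟨r, hr⟩ := AP.frk (AP.subgroup hT M)
  have hrk : ARk (Additive M) r := SolRank_ark hr
  let cj : T → (M →* M) := fun t => (MulAut.conjNormal t : M ≃* M).toMonoidHom
  have hcj : ∀ (t : T) (x : M), ((cj t x : M) : T) = t * x * t⁻¹ := fun t x =>
    MulAut.conjNormal_apply t x
  let act : T →* AddMonoid.End (Additive M) :=
    { toFun := fun t => MonoidHom.toAdditive (cj t)
      map_one' := by
        apply AddMonoidHom.ext
        intro x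
        change Additive.ofMul (cj 1 (Additive.toMul x)) = x
        have h1 : cj 1 (Additive.toMul x) = Additive.toMul x := by
          apply Subtype.ext
          rw [hcj]
          simp
        rw [h1]
        rfl
      map_mul' := by
        intro s t
        apply AddMonoidHom.ext
        intro x
        change Additive.ofMul (cj (s * t) (Additive.toMul x)) =
          Additive.ofMul (cj s (cj t (Additive.toMul x)))
        congr 1
        apply Subtype.ext
        rw [hcj, hcj, hcj]
        group }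
  have hact : ∀ (t : T) (x : M), act t (Additive.ofMul x) = Additive.ofMul (cj t x) :=
    fun _ _ => rfl
  obtain ⟨d, ρ1, i1, hi1, he1⟩ := DerivT_embed_vec act r hrk (by
    intro m n hn h
    have h2 : (Additive.toMul m) ^ n = 1 := by
      have := congrArg Additive.toMul h
      simpa using this
    have h3 : ((Additive.toMul m : M) : T) ^ n = 1 := by
      have := congrArg (fun z : M => (z : T)) h2
      simpa using this
    have h4 := htf _ (Additive.toMul m).2 n hn h3
    have h5 : Additive.toMul m = 1 := Subtype.ext h4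
    exact h5)
  obtain ⟨ρ, j, hj, hej⟩ := MalInt_ext d ρ1
  obtain ⟨T0, hT0, hfl⟩ := mal_flag d T (Fin d → ℂ) hT ρ (by simp)
  have hfl' := MalInt_list ρ ⁅T0, T0⁆ d hfl
  -- the embedding of `M`
  let ι : M → (Fin d → ℂ) := fun m => j (i1 (Additive.ofMul m))
  have hι0 : ∀ m, ι m = 0 → m = 1 := by
    intro m h
    have h1 : i1 (Additive.ofMul m) = 0 := hj (by rw [map_zero]; exact h)
    have h2 : Additive.ofMul m = 0 := hi1 (by rw [map_zero]; exact h1)
    exact h2
  have hι1 : ι 1 = 0 := by
    change j (i1 (Additive.ofMul 1)) = 0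
    rw [ofMul_one, map_zero, map_zero]
  have hιm : ∀ x y, ι (x * y) = ι x + ι y := by
    intro x y
    change j (i1 (Additive.ofMul (x * y))) = _
    rw [ofMul_mul, map_add, map_add]
  have hιi : ∀ x, ι x⁻¹ = - ι x := by
    intro x
    change j (i1 (Additive.ofMul x⁻¹)) = _
    rw [ofMul_inv, map_neg, map_neg]
  have hιc : ∀ (t : T) (x : M), ι (cj t x) = ρ t (ι x) := by
    intro t x
    change j (i1 (Additive.ofMul (cj t x))) = ρ t (j (i1 (Additive.ofMul x)))
    rw [← hact, he1, hej]
  -- the subgroup killed by all products of `r` operators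
  let P : ℕ → Subgroup T := fun r =>
    { carrier := {x | ∃ h : x ∈ M, ∀ L : List T, L.length = r → (∀ y ∈ L, y ∈ ⁅T0, T0⁆) →
        (L.map fun y => ρ y - 1).prod (ι ⟨x, h⟩) = 0}
      mul_mem' := by
        rintro x y ⟨hx, hx'⟩ ⟨hy, hy'⟩
        refine ⟨M.mul_mem hx hy, ?_⟩
        intro L hL hD
        have h1 : (⟨x * y, M.mul_mem hx hy⟩ : M) = ⟨x, hx⟩ * ⟨y, hy⟩ := rfl
        rw [h1, hιm, map_add, hx' L hL hD, hy' L hL hD, add_zero]
      one_mem' := by
        refine ⟨M.one_mem, ?_⟩
        intro L hL hD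
        have h1 : (⟨1, M.one_mem⟩ : M) = 1 := rfl
        rw [h1, hι1, map_zero]
      inv_mem' := by
        rintro x ⟨hx, hx'⟩
        refine ⟨M.inv_mem hx, ?_⟩
        intro L hL hD
        have h1 : (⟨x⁻¹, M.inv_mem hx⟩ : M) = ⟨x, hx⟩⁻¹ := rfl
        rw [h1, hιi, map_neg, hx' L hL hD, neg_zero] }
  have hP : ∀ i, i ≤ d → MalK M ⁅T0, T0⁆ i ≤ P (d - i) := by
    intro i
    induction i with
    | zero =>
      intro _ x hx
      refine ⟨hx, ?_⟩
      intro L hL hD
      rw [hfl' L (by simpa using hL) hD]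
      rfl
    | succ i ih =>
      intro hi
      have hi' := ih (by omega)
      change ⁅MalK M ⁅T0, T0⁆ i, ⁅T0, T0⁆⁆ ≤ P (d - (i + 1))
      rw [Subgroup.commutator_le]
      intro k hk x hx
      obtain ⟨hkM, hk'⟩ := hi' hk
      have hxk : x * k⁻¹ * x⁻¹ ∈ M := ‹M.Normal›.conj_mem _ (M.inv_mem hkM) x
      have hcm : ⁅k, x⁆ ∈ M := by
        rw [commutatorElement_def]
        have : k * x * k⁻¹ * x⁻¹ = k * (x * k⁻¹ * x⁻¹) := by group
        rw [this]
        exact M.mul_mem hkM hxk
      refine ⟨hcm, ?_⟩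
      intro L hL hD
      have h1 : (⟨⁅k, x⁆, hcm⟩ : M) = ⟨k, hkM⟩ * cj x ⟨k, hkM⟩⁻¹ := by
        apply Subtype.ext
        rw [Subgroup.coe_mul, hcj]
        change k * x * k⁻¹ * x⁻¹ = k * (x * k⁻¹ * x⁻¹)
        group
      have h2 : ι ⟨⁅k, x⁆, hcm⟩ = - ((ρ x - 1) (ι ⟨k, hkM⟩)) := by
        rw [h1, hιm, hιc, hιi, map_neg]
        rw [LinearMap.sub_apply]
        change _ = - (ρ x (ι ⟨k, hkM⟩) - ι ⟨k, hkM⟩)
        abel
      rw [h2, map_neg, neg_eq_zero]
      have h3 := hk' (L ++ [x]) (by
        rw [List.length_append, hL]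
        simp
        omega) (by
        intro y hy
        rcases List.mem_append.mp hy with h | h
        · exact hD y h
        · rw [List.mem_singleton] at h
          rw [h]
          exact hx)
      rw [List.map_append, List.prod_append] at h3
      simpa using h3
  refine ⟨T0, hT0, d, ?_⟩
  rw [eq_bot_iff]
  intro x hx
  obtain ⟨h1, h2⟩ := hP d le_rfl hx
  have h3 := h2 [] (by simp) (by simp)
  have h4 : ι ⟨x, h1⟩ = 0 := by simpa using h3
  have h5 := hι0 _ h4
  have h6 := congrArg (fun z : M => (z : T)) h5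
  rw [Subgroup.mem_bot]
  exact h6

end H84.PG
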