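import Pool.Agent.H84.PG.MalC
import Pool.Agent.H36.PP.APB

/-!
# Module MalMain: an almost soluble group all of whose subgroups of finite index are irreducible acts by scalars up to finite index (IV.1)

Let `T1` be a soluble subgroup of finite index.  Claim (descending induction on `i`): there is a
subgroup `T2 ≤ T1` of finite index in `T` such that all elements of its `i`-th derived subgroup
act by scalars.  True for `i` = derived length of `T1`.  Step from `i + 1` to `i`: apply `mal_c` to the
group `T2` (as a type; restrict `ρ`; `IrrF` passes to subgroups of finite index), with `BB` = its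
`i`-th derived subgroup: the commutators of elements of `BB` act by scalars.  `T4` commutes with
`BB`; the `i`-th derived subgroup of `T4` is contained in `BB` and commutes with `T4`, which has finite
index: scalars by `mal_schur`.  For `i = 0`: `T2` acts by scalars.
-/

set_option autoImplicit false

namespace H84.PG

open H36.PP Subgroup

/-- the derived series of a subgroup, inside the group -/
def MalMain_D {T : Type*} [Group T] (K : Subgroup T) : ℕ → Subgroup T
  | 0 => K
  | n + 1 => ⁅MalMain_D K n, MalMain_D K n⁆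

theorem MalMain_D_mono {T : Type*} [Group T] {K L : Subgroup T} (h : K ≤ L) (i : ℕ) :
    MalMain_D K i ≤ MalMain_D L i := by
  induction i with
  | zero => exact h
  | succ i ih => exact Subgroup.commutator_mono ih ih

theorem MalMain_D_map {T : Type*} [Group T] (K : Subgroup T) (i : ℕ) :
    (derivedSeries K i).map K.subtype = MalMain_D K i := by
  induction i with
  | zero =>
    rw [derivedSeries_zero, ← MonoidHom.range_eq_map, Subgroup.range_subtype]
    rfl
  | succ i ih =>
    rw [derivedSeries_succ, Subgroup.map_commutator, ih]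
    rfl

theorem MalMain_map_fi {T : Type*} [Group T] (K : Subgroup T) (hK : K.FiniteIndex)
    (L : Subgroup K) (hL : L.FiniteIndex) : (L.map K.subtype).FiniteIndex := by
  rw [finiteIndex_iff] at hK hL ⊢
  have h1 : L.map K.subtype ≤ K := Subgroup.map_subtype_le L
  have h2 := relIndex_mul_index h1
  have h3 : (L.map K.subtype).relIndex K = L.index := by
    unfold Subgroup.relIndex Subgroup.subgroupOf
    rw [Subgroup.comap_map_eq_self_of_injective K.subtype_injective]
  rw [h3] at h2
  rw [← h2]
  exact Nat.mul_ne_zero hL hK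

theorem MalMain_irr {T V : Type*} [Group T] [AddCommGroup V] [Module ℂ V]
    (ρ : T →* (V →ₗ[ℂ] V)) (hirr : IrrF ρ) (K : Subgroup T) (hK : K.FiniteIndex) :
    IrrF (ρ.comp K.subtype) := by
  intro T' hT' U hU
  refine hirr (T'.map K.subtype) (MalMain_map_fi K hK T' hT') U ?_
  rintro t ⟨s, hs, rfl⟩ u hu
  exact hU s hs u hu

theorem MalMain_step {T V : Type*} [Group T] [AddCommGroup V] [Module ℂ V]
    [FiniteDimensional ℂ V] (hT : AP T) (ρ : T →* (V →ₗ[ℂ] V)) (hirr : IrrF ρ) (i : ℕ)
    (h : ∃ T2 : Subgroup T, T2.FiniteIndex ∧ ∀ t ∈ MalMain_D T2 (i + 1), IsSc (ρ t)) :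
    ∃ T2 : Subgroup T, T2.FiniteIndex ∧ ∀ t ∈ MalMain_D T2 i, IsSc (ρ t) := by
  obtain ⟨T2, h1, h2⟩ := h
  obtain ⟨T4, h3, h4⟩ := mal_c (T := T2) (hT.1.subgroup T2) (ρ.comp T2.subtype)
    (MalMain_irr ρ hirr T2 h1) (derivedSeries T2 i) (by
      intro x hx y hy
      have h5 : x * y * x⁻¹ * y⁻¹ ∈ derivedSeries T2 (i + 1) := by
        rw [derivedSeries_succ, ← commutatorElement_def]
        exact commutator_mem_commutator hx hy
      refine h2 _ ?_
      rw [← MalMain_D_map]
      exact mem_map_of_mem _ h5)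
  refine ⟨T4.map T2.subtype, MalMain_map_fi T2 h1 T4 h3, ?_⟩
  intro t ht
  refine mal_schur ρ hirr (T4.map T2.subtype) (MalMain_map_fi T2 h1 T4 h3) (ρ t) ?_
  rintro _ ⟨s, hs, rfl⟩
  have h6 : t ∈ MalMain_D T2 i := MalMain_D_mono (Subgroup.map_subtype_le T4) i ht
  rw [← MalMain_D_map] at h6
  obtain ⟨b, hb, rfl⟩ := h6
  exact (h4 s hs b hb).symm

theorem mal_main {T V : Type*} [Group T] [AddCommGroup V] [Module ℂ V]
    [FiniteDimensional ℂ V] (hT : AP T) (ρ : T →* (V →ₗ[ℂ] V)) (hirr : IrrF ρ) :
    ∃ T0 : Subgroup T, T0.FiniteIndex ∧ ∀ t ∈ T0, IsSc (ρ t) := by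
  have key : ∀ i : ℕ, (∃ T2 : Subgroup T, T2.FiniteIndex ∧ ∀ t ∈ MalMain_D T2 i, IsSc (ρ t)) →
      ∃ T0 : Subgroup T, T0.FiniteIndex ∧ ∀ t ∈ T0, IsSc (ρ t) := by
    intro i
    induction i with
    | zero => intro h; exact h
    | succ i ih => intro h; exact ih (MalMain_step hT ρ hirr i h)
  obtain ⟨S, hS1, hS2⟩ := hT.2
  obtain ⟨n, hn⟩ := hS2.solvable
  refine key n ⟨S, hS1, ?_⟩
  intro t ht
  rw [← MalMain_D_map, hn, Subgroup.map_bot, mem_bot] at ht
  rw [ht, map_one]
  exact ⟨1, (one_smul _ _).symm⟩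

end H84.PG
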