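import Pool.Agent.H84.PG.MalInt
import Pool.Agent.H36.PP.RFin
import Pool.Agent.H36.PP.Ht

/-!
# Module MalNil: the commutator subgroup of a subgroup of finite index is nilpotent (IV.3)

Induction on `ht T`.  If `T` is finite take `T0 = ⊥` (finite index).  Otherwise let `M` be as in
`exists_char_free_abelian`; `ht (T ⧸ M) < ht T` (`ht_lt_of_surjective`).  By induction there is
`T1 ≥ M` of finite index in `T` such that the image of `⁅T1, T1⁆` in `T ⧸ M` is nilpotent; take `T0` from
`mal_int` and `T2 = T1 ⊓ T0`, `D = ⁅T2, T2⁆`.  The lower central series of `D` (inside `T`) is eventually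
contained in `M` (`D M / M` is nilpotent), and from then on it is contained in `MalK M ⁅T0, T0⁆ i`, so it
reaches `⊥`.  (`Group.IsNilpotent`, lower central series of a subgroup: `Subgroup.lowerCentralSeries`
or `nilpotent_iff_lowerCentralSeries`.)
-/

set_option autoImplicit false

namespace H84.PG

universe u

open H36.PP Subgroup

theorem MalNil_step {T : Type u} [Group T] (hT : AP T) (hi : Infinite T)
    (ih : ∀ (T' : Type u) [Group T'] (_ : AP T'), ht T' < ht T →
      ∃ T0 : Subgroup T', T0.FiniteIndex ∧ Group.IsNilpotent (⁅T0, T0⁆ : Subgroup T')) :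
    ∃ T0 : Subgroup T, T0.FiniteIndex ∧ Group.IsNilpotent (⁅T0, T0⁆ : Subgroup T) := by
  obtain ⟨M, hMc, hMab, hMtf, hMinf⟩ := exists_char_free_abelian hT hi
  have hMN : M.Normal := inferInstance
  have hlt : ht (T ⧸ M) < ht T := by
    refine ht_lt_of_surjective hT (QuotientGroup.mk' M) (QuotientGroup.mk'_surjective M) ?_
    rw [QuotientGroup.ker_mk']
    exact hMinf
  obtain ⟨T1', hT1', hnil⟩ := ih (T ⧸ M) (AP.quotient hT M) hlt
  obtain ⟨T0, hT0, k, hk⟩ := mal_int hT M hMab hMtf
  obtain ⟨c, hc⟩ := (isNilpotent_iff_lowerCentralSeries _).mp hnil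
  set π := QuotientGroup.mk' M with hπ
  have hT1 : (T1'.comap π).FiniteIndex := APB_finiteIndex_comap π T1' hT1'
  refine ⟨T1'.comap π ⊓ T0, inferInstance, ?_⟩
  set T2 := T1'.comap π ⊓ T0 with hT2
  rw [isNilpotent_iff_lowerCentralSeries]
  have hDM : (⁅T2, T2⁆ : Subgroup T).lowerCentralSeries c ≤ M := by
    have h1 : ((⁅T2, T2⁆ : Subgroup T).map π) ≤ ⁅T1', T1'⁆ := by
      rw [map_commutator]
      have h2 : T2.map π ≤ T1' := by
        rw [map_le_iff_le_comap]
        exact inf_le_left
      exact commutator_mono h2 h2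
    have h3 : ((⁅T2, T2⁆ : Subgroup T).lowerCentralSeries c).map π ≤ ⊥ := by
      rw [map_lowerCentralSeries, ← hc]
      exact lowerCentralSeries_mono c h1
    rw [map_le_iff_le_comap, MonoidHom.comap_bot, QuotientGroup.ker_mk'] at h3
    exact h3
  have hstep : ∀ i, (⁅T2, T2⁆ : Subgroup T).lowerCentralSeries (c + i) ≤ MalK M ⁅T0, T0⁆ i := by
    intro i
    induction i with
    | zero => exact hDM
    | succ i ihi =>
      rw [← Nat.add_assoc, Subgroup.lowerCentralSeries_succ]
      exact commutator_mono ihi (commutator_mono inf_le_right inf_le_right)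
  exact ⟨c + k, le_bot_iff.mp (hk ▸ hstep k)⟩

theorem MalNil_fin {T : Type u} [Group T] [Finite T] :
    ∃ T0 : Subgroup T, T0.FiniteIndex ∧ Group.IsNilpotent (⁅T0, T0⁆ : Subgroup T) := by
  refine ⟨⊥, inferInstance, ?_⟩
  rw [isNilpotent_iff_lowerCentralSeries]
  refine ⟨0, ?_⟩
  rw [Subgroup.lowerCentralSeries_zero]
  exact commutator_bot_left ⊥

theorem mal_nil (n : ℕ) : ∀ (T : Type u) [Group T] (_ : AP T), ht T ≤ n →
    ∃ T0 : Subgroup T, T0.FiniteIndex ∧ Group.IsNilpotent (⁅T0, T0⁆ : Subgroup T) := by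
  induction n with
  | zero =>
    intro T _ hT hn
    rcases finite_or_infinite T with hf | hi
    · exact MalNil_fin
    · exact MalNil_step hT hi fun T' _ _ h => absurd h (by omega)
  | succ n ih =>
    intro T _ hT hn
    rcases finite_or_infinite T with hf | hi
    · exact MalNil_fin
    · exact MalNil_step hT hi fun T' _ hT' h => ih T' hT' (by omega)

end H84.PG
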