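import Pool.Agent.H84.PG.MalDefs

/-!
# Module MalSc: normal subgroups with commuting image act by scalars (IV.1)

If `V = 0` trivial.  By `mal_comm` there is a common eigenvector of `Z`; its weight is a function
`w : Z → ℂ`; `V_w = {v | ρ z v = w z • v}`.  `T` permutes the nonzero weight spaces
(`ρ t V_w = V_{w^t}`, `Z` normal), which are independent (common eigenspaces for different
weights: `Module.End.independent_eigenspace` or direct argument), so there are finitely many
of them (`finrank V`), and the stabiliser `T'` of `V_w` has finite index in `T`.  `V_w` is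
invariant under `T'`, nonzero, so `V_w = V` by `IrrF`.
-/

set_option autoImplicit false

namespace H84.PG

open H36.PP Subgroup

/-- conjugation action on the functions on a normal subgroup -/
@[reducible] private def MalSc_act {T : Type*} [Group T] (Z : Subgroup T) [Z.Normal] : MulAction T (Z → ℂ) where
  smul t χ := fun z => χ ⟨t⁻¹ * z * t, by
    have h := (inferInstance : Z.Normal).conj_mem z.1 z.2 t⁻¹
    rwa [inv_inv] at h⟩
  one_smul χ := by
    funext z
    show χ _ = χ z
    congr 1
    apply Subtype.ext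
    simp
  mul_smul s t χ := by
    funext z
    show χ _ = χ _
    congr 1
    apply Subtype.ext
    show (s * t)⁻¹ * (z : T) * (s * t) = t⁻¹ * (s⁻¹ * (z : T) * s) * t
    group

theorem mal_sc {T V : Type*} [Group T] [AddCommGroup V] [Module ℂ V]
    [FiniteDimensional ℂ V] (ρ : T →* (V →ₗ[ℂ] V)) (hirr : IrrF ρ) (Z : Subgroup T) [Z.Normal]
    (hZ : ∀ x ∈ Z, ∀ y ∈ Z, ρ x * ρ y = ρ y * ρ x) : ∀ z ∈ Z, IsSc (ρ z) := by
  classical
  intro z0 hz0
  rcases subsingleton_or_nontrivial V with hV | hV
  · refine ⟨1, ?_⟩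
    ext v
    exact Subsingleton.elim _ _
  obtain ⟨v, hv0, hv⟩ := mal_comm ρ Z hZ
  have hv' : ∀ z : Z, ∃ c : ℂ, ρ z v = c • v := fun z => hv z z.2
  choose w hw using hv'
  let _ := MalSc_act Z
  have hsm : ∀ (t : T) (χ : Z → ℂ) (z : Z) (h : t⁻¹ * (z : T) * t ∈ Z),
      (t • χ) z = χ ⟨t⁻¹ * z * t, h⟩ := fun t χ z h => rfl
  have hmem : ∀ (t : T) (z : Z), t⁻¹ * (z : T) * t ∈ Z := by
    intro t z
    have h := (inferInstance : Z.Normal).conj_mem z.1 z.2 t⁻¹
    rwa [inv_inv] at h
  -- moving vectors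
  have hmove : ∀ (t : T) (χ : Z → ℂ) (u : V), (∀ z : Z, ρ z u = χ z • u) →
      ∀ z : Z, ρ z (ρ t u) = (t • χ) z • ρ t u := by
    intro t χ u hu z
    have h1 : ρ z (ρ t u) = ρ t (ρ (t⁻¹ * z * t) u) := by
      rw [← Module.End.mul_apply, ← Module.End.mul_apply, ← map_mul, ← map_mul]
      congr 2
      group
    have h2 := hu ⟨t⁻¹ * z * t, hmem t z⟩
    simp only at h2
    rw [h1, h2, map_smul, hsm t χ z (hmem t z)]
  -- finitely many weights
  have hfin : {χ : Z → ℂ | (⨅ z : Z, Module.End.maxGenEigenspace (ρ z) (χ z)) ≠ ⊥}.Finite := by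
    refine WellFoundedGT.finite_ne_bot_of_iSupIndep
      (Module.End.independent_iInf_maxGenEigenspace_of_forall_mapsTo
        (fun z : Z => (ρ z : Module.End ℂ V)) ?_)
    intro i j φ
    exact Module.End.mapsTo_maxGenEigenspace_of_comm (hZ j j.2 i i.2) φ
  have hgen : ∀ (χ : Z → ℂ) (u : V), u ≠ 0 → (∀ z : Z, ρ z u = χ z • u) →
      (⨅ z : Z, Module.End.maxGenEigenspace (ρ z) (χ z)) ≠ ⊥ := by
    intro χ u hu0 hu hbot
    have h1 : u ∈ (⨅ z : Z, Module.End.maxGenEigenspace (ρ z) (χ z)) := by
      rw [Submodule.mem_iInf]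
      intro z
      rw [Module.End.mem_maxGenEigenspace]
      refine ⟨1, ?_⟩
      rw [pow_one, LinearMap.sub_apply, LinearMap.smul_apply, Module.End.one_apply, hu z,
        sub_self]
    rw [hbot, Submodule.mem_bot] at h1
    exact hu0 h1
  have horb : (MulAction.orbit T w).Finite := by
    refine hfin.subset ?_
    rintro χ ⟨t, rfl⟩
    refine hgen _ (ρ t v) ?_ (hmove t w v hw)
    intro h0
    apply hv0
    have h1 : ρ t⁻¹ (ρ t v) = v := by
      rw [← Module.End.mul_apply, ← map_mul, inv_mul_cancel, map_one, Module.End.one_apply]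
    rw [← h1, h0, map_zero]
  have hst : (MulAction.stabilizer T w).FiniteIndex := by
    have : Finite (MulAction.orbit T w) := horb
    have : Finite (T ⧸ MulAction.stabilizer T w) :=
      Finite.of_equiv _ (MulAction.orbitEquivQuotientStabilizer T w)
    exact Subgroup.finiteIndex_of_finite_quotient
  -- the weight space
  let U : Submodule ℂ V :=
    { carrier := {u | ∀ z : Z, ρ z u = w z • u}
      zero_mem' := fun z => by rw [map_zero, smul_zero]
      add_mem' := fun {a b} ha hb z => by rw [map_add, ha z, hb z, smul_add]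
      smul_mem' := fun c a ha z => by rw [map_smul, ha z, smul_comm] }
  have hU : U = ⊥ ∨ U = ⊤ := by
    refine hirr _ hst U ?_
    intro t ht u hu z
    have h1 := hmove t w u hu z
    rw [MulAction.mem_stabilizer_iff.1 ht] at h1
    exact h1
  have hvU : v ∈ U := hw
  rcases hU with hU | hU
  · rw [hU, Submodule.mem_bot] at hvU
    exact absurd hvU hv0
  · refine ⟨w ⟨z0, hz0⟩, ?_⟩
    ext u
    have h1 : u ∈ U := by
      rw [hU]
      exact Submodule.mem_top
    exact h1 ⟨z0, hz0⟩

end H84.PG
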