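import Pool.Agent.H84.PG.MZB

/-!
# Module MeanEx: an invariant mean on `ℤ ^ k`

`box n = Fintype.piFinset fun _ => Finset.Icc (-n) n` has `(2 n + 1) ^ k` elements.  `L f` is the
limit along the ultrafilter `UU` (or `Filter.hyperfilter ℕ`; see `UU_lim` in `MZB` for the
existence of limits of bounded sequences; for unbounded `f` put `L f = 0`, or use `limUnder`) of
`(2 n + 1) ^ (-k) * ∑_{x ∈ box n} f x`.  Invariance: if `|y i| ≤ m` for all `i`, then `box n` and
`box n + y` are both contained in `box (n + m)`, so for `|f| ≤ C`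
`|∑_{box n + y} f - ∑_{box n} f| ≤ 2 C ((2 n + 2 m + 1) ^ k - (2 n + 1) ^ k)`, and
`((2 n + 2 m + 1) / (2 n + 1)) ^ k → 1`.
-/

set_option autoImplicit false

namespace H84.PG

open Filter Topology

/-- the box -/
private noncomputable def MeanEx_box (k n : ℕ) : Finset (Fin k → ℤ) :=
  Fintype.piFinset fun _ => Finset.Icc (-(n : ℤ)) n

private theorem MeanEx_card (k n : ℕ) : (MeanEx_box k n).card = (2 * n + 1) ^ k := by
  rw [MeanEx_box, Fintype.card_piFinset_const, Int.card_Icc]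
  congr 1
  · omega

/-- the average over the box -/
private noncomputable def MeanEx_avg (k n : ℕ) (f : (Fin k → ℤ) → ℝ) : ℝ :=
  (∑ x ∈ MeanEx_box k n, f x) / ((2 * n + 1 : ℕ) : ℝ) ^ k

private theorem MeanEx_den_pos (k n : ℕ) : (0 : ℝ) < ((2 * n + 1 : ℕ) : ℝ) ^ k := by
  positivity

private theorem MeanEx_bound (k n : ℕ) {f : (Fin k → ℤ) → ℝ} {C : ℝ} (hC : ∀ x, |f x| ≤ C) :
    |MeanEx_avg k n f| ≤ C := by
  rw [MeanEx_avg, abs_div, abs_of_pos (MeanEx_den_pos k n), div_le_iff₀ (MeanEx_den_pos k n)]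
  refine (Finset.abs_sum_le_sum_abs _ _).trans ?_
  refine (Finset.sum_le_sum fun x _ => hC x).trans ?_
  rw [Finset.sum_const, MeanEx_card, nsmul_eq_mul, mul_comm]
  push_cast
  exact le_rfl

/-- the limit of the averages -/
private noncomputable def MeanEx_L (k : ℕ) (f : (Fin k → ℤ) → ℝ) : ℝ :=
  limUnder UU (fun n => MeanEx_avg k n f)

private theorem MeanEx_tendsto (k : ℕ) {f : (Fin k → ℤ) → ℝ} (hf : Bdd f) :
    Tendsto (fun n => MeanEx_avg k n f) UU (𝓝 (MeanEx_L k f)) := by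
  obtain ⟨C, hC⟩ := hf
  exact tendsto_nhds_limUnder (UU_lim (C := C) (Eventually.of_forall fun n => MeanEx_bound k n hC))

private theorem MeanEx_eq (k : ℕ) {f : (Fin k → ℤ) → ℝ} {l : ℝ}
    (h : Tendsto (fun n => MeanEx_avg k n f) UU (𝓝 l)) : MeanEx_L k f = l := h.limUnder_eq

private theorem MeanEx_trans_bound (k m n : ℕ) (y : Fin k → ℤ) (hy : ∀ i, |y i| ≤ m)
    {f : (Fin k → ℤ) → ℝ} {C : ℝ} (hC : ∀ x, |f x| ≤ C) :
    |MeanEx_avg k n (fun x => f (x + y)) - MeanEx_avg k n f| ≤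
      2 * C * ((((2 * (n + m) + 1 : ℕ) : ℝ) / ((2 * n + 1 : ℕ) : ℝ)) ^ k - 1) := by
  classical
  have hC0 : 0 ≤ C := (abs_nonneg _).trans (hC 0)
  have h1 : ∑ x ∈ MeanEx_box k n, f (x + y) =
      ∑ x ∈ (MeanEx_box k n).map (addRightEmbedding y), f x := by
    rw [Finset.sum_map]
    rfl
  have hsub1 : MeanEx_box k n ⊆ MeanEx_box k (n + m) := by
    intro x hx
    rw [MeanEx_box, Fintype.mem_piFinset] at hx ⊢
    intro i
    have := hx i
    rw [Finset.mem_Icc] at this ⊢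
    push_cast
    omega
  have hsub2 : (MeanEx_box k n).map (addRightEmbedding y) ⊆ MeanEx_box k (n + m) := by
    intro x hx
    rw [Finset.mem_map] at hx
    obtain ⟨z, hz, rfl⟩ := hx
    rw [MeanEx_box, Fintype.mem_piFinset] at hz ⊢
    intro i
    have h2 := hz i
    have h3 := abs_le.mp (hy i)
    rw [Finset.mem_Icc] at h2 ⊢
    simp only [addRightEmbedding_apply, Pi.add_apply]
    push_cast
    omega
  have key : ∀ S : Finset (Fin k → ℤ), S ⊆ MeanEx_box k (n + m) →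
      S.card = (MeanEx_box k n).card →
      |∑ x ∈ MeanEx_box k (n + m), f x - ∑ x ∈ S, f x| ≤
        C * (((2 * (n + m) + 1 : ℕ) : ℝ) ^ k - ((2 * n + 1 : ℕ) : ℝ) ^ k) := by
    intro S hS hcard
    rw [← Finset.sum_sdiff hS, add_sub_cancel_right]
    refine (Finset.abs_sum_le_sum_abs _ _).trans ?_
    refine (Finset.sum_le_sum fun x _ => hC x).trans ?_
    rw [Finset.sum_const, nsmul_eq_mul, mul_comm]
    have h2 : (((MeanEx_box k (n + m)) \ S).card : ℝ) =
        ((2 * (n + m) + 1 : ℕ) : ℝ) ^ k - ((2 * n + 1 : ℕ) : ℝ) ^ k := by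
      have h3 := Finset.card_sdiff_add_card_eq_card hS
      rw [hcard, MeanEx_card, MeanEx_card] at h3
      have h4 : ((((MeanEx_box k (n + m)) \ S).card + (2 * n + 1) ^ k : ℕ) : ℝ) =
          (((2 * (n + m) + 1) ^ k : ℕ) : ℝ) := by exact_mod_cast h3
      push_cast at h4 ⊢
      linarith
    rw [h2]
  have k1 := key _ hsub1 rfl
  have k2 := key _ hsub2 (Finset.card_map _)
  rw [← h1] at k2
  have h5 : |∑ x ∈ MeanEx_box k n, f (x + y) - ∑ x ∈ MeanEx_box k n, f x| ≤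
      2 * C * (((2 * (n + m) + 1 : ℕ) : ℝ) ^ k - ((2 * n + 1 : ℕ) : ℝ) ^ k) := by
    have h6 := abs_sub_le (∑ x ∈ MeanEx_box k n, f (x + y))
      (∑ x ∈ MeanEx_box k (n + m), f x) (∑ x ∈ MeanEx_box k n, f x)
    rw [abs_sub_comm] at k2
    linarith
  rw [MeanEx_avg, MeanEx_avg, ← sub_div, abs_div, abs_of_pos (MeanEx_den_pos k n),
    div_le_iff₀ (MeanEx_den_pos k n)]
  refine h5.trans (le_of_eq ?_)
  rw [div_pow]
  have h7 := (MeanEx_den_pos k n).ne'
  field_simp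

private theorem MeanEx_ratio (k m : ℕ) :
    Tendsto (fun n : ℕ => (((2 * (n + m) + 1 : ℕ) : ℝ) / ((2 * n + 1 : ℕ) : ℝ)) ^ k - 1)
      atTop (𝓝 0) := by
  have h1 : Tendsto (fun n : ℕ => (2 * m : ℝ) / ((2 * n + 1 : ℕ) : ℝ)) atTop (𝓝 0) := by
    refine tendsto_const_nhds.div_atTop ?_
    refine tendsto_natCast_atTop_atTop.comp ?_
    exact tendsto_atTop_mono (fun n => show n ≤ 2 * n + 1 by omega) tendsto_id
  have h2 : Tendsto (fun n : ℕ => (1 + (2 * m : ℝ) / ((2 * n + 1 : ℕ) : ℝ)) ^ k - 1) atTop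
      (𝓝 ((1 + 0) ^ k - 1)) :=
    ((tendsto_const_nhds.add h1).pow k).sub tendsto_const_nhds
  rw [add_zero, one_pow, sub_self] at h2
  refine h2.congr fun n => ?_
  congr 2
  have h3 : ((2 * n + 1 : ℕ) : ℝ) ≠ 0 := by positivity
  field_simp
  push_cast
  ring

theorem mean_exists (k : ℕ) : Nonempty (Mean (Fin k → ℤ)) := by
  refine ⟨⟨MeanEx_L k, ?_, ?_, ?_, ?_, ?_⟩⟩
  · intro f g hf hg
    refine MeanEx_eq k (((MeanEx_tendsto k hf).add (MeanEx_tendsto k hg)).congr fun n => ?_)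
    rw [MeanEx_avg, MeanEx_avg, MeanEx_avg, Finset.sum_add_distrib, add_div]
  · intro c f hf
    refine MeanEx_eq k (((MeanEx_tendsto k hf).const_mul c).congr fun n => ?_)
    rw [MeanEx_avg, MeanEx_avg, ← Finset.mul_sum, mul_div_assoc]
  · intro f g hf hg h
    refine le_of_tendsto_of_tendsto' (MeanEx_tendsto k hf) (MeanEx_tendsto k hg) fun n => ?_
    rw [MeanEx_avg, MeanEx_avg]
    exact div_le_div_of_nonneg_right (Finset.sum_le_sum fun x _ => h x) (MeanEx_den_pos k n).le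
  · refine MeanEx_eq k (tendsto_const_nhds.congr fun n => ?_)
    rw [MeanEx_avg, Finset.sum_const, MeanEx_card, nsmul_eq_mul, mul_one]
    push_cast
    rw [div_self]
    positivity
  · intro f y hf
    obtain ⟨C, hC⟩ := hf
    obtain ⟨m, hm⟩ : ∃ m : ℕ, ∀ i, |y i| ≤ m := by
      refine ⟨∑ i, (y i).natAbs, fun i => ?_⟩
      have h1 : (y i).natAbs ≤ ∑ i, (y i).natAbs :=
        Finset.single_le_sum (f := fun i => (y i).natAbs) (fun _ _ => Nat.zero_le _)
          (Finset.mem_univ i)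
      rw [Int.abs_eq_natAbs]
      exact_mod_cast h1
    refine MeanEx_eq k ?_
    have h1 : Tendsto (fun n => MeanEx_avg k n (fun x => f (x + y)) - MeanEx_avg k n f) UU
        (𝓝 0) := by
      have h2 : Tendsto (fun n : ℕ => 2 * C *
          ((((2 * (n + m) + 1 : ℕ) : ℝ) / ((2 * n + 1 : ℕ) : ℝ)) ^ k - 1)) UU (𝓝 0) := by
        have h3 := ((MeanEx_ratio k m).const_mul (2 * C)).mono_left UU_le
        rwa [mul_zero] at h3
      exact squeeze_zero_norm (fun n => MeanEx_trans_bound k m n y hm hC) h2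
    have h2 := h1.add (MeanEx_tendsto k ⟨C, hC⟩)
    rw [zero_add] at h2
    refine h2.congr fun n => ?_
    ring

end H84.PG
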