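import Pool.Agent.H84.PG.N7g
import Pool.Agent.H84.PG.CdRes
import Pool.Agent.H84.PG.DepUM
import Pool.Agent.H84.PG.DepGood
import Pool.Agent.H84.PG.MinDB

/-!
# Module N7Ex: the normalised family exists for a bad character (IX.4)

`G2 = d.pre Λ` (finite index, `CD.pre_fi`, contains `C`), `A2 = A.subgroupOf G2`, `B2`, `N2` the same,
`j : C →* G2` the inclusion (`C ≤ G2` because `p c = 0 ∈ Λ`), `χ c = d.chi c` on `C` (`IsChar` by
`d.chimul`).  `DepH j A2 B2 χ S`: `g ∈ G2` is `n a` with `n ∈ N`, `a ∈ A` (`A ⊔ N = ⊤`), `n ∈ C`,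
`a = n⁻¹ g ∈ G2`; `nA`: `chi c ≠ 0` for some `c ∈ C`, `c = n a`, `a ∈ A ⊓ C`, `chi a = chi c`.
`D = dep j A2 B2 χ S`; it is not constantly `⊤` (`dep_good`, `hbad`; `Max` of the comaps: subgroups of
almost polycyclic groups).  The structure `N7` extends `d.res Λ`: `S` = image of `S` under `j`, `F` from
the cover of `G2` by double cosets (`MinD.restrict`, field `dc`; `F` as a finite set); `pA`: `x = p g`,
`g = n a`, `p a = p g`; `facA`: `c = n a`; `genS`: `closure S = ⊤` in `C`, map by `j`; `eqv` from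
`dep_eqv` (an element with `p = 0` is in `C`); `bdd` etc. are in `d.res`.
-/

set_option autoImplicit false

namespace H84.PG

open H36.PP Subgroup

private theorem N7Ex_fac {G : Type*} [Group G] {A N : Subgroup G} [N.Normal] (hA : A ⊔ N = ⊤)
    (g : G) : ∃ n ∈ N, ∃ a ∈ A, g = n * a := by
  have h1 : g ∈ ((N ⊔ A : Subgroup G) : Set G) := by
    rw [sup_comm, hA]
    exact mem_top g
  rw [Subgroup.normal_mul] at h1
  obtain ⟨n, hn, a, ha, rfl⟩ := h1
  exact ⟨n, hn, a, ha, rfl⟩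

private theorem N7Ex_max {G H : Type*} [Group G] [Group H] (j : G →* H)
    (hj : Function.Injective j) (A : Subgroup H) (hA : H36.PP.Max A) :
    H36.PP.Max (A.comap j) := by
  refine Max.of_injective
    ((j.comp (A.comap j).subtype).codRestrict A (fun x => x.2)) ?_ hA
  intro x y hxy
  have h1 : j x = j y := congrArg Subtype.val hxy
  exact Subtype.ext (hj h1)

theorem n7_exists {G : Type*} [Group G] {X : Type*} [AddCommGroup X] {A B C N : Subgroup G}
    [C.Normal] [N.Normal] (h : MinD G A B) (hA : A ⊔ N = ⊤) (hB : B ⊔ N = ⊤) (hNC : N ≤ C)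
    (d : CD G X) (hd : ∀ g, d.p g = 0 ↔ g ∈ C) (hdN : ∀ n ∈ N, d.chi n = 0)
    (hne : ∃ c ∈ C, d.chi c ≠ 0) (S : Set C) (hf : S.Finite) (hS : closure S = ⊤)
    (hbad : ¬ Good (fun c : C => d.chi c) S) (Λ : AddSubgroup X) (hΛ : Λ.FiniteIndex) :
    ∃ n : N7 (d.pre Λ) Λ, n.toCD = d.res Λ ∧ MinD (d.pre Λ) n.A n.B := by
  classical
  have hfi := d.pre_fi Λ hΛ
  have hM := h.restrict (d.pre Λ) hfi
  have hC2 : C ≤ d.pre Λ := by
    intro c hc
    show d.p c ∈ Λ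
    rw [(hd c).2 hc]
    exact Λ.zero_mem
  have hN0 : ∀ n ∈ N, d.p n = 0 := fun n hn => (hd n).2 (hNC hn)
  -- factorisations inside `G2`
  have fac2 : ∀ K : Subgroup G, K ⊔ N = ⊤ → ∀ g : d.pre Λ, ∃ n : d.pre Λ, (n : G) ∈ N ∧
      ∃ a ∈ K.subgroupOf (d.pre Λ), g = n * a := by
    intro K hK g
    obtain ⟨n, hn, a, ha, hg⟩ := N7Ex_fac hK (g : G)
    have hn2 : n ∈ d.pre Λ := hC2 (hNC hn)
    have ha2 : a ∈ d.pre Λ := by
      have h1 : a = n⁻¹ * g := by rw [hg]; group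
      rw [h1]
      exact (d.pre Λ).mul_mem ((d.pre Λ).inv_mem hn2) g.2
    exact ⟨⟨n, hn2⟩, hn, ⟨a, ha2⟩, ha, Subtype.ext hg⟩
  have facp : ∀ K : Subgroup G, K ⊔ N = ⊤ → ∀ x : Λ, ∃ a ∈ K.subgroupOf (d.pre Λ),
      (d.res Λ).p a = x := by
    intro K hK x
    obtain ⟨g, hg⟩ := (d.res Λ).psurj x
    obtain ⟨n, hn, a, ha, he⟩ := fac2 K hK g
    refine ⟨a, ha, ?_⟩
    have h1 : (d.res Λ).p n = 0 := Subtype.ext (hN0 n hn)
    rw [← hg, he, (d.res Λ).pmul, h1, zero_add]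
  have facc : ∀ K : Subgroup G, K ⊔ N = ⊤ → ∀ c : d.pre Λ, (d.res Λ).p c = 0 →
      ∃ a ∈ K.subgroupOf (d.pre Λ), ∃ n ∈ N.subgroupOf (d.pre Λ), c = n * a := by
    intro K hK c _
    obtain ⟨n, hn, a, ha, he⟩ := fac2 K hK c
    exact ⟨a, ha, n, hn, he⟩
  have nK : ∀ K : Subgroup G, K ⊔ N = ⊤ → ∃ c : C, inclusion hC2 c ∈ K.subgroupOf (d.pre Λ) ∧
      d.chi c ≠ 0 := by
    intro K hK
    obtain ⟨c, hc, hcne⟩ := hne
    obtain ⟨n, hn, a, ha, hg⟩ := N7Ex_fac hK c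
    have haC : a ∈ C := by
      have h1 : a = n⁻¹ * c := by rw [hg]; group
      rw [h1]
      exact C.mul_mem (C.inv_mem (hNC hn)) hc
    refine ⟨⟨a, haC⟩, ha, ?_⟩
    have h2 : d.chi c = d.chi n + d.chi a := by
      rw [hg]
      exact d.chimul n a (hN0 n hn) ((hd a).2 haC)
    rw [hdN n hn, zero_add] at h2
    rw [← h2]
    exact hcne
  have H : DepH (inclusion hC2) (A.subgroupOf (d.pre Λ)) (B.subgroupOf (d.pre Λ))
      (fun c : C => d.chi c) S := by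
    refine ⟨?_, ?_, ?_, nK A hA, nK B hB, hS⟩
    · intro g g'
      exact d.chimul g g' ((hd _).2 g.2) ((hd _).2 g'.2)
    · intro g
      obtain ⟨n, hn, a, ha, he⟩ := fac2 A hA g
      exact ⟨⟨n, hNC hn⟩, a, ha, he⟩
    · intro g
      obtain ⟨n, hn, a, ha, he⟩ := fac2 B hB g
      exact ⟨⟨n, hNC hn⟩, a, ha, he⟩
  have hmem : ∀ c : d.pre Λ, (d.res Λ).p c = 0 → (c : G) ∈ C := by
    intro c hc
    exact (hd _).1 (congrArg Subtype.val hc)
  obtain ⟨_, _, F, hF, _, hcov⟩ := hM.dc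
  refine ⟨{
    toCD := d.res Λ
    A := A.subgroupOf (d.pre Λ)
    B := B.subgroupOf (d.pre Λ)
    N := N.subgroupOf (d.pre Λ)
    S := (inclusion hC2) '' S
    F := F
    D := dep (inclusion hC2) (A.subgroupOf (d.pre Λ)) (B.subgroupOf (d.pre Λ))
      (fun c : C => d.chi c) S
    Nn := inferInstance
    pA := facp A hA
    pB := facp B hB
    pN := fun n hn => Subtype.ext (hN0 n hn)
    chiN := fun n hn => hdN n hn
    facA := facc A hA
    facB := facc B hB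
    chine := ?_
    Sfin := hf.image _
    pS := ?_
    genS := ?_
    Ffin := hF
    cov := fun g => hcov g (mem_top g)
    um := dep_um H
    eqv := ?_
    ne := ?_ }, rfl, hM⟩
  · obtain ⟨c, hc, hcne⟩ := hne
    exact ⟨⟨c, hC2 hc⟩, Subtype.ext ((hd c).2 hc), hcne⟩
  · rintro _ ⟨s, _, rfl⟩
    exact Subtype.ext ((hd _).2 s.2)
  · intro c hc
    have h1 : (⟨(c : G), hmem c hc⟩ : C) ∈ closure S := by
      rw [hS]
      exact mem_top _
    rw [← MonoidHom.map_closure]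
    exact ⟨⟨(c : G), hmem c hc⟩, h1, rfl⟩
  · intro c hc x y
    exact dep_eqv H ⟨(c : G), hmem c hc⟩ x y
  · by_contra hcon
    push Not at hcon
    refine hbad (dep_good H ?_ ?_ hcon)
    · exact N7Ex_max _ (inclusion_injective hC2) _ hM.apA.1
    · exact N7Ex_max _ (inclusion_injective hC2) _ hM.apB.1

end H84.PG
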