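import Pool.Agent.H84.PG.CDB

/-!
# Module N7a: the function `h` (VII.1)

* `hE g ≠ ⊥`: a minimum of finitely many values `≠ ⊥` (`d.um.bot`, `d.Sfin`).
* `hE g ≠ ⊤`: suppose `hE g = ⊤`, so `D (g, false) (g, true) = ⊤` and `D (g, false) (g s, false) = ⊤`
  for `s ∈ S`.  For `c'` in the kernel `g c' = (g c' g⁻¹) g` with `g c' g⁻¹` in the kernel, so by `eqv`
  `D (g c', false) (g c', true) = ⊤` and `D (g c', false) (g c' s, false) = ⊤`.  By `genS` and
  `d.um.tri` (`closure_induction`) `D (g, false) (g c', false) = ⊤` for all `c'` in the kernel, hence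
  also `D (g, false) (g c', true) = ⊤`.  Every element of `G` is `g c' a` with `a ∈ A` (`pA`:
  `a ∈ A` with `p a = p (g⁻¹ x)`, `c' = g⁻¹ x a⁻¹`) and `g c'' b` with `b ∈ B` (`pB`), so by
  `d.um.comp` all lines have depth `⊤` to the line `(g, false)`, hence to each other:
  contradiction to `d.ne`.
* `h_mul`: `eqv` for both kinds of edges (`c * (g * s) = (c * g) * s`).
* `h_le_link`, `h_le_S`, `h_attained`: definition of the minimum (finite infimum is attained:
  `Set.Finite`, `exists` of a minimum; if `S` is empty the infimum is `⊤`).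
-/

set_option autoImplicit false

namespace H84.PG

open H36.PP Subgroup

variable {G X : Type*} [Group G] [AddCommGroup X]

private lemma N7a.inf_att {ι : Type*} {S : Set ι} (hS : S.Finite) (f : ι → EReal) :
    (⨅ s ∈ S, f s) = ⊤ ∨ ∃ s ∈ S, f s = ⨅ s ∈ S, f s := by
  induction S, hS using Set.Finite.induction_on with
  | empty => left; simp
  | @insert a S ha hS ih =>
    rw [iInf_insert]
    rcases min_choice (f a) (⨅ x ∈ S, f x) with h | h
    · right
      exact ⟨a, Set.mem_insert _ _, h.symm⟩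
    · rcases ih with h2 | ⟨s, hs, h2⟩
      · left
        have h3 : f a ⊓ (⨅ x ∈ S, f x) = ⨅ x ∈ S, f x := h
        rw [h3, h2]
      · right
        refine ⟨s, Set.mem_insert_of_mem _ hs, ?_⟩
        rw [h2]
        exact h.symm

theorem N7.hE_bot (d : N7 G X) (g : G) : d.hE g ≠ ⊥ := by
  unfold N7.hE
  rcases min_choice (d.D (g, false) (g, true)) (⨅ s ∈ d.S, d.D (g, false) (g * s, false))
    with h | h
  · rw [h]
    exact d.um.bot _ _
  · rw [h]
    rcases N7a.inf_att d.Sfin (fun s => d.D (g, false) (g * s, false)) with h2 | ⟨s, _, h2⟩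
    · rw [h2]
      exact top_ne_bot
    · rw [← h2]
      exact d.um.bot _ _

private lemma N7a.eqv_top (d : N7 G X) {c : G} (hc : d.p c = 0) {x y : G × Bool}
    (h : d.D x y = ⊤) : d.D (ltr c x) (ltr c y) = ⊤ := by
  rw [d.eqv c hc, h]
  exact EReal.coe_add_top _

private lemma N7a.tri_top (d : N7 G X) {x y z : G × Bool}
    (h : d.D x y = ⊤) (h' : d.D y z = ⊤) : d.D x z = ⊤ := by
  have := d.um.tri x y z
  rw [h, h', min_self] at this
  exact top_le_iff.1 this

theorem N7.hE_top (d : N7 G X) (g : G) : d.hE g ≠ ⊤ := by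
  intro htop
  unfold N7.hE at htop
  have hlink : d.D (g, false) (g, true) = ⊤ := (min_eq_top.1 htop).1
  have hS : ∀ s ∈ d.S, d.D (g, false) (g * s, false) = ⊤ := by
    intro s hs
    have h2 := (min_eq_top.1 htop).2
    exact top_le_iff.1 (h2 ▸ iInf₂_le s hs)
  -- the kernel
  have hker : ∀ c, d.p c = 0 → d.D (g, false) (g * c, false) = ⊤ := by
    intro c hc
    have hmain : d.p c = 0 ∧ d.D (g, false) (g * c, false) = ⊤ := by
      refine Subgroup.closure_induction (p := fun c _ => d.p c = 0 ∧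
        d.D (g, false) (g * c, false) = ⊤) ?_ ?_ ?_ ?_ (d.genS c hc)
      · intro s hs
        exact ⟨d.pS s hs, hS s hs⟩
      · refine ⟨d.p_one, ?_⟩
        rw [mul_one]
        exact d.um.refl _
      · rintro x y _ _ ⟨hx, hx2⟩ ⟨hy, hy2⟩
        refine ⟨by rw [d.pmul, hx, hy, add_zero], ?_⟩
        have h3 := N7a.eqv_top d (d.p_conj g hx) hy2
        have h4 : d.D (g * x, false) (g * (x * y), false) = ⊤ := by
          simpa [ltr, mul_assoc] using h3
        exact N7a.tri_top d hx2 h4
      · rintro x _ ⟨hx, hx2⟩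
        have hxi : d.p x⁻¹ = 0 := by rw [d.p_inv, hx, neg_zero]
        refine ⟨hxi, ?_⟩
        have h3 := N7a.eqv_top d (d.p_conj g hxi) hx2
        have h4 : d.D (g * x⁻¹, false) (g, false) = ⊤ := by
          simpa [ltr, mul_assoc] using h3
        rw [d.um.symm]
        exact h4
    exact hmain.2
  have hker2 : ∀ c, d.p c = 0 → d.D (g, false) (g * c, true) = ⊤ := by
    intro c hc
    have h3 := N7a.eqv_top d (d.p_conj g hc) hlink
    have h4 : d.D (g * c, false) (g * c, true) = ⊤ := by
      simpa [ltr, mul_assoc] using h3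
    exact N7a.tri_top d (hker c hc) h4
  have hall : ∀ y : G × Bool, d.D (g, false) y = ⊤ := by
    rintro ⟨x, b⟩
    cases b with
    | false =>
      obtain ⟨a, ha, hpa⟩ := d.pA (d.p (g⁻¹ * x))
      have hc : d.p (g⁻¹ * x * a⁻¹) = 0 := by
        rw [d.pmul, d.p_inv, hpa, add_neg_cancel]
      have h5 := d.um.comp (g * (g⁻¹ * x * a⁻¹)) false a (by exact ha) (g, false)
      have h6 : g * (g⁻¹ * x * a⁻¹) * a = x := by group
      rw [h6] at h5
      rw [d.um.symm, h5, d.um.symm]
      exact hker _ hc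
    | true =>
      obtain ⟨a, ha, hpa⟩ := d.pB (d.p (g⁻¹ * x))
      have hc : d.p (g⁻¹ * x * a⁻¹) = 0 := by
        rw [d.pmul, d.p_inv, hpa, add_neg_cancel]
      have h5 := d.um.comp (g * (g⁻¹ * x * a⁻¹)) true a (by exact ha) (g, false)
      have h6 : g * (g⁻¹ * x * a⁻¹) * a = x := by group
      rw [h6] at h5
      rw [d.um.symm, h5, d.um.symm]
      exact hker2 _ hc
  obtain ⟨x, y, hxy⟩ := d.ne
  exact hxy (N7a.tri_top d ((d.um.symm _ _).trans (hall x)) (hall y))

theorem N7.h_coe (d : N7 G X) (g : G) : (d.h g : EReal) = d.hE g := by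
  unfold N7.h
  exact EReal.coe_toReal (d.hE_top g) (d.hE_bot g)

private lemma N7a.h_mul_le (d : N7 G X) {c : G} (hc : d.p c = 0) (g : G) :
    d.chi c + d.h g ≤ d.h (c * g) := by
  have h1 : (d.chi c : EReal) + d.hE g ≤ d.hE (c * g) := by
    unfold N7.hE
    refine le_min ?_ (le_iInf₂ fun s hs => ?_)
    · have h2 := d.eqv c hc (g, false) (g, true)
      have h3 : d.D (c * g, false) (c * g, true) = (d.chi c : EReal) + d.D (g, false) (g, true) :=
        h2
      rw [h3]
      exact add_le_add_right (min_le_left _ _) _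
    · have h2 := d.eqv c hc (g, false) (g * s, false)
      have h3 : d.D (c * g, false) (c * g * s, false) =
          (d.chi c : EReal) + d.D (g, false) (g * s, false) := by
        rw [← h2, mul_assoc]
        rfl
      rw [h3]
      exact add_le_add_right ((min_le_right _ _).trans (iInf₂_le s hs)) _
  rw [← d.h_coe, ← d.h_coe] at h1
  exact_mod_cast h1

theorem N7.h_mul (d : N7 G X) {c : G} (hc : d.p c = 0) (g : G) :
    d.h (c * g) = d.chi c + d.h g := by
  refine le_antisymm ?_ (N7a.h_mul_le d hc g)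
  have hci : d.p c⁻¹ = 0 := by rw [d.p_inv, hc, neg_zero]
  have h1 := N7a.h_mul_le d hci (c * g)
  rw [inv_mul_cancel_left, d.chi_inv hc] at h1
  linarith

theorem N7.h_le_link (d : N7 G X) (g : G) :
    (d.h g : EReal) ≤ d.D (g, false) (g, true) := by
  rw [d.h_coe]
  exact min_le_left _ _

theorem N7.h_le_S (d : N7 G X) (g : G) {s : G} (hs : s ∈ d.S) :
    (d.h g : EReal) ≤ d.D (g, false) (g * s, false) := by
  rw [d.h_coe]
  exact (min_le_right _ _).trans (iInf₂_le s hs)

theorem N7.h_attained (d : N7 G X) (g : G) :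
    d.D (g, false) (g, true) = (d.h g : EReal) ∨
      ∃ s ∈ d.S, d.D (g, false) (g * s, false) = (d.h g : EReal) := by
  have h0 := d.hE_top g
  rw [d.h_coe]
  rcases min_choice (d.D (g, false) (g, true)) (⨅ s ∈ d.S, d.D (g, false) (g * s, false))
    with h | h
  · left
    exact h.symm
  · right
    rcases N7a.inf_att d.Sfin (fun s => d.D (g, false) (g * s, false)) with h2 | ⟨s, hs, h2⟩
    · exact absurd (h.trans h2) h0
    · exact ⟨s, hs, h2.trans h.symm⟩

end H84.PG
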