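import Pool.Agent.H84.PG.N7a

/-!
# Module N7b: the normalised ultrametrics and the cocycle (VII.1, VII.2, VII.6)

`p g = x` implies `g = c * sec x` with `p c = 0`.
* `Dx_spec`: for `g = c * sec x`: `D (g y, g z) = chi c + D (sec x y, sec x z)` (`eqv`, `ltr` of a
  product), `h g = chi c + h (sec x)`; so `D (g y, g z) = h g + (D (sec x y, sec x z) - h (sec x))`
  and the bracket is `nu x * Dx x y z` (`EReal` arithmetic with real coefficients, `D ≠ ⊥`:
  distinguish `D = ⊤` and `D` real).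
* `kk_spec`: `h (g a) - h g` does not change when `g` is replaced by `c g`.
* `Dx_um`: multiplication by a positive real and addition of a real are order automorphisms of
  the values `≠ ⊥`; `comp` from `d.um.comp` (`ltr`).
* `Dx_act`: `D (g a y, g a z) = h (g a) + nu (p (g a)) * Dx (x + p a) y z` and
  `h (g a) = h g + nu x * kk a x`; compare with `Dx_spec` for `ltr a y`, `ltr a z`; divide by `nu x`.
* `kk_mul`: `h (g a b) - h g = (h (g a) - h g) + (h (g a b) - h (g a))`.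
* `kk_ker`: `h (g c) = h ((g c g⁻¹) g) = chi (g c g⁻¹) + h g`; `chat_spec`.
* `Dx_link`, `Dx_S`, `Dx_attained`: from `N7a` (VII.2).
* `kk_comm` (VII.6): expand `kk (h a) x` in two ways: `h a = (h a h⁻¹ a⁻¹) (a h)`, the commutator is
  in the kernel (`X` is commutative).
-/

set_option autoImplicit false

namespace H84.PG

open H36.PP Subgroup

variable {G X : Type*} [Group G] [AddCommGroup X]

private lemma N7b.er (z : EReal) (hz : z ≠ ⊥) : z = ⊤ ∨ ∃ r : ℝ, z = (r : EReal) := by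
  induction z with
  | bot => exact absurd rfl hz
  | coe r => exact Or.inr ⟨r, rfl⟩
  | top => exact Or.inl rfl

private lemma N7b.dec (d : N7 G X) (g : G) :
    ∃ c, d.p c = 0 ∧ g = c * d.sec (d.p g) := by
  refine ⟨g * (d.sec (d.p g))⁻¹, ?_, ?_⟩
  · rw [d.pmul, d.p_inv, d.p_sec, add_neg_cancel]
  · group

private lemma N7b.Dx_top (d : N7 G X) (x : X) (y z : G × Bool)
    (h : d.D (ltr (d.sec x) y) (ltr (d.sec x) z) = ⊤) : d.Dx x y z = ⊤ := by
  unfold N7.Dx
  rw [h, EReal.top_add_coe, EReal.coe_mul_top_of_pos (inv_pos.2 (d.nupos x))]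

private lemma N7b.Dx_real (d : N7 G X) (x : X) (y z : G × Bool) (r : ℝ)
    (h : d.D (ltr (d.sec x) y) (ltr (d.sec x) z) = (r : EReal)) :
    d.Dx x y z = (((d.nu x)⁻¹ * (r - d.h (d.sec x)) : ℝ) : EReal) := by
  unfold N7.Dx
  rw [h, sub_eq_add_neg]
  push_cast
  rfl

private lemma N7b.Dx_mono (d : N7 G X) (x : X) :
    Monotone (fun t : EReal => (((d.nu x)⁻¹ : ℝ) : EReal) *
      (t + ((-(d.h (d.sec x)) : ℝ) : EReal))) := by
  intro s t hst
  have h0 : (0 : EReal) ≤ (((d.nu x)⁻¹ : ℝ) : EReal) := by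
    exact_mod_cast (inv_pos.2 (d.nupos x)).le
  exact mul_le_mul_of_nonneg_left (add_le_add hst le_rfl) h0

theorem N7.Dx_spec (d : N7 G X) (g : G) (y z : G × Bool) :
    d.D (ltr g y) (ltr g z) =
      (d.h g : EReal) + (d.nu (d.p g) : EReal) * d.Dx (d.p g) y z := by
  obtain ⟨c, hc, hg⟩ := N7b.dec d g
  have hn := d.nupos (d.p g)
  have h1 : d.h g = d.chi c + d.h (d.sec (d.p g)) := by
    conv_lhs => rw [hg]
    exact d.h_mul hc _
  have h2 : d.D (ltr g y) (ltr g z) = (d.chi c : EReal) +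
      d.D (ltr (d.sec (d.p g)) y) (ltr (d.sec (d.p g)) z) := by
    rw [← d.eqv c hc]
    have : ∀ w : G × Bool, ltr g w = ltr c (ltr (d.sec (d.p g)) w) := by
      intro w
      conv_lhs => rw [hg]
      simp [ltr, mul_assoc]
    rw [this y, this z]
  rcases N7b.er _ (d.um.bot (ltr (d.sec (d.p g)) y) (ltr (d.sec (d.p g)) z)) with h | ⟨r, h⟩
  · rw [h2, N7b.Dx_top d _ y z h, h, EReal.coe_mul_top_of_pos hn, EReal.coe_add_top,
      EReal.coe_add_top]
  · rw [h2, N7b.Dx_real d _ y z r h, h, h1]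
    norm_cast
    rw [← mul_assoc, mul_inv_cancel₀ hn.ne', one_mul]
    ring

theorem N7.kk_spec (d : N7 G X) (g a : G) :
    d.h (g * a) = d.h g + d.nu (d.p g) * d.kk a (d.p g) := by
  obtain ⟨c, hc, hg⟩ := N7b.dec d g
  have hn := d.nupos (d.p g)
  have h1 : d.h g = d.chi c + d.h (d.sec (d.p g)) := by
    conv_lhs => rw [hg]
    exact d.h_mul hc _
  have h2 : d.h (g * a) = d.chi c + d.h (d.sec (d.p g) * a) := by
    conv_lhs => rw [hg, mul_assoc]
    exact d.h_mul hc _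
  unfold N7.kk
  rw [← mul_assoc, mul_inv_cancel₀ hn.ne', h1, h2]
  ring

theorem N7.Dx_um (d : N7 G X) (x : X) : UM d.A d.B (d.Dx x) where
  bot y z := by
    rcases N7b.er _ (d.um.bot (ltr (d.sec x) y) (ltr (d.sec x) z)) with h | ⟨r, h⟩
    · rw [N7b.Dx_top d x y z h]
      exact top_ne_bot
    · rw [N7b.Dx_real d x y z r h]
      exact EReal.coe_ne_bot _
  symm y z := by
    unfold N7.Dx
    rw [d.um.symm]
  refl y := N7b.Dx_top d x y y (d.um.refl _)
  tri y z w := by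
    have h1 := N7b.Dx_mono d x (d.um.tri (ltr (d.sec x) y) (ltr (d.sec x) z) (ltr (d.sec x) w))
    have h2 := (N7b.Dx_mono d x).map_min (a := d.D (ltr (d.sec x) y) (ltr (d.sec x) z))
      (b := d.D (ltr (d.sec x) z) (ltr (d.sec x) w))
    exact h2.symm.le.trans h1
  comp g s a ha y := by
    unfold N7.Dx
    have h1 : ltr (d.sec x) (g * a, s) = (d.sec x * g * a, s) := by
      simp [ltr, mul_assoc]
    rw [h1, d.um.comp (d.sec x * g) s a ha]
    rfl

theorem N7.Dx_act (d : N7 G X) (a : G) (x : X) (y z : G × Bool) :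
    d.Dx x (ltr a y) (ltr a z) =
      (d.kk a x : EReal) + (d.nu (d.p a) : EReal) * d.Dx (x + d.p a) y z := by
  have hn := d.nupos x
  have hp : d.p (d.sec x * a) = x + d.p a := by rw [d.pmul, d.p_sec]
  have h1 := d.Dx_spec (d.sec x * a) y z
  rw [hp] at h1
  have h2 : ∀ w : G × Bool, ltr (d.sec x) (ltr a w) = ltr (d.sec x * a) w := by
    intro w
    simp [ltr, mul_assoc]
  have h3 : d.D (ltr (d.sec x) (ltr a y)) (ltr (d.sec x) (ltr a z)) =
      (d.h (d.sec x * a) : EReal) + (d.nu (x + d.p a) : EReal) * d.Dx (x + d.p a) y z := by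
    rw [h2, h2, h1]
  rcases N7b.er _ ((d.Dx_um (x + d.p a)).bot y z) with h | ⟨r, h⟩
  · rw [h, EReal.coe_mul_top_of_pos (d.nupos _), EReal.coe_add_top] at h3 ⊢
    exact N7b.Dx_top d _ _ _ h3
  · rw [h] at h3 ⊢
    have h4 : (d.h (d.sec x * a) : EReal) + (d.nu (x + d.p a) : EReal) * (r : EReal) =
        ((d.h (d.sec x * a) + d.nu (x + d.p a) * r : ℝ) : EReal) := by
      push_cast
      rfl
    rw [h4] at h3
    rw [N7b.Dx_real d _ _ _ _ h3, d.numul]
    have h5 : (d.kk a x : EReal) + (d.nu (d.p a) : EReal) * (r : EReal) =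
        ((d.kk a x + d.nu (d.p a) * r : ℝ) : EReal) := by
      push_cast
      rfl
    rw [h5]
    congr 1
    unfold N7.kk
    field_simp
    ring

theorem N7.kk_mul (d : N7 G X) (a b : G) (x : X) :
    d.kk (a * b) x = d.kk a x + d.nu (d.p a) * d.kk b (x + d.p a) := by
  have hn := d.nupos x
  have hp : d.p (d.sec x * a) = x + d.p a := by rw [d.pmul, d.p_sec]
  have h1 := d.kk_spec (d.sec x * a) b
  rw [hp, mul_assoc] at h1
  unfold N7.kk at h1 ⊢
  rw [h1, d.numul]
  have hn2 := d.nupos (d.p a)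
  field_simp
  ring

theorem N7.kk_ker (d : N7 G X) {c : G} (hc : d.p c = 0) (x : X) :
    d.kk c x = d.chat c x := by
  have h1 : d.sec x * c = (d.sec x * c * (d.sec x)⁻¹) * d.sec x := by group
  have h2 : d.h (d.sec x * c) = d.chi (d.sec x * c * (d.sec x)⁻¹) + d.h (d.sec x) := by
    conv_lhs => rw [h1]
    exact d.h_mul (d.p_conj _ hc) _
  unfold N7.kk CD.chat
  rw [h2]
  ring

private lemma N7b.nonneg (d : N7 G X) (x : X) (y z : G × Bool)
    (h : (d.h (d.sec x) : EReal) ≤ d.D (ltr (d.sec x) y) (ltr (d.sec x) z)) :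
    0 ≤ d.Dx x y z := by
  have h1 := N7b.Dx_mono d x h
  refine le_trans ?_ h1
  have h2 : (((d.nu x)⁻¹ : ℝ) : EReal) * ((d.h (d.sec x) : EReal) +
      ((-(d.h (d.sec x)) : ℝ) : EReal)) =
      (((d.nu x)⁻¹ * (d.h (d.sec x) + -(d.h (d.sec x))) : ℝ) : EReal) := by
    push_cast
    rfl
  show (0 : EReal) ≤ (((d.nu x)⁻¹ : ℝ) : EReal) * ((d.h (d.sec x) : EReal) +
      ((-(d.h (d.sec x)) : ℝ) : EReal))
  rw [h2, add_neg_cancel, mul_zero]
  exact le_rfl

private lemma N7b.zero (d : N7 G X) (x : X) (y z : G × Bool)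
    (h : d.D (ltr (d.sec x) y) (ltr (d.sec x) z) = (d.h (d.sec x) : EReal)) :
    d.Dx x y z = 0 := by
  rw [N7b.Dx_real d x y z _ h, sub_self, mul_zero]
  rfl

theorem N7.Dx_link (d : N7 G X) (x : X) : 0 ≤ d.Dx x (1, false) (1, true) := by
  apply N7b.nonneg
  simpa [ltr] using d.h_le_link (d.sec x)

theorem N7.Dx_S (d : N7 G X) (x : X) {s : G} (hs : s ∈ d.S) :
    0 ≤ d.Dx x (1, false) (s, false) := by
  apply N7b.nonneg
  simpa [ltr] using d.h_le_S (d.sec x) hs

theorem N7.Dx_attained (d : N7 G X) (x : X) :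
    d.Dx x (1, false) (1, true) = 0 ∨ ∃ s ∈ d.S, d.Dx x (1, false) (s, false) = 0 := by
  rcases d.h_attained (d.sec x) with h | ⟨s, hs, h⟩
  · left
    apply N7b.zero
    simpa [ltr] using h
  · right
    refine ⟨s, hs, N7b.zero d x _ _ ?_⟩
    simpa [ltr] using h

theorem N7.kk_comm (d : N7 G X) (h a : G) (x : X) :
    d.nu (d.p h) * d.kk a (x + d.p h) - d.kk a x -
      (d.nu (d.p a) * d.kk h (x + d.p a) - d.kk h x) = d.chat (h * a * h⁻¹ * a⁻¹) x := by
  have he : d.p (h * a * h⁻¹ * a⁻¹) = 0 := by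
    rw [d.pmul, d.pmul, d.pmul, d.p_inv, d.p_inv]
    abel
  have h1 := d.kk_mul h a x
  have h2 := d.kk_mul a h x
  have h3 := d.kk_mul (h * a * h⁻¹ * a⁻¹) (a * h) x
  have h4 : h * a * h⁻¹ * a⁻¹ * (a * h) = h * a := by group
  rw [h4, he, add_zero, d.nu_zero, one_mul, d.kk_ker he] at h3
  linarith

end H84.PG
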