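import Pool.Agent.H84.PG.N7b

/-!
# Module N7c: uniform lower bounds (VII.2, VII.3)

* `Dx_ker_low`: for `w` in the kernel: `Dx x (w, false) (w s, false) = chat w x + Dx x (1, false)
  (s, false) ≥ - sn (chat w)` (`Dx_act`, `kk_ker`, `p w = 0`, `nu 0 = 1`), the same for the link.
  By `genS` (`closure_induction`; for `s⁻¹` use symmetry) and `tri`: for every `c'` in the kernel
  `Dx x (1, false) (c', false) ≥ - M` with `M` independent of `x`.
* `Dx_low`: every line is `(c', false)` or `(c', true)` up to `comp` with `c'` in the kernel (`pA`,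
  `pB`), and `Dx x (c', false) (c', true) ≥ - sn (chat c')`; use `tri`.
* `kk_bdd`: `h (g a)` is the minimum of `D (g a, false) (g a, true)`, `D (g a, false) (g a s, false)`;
  each of them is `D (g y, g z) ≥ h g - M nu (p g)` by `Dx_spec` and `Dx_low` for the finitely
  many pairs of lines `y, z`.  So `h (g a) ≥ h g - M nu (p g)`, i.e. `kk a x ≥ -M`.  For the upper
  bound use `kk (a a⁻¹) = kk 1 = 0`: `0 = kk a x + nu (p a) * kk a⁻¹ (x + p a)`.
-/

set_option autoImplicit false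

namespace H84.PG

open H36.PP Subgroup

variable {G X : Type*} [Group G] [AddCommGroup X]

private def N7c.Low (d : N7 G X) (y z : G × Bool) : Prop :=
  ∃ M : ℝ, ∀ x, ((-M : ℝ) : EReal) ≤ d.Dx x y z

private lemma N7c.low_symm (d : N7 G X) {y z : G × Bool} (h : N7c.Low d y z) :
    N7c.Low d z y := by
  obtain ⟨M, hM⟩ := h
  refine ⟨M, fun x => ?_⟩
  rw [(d.Dx_um x).symm]
  exact hM x

private lemma N7c.low_trans (d : N7 G X) {y z w : G × Bool} (h : N7c.Low d y z)
    (h' : N7c.Low d z w) : N7c.Low d y w := by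
  obtain ⟨M, hM⟩ := h
  obtain ⟨M', hM'⟩ := h'
  refine ⟨max M M', fun x => ?_⟩
  refine le_trans (le_min ?_ ?_) ((d.Dx_um x).tri y z w)
  · refine le_trans ?_ (hM x)
    exact_mod_cast neg_le_neg (le_max_left M M')
  · refine le_trans ?_ (hM' x)
    exact_mod_cast neg_le_neg (le_max_right M M')

private lemma N7c.low_ker (d : N7 G X) {w : G} (hw : d.p w = 0) {y z : G × Bool}
    (h : N7c.Low d y z) : N7c.Low d (ltr w y) (ltr w z) := by
  obtain ⟨M, hM⟩ := h
  obtain ⟨C, hC⟩ := d.chat_bdd hw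
  refine ⟨M + C, fun x => ?_⟩
  rw [d.Dx_act, hw, add_zero, d.nu_zero, d.kk_ker hw]
  have h1 : -C ≤ d.chat w x := (abs_le.1 (hC x)).1
  have h2 : ((-(M + C) : ℝ) : EReal) = ((-C : ℝ) : EReal) + ((-M : ℝ) : EReal) := by
    rw [← EReal.coe_add]
    congr 1
    ring
  rw [h2]
  have h3 : ((1 : ℝ) : EReal) * d.Dx x y z = d.Dx x y z := by
    rw [EReal.coe_one, one_mul]
  rw [h3]
  exact add_le_add (EReal.coe_le_coe_iff.2 h1) (hM x)

private lemma N7c.low_kerA (d : N7 G X) {c : G} (hc : d.p c = 0) :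
    N7c.Low d (1, false) (c, false) := by
  have hmain : d.p c = 0 ∧ N7c.Low d (1, false) (c, false) := by
    refine Subgroup.closure_induction (p := fun c _ => d.p c = 0 ∧
      N7c.Low d (1, false) (c, false)) ?_ ?_ ?_ ?_ (d.genS c hc)
    · intro s hs
      refine ⟨d.pS s hs, 0, fun x => ?_⟩
      rw [neg_zero]
      exact d.Dx_S x hs
    · refine ⟨d.p_one, 0, fun x => ?_⟩
      rw [(d.Dx_um x).refl]
      exact le_top
    · rintro x y _ _ ⟨hx, hx2⟩ ⟨hy, hy2⟩
      refine ⟨by rw [d.pmul, hx, hy, add_zero], ?_⟩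
      have h3 := N7c.low_ker d hx hy2
      have h4 : N7c.Low d (x, false) (x * y, false) := by
        simpa [ltr] using h3
      exact N7c.low_trans d hx2 h4
    · rintro x _ ⟨hx, hx2⟩
      have hxi : d.p x⁻¹ = 0 := by rw [d.p_inv, hx, neg_zero]
      refine ⟨hxi, ?_⟩
      have h3 := N7c.low_ker d hxi hx2
      have h4 : N7c.Low d (x⁻¹, false) (1, false) := by
        simpa [ltr] using h3
      exact N7c.low_symm d h4
  exact hmain.2

private lemma N7c.low_kerB (d : N7 G X) {c : G} (hc : d.p c = 0) :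
    N7c.Low d (1, false) (c, true) := by
  have h1 : N7c.Low d (1, false) (1, true) := by
    refine ⟨0, fun x => ?_⟩
    rw [neg_zero]
    exact d.Dx_link x
  have h3 := N7c.low_ker d hc h1
  have h4 : N7c.Low d (c, false) (c, true) := by
    simpa [ltr] using h3
  exact N7c.low_trans d (N7c.low_kerA d hc) h4

private lemma N7c.low_all (d : N7 G X) (y : G × Bool) : N7c.Low d (1, false) y := by
  obtain ⟨g, b⟩ := y
  cases b with
  | false =>
    obtain ⟨a, ha, hpa⟩ := d.pA (d.p g)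
    have hc : d.p (g * a⁻¹) = 0 := by
      rw [d.pmul, d.p_inv, hpa, add_neg_cancel]
    obtain ⟨M, hM⟩ := N7c.low_kerA d hc
    refine ⟨M, fun x => ?_⟩
    have h5 := (d.Dx_um x).comp (g * a⁻¹) false a (by exact ha) (1, false)
    rw [inv_mul_cancel_right] at h5
    rw [(d.Dx_um x).symm, h5, (d.Dx_um x).symm]
    exact hM x
  | true =>
    obtain ⟨a, ha, hpa⟩ := d.pB (d.p g)
    have hc : d.p (g * a⁻¹) = 0 := by
      rw [d.pmul, d.p_inv, hpa, add_neg_cancel]
    obtain ⟨M, hM⟩ := N7c.low_kerB d hc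
    refine ⟨M, fun x => ?_⟩
    have h5 := (d.Dx_um x).comp (g * a⁻¹) true a (by exact ha) (1, false)
    rw [inv_mul_cancel_right] at h5
    rw [(d.Dx_um x).symm, h5, (d.Dx_um x).symm]
    exact hM x

theorem N7.Dx_low (d : N7 G X) (y z : G × Bool) :
    ∃ M : ℝ, ∀ x, ((-M : ℝ) : EReal) ≤ d.Dx x y z :=
  N7c.low_trans d (N7c.low_symm d (N7c.low_all d y)) (N7c.low_all d z)

private lemma N7c.kk_low (d : N7 G X) (a : G) : ∃ M : ℝ, ∀ x, -M ≤ d.kk a x := by
  obtain ⟨M₁, hM₁⟩ := d.Dx_low (a, false) (a, true)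
  choose M₂ hM₂ using fun s : G => d.Dx_low (a, false) (a * s, false)
  obtain ⟨B, hB⟩ := (d.Sfin.image M₂).bddAbove
  have hB' : ∀ s ∈ d.S, M₂ s ≤ B := fun s hs => hB ⟨s, hs, rfl⟩
  refine ⟨max M₁ B, fun x => ?_⟩
  rcases d.Dx_attained (x + d.p a) with h | ⟨s, hs, h⟩
  · have h1 := d.Dx_act a x (1, false) (1, true)
    rw [h, mul_zero, add_zero] at h1
    have h2 : ((-M₁ : ℝ) : EReal) ≤ (d.kk a x : EReal) := by
      rw [← h1]
      have h3 := hM₁ x
      simpa [ltr] using h3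
    have h4 : -M₁ ≤ d.kk a x := EReal.coe_le_coe_iff.1 h2
    have h5 := le_max_left M₁ B
    linarith
  · have h1 := d.Dx_act a x (1, false) (s, false)
    rw [h, mul_zero, add_zero] at h1
    have h2 : ((-(M₂ s) : ℝ) : EReal) ≤ (d.kk a x : EReal) := by
      rw [← h1]
      have h3 := hM₂ s x
      simpa [ltr] using h3
    have h4 : -(M₂ s) ≤ d.kk a x := EReal.coe_le_coe_iff.1 h2
    have h5 := le_max_right M₁ B
    have h6 := hB' s hs
    linarith

theorem N7.kk_bdd (d : N7 G X) (a : G) : Bdd (d.kk a) := by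
  obtain ⟨M, hM⟩ := N7c.kk_low d a
  obtain ⟨M', hM'⟩ := N7c.kk_low d a⁻¹
  refine ⟨max M (d.nu (d.p a) * M'), fun x => ?_⟩
  rw [abs_le]
  constructor
  · have h1 := hM x
    have h2 := le_max_left M (d.nu (d.p a) * M')
    linarith
  · have h1 := d.kk_mul a a⁻¹ x
    have h2 : d.kk (a * a⁻¹) x = 0 := by
      rw [mul_inv_cancel]
      unfold N7.kk
      rw [mul_one, sub_self, mul_zero]
    rw [h2] at h1
    have h3 := hM' (x + d.p a)
    have h4 := mul_le_mul_of_nonneg_left h3 (d.nupos (d.p a)).le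
    have h5 := le_max_right M (d.nu (d.p a) * M')
    nlinarith

end H84.PG
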