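import Pool.Agent.H84.PG.N7c

/-!
# Module N7d: the short edges (VII.4)

Let `c ∈ B`, `p c = 0`.  By `genS` write `c` as a word in `S`: there is `M` such that for every `R`
and `x`: if `R ≤ Dx x (1, false) (s, false)` for all `s ∈ S`, then `R - M ≤ Dx x (1, false) (c, false)`
(`closure_induction` for the statement there is `M ≥ 0` such that for all real `R`, `x` ...;
`Dx x (w, false) (w s, false) = chat w x + Dx x (1, false) (s, false)`, `chat w` bounded); the same
for `c⁻¹`.  Let `R₀ = M + 1` for the larger `M`.  Suppose `chat c x ≠ 0` and all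
`Dx x (1, false) (s, false) > R₀`.  Replace `c` by `c⁻¹` if necessary (`chat_inv`):
`chat c x > 0`.  By `comp` (`c ∈ B`) `L := Dx x (1, false) (1, true) = Dx x (1, false) (c, true) ≥
min (Dx x (1, false) (c, false)) (Dx x (c, false) (c, true))` and
`Dx x (c, false) (c, true) = chat c x + L`.  So `L = ⊤` or `L ≥ R₀ - M = 1`.  Then all values in
`Dx_attained` are positive, contradiction.
-/

set_option autoImplicit false

namespace H84.PG

open H36.PP Subgroup

variable {G X : Type*} [Group G] [AddCommGroup X]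

/-- `Dx x y z ≥ R - M` as soon as all edges `S` at `1` have `Dx x`-depth at least `R` -/
private def N7d.Sh (d : N7 G X) (y z : G × Bool) : Prop :=
  ∃ M : ℝ, 0 ≤ M ∧ ∀ (R : ℝ) (x : X), (∀ s ∈ d.S, (R : EReal) ≤ d.Dx x (1, false) (s, false)) →
    ((R - M : ℝ) : EReal) ≤ d.Dx x y z

private lemma N7d.sh_symm (d : N7 G X) {y z : G × Bool} (h : N7d.Sh d y z) : N7d.Sh d z y := by
  obtain ⟨M, hM0, hM⟩ := h
  refine ⟨M, hM0, fun R x hx => ?_⟩
  rw [(d.Dx_um x).symm]
  exact hM R x hx

private lemma N7d.sh_trans (d : N7 G X) {y z w : G × Bool} (h : N7d.Sh d y z)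
    (h' : N7d.Sh d z w) : N7d.Sh d y w := by
  obtain ⟨M, hM0, hM⟩ := h
  obtain ⟨M', hM0', hM'⟩ := h'
  refine ⟨max M M', hM0.trans (le_max_left _ _), fun R x hx => ?_⟩
  refine le_trans (le_min ?_ ?_) ((d.Dx_um x).tri y z w)
  · refine le_trans ?_ (hM R x hx)
    exact_mod_cast sub_le_sub_left (le_max_left M M') R
  · refine le_trans ?_ (hM' R x hx)
    exact_mod_cast sub_le_sub_left (le_max_right M M') R

private lemma N7d.sh_ker (d : N7 G X) {w : G} (hw : d.p w = 0) {y z : G × Bool}
    (h : N7d.Sh d y z) : N7d.Sh d (ltr w y) (ltr w z) := by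
  obtain ⟨M, hM0, hM⟩ := h
  obtain ⟨C, hC⟩ := d.chat_bdd hw
  refine ⟨M + |C|, add_nonneg hM0 (abs_nonneg _), fun R x hx => ?_⟩
  rw [d.Dx_act, hw, add_zero, d.nu_zero, d.kk_ker hw]
  have h1 : -|C| ≤ d.chat w x := by
    have h2 := (abs_le.1 (hC x)).1
    have h3 := le_abs_self C
    linarith
  have h2 : ((R - (M + |C|) : ℝ) : EReal) = ((-|C| : ℝ) : EReal) + ((R - M : ℝ) : EReal) := by
    rw [← EReal.coe_add]
    congr 1
    ring
  rw [h2]
  have h3 : ((1 : ℝ) : EReal) * d.Dx x y z = d.Dx x y z := by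
    rw [EReal.coe_one, one_mul]
  rw [h3]
  exact add_le_add (EReal.coe_le_coe_iff.2 h1) (hM R x hx)

private lemma N7d.sh_kerA (d : N7 G X) {c : G} (hc : d.p c = 0) :
    N7d.Sh d (1, false) (c, false) := by
  have hmain : d.p c = 0 ∧ N7d.Sh d (1, false) (c, false) := by
    refine Subgroup.closure_induction (p := fun c _ => d.p c = 0 ∧
      N7d.Sh d (1, false) (c, false)) ?_ ?_ ?_ ?_ (d.genS c hc)
    · intro s hs
      refine ⟨d.pS s hs, 0, le_rfl, fun R x hx => ?_⟩
      rw [sub_zero]
      exact hx s hs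
    · refine ⟨d.p_one, 0, le_rfl, fun R x _ => ?_⟩
      rw [(d.Dx_um x).refl]
      exact le_top
    · rintro x y _ _ ⟨hx, hx2⟩ ⟨hy, hy2⟩
      refine ⟨by rw [d.pmul, hx, hy, add_zero], ?_⟩
      have h3 := N7d.sh_ker d hx hy2
      have h4 : N7d.Sh d (x, false) (x * y, false) := by
        simpa [ltr] using h3
      exact N7d.sh_trans d hx2 h4
    · rintro x _ ⟨hx, hx2⟩
      have hxi : d.p x⁻¹ = 0 := by rw [d.p_inv, hx, neg_zero]
      refine ⟨hxi, ?_⟩
      have h3 := N7d.sh_ker d hxi hx2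
      have h4 : N7d.Sh d (x⁻¹, false) (1, false) := by
        simpa [ltr] using h3
      exact N7d.sh_symm d h4
  exact hmain.2

/-- if `chat c x > 0` for `c ∈ B` in the kernel, then the edge `(1, c)` is not deeper than the
link at `1` -/
private lemma N7d.link (d : N7 G X) {c : G} (hc : d.p c = 0) (hcB : c ∈ d.B) {x : X}
    (hpos : 0 < d.chat c x) :
    d.Dx x (1, false) (c, false) ≤ d.Dx x (1, false) (1, true) := by
  have h1 : d.Dx x (1, false) (c, true) = d.Dx x (1, false) (1, true) := by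
    have h5 := (d.Dx_um x).comp 1 true c (by exact hcB) (1, false)
    rw [one_mul] at h5
    rw [(d.Dx_um x).symm, h5, (d.Dx_um x).symm]
  have h2 : d.Dx x (c, false) (c, true) =
      (d.chat c x : EReal) + d.Dx x (1, false) (1, true) := by
    have h3 := d.Dx_act c x (1, false) (1, true)
    rw [hc, add_zero, d.nu_zero, d.kk_ker hc, EReal.coe_one, one_mul] at h3
    have h4 : d.Dx x (c, false) (c, true) =
        d.Dx x (ltr c (1, false)) (ltr c (1, true)) := by
      simp [ltr]
    rw [h4, h3]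
  have h3 := (d.Dx_um x).tri (1, false) (c, false) (c, true)
  rw [h1, h2] at h3
  rcases min_choice (d.Dx x (1, false) (c, false))
    ((d.chat c x : EReal) + d.Dx x (1, false) (1, true)) with h4 | h4
  · rw [h4] at h3
    exact h3
  · rw [h4] at h3
    have hbot := (d.Dx_um x).bot (1, false) (1, true)
    generalize d.Dx x (1, false) (1, true) = L at *
    induction L with
    | bot => exact absurd rfl hbot
    | coe r =>
      have h5 : d.chat c x + r ≤ r := by exact_mod_cast h3
      linarith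
    | top => exact le_top

theorem N7.short (d : N7 G X) {c : G} (hc : d.p c = 0) (hcB : c ∈ d.B) :
    ∃ R₀ : ℝ, ∀ x, d.chat c x ≠ 0 → ∃ s ∈ d.S, d.Dx x (1, false) (s, false) ≤ (R₀ : EReal) := by
  have hci : d.p c⁻¹ = 0 := by rw [d.p_inv, hc, neg_zero]
  obtain ⟨M, hM0, hM⟩ := N7d.sh_kerA d hc
  obtain ⟨M', hM0', hM'⟩ := N7d.sh_kerA d hci
  refine ⟨max M M' + 1, fun x hx => ?_⟩
  by_contra hcon
  push Not at hcon
  have hR : ∀ s ∈ d.S, ((max M M' + 1 : ℝ) : EReal) ≤ d.Dx x (1, false) (s, false) :=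
    fun s hs => (hcon s hs).le
  have hL : (1 : EReal) ≤ d.Dx x (1, false) (1, true) := by
    rcases lt_or_gt_of_ne hx with h | h
    · have h1 : 0 < d.chat c⁻¹ x := by
        rw [d.chat_inv hc]
        linarith
      refine le_trans ?_ (N7d.link d hci (d.B.inv_mem hcB) h1)
      refine le_trans ?_ (hM' _ x hR)
      have h2 : (1 : ℝ) ≤ max M M' + 1 - M' := by
        have := le_max_right M M'
        linarith
      exact_mod_cast h2
    · refine le_trans ?_ (N7d.link d hc hcB h)
      refine le_trans ?_ (hM _ x hR)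
      have h2 : (1 : ℝ) ≤ max M M' + 1 - M := by
        have := le_max_left M M'
        linarith
      exact_mod_cast h2
  rcases d.Dx_attained x with h | ⟨s, hs, h⟩
  · rw [h] at hL
    exact absurd hL (by norm_num)
  · have h1 := hR s hs
    rw [h] at h1
    have h2 : max M M' + 1 ≤ 0 := by exact_mod_cast h1
    have h3 := le_max_left M M'
    linarith

end H84.PG
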