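import Pool.Agent.H84.PG.N7c
import Pool.Agent.H84.PG.Tau
import Pool.Agent.H84.PG.LemE
import Pool.Agent.H36.PP.APB

/-!
# Module N7g: the case `dim W = 1`, `nu` nontrivial (IX.5)

`hch : chat c` is constant, equal to `chi c`.  Apply the construction of `tau_exists` (or
`tau_exists` itself for the `MB` data as in `N7f`; `W` consists of constants, `hconst`): there is a bounded
`τ` and for `a ∈ A` -- in fact for every `g : G`, since `kk` satisfies `kk_mul`, `kk_comm`,
`kk_bdd` for all of `G`; take the group `G` itself as the acting group, `MB X G`, with `p = d.p` --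
a constant `b g` with `kk g x = b g + τ x - nu (p g) * τ (x + p g)` for all `x`.
`b (g h) = b g + nu (p g) * b h` (`kk_mul`), `b c = chi c` for `c` in the kernel (`kk_ker`, `nu 0 = 1`).
`D' y z = ⨅ x, (Dx x y z - τ x)` is an ultrametric on the lines: `≠ ⊥` by `Dx_low` and `τ`
bounded; `symm`, `refl`, `comp` clear; `tri`: infimum of ultrametrics; not constantly `⊤`
because `Dx_attained` gives a finite value for `x = 0`.  By `Dx_act`
`D' (g y) (g z) = b g + nu (p g) * D' y z` for all `g : G` (substitute `x + p g`).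
`K = {g | nu (p g) = 1 ∧ b g = 0}` is a normal subgroup (kernel of the action
`t ↦ nu (p g) t + b g` on `ℝ`).  `G ⧸ K` is almost polycyclic: the image of the kernel of `p` is
abelian (`g ↦ b g` is an injective homomorphism on it) and finitely generated (`Sfin`, `genS`), it
is normal with quotient a quotient of `X`, abelian and finitely generated
(`AP.ext`, `AP.of_comm_fg`).  `t ∈ A` with `p t = 0`, `chi t > 0`: `chine`, `facA`, `chiN`, inverse.
Then `lemE`.
-/

set_option autoImplicit false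

namespace H84.PG

open H36.PP Subgroup

variable {G X : Type*} [Group G] [AddCommGroup X]

/-- the affine map `t ↦ b + q t` on the extended reals -/
noncomputable def N7g_af (b q : ℝ) (t : EReal) : EReal := (b : EReal) + (q : EReal) * t

theorem N7g_af_top {b q : ℝ} (hq : 0 < q) : N7g_af b q ⊤ = ⊤ := by
  rw [N7g_af, EReal.coe_mul_top_of_pos hq, EReal.coe_add_top]

theorem N7g_af_bot {b q : ℝ} (hq : 0 < q) : N7g_af b q ⊥ = ⊥ := by
  rw [N7g_af, EReal.coe_mul_bot_of_pos hq, EReal.add_bot]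

theorem N7g_af_coe (b q t : ℝ) : N7g_af b q (t : EReal) = ((b + q * t : ℝ) : EReal) := by
  rw [N7g_af, EReal.coe_add, EReal.coe_mul]

theorem N7g_af_comp {b q b' q' : ℝ} (hq : 0 < q) (hq' : 0 < q') (t : EReal) :
    N7g_af b q (N7g_af b' q' t) = N7g_af (b + q * b') (q * q') t := by
  induction t with
  | bot => rw [N7g_af_bot hq', N7g_af_bot hq, N7g_af_bot (mul_pos hq hq')]
  | top => rw [N7g_af_top hq', N7g_af_top hq, N7g_af_top (mul_pos hq hq')]
  | coe t =>
    rw [N7g_af_coe, N7g_af_coe, N7g_af_coe]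
    congr 1
    ring

theorem N7g_af_mono {b q : ℝ} (hq : 0 < q) {s t : EReal} (h : s ≤ t) :
    N7g_af b q s ≤ N7g_af b q t := by
  induction t with
  | bot => rw [le_bot_iff.mp h]
  | top => rw [N7g_af_top hq]; exact le_top
  | coe t =>
    induction s with
    | bot => rw [N7g_af_bot hq]; exact bot_le
    | top => exact absurd (top_le_iff.mp h) (EReal.coe_ne_top t)
    | coe s =>
      rw [N7g_af_coe, N7g_af_coe, EReal.coe_le_coe_iff]
      have h1 := EReal.coe_le_coe_iff.mp h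
      have h2 := mul_le_mul_of_nonneg_left h1 hq.le
      linarith

theorem N7g_af_id (t : EReal) : N7g_af 0 1 t = t := by
  rw [N7g_af, EReal.coe_zero, zero_add, EReal.coe_one, one_mul]

theorem N7g_af_iInf {b q : ℝ} (hq : 0 < q) {ι : Type*} (f : ι → EReal) :
    ⨅ x, N7g_af b q (f x) = N7g_af b q (⨅ x, f x) := by
  have hq' : 0 < q⁻¹ := inv_pos.mpr hq
  have hinv : ∀ t, N7g_af (-(q⁻¹ * b)) q⁻¹ (N7g_af b q t) = t := fun t => by
    rw [N7g_af_comp hq' hq, inv_mul_cancel₀ hq.ne', neg_add_cancel, N7g_af_id]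
  have hinv2 : ∀ t, N7g_af b q (N7g_af (-(q⁻¹ * b)) q⁻¹ t) = t := fun t => by
    rw [N7g_af_comp hq hq', mul_inv_cancel₀ hq.ne']
    have h1 : b + q * -(q⁻¹ * b) = 0 := by
      field_simp
      ring
    rw [h1, N7g_af_id]
  refine le_antisymm ?_ (le_iInf fun x => N7g_af_mono hq (iInf_le f x))
  have h1 : N7g_af (-(q⁻¹ * b)) q⁻¹ (⨅ x, N7g_af b q (f x)) ≤ ⨅ x, f x := by
    refine le_iInf fun x => ?_
    have h2 := N7g_af_mono (b := -(q⁻¹ * b)) hq' (iInf_le (fun x => N7g_af b q (f x)) x)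
    simp only [hinv] at h2
    exact h2
  have h3 := N7g_af_mono (b := b) hq h1
  rwa [hinv2] at h3

theorem N7g_lt (d : N7 G X) (hnu : ∃ y, d.nu y ≠ 1) : ∃ y, d.nu y < 1 := by
  obtain ⟨y, hy⟩ := hnu
  rcases lt_or_gt_of_ne hy with h | h
  · exact ⟨y, h⟩
  · refine ⟨-y, ?_⟩
    rw [d.nu_neg]
    exact inv_lt_one_of_one_lt₀ h

theorem N7g_pcomm (d : N7 G X) (h a : G) : d.p (h * a * h⁻¹ * a⁻¹) = 0 := by
  rw [d.pmul, d.pmul, d.pmul, d.p_inv, d.p_inv]
  abel

theorem N7g_tau (d : N7 G X) (hch : ∀ c, d.p c = 0 → ∀ x, d.chat c x = d.chi c)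
    (hnu : ∃ x, d.nu x ≠ 1) : ∃ τ : X → ℝ, Bdd τ ∧ ∃ b : G → ℝ, ∀ g x,
      d.kk g x = b g + τ x - d.nu (d.p g) * τ (x + d.p g) := by
  obtain ⟨y, hy⟩ := N7g_lt d hnu
  obtain ⟨t, rfl⟩ := d.psurj y
  set q := d.nu (d.p t) with hq
  have hq0 : 0 < q := d.nupos _
  obtain ⟨C, hC⟩ := d.kk_bdd t
  have hbd : ∀ x (j : ℕ), ‖q ^ j * d.kk t (x + j • d.p t)‖ ≤ C * q ^ j := by
    intro x j
    rw [Real.norm_eq_abs, abs_mul, abs_of_pos (pow_pos hq0 j), mul_comm]
    exact mul_le_mul_of_nonneg_right (hC _) (pow_pos hq0 j).le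
  have hgeo : HasSum (fun j : ℕ => C * q ^ j) (C * (1 - q)⁻¹) :=
    (hasSum_geometric_of_lt_one hq0.le hy).mul_left C
  have hsum : ∀ x, Summable fun j : ℕ => q ^ j * d.kk t (x + j • d.p t) := fun x =>
    Summable.of_norm_bounded hgeo.summable (hbd x)
  let τ : X → ℝ := fun x => ∑' j : ℕ, q ^ j * d.kk t (x + j • d.p t)
  have hτb : Bdd τ := by
    refine ⟨C * (1 - q)⁻¹, fun x => ?_⟩
    have h1 := tsum_of_norm_bounded hgeo (hbd x)
    rwa [Real.norm_eq_abs] at h1
  have hτ : ∀ x, τ x = d.kk t x + q * τ (x + d.p t) := by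
    intro x
    show (∑' j : ℕ, q ^ j * d.kk t (x + j • d.p t)) = d.kk t x + q *
      ∑' j : ℕ, q ^ j * d.kk t (x + d.p t + j • d.p t)
    rw [(hsum x).tsum_eq_zero_add, ← tsum_mul_left]
    congr 1
    · simp
    · refine tsum_congr fun j => ?_
      rw [pow_succ, succ_nsmul', ← add_assoc]
      ring
  refine ⟨τ, hτb, fun a => d.chi (t * a * t⁻¹ * a⁻¹) / (q - 1), fun a x => ?_⟩
  set e := d.chi (t * a * t⁻¹ * a⁻¹) / (q - 1) with he
  have hq1 : q - 1 ≠ 0 := by linarith [hy] |> fun h : q - 1 < 0 => h.ne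
  have hφb : Bdd (fun x => d.kk a x - τ x + d.nu (d.p a) * τ (x + d.p a) - e) :=
    (((d.kk_bdd a).sub hτb).add ((hτb.trans (d.p a)).smul (d.nu (d.p a)))).sub (Bdd.const e)
  have h0 := Tau_inj hq0 hy (y := d.p t) hφb fun x => by
    have h1 := d.kk_comm t a x
    rw [hch _ (N7g_pcomm d t a)] at h1
    have h2 := hτ x
    have h3 := hτ (x + d.p a)
    have h4 : x + d.p a + d.p t = x + d.p t + d.p a := by abel
    rw [h4] at h3
    rw [← hq] at h1
    have h5 : (q - 1) * e = d.chi (t * a * t⁻¹ * a⁻¹) := by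
      rw [he]
      field_simp
    linear_combination h1 + h2 - d.nu (d.p a) * h3 - h5
  have h5 := congrFun h0 x
  simp only [Pi.zero_apply] at h5
  linarith

section action

variable (d : N7 G X) {τ : X → ℝ} {b : G → ℝ}

theorem N7g_b_mul (hb : ∀ g x, d.kk g x = b g + τ x - d.nu (d.p g) * τ (x + d.p g)) (g h : G) :
    b (g * h) = b g + d.nu (d.p g) * b h := by
  have h1 := d.kk_mul g h 0
  rw [hb, hb, hb, d.pmul, d.numul, ← add_assoc] at h1
  linear_combination h1

theorem N7g_b_ker (hch : ∀ c, d.p c = 0 → ∀ x, d.chat c x = d.chi c)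
    (hb : ∀ g x, d.kk g x = b g + τ x - d.nu (d.p g) * τ (x + d.p g)) {c : G}
    (hc : d.p c = 0) : b c = d.chi c := by
  have h1 := hb c 0
  rw [d.kk_ker hc, hch c hc, hc, d.nu_zero, add_zero] at h1
  linarith

theorem N7g_b_one (hb : ∀ g h, b (g * h) = b g + d.nu (d.p g) * b h) : b 1 = 0 := by
  have h1 := hb 1 1
  rw [d.p_one, d.nu_zero, mul_one] at h1
  linarith

/-- kernel of the affine action -/
def N7g_K (hb : ∀ g h, b (g * h) = b g + d.nu (d.p g) * b h) : Subgroup G where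
  carrier := {g | d.nu (d.p g) = 1 ∧ b g = 0}
  one_mem' := ⟨by rw [d.p_one, d.nu_zero], N7g_b_one d hb⟩
  mul_mem' := by
    rintro g h ⟨h1, h2⟩ ⟨h3, h4⟩
    refine ⟨?_, ?_⟩
    · rw [d.pmul, d.numul, h1, h3, one_mul]
    · rw [hb, h2, h4, mul_zero, add_zero]
  inv_mem' := by
    rintro g ⟨h1, h2⟩
    refine ⟨?_, ?_⟩
    · rw [d.p_inv, d.nu_neg, h1, inv_one]
    · have h3 := hb g g⁻¹
      rw [mul_inv_cancel, N7g_b_one d hb, h1, h2] at h3
      linarith

theorem N7g_K_normal (hb : ∀ g h, b (g * h) = b g + d.nu (d.p g) * b h) :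
    (N7g_K d hb).Normal := by
  refine ⟨fun n hn g => ?_⟩
  obtain ⟨h1, h2⟩ := hn
  refine ⟨?_, ?_⟩
  · rw [d.pmul, d.pmul, d.p_inv, d.numul, d.numul, h1, mul_one, ← d.numul, add_neg_cancel,
      d.nu_zero]
  · have h3 := hb g g⁻¹
    rw [mul_inv_cancel, N7g_b_one d hb] at h3
    rw [hb, hb, d.pmul, d.numul, h1, h2]
    linarith

/-- the kernel of `p` -/
def N7g_P : Subgroup G where
  carrier := {g | d.p g = 0}
  one_mem' := d.p_one
  mul_mem' := by
    intro g h h1 h2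
    show d.p (g * h) = 0
    rw [d.pmul, show d.p g = 0 from h1, show d.p h = 0 from h2, add_zero]
  inv_mem' := by
    intro g h1
    show d.p g⁻¹ = 0
    rw [d.p_inv, show d.p g = 0 from h1, neg_zero]

theorem N7g_P_normal : (N7g_P d).Normal := ⟨fun _ hn g => d.p_conj g hn⟩

theorem N7g_P_fg : (N7g_P d).FG := by
  rw [Subgroup.fg_iff]
  refine ⟨d.S, le_antisymm ((closure_le _).mpr fun s hs => d.pS s hs) fun c hc => d.genS c hc,
    d.Sfin⟩

theorem N7g_AP (hX : AddGroup.FG X) (hb : ∀ g h, b (g * h) = b g + d.nu (d.p g) * b h)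
    [(N7g_K d hb).Normal] : AP (G ⧸ N7g_K d hb) := by
  have hP := N7g_P_normal d
  refine AP.quotient_of_le (N7g_K d hb) (N7g_K d hb ⊔ N7g_P d) le_sup_left ?_ ?_
  · have h1 : (N7g_K d hb ⊔ N7g_P d).map (QuotientGroup.mk' (N7g_K d hb)) =
        (N7g_P d).map (QuotientGroup.mk' (N7g_K d hb)) := by
      rw [Subgroup.map_sup, QuotientGroup.map_mk'_self, bot_sup_eq]
    rw [h1]
    refine AP.of_comm_fg ?_ ?_
    · rintro ⟨_, g, hg, rfl⟩ ⟨_, h, hh, rfl⟩
      have hg0 : d.p g = 0 := hg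
      have hh0 : d.p h = 0 := hh
      apply Subtype.ext
      show (QuotientGroup.mk' (N7g_K d hb)) g * (QuotientGroup.mk' (N7g_K d hb)) h =
        (QuotientGroup.mk' (N7g_K d hb)) h * (QuotientGroup.mk' (N7g_K d hb)) g
      rw [← map_mul, ← map_mul]
      show ((g * h : G) : G ⧸ N7g_K d hb) = ((h * g : G) : G ⧸ N7g_K d hb)
      rw [QuotientGroup.eq]
      refine ⟨?_, ?_⟩
      · rw [d.pmul, d.p_inv, d.pmul, d.pmul, hg0, hh0]
        simp [d.nu_zero]
      · have h2 : b (g * h) = b (h * g) := by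
          rw [hb, hb, hg0, hh0, d.nu_zero]
          ring
        have h3 := hb (g * h) ((g * h)⁻¹ * (h * g))
        rw [mul_inv_cancel_left, h2] at h3
        have h4 := d.nupos (d.p (g * h))
        have h5 : d.nu (d.p (g * h)) * b ((g * h)⁻¹ * (h * g)) = 0 := by linarith
        exact (mul_eq_zero.mp h5).resolve_left h4.ne'
    · exact (Group.fg_iff_subgroup_fg _).2 (APB_fg_map _ _ (N7g_P_fg d))
  · let pm : G →* Multiplicative X :=
      { toFun := fun g => Multiplicative.ofAdd (d.p g)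
        map_one' := by rw [d.p_one]; rfl
        map_mul' := fun g h => by rw [d.pmul]; rfl }
    have hs : Function.Surjective pm := fun x => by
      obtain ⟨g, hg⟩ := d.psurj (Multiplicative.toAdd x)
      exact ⟨g, congrArg Multiplicative.ofAdd hg⟩
    have hXP : AP (Multiplicative X) :=
      AP.of_comm_fg (fun x y => mul_comm x y) (AddGroup.fg_iff_mul_fg.1 hX)
    have h1 : AP (G ⧸ pm.ker) := (AP.congr (QuotientGroup.quotientKerEquivOfSurjective pm hs)).2 hXP
    have hle : pm.ker ≤ (N7g_K d hb ⊔ N7g_P d).comap (MonoidHom.id G) := by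
      intro g hg
      have h2 : d.p g = 0 := congrArg Multiplicative.toAdd (MonoidHom.mem_ker.mp hg)
      exact (le_sup_right : N7g_P d ≤ N7g_K d hb ⊔ N7g_P d) h2
    refine AP.of_surjective (QuotientGroup.map pm.ker (N7g_K d hb ⊔ N7g_P d) (MonoidHom.id G) hle)
      ?_ h1
    intro x
    obtain ⟨g, rfl⟩ := QuotientGroup.mk_surjective x
    exact ⟨(g : G ⧸ pm.ker), rfl⟩

/-- the exact ultrametric -/
noncomputable def N7g_D (τ : X → ℝ) (y z : G × Bool) : EReal :=
  ⨅ x, N7g_af (-(τ x)) 1 (d.Dx x y z)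

theorem N7g_um (hτ : Bdd τ) : UM d.A d.B (N7g_D d τ) := by
  refine ⟨fun y z => ?_, fun y z => ?_, fun y => ?_, fun x y z => ?_, fun g s a ha y => ?_⟩
  · obtain ⟨M, hM⟩ := d.Dx_low y z
    obtain ⟨C, hC⟩ := hτ
    have h1 : ((-C + -M : ℝ) : EReal) ≤ N7g_D d τ y z := by
      refine le_iInf fun x => ?_
      refine le_trans ?_ (N7g_af_mono one_pos (hM x))
      rw [N7g_af_coe, EReal.coe_le_coe_iff]
      have h2 := (abs_le.mp (hC x)).2
      linarith
    intro e
    rw [e] at h1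
    exact absurd (le_bot_iff.mp h1) (EReal.coe_ne_bot _)
  · unfold N7g_D
    congr 1
    funext x
    rw [(d.Dx_um x).symm]
  · unfold N7g_D
    have h1 : ∀ x, N7g_af (-(τ x)) 1 (d.Dx x y y) = ⊤ := fun x => by
      rw [(d.Dx_um x).refl, N7g_af_top one_pos]
    simp only [h1, iInf_const]
  · refine le_iInf fun w => ?_
    rcases le_total (d.Dx w x y) (d.Dx w y z) with h | h
    · refine (min_le_left _ _).trans ((iInf_le _ w).trans ?_)
      refine N7g_af_mono one_pos ?_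
      have h1 := (d.Dx_um w).tri x y z
      rwa [min_eq_left h] at h1
    · refine (min_le_right _ _).trans ((iInf_le _ w).trans ?_)
      refine N7g_af_mono one_pos ?_
      have h1 := (d.Dx_um w).tri x y z
      rwa [min_eq_right h] at h1
  · unfold N7g_D
    congr 1
    funext x
    rw [(d.Dx_um x).comp g s a ha y]

theorem N7g_eq (hb : ∀ g x, d.kk g x = b g + τ x - d.nu (d.p g) * τ (x + d.p g)) (g : G)
    (y z : G × Bool) :
    N7g_D d τ (ltr g y) (ltr g z) = (b g : EReal) + (d.nu (d.p g) : EReal) * N7g_D d τ y z := by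
  have hq := d.nupos (d.p g)
  have h1 : ∀ x, N7g_af (-(τ x)) 1 (d.Dx x (ltr g y) (ltr g z)) =
      N7g_af (b g) (d.nu (d.p g)) (N7g_af (-(τ (x + d.p g))) 1 (d.Dx (x + d.p g) y z)) := by
    intro x
    rw [d.Dx_act]
    show N7g_af (-(τ x)) 1 (N7g_af (d.kk g x) (d.nu (d.p g)) (d.Dx (x + d.p g) y z)) = _
    rw [N7g_af_comp one_pos hq, N7g_af_comp hq one_pos, hb]
    congr 1 <;> ring
  unfold N7g_D
  simp only [h1]
  rw [N7g_af_iInf hq]
  show N7g_af _ _ _ = N7g_af _ _ _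
  congr 1
  exact (Equiv.addRight (d.p g)).surjective.iInf_comp
    (fun x => N7g_af (-(τ x)) 1 (d.Dx x y z))

theorem N7g_ne : ∃ y z, N7g_D d τ y z ≠ ⊤ := by
  have key : ∀ y z, d.Dx 0 y z = 0 → N7g_D d τ y z ≠ ⊤ := by
    intro y z h e
    have h1 : N7g_D d τ y z ≤ N7g_af (-(τ 0)) 1 (d.Dx 0 y z) := iInf_le _ 0
    rw [h, e, ← EReal.coe_zero, N7g_af_coe] at h1
    exact absurd (top_le_iff.mp h1) (EReal.coe_ne_top _)
  rcases d.Dx_attained 0 with h | ⟨s, _, h⟩
  · exact ⟨_, _, key _ _ h⟩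
  · exact ⟨_, _, key _ _ h⟩

end action

theorem N7g_t (d : N7 G X) : ∃ t ∈ d.A, d.p t = 0 ∧ 0 < d.chi t := by
  obtain ⟨c0, hc0, hc0'⟩ := d.chine
  obtain ⟨a, haA, n, hn, hc⟩ := d.facA c0 hc0
  have hpa : d.p a = 0 := by
    have h := hc0
    rw [hc, d.pmul, d.pN n hn, zero_add] at h
    exact h
  have hchi : d.chi a ≠ 0 := by
    have h := hc0'
    rw [hc, d.chimul n a (d.pN n hn) hpa, d.chiN n hn, zero_add] at h
    exact h
  rcases lt_or_gt_of_ne hchi with h | h
  · refine ⟨a⁻¹, d.A.inv_mem haA, ?_, ?_⟩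
    · rw [d.p_inv, hpa, neg_zero]
    · rw [d.chi_inv hpa]
      linarith
  · exact ⟨a, haA, hpa, h⟩

theorem N7.one_false (d : N7 G X) (hX : AddGroup.FG X) (hM : MinD G d.A d.B)
    (hst : Stab d.W) (hch : ∀ c, d.p c = 0 → ∀ x, d.chat c x = d.chi c)
    (hnu : ∃ x, d.nu x ≠ 1) : False := by
  obtain ⟨τ, hτ, b, hb⟩ := N7g_tau d hch hnu
  have hbm := N7g_b_mul d hb
  have hN := N7g_K_normal d hbm
  obtain ⟨t, htA, htp, htc⟩ := N7g_t d
  exact lemE hM (fun g => d.nu (d.p g)) b (fun g => d.nupos _)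
    (fun g h => by rw [d.pmul, d.numul]) hbm (N7g_K d hbm) (fun g => Iff.rfl)
    (N7g_AP d hX hbm) (N7g_D d τ) (N7g_um d hτ) (N7g_eq d hb) (N7g_ne d) t htA
    (by rw [htp, d.nu_zero]) (by rw [N7g_b_ker d hch hb htp]; exact htc)

end H84.PG
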