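import Pool.Agent.H84.PG.RunOne
import Pool.Agent.H84.PG.WDens
import Pool.Agent.H84.PG.RunEx

/-!
# Module NuOne: end of the case `nu = 1` (VIII.7)

`dim W ≥ 2`, so there is `w ∈ W`, `w ≠ 0`, `L w = 0` (kernel of a linear functional on `W`).
`m {w = 0} = 0` (`m_zero_set`) and `m Sg > 0`, so after changing the sign of `w`
`m {x ∈ Sg, w x < 0} > 0`; scale `w` so that `sn w = 1`.  Also `m {0 < w} > 0`: otherwise
`L w = - L |w| < 0` (`exists_lt_of` with `Y = univ`, `Mean.L_lower`).  Choose `η > 0` with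
`b = m {x ∈ Sg, w x < -2 η} > 0` and `m {2 η < w} > 0` (`exists_lt_of`, `exists_gt_of`, monotone
in `η`), and `0 < ε ≤ η`, `ε ≤ 1` with `3 ε < η ^ 2 b / 2`.  `w_dens`: `M > 0`, `u ∈ WZ`,
`|u x - M w x| ≤ M ε`.  Then `{2 η < w} ⊆ {0 < u}`, `u ≠ 0`, `{x ∈ Sg, w x < -2 η} ⊆
{x ∈ Sg, u x < - M η}`.  Take a run (`exists_run`, some `i`) and apply `Run.one_bound` to `u`,
`M w`, `M η`: `(M η) ^ 2 / 2 * b ≤ (M ε) (M (1 + ε) + 1) ≤ 3 M ^ 2 ε`.  Contradiction.
-/

set_option autoImplicit false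

namespace H84.PG

open Filter Topology

variable {X A ι : Type*} [AddCommGroup X] [Group A] {d : MD X A ι} {i : ι} {u : X → ℝ}

theorem nu_one_false [Finite ι] [Nonempty ι] (hX : AddGroup.FG X) (d : MD X A ι)
    (h2 : 2 ≤ Module.finrank ℝ d.W) (hnu : ∀ y, d.nu y = 1) : False := by
  haveI := d.st.fd
  have hbd : ∀ w ∈ d.W, Bdd w := d.st.bdd
  -- an element of mean zero
  obtain ⟨w1, hw1, hw10, hL1⟩ : ∃ w ∈ d.W, w ≠ 0 ∧ d.μ.L w = 0 := by
    by_contra hcon
    push Not at hcon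
    let l : d.W →ₗ[ℝ] ℝ :=
      { toFun := fun w => d.μ.L (w : X → ℝ)
        map_add' := fun w w' => d.μ.add _ _ (hbd _ w.2) (hbd _ w'.2)
        map_smul' := fun c w => d.μ.smul c _ (hbd _ w.2) }
    have hinj : Function.Injective l := by
      rw [← LinearMap.ker_eq_bot, Submodule.eq_bot_iff]
      intro w hw
      by_contra hne
      exact hcon w.1 w.2 (fun h => hne (Subtype.ext h)) hw
    have h3 := LinearMap.finrank_le_finrank_of_injective hinj
    rw [Module.finrank_self] at h3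
    omega
  -- change of sign
  obtain ⟨w, hw, hw0, hLw, hneg⟩ : ∃ w ∈ d.W, w ≠ 0 ∧ d.μ.L w = 0 ∧
      0 < d.μ.m {x | x ∈ d.Sg ∧ w x < 0} := by
    by_cases h : 0 < d.μ.m {x | x ∈ d.Sg ∧ w1 x < 0}
    · exact ⟨w1, hw1, hw10, hL1, h⟩
    · refine ⟨fun x => (-1) * w1 x, d.W.smul_mem (-1) hw1, ?_, ?_, ?_⟩
      · intro e
        apply hw10
        funext x
        have := congrFun e x
        simp only [Pi.zero_apply] at this ⊢
        linarith
      · rw [d.μ.smul _ _ (hbd _ hw1), hL1, mul_zero]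
      · by_contra h4
        have z1 : d.μ.m {x | x ∈ d.Sg ∧ w1 x < 0} = 0 :=
          le_antisymm (not_lt.1 h) (d.μ.m_nonneg _)
        have z2 : d.μ.m {x | x ∈ d.Sg ∧ (-1) * w1 x < 0} = 0 :=
          le_antisymm (not_lt.1 h4) (d.μ.m_nonneg _)
        have z3 := m_zero_set hX d.μ d.st hw1 hw10
        have z4 := d.μ.m_zero_union (d.μ.m_zero_union z1 z2) z3
        have z5 : d.μ.m d.Sg = 0 := by
          refine d.μ.m_zero_mono ?_ z4
          intro x hx
          rcases lt_trichotomy (w1 x) 0 with h5 | h5 | h5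
          · exact Or.inl (Or.inl ⟨hx, h5⟩)
          · exact Or.inr h5
          · exact Or.inl (Or.inr ⟨hx, by linarith⟩)
        have := d.Sgpos
        linarith
  have hbw := hbd w hw
  -- positive part
  have hposw : 0 < d.μ.m {x | 0 < w x} := by
    by_contra hcon
    have z1 : d.μ.m {x | 0 < w x} = 0 := le_antisymm (not_lt.1 hcon) (d.μ.m_nonneg _)
    have h3 : 0 < d.μ.m {x | x ∈ (Set.univ : Set X) ∧ w x < 0} :=
      lt_of_lt_of_le hneg (d.μ.m_mono fun x hx => ⟨Set.mem_univ _, hx.2⟩)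
    obtain ⟨η0, hη0, h4⟩ := exists_lt_of hX d.μ d.st hw h3
    have b1 : Bdd (fun x => max (w x) 0) := hbw.of_le fun x => by
      rcases le_total (w x) 0 with h | h
      · rw [max_eq_right h, abs_zero]
        exact abs_nonneg _
      · rw [max_eq_left h]
    have b2 : Bdd (fun x => max (-w x) 0) := hbw.of_le fun x => by
      rcases le_total (-w x) 0 with h | h
      · rw [max_eq_right h, abs_zero]
        exact abs_nonneg _
      · rw [max_eq_left h, abs_neg]
    have e1 : d.μ.L w = d.μ.L (fun x => max (w x) 0) - d.μ.L (fun x => max (-w x) 0) := by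
      rw [← d.μ.L_sub b1 b2]
      congr 1
      funext x
      rcases le_total (w x) 0 with h | h
      · rw [max_eq_right h, max_eq_left (by linarith : (0 : ℝ) ≤ -w x)]
        ring
      · rw [max_eq_left h, max_eq_right (by linarith : -w x ≤ (0 : ℝ))]
        ring
    have e2 : |d.μ.L (fun x => max (w x) 0)| ≤ 0 + sn w * d.μ.m {x | 0 < w x} := by
      refine d.μ.L_abs_le_of (fun x => ?_) le_rfl (sn_nonneg w) (fun x hx => ?_)
      · have h5 := le_sn hbw x
        rcases le_total (w x) 0 with h | h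
        · rw [max_eq_right h, abs_zero]
          exact sn_nonneg w
        · rw [max_eq_left h]
          exact h5
      · have h5 : w x ≤ 0 := not_lt.1 hx
        rw [max_eq_right h5, abs_zero]
    have e3 : η0 * d.μ.m {x | x ∈ (Set.univ : Set X) ∧ w x < -η0} ≤
        d.μ.L (fun x => max (-w x) 0) := by
      refine d.μ.L_lower b2 (fun x => le_max_right _ _) (fun x hx => ?_)
      exact le_trans (by linarith [hx.2]) (le_max_left _ _)
    have e4 : 0 < η0 * d.μ.m {x | x ∈ (Set.univ : Set X) ∧ w x < -η0} := mul_pos hη0 h4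
    rw [z1, mul_zero, add_zero] at e2
    have e5 := abs_nonpos_iff.1 e2
    linarith
  -- thresholds
  obtain ⟨η1, hη1, hn1⟩ := exists_lt_of hX d.μ d.st hw hneg
  obtain ⟨η2, hη2, hp2⟩ := exists_gt_of hX d.μ d.st hw (Y := Set.univ)
    (lt_of_lt_of_le hposw (d.μ.m_mono fun x hx => ⟨Set.mem_univ _, hx⟩))
  set η := min η1 η2 / 2 with hη
  have hηpos : 0 < η := by
    have := lt_min hη1 hη2
    positivity
  have h2η1 : 2 * η ≤ η1 := by
    rw [hη]
    linarith [min_le_left η1 η2]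
  have h2η2 : 2 * η ≤ η2 := by
    rw [hη]
    linarith [min_le_right η1 η2]
  set b := d.μ.m {x | x ∈ d.Sg ∧ w x < -(2 * η)} with hb
  have hbpos : 0 < b := lt_of_lt_of_le hn1 (d.μ.m_mono fun x hx => ⟨hx.1, by
    have h3 : w x < -η1 := hx.2
    show w x < -(2 * η)
    linarith⟩)
  set s := sn w with hs
  have hs0 : 0 ≤ s := sn_nonneg w
  set ε := min η (η ^ 2 * b / (4 * (s + η + 1))) with hε
  have hεpos : 0 < ε := by
    apply lt_min hηpos
    positivity
  have hεη : ε ≤ η := min_le_left _ _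
  have hεb : ε * (s + η + 1) ≤ η ^ 2 * b / 4 := by
    have h3 : ε ≤ η ^ 2 * b / (4 * (s + η + 1)) := min_le_right _ _
    have h4 : 0 < s + η + 1 := by positivity
    rw [le_div_iff₀ (by positivity)] at h3
    linarith
  obtain ⟨M, hM, u, hu, hux⟩ := w_dens d.span d.st.bdd hw hεpos
  have hM1 : (1 : ℝ) ≤ M := by exact_mod_cast hM
  have hM0 : (0 : ℝ) < M := by linarith
  have hMε : (M : ℝ) * ε ≤ M * η := mul_le_mul_of_nonneg_left hεη hM0.le
  have hup : {x | x ∈ (Set.univ : Set X) ∧ η2 < w x} ⊆ {x | 0 < u x} := by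
    intro x hx
    have h3 : η2 < w x := hx.2
    have h4 := (abs_le.1 (hux x)).1
    have h5 : (M : ℝ) * (2 * η) < M * w x := mul_lt_mul_of_pos_left (by linarith) hM0
    have h6 : 0 < (M : ℝ) * η := mul_pos hM0 hηpos
    show 0 < u x
    linarith
  have hun : {x | x ∈ d.Sg ∧ w x < -(2 * η)} ⊆ {x | x ∈ d.Sg ∧ u x < -(M * η)} := by
    intro x hx
    have h3 : w x < -(2 * η) := hx.2
    have h4 := (abs_le.1 (hux x)).2
    have h5 : (M : ℝ) * w x < M * (-(2 * η)) := mul_lt_mul_of_pos_left h3 hM0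
    refine ⟨hx.1, ?_⟩
    show u x < -(M * η)
    linarith
  have hupos : 0 < d.μ.m {x | 0 < u x} := lt_of_lt_of_le hp2 (d.μ.m_mono hup)
  have hu0 : u ≠ 0 := by
    intro h
    have h3 : {x | 0 < u x} = (∅ : Set X) := by
      ext x
      simp [h]
    rw [h3, d.μ.m_empty] at hupos
    exact lt_irrefl _ hupos
  obtain ⟨R⟩ := exists_run d hu hu0 (Classical.arbitrary ι)
  have hkey := R.one_bound hX hu hu0 hnu hupos (w := fun x => M * w x)
    (d.W.smul_mem (M : ℝ) hw) (by rw [d.μ.smul _ _ hbw, hLw, mul_zero]) (η := M * η)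
    (mul_pos hM0 hηpos)
  have k1 : b ≤ d.μ.m {x | x ∈ d.Sg ∧ u x < -(M * η)} := d.μ.m_mono hun
  have k2 : sn (fun x => u x - M * w x) ≤ M * ε := sn_le (by positivity) hux
  have k3 : sn u ≤ M * s + M * ε := by
    refine sn_le (by positivity) fun x => ?_
    have h3 : |u x| ≤ |u x - M * w x| + |M * w x| := by
      have := abs_add_le (u x - M * w x) (M * w x)
      simpa using this
    have h4 : |(M : ℝ) * w x| ≤ M * s := by
      rw [abs_mul, abs_of_pos hM0]
      exact mul_le_mul_of_nonneg_left (le_sn hbw x) hM0.le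
    linarith [hux x]
  have k4 : (M * η) ^ 2 / 2 * b ≤ (M * η) ^ 2 / 2 * d.μ.m {x | x ∈ d.Sg ∧ u x < -(M * η)} :=
    mul_le_mul_of_nonneg_left k1 (by positivity)
  have k5 : sn (fun x => u x - M * w x) * (sn u + 1) ≤ (M * ε) * (M * (s + ε + 1)) := by
    apply mul_le_mul k2 _ (by linarith [sn_nonneg u]) (by positivity)
    nlinarith
  have k6 : (M * η) ^ 2 / 2 * b ≤ M ^ 2 * (ε * (s + η + 1)) := by
    calc (M * η) ^ 2 / 2 * b ≤ (M * ε) * (M * (s + ε + 1)) := k4.trans (hkey.trans k5)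
      _ = M ^ 2 * (ε * (s + ε + 1)) := by ring
      _ ≤ M ^ 2 * (ε * (s + η + 1)) := by
        apply mul_le_mul_of_nonneg_left _ (by positivity)
        apply mul_le_mul_of_nonneg_left _ hεpos.le
        linarith
  have k7 : M ^ 2 * (ε * (s + η + 1)) ≤ M ^ 2 * (η ^ 2 * b / 4) :=
    mul_le_mul_of_nonneg_left hεb (by positivity)
  have k8 : 0 < (M : ℝ) ^ 2 * (η ^ 2 * b) := by positivity
  nlinarith

end H84.PG
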