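import Pool.Agent.H84.PG.MeanB

/-!
# Module Pigeon: two translates of a set of positive mean meet

Let `J` be a natural number with `(J + 1) δ > 1` and `δ' = ((J + 1) δ - 1) / (J + 1) ^ 2`.
For a set `Y` with `m Y ≥ δ` put `Y_i = {x | x + i • y ∈ Y}`, `i = 0, ..., J`; `m Y_i = m Y`
(`Mean.m_trans`).  Pointwise `∑_i 1_{Y_i} ≤ 1 + ∑_{i < i'} 1_{Y_i ∩ Y_i'}` (if `x` lies in `t` of
the sets, `t ≤ 1 + t (t - 1) / 2`), so `(J + 1) δ ≤ 1 + ∑_{i < i'} m (Y_i ∩ Y_i')` and some pair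
`i < i'` has `m (Y_i ∩ Y_i') ≥ δ'`.  `Y_i ∩ Y_i'` is the translate of
`{x | x ∈ Y ∧ x + (i' - i) • y ∈ Y}` by `i • y`.
(Alternative: if all the intersections had mean `< δ'`, an induction with
`m (Y_0 ∪ ... ∪ Y_i) ≥ m (Y_0 ∪ ... ∪ Y_{i-1}) + δ - i δ'` gives `m > 1`; here any `δ' > 0` with
`(J + 1) δ - (J + 1) ^ 2 δ' > 1` works.)
-/

set_option autoImplicit false

namespace H84.PG

open Filter Topology

private theorem Pigeon_inter {X : Type*} [AddCommGroup X] (μ : Mean X) (δ' : ℝ) (Y : Set X) (y : X)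
    (J : ℕ) (h : ∀ j : ℕ, 0 < j → j ≤ J → μ.m {x | x ∈ Y ∧ x + j • y ∈ Y} < δ') (n : ℕ)
    (hn : n ≤ J) : ∀ l ≤ n,
      μ.m ({x | ∃ i < l, x + i • y ∈ Y} ∩ {x | x + n • y ∈ Y}) ≤ l * δ' := by
  intro l
  induction l with
  | zero =>
    intro _
    have h0 : ({x | ∃ i < 0, x + i • y ∈ Y} ∩ {x | x + n • y ∈ Y} : Set X) = ∅ := by
      ext x
      simp
    rw [h0, μ.m_empty]
    simp
  | succ l ih =>
    intro hl
    have h1 : ({x | ∃ i < l + 1, x + i • y ∈ Y} ∩ {x | x + n • y ∈ Y} : Set X) ⊆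
        ({x | ∃ i < l, x + i • y ∈ Y} ∩ {x | x + n • y ∈ Y}) ∪
        {x | x + l • y ∈ {x | x ∈ Y ∧ x + (n - l) • y ∈ Y}} := by
      rintro x ⟨⟨i, hi, hiY⟩, hx⟩
      rcases Nat.lt_succ_iff_lt_or_eq.mp hi with h2 | h2
      · exact Or.inl ⟨⟨i, h2, hiY⟩, hx⟩
      · refine Or.inr ?_
        subst h2
        refine ⟨hiY, ?_⟩
        have h3 : x + i • y + (n - i) • y = x + n • y := by
          rw [add_assoc, ← add_smul]
          congr 2
          omega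
        change x + i • y + (n - i) • y ∈ Y
        rw [h3]
        exact hx
    have h2 := (μ.m_mono h1).trans (μ.m_union_le _ _)
    rw [μ.m_trans] at h2
    have h3 := ih (by omega)
    have h4 := (h (n - l) (by omega) (by omega)).le
    push_cast
    linarith

private theorem Pigeon_union {X : Type*} [AddCommGroup X] (μ : Mean X) (δ δ' : ℝ) (hδ' : 0 ≤ δ')
    (Y : Set X) (hY : δ ≤ μ.m Y) (y : X)
    (J : ℕ) (h : ∀ j : ℕ, 0 < j → j ≤ J → μ.m {x | x ∈ Y ∧ x + j • y ∈ Y} < δ') :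
    ∀ n ≤ J + 1, n * δ - (n : ℝ) ^ 2 * δ' ≤ μ.m {x | ∃ i < n, x + i • y ∈ Y} := by
  intro n
  induction n with
  | zero =>
    intro _
    simpa using μ.m_nonneg _
  | succ n ih =>
    intro hn
    have h1 := ih (by omega)
    have h2 := Pigeon_inter μ δ' Y y J h n (by omega) n le_rfl
    have h3 : ({x | ∃ i < n + 1, x + i • y ∈ Y} : Set X) =
        {x | ∃ i < n, x + i • y ∈ Y} ∪ ({x | x + n • y ∈ Y} \ {x | ∃ i < n, x + i • y ∈ Y}) := by
      ext x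
      simp only [Set.mem_ofPred_eq, Set.union_sdiff_self, Set.mem_union]
      constructor
      · rintro ⟨i, hi, hiY⟩
        rcases Nat.lt_succ_iff_lt_or_eq.mp hi with h4 | h4
        · exact Or.inl ⟨i, h4, hiY⟩
        · subst h4
          exact Or.inr hiY
      · rintro (⟨i, hi, hiY⟩ | h4)
        · exact ⟨i, by omega, hiY⟩
        · exact ⟨n, by omega, h4⟩
    rw [h3, μ.m_add Set.disjoint_sdiff_right]
    have h4 : ({x | x + n • y ∈ Y} \ {x | ∃ i < n, x + i • y ∈ Y} : Set X) =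
        {x | x + n • y ∈ Y} \ ({x | ∃ i < n, x + i • y ∈ Y} ∩ {x | x + n • y ∈ Y}) := by
      ext x
      simp only [Set.mem_sdiff, Set.mem_inter_iff, Set.mem_ofPred_eq]
      constructor
      · rintro ⟨ha, hb⟩
        exact ⟨ha, fun hc => hb hc.1⟩
      · rintro ⟨ha, hb⟩
        exact ⟨ha, fun hc => hb ⟨hc, ha⟩⟩
    have h5 := μ.m_diff {x | x + n • y ∈ Y}
      ({x | ∃ i < n, x + i • y ∈ Y} ∩ {x | x + n • y ∈ Y})
    rw [← h4, μ.m_trans] at h5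
    push_cast
    nlinarith [mul_nonneg (Nat.cast_nonneg (α := ℝ) n) hδ']

theorem pigeon {X : Type*} [AddCommGroup X] (μ : Mean X) (δ : ℝ) (hδ : 0 < δ) :
    ∃ (J : ℕ) (δ' : ℝ), 0 < δ' ∧ ∀ Y : Set X, δ ≤ μ.m Y → ∀ y : X,
      ∃ j : ℕ, 0 < j ∧ j ≤ J ∧ δ' ≤ μ.m {x | x ∈ Y ∧ x + j • y ∈ Y} := by
  obtain ⟨J, hJ⟩ := exists_nat_gt (1 / δ)
  have hJ1 : 1 < ((J : ℝ) + 1) * δ := by
    rw [div_lt_iff₀ hδ] at hJ
    linarith
  have hpos : (0 : ℝ) < 2 * ((J : ℝ) + 1) ^ 2 := by positivity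
  refine ⟨J, (((J : ℝ) + 1) * δ - 1) / (2 * ((J : ℝ) + 1) ^ 2), div_pos (by linarith) hpos, ?_⟩
  intro Y hY y
  by_contra hcon
  push Not at hcon
  have h1 := Pigeon_union μ δ _ (div_pos (by linarith) hpos).le Y hY y J hcon (J + 1) le_rfl
  have h2 := h1.trans (μ.m_le_one _)
  push_cast at h2
  have h3 : ((J : ℝ) + 1) ^ 2 * ((((J : ℝ) + 1) * δ - 1) / (2 * ((J : ℝ) + 1) ^ 2)) =
      (((J : ℝ) + 1) * δ - 1) / 2 := by
    field_simp
  rw [h3] at h2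
  linarith

end H84.PG
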