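import Pool.Agent.H84.PG.SnCpt

/-!
# Module Recur: recurrence (VIII.1)

The functions `T_{n y} w = (x ↦ w (x + n • y))` lie in `W` and have `sn = sn w`.  By `sn_cpt`
`sn (T_{n y} w - v) → 0` along `UU` for some `v`, so there are `n < n'` (the ultrafilter is
nonprincipal, the set of good `n` is infinite) with `sn (T_{n y} w - v) < ε / 2` and the same
for `n'`; so `|w (x + n' • y) - w (x + n • y)| < ε` for all `x`, i.e.
`|w (x + (n' - n) • y) - w x| < ε`.  (`le_sn`)
-/

set_option autoImplicit false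

namespace H84.PG

open Filter Topology

theorem recur {X : Type*} [AddCommGroup X] {W : Submodule ℝ (X → ℝ)} (hW : Stab W)
    {w : X → ℝ} (hw : w ∈ W) {ε : ℝ} (hε : 0 < ε) (y : X) :
    ∃ j : ℕ, 0 < j ∧ ∀ x, |w (x + j • y) - w x| < ε := by
  have hbw : Bdd w := hW.bdd w hw
  have hmem : ∀ n : ℕ, (fun x => w (x + n • y)) ∈ W := fun n => hW.inv w hw (n • y)
  obtain ⟨v, hv, hlim⟩ := sn_cpt hW.fd hW.bdd (fun n x => w (x + n • y)) (sn w)
    (Eventually.of_forall fun n => ⟨hmem n, (sn_trans w (n • y)).le⟩)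
  have h1 : ∀ᶠ n in UU, sn (fun x => w (x + n • y) - v x) < ε / 2 :=
    hlim.eventually (gt_mem_nhds (by positivity))
  obtain ⟨n, hn⟩ := h1.exists
  obtain ⟨n', hn', hlt⟩ := (h1.and (UU_le (eventually_gt_atTop n))).exists
  have hlt' : n ≤ n' := le_of_lt hlt
  refine ⟨n' - n, Nat.sub_pos_of_lt hlt, fun x => ?_⟩
  have hb : ∀ m : ℕ, Bdd (fun x => w (x + m • y) - v x) := fun m =>
    (hW.bdd _ (hmem m)).sub (hW.bdd v hv)
  have h2 := le_sn (hb n) (x - n • y)
  have h3 := le_sn (hb n') (x - n • y)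
  have e1 : x - n • y + n • y = x := sub_add_cancel x (n • y)
  have e2 : x - n • y + n' • y = x + (n' - n) • y := by
    have h6 : n' • y = (n' - n) • y + n • y := by
      rw [← add_nsmul, Nat.sub_add_cancel hlt']
    rw [h6]
    abel
  simp only [e1] at h2
  simp only [e2] at h3
  have h4 : w (x + (n' - n) • y) - w x =
      (w (x + (n' - n) • y) - v (x - n • y)) - (w x - v (x - n • y)) := by ring
  rw [h4]
  refine lt_of_le_of_lt (abs_sub _ _) ?_
  linarith

end H84.PG
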