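import Pool.Agent.H84.PG.RunEx

/-!
# Module RunClamp: `G n / n` and its truncation `q n` (VIII.7)

Off `E n`: `G n x ≥ min (r i x) (-c + n u x) ≥ -|c| - n sn u`, so for `n ≥ |c|`, `n ≥ 1`,
`G n x / n ≥ -(sn u + 1)`; and `G n x ≤ r i x`.  So `|G n x / n - q n x| ≤ max (r i x / n) 0 ≤
|r i x| / n`.  And `|r i x| / n` tends to zero in mean (`d.tight`: given `ε`, `δ`, for `n ε > R₀`
the set `{ε ≤ |r i| / n}` is contained in `{R₀ < |r i|}`).  `MZ.of_off`.
-/

set_option autoImplicit false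

namespace H84.PG

open Filter Topology

variable {X A ι : Type*} [AddCommGroup X] [Group A] {d : MD X A ι} {i : ι} {u : X → ℝ}

theorem MD.r_div (d : MD X A ι) (i : ι) : MZ d.μ (fun n x => d.r i x / n) := by
  intro ε hε
  rw [Metric.tendsto_nhds]
  intro δ hδ
  obtain ⟨R₀, hR⟩ := d.tight i (δ / 2) (by positivity)
  have h1 : ∀ᶠ n : ℕ in UU, R₀ / ε < (n : ℝ) :=
    UU_le (tendsto_natCast_atTop_atTop.eventually_gt_atTop _)
  have h2 : ∀ᶠ n : ℕ in UU, 1 ≤ n := UU_le (eventually_ge_atTop 1)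
  filter_upwards [h1, h2] with n hn1 hn2
  have hn0 : (0 : ℝ) < n := by exact_mod_cast hn2
  have h3 : d.μ.m {x | ε ≤ |d.r i x / n|} ≤ d.μ.m {x | R₀ < |d.r i x|} := by
    refine d.μ.m_mono fun x hx => ?_
    have h4 : ε ≤ |d.r i x / n| := hx
    rw [abs_div, abs_of_pos hn0, le_div_iff₀ hn0] at h4
    rw [div_lt_iff₀ hε] at hn1
    show R₀ < |d.r i x|
    linarith [mul_comm ε (n : ℝ)]
  rw [Real.dist_eq, sub_zero, abs_of_nonneg (d.μ.m_nonneg _)]
  linarith

theorem Run.clamp (R : Run d i u) (hb : Bdd u) :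
    MZ d.μ (fun n x => R.G n x / n - R.q n x) := by
  refine MZ.of_off R.hE (MD.r_div d i) ?_
  have h1 : ∀ᶠ n : ℕ in UU, |d.c| ≤ (n : ℝ) :=
    UU_le (tendsto_natCast_atTop_atTop.eventually_ge_atTop _)
  have h2 : ∀ᶠ n : ℕ in UU, 1 ≤ n := UU_le (eventually_ge_atTop 1)
  filter_upwards [R.h, h1, h2] with n hn hn1 hn2 x hx
  have hn0 : (0 : ℝ) < n := by exact_mod_cast hn2
  obtain ⟨hle, -, hor⟩ := hn x hx
  have hGle : R.G n x ≤ d.r i x := hle
  have hsn := le_sn hb x
  have hsn0 := sn_nonneg u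
  have hc := neg_abs_le d.c
  have hc' := le_abs_self d.c
  have hu := neg_abs_le (u x)
  have hGge : -(sn u + 1) ≤ R.G n x / n := by
    rw [le_div_iff₀ hn0]
    rcases hor with h | h
    · have h3 : R.G n x = d.r i x := h
      have h4 := d.low i x
      rw [h3]
      nlinarith
    · have h3 : -d.c + n * u x ≤ R.G n x := h
      nlinarith
  have hq : R.q n x = min (R.G n x / n) 0 := by
    unfold Run.q
    apply max_eq_right
    apply le_min hGge
    linarith
  have hdiv : R.G n x / n ≤ d.r i x / n := div_le_div_of_nonneg_right hGle hn0.le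
  rw [hq]
  rcases le_total (R.G n x / n) 0 with h | h
  · rw [min_eq_left h, sub_self, abs_zero]
    exact abs_nonneg _
  · rw [min_eq_right h, sub_zero, abs_of_nonneg h]
    exact hdiv.trans (le_abs_self _)

end H84.PG
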