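import Pool.Agent.H84.PG.RunClamp

/-!
# Module RunComm: commutator identity for a run (VIII.7)

`nu (p h) * G n (x + p h) - G n x = [nu (p h) k_a (x + p h) - k_a x] +
nu (p h) ν_n r_j (x + p h + p a) - ν_n r_j (x + p a)`, `a = a n`, `ν_n = nu (p a) = R.v n`.  The
first bracket is `w' x + ν_n k_h (x + p a) - k_h x` with `w' ∈ W` (`d.comm`).  Divide by `n`
(`w n = w' / n`): `ν_n / n → 0` times a bounded function, a bounded function over `n`, and
`ν_n / n * r_j (x + y_n)` tends to zero in mean: given `ε`, `δ` take `R₀` with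
`m {R₀ < |r_j|} ≤ δ`; for `ν_n / n * R₀ < ε` the set `{ε ≤ |ν_n / n * r_j|}` has mean `≤ δ`.
(`MZ.trans`, `MZ.add`, `MZ.of_unif`)
-/

set_option autoImplicit false

namespace H84.PG

open Filter Topology

variable {X A ι : Type*} [AddCommGroup X] [Group A] {d : MD X A ι} {i : ι} {u : X → ℝ}

theorem runComm_v_nonneg (R : Run d i u) (n : ℕ) : 0 ≤ R.v n / n :=
  div_nonneg (d.nupos _).le (Nat.cast_nonneg n)

/-- `ν_n / n * r_j` tends to zero in mean -/
theorem runComm_r (R : Run d i u) (hv : Tendsto (fun n => R.v n / n) UU (𝓝 0)) (j : ι) :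
    MZ d.μ (fun n x => R.v n / n * d.r j x) := by
  intro ε hε
  rw [Metric.tendsto_nhds]
  intro δ hδ
  obtain ⟨R₀, hR₀⟩ := d.tight j (δ / 2) (by positivity)
  have h1 : Tendsto (fun n => R.v n / n * |R₀|) UU (𝓝 0) := by
    simpa using hv.mul_const |R₀|
  have h2 : ∀ᶠ n in UU, R.v n / n * |R₀| < ε := h1.eventually (gt_mem_nhds hε)
  filter_upwards [h2] with n hn
  rw [Real.dist_eq, sub_zero, abs_of_nonneg (d.μ.m_nonneg _)]
  have h3 : d.μ.m {x | ε ≤ |R.v n / n * d.r j x|} ≤ d.μ.m {x | R₀ < |d.r j x|} := by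
    refine d.μ.m_mono fun x hx => ?_
    show R₀ < |d.r j x|
    by_contra hcon
    push Not at hcon
    have h4 : ε ≤ |R.v n / n * d.r j x| := hx
    rw [abs_mul, abs_of_nonneg (runComm_v_nonneg R n)] at h4
    have h5 : R.v n / n * |d.r j x| ≤ R.v n / n * |R₀| :=
      mul_le_mul_of_nonneg_left (hcon.trans (le_abs_self R₀)) (runComm_v_nonneg R n)
    linarith
  linarith

theorem Run.comm (R : Run d i u) (hv : Tendsto (fun n => R.v n / n) UU (𝓝 0)) (h : A) :
    ∃ w : ℕ → X → ℝ, (∀ n, w n ∈ d.W) ∧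
      MZ d.μ (fun n x => (d.nu (d.p h) * R.G n (x + d.p h) - R.G n x) / n - w n x) := by
  refine ⟨fun n => (1 / (n : ℝ)) • fun x => d.nu (d.p h) * d.k (R.a n) (x + d.p h) -
    d.k (R.a n) x - (d.nu (d.p (R.a n)) * d.k h (x + d.p (R.a n)) - d.k h x), fun n => ?_, ?_⟩
  · exact d.W.smul_mem _ (d.comm h (R.a n))
  obtain ⟨C, hC⟩ := d.kbd h
  have hn0 : Tendsto (fun n : ℕ => C / (n : ℝ)) UU (𝓝 0) :=
    (tendsto_const_div_atTop_nhds_zero_nat C).mono_left UU_le
  have h1 : MZ d.μ (fun n x => R.v n / n * d.k h (x + d.p (R.a n))) := by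
    refine MZ.of_unif (e := fun n => R.v n / n * C) (by simpa using hv.mul_const C)
      (Eventually.of_forall fun n x => ?_)
    rw [abs_mul, abs_of_nonneg (runComm_v_nonneg R n)]
    exact mul_le_mul_of_nonneg_left (hC _) (runComm_v_nonneg R n)
  have h2 : MZ d.μ (fun n x => d.k h x / n) := by
    refine MZ.of_unif (e := fun n => C / n) hn0 (Eventually.of_forall fun n x => ?_)
    rw [abs_div, Nat.abs_cast]
    exact div_le_div_of_nonneg_right (hC x) (Nat.cast_nonneg n)
  have h3 : MZ d.μ (fun n x => R.v n / n * d.r R.j (x + (d.p h + d.p (R.a n)))) :=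
    (runComm_r R hv R.j).trans fun n => d.p h + d.p (R.a n)
  have h4 : MZ d.μ (fun n x => R.v n / n * d.r R.j (x + d.p (R.a n))) :=
    (runComm_r R hv R.j).trans fun n => d.p (R.a n)
  have h5 := ((h1.sub h2).add (h3.smul (d.nu (d.p h)))).sub h4
  refine h5.congr (Eventually.of_forall fun n x => ?_)
  simp only [Run.G, Run.v, Pi.smul_apply, smul_eq_mul, add_assoc]
  ring

end H84.PG
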