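import Pool.Agent.H84.PG.RunQ
import Pool.Agent.H84.PG.Pigeon
import Pool.Agent.H84.PG.FiMult

/-!
# Module RunLam: almost equivariance of `q n`, a subgroup of finite index (VIII.7)

Let `Λ = {y | MZ (nu y * q n (x + y) - q n x)}`.  It is a subgroup: for `y`, `y'`:
`nu (y + y') q (x + y + y') - q x = nu y' [nu y q (x + y' + y) - q (x + y')] + [nu y' q (x + y') - q x]`
(`d.numul`, `MZ.trans`, `MZ.smul`, `MZ.add`); for `-y` multiply the translate by `- nu (-y)`;
`nu 0 = 1`.  For every `y` there is `j > 0` with `m {x | 0 < u x ∧ 0 < u (x + j • y)} > 0`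
(`pigeon` with `Y = {0 < u}`, `δ = m Y`), so `j • y ∈ Λ` by `Run.q_inv`.  `fi_of_mult`.
-/

set_option autoImplicit false

namespace H84.PG

open Filter Topology

variable {X A ι : Type*} [AddCommGroup X] [Group A] {d : MD X A ι} {i : ι} {u : X → ℝ}

theorem Run.lam (hX : AddGroup.FG X) (R : Run d i u) (hu : u ∈ d.WZ) (h0 : u ≠ 0)
    (hv : Tendsto (fun n => R.v n / n) UU (𝓝 0)) (hpos : 0 < d.μ.m {x | 0 < u x}) :
    ∃ Λ : AddSubgroup X, Λ.FiniteIndex ∧
      ∀ y ∈ Λ, MZ d.μ (fun n x => d.nu y * R.q n (x + y) - R.q n x) := by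
  have hnu0 : d.nu 0 = 1 := by
    have h := d.numul 0 0
    rw [add_zero] at h
    have h1 := d.nupos 0
    nlinarith [h, h1]
  let Λ : AddSubgroup X :=
    { carrier := {y | MZ d.μ (fun n x => d.nu y * R.q n (x + y) - R.q n x)}
      zero_mem' := by
        show MZ d.μ (fun n x => d.nu 0 * R.q n (x + 0) - R.q n x)
        refine MZ.zero.congr (Eventually.of_forall fun n x => ?_)
        rw [hnu0, add_zero, one_mul, sub_self]
      add_mem' := by
        intro y y' hy hy'
        show MZ d.μ (fun n x => d.nu (y + y') * R.q n (x + (y + y')) - R.q n x)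
        have h1 := ((MZ.trans hy (fun _ => y')).smul (d.nu y')).add hy'
        refine h1.congr (Eventually.of_forall fun n x => ?_)
        rw [d.numul, show x + (y + y') = x + y' + y by abel]
        ring
      neg_mem' := by
        intro y hy
        show MZ d.μ (fun n x => d.nu (-y) * R.q n (x + -y) - R.q n x)
        have h1 := (MZ.trans hy (fun _ => -y)).smul (-d.nu (-y))
        refine h1.congr (Eventually.of_forall fun n x => ?_)
        have h2 : d.nu (-y) * d.nu y = 1 := by
          rw [← d.numul, neg_add_cancel, hnu0]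
        have h3 : x + -y + y = x := by abel
        rw [h3]
        linear_combination (R.q n x) * h2 }
  refine ⟨Λ, fi_of_mult hX Λ fun y => ?_, fun y hy => hy⟩
  obtain ⟨J, δ', hδ', hp⟩ := pigeon d.μ (d.μ.m {x | 0 < u x}) hpos
  obtain ⟨j, hj, _, hj2⟩ := hp {x | 0 < u x} le_rfl y
  exact ⟨j, hj, Run.q_inv hX R hu h0 hv (j • y) (lt_of_lt_of_le hδ' hj2)⟩

end H84.PG
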