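import Pool.Agent.H84.PG.RunLam
import Pool.Agent.H84.PG.InvFun

/-!
# Module RunOne: the estimate in the case `nu = 1` (VIII.7)

`R.v n = 1`, so `R.v n / n → 0` (`UU_le`).  Take `Λ` from `Run.lam`.  For bounded `f` the sequence
`L (f * q n)` is bounded (by `sn f * (sn u + 1)`), let `l f` be its limit along `UU` (`UU_lim`;
define `l` by `limUnder` or by choice).  `l` is additive and homogeneous on `W`; for `y ∈ Λ`
`L (T_y f * q n) = L (f * T_{-y} (q n))` and `T_{-y} q n - q n → 0` in mean (`nu = 1`, `MZ.trans`),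
so `l (T_y f) = l f` (`MZ.mul_bdd`, `MZ.L`).  `inv_fun`: `l = c L` on `W`, so `l w = 0`:
`L (w * q n) → 0`.  `L (u * q n) = L (w * q n) + L ((u - w) * q n)` and the last term is
`≤ sn (u - w) (sn u + 1)` in absolute value.  On the other hand
`u * q n = u * q n * 1_{u > 0} + u * q n * 1_{u ≤ 0}`; `L` of the first term tends to zero
(`Run.q_pos`, `MZ.mul_bdd`, `MZ.L`), the second is `≥ 0` and `≥ η (η / 2)` on
`{x ∈ Sg, u x < -η} \ E n` (`Run.q_neg`).  Let `n → ∞` along `UU` (`ge_of_tendsto`).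
-/

set_option autoImplicit false

namespace H84.PG

open Filter Topology

variable {X A ι : Type*} [AddCommGroup X] [Group A] {d : MD X A ι} {i : ι} {u : X → ℝ}

private theorem RunOne_q_bdd (R : Run d i u) (n : ℕ) : Bdd (R.q n) := ⟨sn u + 1, R.q_abs n⟩

private theorem RunOne_abs (R : Run d i u) {f : X → ℝ} (hf : Bdd f) (n : ℕ) (x : X) :
    |f x * R.q n x| ≤ sn f * (sn u + 1) := by
  rw [abs_mul]
  exact mul_le_mul (le_sn hf x) (R.q_abs n x) (abs_nonneg _) (sn_nonneg f)

/-- the limit functional -/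
private noncomputable def RunOne_l (R : Run d i u) (f : X → ℝ) : ℝ :=
  limUnder UU (fun n => d.μ.L (fun x => f x * R.q n x))

private theorem RunOne_lim (R : Run d i u) {f : X → ℝ} (hf : Bdd f) :
    Tendsto (fun n => d.μ.L (fun x => f x * R.q n x)) UU (𝓝 (RunOne_l R f)) := by
  apply tendsto_nhds_limUnder
  exact UU_lim (C := sn f * (sn u + 1)) (Eventually.of_forall fun n =>
    d.μ.L_abs_le (RunOne_abs R hf n))

theorem Run.one_bound (hX : AddGroup.FG X) (R : Run d i u) (hu : u ∈ d.WZ) (h0 : u ≠ 0)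
    (hnu : ∀ y, d.nu y = 1) (hpos : 0 < d.μ.m {x | 0 < u x}) {w : X → ℝ} (hw : w ∈ d.W)
    (hLw : d.μ.L w = 0) {η : ℝ} (hη : 0 < η) :
    η ^ 2 / 2 * d.μ.m {x | x ∈ d.Sg ∧ u x < -η} ≤ sn (fun x => u x - w x) * (sn u + 1) := by
  have huW : u ∈ d.W := d.mem_W hu
  have hub : Bdd u := d.st.bdd u huW
  have hwb : Bdd w := d.st.bdd w hw
  have hK : 0 ≤ sn u + 1 := by linarith [sn_nonneg u]
  have hv : Tendsto (fun n => R.v n / n) UU (𝓝 0) := by
    have h1 : (fun n : ℕ => R.v n / n) = fun n : ℕ => (1 : ℝ) / n := by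
      funext n
      unfold Run.v
      rw [hnu]
    rw [h1]
    exact tendsto_one_div_atTop_nhds_zero_nat.mono_left UU_le
  obtain ⟨Λ, hΛ, hΛq⟩ := R.lam hX hu h0 hv hpos
  -- the limit functional is an invariant functional
  have hadd : ∀ f ∈ d.W, ∀ g ∈ d.W,
      RunOne_l R (fun x => f x + g x) = RunOne_l R f + RunOne_l R g := by
    intro f hf g hg
    have hfb := d.st.bdd f hf
    have hgb := d.st.bdd g hg
    refine tendsto_nhds_unique (RunOne_lim R (hfb.add hgb)) ?_
    refine ((RunOne_lim R hfb).add (RunOne_lim R hgb)).congr fun n => ?_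
    rw [← d.μ.add _ _ (hfb.mul (RunOne_q_bdd R n)) (hgb.mul (RunOne_q_bdd R n))]
    congr 1
    funext x
    ring
  have hsmul : ∀ (c : ℝ), ∀ f ∈ d.W, RunOne_l R (fun x => c * f x) = c * RunOne_l R f := by
    intro c f hf
    have hfb := d.st.bdd f hf
    refine tendsto_nhds_unique (RunOne_lim R (hfb.smul c)) ?_
    refine ((RunOne_lim R hfb).const_mul c).congr fun n => ?_
    rw [← d.μ.smul _ _ (hfb.mul (RunOne_q_bdd R n))]
    congr 1
    funext x
    ring
  have hinv : ∀ y ∈ Λ, ∀ f ∈ d.W, RunOne_l R (fun x => f (x + y)) = RunOne_l R f := by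
    intro y hy f hf
    have hfb := d.st.bdd f hf
    have hfy : Bdd (fun x => f (x + y)) := hfb.trans y
    refine tendsto_nhds_unique (RunOne_lim R hfy) ?_
    have h1 : MZ d.μ (fun n x => f (x + y) * (d.nu y * R.q n (x + y) - R.q n x)) :=
      MZ.mul_bdd (K := sn fun x => f (x + y)) (b := fun _ x => f (x + y))
        (Eventually.of_forall fun n x => le_sn hfy x) (hΛq y hy)
    have h2 : Tendsto (fun n => d.μ.L
        (fun x => f (x + y) * (d.nu y * R.q n (x + y) - R.q n x))) UU (𝓝 0) := by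
      refine MZ.L (K := (sn fun x => f (x + y)) * (2 * (sn u + 1)))
        (Eventually.of_forall fun n x => ?_) h1
      rw [abs_mul]
      refine mul_le_mul (le_sn hfy x) ?_ (abs_nonneg _) (sn_nonneg _)
      rw [hnu, one_mul]
      refine (abs_sub _ _).trans ?_
      have h3 := R.q_abs n (x + y)
      have h4 := R.q_abs n x
      linarith
    have h5 := (RunOne_lim R hfb).sub h2
    rw [sub_zero] at h5
    refine h5.congr fun n => ?_
    have h6 : d.μ.L (fun x => f x * R.q n x) = d.μ.L (fun x => f (x + y) * R.q n (x + y)) :=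
      (d.μ.trans (fun x => f x * R.q n x) y (hfb.mul (RunOne_q_bdd R n))).symm
    have h7 : Bdd (fun x => R.q n (x + y)) := (RunOne_q_bdd R n).trans y
    have h8 : Bdd (fun x => d.nu y * R.q n (x + y) - R.q n x) :=
      (h7.smul (d.nu y)).sub (RunOne_q_bdd R n)
    rw [h6, ← d.μ.L_sub (hfy.mul h7) (hfy.mul h8)]
    congr 1
    funext x
    rw [hnu]
    ring
  obtain ⟨c, hc, -⟩ := inv_fun hX d.μ d.st Λ hΛ (RunOne_l R) hadd hsmul hinv
  have hlw : RunOne_l R w = 0 := by rw [hc w hw, hLw, mul_zero]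
  have hwq : Tendsto (fun n => d.μ.L (fun x => w x * R.q n x)) UU (𝓝 0) := by
    have := RunOne_lim R hwb
    rwa [hlw] at this
  -- the part on `{0 < u}`
  have hP : Tendsto (fun n => d.μ.L (fun x => u x * {x | 0 < u x}.indicator (R.q n) x)) UU
      (𝓝 0) := by
    have h1 : MZ d.μ (fun n x => u x * {x | 0 < u x}.indicator (R.q n) x) :=
      MZ.mul_bdd (K := sn u) (b := fun _ x => u x)
        (Eventually.of_forall fun n x => le_sn hub x) (R.q_pos hX hu h0)
    refine MZ.L (K := sn u * (sn u + 1)) (Eventually.of_forall fun n x => ?_) h1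
    rw [abs_mul]
    refine mul_le_mul (le_sn hub x) ?_ (abs_nonneg _) (sn_nonneg _)
    by_cases hx : x ∈ {x | 0 < u x}
    · rw [Set.indicator_of_mem hx]
      exact R.q_abs n x
    · rw [Set.indicator_of_notMem hx, abs_zero]
      exact hK
  -- the estimate for one `n`
  have hdb : Bdd (fun x => u x - w x) := hub.sub hwb
  have hmain : ∀ᶠ n in UU, η ^ 2 / 2 * (d.μ.m {x | x ∈ d.Sg ∧ u x < -η} - d.μ.m (R.E n)) ≤
      d.μ.L (fun x => w x * R.q n x) + sn (fun x => u x - w x) * (sn u + 1) -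
        d.μ.L (fun x => u x * {x | 0 < u x}.indicator (R.q n) x) := by
    filter_upwards [R.q_neg hub hη] with n hn
    have hqb := RunOne_q_bdd R n
    have hI : Bdd (fun x => u x * {x | 0 < u x}.indicator (R.q n) x) :=
      hub.mul (hqb.indicator _)
    have hrest : Bdd (fun x => u x * R.q n x - u x * {x | 0 < u x}.indicator (R.q n) x) :=
      (hub.mul hqb).sub hI
    have h1 : η ^ 2 / 2 * d.μ.m ({x | x ∈ d.Sg ∧ u x < -η} \ R.E n) ≤
        d.μ.L (fun x => u x * R.q n x - u x * {x | 0 < u x}.indicator (R.q n) x) := by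
      refine d.μ.L_lower hrest (fun x => ?_) (fun x hx => ?_)
      · by_cases hx : x ∈ {x | 0 < u x}
        · rw [Set.indicator_of_mem hx, sub_self]
        · rw [Set.indicator_of_notMem hx, mul_zero, sub_zero]
          have h2 : u x ≤ 0 := not_lt.mp hx
          exact mul_nonneg_of_nonpos_of_nonpos h2 (R.q_le n x)
      · obtain ⟨⟨hxS, hxu⟩, hxE⟩ := hx
        have h2 : x ∉ {x | 0 < u x} := by
          intro h3
          have h4 : 0 < u x := h3
          linarith
        rw [Set.indicator_of_notMem h2, mul_zero, sub_zero]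
        have h3 := hn x hxE hxS hxu
        nlinarith
    have h2 := d.μ.m_diff {x | x ∈ d.Sg ∧ u x < -η} (R.E n)
    have h3 : η ^ 2 / 2 * (d.μ.m {x | x ∈ d.Sg ∧ u x < -η} - d.μ.m (R.E n)) ≤
        η ^ 2 / 2 * d.μ.m ({x | x ∈ d.Sg ∧ u x < -η} \ R.E n) :=
      mul_le_mul_of_nonneg_left h2 (by positivity)
    rw [d.μ.L_sub (hub.mul hqb) hI] at h1
    have h4 : d.μ.L (fun x => u x * R.q n x) =
        d.μ.L (fun x => w x * R.q n x) + d.μ.L (fun x => (u x - w x) * R.q n x) := by
      rw [← d.μ.add _ _ (hwb.mul hqb) (hdb.mul hqb)]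
      congr 1
      funext x
      ring
    have h5 : d.μ.L (fun x => (u x - w x) * R.q n x) ≤ sn (fun x => u x - w x) * (sn u + 1) :=
      (le_abs_self _).trans (d.μ.L_abs_le (RunOne_abs R hdb n))
    linarith
  have hl : Tendsto (fun n => η ^ 2 / 2 * (d.μ.m {x | x ∈ d.Sg ∧ u x < -η} - d.μ.m (R.E n))) UU
      (𝓝 (η ^ 2 / 2 * (d.μ.m {x | x ∈ d.Sg ∧ u x < -η} - 0))) :=
    (tendsto_const_nhds.sub R.hE).const_mul _
  have hr : Tendsto (fun n => d.μ.L (fun x => w x * R.q n x) +
      sn (fun x => u x - w x) * (sn u + 1) -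
        d.μ.L (fun x => u x * {x | 0 < u x}.indicator (R.q n) x)) UU
      (𝓝 (0 + sn (fun x => u x - w x) * (sn u + 1) - 0)) :=
    (hwq.add tendsto_const_nhds).sub hP
  have hfin := le_of_tendsto_of_tendsto hl hr hmain
  simpa using hfin

end H84.PG
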