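import Pool.Agent.H84.PG.SmallUnif
import Pool.Agent.H84.PG.MZB

/-!
# Module SmallCor: consequences of the small value estimate

* `zero_of_small`: otherwise `small_pt` with `δ = c0 / 2`.
* `m_zero_set`: the set is contained in `{x | |w x| < η}` for every `η > 0`; `small_pt`.
* `MZ_W`: let `δ = m Y / 2`, `η` from `small_unif`.  If `sn (w n)` does not tend to `0` along
  `UU`, then `sn (w n) ≥ ε` for almost all `n` (`UU_not`), and `m {x | |w n x| < η ε} ≤ m Y / 2`,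
  but `MZ.small_on` gives `m (Y ∩ {x | |w n x| < η ε}) > m Y / 2`.
* `exists_gt`: `m (Y ∩ {0 < w}) ≤ m (Y ∩ {η < w}) + m {|w| < 2 η}` and `small_pt`.
* `exists_lt`: apply `exists_gt` to `- w`.
* `sn_bdd_of`: let `η` be as in `small_unif` for `δ = c0 / 2`; if `R < η sn (w n)` then
  `{x | |w n x| ≤ R}` has mean `≤ c0 / 2`; so `sn (w n) ≤ R / η`.
* `pos_conv`: the sets are contained in `{x | |v x| ≤ sn (u n - v)}`, `small_pt` for `v`.
-/

set_option autoImplicit false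

namespace H84.PG

open Filter Topology

variable {X : Type*} [AddCommGroup X]

theorem zero_of_small (hX : AddGroup.FG X) (μ : Mean X) {W : Submodule ℝ (X → ℝ)}
    (hW : Stab W) {w : X → ℝ} (hw : w ∈ W) {c0 : ℝ} (hc : 0 < c0)
    (h : ∀ ε > 0, c0 ≤ μ.m {x | |w x| < ε}) : w = 0 := by
  by_contra h0
  obtain ⟨η, hη, hle⟩ := small_pt hX μ hW hw h0 (δ := c0 / 2) (by positivity)
  have h1 := h η hη
  linarith

theorem m_zero_set (hX : AddGroup.FG X) (μ : Mean X) {W : Submodule ℝ (X → ℝ)}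
    (hW : Stab W) {w : X → ℝ} (hw : w ∈ W) (h0 : w ≠ 0) : μ.m {x | w x = 0} = 0 := by
  refine le_antisymm (le_of_forall_pos_le_add fun δ hδ => ?_) (μ.m_nonneg _)
  obtain ⟨η, hη, hle⟩ := small_pt hX μ hW hw h0 hδ
  rw [zero_add]
  refine (μ.m_mono fun x hx => ?_).trans hle
  have h1 : w x = 0 := hx
  show |w x| < η
  rw [h1, abs_zero]
  exact hη

theorem MZ_W (hX : AddGroup.FG X) (μ : Mean X) {W : Submodule ℝ (X → ℝ)} (hW : Stab W)
    {w : ℕ → X → ℝ} (hw : ∀ᶠ n in UU, w n ∈ W) {Y : Set X} (hY : 0 < μ.m Y)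
    (h : MZ μ (fun n => Y.indicator (w n))) : Tendsto (fun n => sn (w n)) UU (𝓝 0) := by
  obtain ⟨η, hη, hle⟩ := small_unif hX μ hW (δ := μ.m Y / 2) (by positivity)
  rw [Metric.tendsto_nhds]
  intro ε hε
  by_contra hcon
  have h1 := UU_not hcon
  have h2 := MZ.small_on h (ε := η * ε) (δ := μ.m Y / 2) (by positivity) (by linarith)
  obtain ⟨n, hn1, hn2, hn3⟩ := (h1.and (h2.and hw)).exists
  rw [Real.dist_eq, sub_zero, abs_of_nonneg (sn_nonneg _), not_lt] at hn1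
  have h3 : μ.m (Y ∩ {x | |w n x| < η * ε}) ≤ μ.m {x | |w n x| < η * sn (w n)} := by
    refine μ.m_mono fun x hx => ?_
    have h4 : |w n x| < η * ε := hx.2
    exact h4.trans_le (mul_le_mul_of_nonneg_left hn1 hη.le)
  have h5 := hle _ hn3
  linarith

theorem exists_gt_of (hX : AddGroup.FG X) (μ : Mean X) {W : Submodule ℝ (X → ℝ)}
    (hW : Stab W) {w : X → ℝ} (hw : w ∈ W) {Y : Set X} (h : 0 < μ.m {x | x ∈ Y ∧ 0 < w x}) :
    ∃ η > 0, 0 < μ.m {x | x ∈ Y ∧ η < w x} := by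
  by_cases h0 : w = 0
  · exfalso
    have h1 : {x | x ∈ Y ∧ 0 < w x} = ∅ := by
      ext x
      simp [h0]
    rw [h1, μ.m_empty] at h
    exact lt_irrefl _ h
  obtain ⟨η, hη, hle⟩ := small_pt hX μ hW hw h0 (δ := μ.m {x | x ∈ Y ∧ 0 < w x} / 2)
    (by positivity)
  refine ⟨η / 2, by positivity, ?_⟩
  have h1 : μ.m {x | x ∈ Y ∧ 0 < w x} ≤
      μ.m ({x | x ∈ Y ∧ η / 2 < w x} ∪ {x | |w x| < η}) := by
    refine μ.m_mono fun x hx => ?_
    by_cases h2 : η / 2 < w x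
    · exact Or.inl ⟨hx.1, h2⟩
    · refine Or.inr (show |w x| < η from ?_)
      rw [abs_of_pos hx.2]
      push Not at h2
      linarith
  have h2 := μ.m_union_le {x | x ∈ Y ∧ η / 2 < w x} {x | |w x| < η}
  linarith

theorem exists_lt_of (hX : AddGroup.FG X) (μ : Mean X) {W : Submodule ℝ (X → ℝ)}
    (hW : Stab W) {w : X → ℝ} (hw : w ∈ W) {Y : Set X} (h : 0 < μ.m {x | x ∈ Y ∧ w x < 0}) :
    ∃ η > 0, 0 < μ.m {x | x ∈ Y ∧ w x < -η} := by
  have h1 : 0 < μ.m {x | x ∈ Y ∧ 0 < (-w) x} := by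
    have h2 : {x | x ∈ Y ∧ 0 < (-w) x} = {x | x ∈ Y ∧ w x < 0} := by
      ext x
      simp
    rw [h2]
    exact h
  obtain ⟨η, hη, hlt⟩ := exists_gt_of hX μ hW (W.neg_mem hw) h1
  refine ⟨η, hη, ?_⟩
  have h2 : {x | x ∈ Y ∧ w x < -η} = {x | x ∈ Y ∧ η < (-w) x} := by
    ext x
    simp only [Set.mem_ofPred_eq, Pi.neg_apply]
    constructor
    · rintro ⟨h3, h4⟩
      exact ⟨h3, by linarith⟩
    · rintro ⟨h3, h4⟩
      exact ⟨h3, by linarith⟩
  rw [h2]
  exact hlt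

theorem sn_bdd_of (hX : AddGroup.FG X) (μ : Mean X) {W : Submodule ℝ (X → ℝ)} (hW : Stab W)
    {w : ℕ → X → ℝ} {c0 R : ℝ} (hc : 0 < c0)
    (h : ∀ᶠ n in UU, w n ∈ W ∧ c0 ≤ μ.m {x | |w n x| ≤ R}) :
    ∃ C : ℝ, ∀ᶠ n in UU, sn (w n) ≤ C := by
  obtain ⟨η, hη, hle⟩ := small_unif hX μ hW (δ := c0 / 2) (by positivity)
  refine ⟨R / η, ?_⟩
  filter_upwards [h] with n hn
  by_contra hcon
  push Not at hcon
  rw [div_lt_iff₀ hη] at hcon
  have h1 : μ.m {x | |w n x| ≤ R} ≤ μ.m {x | |w n x| < η * sn (w n)} := by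
    refine μ.m_mono fun x hx => ?_
    have h2 : |w n x| ≤ R := hx
    show |w n x| < η * sn (w n)
    linarith
  have h3 := hle _ hn.1
  linarith [hn.2]

theorem pos_conv (hX : AddGroup.FG X) (μ : Mean X) {W : Submodule ℝ (X → ℝ)} (hW : Stab W)
    {u : ℕ → X → ℝ} {v : X → ℝ} (hu : ∀ᶠ n in UU, u n ∈ W) (hv : v ∈ W) (h0 : v ≠ 0)
    (h : Tendsto (fun n => sn (fun x => u n x - v x)) UU (𝓝 0)) :
    Tendsto (fun n => μ.m {x | 0 < v x ∧ u n x ≤ 0}) UU (𝓝 0) ∧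
      Tendsto (fun n => μ.m {x | v x ≤ 0 ∧ 0 < u n x}) UU (𝓝 0) := by
  have hb := hW.bdd
  have key : ∀ δ > 0, ∀ᶠ n in UU, μ.m {x | |v x| ≤ sn (fun x => u n x - v x)} ≤ δ := by
    intro δ hδ
    obtain ⟨η, hη, hle⟩ := small_pt hX μ hW hv h0 hδ
    filter_upwards [h.eventually (gt_mem_nhds hη)] with n hn
    refine (μ.m_mono fun x hx => ?_).trans hle
    have h1 : |v x| ≤ sn (fun x => u n x - v x) := hx
    exact h1.trans_lt hn
  have hlim : Tendsto (fun n => μ.m {x | |v x| ≤ sn (fun x => u n x - v x)}) UU (𝓝 0) := by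
    rw [Metric.tendsto_nhds]
    intro ε hε
    filter_upwards [key (ε / 2) (by positivity)] with n hn
    rw [Real.dist_eq, sub_zero, abs_of_nonneg (μ.m_nonneg _)]
    linarith
  constructor
  · refine squeeze_zero' (Eventually.of_forall fun n => μ.m_nonneg _) ?_ hlim
    filter_upwards [hu] with n hn
    refine μ.m_mono fun x hx => ?_
    have h1 : |u n x - v x| ≤ sn (fun x => u n x - v x) :=
      le_sn ((hb _ hn).sub (hb _ hv)) x
    have h2 : 0 < v x := hx.1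
    have h3 : u n x ≤ 0 := hx.2
    have h4 := neg_abs_le (u n x - v x)
    show |v x| ≤ sn (fun x => u n x - v x)
    rw [abs_of_pos h2]
    linarith
  · refine squeeze_zero' (Eventually.of_forall fun n => μ.m_nonneg _) ?_ hlim
    filter_upwards [hu] with n hn
    refine μ.m_mono fun x hx => ?_
    have h1 : |u n x - v x| ≤ sn (fun x => u n x - v x) :=
      le_sn ((hb _ hn).sub (hb _ hv)) x
    have h2 : v x ≤ 0 := hx.1
    have h3 : 0 < u n x := hx.2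
    have h4 := le_abs_self (u n x - v x)
    show |v x| ≤ sn (fun x => u n x - v x)
    rw [abs_of_nonpos h2]
    linarith

end H84.PG
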