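import Pool.Agent.H84.PG.RunEx
import Pool.Agent.H84.PG.SmallCor

/-!
# Module RunPos: `G n = r i` on `{u > 0}` up to small sets (VIII.6)

Given `δ > 0` take `R₀` with `m {R₀ < |r i|} ≤ δ` (`d.tight`) and `η > 0` with
`m {|u| < η} ≤ δ` (`small_pt`).  For `n` with `n η - c > R₀`: if `0 < u x`, `G n x ≠ r i x`,
`x ∉ E n` then `-c + n u x ≤ G n x ≤ r i x`, so `|u x| < η` or `R₀ < |r i x|`.  So the mean of the
set is `≤ m (E n) + 2 δ` for large `n`.
-/

set_option autoImplicit false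

namespace H84.PG

open Filter Topology

variable {X A ι : Type*} [AddCommGroup X] [Group A] {d : MD X A ι} {i : ι} {u : X → ℝ}

theorem Run.pos (hX : AddGroup.FG X) (R : Run d i u) (hu : u ∈ d.WZ) (h0 : u ≠ 0) :
    Tendsto (fun n => d.μ.m {x | 0 < u x ∧ R.G n x ≠ d.r i x}) UU (𝓝 0) := by
  rw [Metric.tendsto_nhds]
  intro ε hε
  obtain ⟨R₀, hR₀⟩ := d.tight i (ε / 4) (by positivity)
  obtain ⟨η, hη, hsm⟩ := small_pt hX d.μ d.st (d.mem_W hu) h0 (δ := ε / 4) (by positivity)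
  have hE : ∀ᶠ n in UU, d.μ.m (R.E n) < ε / 4 :=
    R.hE.eventually (gt_mem_nhds (by positivity))
  have hn : ∀ᶠ n : ℕ in UU, (R₀ + d.c + 1) / η ≤ (n : ℝ) := by
    refine UU_le ?_
    filter_upwards [eventually_ge_atTop ⌈(R₀ + d.c + 1) / η⌉₊] with n hn
    exact (Nat.le_ceil _).trans (by exact_mod_cast hn)
  filter_upwards [hE, hn, R.h] with n h1 h2 h3
  rw [Real.dist_eq, sub_zero, abs_of_nonneg (d.μ.m_nonneg _)]
  have h4 : {x | 0 < u x ∧ R.G n x ≠ d.r i x} ⊆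
      R.E n ∪ ({x | |u x| < η} ∪ {x | R₀ < |d.r i x|}) := by
    rintro x ⟨hx1, hx2⟩
    by_cases hxE : x ∈ R.E n
    · exact Or.inl hxE
    refine Or.inr ?_
    by_cases hxu : |u x| < η
    · exact Or.inl hxu
    refine Or.inr ?_
    obtain ⟨h5, _, h6⟩ := h3 x hxE
    have h7 : -d.c + n * u x ≤ d.r i x := by
      rcases h6 with h6 | h6
      · exact absurd h6 hx2
      · exact h6.trans h5
    rw [abs_of_pos hx1] at hxu
    push Not at hxu
    have h8 : (R₀ + d.c + 1) ≤ n * η := (div_le_iff₀ hη).mp h2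
    have h9 : (n : ℝ) * η ≤ n * u x := mul_le_mul_of_nonneg_left hxu (Nat.cast_nonneg n)
    show R₀ < |d.r i x|
    have h10 := le_abs_self (d.r i x)
    linarith
  have h5 := d.μ.m_mono h4
  have h6 := d.μ.m_union_le (R.E n) ({x | |u x| < η} ∪ {x | R₀ < |d.r i x|})
  have h7 := d.μ.m_union_le {x | |u x| < η} {x | R₀ < |d.r i x|}
  linarith

end H84.PG
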