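import Pool.Agent.H84.PG.RunComm
import Pool.Agent.H84.PG.RunPos

/-!
# Module RunQ: almost equivariance of `q n`, one translation (VIII.7)

Take `h` with `p h = y` (`d.psurj`) and `w` from `Run.comm`.  By `Run.clamp` (and its translate,
`MZ.trans`) `nu y * q n (x + y) - q n x - w n x` tends to zero in mean.  On `{u > 0}` `q n`
tends to zero in mean: `G n = r i` there up to small sets (`Run.pos`), `r i / n → 0` in mean
(`MD.r_div`), and `|q n| ≤ |G n / n| + |G n / n - q n|`.  So on
`Y = {x | 0 < u x ∧ 0 < u (x + y)}` both `q n x` and `q n (x + y)` tend to zero in mean, hence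
`Y.indicator (w n)` too, and `sn (w n) → 0` by `MZ_W`.  Hence the claim (`MZ.of_unif`).
-/

set_option autoImplicit false

namespace H84.PG

open Filter Topology

variable {X A ι : Type*} [AddCommGroup X] [Group A] {d : MD X A ι} {i : ι} {u : X → ℝ}

theorem Run.q_pos_aux (hX : AddGroup.FG X) (R : Run d i u) (hu : u ∈ d.WZ) (h0 : u ≠ 0) :
    MZ d.μ (fun n => {x | 0 < u x}.indicator (R.q n)) := by
  have hb : Bdd u := d.st.bdd u (d.mem_W hu)
  refine MZ.of_off (R.pos hX hu h0) ((d.r_div i).sub (R.clamp hb))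
    (Eventually.of_forall fun n x hx => ?_)
  by_cases h1 : 0 < u x
  · have h2 : R.G n x = d.r i x := by
      by_contra h3
      exact hx ⟨h1, h3⟩
    rw [Set.indicator_of_mem (show x ∈ {x | 0 < u x} from h1), h2]
    apply le_of_eq
    congr 1
    ring
  · rw [Set.indicator_of_notMem (show x ∉ {x | 0 < u x} from h1), abs_zero]
    exact abs_nonneg _

theorem Run.q_inv (hX : AddGroup.FG X) (R : Run d i u) (hu : u ∈ d.WZ) (h0 : u ≠ 0)
    (hv : Tendsto (fun n => R.v n / n) UU (𝓝 0)) (y : X)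
    (hy : 0 < d.μ.m {x | 0 < u x ∧ 0 < u (x + y)}) :
    MZ d.μ (fun n x => d.nu y * R.q n (x + y) - R.q n x) := by
  have hb : Bdd u := d.st.bdd u (d.mem_W hu)
  obtain ⟨h, rfl⟩ := d.psurj y
  obtain ⟨w, hwW, hwc⟩ := R.comm hv h
  have hC := R.clamp hb
  have hCt := hC.trans (fun _ => d.p h)
  have hD : MZ d.μ (fun n x => d.nu (d.p h) * R.q n (x + d.p h) - R.q n x - w n x) := by
    refine ((hwc.sub (hCt.smul (d.nu (d.p h)))).add hC).congr
      (Eventually.of_forall fun n x => ?_)
    ring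
  have hq := R.q_pos_aux hX hu h0
  have hqt := hq.trans (fun _ => d.p h)
  have hY1 : MZ d.μ (fun n => {x | 0 < u x ∧ 0 < u (x + d.p h)}.indicator (R.q n)) := by
    refine hq.mono (Eventually.of_forall fun n x => ?_)
    by_cases hx : x ∈ {x | 0 < u x ∧ 0 < u (x + d.p h)}
    · rw [Set.indicator_of_mem hx, Set.indicator_of_mem (show x ∈ {x | 0 < u x} from hx.1)]
    · rw [Set.indicator_of_notMem hx, abs_zero]
      exact abs_nonneg _
  have hY2 : MZ d.μ (fun n => {x | 0 < u x ∧ 0 < u (x + d.p h)}.indicator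
      (fun x => R.q n (x + d.p h))) := by
    refine hqt.mono (Eventually.of_forall fun n x => ?_)
    by_cases hx : x ∈ {x | 0 < u x ∧ 0 < u (x + d.p h)}
    · rw [Set.indicator_of_mem hx,
        Set.indicator_of_mem (show x + d.p h ∈ {x | 0 < u x} from hx.2)]
    · rw [Set.indicator_of_notMem hx, abs_zero]
      exact abs_nonneg _
  have hYw : MZ d.μ (fun n => {x | 0 < u x ∧ 0 < u (x + d.p h)}.indicator (w n)) := by
    refine (((hY2.smul (d.nu (d.p h))).sub hY1).sub
      (hD.ind (fun _ => {x | 0 < u x ∧ 0 < u (x + d.p h)}))).congr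
      (Eventually.of_forall fun n x => ?_)
    by_cases hx : x ∈ {x | 0 < u x ∧ 0 < u (x + d.p h)}
    · simp only [Set.indicator_of_mem hx]
      ring
    · simp only [Set.indicator_of_notMem hx]
      ring
  have hsn := MZ_W hX d.μ d.st (Eventually.of_forall hwW) hy hYw
  have hw : MZ d.μ w := MZ.of_unif hsn (Eventually.of_forall fun n x =>
    le_sn (d.st.bdd _ (hwW n)) x)
  refine (hD.add hw).congr (Eventually.of_forall fun n x => ?_)
  ring

theorem Run.q_pos (hX : AddGroup.FG X) (R : Run d i u) (hu : u ∈ d.WZ) (h0 : u ≠ 0) :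
    MZ d.μ (fun n => {x | 0 < u x}.indicator (R.q n)) :=
  R.q_pos_aux hX hu h0

end H84.PG
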