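import Pool.Agent.H84.PG.MDefs
import Pool.Agent.H84.PG.FiMult

/-!
# Module SmAlg: small values, algebraic part (VIII.2)

For `w ∈ V` and `Λ` of finite index let `O w Λ ⊆ V` be the complex span of the translates
`T_y w = (x ↦ w (x + y))`, `y ∈ Λ`.  Choose `v ∈ V`, `v ≠ 0`, `J v` and `Λ` of finite index with
`dim O v Λ` minimal, `U = O v Λ ≠ 0`.  Let `y ∈ Λ` and `j > 0` as in `hJ` for `v` and `y`.  For
`l ∈ ℂ` let `v' = T_{j y} v - l v ∈ U`; `J v'`.  If `v' ≠ 0` then `O v' Λ ⊆ U` and by minimality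
`O v' Λ = U`; but `O v' Λ = (T_{j y} - l) U` (the operators commute), so `T_{j y} - l` is onto
and injective on `U`.  Take for `l` an eigenvalue of `T_{j y}` on `U`
(`Module.End.exists_eigenvalue`): so `v' = 0`, i.e. `v (x + j • y) = l * v x`.  The set
`Λ' = {y | ∃ l, ∀ x, v (x + y) = l * v x}` is a subgroup (`l ≠ 0` because `v ≠ 0`: translate back)
and contains a positive multiple of every element of `Λ`, hence of `X` (`Λ` has finite index);
so it has finite index by `fi_of_mult`.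
-/

set_option autoImplicit false

namespace H84.PG

open Filter Topology

/-- translation of functions -/
private def smT {X : Type*} [AddCommGroup X] (y : X) : (X → ℂ) →ₗ[ℂ] (X → ℂ) where
  toFun w := fun x => w (x + y)
  map_add' _ _ := rfl
  map_smul' _ _ := rfl

/-- span of the translates -/
private def smO {X : Type*} [AddCommGroup X] (w : X → ℂ) (Λ : AddSubgroup X) :
    Submodule ℂ (X → ℂ) :=
  Submodule.span ℂ {f | ∃ y ∈ Λ, f = smT y w}

private lemma smT_comm {X : Type*} [AddCommGroup X] (y z : X) (w : X → ℂ) :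
    smT y (smT z w) = smT z (smT y w) := by
  funext x
  show w (x + y + z) = w (x + z + y)
  congr 1
  abel

private lemma smT_add {X : Type*} [AddCommGroup X] (y z : X) (w : X → ℂ) :
    smT y (smT z w) = smT (y + z) w := by
  funext x
  show w (x + y + z) = w (x + (y + z))
  congr 1
  abel

private lemma smO_inv {X : Type*} [AddCommGroup X] (w : X → ℂ) (Λ : AddSubgroup X) (y : X)
    (hy : y ∈ Λ) : ∀ u ∈ smO w Λ, smT y u ∈ smO w Λ := by
  intro u hu
  have : smO w Λ ≤ (smO w Λ).comap (smT y) := by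
    refine Submodule.span_le.2 ?_
    rintro f ⟨z, hz, rfl⟩
    refine Submodule.subset_span ⟨y + z, Λ.add_mem hy hz, ?_⟩
    exact smT_add y z w
  exact this hu

private lemma smO_self {X : Type*} [AddCommGroup X] (w : X → ℂ) (Λ : AddSubgroup X) :
    w ∈ smO w Λ := by
  refine Submodule.subset_span ⟨0, Λ.zero_mem, ?_⟩
  funext x
  show w x = w (x + 0)
  rw [add_zero]

private lemma smO_le {X : Type*} [AddCommGroup X] (V : Submodule ℂ (X → ℂ))
    (hinv : ∀ w ∈ V, ∀ y, (fun x => w (x + y)) ∈ V) (w : X → ℂ) (hw : w ∈ V)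
    (Λ : AddSubgroup X) : smO w Λ ≤ V := by
  refine Submodule.span_le.2 ?_
  rintro f ⟨y, _, rfl⟩
  exact hinv w hw y

private lemma sm_key {X : Type*} [AddCommGroup X] (V : Submodule ℂ (X → ℂ))
    (hfd : FiniteDimensional ℂ V) (hinv : ∀ w ∈ V, ∀ y, (fun x => w (x + y)) ∈ V)
    (J : (X → ℂ) → Prop)
    (v : X → ℂ) (hv : v ∈ V) (h0 : v ≠ 0) (Λ : AddSubgroup X)
    (hmin : ∀ v' ∈ V, v' ≠ 0 → J v' →
      Module.finrank ℂ (smO v Λ) ≤ Module.finrank ℂ (smO v' Λ))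
    (y : X) (hy : y ∈ Λ) (hJ : ∀ l : ℂ, J (fun x => v (x + y) - l * v x)) :
    ∃ l : ℂ, ∀ x, v (x + y) = l * v x := by
  have hUV : smO v Λ ≤ V := smO_le V hinv v hv Λ
  have hUfd : FiniteDimensional ℂ (smO v Λ) := Submodule.finiteDimensional_of_le hUV
  have hnt : Nontrivial (smO v Λ) :=
    ⟨⟨⟨v, smO_self v Λ⟩, 0, fun h => h0 (congrArg Subtype.val h)⟩⟩
  obtain ⟨l, hl⟩ := Module.End.exists_eigenvalue
    (LinearMap.restrict (smT y) (smO_inv v Λ y hy))
  obtain ⟨u, hu⟩ := hl.exists_hasEigenvector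
  have hu0 : u ≠ 0 := hu.2
  have hu1 : LinearMap.restrict (smT y) (smO_inv v Λ y hy) u = l • u := hu.apply_eq_smul
  refine ⟨l, ?_⟩
  by_contra hcon
  set v' : X → ℂ := fun x => v (x + y) - l * v x with hv'
  have hv'0 : v' ≠ 0 := by
    intro h
    apply hcon
    intro x
    have := congrFun h x
    simp only [hv', Pi.zero_apply] at this
    exact sub_eq_zero.1 this
  have hv'eq : v' = smT y v - l • v := rfl
  have hv'U : v' ∈ smO v Λ := by
    rw [hv'eq]
    exact Submodule.sub_mem _ (smO_inv v Λ y hy v (smO_self v Λ))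
      (Submodule.smul_mem _ _ (smO_self v Λ))
  have hle : smO v' Λ ≤ smO v Λ := by
    refine Submodule.span_le.2 ?_
    rintro f ⟨z, hz, rfl⟩
    exact smO_inv v Λ z hz v' hv'U
  have heq : smO v' Λ = smO v Λ :=
    Submodule.eq_of_le_of_finrank_le hle (hmin v' (hUV hv'U) hv'0 (hJ l))
  have hle2 : smO v' Λ ≤ (smO v Λ).map (smT y - l • (LinearMap.id : (X → ℂ) →ₗ[ℂ] (X → ℂ))) := by
    refine Submodule.span_le.2 ?_
    rintro f ⟨z, hz, rfl⟩
    refine ⟨smT z v, smO_inv v Λ z hz v (smO_self v Λ), ?_⟩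
    rw [hv'eq, map_sub, map_smul, smT_comm z y v]
    rfl
  rw [heq] at hle2
  set S : (smO v Λ) →ₗ[ℂ] (smO v Λ) :=
    LinearMap.restrict (smT y) (smO_inv v Λ y hy) - l • LinearMap.id with hS
  have hsurj : Function.Surjective S := by
    rintro ⟨f, hf⟩
    obtain ⟨g, hg, hgf⟩ := hle2 hf
    refine ⟨⟨g, hg⟩, ?_⟩
    apply Subtype.ext
    exact hgf
  have hinj := LinearMap.injective_iff_surjective.2 hsurj
  apply hu0
  apply hinj
  rw [map_zero, hS, LinearMap.sub_apply, hu1]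
  simp

theorem sm_alg {X : Type*} [AddCommGroup X] (hX : AddGroup.FG X) (V : Submodule ℂ (X → ℂ))
    (hfd : FiniteDimensional ℂ V) (hinv : ∀ w ∈ V, ∀ y, (fun x => w (x + y)) ∈ V)
    (J : (X → ℂ) → Prop)
    (hJ : ∀ w, J w → ∀ y : X, ∃ j : ℕ, 0 < j ∧ ∀ l : ℂ, J (fun x => w (x + j • y) - l * w x))
    (w : X → ℂ) (hw : w ∈ V) (h0 : w ≠ 0) (hJw : J w) :
    ∃ v ∈ V, v ≠ 0 ∧ J v ∧ ∃ Λ : AddSubgroup X, Λ.FiniteIndex ∧
      ∀ y ∈ Λ, ∃ l : ℂ, ∀ x, v (x + y) = l * v x := by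
  classical
  have hex : ∃ n : ℕ, ∃ v ∈ V, v ≠ 0 ∧ J v ∧ ∃ Λ : AddSubgroup X, Λ.FiniteIndex ∧
      Module.finrank ℂ (smO v Λ) = n :=
    ⟨_, w, hw, h0, hJw, ⊤, inferInstance, rfl⟩
  obtain ⟨v, hv, hv0, hJv, Λ, hΛ, hfr⟩ := Nat.find_spec hex
  have hmin : ∀ v' ∈ V, v' ≠ 0 → J v' →
      Module.finrank ℂ (smO v Λ) ≤ Module.finrank ℂ (smO v' Λ) := by
    intro v' hv' hv'0 hJv'
    rw [hfr]
    exact Nat.find_min' hex ⟨v', hv', hv'0, hJv', Λ, hΛ, rfl⟩
  have hkey : ∀ y ∈ Λ, ∃ j : ℕ, 0 < j ∧ ∃ l : ℂ, ∀ x, v (x + j • y) = l * v x := by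
    intro y hy
    obtain ⟨j, hj, hj2⟩ := hJ v hJv y
    exact ⟨j, hj, sm_key V hfd hinv J v hv hv0 Λ hmin (j • y) (Λ.nsmul_mem hy j) hj2⟩
  obtain ⟨x0, hx0⟩ : ∃ x, v x ≠ 0 := by
    by_contra hcon
    push Not at hcon
    exact hv0 (funext hcon)
  let Λ' : AddSubgroup X :=
    { carrier := {y | ∃ l : ℂ, ∀ x, v (x + y) = l * v x}
      zero_mem' := ⟨1, fun x => by rw [add_zero, one_mul]⟩
      add_mem' := by
        rintro y z ⟨l, hl⟩ ⟨m, hm⟩
        refine ⟨m * l, fun x => ?_⟩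
        rw [← add_assoc, hm, hl]
        ring
      neg_mem' := by
        rintro y ⟨l, hl⟩
        have hl0 : l ≠ 0 := by
          rintro rfl
          apply hx0
          have := hl (x0 - y)
          rw [sub_add_cancel, zero_mul] at this
          exact this
        refine ⟨l⁻¹, fun x => ?_⟩
        have := hl (x + -y)
        rw [neg_add_cancel_right] at this
        rw [this, ← mul_assoc, inv_mul_cancel₀ hl0, one_mul] }
  refine ⟨v, hv, hv0, hJv, Λ', ?_, fun y hy => hy⟩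
  refine fi_of_mult hX Λ' fun y => ?_
  obtain ⟨k, hk, _, hky⟩ := AddSubgroup.exists_nsmul_mem_of_index_ne_zero
    (AddSubgroup.FiniteIndex.index_ne_zero (H := Λ)) y
  obtain ⟨j, hj, l, hl⟩ := hkey (k • y) hky
  refine ⟨j * k, Nat.mul_pos hj hk, l, fun x => ?_⟩
  rw [mul_smul]
  exact hl x

end H84.PG
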