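import Pool.Agent.H84.PG.MeanB

/-!
# Module SmEig: small values, eigenfunctions (VIII.2)

If `v z = 0` for some `z` then `v (z + y) = l * v z = 0` for all `y ∈ Λ`.  Otherwise `v` has no
zeros.  For `y ∈ Λ` with factor `l`: `v (x + n • y) = l ^ n * v x` for all integers `n`, so by
boundedness `‖l‖ = 1`.  So `‖v‖` is constant on the cosets of `Λ`; there are finitely many
cosets, so `‖v x‖ ≥ η` for some `η > 0` and all `x`; then `{x | ‖v x‖ < η}` is empty and has mean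
zero, contradiction to `hJ`.
-/

set_option autoImplicit false

namespace H84.PG

open Filter Topology

theorem sm_eig {X : Type*} [AddCommGroup X] (μ : Mean X) (v : X → ℂ)
    (hb : ∃ C : ℝ, ∀ x, ‖v x‖ ≤ C) (hJ : ∃ δ > 0, ∀ η > 0, δ ≤ μ.m {x | ‖v x‖ < η})
    (Λ : AddSubgroup X) (hΛ : Λ.FiniteIndex)
    (h : ∀ y ∈ Λ, ∃ l : ℂ, ∀ x, v (x + y) = l * v x) : ∃ z, ∀ y ∈ Λ, v (z + y) = 0 := by
  by_contra hcon
  push Not at hcon
  -- `v` has no zeros
  have hv : ∀ z, v z ≠ 0 := by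
    intro z hz
    obtain ⟨y, hy, hne⟩ := hcon z
    obtain ⟨l, hl⟩ := h y hy
    apply hne
    rw [hl, hz, mul_zero]
  -- the factors have norm at most one
  have hle : ∀ y ∈ Λ, ∀ l : ℂ, (∀ x, v (x + y) = l * v x) → ‖l‖ ≤ 1 := by
    intro y _ l hl
    obtain ⟨C, hC⟩ := hb
    have hpow : ∀ n : ℕ, v (n • y) = l ^ n * v 0 := by
      intro n
      induction n with
      | zero => simp
      | succ n ih =>
        rw [succ_nsmul, hl, ih, pow_succ]
        ring
    by_contra hgt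
    push Not at hgt
    have h0 : 0 < ‖v 0‖ := norm_pos_iff.2 (hv 0)
    obtain ⟨n, hn⟩ := pow_unbounded_of_one_lt (C / ‖v 0‖) hgt
    have h1 := hC (n • y)
    rw [hpow, norm_mul, norm_pow] at h1
    rw [div_lt_iff₀ h0] at hn
    linarith
  have hnorm : ∀ y ∈ Λ, ∀ x, ‖v (x + y)‖ = ‖v x‖ := by
    intro y hy x
    obtain ⟨l, hl⟩ := h y hy
    obtain ⟨l', hl'⟩ := h (-y) (Λ.neg_mem hy)
    have h1 : l' * l = 1 := by
      have h2 : v (0 + y + -y) = l' * (l * v 0) := by rw [hl', hl]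
      rw [add_neg_cancel_right] at h2
      have h3 : (l' * l - 1) * v 0 = 0 := by
        rw [sub_mul, one_mul, mul_assoc, ← h2, sub_self]
      exact sub_eq_zero.1 ((mul_eq_zero.1 h3).resolve_right (hv 0))
    have h2 := hle y hy l hl
    have h3 := hle (-y) (Λ.neg_mem hy) l' hl'
    have h4 : ‖l'‖ * ‖l‖ = 1 := by rw [← norm_mul, h1, norm_one]
    have h5 : ‖l‖ = 1 := by
      nlinarith [norm_nonneg l, norm_nonneg l']
    rw [hl, norm_mul, h5, one_mul]
  have : Finite (X ⧸ Λ) := AddSubgroup.finite_quotient_of_finiteIndex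
  obtain ⟨q0, hq0⟩ := Finite.exists_min (fun q : X ⧸ Λ => ‖v q.out‖)
  have hη : 0 < ‖v q0.out‖ := norm_pos_iff.2 (hv _)
  have hall : ∀ x, ‖v q0.out‖ ≤ ‖v x‖ := by
    intro x
    obtain ⟨y, hy⟩ := QuotientAddGroup.mk_out_eq_add Λ x
    have h1 := hq0 (x : X ⧸ Λ)
    have h2 : ‖v ((x : X ⧸ Λ).out)‖ = ‖v x‖ := by
      rw [hy]
      exact hnorm _ y.2 x
    rw [← h2]
    exact h1
  obtain ⟨δ, hδ, hJ⟩ := hJ
  have h1 := hJ _ hη
  have h2 : {x | ‖v x‖ < ‖v q0.out‖} = (∅ : Set X) := by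
    ext x
    simp only [Set.mem_ofPred_eq, Set.mem_empty_iff_false, iff_false, not_lt]
    exact hall x
  rw [h2, μ.m_empty] at h1
  linarith

end H84.PG
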