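import Pool.Agent.H84.PG.Pigeon

/-!
# Module SmJ: small values, closure property (VIII.2)

`hJ` : the sets `Y_η = {x | ‖w x‖ < η}` have mean `≥ δ` for all `η > 0`.  By `pigeon` there are
`J`, `δ' > 0` such that for every `η` some `0 < j ≤ J` has
`m {x | x ∈ Y_η ∧ x + j • y ∈ Y_η} ≥ δ'`.  These sets decrease with `η`, and there are only
finitely many `j`; so one `j` works for `η = 1 / (n + 1)` for infinitely many `n`, hence for all
`η > 0`.  On the set `‖w (x + j • y) - l * w x‖ < (1 + ‖l‖) η`.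
-/

set_option autoImplicit false

namespace H84.PG

open Filter Topology

theorem sm_J {X : Type*} [AddCommGroup X] (μ : Mean X) (w : X → ℂ)
    (hJ : ∃ δ > 0, ∀ η > 0, δ ≤ μ.m {x | ‖w x‖ < η}) (y : X) :
    ∃ j : ℕ, 0 < j ∧ ∀ l : ℂ, ∃ δ > 0, ∀ η > 0,
      δ ≤ μ.m {x | ‖w (x + j • y) - l * w x‖ < η} := by
  obtain ⟨δ, hδ, hδ2⟩ := hJ
  obtain ⟨J, δ', hδ', hP⟩ := pigeon μ δ hδ
  -- one `j` that works for all `η`
  have key : ∃ j : ℕ, 0 < j ∧ ∀ η > 0, δ' ≤ μ.m {x | ‖w x‖ < η ∧ ‖w (x + j • y)‖ < η} := by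
    by_contra hcon
    push Not at hcon
    -- for each `0 < j` a bad `η j`
    have h1 : ∀ j : ℕ, ∃ η > 0, 0 < j → μ.m {x | ‖w x‖ < η ∧ ‖w (x + j • y)‖ < η} < δ' := by
      intro j
      rcases Nat.eq_zero_or_pos j with hj | hj
      · exact ⟨1, one_pos, fun h => absurd h (by omega)⟩
      · obtain ⟨η, hη, hlt⟩ := hcon j hj
        exact ⟨η, hη, fun _ => hlt⟩
    choose e he0 he1 using h1
    -- a common lower bound of `e 0, ..., e J`
    have h2 : ∀ n : ℕ, ∃ η > 0, ∀ j ≤ n, η ≤ e j := by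
      intro n
      induction n with
      | zero => exact ⟨e 0, he0 0, fun j hj => by rw [Nat.le_zero.mp hj]⟩
      | succ n ih =>
        obtain ⟨η, hη, h⟩ := ih
        refine ⟨min η (e (n + 1)), lt_min hη (he0 _), fun j hj => ?_⟩
        rcases Nat.lt_or_ge n j with h' | h'
        · have : j = n + 1 := by omega
          rw [this]
          exact min_le_right _ _
        · exact (min_le_left _ _).trans (h j h')
    obtain ⟨η, hη, hle⟩ := h2 J
    obtain ⟨j, hj0, hjJ, hj⟩ := hP {x | ‖w x‖ < η} (hδ2 η hη) y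
    have h3 := he1 j hj0
    have h4 : μ.m {x | x ∈ {x | ‖w x‖ < η} ∧ x + j • y ∈ {x | ‖w x‖ < η}} ≤
        μ.m {x | ‖w x‖ < e j ∧ ‖w (x + j • y)‖ < e j} := by
      refine μ.m_mono fun x hx => ?_
      have hx1 : ‖w x‖ < η := hx.1
      have hx2 : ‖w (x + j • y)‖ < η := hx.2
      exact ⟨hx1.trans_le (hle j hjJ), hx2.trans_le (hle j hjJ)⟩
    linarith
  obtain ⟨j, hj0, hj⟩ := key
  refine ⟨j, hj0, fun l => ⟨δ', hδ', fun η hη => ?_⟩⟩
  have hl : 0 < 1 + ‖l‖ := by positivity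
  refine (hj (η / (1 + ‖l‖)) (by positivity)).trans (μ.m_mono fun x hx => ?_)
  have hx1 : ‖w x‖ < η / (1 + ‖l‖) := hx.1
  have hx2 : ‖w (x + j • y)‖ < η / (1 + ‖l‖) := hx.2
  show ‖w (x + j • y) - l * w x‖ < η
  calc ‖w (x + j • y) - l * w x‖ ≤ ‖w (x + j • y)‖ + ‖l * w x‖ := norm_sub_le _ _
    _ = ‖w (x + j • y)‖ + ‖l‖ * ‖w x‖ := by rw [norm_mul]
    _ < η / (1 + ‖l‖) + ‖l‖ * (η / (1 + ‖l‖)) :=
        add_lt_add_of_lt_of_le hx2 (mul_le_mul_of_nonneg_left hx1.le (norm_nonneg l))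
    _ = η := by field_simp

end H84.PG
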