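import Pool.Agent.H84.PG.SmAlg
import Pool.Agent.H84.PG.SmJ
import Pool.Agent.H84.PG.SmEig

/-!
# Module SmallPt: nonzero elements of `W` are rarely small (VIII.2)

Suppose not: `m {x | |w x| < η} ≥ δ` for all `η > 0`.  Let
`V = {f : X → ℂ | re ∘ f ∈ W ∧ im ∘ f ∈ W}`, a finite dimensional complex subspace (it is the
image of `W × W`, or: an `ℝ`-linear injection of `V` into `W × W`), translation invariant, of
bounded functions.  Apply `sm_alg` with `J f = ∃ δ > 0, ∀ η > 0, δ ≤ m {x | ‖f x‖ < η}` (closure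
property: `sm_J`) to `w` as a complex function: a nonzero eigenfunction `v` of a subgroup `Λ` of
finite index with `J v`; by `sm_eig`, `v (z + y) = 0` for `y ∈ Λ`, so the real and imaginary
parts of `T_z v` are in `W` and vanish on `Λ`; `Stab.zero` gives `T_z v = 0`, `v = 0`.
-/

set_option autoImplicit false

namespace H84.PG

open Filter Topology

/-- complex functions with real and imaginary part in `W` -/
private def smallPtV {X : Type*} (W : Submodule ℝ (X → ℝ)) : Submodule ℂ (X → ℂ) where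
  carrier := {f | (fun x => (f x).re) ∈ W ∧ (fun x => (f x).im) ∈ W}
  zero_mem' := ⟨W.zero_mem, W.zero_mem⟩
  add_mem' := by
    rintro f g ⟨h1, h2⟩ ⟨h3, h4⟩
    exact ⟨W.add_mem h1 h3, W.add_mem h2 h4⟩
  smul_mem' := by
    rintro c f ⟨h1, h2⟩
    constructor
    · have h3 := W.sub_mem (W.smul_mem c.re h1) (W.smul_mem c.im h2)
      convert h3 using 1
      funext x
      exact Complex.mul_re c (f x)
    · have h3 := W.add_mem (W.smul_mem c.re h2) (W.smul_mem c.im h1)
      convert h3 using 1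
      funext x
      exact Complex.mul_im c (f x)

private theorem smallPtV_fd {X : Type*} (W : Submodule ℝ (X → ℝ)) (h : FiniteDimensional ℝ W) :
    FiniteDimensional ℂ (smallPtV W) := by
  let φ : smallPtV W →ₗ[ℝ] W × W :=
    { toFun := fun f => (⟨fun x => (f.1 x).re, f.2.1⟩, ⟨fun x => (f.1 x).im, f.2.2⟩)
      map_add' := by
        intro f g
        rfl
      map_smul' := by
        intro c f
        refine Prod.ext (Subtype.ext (funext fun x => ?_)) (Subtype.ext (funext fun x => ?_))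
        · change (c • f.1 x).re = c * (f.1 x).re
          exact Complex.smul_re c _
        · change (c • f.1 x).im = c * (f.1 x).im
          exact Complex.smul_im c _ }
  have hφ : Function.Injective φ := by
    intro f g hfg
    have h1 := congrArg (fun p : W × W => p.1.1) hfg
    have h2 := congrArg (fun p : W × W => p.2.1) hfg
    apply Subtype.ext
    funext x
    exact Complex.ext (congrFun h1 x) (congrFun h2 x)
  have h1 : FiniteDimensional ℝ (smallPtV W) := FiniteDimensional.of_injective φ hφ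
  exact Module.Finite.of_restrictScalars_finite ℝ ℂ (smallPtV W)

theorem small_pt {X : Type*} [AddCommGroup X] (hX : AddGroup.FG X) (μ : Mean X)
    {W : Submodule ℝ (X → ℝ)} (hW : Stab W) {w : X → ℝ} (hw : w ∈ W) (h0 : w ≠ 0) {δ : ℝ}
    (hδ : 0 < δ) : ∃ η > 0, μ.m {x | |w x| < η} ≤ δ := by
  by_contra hcon
  push Not at hcon
  have hw1 : (fun x => (w x : ℂ)) ∈ smallPtV W := ⟨hw, W.zero_mem⟩
  have hw2 : (fun x => (w x : ℂ)) ≠ 0 := by
    intro h1
    apply h0
    funext x
    exact Complex.ofReal_eq_zero.mp (congrFun h1 x)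
  have hw3 : ∃ δ > 0, ∀ η > 0, δ ≤ μ.m {x | ‖(fun x => (w x : ℂ)) x‖ < η} := by
    refine ⟨δ, hδ, fun η hη => ?_⟩
    simp only [Complex.norm_real, Real.norm_eq_abs]
    exact (hcon η hη).le
  obtain ⟨v, hv, hv0, hJv, Λ, hΛ, hev⟩ := sm_alg hX (smallPtV W) (smallPtV_fd W hW.fd)
    (fun f hf y => ⟨hW.inv _ hf.1 y, hW.inv _ hf.2 y⟩)
    (fun f => ∃ δ > 0, ∀ η > 0, δ ≤ μ.m {x | ‖f x‖ < η})
    (fun f hf y => sm_J μ f hf y) (fun x => (w x : ℂ)) hw1 hw2 hw3
  have hb : ∃ C : ℝ, ∀ x, ‖v x‖ ≤ C := by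
    obtain ⟨C, hC⟩ := hW.bdd _ hv.1
    obtain ⟨D, hD⟩ := hW.bdd _ hv.2
    exact ⟨C + D, fun x => (Complex.norm_le_abs_re_add_abs_im _).trans (add_le_add (hC x) (hD x))⟩
  obtain ⟨z, hz⟩ := sm_eig μ v hb hJv Λ hΛ hev
  have h1 := hW.zero Λ hΛ _ (hW.inv _ hv.1 z) (fun x hx => by
    change (v (x + z)).re = 0
    rw [add_comm, hz x hx, Complex.zero_re])
  have h2 := hW.zero Λ hΛ _ (hW.inv _ hv.2 z) (fun x hx => by
    change (v (x + z)).im = 0
    rw [add_comm, hz x hx, Complex.zero_im])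
  apply hv0
  funext x
  have h3 : (v (x - z + z)).re = 0 := congrFun h1 (x - z)
  have h4 : (v (x - z + z)).im = 0 := congrFun h2 (x - z)
  rw [sub_add_cancel] at h3 h4
  exact Complex.ext h3 h4

end H84.PG
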