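import Pool.Agent.H84.PG.SmallPt
import Pool.Agent.H84.PG.SnCpt

/-!
# Module SmallUnif: uniform version of VIII.2

Suppose not.  For every `n` there is `w_n ∈ W` with `m {x | |w_n x| < sn w_n / (n + 1)} > δ`; so
`w_n ≠ 0`, normalise `sn w_n = 1`.  By `sn_cpt` `sn (w_n - v) → 0` for some `v ∈ W`; `sn v = 1`,
so `v ≠ 0`.  Let `η > 0` with `m {x | |v x| < η} ≤ δ` (`small_pt`).  For `n` with
`1 / (n + 1) + sn (w_n - v) < η` the first set is contained in the second: contradiction.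
-/

set_option autoImplicit false

namespace H84.PG

open Filter Topology

theorem small_unif {X : Type*} [AddCommGroup X] (hX : AddGroup.FG X) (μ : Mean X)
    {W : Submodule ℝ (X → ℝ)} (hW : Stab W) {δ : ℝ} (hδ : 0 < δ) :
    ∃ η > 0, ∀ w ∈ W, μ.m {x | |w x| < η * sn w} ≤ δ := by
  by_contra hcon
  push Not at hcon
  have h1 : ∀ n : ℕ, ∃ w ∈ W, δ < μ.m {x | |w x| < (1 / ((n : ℝ) + 1)) * sn w} := fun n =>
    hcon _ (by positivity)
  choose w hw hlt using h1
  have hsn : ∀ n, 0 < sn (w n) := by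
    intro n
    refine lt_of_le_of_ne (sn_nonneg _) fun e => ?_
    have h2 := hlt n
    rw [← e, mul_zero] at h2
    have h3 : {x : X | |w n x| < 0} = ∅ := by
      ext x
      simp
    rw [h3, μ.m_empty] at h2
    linarith
  have hb := hW.bdd
  let v : ℕ → X → ℝ := fun n x => (sn (w n))⁻¹ * w n x
  have hvW : ∀ n, v n ∈ W := fun n => W.smul_mem (sn (w n))⁻¹ (hw n)
  have hsv : ∀ n, sn (v n) = 1 := by
    intro n
    have h2 := sn_smul (sn (w n))⁻¹ (w n)
    rw [abs_of_pos (inv_pos.mpr (hsn n)), inv_mul_cancel₀ (hsn n).ne'] at h2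
    exact h2
  obtain ⟨z, hz, hlim⟩ := sn_cpt hW.fd hb v 1
    (Eventually.of_forall fun n => ⟨hvW n, (hsv n).le⟩)
  have hz0 : z ≠ 0 := by
    rintro rfl
    have h2 : Tendsto (fun n => (1 : ℝ)) UU (𝓝 0) := by
      refine hlim.congr fun n => ?_
      have h3 : (fun x => v n x - (0 : X → ℝ) x) = v n := by
        funext x
        simp
      rw [h3, hsv]
    exact one_ne_zero (tendsto_nhds_unique tendsto_const_nhds h2)
  obtain ⟨η, hη, hle⟩ := small_pt hX μ hW hz hz0 hδ
  have e1 : ∀ᶠ n in UU, sn (fun x => v n x - z x) < η / 2 :=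
    hlim.eventually (gt_mem_nhds (by positivity))
  have e2 : ∀ᶠ n : ℕ in UU, 1 / ((n : ℝ) + 1) < η / 2 :=
    (tendsto_one_div_add_atTop_nhds_zero_nat.mono_left UU_le).eventually
      (gt_mem_nhds (by positivity))
  obtain ⟨n, hn1, hn2⟩ := (e1.and e2).exists
  have h2 : {x | |w n x| < (1 / ((n : ℝ) + 1)) * sn (w n)} ⊆ {x | |z x| < η} := by
    intro x hx
    have hx' : |w n x| < (1 / ((n : ℝ) + 1)) * sn (w n) := hx
    have h3 : |v n x - z x| ≤ sn (fun x => v n x - z x) :=
      le_sn (((hb _ (hw n)).smul _).sub (hb _ hz)) x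
    have h4 : |v n x| < 1 / ((n : ℝ) + 1) := by
      show |(sn (w n))⁻¹ * w n x| < _
      rw [abs_mul, abs_of_pos (inv_pos.mpr (hsn n)), inv_mul_lt_iff₀ (hsn n), mul_comm]
      exact hx'
    have h5 : |z x| ≤ |v n x| + |v n x - z x| := by
      have h6 := abs_sub (v n x) (v n x - z x)
      rw [sub_sub_cancel] at h6
      exact h6
    show |z x| < η
    linarith
  have h3 := (hlt n).trans_le ((μ.m_mono h2).trans hle)
  exact lt_irrefl _ h3

end H84.PG
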